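import Mathlib

set_option autoImplicit false

namespace Pool.Agent.H998R3

/-- nonzero pair -/
def nz (p : ℤ × ℤ) : Bool := decide (p ≠ (0, 0))

@[simp] theorem nz00 : nz (0, 0) = false := rfl

structure Good (N : ℤ) (R : List (ℤ × ℤ) → Prop) : Prop where
  refl : ∀ l : List ℤ, R (l.map fun a => (a, a))
  symm : ∀ L, R L → R (L.map Prod.swap)
  trans : ∀ T : List (ℤ × ℤ × ℤ), R (T.map fun t => (t.1, t.2.1)) →
    R (T.map fun t => (t.2.1, t.2.2)) → R (T.map fun t => (t.1, t.2.2))
  zero : ∀ L, R L ↔ R (L.filter nz)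
  ap : ∀ T : List (ℤ × ℤ × ℤ), (∀ t ∈ T, t.1 + t.2.2 = 2 * t.2.1) →
    (T.map fun t => (t.2.1 - t.1) ^ 2).sum = N →
    (R (T.map fun t => (t.1, t.2.1)) ∨ R (T.map fun t => (t.2.1, t.2.2)) ∨
      R (T.map fun t => (t.1, t.2.2))) ∧
    ¬ (R (T.map fun t => (t.1, t.2.1)) ∧ R (T.map fun t => (t.2.1, t.2.2)))

def dg (l : List ℤ) : List (ℤ × ℤ) := l.map fun a => (a, a)

/-- delete zeros -/
def dz (l : List ℤ) : List ℤ := l.filter (fun a => decide (a ≠ 0))

section
variable {N : ℤ} {R : List (ℤ × ℤ) → Prop} (hR : Good N R)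
include hR

theorem Good.congr {L L' : List (ℤ × ℤ)} (h : L.filter nz = L'.filter nz) (hL : R L) : R L' := by
  rw [hR.zero] at hL ⊢
  rwa [← h]

theorem Good.tr {ι : Type} (T : List ι) (f g h : ι → ℤ) (h1 : R (T.map fun c => (f c, g c)))
    (h2 : R (T.map fun c => (g c, h c))) : R (T.map fun c => (f c, h c)) := by
  have := hR.trans (T.map fun c => (f c, g c, h c))
  simp only [List.map_map, Function.comp_def] at this
  exact this h1 h2

theorem Good.sy {ι : Type} (T : List ι) (f g : ι → ℤ) (h1 : R (T.map fun c => (f c, g c))) :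
    R (T.map fun c => (g c, f c)) := by
  have := hR.symm _ h1
  simpa only [List.map_map, Function.comp_def, Prod.swap_prod_mk] using this

theorem Good.rf {ι : Type} (T : List ι) (f : ι → ℤ) : R (T.map fun c => (f c, f c)) := by
  have := hR.refl (T.map f)
  simpa only [List.map_map, Function.comp_def] using this

theorem Good.ap3 {ι : Type} (T : List ι) (f g h : ι → ℤ) (h1 : ∀ c ∈ T, f c + h c = 2 * g c)
    (h2 : (T.map fun c => (g c - f c) ^ 2).sum = N) :
    (R (T.map fun c => (f c, g c)) ∨ R (T.map fun c => (g c, h c)) ∨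
      R (T.map fun c => (f c, h c))) ∧
    ¬ (R (T.map fun c => (f c, g c)) ∧ R (T.map fun c => (g c, h c))) := by
  have := hR.ap (T.map fun c => (f c, g c, h c)) (by
    intro t ht
    simp only [List.mem_map] at ht
    obtain ⟨c, hc, rfl⟩ := ht
    exact h1 c hc) (by simpa only [List.map_map, Function.comp_def] using h2)
  simpa only [List.map_map, Function.comp_def] using this

omit hR in
theorem dz_append (a b : List ℤ) : dz (a ++ b) = dz a ++ dz b := by simp [dz]

omit hR in
theorem dg_append (a b : List ℤ) : dg (a ++ b) = dg a ++ dg b := by simp [dg]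

omit hR in
theorem filter_dg (l : List ℤ) : (dg l).filter nz = dg (dz l) := by
  simp only [dg, dz, List.filter_map]
  congr 1
  apply List.filter_congr
  intro x _
  simp [nz]

end

/-- letter `l` between `u` and `t` is inessential -/
def Free (R : List (ℤ × ℤ) → Prop) (u : List ℤ) (l : ℤ) (t : List ℤ) : Prop :=
  R (dg u ++ [(l, 0), (0, l)] ++ dg t)

section
variable {N : ℤ} {R : List (ℤ × ℤ) → Prop} (hR : Good N R)
include hR

theorem Free.congr {u u' t t' : List ℤ} {l : ℤ} (hu : dz u = dz u') (ht : dz t = dz t')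
    (h : Free R u l t) : Free R u' l t' := by
  unfold Free at *
  refine hR.congr ?_ h
  simp only [List.filter_append, filter_dg, hu, ht]

/-- essential letters cannot disappear -/
theorem ess {ι : Type} (TA : List ι) (c0 : ι) (TB : List ι) (f h : ι → ℤ) (h0 : h c0 = 0)
    (hyp : R ((TA ++ c0 :: TB).map fun c => (f c, h c))) :
    Free R (TA.map f) (f c0) (TB.map f) := by
  have T1 := hR.trans (TA.map (fun c => (f c, h c, f c)) ++ [(f c0, 0, 0), (0, 0, f c0)] ++
    TB.map (fun c => (f c, h c, f c)))
  simp only [List.map_append, List.map_map, Function.comp_def, List.map_cons, List.map_nil] at T1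
  have T2 := T1 (hR.congr (by simp [List.filter_append, List.filter_cons, h0]) hyp)
    (by
      have := hR.sy _ f h hyp
      refine hR.congr ?_ this
      simp [List.filter_append, List.filter_cons, h0])
  unfold Free
  simpa [dg, Function.comp_def] using T2

theorem shift {ι : Type} (TA : List ι) (c0 : ι) (TB : List ι) (f h : ι → ℤ) (h0 : h c0 = f c0)
    (hyp : R ((TA ++ c0 :: TB).map fun c => (f c, h c)))
    (hfree : Free R (TA.map h) (f c0) (TB.map h)) :
    Free R (TA.map f) (f c0) (TB.map f) := by
  -- points X=(f,b,0,f), X'=(f,0,b,f), Z=(h,b,0,h), Z'=(h,0,b,h)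
  have T1 := hR.trans (TA.map (fun c => (f c, h c, h c)) ++ [(f c0, f c0, 0), (0, 0, f c0)] ++
    TB.map (fun c => (f c, h c, h c)))
  simp only [List.map_append, List.map_map, Function.comp_def, List.map_cons, List.map_nil] at T1
  have h1 := T1 (hR.congr (by simp [List.filter_append, List.filter_cons, h0]) hyp)
    (by simpa [Free, dg, Function.comp_def] using hfree)
  have T2 := hR.trans (TA.map (fun c => (f c, h c, f c)) ++ [(f c0, 0, 0), (0, f c0, f c0)] ++
    TB.map (fun c => (f c, h c, f c)))
  simp only [List.map_append, List.map_map, Function.comp_def, List.map_cons, List.map_nil] at T2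
  have h2 := T2 h1 (by
      have := hR.sy _ f h hyp
      refine hR.congr ?_ this
      simp [List.filter_append, List.filter_cons, h0])
  unfold Free
  simpa [dg, Function.comp_def] using h2

end

end Pool.Agent.H998R3
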