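import Pool.Agent.H998R3.LA

set_option autoImplicit false

namespace Pool.Agent.H998R3

def D (l : List ℤ) : List ℤ := l.map (fun a => 2 * a)
def q (l : List ℤ) : ℤ := (l.map (fun a => a ^ 2)).sum

theorem q_append (a b : List ℤ) : q (a ++ b) = q a + q b := by simp [q]
theorem q_nonneg (a : List ℤ) : 0 ≤ q a := by
  unfold q; apply List.sum_nonneg; intro x hx; simp only [List.mem_map] at hx
  obtain ⟨y, _, rfl⟩ := hx; positivity

/-- the point selecting the labels in `S` -/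
def P (S : List ℕ) (c : ℤ × ℕ) : ℤ := if c.2 = 0 then c.1 else if c.2 ∈ S then 2 * c.1 else 0

def lab (l : List ℤ) (k : ℕ) : List (ℤ × ℕ) := l.map (fun a => (a, k))

theorem P_lab0 (S : List ℕ) (l : List ℤ) : (lab l 0).map (P S) = l := by
  simp [lab, P, Function.comp_def]
theorem P_lab1 (S : List ℕ) (l : List ℤ) (k : ℕ) (hk : k ≠ 0) (h : k ∈ S) :
    (lab l k).map (P S) = D l := by
  simp [lab, P, hk, h, D]
theorem dz_P_lab2 (S : List ℕ) (l : List ℤ) (k : ℕ) (hk : k ≠ 0) (h : k ∉ S) :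
    dz ((lab l k).map (P S)) = [] := by
  simp [lab, P, hk, h, dz]

theorem dz_cons (a : ℤ) (l : List ℤ) : dz (a :: l) = (if a = 0 then [] else [a]) ++ dz l := by
  unfold dz; rw [List.filter_cons]; by_cases h : a = 0 <;> simp [h]

theorem dz_nil : dz [] = [] := rfl

theorem dz_P_lab (S : List ℕ) (l : List ℤ) (k : ℕ) :
    dz ((lab l k).map (P S)) = if k = 0 then dz l else if k ∈ S then dz (D l) else [] := by
  split_ifs with h1 h2
  · subst h1; rw [P_lab0]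
  · rw [P_lab1 _ _ _ h1 h2]
  · rw [dz_P_lab2 _ _ _ h1 h2]

theorem D_append (a b : List ℤ) : D (a ++ b) = D a ++ D b := by simp [D]
theorem D_single (a : ℤ) : D [a] = [2 * a] := by simp [D]

theorem ap_sum (S : List ℕ) (T : List (ℤ × ℕ)) :
    (T.map fun c => (c.1 - P S c) ^ 2).sum = (T.map fun c => if c.2 = 0 then 0 else c.1 ^ 2).sum := by
  congr 1
  apply List.map_congr_left
  intro c _
  unfold P
  split_ifs <;> ring

theorem apP {N : ℤ} {R : List (ℤ × ℤ) → Prop} (hR : Good N R) (S S' : List ℕ) (T : List (ℤ × ℕ))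
    (hS : ∀ c ∈ T, c.2 ≠ 0 → (c.2 ∈ S ↔ c.2 ∉ S'))
    (hN : (T.map fun c => if c.2 = 0 then 0 else c.1 ^ 2).sum = N) :
    (R (T.map fun c => (P S c, c.1)) ∨ R (T.map fun c => (c.1, P S' c)) ∨
      R (T.map fun c => (P S c, P S' c))) ∧
    ¬ (R (T.map fun c => (P S c, c.1)) ∧ R (T.map fun c => (c.1, P S' c))) := by
  apply hR.ap3 T (P S) (fun c => c.1) (P S')
  · intro c hc
    unfold P
    by_cases h0 : c.2 = 0
    · simp [h0]; ring
    · have := hS c hc h0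
      by_cases h1 : c.2 ∈ S
      · have h2 := this.1 h1
        simp [h0, h1, h2]
      · have h2 : c.2 ∈ S' := by by_contra h; exact h1 (this.2 h)
        simp [h0, h1, h2]
  · rw [ap_sum]; exact hN

theorem lab_sum0 (l : List ℤ) :
    ((lab l 0).map fun c => if c.2 = 0 then (0:ℤ) else c.1 ^ 2).sum = 0 := by
  simp [lab, Function.comp_def]
theorem lab_sum1 (l : List ℤ) (k : ℕ) (hk : k ≠ 0) :
    ((lab l k).map fun c => if c.2 = 0 then (0:ℤ) else c.1 ^ 2).sum = q l := by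
  simp [lab, Function.comp_def, hk, q]

theorem mem_lab {l : List ℤ} {k : ℕ} {c : ℤ × ℕ} (h : c ∈ lab l k) : c.2 = k := by
  simp only [lab, List.mem_map] at h
  obtain ⟨a, _, rfl⟩ := h
  rfl

section
variable {N : ℤ} {R : List (ℤ × ℤ) → Prop} (hR : Good N R)
include hR

theorem JL0 (α g α' y z γ : List ℤ) (β : ℤ) (hN : 2 * (q g + 3 * β ^ 2 + q y + q z) = N) :
    Free R (α ++ D g ++ α' ++ [2 * β] ++ D y) (2 * β) (D z ++ [2 * β] ++ γ) := by
  by_contra hcon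
  set T : List (ℤ × ℕ) := lab α 0 ++ (lab g 11 ++ (lab g 12 ++ (lab α' 0 ++ (lab [β] 1 ++ (lab y 2 ++
    (lab [β] 3 ++ (lab [β] 4 ++ (lab y 5 ++ (lab z 6 ++ (lab [β] 7 ++ (lab [β] 8 ++ (lab z 9 ++
    (lab [β] 10 ++ lab γ 0))))))))))))) with hT
  have hsum : (T.map fun c => if c.2 = 0 then (0:ℤ) else c.1 ^ 2).sum = N := by
    rw [← hN, hT]
    simp only [List.map_append, List.sum_append, lab_sum0, lab_sum1 _ _ (show (11:ℕ) ≠ 0 by decide),
      lab_sum1 _ _ (show (12:ℕ) ≠ 0 by decide), lab_sum1 _ _ (show (2:ℕ) ≠ 0 by decide),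
      lab_sum1 _ _ (show (5:ℕ) ≠ 0 by decide), lab_sum1 _ _ (show (6:ℕ) ≠ 0 by decide),
      lab_sum1 _ _ (show (9:ℕ) ≠ 0 by decide), lab_sum1 _ _ (show (1:ℕ) ≠ 0 by decide),
      lab_sum1 _ _ (show (3:ℕ) ≠ 0 by decide), lab_sum1 _ _ (show (4:ℕ) ≠ 0 by decide),
      lab_sum1 _ _ (show (7:ℕ) ≠ 0 by decide), lab_sum1 _ _ (show (8:ℕ) ≠ 0 by decide),
      lab_sum1 _ _ (show (10:ℕ) ≠ 0 by decide)]
    simp [q]
    ring
  have hlab : ∀ c ∈ T, c.2 = 0 ∨ c.2 = 11 ∨ c.2 = 12 ∨ c.2 = 1 ∨ c.2 = 2 ∨ c.2 = 3 ∨ c.2 = 4 ∨ c.2 = 5 ∨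
      c.2 = 6 ∨ c.2 = 7 ∨ c.2 = 8 ∨ c.2 = 9 ∨ c.2 = 10 := by
    intro c hc
    rw [hT] at hc
    simp only [List.mem_append] at hc
    rcases hc with h | h | h | h | h | h | h | h | h | h | h | h | h | h | h <;>
    (have := mem_lab h; omega)
  have hS1 : ∀ c ∈ T, c.2 ≠ 0 → (c.2 ∈ [1,2,3,6,7,11] ↔ c.2 ∉ [4,5,8,9,10,12]) := by
    intro c hc h0
    have := hlab c hc
    rcases this with h|h|h|h|h|h|h|h|h|h|h|h|h <;> simp [h] at h0 ⊢
  have hS2 : ∀ c ∈ T, c.2 ≠ 0 → (c.2 ∈ [1,2,4,6,8,11] ↔ c.2 ∉ [3,5,7,9,10,12]) := by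
    intro c hc h0
    have := hlab c hc
    rcases this with h|h|h|h|h|h|h|h|h|h|h|h|h <;> simp [h] at h0 ⊢
  have A1 := (apP hR [1,2,3,6,7,11] [4,5,8,9,10,12] T hS1 hsum).1
  have A2 := (apP hR [1,2,4,6,8,11] [3,5,7,9,10,12] T hS2 hsum).1
  -- splittings
  have e1 : T = (lab α 0 ++ (lab g 11 ++ (lab g 12 ++ lab α' 0))) ++ (β, 1) :: (lab y 2 ++
    (lab [β] 3 ++ (lab [β] 4 ++ (lab y 5 ++ (lab z 6 ++ (lab [β] 7 ++ (lab [β] 8 ++ (lab z 9 ++
    (lab [β] 10 ++ lab γ 0))))))))) := by simp [hT, lab]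
  have e3 : T = (lab α 0 ++ (lab g 11 ++ (lab g 12 ++ (lab α' 0 ++ (lab [β] 1 ++ lab y 2))))) ++
    (β, 3) :: (lab [β] 4 ++ (lab y 5 ++ (lab z 6 ++ (lab [β] 7 ++ (lab [β] 8 ++ (lab z 9 ++
    (lab [β] 10 ++ lab γ 0))))))) := by simp [hT, lab]
  have e4 : T = (lab α 0 ++ (lab g 11 ++ (lab g 12 ++ (lab α' 0 ++ (lab [β] 1 ++ (lab y 2 ++
    lab [β] 3)))))) ++
    (β, 4) :: (lab y 5 ++ (lab z 6 ++ (lab [β] 7 ++ (lab [β] 8 ++ (lab z 9 ++
    (lab [β] 10 ++ lab γ 0)))))) := by simp [hT, lab]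
  have e8 : T = (lab α 0 ++ (lab g 11 ++ (lab g 12 ++ (lab α' 0 ++ (lab [β] 1 ++ (lab y 2 ++
    (lab [β] 3 ++ (lab [β] 4 ++ (lab y 5 ++ (lab z 6 ++ lab [β] 7)))))))))) ++
    (β, 8) :: (lab z 9 ++ (lab [β] 10 ++ lab γ 0)) := by simp [hT, lab]
  have key : ∀ (S : List ℕ) (TA : List (ℤ × ℕ)) (k : ℕ) (TB : List (ℤ × ℕ)) , k ≠ 0 → k ∈ S →
      dz (TA.map (P S)) = dz (α ++ D g ++ α' ++ [2 * β] ++ D y) →
      dz (TB.map (P S)) = dz (D z ++ [2 * β] ++ γ) →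
      ¬ Free R (TA.map (P S)) (P S (β, k)) (TB.map (P S)) := by
    intro S TA k TB hk hkS h1 h2 hf
    apply hcon
    have hp : P S (β, k) = 2 * β := by simp [P, hk, hkS]
    rw [hp] at hf
    exact Free.congr hR h1 h2 hf
  have n11 : ¬ R (T.map fun c => (P [1,2,3,6,7,11] c, P [4,5,8,9,10,12] c)) := by
    intro h
    rw [e3] at h
    refine key [1,2,3,6,7,11] _ 3 _ (by decide) (by decide) ?_ ?_ (ess hR _ (β, 3) _ _ _ (by simp [P]) h)
    · simp [dz_append, dz_P_lab, D_single, dz_cons, dz_nil]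
    · simp [dz_append, dz_P_lab, D_single, dz_cons, dz_nil]
  have n22 : ¬ R (T.map fun c => (P [1,2,4,6,8,11] c, P [3,5,7,9,10,12] c)) := by
    intro h
    rw [e4] at h
    refine key [1,2,4,6,8,11] _ 4 _ (by decide) (by decide) ?_ ?_ (ess hR _ (β, 4) _ _ _ (by simp [P]) h)
    · simp [dz_append, dz_P_lab, D_single, dz_cons, dz_nil]
    · simp [dz_append, dz_P_lab, D_single, dz_cons, dz_nil]
  have n12 : ¬ R (T.map fun c => (P [1,2,3,6,7,11] c, P [1,2,4,6,8,11] c)) := by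
    intro h
    rw [e3] at h
    refine key [1,2,3,6,7,11] _ 3 _ (by decide) (by decide) ?_ ?_ (ess hR _ (β, 3) _ _ _ (by simp [P]) h)
    · simp [dz_append, dz_P_lab, D_single, dz_cons, dz_nil]
    · simp [dz_append, dz_P_lab, D_single, dz_cons, dz_nil]
  have n12' : ¬ R (T.map fun c => (P [4,5,8,9,10,12] c, P [3,5,7,9,10,12] c)) := by
    intro h
    rw [e8] at h
    refine key [4,5,8,9,10,12] _ 8 _ (by decide) (by decide) ?_ ?_ (ess hR _ (β, 8) _ _ _ (by simp [P]) h)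
    · simp [dz_append, dz_P_lab, D_single, dz_cons, dz_nil]
    · simp [dz_append, dz_P_lab, D_single, dz_cons, dz_nil]
  have m12 : ¬ R (T.map fun c => (P [1,2,3,6,7,11] c, P [3,5,7,9,10,12] c)) := by
    intro h
    have h1 := h
    rw [e1] at h1
    have f1 := ess hR _ (β, 1) _ _ _ (by simp [P]) h1
    rw [e3] at h
    refine key [1,2,3,6,7,11] _ 3 _ (by decide) (by decide) ?_ ?_ (shift hR _ (β, 3) _ _ _ (by simp [P]) h ?_)
    · simp [dz_append, dz_P_lab, D_single, dz_cons, dz_nil]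
    · simp [dz_append, dz_P_lab, D_single, dz_cons, dz_nil]
    · have hp : P [1,2,3,6,7,11] (β, 3) = P [1,2,3,6,7,11] (β, 1) := by simp [P]
      rw [hp]
      refine Free.congr hR ?_ ?_ f1
      · simp [dz_append, dz_P_lab, D_single, dz_cons, dz_nil]
      · simp [dz_append, dz_P_lab, D_single, dz_cons, dz_nil]
  have m21 : ¬ R (T.map fun c => (P [1,2,4,6,8,11] c, P [4,5,8,9,10,12] c)) := by
    intro h
    have h1 := h
    rw [e1] at h1
    have f1 := ess hR _ (β, 1) _ _ _ (by simp [P]) h1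
    rw [e4] at h
    refine key [1,2,4,6,8,11] _ 4 _ (by decide) (by decide) ?_ ?_ (shift hR _ (β, 4) _ _ _ (by simp [P]) h ?_)
    · simp [dz_append, dz_P_lab, D_single, dz_cons, dz_nil]
    · simp [dz_append, dz_P_lab, D_single, dz_cons, dz_nil]
    · have hp : P [1,2,4,6,8,11] (β, 4) = P [1,2,4,6,8,11] (β, 1) := by simp [P]
      rw [hp]
      refine Free.congr hR ?_ ?_ f1
      · simp [dz_append, dz_P_lab, D_single, dz_cons, dz_nil]
      · simp [dz_append, dz_P_lab, D_single, dz_cons, dz_nil]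
  rcases A1 with a | a | a
  · rcases A2 with b | b | b
    · exact n12 (hR.tr T _ (fun c => c.1) _ a (hR.sy T _ _ b))
    · exact m12 (hR.tr T _ (fun c => c.1) _ a b)
    · exact n22 b
  · rcases A2 with b | b | b
    · exact m21 (hR.tr T _ (fun c => c.1) _ b a)
    · exact n12' (hR.tr T _ (fun c => c.1) _ (hR.sy T _ _ a) b)
    · exact n22 b
  · exact n11 a

end

end Pool.Agent.H998R3
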