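import Pool.Agent.H998R3.LB

set_option autoImplicit false

namespace Pool.Agent.H998R3

def AllFree (R : List (ℤ × ℤ) → Prop) (u v t : List ℤ) : Prop :=
  ∀ v1 l v2, v = v1 ++ l :: v2 → Free R (u ++ v1) l (v2 ++ t)

theorem dz_map_filter {ι : Type} (M : List ι) (f : ι → ℤ) :
    (M.map fun c => (f c, (0:ℤ))).filter nz = (dz (M.map f)).map (fun a => (a, 0)) := by
  simp only [dz, List.filter_map, List.map_map]
  congr 1
  apply List.filter_congr
  intro x _
  simp [nz]

theorem dz_map_filter' {ι : Type} (M : List ι) (f : ι → ℤ) :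
    (M.map fun c => ((0:ℤ), f c)).filter nz = (dz (M.map f)).map (fun a => (0, a)) := by
  simp only [dz, List.filter_map, List.map_map]
  congr 1
  apply List.filter_congr
  intro x _
  simp [nz]

theorem dz_rep (n : ℕ) : dz (List.replicate n 0) = [] := by
  simp [dz]

theorem filter_zz {ι : Type} (M : List ι) : (M.map fun _ => ((0:ℤ), (0:ℤ))).filter nz = [] := by
  simp [List.filter_map, nz]

section
variable {N : ℤ} {R : List (ℤ × ℤ) → Prop} (hR : Good N R)
include hR

theorem AllFree.congr {u u' v t t' : List ℤ} (hu : dz u = dz u') (ht : dz t = dz t')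
    (h : AllFree R u v t) : AllFree R u' v t' := by
  intro v1 l v2 hv
  exact Free.congr hR (by simp [dz_append, hu]) (by simp [dz_append, ht]) (h v1 l v2 hv)

omit hR in
theorem AllFree.sub {u v1 v2 v3 t : List ℤ} (h : AllFree R u (v1 ++ v2 ++ v3) t) :
    AllFree R (u ++ v1) v2 (v3 ++ t) := by
  intro w1 l w2 hw
  have := h (v1 ++ w1) l (w2 ++ v3) (by simp [hw])
  simpa using this

theorem JL (n : ℕ) (ρ y z γ : List ℤ) (β : ℤ) (N2 : ℤ) (hN : N = 2 * N2) (hn : N2 ≤ n)
    (hle : 3 * β ^ 2 + q y + q z ≤ N2) :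
    Free R (List.replicate n 2 ++ ρ ++ [2 * β] ++ D y) (2 * β) (D z ++ [2 * β] ++ γ) := by
  obtain ⟨k, hk⟩ : ∃ k : ℕ, (k : ℤ) = N2 - (3 * β ^ 2 + q y + q z) :=
    ⟨(N2 - (3 * β ^ 2 + q y + q z)).toNat, by omega⟩
  have hkn : k ≤ n := by
    have h1 := q_nonneg y
    have h2 := q_nonneg z
    have h3 : 0 ≤ β ^ 2 := by positivity
    have : (k : ℤ) ≤ n := by linarith
    exact_mod_cast this
  have h := JL0 hR (List.replicate (n - k) 2) (List.replicate k 1) ρ y z γ β (by
    have : q (List.replicate k 1) = k := by simp [q]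
    rw [this, hk, hN]; ring)
  have e : List.replicate (n - k) (2:ℤ) ++ D (List.replicate k 1) = List.replicate n 2 := by
    have : D (List.replicate k 1) = List.replicate k 2 := by simp [D]
    rw [this, List.replicate_append_replicate, Nat.sub_add_cancel hkn]
  rw [e] at h
  exact h

theorem move (v : List ℤ) : ∀ (u t : List ℤ), AllFree R u v t →
    R (dg u ++ v.map (fun a => (0, a)) ++ v.map (fun a => (a, 0)) ++ dg t) := by
  induction v with
  | nil => intro u t _; simpa [dg] using hR.refl (u ++ t)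
  | cons l v ih =>
    intro u t h
    have T1 := hR.trans (u.map (fun a => (a, a, a)) ++ [(0, l, l)] ++ v.map (fun a => (0, 0, a)) ++
      [(l, 0, 0)] ++ v.map (fun a => (a, a, 0)) ++ t.map (fun a => (a, a, a)))
    simp only [List.map_append, List.map_map, Function.comp_def, List.map_cons, List.map_nil] at T1
    have h1 := T1 (by
      have hf := hR.symm _ (h [] l v rfl)
      refine hR.congr ?_ hf
      simp [List.filter_append, List.filter_cons, dg, Function.comp_def, filter_zz]) (by
      have hf := ih (u ++ [l]) t (by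
        intro v1 l1 v2 hv
        have := h (l :: v1) l1 v2 (by simp [hv])
        simpa using this)
      refine hR.congr ?_ hf
      simp [List.filter_append, List.filter_cons, dg, Function.comp_def])
    refine hR.congr ?_ h1
    simp [List.filter_append, List.filter_cons, dg, Function.comp_def]

theorem MVp (M : List (ℤ × ℤ)) (u w t : List ℤ) (h : AllFree R u w t)
    (h1 : dz (M.map Prod.fst) = w) (h2 : dz (M.map Prod.snd) = w) :
    R (dg u ++ M ++ dg t) := by
  have hm := move hR w u t h
  have hw : dz w = w := by rw [← h1]; simp [dz]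
  have T1 := hR.trans (u.map (fun a => (a, a, a)) ++ w.map (fun a => (0, a, 0)) ++
      M.map (fun p => (p.1, 0, p.2)) ++ t.map (fun a => (a, a, a)))
  simp only [List.map_append, List.map_map, Function.comp_def] at T1
  have h3 := T1 (by
      refine hR.congr ?_ hm
      simp only [List.filter_append, dz_map_filter, dz_map_filter']
      have : dz (M.map fun c => c.1) = w := h1
      rw [this]
      have e : (w.map fun a => (a, (0:ℤ))).filter nz = (w.map fun a => (a, (0:ℤ))) := by
        rw [dz_map_filter, ← h1]; simp [dz]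
      simp [e, dg, hw]) (by
      have hm' := hR.symm _ hm
      refine hR.congr ?_ hm'
      simp only [List.map_append, List.map_map, Function.comp_def, List.filter_append]
      have e2 : (M.map fun c => ((0:ℤ), c.2)).filter nz = (w.map fun a => ((0:ℤ), a)) := by
        rw [dz_map_filter']
        have : dz (M.map fun c => c.2) = w := h2
        rw [this]
      have e : (w.map fun a => ((0:ℤ), a)).filter nz = (w.map fun a => ((0:ℤ), a)) := by
        rw [dz_map_filter', ← h1]; simp [dz]
      simp [e, e2, dg, Function.comp_def])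
  refine hR.congr ?_ h3
  simp [List.filter_append, dg, filter_zz]

theorem MV2 (M1 M2 : List (ℤ × ℤ)) (α v1 α' v2 γ : List ℤ)
    (f1 : AllFree R α v1 (α' ++ v2 ++ γ)) (f2 : AllFree R (α ++ v1 ++ α') v2 γ)
    (h1 : dz (M1.map Prod.fst) = v1) (h1' : dz (M1.map Prod.snd) = v1)
    (h2 : dz (M2.map Prod.fst) = v2) (h2' : dz (M2.map Prod.snd) = v2) :
    R (dg α ++ M1 ++ dg α' ++ M2 ++ dg γ) := by
  have dd : ∀ l, dz (dz l) = dz l := by intro l; simp [dz]
  have a1 : R (dg (α ++ M1.map Prod.fst ++ α') ++ M2 ++ dg γ) :=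
    MVp hR M2 _ v2 γ (AllFree.congr hR (by simp only [dz_append, ← h1, dd]) rfl f2) h2 h2'
  have a2 : R (dg α ++ M1 ++ dg (α' ++ M2.map Prod.snd ++ γ)) :=
    MVp hR M1 _ v1 _ (AllFree.congr hR rfl (by simp only [dz_append, ← h2', dd]) f1) h1 h1'
  have T1 := hR.trans (α.map (fun a => (a, a, a)) ++ M1.map (fun p => (p.1, p.1, p.2)) ++
      α'.map (fun a => (a, a, a)) ++ M2.map (fun p => (p.1, p.2, p.2)) ++ γ.map (fun a => (a, a, a)))
  simp only [List.map_append, List.map_map, Function.comp_def] at T1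
  have h3 := T1 (by
      refine hR.congr ?_ a1
      simp [List.filter_append, dg, Function.comp_def]) (by
      refine hR.congr ?_ a2
      simp [List.filter_append, dg, Function.comp_def])
  refine hR.congr ?_ h3
  simp [List.filter_append, dg]

theorem TRN2 (M1 M2 N1 N2 : List (ℤ × ℤ)) (α α' γ v1 v2 v1' v2' : List ℤ)
    (f1 : AllFree R α v1 (α' ++ v2 ++ γ)) (f2 : AllFree R (α ++ v1 ++ α') v2 γ)
    (g1 : AllFree R α v1' (α' ++ v2' ++ γ)) (g2 : AllFree R (α ++ v1' ++ α') v2' γ)
    (h1 : dz (M1.map Prod.fst) = v1) (h1' : dz (M1.map Prod.snd) = v1')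
    (h2 : dz (M2.map Prod.fst) = v2) (h2' : dz (M2.map Prod.snd) = v2')
    (k1 : dz (N1.map Prod.fst) = v1) (k1' : dz (N1.map Prod.snd) = v1')
    (k2 : dz (N2.map Prod.fst) = v2) (k2' : dz (N2.map Prod.snd) = v2')
    (h : R (dg α ++ M1 ++ dg α' ++ M2 ++ dg γ)) :
    R (dg α ++ N1 ++ dg α' ++ N2 ++ dg γ) := by
  have dd : ∀ l : List (ℤ × ℤ), dz (l.map fun _ => (0:ℤ)) = [] := by intro l; simp [dz]
  have k1a : dz (N1.map fun c => c.1) = v1 := k1
  have k1b : dz (N1.map fun c => c.2) = v1' := k1'
  have k2a : dz (N2.map fun c => c.1) = v2 := k2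
  have k2b : dz (N2.map fun c => c.2) = v2' := k2'
  have h1a : dz (M1.map fun c => c.1) = v1 := h1
  have h1b : dz (M1.map fun c => c.2) = v1' := h1'
  have h2a : dz (M2.map fun c => c.1) = v2 := h2
  have h2b : dz (M2.map fun c => c.2) = v2' := h2'
  have a1 := MV2 hR (N1.map (fun p => (p.1, 0)) ++ M1.map (fun p => (0, p.1)))
    (N2.map (fun p => (p.1, 0)) ++ M2.map (fun p => (0, p.1))) α v1 α' v2 γ f1 f2
    (by simp [dz_append, Function.comp_def, dz_rep, k1a]) (by simp [dz_append, Function.comp_def, dz_rep, h1a])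
    (by simp [dz_append, Function.comp_def, dz_rep, k2a]) (by simp [dz_append, Function.comp_def, dz_rep, h2a])
  have a2 := MV2 hR (N1.map (fun p => (0, p.2)) ++ M1.map (fun p => (p.2, 0)))
    (N2.map (fun p => (0, p.2)) ++ M2.map (fun p => (p.2, 0))) α v1' α' v2' γ g1 g2
    (by simp [dz_append, Function.comp_def, dz_rep, h1b]) (by simp [dz_append, Function.comp_def, dz_rep, k1b])
    (by simp [dz_append, Function.comp_def, dz_rep, h2b]) (by simp [dz_append, Function.comp_def, dz_rep, k2b])
  -- points A (N.1), B (M.1), B' (M.2), A' (N.2)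
  have T1 := hR.trans (α.map (fun a => (a, a, a)) ++ (N1.map (fun p => (p.1, 0, 0)) ++
      M1.map (fun p => (0, p.1, p.2))) ++
      α'.map (fun a => (a, a, a)) ++ (N2.map (fun p => (p.1, 0, 0)) ++
      M2.map (fun p => (0, p.1, p.2))) ++ γ.map (fun a => (a, a, a)))
  simp only [List.map_append, List.map_map, Function.comp_def] at T1
  have h3 := T1 a1 (by
      refine hR.congr ?_ h
      simp [List.filter_append, dg, Function.comp_def, filter_zz])
  have T2 := hR.trans (α.map (fun a => (a, a, a)) ++ (N1.map (fun p => (p.1, 0, p.2)) ++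
      M1.map (fun p => (0, p.2, 0))) ++
      α'.map (fun a => (a, a, a)) ++ (N2.map (fun p => (p.1, 0, p.2)) ++
      M2.map (fun p => (0, p.2, 0))) ++ γ.map (fun a => (a, a, a)))
  simp only [List.map_append, List.map_map, Function.comp_def] at T2
  have h4 := T2 h3 a2
  refine hR.congr ?_ h4
  simp [List.filter_append, dg, Function.comp_def, filter_zz]

end

end Pool.Agent.H998R3
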