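import Pool.Agent.H998R3.LC

set_option autoImplicit false

namespace Pool.Agent.H998R3

theorem filter_nz_eq (l : List ℤ) (h : ∀ x ∈ l, x ≠ 0) : dz l = l := by
  unfold dz
  rw [List.filter_eq_self]
  intro a ha
  simpa using h a ha

theorem dz_D (l : List ℤ) (h : ∀ x ∈ l, x ≠ 0) : dz (D l) = D l := by
  apply filter_nz_eq
  intro x hx
  simp only [D, List.mem_map] at hx
  obtain ⟨a, ha, rfl⟩ := hx
  have := h a ha
  omega

section
variable {N : ℤ} {R : List (ℤ × ℤ) → Prop} (hR : Good N R)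
include hR

theorem PL (α g α' y z γ : List ℤ) (a b : ℤ) (hN : 2 * (q g + (3 * a ^ 2 + b ^ 2 + q y + q z)) = N)
    (hg : ∀ x ∈ g, x ≠ 0) (hy : ∀ x ∈ y, x ≠ 0) (hz : ∀ x ∈ z, x ≠ 0) (ha : a ≠ 0) (hb : b ≠ 0)
    (f1 : AllFree R α (D g) (α' ++ D ([a] ++ y ++ [a, b] ++ z ++ [a]) ++ γ))
    (f2 : AllFree R (α ++ D g ++ α') (D ([a] ++ y ++ [a, b] ++ z ++ [a])) γ)
    (g1 : AllFree R α (D g) (α' ++ D ([a] ++ y ++ [b, a] ++ z ++ [a]) ++ γ))
    (g2 : AllFree R (α ++ D g ++ α') (D ([a] ++ y ++ [b, a] ++ z ++ [a])) γ) :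
    R (dg (α ++ D g ++ α' ++ D ([a] ++ y)) ++ [(2 * a, 2 * b), (2 * b, 2 * a)] ++
      dg (D (z ++ [a]) ++ γ)) := by
  set w := [a] ++ y ++ [a, b] ++ z ++ [a] with hw
  set w' := [a] ++ y ++ [b, a] ++ z ++ [a] with hw'
  have wnz : ∀ x ∈ w, x ≠ 0 := by
    intro x hx
    simp only [hw, List.mem_append, List.mem_cons, List.not_mem_nil, or_false] at hx
    rcases hx with (((h | h) | (h | h)) | h) | h
    · rw [h]; exact ha
    · exact hy x h
    · rw [h]; exact ha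
    · rw [h]; exact hb
    · exact hz x h
    · rw [h]; exact ha
  have w'nz : ∀ x ∈ w', x ≠ 0 := by
    intro x hx
    simp only [hw', List.mem_append, List.mem_cons, List.not_mem_nil, or_false] at hx
    rcases hx with (((h | h) | (h | h)) | h) | h
    · rw [h]; exact ha
    · exact hy x h
    · rw [h]; exact hb
    · rw [h]; exact ha
    · exact hz x h
    · rw [h]; exact ha
  set G : List (ℤ × ℕ) := lab g 13 ++ lab g 14 with hG
  set W : List (ℤ × ℕ) := lab [a] 1 ++ (lab y 2 ++ (lab [a] 3 ++ (lab [b] 4 ++ (lab [a] 5 ++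
    (lab y 6 ++ (lab z 7 ++ (lab [a] 8 ++ (lab [b] 9 ++ (lab [a] 10 ++ (lab z 11 ++ lab [a] 12))))))))))
    with hW
  set T : List (ℤ × ℕ) := lab α 0 ++ G ++ lab α' 0 ++ W ++ lab γ 0 with hT
  have hsum : (T.map fun c => if c.2 = 0 then (0:ℤ) else c.1 ^ 2).sum = N := by
    rw [← hN, hT, hG, hW]
    simp only [List.map_append, List.sum_append, lab_sum0, lab_sum1 _ _ (show (11:ℕ) ≠ 0 by decide),
      lab_sum1 _ _ (show (12:ℕ) ≠ 0 by decide), lab_sum1 _ _ (show (2:ℕ) ≠ 0 by decide),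
      lab_sum1 _ _ (show (5:ℕ) ≠ 0 by decide), lab_sum1 _ _ (show (6:ℕ) ≠ 0 by decide),
      lab_sum1 _ _ (show (9:ℕ) ≠ 0 by decide), lab_sum1 _ _ (show (1:ℕ) ≠ 0 by decide),
      lab_sum1 _ _ (show (3:ℕ) ≠ 0 by decide), lab_sum1 _ _ (show (4:ℕ) ≠ 0 by decide),
      lab_sum1 _ _ (show (7:ℕ) ≠ 0 by decide), lab_sum1 _ _ (show (8:ℕ) ≠ 0 by decide),
      lab_sum1 _ _ (show (10:ℕ) ≠ 0 by decide), lab_sum1 _ _ (show (13:ℕ) ≠ 0 by decide),
      lab_sum1 _ _ (show (14:ℕ) ≠ 0 by decide)]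
    simp [q]
    ring
  have hlab : ∀ c ∈ T, c.2 = 0 ∨ c.2 = 11 ∨ c.2 = 12 ∨ c.2 = 1 ∨ c.2 = 2 ∨ c.2 = 3 ∨ c.2 = 4 ∨ c.2 = 5 ∨
      c.2 = 6 ∨ c.2 = 7 ∨ c.2 = 8 ∨ c.2 = 9 ∨ c.2 = 10 ∨ c.2 = 13 ∨ c.2 = 14 := by
    intro c hc
    rw [hT, hG, hW] at hc
    simp only [List.mem_append] at hc
    rcases hc with (((h | h | h) | h) | h | h | h | h | h | h | h | h | h | h | h | h) | h <;>
    (have := mem_lab h; omega)
  have hS1 : ∀ c ∈ T, c.2 ≠ 0 → (c.2 ∈ [1,2,3,4,7,10,13] ↔ c.2 ∉ [5,6,8,9,11,12,14]) := by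
    intro c hc h0
    have := hlab c hc
    rcases this with h|h|h|h|h|h|h|h|h|h|h|h|h|h|h <;> simp [h] at h0 ⊢
  have hS2 : ∀ c ∈ T, c.2 ≠ 0 → (c.2 ∈ [1,2,4,5,7,8,13] ↔ c.2 ∉ [3,6,9,10,11,12,14]) := by
    intro c hc h0
    have := hlab c hc
    rcases this with h|h|h|h|h|h|h|h|h|h|h|h|h|h|h <;> simp [h] at h0 ⊢
  have hS3 : ∀ c ∈ T, c.2 ≠ 0 → (c.2 ∈ [1,2,3,4,7,8,13] ↔ c.2 ∉ [5,6,9,10,11,12,14]) := by
    intro c hc h0
    have := hlab c hc
    rcases this with h|h|h|h|h|h|h|h|h|h|h|h|h|h|h <;> simp [h] at h0 ⊢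
  have A1 := (apP hR [1,2,3,4,7,10,13] [5,6,8,9,11,12,14] T hS1 hsum).2
  have A2 := (apP hR [1,2,4,5,7,8,13] [3,6,9,10,11,12,14] T hS2 hsum).2
  have A3 := (apP hR [1,2,3,4,7,8,13] [5,6,9,10,11,12,14] T hS3 hsum).1
  have dDg := dz_D g hg
  have dDw := dz_D w wnz
  have dDw' := dz_D w' w'nz
  -- words
  have gw : ∀ S : List ℕ, (13 ∈ S ∧ 14 ∉ S) ∨ (13 ∉ S ∧ 14 ∈ S) → dz (G.map (P S)) = D g := by
    intro S hS
    rw [hG, List.map_append, dz_append, dz_P_lab, dz_P_lab]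
    rcases hS with ⟨h1, h2⟩ | ⟨h1, h2⟩ <;> simp [h1, h2, dDg]
  have same : ∀ (S S' : List ℕ) (v : List ℤ), dz (G.map (P S)) = D g → dz (G.map (P S')) = D g →
      dz (W.map (P S)) = D v → dz (W.map (P S')) = D v →
      AllFree R α (D g) (α' ++ D v ++ γ) → AllFree R (α ++ D g ++ α') (D v) γ →
      R (T.map fun c => (P S c, P S' c)) := by
    intro S S' v s1 s2 s3 s4 s5 s6
    have := MV2 hR (G.map fun c => (P S c, P S' c)) (W.map fun c => (P S c, P S' c)) α (D g) α' (D v) γ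
      s5 s6 (by simpa [Function.comp_def] using s1) (by simpa [Function.comp_def] using s2)
      (by simpa [Function.comp_def] using s3) (by simpa [Function.comp_def] using s4)
    rw [hT]
    simpa [lab, P, dg, Function.comp_def] using this
  have wA1 : dz (W.map (P [1,2,3,4,7,10,13])) = D w := by
    rw [← dDw, hW, hw]; simp [dz_append, dz_P_lab, D_append, D_single, dz_cons, dz_nil, D]
  have wC1 : dz (W.map (P [5,6,8,9,11,12,14])) = D w := by
    rw [← dDw, hW, hw]; simp [dz_append, dz_P_lab, D_append, D_single, dz_cons, dz_nil, D]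
  have wA2 : dz (W.map (P [1,2,4,5,7,8,13])) = D w' := by
    rw [← dDw', hW, hw']; simp [dz_append, dz_P_lab, D_append, D_single, dz_cons, dz_nil, D]
  have wC2 : dz (W.map (P [3,6,9,10,11,12,14])) = D w' := by
    rw [← dDw', hW, hw']; simp [dz_append, dz_P_lab, D_append, D_single, dz_cons, dz_nil, D]
  have wA3 : dz (W.map (P [1,2,3,4,7,8,13])) = D w := by
    rw [← dDw, hW, hw]; simp [dz_append, dz_P_lab, D_append, D_single, dz_cons, dz_nil, D]
  have wC3 : dz (W.map (P [5,6,9,10,11,12,14])) = D w' := by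
    rw [← dDw', hW, hw']; simp [dz_append, dz_P_lab, D_append, D_single, dz_cons, dz_nil, D]
  have gA1 := gw [1,2,3,4,7,10,13] (Or.inl (by decide))
  have gC1 := gw [5,6,8,9,11,12,14] (Or.inr (by decide))
  have gA2 := gw [1,2,4,5,7,8,13] (Or.inl (by decide))
  have gC2 := gw [3,6,9,10,11,12,14] (Or.inr (by decide))
  have gA3 := gw [1,2,3,4,7,8,13] (Or.inl (by decide))
  have gC3 := gw [5,6,9,10,11,12,14] (Or.inr (by decide))
  have s13 := same _ _ w gA1 gA3 wA1 wA3 f1 f2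
  have s1 := same _ _ w gA1 gC1 wA1 wC1 f1 f2
  have s2 := same _ _ w' gA2 gC2 wA2 wC2 g1 g2
  have s23 := same _ _ w' gA2 gC3 wA2 wC3 g1 g2
  have main : R (T.map fun c => (P [1,2,3,4,7,8,13] c, P [5,6,9,10,11,12,14] c)) := by
    rcases A3 with h | h | h
    · exfalso
      have h1 := hR.tr T _ _ (fun c => c.1) s13 h
      exact A1 ⟨h1, hR.tr T (fun c => c.1) _ _ (hR.sy T _ _ h1) s1⟩
    · exfalso
      have h1 := hR.tr T (fun c => c.1) _ _ h (hR.sy T _ _ s23)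
      exact A2 ⟨hR.sy T _ _ h1, hR.tr T (fun c => c.1) _ _ h1 s2⟩
    · exact h
  have tr := TRN2 hR (G.map fun c => (P [1,2,3,4,7,8,13] c, P [5,6,9,10,11,12,14] c))
    (W.map fun c => (P [1,2,3,4,7,8,13] c, P [5,6,9,10,11,12,14] c)) (dg (D g))
    (dg (D ([a] ++ y)) ++ [(2 * a, 2 * b), (2 * b, 2 * a)] ++ dg (D (z ++ [a]))) α α' γ (D g) (D w) (D g) (D w')
    f1 f2 g1 g2 (by simpa [Function.comp_def] using gA3) (by simpa [Function.comp_def] using gC3)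
    (by simpa [Function.comp_def] using wA3) (by simpa [Function.comp_def] using wC3)
    (by simpa [dg, Function.comp_def] using dDg) (by simpa [dg, Function.comp_def] using dDg)
    (by rw [← dDw, hw]; simp [dg, Function.comp_def, D])
    (by rw [← dDw', hw']; simp [dg, Function.comp_def, D])
    (by rw [hT] at main; simpa [lab, P, dg, Function.comp_def] using main)
  simpa [dg_append] using tr

end

end Pool.Agent.H998R3
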