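import Pool.Agent.H998R3.LD

set_option autoImplicit false

namespace Pool.Agent.H998R3

theorem q_cons (a : ℤ) (l : List ℤ) : q (a :: l) = a ^ 2 + q l := by simp [q]
theorem q_nil : q [] = 0 := by simp [q]

section
variable {N : ℤ} {R : List (ℤ × ℤ) → Prop} (hR : Good N R)
include hR

theorem rep_free (n k : ℕ) (γ : List ℤ) (N2 : ℤ) (hN : N = 2 * N2) (hn : N2 + 1 ≤ n)
    (h3 : 3 ≤ N2) : AllFree R (List.replicate n 2) (List.replicate k 2) ([2] ++ γ) := by
  intro v1 l v2 hv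
  have hv' := hv.symm
  rw [List.append_eq_replicate_iff] at hv'
  obtain ⟨h1, h2, h3'⟩ := hv'
  rw [List.length_cons, List.replicate_succ, List.cons.injEq] at h3'
  obtain ⟨hl, hv2⟩ := h3'
  obtain ⟨m, hm⟩ : ∃ m, n + v1.length = m + 1 := ⟨n + v1.length - 1, by omega⟩
  have h := JL hR m [] [] [] (List.replicate v2.length 2 ++ γ) 1 N2 hN (by omega) (by
    simp [q]; exact h3)
  have e1 : List.replicate n (2:ℤ) ++ v1 = List.replicate m 2 ++ [] ++ [2 * 1] ++ D [] := by
    rw [h2, List.replicate_append_replicate, hm, List.replicate_succ']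
    simp [D]
  have e2 : v2 ++ ([2] ++ γ) = D [] ++ [2 * 1] ++ (List.replicate v2.length 2 ++ γ) := by
    have : List.replicate v2.length (2:ℤ) ++ [2] = [2] ++ List.replicate v2.length 2 := by
      rw [← List.replicate_succ', List.replicate_succ]; rfl
    rw [← List.append_assoc, hv2]
    simp only [List.length_replicate]
    rw [this]
    simp [D]
  rw [hl, e1, e2]
  exact h

theorem SF (C : List ℤ) (n : ℕ) (ρ v γ : List ℤ) (N2 : ℤ) (hN : N = 2 * N2) (hn : N2 ≤ n)
    (hv : ∀ x ∈ v, x ∈ C) (hle : 2 * q C + q v ≤ N2) :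
    AllFree R (List.replicate n 2 ++ ρ ++ D C) (D v) (D C ++ γ) := by
  intro w1 l w2 hw
  unfold D at hw
  rw [List.map_eq_append_iff] at hw
  obtain ⟨v1, v2', rfl, rfl, h2⟩ := hw
  rw [List.map_eq_cons_iff] at h2
  obtain ⟨b, v2, rfl, rfl, rfl⟩ := h2
  have hb : b ∈ C := hv b (by simp)
  obtain ⟨c1, c2, hc⟩ := List.append_of_mem hb
  have h := JL hR n (ρ ++ D c1) (c2 ++ v1) (v2 ++ c1) (D c2 ++ γ) b N2 hN hn (by
    rw [hc] at hle
    simp only [q_append, q_cons] at hle ⊢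
    have h1 := q_nonneg c1
    have h2 := q_nonneg c2
    have h3 : 0 ≤ b ^ 2 := by positivity
    linarith)
  rw [hc]
  simpa [D] using h

theorem PLc (n : ℕ) (ρ y z γ : List ℤ) (a b : ℤ) (N2 : ℤ) (hN : N = 2 * N2) (hn : 2 * N2 + 2 ≤ n)
    (h3 : 3 ≤ N2) (hle : 3 * a ^ 2 + b ^ 2 + q y + q z ≤ N2)
    (hy : ∀ x ∈ y, x ≠ 0) (hz : ∀ x ∈ z, x ≠ 0) (ha : a ≠ 0) (hb : b ≠ 0)
    (F1 : AllFree R (List.replicate n 2 ++ ρ) (D ([a] ++ y ++ [a, b] ++ z ++ [a])) γ)
    (F2 : AllFree R (List.replicate n 2 ++ ρ) (D ([a] ++ y ++ [b, a] ++ z ++ [a])) γ) :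
    R (dg (List.replicate n 2 ++ ρ ++ D ([a] ++ y)) ++ [(2 * a, 2 * b), (2 * b, 2 * a)] ++
      dg (D (z ++ [a]) ++ γ)) := by
  obtain ⟨k, hk⟩ : ∃ k : ℕ, (k : ℤ) = N2 - (3 * a ^ 2 + b ^ 2 + q y + q z) :=
    ⟨(N2 - (3 * a ^ 2 + b ^ 2 + q y + q z)).toNat, by omega⟩
  have hkN : (k : ℤ) ≤ N2 := by
    have h1 := q_nonneg y
    have h2 := q_nonneg z
    have h3 : 0 ≤ a ^ 2 := by positivity
    have h4 : 0 ≤ b ^ 2 := by positivity
    linarith
  obtain ⟨m, hm⟩ : ∃ m, n = m + k + 1 := ⟨n - 1 - k, by omega⟩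
  have hD : D (List.replicate k 1) = List.replicate k 2 := by simp [D]
  have e : List.replicate m (2:ℤ) ++ D (List.replicate k 1) ++ ([2] ++ ρ) = List.replicate n 2 ++ ρ := by
    rw [hD, hm, List.replicate_succ', List.replicate_append_replicate]
    simp
  have hrep : ∀ w : List ℤ, AllFree R (List.replicate m 2) (D (List.replicate k 1)) ([2] ++ ρ ++ w) := by
    intro w
    rw [hD, List.append_assoc]
    exact rep_free hR m k (ρ ++ w) N2 hN (by omega) h3
  have := PL hR (List.replicate m 2) (List.replicate k 1) ([2] ++ ρ) y z γ a b (by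
      have : q (List.replicate k 1) = k := by simp [q]
      rw [this, hk, hN]; ring) (by intro x hx; rw [List.mem_replicate] at hx; rw [hx.2]; decide) hy hz ha hb
      (by
        have := hrep (D ([a] ++ y ++ [a, b] ++ z ++ [a]) ++ γ)
        simpa only [List.append_assoc] using this)
      (by rw [e]; exact F1)
      (by
        have := hrep (D ([a] ++ y ++ [b, a] ++ z ++ [a]) ++ γ)
        simpa only [List.append_assoc] using this)
      (by rw [e]; exact F2)
  rw [← e]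
  exact this

omit hR in
theorem AllFree.subD {u v1 v2 v3 t : List ℤ} (h : AllFree R u (D (v1 ++ v2 ++ v3)) t) :
    AllFree R (u ++ D v1) (D v2) (D v3 ++ t) := by
  rw [D_append, D_append] at h
  exact AllFree.sub h

theorem swapC (C : List ℤ) (hC0 : ∀ x ∈ C, x ≠ 0) (n : ℕ) (ρ v1 v2 γ : List ℤ) (a b : ℤ) (N2 : ℤ)
    (hN : N = 2 * N2)
    (hn : 2 * N2 + 2 ≤ n) (h3 : 3 ≤ N2) (ha : a ∈ C) (hb : b ∈ C) (h1 : ∀ x ∈ v1, x ∈ C)
    (h2 : ∀ x ∈ v2, x ∈ C) (hle : 4 * q C + (a ^ 2 + b ^ 2 + q v1 + q v2) ≤ N2) :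
    R (dg (List.replicate n 2 ++ ρ ++ D C ++ D C ++ D v1) ++ [(2 * a, 2 * b), (2 * b, 2 * a)] ++
      dg (D v2 ++ D C ++ D C ++ γ)) := by
  obtain ⟨c1, c2, hc⟩ := List.append_of_mem ha
  have qC : q C = q c1 + a ^ 2 + q c2 := by rw [hc, q_append, q_cons]; ring
  have p1 := q_nonneg c1
  have p2 := q_nonneg c2
  have p3 := q_nonneg v1
  have p4 := q_nonneg v2
  have pa : 0 ≤ a ^ 2 := by positivity
  have hn' : N2 ≤ n := by
    have : 0 ≤ N2 := by omega
    omega
  have big : ∀ s : List ℤ, (∀ x ∈ s, x ∈ C) → q s = a ^ 2 + b ^ 2 →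
      AllFree R (List.replicate n 2 ++ (ρ ++ D C ++ D c1))
        (D ([a] ++ (c2 ++ v1) ++ s ++ (v2 ++ c1) ++ [a])) (D c2 ++ (D C ++ γ)) := by
    intro s hs hq
    have := SF hR C n ρ (C ++ v1 ++ s ++ v2 ++ C) γ N2 hN hn' (by
      intro x hx
      simp only [List.mem_append] at hx
      rcases hx with (((h | h) | h) | h) | h
      · exact h
      · exact h1 x h
      · exact hs x h
      · exact h2 x h
      · exact h) (by simp only [q_append, hq]; linarith)
    have e : C ++ v1 ++ s ++ v2 ++ C = c1 ++ ([a] ++ (c2 ++ v1) ++ s ++ (v2 ++ c1) ++ [a]) ++ c2 := by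
      rw [hc]; simp
    rw [e] at this
    have := AllFree.subD this
    simpa only [List.append_assoc] using this
  have F1 := big [a, b] (by intro x hx; simp at hx; rcases hx with rfl | rfl; exact ha; exact hb)
    (by simp [q])
  have F2 := big [b, a] (by intro x hx; simp at hx; rcases hx with rfl | rfl; exact hb; exact ha)
    (by simp [q]; ring)
  have := PLc hR n (ρ ++ D C ++ D c1) (c2 ++ v1) (v2 ++ c1) (D c2 ++ (D C ++ γ)) a b N2 hN hn h3
    (by simp only [q_append]; linarith)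
    (by
      intro x hx
      rcases List.mem_append.1 hx with h | h
      · exact hC0 x (by rw [hc]; simp [h])
      · exact hC0 x (h1 x h))
    (by
      intro x hx
      rcases List.mem_append.1 hx with h | h
      · exact hC0 x (h2 x h)
      · exact hC0 x (by rw [hc]; simp [h]))
    (hC0 a ha) (hC0 b hb) F1 F2
  have e1 : List.replicate n 2 ++ ρ ++ D C ++ D C ++ D v1 =
      List.replicate n 2 ++ (ρ ++ D C ++ D c1) ++ D ([a] ++ (c2 ++ v1)) := by
    have : D C = D c1 ++ (2 * a) :: D c2 := by rw [hc]; simp [D]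
    simp only [D_append, D_single, List.append_assoc]
    rw [this]; simp
  have e2 : D v2 ++ D C ++ D C ++ γ = D ((v2 ++ c1) ++ [a]) ++ (D c2 ++ (D C ++ γ)) := by
    have : D C = D c1 ++ (2 * a) :: D c2 := by rw [hc]; simp [D]
    simp only [D_append, D_single, List.append_assoc]
    rw [this]; simp
  rw [e1, e2]
  exact this

end

end Pool.Agent.H998R3
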