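import Pool.Agent.H998R3.LE

set_option autoImplicit false

namespace Pool.Agent.H998R3

def C6 : List ℤ := [1, -1, 2, -2, 3, -3]

theorem C6_nz : ∀ x ∈ C6, x ≠ 0 := by decide

theorem q_C6 : q C6 = 28 := by decide

theorem q_perm {l l' : List ℤ} (h : l.Perm l') : q l = q l' := by
  unfold q; exact (h.map _).sum_eq

section
variable {R : List (ℤ × ℤ) → Prop} (hR : Good 1344 R) (n : ℕ) (hn : (1346 : ℤ) ≤ n)
include hR

include hn in
/-- free-ness for the region -/
theorem regFree (ρ v γ : List ℤ) (hv : ∀ x ∈ v, x ∈ C6) (hle : q v ≤ 560) :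
    AllFree R (List.replicate n 2 ++ ρ ++ D C6 ++ D C6) (D v) (D C6 ++ D C6 ++ γ) := by
  have := SF hR C6 n (ρ ++ D C6) v (D C6 ++ γ) 672 (by norm_num) (by linarith) hv
    (by rw [q_C6]; linarith)
  simpa only [List.append_assoc] using this

theorem trn1 (u t : List ℤ) (M M0 : List (ℤ × ℤ)) (v v' : List ℤ) (f : AllFree R u v t)
    (f' : AllFree R u v' t) (h1 : dz (M.map Prod.fst) = v) (h2 : dz (M.map Prod.snd) = v')
    (k1 : dz (M0.map Prod.fst) = v) (k2 : dz (M0.map Prod.snd) = v') (h : R (dg u ++ M0 ++ dg t)) :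
    R (dg u ++ M ++ dg t) := by
  have nilfree : ∀ a b : List ℤ, AllFree R a [] b := by
    intro a b v1 l v2 hh
    simp at hh
  have := TRN2 hR [] M0 [] M u [] t [] v [] v' (nilfree _ _) (by simpa using f) (nilfree _ _)
    (by simpa using f') rfl rfl k1 k2 rfl rfl h1 h2 (by simpa [dg] using h)
  simpa [dg] using this

omit hn in
theorem midTrans (u t w : List ℤ) (M : List (ℤ × ℤ))
    (i1 : R (dg u ++ (w.map (fun a => (0, a)) ++ M.map (fun p => (p.1, 0))) ++ dg t))
    (i2 : R (dg u ++ (w.map (fun a => (a, 0)) ++ M.map (fun p => (0, p.2))) ++ dg t)) :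
    R (dg u ++ M ++ dg t) := by
  have T1 := hR.trans (u.map (fun a => (a, a, a)) ++
    (w.map (fun a => (0, a, 0)) ++ M.map (fun p => (p.1, 0, p.2))) ++ t.map (fun a => (a, a, a)))
  simp only [List.map_append, List.map_map, Function.comp_def] at T1
  have h3 := T1 i1 i2
  refine hR.congr ?_ h3
  simp [List.filter_append, dg, filter_zz]

include hn in
theorem permR (ρ γ : List ℤ) {v v' : List ℤ} (hp : v.Perm v') : ∀ (v1 : List ℤ) (M : List (ℤ × ℤ)),
    (∀ x ∈ v1, x ∈ C6) → (∀ x ∈ v, x ∈ C6) → q v1 + q v ≤ 560 →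
    dz (M.map Prod.fst) = D (v1 ++ v) → dz (M.map Prod.snd) = D (v1 ++ v') →
    R (dg (List.replicate n 2 ++ ρ ++ D C6 ++ D C6) ++ M ++ dg (D C6 ++ D C6 ++ γ)) := by
  induction hp with
  | nil =>
    intro v1 M h1 _ hq e1 e2
    exact MVp hR M _ (D (v1 ++ [])) _ (regFree hR n hn ρ (v1 ++ []) γ (by simpa using h1)
      (by simpa [q_nil] using hq)) e1 e2
  | cons x hp ih =>
    intro v1 M h1 hv hq e1 e2
    refine ih (v1 ++ [x]) M ?_ ?_ ?_ ?_ ?_
    · intro y hy
      rcases List.mem_append.1 hy with h | h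
      · exact h1 y h
      · rw [List.mem_singleton] at h; subst h; exact hv y (by simp)
    · intro y hy; exact hv y (by simp [hy])
    · rw [q_append, q_cons, q_nil]; rw [q_cons] at hq; linarith
    · simpa using e1
    · simpa using e2
  | swap x y l =>
    -- v = y :: x :: l, v' = x :: y :: l
    intro v1 M h1 hv hq e1 e2
    have hx : x ∈ C6 := hv x (by simp)
    have hy : y ∈ C6 := hv y (by simp)
    have hl : ∀ z ∈ l, z ∈ C6 := fun z hz => hv z (by simp [hz])
    rw [q_cons, q_cons] at hq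
    have hs := swapC hR C6 C6_nz n ρ v1 l γ y x 672 (by norm_num) (by linarith) (by norm_num)
      hy hx h1 hl (by rw [q_C6]; linarith)
    have nzD : ∀ w : List ℤ, (∀ z ∈ w, z ∈ C6) → dz (D w) = D w := fun w hw =>
      dz_D w (fun z hz => C6_nz z (hw z hz))
    have a1 : ∀ z ∈ v1 ++ y :: x :: l, z ∈ C6 := by
      intro z hz
      rcases List.mem_append.1 hz with h | h
      · exact h1 z h
      · exact hv z h
    have a2 : ∀ z ∈ v1 ++ x :: y :: l, z ∈ C6 := by
      intro z hz
      apply a1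
      simp only [List.mem_append, List.mem_cons] at hz ⊢
      tauto
    refine trn1 hR _ _ M (dg (D v1) ++ [(2 * y, 2 * x), (2 * x, 2 * y)] ++ dg (D l))
      (D (v1 ++ y :: x :: l)) (D (v1 ++ x :: y :: l)) (regFree hR n hn ρ _ γ a1 ?_)
      (regFree hR n hn ρ _ γ a2 ?_) e1 e2 ?_ ?_ ?_
    · rw [q_append, q_cons, q_cons]; linarith
    · rw [q_append, q_cons, q_cons]; linarith
    · rw [← nzD _ a1]; simp [dg, Function.comp_def, D]
    · rw [← nzD _ a2]; simp [dg, Function.comp_def, D]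
    · simpa [dg_append] using hs
  | trans hp1 hp2 ih1 ih2 =>
    rename_i l1 l2 l3
    intro v1 M h1 hv hq e1 e3
    have hv2 : ∀ x ∈ l2, x ∈ C6 := fun x hx => hv x (hp1.mem_iff.2 hx)
    have hq2 : q v1 + q l2 ≤ 560 := by rw [← q_perm hp1]; exact hq
    have nzD : dz (D (v1 ++ l2)) = D (v1 ++ l2) := dz_D _ (fun z hz => by
      rcases List.mem_append.1 hz with h | h
      · exact C6_nz z (h1 z h)
      · exact C6_nz z (hv2 z h))
    have e1' : dz (M.map fun c => c.1) = D (v1 ++ l1) := e1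
    have e3' : dz (M.map fun c => c.2) = D (v1 ++ l3) := e3
    have i1 := ih1 v1 ((D (v1 ++ l2)).map (fun a => (0, a)) ++ M.map (fun p => (p.1, 0))) h1 hv hq
      (by simp [dz_append, Function.comp_def, dz_rep, e1']) (by simp [dz_append, Function.comp_def, dz_rep, nzD])
    have i2 := ih2 v1 ((D (v1 ++ l2)).map (fun a => (a, 0)) ++ M.map (fun p => (0, p.2))) h1 hv2 hq2
      (by simp [dz_append, Function.comp_def, dz_rep, nzD]) (by simp [dz_append, Function.comp_def, dz_rep, e3'])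
    exact midTrans hR _ _ _ M i1 i2

end

end Pool.Agent.H998R3
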