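import Pool.Agent.H998R3.LF

set_option autoImplicit false

namespace Pool.Agent.H998R3

def S2 : List ℤ := D C6 ++ D C6

def blk (p : ℤ × ℤ) : List (ℤ × ℤ) := List.replicate 28 (2 * p.1, 2 * p.2) ++ dg S2
def PW (L : List (ℤ × ℤ)) : List (ℤ × ℤ) := L.flatMap blk
def blk3 (p : ℤ × ℤ × ℤ) : List (ℤ × ℤ × ℤ) :=
  List.replicate 28 (2 * p.1, 2 * p.2.1, 2 * p.2.2) ++ S2.map (fun a => (a, a, a))
def PW3 (L : List (ℤ × ℤ × ℤ)) : List (ℤ × ℤ × ℤ) := L.flatMap blk3
def wd (x : List ℤ) : List ℤ := x.flatMap fun a => List.replicate 28 (2 * a) ++ S2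

def FF (R : List (ℤ × ℤ) → Prop) (n : ℕ) (L : List (ℤ × ℤ)) : Prop :=
  R (dg (List.replicate n 2 ++ S2) ++ PW L)

theorem PW_append (a b : List (ℤ × ℤ)) : PW (a ++ b) = PW a ++ PW b := by simp [PW]

theorem PW_dg (x : List ℤ) : PW (dg x) = dg (wd x) := by
  induction x with
  | nil => rfl
  | cons a x ih =>
    have : PW (dg (a :: x)) = blk (a, a) ++ PW (dg x) := rfl
    rw [this, ih]
    have : wd (a :: x) = (List.replicate 28 (2 * a) ++ S2) ++ wd x := rfl
    rw [this, dg_append, dg_append]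
    simp [blk, dg]

theorem PW3_map (f : ℤ × ℤ × ℤ → ℤ × ℤ) (hf : ∀ a, f (a, a, a) = (a, a))
    (hf2 : ∀ t : ℤ × ℤ × ℤ, f (2 * t.1, 2 * t.2.1, 2 * t.2.2) = (2 * (f t).1, 2 * (f t).2))
    (T : List (ℤ × ℤ × ℤ)) : (PW3 T).map f = PW (T.map f) := by
  induction T with
  | nil => rfl
  | cons t T ih =>
    have h1 : PW3 (t :: T) = blk3 t ++ PW3 T := rfl
    have h2 : PW ((t :: T).map f) = blk (f t) ++ PW (T.map f) := rfl
    rw [h1, h2, List.map_append, ih]
    simp [blk3, blk, hf2, hf, dg, Function.comp_def]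

theorem PW_swap (L : List (ℤ × ℤ)) : (PW L).map Prod.swap = PW (L.map Prod.swap) := by
  induction L with
  | nil => rfl
  | cons s L ih =>
    have h1 : PW (s :: L) = blk s ++ PW L := rfl
    have h2 : PW ((s :: L).map Prod.swap) = blk s.swap ++ PW (L.map Prod.swap) := rfl
    rw [h1, h2, List.map_append, ih]
    simp [blk, dg, Function.comp_def]

theorem T3_map (u : List ℤ) (f : ℤ × ℤ × ℤ → ℤ × ℤ) (hf : ∀ a, f (a, a, a) = (a, a))
    (hf2 : ∀ t : ℤ × ℤ × ℤ, f (2 * t.1, 2 * t.2.1, 2 * t.2.2) = (2 * (f t).1, 2 * (f t).2))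
    (T : List (ℤ × ℤ × ℤ)) :
    (u.map (fun a => (a, a, a)) ++ PW3 T).map f = dg u ++ PW (T.map f) := by
  rw [List.map_append, PW3_map f hf hf2, List.map_map]
  simp [dg, Function.comp_def, hf]

theorem sum_PW3 (T : List (ℤ × ℤ × ℤ)) :
    ((PW3 T).map fun t => (t.2.1 - t.1) ^ 2).sum = 112 * (T.map fun t => (t.2.1 - t.1) ^ 2).sum := by
  induction T with
  | nil => rfl
  | cons t T ih =>
    have h1 : PW3 (t :: T) = blk3 t ++ PW3 T := rfl
    rw [h1, List.map_append, List.sum_append, ih, List.map_cons, List.sum_cons]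
    simp [blk3, Function.comp_def]
    ring

theorem ctx_end (x : List ℤ) : ∃ ρ, S2 ++ wd x = ρ ++ D C6 ++ D C6 := by
  rcases List.eq_nil_or_concat x with h | ⟨xs, a, h⟩
  · subst h; exact ⟨[], by simp [wd, S2]⟩
  · subst h
    refine ⟨S2 ++ wd xs ++ List.replicate 28 (2 * a), ?_⟩
    simp only [wd, S2, List.concat_eq_append, List.flatMap_append, List.flatMap_cons, List.flatMap_nil,
      List.append_nil, List.append_assoc]

theorem dz_rep2 (k : ℕ) (a : ℤ) : dz (List.replicate k (2 * a)) = D (dz (List.replicate k a)) := by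
  by_cases h : a = 0
  · subst h; simp [dz_rep, D, show dz (List.replicate k 0) = [] from dz_rep k]
  · have h2 : 2 * a ≠ 0 := by omega
    rw [filter_nz_eq _ (by intro x hx; rw [List.mem_replicate] at hx; rw [hx.2]; exact h2),
      filter_nz_eq _ (by intro x hx; rw [List.mem_replicate] at hx; rw [hx.2]; exact h)]
    simp [D]

theorem q_rep (a : ℤ) (ha : a = 0 ∨ a ∈ C6) : q (dz (List.replicate 28 a)) ≤ 252 := by
  rcases ha with h | h
  · subst h; rw [dz_rep]; simp [q]
  · have h2 := C6_nz a h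
    rw [filter_nz_eq _ (by intro x hx; rw [List.mem_replicate] at hx; rw [hx.2]; exact h2)]
    have : a ^ 2 ≤ 9 := by
      simp [C6] at h
      rcases h with h | h | h | h | h | h <;> subst h <;> norm_num
    have e : q (List.replicate 28 a) = 28 * a ^ 2 := by
      unfold q; rw [List.map_replicate, List.sum_replicate]; simp
    rw [e]; linarith

section
variable {R : List (ℤ × ℤ) → Prop} (hR : Good 1344 R) (n : ℕ) (hn : (1346 : ℤ) ≤ n)
include hR

theorem FF_refl (x : List ℤ) : FF R n (dg x) := by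
  unfold FF
  rw [PW_dg, ← dg_append]
  exact hR.refl _

theorem FF_trans (T : List (ℤ × ℤ × ℤ)) (h1 : FF R n (T.map fun t => (t.1, t.2.1)))
    (h2 : FF R n (T.map fun t => (t.2.1, t.2.2))) : FF R n (T.map fun t => (t.1, t.2.2)) := by
  unfold FF at *
  have T1 := hR.trans ((List.replicate n 2 ++ S2).map (fun a => (a, a, a)) ++ PW3 T)
  rw [T3_map _ _ (fun a => rfl) (fun t => rfl), T3_map _ _ (fun a => rfl) (fun t => rfl),
    T3_map _ _ (fun a => rfl) (fun t => rfl)] at T1
  exact T1 h1 h2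

theorem FF_symm (L : List (ℤ × ℤ)) (h : FF R n L) : FF R n (L.map Prod.swap) := by
  have h1 := hR.symm _ h
  rw [List.map_append, PW_swap] at h1
  have e : (dg (List.replicate n 2 ++ S2)).map Prod.swap = dg (List.replicate n 2 ++ S2) := by
    simp only [dg, List.map_map, Function.comp_def, Prod.swap_prod_mk]
  rw [e] at h1
  exact h1

theorem FF_ap (T : List (ℤ × ℤ × ℤ)) (h : ∀ t ∈ T, t.1 + t.2.2 = 2 * t.2.1)
    (hs : (T.map fun t => (t.2.1 - t.1) ^ 2).sum = 12) :
    (FF R n (T.map fun t => (t.1, t.2.1)) ∨ FF R n (T.map fun t => (t.2.1, t.2.2)) ∨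
      FF R n (T.map fun t => (t.1, t.2.2))) ∧
    ¬ (FF R n (T.map fun t => (t.1, t.2.1)) ∧ FF R n (T.map fun t => (t.2.1, t.2.2))) := by
  unfold FF
  have T1 := hR.ap ((List.replicate n 2 ++ S2).map (fun a => (a, a, a)) ++ PW3 T) (by
    intro t ht
    rcases List.mem_append.1 ht with h1 | h1
    · simp only [List.mem_map] at h1
      obtain ⟨a, _, rfl⟩ := h1
      simp; ring
    · simp only [PW3, List.mem_flatMap] at h1
      obtain ⟨s, hs1, hs2⟩ := h1
      simp only [blk3, List.mem_append, List.mem_replicate, List.mem_map] at hs2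
      rcases hs2 with ⟨_, rfl⟩ | ⟨a, _, rfl⟩
      · have := h s hs1
        simp only
        linarith
      · simp; ring) (by
    rw [List.map_append, List.sum_append, sum_PW3, hs]
    simp [Function.comp_def])
  rw [T3_map _ _ (fun a => rfl) (fun t => rfl), T3_map _ _ (fun a => rfl) (fun t => rfl),
    T3_map _ _ (fun a => rfl) (fun t => rfl)] at T1
  exact T1

include hn in
theorem FF_swap (x1 l : List ℤ) (a b : ℤ) (ha : a = 0 ∨ a ∈ C6) (hb : b = 0 ∨ b ∈ C6) :
    FF R n (dg x1 ++ ((a, b) :: (b, a) :: dg l)) := by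
  obtain ⟨ρ, hρ⟩ := ctx_end x1
  have mem : ∀ c : ℤ, c = 0 ∨ c ∈ C6 → ∀ x ∈ dz (List.replicate 28 c), x ∈ C6 := by
    intro c hc x hx
    simp only [dz, List.mem_filter, List.mem_replicate] at hx
    obtain ⟨⟨_, rfl⟩, h2⟩ := hx
    rcases hc with h | h
    · simp [h] at h2
    · exact h
  have hperm : (dz (List.replicate 28 a) ++ (C6 ++ C6) ++ dz (List.replicate 28 b)).Perm
      (dz (List.replicate 28 b) ++ (C6 ++ C6) ++ dz (List.replicate 28 a)) := by
    rw [← Multiset.coe_eq_coe]
    simp only [← Multiset.coe_add]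
    abel
  have := permR hR n hn ρ (wd l) hperm []
    (List.replicate 28 (2 * a, 2 * b) ++ dg S2 ++ List.replicate 28 (2 * b, 2 * a)) (by simp)
    (by
      intro x hx
      simp only [List.mem_append] at hx
      rcases hx with (h | h | h) | h
      · exact mem a ha x h
      · exact h
      · exact h
      · exact mem b hb x h)
    (by
      rw [q_nil]
      simp only [q_append, q_C6]
      have h1 := q_rep a ha
      have h2 := q_rep b hb
      linarith)
    (by
      have : dz S2 = S2 := by decide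
      simp only [List.map_append, List.map_replicate, dz_append, dz_rep2, List.nil_append, D_append]
      have e : (dg S2).map Prod.fst = S2 := by simp [dg, Function.comp_def]
      rw [e, this]; rfl)
    (by
      have : dz S2 = S2 := by decide
      simp only [List.map_append, List.map_replicate, dz_append, dz_rep2, List.nil_append, D_append]
      have e : (dg S2).map Prod.snd = S2 := by simp [dg, Function.comp_def]
      rw [e, this]; rfl)
  unfold FF
  have e1 : PW (dg x1 ++ ((a, b) :: (b, a) :: dg l)) =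
      dg (wd x1) ++ ((List.replicate 28 (2 * a, 2 * b) ++ dg S2) ++ ((List.replicate 28 (2 * b, 2 * a) ++ dg S2) ++
        dg (wd l))) := by
    rw [PW_append, PW_dg]
    congr 1
    have : PW ((a, b) :: (b, a) :: dg l) = blk (a, b) ++ (blk (b, a) ++ PW (dg l)) := rfl
    rw [this, PW_dg]
    rfl
  rw [e1]
  have e2 : List.replicate n 2 ++ ρ ++ D C6 ++ D C6 = List.replicate n 2 ++ S2 ++ wd x1 := by
    rw [List.append_assoc (List.replicate n 2) S2, hρ]; simp
  rw [e2] at this
  have e3 : D C6 ++ D C6 ++ wd l = S2 ++ wd l := rfl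
  rw [e3] at this
  simpa only [dg_append, List.append_assoc] using this

end

end Pool.Agent.H998R3
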