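import Pool.Agent.H998R3.LG

set_option autoImplicit false

namespace Pool.Agent.H998R3

theorem zip_self (l : List ℤ) : l.zip l = dg l := by
  induction l with
  | nil => rfl
  | cons a l ih => simp only [List.zip_cons_cons, ih]; rfl

theorem zip3_12 : ∀ (a b c : List ℤ), a.length = b.length → b.length = c.length →
    (a.zip (b.zip c)).map (fun t => (t.1, t.2.1)) = a.zip b
  | [], [], [], _, _ => rfl
  | a :: as, b :: bs, c :: cs, h1, h2 => by
    simp only [List.zip_cons_cons, List.map_cons]
    rw [zip3_12 as bs cs (by simpa using h1) (by simpa using h2)]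
  | [], b :: bs, _, h, _ => by simp at h
  | a :: as, [], _, h, _ => by simp at h
  | _, [], c :: cs, _, h => by simp at h
  | _, b :: bs, [], _, h => by simp at h

theorem zip3_23 : ∀ (a b c : List ℤ), a.length = b.length → b.length = c.length →
    (a.zip (b.zip c)).map (fun t => (t.2.1, t.2.2)) = b.zip c
  | [], [], [], _, _ => rfl
  | a :: as, b :: bs, c :: cs, h1, h2 => by
    simp only [List.zip_cons_cons, List.map_cons]
    rw [zip3_23 as bs cs (by simpa using h1) (by simpa using h2)]
  | [], b :: bs, _, h, _ => by simp at h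
  | a :: as, [], _, h, _ => by simp at h
  | _, [], c :: cs, _, h => by simp at h
  | _, b :: bs, [], _, h => by simp at h

theorem zip3_13 : ∀ (a b c : List ℤ), a.length = b.length → b.length = c.length →
    (a.zip (b.zip c)).map (fun t => (t.1, t.2.2)) = a.zip c
  | [], [], [], _, _ => rfl
  | a :: as, b :: bs, c :: cs, h1, h2 => by
    simp only [List.zip_cons_cons, List.map_cons]
    rw [zip3_13 as bs cs (by simpa using h1) (by simpa using h2)]
  | [], b :: bs, _, h, _ => by simp at h
  | a :: as, [], _, h, _ => by simp at h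
  | _, [], c :: cs, _, h => by simp at h
  | _, b :: bs, [], _, h => by simp at h

section
variable {R : List (ℤ × ℤ) → Prop} (hR : Good 1344 R) (n : ℕ) (hn : (1346 : ℤ) ≤ n)
include hR

theorem FF_perm (hn : (1346 : ℤ) ≤ n) {x y : List ℤ} (hp : x.Perm y) : ∀ x1 : List ℤ,
    (∀ a ∈ x, a = 0 ∨ a ∈ C6) → FF R n (dg x1 ++ x.zip y) := by
  induction hp with
  | nil =>
    intro x1 _
    simpa using FF_refl hR n x1
  | cons a hp ih =>
    intro x1 h
    have := ih (x1 ++ [a]) (fun b hb => h b (by simp [hb]))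
    simpa [dg] using this
  | swap a b l =>
    intro x1 h
    have := FF_swap hR n hn x1 l b a (h b (by simp)) (h a (by simp))
    simpa [zip_self] using this
  | trans h1 h2 ih1 ih2 =>
    rename_i l1 l2 l3
    intro x1 h
    have e1 := ih1 x1 h
    have e2 := ih2 x1 (fun a ha => h a (h1.mem_iff.2 ha))
    have := FF_trans hR n (x1.map (fun a => (a, a, a)) ++ l1.zip (l2.zip l3))
    rw [List.map_append, List.map_append, List.map_append,
      zip3_12 _ _ _ h1.length_eq h2.length_eq, zip3_23 _ _ _ h1.length_eq h2.length_eq,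
      zip3_13 _ _ _ h1.length_eq h2.length_eq, List.map_map, List.map_map, List.map_map] at this
    exact this e1 e2

/-- the equality relation on `ℤ^7` -/
def EE (R : List (ℤ × ℤ) → Prop) (n : ℕ) (x y : List ℤ) : Prop := FF R n (x.zip y)

theorem EE_refl (x : List ℤ) : EE R n x x := by
  unfold EE; rw [zip_self]; exact FF_refl hR n x

theorem EE_symm {x y : List ℤ} (h : EE R n x y) : EE R n y x := by
  have := FF_symm hR n _ h
  rw [List.zip_swap] at this
  exact this

theorem EE_trans {x y z : List ℤ} (hxy : x.length = y.length) (hyz : y.length = z.length)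
    (h1 : EE R n x y) (h2 : EE R n y z) : EE R n x z := by
  have := FF_trans hR n (x.zip (y.zip z))
  rw [zip3_12 _ _ _ hxy hyz, zip3_23 _ _ _ hxy hyz, zip3_13 _ _ _ hxy hyz] at this
  exact this h1 h2

theorem EE_perm (hn : (1346 : ℤ) ≤ n) {x y : List ℤ} (hp : x.Perm y)
    (h : ∀ a ∈ x, a = 0 ∨ a ∈ C6) : EE R n x y := by
  have := FF_perm hR n hn hp [] h
  unfold EE
  simpa [dg] using this

theorem EE_ap {x y z : List ℤ} (hxy : x.length = y.length) (hyz : y.length = z.length)
    (h : ∀ t ∈ x.zip (y.zip z), t.1 + t.2.2 = 2 * t.2.1)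
    (hs : ((x.zip (y.zip z)).map fun t => (t.2.1 - t.1) ^ 2).sum = 12) :
    (EE R n x y ∨ EE R n y z ∨ EE R n x z) ∧ ¬ (EE R n x y ∧ EE R n y z) := by
  have := FF_ap hR n (x.zip (y.zip z)) h hs
  rw [zip3_12 _ _ _ hxy hyz, zip3_23 _ _ _ hxy hyz, zip3_13 _ _ _ hxy hyz] at this
  exact this

/-- the colour of a point of `ℤ^7` as a set of points -/
def col (R : List (ℤ × ℤ) → Prop) (n : ℕ) (x : List ℤ) : Set (List ℤ) :=
  {y | y.length = x.length ∧ EE R n x y}

theorem col_eq {x y : List ℤ} (h : x.length = y.length) : col R n x = col R n y ↔ EE R n x y := by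
  constructor
  · intro e
    have : y ∈ col R n x := by rw [e]; exact ⟨rfl, EE_refl hR n y⟩
    exact this.2
  · intro e
    ext z
    constructor
    · rintro ⟨h1, h2⟩
      exact ⟨h1.trans h, EE_trans hR n h.symm h1.symm (EE_symm hR n e) h2⟩
    · rintro ⟨h1, h2⟩
      exact ⟨h1.trans h.symm, EE_trans hR n h h1.symm e h2⟩

/-- boolean check of a certificate entry: rows `x y z`, canonical words `a b c` -/
def chk (x y z a b c : List ℤ) : Bool :=
  x.length == 7 && y.length == 7 && z.length == 7 &&
  (x.zip (y.zip z)).all (fun t => t.1 + t.2.2 == 2 * t.2.1) &&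
  ((x.zip (y.zip z)).map fun t => (t.2.1 - t.1) * (t.2.1 - t.1)).sum == 12 &&
  (x ++ y ++ z).all (fun a => a == 0 || a == 1 || a == -1 || a == 2 || a == -2 || a == 3 || a == -3) &&
  x.isPerm a && y.isPerm b && z.isPerm c

theorem chk_sound (hn : (1346 : ℤ) ≤ n) {x y z a b c : List ℤ} (h : chk x y z a b c = true) :
    (col R n a = col R n b ∨ col R n b = col R n c ∨ col R n a = col R n c) ∧
    ¬ (col R n a = col R n b ∧ col R n b = col R n c) := by
  unfold chk at h
  simp only [Bool.and_eq_true, beq_iff_eq, List.all_eq_true, List.isPerm_iff, Bool.or_eq_true] at h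
  obtain ⟨⟨⟨⟨⟨⟨⟨⟨lx, ly⟩, lz⟩, hap⟩, hs⟩, hm⟩, px⟩, py⟩, pz⟩ := h
  have mem : ∀ t ∈ x ++ y ++ z, t = 0 ∨ t ∈ C6 := by
    intro t ht
    have := hm t ht
    simp only [C6, List.mem_cons, List.not_mem_nil, or_false]
    tauto
  have cx : col R n a = col R n x := by
    rw [eq_comm, col_eq hR n px.length_eq]
    exact EE_perm hR n hn px (fun t ht => mem t (by simp [ht]))
  have cy : col R n b = col R n y := by
    rw [eq_comm, col_eq hR n py.length_eq]
    exact EE_perm hR n hn py (fun t ht => mem t (by simp [ht]))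
  have cz : col R n c = col R n z := by
    rw [eq_comm, col_eq hR n pz.length_eq]
    exact EE_perm hR n hn pz (fun t ht => mem t (by simp [ht]))
  rw [cx, cy, cz, col_eq hR n (lx.trans ly.symm), col_eq hR n (ly.trans lz.symm),
    col_eq hR n (lx.trans lz.symm)]
  exact EE_ap hR n (lx.trans ly.symm) (ly.trans lz.symm) hap (by
    simpa only [pow_two] using hs)

end

end Pool.Agent.H998R3
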