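import Pool.Agent.H998R3.LK

set_option autoImplicit false
set_option maxRecDepth 100000
set_option linter.all false

namespace Pool.Agent.H998R3

theorem cert {α : Type} (c : ℕ → α)
    (h : ∀ r ∈ rows, X2 (c r.1.1) (c r.1.2.1) (c r.1.2.2)) : False := by
  have a0 : X2 (c 1) (c 45) (c 3) := (X2.s23 (h _ (List.getElem_mem (l := rows) (n := 0) (by decide))))
  have a1 : X2 (c 8) (c 35) (c 1) := (X2.s23 (h _ (List.getElem_mem (l := rows) (n := 1) (by decide))))
  have a2 : X2 (c 8) (c 43) (c 4) := (X2.s23 (h _ (List.getElem_mem (l := rows) (n := 2) (by decide))))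
  have a3 : X2 (c 16) (c 2) (c 33) := (h _ (List.getElem_mem (l := rows) (n := 3) (by decide)))
  have a4 : X2 (c 16) (c 32) (c 1) := (X2.s23 (h _ (List.getElem_mem (l := rows) (n := 4) (by decide))))
  have a5 : X2 (c 16) (c 43) (c 11) := (X2.s23 (h _ (List.getElem_mem (l := rows) (n := 5) (by decide))))
  have a6 : X2 (c 17) (c 1) (c 33) := (h _ (List.getElem_mem (l := rows) (n := 6) (by decide)))
  have a7 : X2 (c 17) (c 10) (c 44) := (h _ (List.getElem_mem (l := rows) (n := 7) (by decide)))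
  have a8 : X2 (c 18) (c 2) (c 33) := (h _ (List.getElem_mem (l := rows) (n := 8) (by decide)))
  have a9 : X2 (c 18) (c 12) (c 45) := (h _ (List.getElem_mem (l := rows) (n := 9) (by decide)))
  have a10 : X2 (c 18) (c 12) (c 46) := (h _ (List.getElem_mem (l := rows) (n := 10) (by decide)))
  have a11 : X2 (c 18) (c 32) (c 1) := (X2.s23 (h _ (List.getElem_mem (l := rows) (n := 11) (by decide))))
  have a12 : X2 (c 18) (c 35) (c 4) := (X2.s23 (h _ (List.getElem_mem (l := rows) (n := 12) (by decide))))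
  have a13 : X2 (c 18) (c 41) (c 9) := (X2.s23 (h _ (List.getElem_mem (l := rows) (n := 13) (by decide))))
  have a14 : X2 (c 18) (c 43) (c 10) := (X2.s23 (h _ (List.getElem_mem (l := rows) (n := 14) (by decide))))
  have a15 : X2 (c 18) (c 43) (c 11) := (X2.s23 (h _ (List.getElem_mem (l := rows) (n := 15) (by decide))))
  have a16 : X2 (c 18) (c 44) (c 12) := (X2.s23 (h _ (List.getElem_mem (l := rows) (n := 16) (by decide))))
  have a17 : X2 (c 19) (c 13) (c 46) := (h _ (List.getElem_mem (l := rows) (n := 17) (by decide)))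
  have a18 : X2 (c 19) (c 32) (c 2) := (X2.s23 (h _ (List.getElem_mem (l := rows) (n := 18) (by decide))))
  have a19 : X2 (c 19) (c 33) (c 3) := (X2.s23 (h _ (List.getElem_mem (l := rows) (n := 19) (by decide))))
  have a20 : X2 (c 19) (c 35) (c 5) := (X2.s23 (h _ (List.getElem_mem (l := rows) (n := 20) (by decide))))
  have a21 : X2 (c 19) (c 43) (c 12) := (X2.s23 (h _ (List.getElem_mem (l := rows) (n := 21) (by decide))))
  have a22 : X2 (c 19) (c 44) (c 13) := (X2.s23 (h _ (List.getElem_mem (l := rows) (n := 22) (by decide))))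
  have a23 : X2 (c 19) (c 44) (c 15) := (X2.s23 (h _ (List.getElem_mem (l := rows) (n := 23) (by decide))))
  have a24 : X2 (c 19) (c 45) (c 13) := (X2.s23 (h _ (List.getElem_mem (l := rows) (n := 24) (by decide))))
  have a25 : X2 (c 21) (c 45) (c 14) := (X2.s23 (h _ (List.getElem_mem (l := rows) (n := 25) (by decide))))
  have a26 : X2 (c 21) (c 46) (c 14) := (X2.s23 (h _ (List.getElem_mem (l := rows) (n := 26) (by decide))))
  have a27 : X2 (c 25) (c 1) (c 27) := (h _ (List.getElem_mem (l := rows) (n := 27) (by decide)))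
  have a28 : X2 (c 25) (c 32) (c 4) := (X2.s23 (h _ (List.getElem_mem (l := rows) (n := 28) (by decide))))
  have a29 : X2 (c 25) (c 35) (c 11) := (X2.s23 (h _ (List.getElem_mem (l := rows) (n := 29) (by decide))))
  have a30 : X2 (c 26) (c 26) (c 1) := (X2.s23 (h _ (List.getElem_mem (l := rows) (n := 30) (by decide))))
  have a31 : X2 (c 26) (c 27) (c 2) := (X2.s12 (X2.s23 (h _ (List.getElem_mem (l := rows) (n := 31) (by decide)))))
  have a32 : X2 (c 26) (c 31) (c 4) := (X2.s23 (h _ (List.getElem_mem (l := rows) (n := 32) (by decide))))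
  have a33 : X2 (c 26) (c 32) (c 5) := (X2.s23 (h _ (List.getElem_mem (l := rows) (n := 33) (by decide))))
  have a34 : X2 (c 26) (c 35) (c 12) := (X2.s23 (h _ (List.getElem_mem (l := rows) (n := 34) (by decide))))
  have a35 : X2 (c 28) (c 1) (c 23) := (h _ (List.getElem_mem (l := rows) (n := 35) (by decide)))
  have a36 : X2 (c 28) (c 9) (c 32) := (h _ (List.getElem_mem (l := rows) (n := 36) (by decide)))
  have a37 : X2 (c 28) (c 11) (c 33) := (h _ (List.getElem_mem (l := rows) (n := 37) (by decide)))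
  have a38 : X2 (c 28) (c 18) (c 41) := (h _ (List.getElem_mem (l := rows) (n := 38) (by decide)))
  have a39 : X2 (c 28) (c 19) (c 0) := (X2.s23 (h _ (List.getElem_mem (l := rows) (n := 39) (by decide))))
  have a40 : X2 (c 28) (c 19) (c 44) := (h _ (List.getElem_mem (l := rows) (n := 40) (by decide)))
  have a41 : X2 (c 28) (c 19) (c 45) := (h _ (List.getElem_mem (l := rows) (n := 41) (by decide)))
  have a42 : X2 (c 28) (c 19) (c 46) := (h _ (List.getElem_mem (l := rows) (n := 42) (by decide)))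
  have a43 : X2 (c 28) (c 31) (c 8) := (X2.s23 (h _ (List.getElem_mem (l := rows) (n := 43) (by decide))))
  have a44 : X2 (c 29) (c 1) (c 21) := (h _ (List.getElem_mem (l := rows) (n := 44) (by decide)))
  have a45 : X2 (c 29) (c 1) (c 22) := (h _ (List.getElem_mem (l := rows) (n := 45) (by decide)))
  have a46 : X2 (c 29) (c 2) (c 23) := (h _ (List.getElem_mem (l := rows) (n := 46) (by decide)))
  have a47 : X2 (c 29) (c 4) (c 27) := (h _ (List.getElem_mem (l := rows) (n := 47) (by decide)))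
  have a48 : X2 (c 29) (c 10) (c 32) := (h _ (List.getElem_mem (l := rows) (n := 48) (by decide)))
  have a49 : X2 (c 29) (c 12) (c 33) := (h _ (List.getElem_mem (l := rows) (n := 49) (by decide)))
  have a50 : X2 (c 29) (c 18) (c 0) := (X2.s23 (h _ (List.getElem_mem (l := rows) (n := 50) (by decide))))
  have a51 : X2 (c 29) (c 19) (c 43) := (h _ (List.getElem_mem (l := rows) (n := 51) (by decide)))
  have a52 : X2 (c 29) (c 29) (c 8) := (X2.s23 (h _ (List.getElem_mem (l := rows) (n := 52) (by decide))))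
  have a53 : X2 (c 29) (c 31) (c 9) := (X2.s12 (X2.s23 (h _ (List.getElem_mem (l := rows) (n := 53) (by decide)))))
  have a54 : X2 (c 29) (c 32) (c 11) := (X2.s23 (h _ (List.getElem_mem (l := rows) (n := 54) (by decide))))
  have a55 : X2 (c 29) (c 42) (c 19) := (X2.s23 (h _ (List.getElem_mem (l := rows) (n := 55) (by decide))))
  have a56 : X2 (c 30) (c 13) (c 33) := (h _ (List.getElem_mem (l := rows) (n := 56) (by decide)))
  have a57 : X2 (c 30) (c 19) (c 1) := (X2.s23 (h _ (List.getElem_mem (l := rows) (n := 57) (by decide))))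
  have a58 : X2 (c 30) (c 21) (c 45) := (h _ (List.getElem_mem (l := rows) (n := 58) (by decide)))
  have a59 : X2 (c 30) (c 26) (c 4) := (X2.s23 (h _ (List.getElem_mem (l := rows) (n := 59) (by decide))))
  have a60 : X2 (c 30) (c 31) (c 10) := (X2.s23 (h _ (List.getElem_mem (l := rows) (n := 60) (by decide))))
  have a61 : X2 (c 30) (c 31) (c 11) := (X2.s12 (X2.s23 (h _ (List.getElem_mem (l := rows) (n := 61) (by decide)))))
  have a62 : X2 (c 30) (c 32) (c 12) := (X2.s12 (X2.s23 (h _ (List.getElem_mem (l := rows) (n := 62) (by decide)))))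
  have a63 : X2 (c 30) (c 33) (c 15) := (X2.s23 (h _ (List.getElem_mem (l := rows) (n := 63) (by decide))))
  have a64 : X2 (c 30) (c 41) (c 19) := (X2.s23 (h _ (List.getElem_mem (l := rows) (n := 64) (by decide))))
  have a65 : X2 (c 30) (c 44) (c 21) := (X2.s23 (h _ (List.getElem_mem (l := rows) (n := 65) (by decide))))
  have a66 : X2 (c 31) (c 13) (c 33) := (h _ (List.getElem_mem (l := rows) (n := 66) (by decide)))
  have a67 : X2 (c 31) (c 19) (c 1) := (X2.s23 (h _ (List.getElem_mem (l := rows) (n := 67) (by decide))))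
  have a68 : X2 (c 31) (c 21) (c 2) := (X2.s23 (h _ (List.getElem_mem (l := rows) (n := 68) (by decide))))
  have a69 : X2 (c 31) (c 21) (c 45) := (h _ (List.getElem_mem (l := rows) (n := 69) (by decide)))
  have a70 : X2 (c 31) (c 21) (c 46) := (h _ (List.getElem_mem (l := rows) (n := 70) (by decide)))
  have a71 : X2 (c 31) (c 27) (c 6) := (X2.s23 (h _ (List.getElem_mem (l := rows) (n := 71) (by decide))))
  have a72 : X2 (c 31) (c 32) (c 12) := (X2.s23 (h _ (List.getElem_mem (l := rows) (n := 72) (by decide))))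
  have a73 : X2 (c 31) (c 33) (c 15) := (X2.s23 (h _ (List.getElem_mem (l := rows) (n := 73) (by decide))))
  have a74 : X2 (c 31) (c 44) (c 21) := (X2.s23 (h _ (List.getElem_mem (l := rows) (n := 74) (by decide))))
  have a75 : X2 (c 32) (c 21) (c 3) := (X2.s23 (h _ (List.getElem_mem (l := rows) (n := 75) (by decide))))
  have a76 : X2 (c 32) (c 27) (c 7) := (X2.s23 (h _ (List.getElem_mem (l := rows) (n := 76) (by decide))))
  have a77 : X2 (c 32) (c 32) (c 13) := (X2.s23 (h _ (List.getElem_mem (l := rows) (n := 77) (by decide))))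
  have a78 : X2 (c 32) (c 32) (c 15) := (X2.s23 (h _ (List.getElem_mem (l := rows) (n := 78) (by decide))))
  have a79 : X2 (c 32) (c 33) (c 14) := (X2.s23 (h _ (List.getElem_mem (l := rows) (n := 79) (by decide))))
  have a80 : X2 (c 33) (c 46) (c 23) := (X2.s23 (h _ (List.getElem_mem (l := rows) (n := 80) (by decide))))
  have a81 : X2 (c 34) (c 1) (c 13) := (h _ (List.getElem_mem (l := rows) (n := 81) (by decide)))
  have a82 : X2 (c 34) (c 4) (c 21) := (h _ (List.getElem_mem (l := rows) (n := 82) (by decide)))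
  have a83 : X2 (c 34) (c 10) (c 27) := (h _ (List.getElem_mem (l := rows) (n := 83) (by decide)))
  have a84 : X2 (c 34) (c 19) (c 35) := (h _ (List.getElem_mem (l := rows) (n := 84) (by decide)))
  have a85 : X2 (c 34) (c 25) (c 8) := (X2.s23 (h _ (List.getElem_mem (l := rows) (n := 85) (by decide))))
  have a86 : X2 (c 34) (c 26) (c 9) := (X2.s23 (h _ (List.getElem_mem (l := rows) (n := 86) (by decide))))
  have a87 : X2 (c 34) (c 34) (c 18) := (X2.s23 (h _ (List.getElem_mem (l := rows) (n := 87) (by decide))))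
  have a88 : X2 (c 35) (c 11) (c 2) := (X2.s23 (h _ (List.getElem_mem (l := rows) (n := 88) (by decide))))
  have a89 : X2 (c 35) (c 21) (c 7) := (X2.s23 (h _ (List.getElem_mem (l := rows) (n := 89) (by decide))))
  have a90 : X2 (c 35) (c 27) (c 13) := (X2.s23 (h _ (List.getElem_mem (l := rows) (n := 90) (by decide))))
  have a91 : X2 (c 35) (c 35) (c 21) := (X2.s23 (h _ (List.getElem_mem (l := rows) (n := 91) (by decide))))
  have a92 : X2 (c 36) (c 2) (c 7) := (h _ (List.getElem_mem (l := rows) (n := 92) (by decide)))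
  have a93 : X2 (c 36) (c 24) (c 11) := (X2.s23 (h _ (List.getElem_mem (l := rows) (n := 93) (by decide))))
  have a94 : X2 (c 36) (c 36) (c 24) := (X2.s23 (h _ (List.getElem_mem (l := rows) (n := 94) (by decide))))
  have a95 : X2 (c 37) (c 8) (c 19) := (h _ (List.getElem_mem (l := rows) (n := 95) (by decide)))
  have a96 : X2 (c 37) (c 11) (c 23) := (h _ (List.getElem_mem (l := rows) (n := 96) (by decide)))
  have a97 : X2 (c 37) (c 18) (c 31) := (h _ (List.getElem_mem (l := rows) (n := 97) (by decide)))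
  have a98 : X2 (c 37) (c 19) (c 33) := (h _ (List.getElem_mem (l := rows) (n := 98) (by decide)))
  have a99 : X2 (c 37) (c 28) (c 17) := (X2.s23 (h _ (List.getElem_mem (l := rows) (n := 99) (by decide))))
  have a100 : X2 (c 37) (c 40) (c 25) := (X2.s12 (X2.s23 (h _ (List.getElem_mem (l := rows) (n := 100) (by decide)))))
  have a101 : X2 (c 38) (c 4) (c 13) := (h _ (List.getElem_mem (l := rows) (n := 101) (by decide)))
  have a102 : X2 (c 38) (c 9) (c 19) := (h _ (List.getElem_mem (l := rows) (n := 102) (by decide)))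
  have a103 : X2 (c 38) (c 10) (c 21) := (h _ (List.getElem_mem (l := rows) (n := 103) (by decide)))
  have a104 : X2 (c 38) (c 10) (c 22) := (h _ (List.getElem_mem (l := rows) (n := 104) (by decide)))
  have a105 : X2 (c 38) (c 11) (c 21) := (h _ (List.getElem_mem (l := rows) (n := 105) (by decide)))
  have a106 : X2 (c 38) (c 12) (c 23) := (h _ (List.getElem_mem (l := rows) (n := 106) (by decide)))
  have a107 : X2 (c 38) (c 18) (c 8) := (X2.s23 (h _ (List.getElem_mem (l := rows) (n := 107) (by decide))))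
  have a108 : X2 (c 38) (c 19) (c 32) := (h _ (List.getElem_mem (l := rows) (n := 108) (by decide)))
  have a109 : X2 (c 38) (c 20) (c 33) := (h _ (List.getElem_mem (l := rows) (n := 109) (by decide)))
  have a110 : X2 (c 38) (c 24) (c 35) := (h _ (List.getElem_mem (l := rows) (n := 110) (by decide)))
  have a111 : X2 (c 38) (c 29) (c 16) := (X2.s23 (h _ (List.getElem_mem (l := rows) (n := 111) (by decide))))
  have a112 : X2 (c 38) (c 29) (c 18) := (X2.s23 (h _ (List.getElem_mem (l := rows) (n := 112) (by decide))))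
  have a113 : X2 (c 38) (c 39) (c 25) := (X2.s23 (h _ (List.getElem_mem (l := rows) (n := 113) (by decide))))
  have a114 : X2 (c 39) (c 4) (c 13) := (h _ (List.getElem_mem (l := rows) (n := 114) (by decide)))
  have a115 : X2 (c 39) (c 10) (c 22) := (h _ (List.getElem_mem (l := rows) (n := 115) (by decide)))
  have a116 : X2 (c 39) (c 18) (c 8) := (X2.s23 (h _ (List.getElem_mem (l := rows) (n := 116) (by decide))))
  have a117 : X2 (c 39) (c 19) (c 32) := (h _ (List.getElem_mem (l := rows) (n := 117) (by decide)))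
  have a118 : X2 (c 39) (c 20) (c 33) := (h _ (List.getElem_mem (l := rows) (n := 118) (by decide)))
  have a119 : X2 (c 39) (c 29) (c 18) := (X2.s23 (h _ (List.getElem_mem (l := rows) (n := 119) (by decide))))
  have a120 : X2 (c 40) (c 1) (c 1) := (h _ (List.getElem_mem (l := rows) (n := 120) (by decide)))
  have a121 : X2 (c 40) (c 5) (c 13) := (h _ (List.getElem_mem (l := rows) (n := 121) (by decide)))
  have a122 : X2 (c 40) (c 10) (c 4) := (X2.s23 (h _ (List.getElem_mem (l := rows) (n := 122) (by decide))))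
  have a123 : X2 (c 40) (c 12) (c 21) := (h _ (List.getElem_mem (l := rows) (n := 123) (by decide)))
  have a124 : X2 (c 40) (c 18) (c 9) := (X2.s23 (h _ (List.getElem_mem (l := rows) (n := 124) (by decide))))
  have a125 : X2 (c 40) (c 19) (c 10) := (X2.s23 (h _ (List.getElem_mem (l := rows) (n := 125) (by decide))))
  have a126 : X2 (c 40) (c 19) (c 11) := (X2.s23 (h _ (List.getElem_mem (l := rows) (n := 126) (by decide))))
  have a127 : X2 (c 40) (c 21) (c 33) := (h _ (List.getElem_mem (l := rows) (n := 127) (by decide)))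
  have a128 : X2 (c 40) (c 28) (c 18) := (X2.s23 (h _ (List.getElem_mem (l := rows) (n := 128) (by decide))))
  have a129 : X2 (c 40) (c 30) (c 19) := (X2.s23 (h _ (List.getElem_mem (l := rows) (n := 129) (by decide))))
  have a130 : X2 (c 40) (c 31) (c 19) := (X2.s23 (h _ (List.getElem_mem (l := rows) (n := 130) (by decide))))
  have a131 : X2 (c 41) (c 1) (c 1) := (h _ (List.getElem_mem (l := rows) (n := 131) (by decide)))
  have a132 : X2 (c 41) (c 4) (c 11) := (h _ (List.getElem_mem (l := rows) (n := 132) (by decide)))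
  have a133 : X2 (c 41) (c 12) (c 21) := (h _ (List.getElem_mem (l := rows) (n := 133) (by decide)))
  have a134 : X2 (c 41) (c 12) (c 22) := (h _ (List.getElem_mem (l := rows) (n := 134) (by decide)))
  have a135 : X2 (c 41) (c 13) (c 6) := (X2.s23 (h _ (List.getElem_mem (l := rows) (n := 135) (by decide))))
  have a136 : X2 (c 41) (c 19) (c 10) := (X2.s23 (h _ (List.getElem_mem (l := rows) (n := 136) (by decide))))
  have a137 : X2 (c 41) (c 19) (c 11) := (X2.s23 (h _ (List.getElem_mem (l := rows) (n := 137) (by decide))))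
  have a138 : X2 (c 41) (c 20) (c 32) := (h _ (List.getElem_mem (l := rows) (n := 138) (by decide)))
  have a139 : X2 (c 41) (c 21) (c 33) := (h _ (List.getElem_mem (l := rows) (n := 139) (by decide)))
  have a140 : X2 (c 41) (c 23) (c 15) := (X2.s23 (h _ (List.getElem_mem (l := rows) (n := 140) (by decide))))
  have a141 : X2 (c 41) (c 31) (c 19) := (X2.s23 (h _ (List.getElem_mem (l := rows) (n := 141) (by decide))))
  have a142 : X2 (c 41) (c 33) (c 22) := (X2.s23 (h _ (List.getElem_mem (l := rows) (n := 142) (by decide))))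
  have a143 : X2 (c 41) (c 44) (c 27) := (X2.s23 (h _ (List.getElem_mem (l := rows) (n := 143) (by decide))))
  have a144 : X2 (c 42) (c 0) (c 1) := (X2.s23 (h _ (List.getElem_mem (l := rows) (n := 144) (by decide))))
  have a145 : X2 (c 42) (c 19) (c 12) := (X2.s23 (h _ (List.getElem_mem (l := rows) (n := 145) (by decide))))
  have a146 : X2 (c 42) (c 21) (c 13) := (X2.s23 (h _ (List.getElem_mem (l := rows) (n := 146) (by decide))))
  have a147 : X2 (c 42) (c 21) (c 15) := (X2.s23 (h _ (List.getElem_mem (l := rows) (n := 147) (by decide))))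
  have a148 : X2 (c 42) (c 32) (c 21) := (X2.s23 (h _ (List.getElem_mem (l := rows) (n := 148) (by decide))))
  have a149 : X2 (c 42) (c 43) (c 27) := (X2.s12 (X2.s23 (h _ (List.getElem_mem (l := rows) (n := 149) (by decide)))))
  have a150 : X2 (c 43) (c 1) (c 2) := (X2.s23 (h _ (List.getElem_mem (l := rows) (n := 150) (by decide))))
  have a151 : X2 (c 43) (c 10) (c 6) := (X2.s23 (h _ (List.getElem_mem (l := rows) (n := 151) (by decide))))
  have a152 : X2 (c 43) (c 13) (c 7) := (X2.s23 (h _ (List.getElem_mem (l := rows) (n := 152) (by decide))))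
  have a153 : X2 (c 43) (c 13) (c 22) := (h _ (List.getElem_mem (l := rows) (n := 153) (by decide)))
  have a154 : X2 (c 43) (c 21) (c 13) := (X2.s23 (h _ (List.getElem_mem (l := rows) (n := 154) (by decide))))
  have a155 : X2 (c 43) (c 32) (c 21) := (X2.s23 (h _ (List.getElem_mem (l := rows) (n := 155) (by decide))))
  have a156 : X2 (c 43) (c 32) (c 22) := (X2.s23 (h _ (List.getElem_mem (l := rows) (n := 156) (by decide))))
  have a157 : X2 (c 44) (c 21) (c 14) := (X2.s23 (h _ (List.getElem_mem (l := rows) (n := 157) (by decide))))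
  have a158 : X2 (c 44) (c 33) (c 23) := (X2.s23 (h _ (List.getElem_mem (l := rows) (n := 158) (by decide))))
  have a159 : X2 (c 45) (c 33) (c 23) := (X2.s23 (h _ (List.getElem_mem (l := rows) (n := 159) (by decide))))
  have k3490 : c 36 ≠ c 11 → c 24 ≠ c 11 → False := fun n0 n1 =>
      have u0 : c 36 ≠ c 24 := fun hh => X2.nd1 a94 hh
      X2.n3 a93 u0 n0 n1
  have k3491 : c 35 ≠ c 7 → c 21 ≠ c 7 → False := fun n0 n1 =>
      have u0 : c 35 ≠ c 21 := fun hh => X2.nd1 a91 hh
      X2.n3 a89 u0 n0 n1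
  have k3493 : c 32 = c 21 → c 21 = c 13 → False := fun n0 n1 =>
      have u0 : c 32 ≠ c 13 := fun hh => X2.nd1 a77 hh
      tr2 n0 n1 u0
  have k3495 : c 34 = c 35 → c 18 = c 35 → False := fun n0 n1 =>
      have u0 : c 34 ≠ c 18 := fun hh => X2.nd1 a87 hh
      tr3 n0 n1 u0
  have k3496 : c 35 = c 2 → c 21 = c 2 → False := fun n0 n1 =>
      have u0 : c 35 ≠ c 21 := fun hh => X2.nd1 a91 hh
      tr3 n0 n1 u0
  have k3497 : c 40 = c 18 → c 18 = c 1 → False := fun n0 n1 =>
      have u0 : c 40 ≠ c 1 := fun hh => X2.nd2 a120 hh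
      tr2 n0 n1 u0
  have k3498 : c 30 = c 41 → c 30 = c 1 → False := fun n0 n1 =>
      have u0 : c 41 ≠ c 1 := fun hh => X2.nd2 a131 hh
      tr1 n0 n1 u0
  have k3499 : c 32 = c 1 → c 1 = c 13 → False := fun n0 n1 =>
      have u0 : c 32 ≠ c 13 := fun hh => X2.nd1 a77 hh
      tr2 n0 n1 u0
  have k3500 : c 40 = c 21 → c 1 = c 21 → False := fun n0 n1 =>
      have u0 : c 40 ≠ c 1 := fun hh => X2.nd2 a120 hh
      tr3 n0 n1 u0
  have k3501 : c 32 = c 45 → c 45 = c 13 → False := fun n0 n1 =>
      have u0 : c 32 ≠ c 13 := fun hh => X2.nd1 a77 hh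
      tr2 n0 n1 u0
  have k3502 : c 35 = c 4 → c 4 = c 21 → False := fun n0 n1 =>
      have u0 : c 35 ≠ c 21 := fun hh => X2.nd1 a91 hh
      tr2 n0 n1 u0
  have k3503 : c 29 = c 19 → c 8 = c 19 → False := fun n0 n1 =>
      have u0 : c 29 ≠ c 8 := fun hh => X2.nd1 a52 hh
      tr3 n0 n1 u0
  have k3504 : c 42 = c 32 → c 42 = c 15 → False := fun n0 n1 =>
      have u0 : c 32 ≠ c 15 := fun hh => X2.nd1 a78 hh
      tr1 n0 n1 u0
  have k3505 : c 43 = c 32 → c 43 = c 13 → False := fun n0 n1 =>
      have u0 : c 32 ≠ c 13 := fun hh => X2.nd1 a77 hh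
      tr1 n0 n1 u0
  have k3506 : c 41 = c 31 → c 31 = c 1 → False := fun n0 n1 =>
      have u0 : c 41 ≠ c 1 := fun hh => X2.nd2 a131 hh
      tr2 n0 n1 u0
  have k3508 : c 40 = c 28 → c 28 = c 1 → False := fun n0 n1 =>
      have u0 : c 40 ≠ c 1 := fun hh => X2.nd2 a120 hh
      tr2 n0 n1 u0
  have k3509 : c 40 = c 19 → c 19 = c 1 → False := fun n0 n1 =>
      have u0 : c 40 ≠ c 1 := fun hh => X2.nd2 a120 hh
      tr2 n0 n1 u0
  have k3510 : c 26 = c 35 → c 35 = c 1 → False := fun n0 n1 =>
      have u0 : c 26 ≠ c 1 := fun hh => X2.nd1 a30 hh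
      tr2 n0 n1 u0
  have k3511 : c 34 = c 13 → c 18 = c 13 → False := fun n0 n1 =>
      have u0 : c 34 ≠ c 18 := fun hh => X2.nd1 a87 hh
      tr3 n0 n1 u0
  have k3512 : c 34 = c 9 → c 18 = c 9 → False := fun n0 n1 =>
      have u0 : c 34 ≠ c 18 := fun hh => X2.nd1 a87 hh
      tr3 n0 n1 u0
  have k3514 : c 32 = c 33 → c 13 = c 33 → False := fun n0 n1 =>
      have u0 : c 32 ≠ c 13 := fun hh => X2.nd1 a77 hh
      tr3 n0 n1 u0
  have k3515 : c 35 = c 13 → c 21 = c 13 → False := fun n0 n1 =>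
      have u0 : c 35 ≠ c 21 := fun hh => X2.nd1 a91 hh
      tr3 n0 n1 u0
  have k3516 : c 35 = c 1 → c 1 = c 21 → False := fun n0 n1 =>
      have u0 : c 35 ≠ c 21 := fun hh => X2.nd1 a91 hh
      tr2 n0 n1 u0
  have k3517 : c 41 = c 23 → c 1 = c 23 → False := fun n0 n1 =>
      have u0 : c 41 ≠ c 1 := fun hh => X2.nd2 a131 hh
      tr3 n0 n1 u0
  have k3518 : c 18 = c 41 → c 18 = c 1 → False := fun n0 n1 =>
      have u0 : c 41 ≠ c 1 := fun hh => X2.nd2 a131 hh
      tr1 n0 n1 u0
  have k3519 : c 29 = c 1 → c 8 = c 1 → False := fun n0 n1 =>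
      have u0 : c 29 ≠ c 8 := fun hh => X2.nd1 a52 hh
      tr3 n0 n1 u0
  have k3520 : c 38 = c 35 → c 38 = c 21 → False := fun n0 n1 =>
      have u0 : c 35 ≠ c 21 := fun hh => X2.nd1 a91 hh
      tr1 n0 n1 u0
  have k3521 : c 31 = c 32 → c 31 = c 15 → False := fun n0 n1 =>
      have u0 : c 32 ≠ c 15 := fun hh => X2.nd1 a78 hh
      tr1 n0 n1 u0
  have k3523 : c 40 = c 31 → c 31 = c 1 → False := fun n0 n1 =>
      have u0 : c 40 ≠ c 1 := fun hh => X2.nd2 a120 hh
      tr2 n0 n1 u0
  have k3524 : c 38 = c 29 → c 38 = c 8 → False := fun n0 n1 =>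
      have u0 : c 29 ≠ c 8 := fun hh => X2.nd1 a52 hh
      tr1 n0 n1 u0
  have k3525 : c 41 = c 32 → c 32 = c 1 → False := fun n0 n1 =>
      have u0 : c 41 ≠ c 1 := fun hh => X2.nd2 a131 hh
      tr2 n0 n1 u0
  have k3526 : c 32 = c 27 → c 27 = c 13 → False := fun n0 n1 =>
      have u0 : c 32 ≠ c 13 := fun hh => X2.nd1 a77 hh
      tr2 n0 n1 u0
  have k3528 : c 30 = c 35 → c 30 = c 21 → False := fun n0 n1 =>
      have u0 : c 35 ≠ c 21 := fun hh => X2.nd1 a91 hh
      tr1 n0 n1 u0
  have k3529 : c 35 = c 11 → c 11 = c 21 → False := fun n0 n1 =>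
      have u0 : c 35 ≠ c 21 := fun hh => X2.nd1 a91 hh
      tr2 n0 n1 u0
  have k3530 : c 19 = c 32 → c 19 = c 15 → False := fun n0 n1 =>
      have u0 : c 32 ≠ c 15 := fun hh => X2.nd1 a78 hh
      tr1 n0 n1 u0
  have k3531 : c 34 = c 8 → c 18 = c 8 → False := fun n0 n1 =>
      have u0 : c 34 ≠ c 18 := fun hh => X2.nd1 a87 hh
      tr3 n0 n1 u0
  have k3532 : c 29 = c 18 → c 18 = c 8 → False := fun n0 n1 =>
      have u0 : c 29 ≠ c 8 := fun hh => X2.nd1 a52 hh
      tr2 n0 n1 u0
  have k3533 : c 34 = c 1 → c 18 = c 1 → False := fun n0 n1 =>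
      have u0 : c 34 ≠ c 18 := fun hh => X2.nd1 a87 hh
      tr3 n0 n1 u0
  have k3534 : c 41 = c 21 → c 1 = c 21 → False := fun n0 n1 =>
      have u0 : c 41 ≠ c 1 := fun hh => X2.nd2 a131 hh
      tr3 n0 n1 u0
  have k3535 : c 29 = c 43 → c 8 = c 43 → False := fun n0 n1 =>
      have u0 : c 29 ≠ c 8 := fun hh => X2.nd1 a52 hh
      tr3 n0 n1 u0
  have k3536 : c 41 = c 19 → c 19 = c 1 → False := fun n0 n1 =>
      have u0 : c 41 ≠ c 1 := fun hh => X2.nd2 a131 hh
      tr2 n0 n1 u0
  have k3537 : c 32 = c 4 → c 4 = c 13 → False := fun n0 n1 =>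
      have u0 : c 32 ≠ c 13 := fun hh => X2.nd1 a77 hh
      tr2 n0 n1 u0
  have k3538 : c 26 = c 32 → c 32 = c 1 → False := fun n0 n1 =>
      have u0 : c 26 ≠ c 1 := fun hh => X2.nd1 a30 hh
      tr2 n0 n1 u0
  have k3539 : c 31 = c 32 → c 31 = c 13 → False := fun n0 n1 =>
      have u0 : c 32 ≠ c 13 := fun hh => X2.nd1 a77 hh
      tr1 n0 n1 u0
  have k3541 : c 34 = c 10 → c 18 = c 10 → False := fun n0 n1 =>
      have u0 : c 34 ≠ c 18 := fun hh => X2.nd1 a87 hh
      tr3 n0 n1 u0
  have k3542 : c 41 = c 33 → c 1 = c 33 → False := fun n0 n1 =>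
      have u0 : c 41 ≠ c 1 := fun hh => X2.nd2 a131 hh
      tr3 n0 n1 u0
  have k3543 : c 34 = c 4 → c 18 = c 4 → False := fun n0 n1 =>
      have u0 : c 34 ≠ c 18 := fun hh => X2.nd1 a87 hh
      tr3 n0 n1 u0
  have k3544 : c 34 = c 35 → c 34 = c 21 → False := fun n0 n1 =>
      have u0 : c 35 ≠ c 21 := fun hh => X2.nd1 a91 hh
      tr1 n0 n1 u0
  have k3545 : c 41 = c 27 → c 1 = c 27 → False := fun n0 n1 =>
      have u0 : c 41 ≠ c 1 := fun hh => X2.nd2 a131 hh
      tr3 n0 n1 u0
  have k3546 : c 32 = c 21 → c 21 = c 15 → False := fun n0 n1 =>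
      have u0 : c 32 ≠ c 15 := fun hh => X2.nd1 a78 hh
      tr2 n0 n1 u0
  have k3547 : c 40 = c 30 → c 30 = c 1 → False := fun n0 n1 =>
      have u0 : c 40 ≠ c 1 := fun hh => X2.nd2 a120 hh
      tr2 n0 n1 u0
  have k3548 : c 32 = c 33 → c 33 = c 15 → False := fun n0 n1 =>
      have u0 : c 32 ≠ c 15 := fun hh => X2.nd1 a78 hh
      tr2 n0 n1 u0
  have k3549 : c 34 = c 26 → c 34 = c 1 → False := fun n0 n1 =>
      have u0 : c 26 ≠ c 1 := fun hh => X2.nd1 a30 hh
      tr1 n0 n1 u0
  have k3550 : c 18 = c 32 → c 18 = c 13 → False := fun n0 n1 =>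
      have u0 : c 32 ≠ c 13 := fun hh => X2.nd1 a77 hh
      tr1 n0 n1 u0
  have k3551 : c 26 = c 31 → c 31 = c 1 → False := fun n0 n1 =>
      have u0 : c 26 ≠ c 1 := fun hh => X2.nd1 a30 hh
      tr2 n0 n1 u0
  have k3552 : c 42 = c 32 → c 42 = c 13 → False := fun n0 n1 =>
      have u0 : c 32 ≠ c 13 := fun hh => X2.nd1 a77 hh
      tr1 n0 n1 u0
  have k3553 : c 35 = c 12 → c 12 = c 21 → False := fun n0 n1 =>
      have u0 : c 35 ≠ c 21 := fun hh => X2.nd1 a91 hh
      tr2 n0 n1 u0
  have k3554 : c 28 = c 41 → c 28 = c 1 → False := fun n0 n1 =>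
      have u0 : c 41 ≠ c 1 := fun hh => X2.nd2 a131 hh
      tr1 n0 n1 u0
  have k3556 : c 41 = c 13 → c 1 = c 13 → False := fun n0 n1 =>
      have u0 : c 41 ≠ c 1 := fun hh => X2.nd2 a131 hh
      tr3 n0 n1 u0
  have k3558 : c 29 = c 4 → c 8 = c 4 → False := fun n0 n1 =>
      have u0 : c 29 ≠ c 8 := fun hh => X2.nd1 a52 hh
      tr3 n0 n1 u0
  have k3560 : c 19 = c 32 → c 19 = c 13 → False := fun n0 n1 =>
      have u0 : c 32 ≠ c 13 := fun hh => X2.nd1 a77 hh
      tr1 n0 n1 u0
  have k3561 : c 21 = c 7 → c 36 = c 7 → c 36 = c 11 → c 35 = c 11 → False := fun n0 n1 n2 n3 =>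
      have u0 : c 35 ≠ c 21 := fun hh => X2.nd1 a91 hh
      u0 (Eq.trans (Eq.trans (Eq.trans n3 (Eq.symm n2)) n1) (Eq.symm n0))
  have k3562 : c 43 = c 4 → c 29 ≠ c 27 → c 29 ≠ c 43 → c 43 ≠ c 27 → False := fun n0 n1 n2 n3 =>
      have u0 : c 4 ≠ c 27 := fun hh => tr2 n0 hh n3
      have u1 : c 29 ≠ c 4 := fun hh => tr3 hh n0 n2
      X2.n3 a47 u1 n1 u0
  have k3563 : c 8 = c 4 → c 29 ≠ c 27 → c 8 = c 35 → c 35 ≠ c 27 → False := fun n0 n1 n2 n3 =>
      have u0 : c 35 = c 4 := Classical.byContradiction fun hh => tr1 n2 n0 hh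
      have u1 : c 29 ≠ c 4 := fun hh => k3558 hh n0
      have u2 : c 4 ≠ c 27 := fun hh => tr2 u0 hh n3
      X2.n3 a47 u1 n1 u2
  have k3564 : c 19 = c 3 → c 32 ≠ c 11 → c 1 = c 2 → c 42 = c 32 → c 43 = c 32 → c 43 ≠ c 27 → c 21 = c 13 → c 32 = c 3 → c 11 = c 2 → c 27 = c 13 → c 45 = c 3 → c 45 = c 23 → c 33 ≠ c 23 → False := fun n0 n1 n2 n3 n4 n5 n6 n7 n8 n9 n10 n11 n12 =>
      have u0 : c 1 ≠ c 45 := fun hh => X2.n13 a0 hh n10
      have u1 : c 1 ≠ c 23 := fun hh => tr3 hh n11 u0
      have u2 : c 2 ≠ c 23 := fun hh => tr2 n2 hh u1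
      have u3 : c 11 ≠ c 23 := fun hh => tr1 n8 hh u2
      have u4 : c 35 ≠ c 2 := fun hh => X2.n23 a88 hh n8
      have u5 : c 35 ≠ c 1 := fun hh => tr2 hh n2 u4
      have u6 : c 35 ≠ c 27 := fun hh => X2.n13 a90 hh n9
      have u7 : c 19 ≠ c 33 := fun hh => X2.n12 a19 hh n0
      have u8 : c 19 = c 32 := Classical.byContradiction fun hh => tr3 n0 n7 hh
      have u9 : c 19 = c 45 := Classical.byContradiction fun hh => tr3 n0 n10 hh
      have u10 : c 42 = c 19 := Classical.byContradiction fun hh => tr3 n3 u8 hh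
      have u11 : c 19 = c 43 := Classical.byContradiction fun hh => tr3 u8 n4 hh
      have u12 : c 28 ≠ c 45 := fun hh => X2.n23 a41 hh u9
      have u13 : c 29 ≠ c 42 := fun hh => X2.n13 a55 hh u10
      have u14 : c 29 ≠ c 43 := fun hh => X2.n23 a51 hh u11
      have u15 : c 28 ≠ c 23 := fun hh => tr3 hh n11 u12
      have u16 : c 29 ≠ c 32 := fun hh => tr3 hh n3 u13
      have u17 : c 28 = c 1 := Classical.byContradiction fun hh => X2.n3 a35 hh u15 u1
      have u18 : c 29 = c 11 := Classical.byContradiction fun hh => X2.n3 a54 u16 hh n1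
      have u19 : c 29 = c 2 := Classical.byContradiction fun hh => tr2 u18 n8 hh
      have u20 : c 29 = c 1 := Classical.byContradiction fun hh => tr3 u19 n2 hh
      have u21 : c 29 ≠ c 21 := fun hh => X2.n12 a44 u20 hh
      have u22 : c 8 ≠ c 1 := fun hh => k3519 u20 hh
      have u23 : c 29 ≠ c 13 := fun hh => tr3 hh n6 u21
      have u24 : c 8 = c 35 := Classical.byContradiction fun hh => X2.n3 a1 hh u22 u5
      have u25 : c 29 ≠ c 27 := fun hh => tr2 hh n9 u23
      have u26 : c 43 ≠ c 4 := fun hh => k3562 hh u25 u14 n5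
      have u27 : c 8 ≠ c 4 := fun hh => k3563 hh u25 u24 u6
      have u28 : c 8 = c 43 := Classical.byContradiction fun hh => X2.n3 a2 hh u27 u26
      have u29 : c 8 = c 19 := Classical.byContradiction fun hh => tr3 u28 u11 hh
      have u30 : c 37 ≠ c 19 := fun hh => X2.n23 a95 hh u29
      have u31 : c 37 = c 33 := Classical.byContradiction fun hh => X2.n3 a98 u30 hh u7
      have u32 : c 37 ≠ c 23 := fun hh => tr1 u31 hh n12
      have u33 : c 37 = c 11 := Classical.byContradiction fun hh => X2.n3 a96 hh u32 u3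
      have u34 : c 11 = c 33 := Classical.byContradiction fun hh => tr1 u33 u31 hh
      have u35 : c 28 ≠ c 33 := fun hh => X2.n23 a37 hh u34
      have u36 : c 29 = c 33 := Classical.byContradiction fun hh => tr2 u18 u34 hh
      have u37 : c 1 ≠ c 33 := fun hh => tr2 u17 hh u35
      tr1 u20 u36 u37
  have k3565 : c 1 = c 2 → c 42 = c 32 → c 43 = c 32 → c 43 ≠ c 27 → c 21 = c 13 → c 32 = c 45 → c 11 = c 2 → c 27 = c 13 → c 44 = c 23 → c 45 = c 3 → c 21 ≠ c 45 → c 45 = c 23 → c 33 ≠ c 23 → False := fun n0 n1 n2 n3 n4 n5 n6 n7 n8 n9 n10 n11 n12 =>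
      have u0 : c 32 = c 3 := Classical.byContradiction fun hh => tr2 n5 n9 hh
      have u1 : c 1 ≠ c 45 := fun hh => X2.n13 a0 hh n9
      have u2 : c 32 ≠ c 1 := fun hh => tr1 hh n5 u1
      have u3 : c 45 ≠ c 13 := fun hh => k3501 n5 hh
      have u4 : c 44 = c 45 := Classical.byContradiction fun hh => tr3 n8 n11 hh
      have u5 : c 44 ≠ c 21 := fun hh => tr1 hh u4 n10
      have u6 : c 44 ≠ c 33 := fun hh => X2.n12 a158 hh n8
      have u7 : c 45 ≠ c 33 := fun hh => X2.n12 a159 hh n11
      have u8 : c 33 ≠ c 3 := fun hh => tr3 n9 hh u7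
      have u9 : c 32 ≠ c 2 := fun hh => tr3 hh n0 u2
      have u10 : c 32 ≠ c 11 := fun hh => tr2 hh n6 u9
      have u11 : c 19 ≠ c 3 := fun hh => k3564 hh u10 n0 n1 n2 n3 n4 u0 n6 n7 n9 n11 n12
      have u12 : c 19 = c 33 := Classical.byContradiction fun hh => X2.n3 a19 hh u11 u8
      have u13 : c 19 ≠ c 45 := fun hh => tr2 hh n9 u11
      have u14 : c 19 ≠ c 32 := fun hh => tr2 hh u0 u11
      have u15 : c 19 ≠ c 44 := fun hh => tr1 hh u12 u6
      have u16 : c 19 = c 13 := Classical.byContradiction fun hh => X2.n3 a24 u13 hh u3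
      have u17 : c 19 = c 2 := Classical.byContradiction fun hh => X2.n3 a18 u14 hh u9
      have u18 : c 13 = c 33 := Classical.byContradiction fun hh => tr1 u16 u12 hh
      have u19 : c 19 = c 1 := Classical.byContradiction fun hh => tr3 u17 n0 hh
      have u20 : c 19 = c 11 := Classical.byContradiction fun hh => tr3 u17 n6 hh
      have u21 : c 2 = c 33 := Classical.byContradiction fun hh => tr1 u17 u12 hh
      have u22 : c 31 ≠ c 13 := fun hh => X2.n13 a66 hh u18
      have u23 : c 30 ≠ c 13 := fun hh => X2.n13 a56 hh u18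
      have u24 : c 31 ≠ c 19 := fun hh => X2.n13 a67 hh u19
      have u25 : c 30 ≠ c 19 := fun hh => X2.n13 a57 hh u19
      have u26 : c 41 ≠ c 19 := fun hh => k3536 hh u19
      have u27 : c 1 = c 33 := Classical.byContradiction fun hh => tr1 u19 u12 hh
      have u28 : c 11 = c 33 := Classical.byContradiction fun hh => tr1 u20 u12 hh
      have u29 : c 18 ≠ c 33 := fun hh => X2.n23 a8 hh u21
      have u30 : c 31 ≠ c 21 := fun hh => tr2 hh n4 u22
      have u31 : c 30 ≠ c 21 := fun hh => tr2 hh n4 u23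
      have u32 : c 41 = c 31 := Classical.byContradiction fun hh => X2.n3 a141 hh u26 u24
      have u33 : c 30 = c 41 := Classical.byContradiction fun hh => X2.n3 a64 hh u25 u26
      have u34 : c 18 ≠ c 1 := fun hh => tr2 hh u27 u29
      have u35 : c 28 ≠ c 11 := fun hh => X2.n13 a37 hh u28
      have u36 : c 31 = c 45 := Classical.byContradiction fun hh => X2.n3 a69 u30 hh n10
      have u37 : c 30 = c 44 := Classical.byContradiction fun hh => X2.n3 a65 hh u31 u5
      have u38 : c 41 = c 44 := Classical.byContradiction fun hh => tr1 u33 u37 hh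
      have u39 : c 18 = c 32 := Classical.byContradiction fun hh => X2.n3 a11 hh u34 u2
      have u40 : c 28 ≠ c 19 := fun hh => tr2 hh u20 u35
      have u41 : c 31 = c 32 := Classical.byContradiction fun hh => tr3 u36 n5 hh
      have u42 : c 28 = c 44 := Classical.byContradiction fun hh => X2.n3 a40 u40 hh u15
      have u43 : c 41 = c 32 := Classical.byContradiction fun hh => tr2 u32 u41 hh
      have u44 : c 28 = c 41 := Classical.byContradiction fun hh => tr3 u42 u38 hh
      have u45 : c 18 = c 41 := Classical.byContradiction fun hh => tr3 u39 u43 hh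
      X2.n23 a38 u44 u45
  have k3566 : c 32 = c 14 → c 11 = c 2 → c 21 = c 7 → c 27 = c 13 → c 44 = c 23 → c 45 = c 3 → c 45 = c 14 → c 21 ≠ c 14 → c 45 = c 23 → c 33 ≠ c 23 → False := fun n0 n1 n2 n3 n4 n5 n6 n7 n8 n9 =>
      have u0 : c 32 ≠ c 27 := fun hh => k3526 hh n3
      have u1 : c 45 ≠ c 33 := fun hh => X2.n12 a159 hh n8
      have u2 : c 33 ≠ c 3 := fun hh => tr3 n5 hh u1
      have u3 : c 1 ≠ c 45 := fun hh => X2.n13 a0 hh n5
      have u4 : c 21 ≠ c 45 := fun hh => X2.n13 a25 hh n6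
      have u5 : c 32 ≠ c 33 := fun hh => X2.n12 a79 hh n0
      have u6 : c 32 = c 45 := Classical.byContradiction fun hh => tr3 n0 n6 hh
      have u7 : c 32 ≠ c 21 := fun hh => tr1 hh n0 n7
      have u8 : c 45 ≠ c 13 := fun hh => k3501 u6 hh
      have u9 : c 32 ≠ c 1 := fun hh => tr1 hh u6 u3
      have u10 : c 32 = c 3 := Classical.byContradiction fun hh => tr2 u6 n5 hh
      have u11 : c 32 ≠ c 7 := fun hh => tr3 hh n2 u7
      have u12 : c 27 = c 7 := Classical.byContradiction fun hh => X2.n3 a76 u0 u11 hh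
      have u13 : c 13 = c 7 := Classical.byContradiction fun hh => tr1 n3 u12 hh
      have u14 : c 43 ≠ c 13 := fun hh => X2.n13 a152 hh u13
      have u15 : c 43 ≠ c 7 := fun hh => X2.n23 a152 hh u13
      have u16 : c 21 = c 13 := Classical.byContradiction fun hh => tr3 n2 u13 hh
      have u17 : c 43 ≠ c 27 := fun hh => tr2 hh n3 u14
      have u18 : c 43 ≠ c 21 := fun hh => tr2 hh n2 u15
      have u19 : c 42 ≠ c 21 := fun hh => X2.n13 a146 hh u16
      have u20 : c 43 = c 32 := Classical.byContradiction fun hh => X2.n3 a155 hh u18 u7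
      have u21 : c 42 = c 32 := Classical.byContradiction fun hh => X2.n3 a148 hh u19 u7
      have u22 : c 43 ≠ c 1 := fun hh => tr1 u20 hh u9
      have u23 : c 42 = c 43 := Classical.byContradiction fun hh => tr3 u21 u20 hh
      have u24 : c 1 ≠ c 2 := fun hh => k3565 hh u21 u20 u17 u16 u6 n1 n3 n4 n5 u4 n8 n9
      have u25 : c 43 = c 2 := Classical.byContradiction fun hh => X2.n3 a150 u22 hh u24
      have u26 : c 32 = c 2 := Classical.byContradiction fun hh => tr1 u20 u25 hh
      have u27 : c 43 = c 11 := Classical.byContradiction fun hh => tr3 u25 n1 hh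
      have u28 : c 19 ≠ c 32 := fun hh => X2.n13 a18 hh u26
      have u29 : c 2 ≠ c 33 := fun hh => tr2 u26 hh u5
      have u30 : c 32 = c 11 := Classical.byContradiction fun hh => tr3 u26 n1 hh
      have u31 : c 18 ≠ c 43 := fun hh => X2.n13 a15 hh u27
      have u32 : c 42 = c 11 := Classical.byContradiction fun hh => tr2 u23 u27 hh
      have u33 : c 19 ≠ c 45 := fun hh => tr3 hh u6 u28
      have u34 : c 19 ≠ c 3 := fun hh => tr3 hh u10 u28
      have u35 : c 42 ≠ c 19 := fun hh => tr1 hh u21 u28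
      have u36 : c 29 ≠ c 11 := fun hh => X2.n23 a54 hh u30
      have u37 : c 18 ≠ c 32 := fun hh => tr3 hh u20 u31
      have u38 : c 18 ≠ c 2 := fun hh => tr3 hh u25 u31
      have u39 : c 29 ≠ c 42 := fun hh => tr2 hh u32 u36
      have u40 : c 19 = c 13 := Classical.byContradiction fun hh => X2.n3 a24 u33 hh u8
      have u41 : c 19 = c 33 := Classical.byContradiction fun hh => X2.n3 a19 hh u34 u2
      have u42 : c 18 = c 1 := Classical.byContradiction fun hh => X2.n3 a11 u37 hh u9
      have u43 : c 18 = c 33 := Classical.byContradiction fun hh => X2.n3 a8 u38 hh u29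
      have u44 : c 29 = c 19 := Classical.byContradiction fun hh => X2.n3 a55 u39 hh u35
      have u45 : c 13 = c 33 := Classical.byContradiction fun hh => tr1 u40 u41 hh
      have u46 : c 1 = c 33 := Classical.byContradiction fun hh => tr1 u42 u43 hh
      have u47 : c 29 = c 33 := Classical.byContradiction fun hh => tr2 u44 u41 hh
      have u48 : c 21 = c 33 := Classical.byContradiction fun hh => tr2 u16 u45 hh
      have u49 : c 1 = c 21 := Classical.byContradiction fun hh => tr3 u46 u48 hh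
      have u50 : c 29 = c 21 := Classical.byContradiction fun hh => tr3 u47 u48 hh
      X2.n23 a44 u50 u49
  have k3567 : c 32 = c 21 → c 27 = c 13 → False := fun n0 n1 =>
      have u0 : c 42 ≠ c 21 := fun hh => X2.n23 a148 hh n0
      have u1 : c 43 ≠ c 21 := fun hh => X2.n23 a155 hh n0
      have u2 : c 21 ≠ c 13 := fun hh => k3493 n0 hh
      have u3 : c 43 = c 13 := Classical.byContradiction fun hh => X2.n3 a154 u1 hh u2
      have u4 : c 42 = c 13 := Classical.byContradiction fun hh => X2.n3 a146 u0 hh u2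
      have u5 : c 43 = c 27 := Classical.byContradiction fun hh => tr3 u3 n1 hh
      have u6 : c 42 = c 27 := Classical.byContradiction fun hh => tr3 u4 n1 hh
      X2.n23 a149 u6 u5
  have k3568 : c 43 = c 2 → c 23 ≠ c 15 → c 21 = c 15 → c 43 = c 32 → c 43 ≠ c 21 → c 21 = c 13 → c 11 ≠ c 2 → c 32 = c 45 → c 32 = c 3 → c 33 ≠ c 3 → c 1 ≠ c 45 → c 21 ≠ c 45 → False := fun n0 n1 n2 n3 n4 n5 n6 n7 n8 n9 n10 n11 =>
      have u0 : c 45 ≠ c 13 := fun hh => k3501 n7 hh
      have u1 : c 32 = c 2 := Classical.byContradiction fun hh => tr1 n3 n0 hh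
      have u2 : c 21 ≠ c 2 := fun hh => tr3 n0 hh n4
      have u3 : c 19 ≠ c 32 := fun hh => X2.n13 a18 hh u1
      have u4 : c 32 ≠ c 11 := fun hh => tr1 hh u1 n6
      have u5 : c 19 ≠ c 45 := fun hh => tr3 hh n7 u3
      have u6 : c 19 ≠ c 3 := fun hh => tr3 hh n8 u3
      have u7 : c 19 ≠ c 43 := fun hh => tr2 hh n3 u3
      have u8 : c 19 = c 13 := Classical.byContradiction fun hh => X2.n3 a24 u5 hh u0
      have u9 : c 19 = c 33 := Classical.byContradiction fun hh => X2.n3 a19 hh u6 n9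
      have u10 : c 13 = c 33 := Classical.byContradiction fun hh => tr1 u8 u9 hh
      have u11 : c 31 ≠ c 13 := fun hh => X2.n13 a66 hh u10
      have u12 : c 21 = c 33 := Classical.byContradiction fun hh => tr2 n5 u10 hh
      have u13 : c 31 ≠ c 19 := fun hh => tr2 hh u8 u11
      have u14 : c 31 ≠ c 21 := fun hh => tr2 hh n5 u11
      have u15 : c 40 ≠ c 21 := fun hh => X2.n13 a127 hh u12
      have u16 : c 40 ≠ c 33 := fun hh => X2.n23 a127 hh u12
      have u17 : c 41 ≠ c 21 := fun hh => X2.n13 a139 hh u12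
      have u18 : c 41 ≠ c 33 := fun hh => X2.n23 a139 hh u12
      have u19 : c 31 = c 45 := Classical.byContradiction fun hh => X2.n3 a69 u14 hh n11
      have u20 : c 31 = c 2 := Classical.byContradiction fun hh => X2.n3 a68 u14 hh u2
      have u21 : c 40 ≠ c 19 := fun hh => tr2 hh u9 u16
      have u22 : c 41 ≠ c 15 := fun hh => tr3 hh n2 u17
      have u23 : c 41 ≠ c 19 := fun hh => tr2 hh u9 u18
      have u24 : c 31 ≠ c 1 := fun hh => tr1 hh u19 n10
      have u25 : c 31 = c 32 := Classical.byContradiction fun hh => tr3 u19 n7 hh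
      have u26 : c 31 ≠ c 11 := fun hh => tr1 hh u20 n6
      have u27 : c 40 = c 31 := Classical.byContradiction fun hh => X2.n3 a130 hh u21 u13
      have u28 : c 41 = c 23 := Classical.byContradiction fun hh => X2.n3 a140 hh u22 n1
      have u29 : c 41 = c 31 := Classical.byContradiction fun hh => X2.n3 a141 hh u23 u13
      have u30 : c 19 = c 1 := Classical.byContradiction fun hh => X2.n3 a67 u13 u24 hh
      have u31 : c 31 ≠ c 12 := fun hh => X2.n12 a72 u25 hh
      have u32 : c 40 ≠ c 11 := fun hh => tr1 u27 hh u26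
      have u33 : c 1 = c 33 := Classical.byContradiction fun hh => tr1 u30 u9 hh
      have u34 : c 40 ≠ c 12 := fun hh => tr1 u27 hh u31
      have u35 : c 41 ≠ c 12 := fun hh => tr1 u29 hh u31
      have u36 : c 19 = c 11 := Classical.byContradiction fun hh => X2.n3 a126 u21 u32 hh
      have u37 : c 1 = c 21 := Classical.byContradiction fun hh => tr3 u33 u12 hh
      have u38 : c 12 = c 21 := Classical.byContradiction fun hh => X2.n3 a123 u34 u15 hh
      have u39 : c 12 ≠ c 23 := fun hh => tr3 u28 hh u35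
      have u40 : c 11 = c 33 := Classical.byContradiction fun hh => tr1 u36 u9 hh
      have u41 : c 29 ≠ c 1 := fun hh => X2.n13 a44 hh u37
      have u42 : c 29 ≠ c 21 := fun hh => X2.n23 a44 hh u37
      have u43 : c 11 = c 21 := Classical.byContradiction fun hh => tr3 u40 u12 hh
      have u44 : c 29 ≠ c 19 := fun hh => tr2 hh u30 u41
      have u45 : c 29 ≠ c 11 := fun hh => tr2 hh u43 u42
      have u46 : c 38 ≠ c 11 := fun hh => X2.n13 a105 hh u43
      have u47 : c 38 ≠ c 21 := fun hh => X2.n23 a105 hh u43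
      have u48 : c 29 = c 43 := Classical.byContradiction fun hh => X2.n3 a51 u44 hh u7
      have u49 : c 29 = c 32 := Classical.byContradiction fun hh => X2.n3 a54 hh u45 u4
      have u50 : c 38 ≠ c 19 := fun hh => tr2 hh u36 u46
      have u51 : c 38 ≠ c 12 := fun hh => tr2 hh u38 u47
      have u52 : c 29 = c 2 := Classical.byContradiction fun hh => tr2 u48 n0 hh
      have u53 : c 38 = c 32 := Classical.byContradiction fun hh => X2.n3 a108 u50 hh u3
      have u54 : c 38 = c 23 := Classical.byContradiction fun hh => X2.n3 a106 u51 hh u39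
      have u55 : c 29 ≠ c 23 := fun hh => X2.n12 a46 u52 hh
      have u56 : c 38 = c 29 := Classical.byContradiction fun hh => tr3 u53 u49 hh
      tr1 u56 u54 u55
  have k3569 : c 19 = c 2 → c 1 = c 2 → c 11 ≠ c 2 → False := fun n0 n1 n2 =>
      have u0 : c 19 = c 1 := Classical.byContradiction fun hh => tr3 n0 n1 hh
      have u1 : c 19 ≠ c 11 := fun hh => tr1 hh n0 n2
      have u2 : c 31 ≠ c 19 := fun hh => X2.n13 a67 hh u0
      have u3 : c 30 ≠ c 19 := fun hh => X2.n13 a57 hh u0
      have u4 : c 40 ≠ c 19 := fun hh => k3509 hh u0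
      have u5 : c 41 ≠ c 19 := fun hh => k3536 hh u0
      have u6 : c 40 = c 11 := Classical.byContradiction fun hh => X2.n3 a126 u4 hh u1
      have u7 : c 41 = c 11 := Classical.byContradiction fun hh => X2.n3 a137 u5 hh u1
      have u8 : c 40 = c 31 := Classical.byContradiction fun hh => X2.n3 a130 hh u4 u2
      have u9 : c 30 = c 41 := Classical.byContradiction fun hh => X2.n3 a64 hh u3 u5
      have u10 : c 30 = c 11 := Classical.byContradiction fun hh => tr2 u9 u7 hh
      have u11 : c 31 = c 11 := Classical.byContradiction fun hh => tr1 u8 u6 hh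
      X2.n23 a61 u10 u11
  have k3570 : c 19 ≠ c 11 → c 41 ≠ c 23 → c 41 ≠ c 19 → c 29 ≠ c 32 → c 19 = c 32 → c 2 ≠ c 23 → c 11 ≠ c 2 → False := fun n0 n1 n2 n3 n4 n5 n6 =>
      have u0 : c 41 = c 11 := Classical.byContradiction fun hh => X2.n3 a137 n2 hh n0
      have u1 : c 32 ≠ c 11 := fun hh => tr2 n4 hh n0
      have u2 : c 11 ≠ c 23 := fun hh => tr2 u0 hh n1
      have u3 : c 29 = c 11 := Classical.byContradiction fun hh => X2.n3 a54 n3 hh u1
      have u4 : c 29 ≠ c 23 := fun hh => tr1 u3 hh u2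
      have u5 : c 29 ≠ c 2 := fun hh => tr1 u3 hh n6
      X2.n3 a46 u5 u4 n5
  have k3571 : c 19 = c 11 → c 28 = c 1 → c 28 ≠ c 19 → c 19 = c 43 → c 19 ≠ c 33 → c 19 = c 32 → c 1 = c 2 → c 32 ≠ c 1 → False := fun n0 n1 n2 n3 n4 n5 n6 n7 =>
      have u0 : c 11 ≠ c 33 := fun hh => tr2 n0 hh n4
      have u1 : c 43 = c 11 := Classical.byContradiction fun hh => tr1 n3 n0 hh
      have u2 : c 32 = c 11 := Classical.byContradiction fun hh => tr1 n5 n0 hh
      have u3 : c 28 ≠ c 11 := fun hh => tr3 hh n0 n2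
      have u4 : c 16 ≠ c 11 := fun hh => X2.n23 a5 hh u1
      have u5 : c 16 ≠ c 32 := fun hh => tr2 hh u2 u4
      have u6 : c 28 = c 33 := Classical.byContradiction fun hh => X2.n3 a37 u3 hh u0
      have u7 : c 16 = c 1 := Classical.byContradiction fun hh => X2.n3 a4 u5 hh n7
      have u8 : c 1 = c 33 := Classical.byContradiction fun hh => tr1 n1 u6 hh
      have u9 : c 16 = c 2 := Classical.byContradiction fun hh => tr2 u7 n6 hh
      have u10 : c 2 = c 33 := Classical.byContradiction fun hh => tr1 n6 u8 hh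
      X2.n13 a3 u9 u10
  have k3572 : c 21 = c 7 → c 32 = c 14 → c 27 = c 13 → c 44 = c 23 → c 45 = c 3 → c 45 = c 14 → c 21 ≠ c 14 → c 45 = c 23 → c 33 ≠ c 23 → False := fun n0 n1 n2 n3 n4 n5 n6 n7 n8 =>
      have u0 : c 21 ≠ c 45 := fun hh => X2.n13 a25 hh n5
      have u1 : c 21 ≠ c 3 := fun hh => tr3 hh n4 u0
      have u2 : c 32 ≠ c 21 := fun hh => k3567 hh n2
      have u3 : c 32 = c 3 := Classical.byContradiction fun hh => X2.n3 a75 u2 hh u1
      have u4 : c 32 = c 45 := Classical.byContradiction fun hh => tr3 u3 n4 hh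
      have u5 : c 45 ≠ c 33 := fun hh => X2.n12 a159 hh n7
      have u6 : c 33 ≠ c 3 := fun hh => tr3 n4 hh u5
      have u7 : c 32 ≠ c 33 := fun hh => tr1 hh u3 u6
      have u8 : c 1 ≠ c 3 := fun hh => X2.n23 a0 hh n4
      have u9 : c 32 ≠ c 1 := fun hh => tr1 hh u3 u8
      have u10 : c 32 ≠ c 27 := fun hh => k3526 hh n2
      have u11 : c 44 = c 45 := Classical.byContradiction fun hh => tr3 n3 n7 hh
      have u12 : c 44 ≠ c 21 := fun hh => tr1 hh u11 u0
      have u13 : c 1 ≠ c 45 := fun hh => X2.n13 a0 hh n4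
      have u14 : c 1 ≠ c 23 := fun hh => tr3 hh n7 u13
      have u15 : c 32 ≠ c 7 := fun hh => tr3 hh n0 u2
      have u16 : c 27 = c 7 := Classical.byContradiction fun hh => X2.n3 a76 u10 u15 hh
      have u17 : c 13 = c 7 := Classical.byContradiction fun hh => tr1 n2 u16 hh
      have u18 : c 11 ≠ c 2 := fun hh => k3566 n1 hh n0 n2 n3 n4 n5 n6 n7 n8
      have u19 : c 43 ≠ c 7 := fun hh => X2.n23 a152 hh u17
      have u20 : c 21 = c 13 := Classical.byContradiction fun hh => tr3 n0 u17 hh
      have u21 : c 43 ≠ c 21 := fun hh => tr2 hh n0 u19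
      have u22 : c 42 ≠ c 21 := fun hh => X2.n13 a146 hh u20
      have u23 : c 43 = c 32 := Classical.byContradiction fun hh => X2.n3 a155 hh u21 u2
      have u24 : c 42 = c 32 := Classical.byContradiction fun hh => X2.n3 a148 hh u22 u2
      have u25 : c 43 ≠ c 1 := fun hh => tr1 u23 hh u9
      have u26 : c 42 ≠ c 15 := fun hh => k3504 u24 hh
      have u27 : c 21 = c 15 := Classical.byContradiction fun hh => X2.n3 a147 u22 u26 hh
      have u28 : c 44 ≠ c 15 := fun hh => tr3 hh u27 u12
      have u29 : c 23 ≠ c 15 := fun hh => tr2 n3 hh u28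
      have u30 : c 43 ≠ c 2 := fun hh => k3568 hh u29 u27 u23 u21 u20 u18 u4 u3 u6 u13 u0
      have u31 : c 1 = c 2 := Classical.byContradiction fun hh => X2.n3 a150 u25 u30 hh
      have u32 : c 32 ≠ c 2 := fun hh => tr2 u23 hh u30
      have u33 : c 2 ≠ c 23 := fun hh => tr2 u31 hh u14
      have u34 : c 19 ≠ c 2 := fun hh => k3569 hh u31 u18
      have u35 : c 19 = c 32 := Classical.byContradiction fun hh => X2.n3 a18 hh u34 u32
      have u36 : c 19 ≠ c 15 := fun hh => k3530 u35 hh
      have u37 : c 42 = c 19 := Classical.byContradiction fun hh => tr3 u24 u35 hh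
      have u38 : c 19 ≠ c 33 := fun hh => tr1 u35 hh u7
      have u39 : c 19 = c 45 := Classical.byContradiction fun hh => tr2 u35 u4 hh
      have u40 : c 19 = c 43 := Classical.byContradiction fun hh => tr3 u35 u23 hh
      have u41 : c 19 = c 44 := Classical.byContradiction fun hh => X2.n3 a23 hh u36 u28
      have u42 : c 19 ≠ c 12 := fun hh => X2.n13 a145 u37 hh
      have u43 : c 29 ≠ c 42 := fun hh => X2.n13 a55 hh u37
      have u44 : c 28 ≠ c 19 := fun hh => X2.n13 a41 hh u39
      have u45 : c 28 ≠ c 45 := fun hh => X2.n23 a41 hh u39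
      have u46 : c 44 ≠ c 12 := fun hh => tr2 u41 hh u42
      have u47 : c 29 ≠ c 32 := fun hh => tr3 hh u24 u43
      have u48 : c 28 ≠ c 23 := fun hh => tr3 hh n7 u45
      have u49 : c 12 ≠ c 23 := fun hh => tr3 n3 hh u46
      have u50 : c 28 = c 1 := Classical.byContradiction fun hh => X2.n3 a35 hh u48 u14
      have u51 : c 28 ≠ c 41 := fun hh => k3554 hh u50
      have u52 : c 19 ≠ c 11 := fun hh => k3571 hh u50 u44 u40 u38 u35 u31 u9
      have u53 : c 32 ≠ c 11 := fun hh => tr2 u35 hh u52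
      have u54 : c 29 = c 11 := Classical.byContradiction fun hh => X2.n3 a54 u47 hh u53
      have u55 : c 29 ≠ c 2 := fun hh => tr1 u54 hh u18
      have u56 : c 29 = c 23 := Classical.byContradiction fun hh => X2.n3 a46 u55 hh u33
      have u57 : c 11 = c 23 := Classical.byContradiction fun hh => tr1 u54 u56 hh
      have u58 : c 29 ≠ c 33 := fun hh => tr1 hh u56 n8
      have u59 : c 29 ≠ c 12 := fun hh => tr1 hh u56 u49
      have u60 : c 11 ≠ c 33 := fun hh => tr1 hh u57 n8
      have u61 : c 28 ≠ c 11 := fun hh => tr2 hh u57 u48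
      have u62 : c 12 = c 33 := Classical.byContradiction fun hh => X2.n3 a49 u59 u58 hh
      have u63 : c 28 = c 33 := Classical.byContradiction fun hh => X2.n3 a37 u61 hh u60
      have u64 : c 1 = c 33 := Classical.byContradiction fun hh => tr1 u50 u63 hh
      have u65 : c 2 = c 33 := Classical.byContradiction fun hh => tr1 u31 u64 hh
      have u66 : c 18 ≠ c 2 := fun hh => X2.n13 a8 hh u65
      have u67 : c 18 ≠ c 33 := fun hh => X2.n23 a8 hh u65
      have u68 : c 18 ≠ c 1 := fun hh => tr2 hh u31 u66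
      have u69 : c 28 ≠ c 18 := fun hh => tr1 hh u63 u67
      have u70 : c 18 ≠ c 12 := fun hh => tr2 hh u62 u67
      have u71 : c 18 = c 32 := Classical.byContradiction fun hh => X2.n3 a11 hh u68 u9
      have u72 : c 18 = c 41 := Classical.byContradiction fun hh => X2.n3 a38 u69 u51 hh
      have u73 : c 18 = c 44 := Classical.byContradiction fun hh => X2.n3 a16 hh u70 u46
      have u74 : c 18 ≠ c 11 := fun hh => tr1 u71 hh u53
      have u75 : c 41 = c 44 := Classical.byContradiction fun hh => tr1 u72 u73 hh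
      have u76 : c 41 ≠ c 11 := fun hh => tr2 u72 hh u74
      have u77 : c 41 = c 23 := Classical.byContradiction fun hh => tr2 u75 n3 hh
      tr3 u77 u57 u76
  have k3573 : c 29 ≠ c 32 → c 19 ≠ c 11 → c 11 ≠ c 21 → c 19 = c 45 → c 19 = c 32 → c 2 ≠ c 23 → c 1 = c 2 → c 11 ≠ c 2 → c 44 ≠ c 21 → c 44 = c 23 → c 21 ≠ c 45 → False := fun n0 n1 n2 n3 n4 n5 n6 n7 n8 n9 n10 =>
      have u0 : c 32 ≠ c 11 := fun hh => tr2 n4 hh n1
      have u1 : c 29 = c 11 := Classical.byContradiction fun hh => X2.n3 a54 n0 hh u0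
      have u2 : c 29 ≠ c 2 := fun hh => tr1 u1 hh n7
      have u3 : c 29 ≠ c 21 := fun hh => tr1 u1 hh n2
      have u4 : c 29 ≠ c 1 := fun hh => tr2 hh n6 u2
      have u5 : c 1 = c 21 := Classical.byContradiction fun hh => X2.n3 a44 u4 u3 hh
      have u6 : c 21 = c 2 := Classical.byContradiction fun hh => tr1 u5 n6 hh
      have u7 : c 31 ≠ c 21 := fun hh => X2.n13 a68 hh u6
      have u8 : c 31 = c 45 := Classical.byContradiction fun hh => X2.n3 a69 u7 hh n10
      have u9 : c 31 = c 44 := Classical.byContradiction fun hh => X2.n3 a74 hh u7 n8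
      have u10 : c 31 = c 19 := Classical.byContradiction fun hh => tr3 u8 n3 hh
      have u11 : c 41 ≠ c 31 := fun hh => X2.n13 a141 hh u10
      have u12 : c 41 ≠ c 19 := fun hh => X2.n23 a141 hh u10
      have u13 : c 41 ≠ c 44 := fun hh => tr3 hh u9 u11
      have u14 : c 41 = c 23 := Classical.byContradiction fun hh => k3570 n1 hh u12 n0 n4 n5 n7
      tr3 u14 n9 u13
  have k3574 : c 29 = c 32 → c 19 = c 32 → c 43 ≠ c 1 → c 32 ≠ c 1 → c 32 ≠ c 21 → False := fun n0 n1 n2 n3 n4 =>
      have u0 : c 29 = c 19 := Classical.byContradiction fun hh => tr3 n0 n1 hh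
      have u1 : c 29 ≠ c 21 := fun hh => tr1 n0 hh n4
      have u2 : c 29 ≠ c 1 := fun hh => tr1 n0 hh n3
      have u3 : c 29 ≠ c 43 := fun hh => X2.n12 a51 u0 hh
      have u4 : c 1 = c 21 := Classical.byContradiction fun hh => X2.n3 a44 u2 u1 hh
      have u5 : c 43 ≠ c 32 := fun hh => tr3 n0 hh u3
      have u6 : c 43 ≠ c 21 := fun hh => tr3 hh u4 n2
      X2.n3 a155 u5 u6 n4
  have k3575 : c 43 ≠ c 32 → c 32 = c 7 → c 13 ≠ c 7 → c 32 ≠ c 21 → False := fun n0 n1 n2 n3 =>
      have u0 : c 43 = c 21 := Classical.byContradiction fun hh => X2.n3 a155 n0 hh n3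
      have u1 : c 43 ≠ c 7 := fun hh => tr3 hh n1 n0
      have u2 : c 43 ≠ c 13 := fun hh => X2.n12 a154 u0 hh
      X2.n3 a152 u2 u1 n2
  have k3576 : c 11 ≠ c 2 → c 43 = c 7 → c 43 = c 32 → c 35 = c 7 → c 32 ≠ c 21 → c 44 = c 23 → c 45 = c 3 → c 21 ≠ c 45 → c 45 = c 23 → False := fun n0 n1 n2 n3 n4 n5 n6 n7 n8 =>
      have u0 : c 44 = c 45 := Classical.byContradiction fun hh => tr3 n5 n8 hh
      have u1 : c 44 ≠ c 21 := fun hh => tr1 hh u0 n7
      have u2 : c 43 ≠ c 21 := fun hh => X2.n12 a155 n2 hh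
      have u3 : c 43 ≠ c 13 := fun hh => k3505 n2 hh
      have u4 : c 21 = c 13 := Classical.byContradiction fun hh => X2.n3 a154 u2 u3 hh
      have u5 : c 42 ≠ c 21 := fun hh => X2.n13 a146 hh u4
      have u6 : c 42 = c 32 := Classical.byContradiction fun hh => X2.n3 a148 hh u5 n4
      have u7 : c 42 ≠ c 15 := fun hh => k3504 u6 hh
      have u8 : c 21 = c 15 := Classical.byContradiction fun hh => X2.n3 a147 u5 u7 hh
      have u9 : c 44 ≠ c 15 := fun hh => tr3 hh u8 u1
      have u10 : c 23 ≠ c 15 := fun hh => tr2 n5 hh u9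
      have u11 : c 1 ≠ c 3 := fun hh => X2.n23 a0 hh n6
      have u12 : c 21 ≠ c 3 := fun hh => tr3 hh n6 n7
      have u13 : c 32 = c 3 := Classical.byContradiction fun hh => X2.n3 a75 n4 hh u12
      have u14 : c 32 ≠ c 1 := fun hh => tr1 hh u13 u11
      have u15 : c 43 ≠ c 1 := fun hh => tr1 n2 hh u14
      have u16 : c 32 = c 45 := Classical.byContradiction fun hh => tr3 u13 n6 hh
      have u17 : c 45 ≠ c 33 := fun hh => X2.n12 a159 hh n8
      have u18 : c 33 ≠ c 3 := fun hh => tr3 n6 hh u17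
      have u19 : c 32 ≠ c 33 := fun hh => tr1 hh u13 u18
      have u20 : c 1 ≠ c 45 := fun hh => X2.n13 a0 hh n6
      have u21 : c 1 ≠ c 23 := fun hh => tr3 hh n8 u20
      have u22 : c 43 ≠ c 2 := fun hh => k3568 hh u10 u8 n2 u2 u4 n0 u16 u13 u18 u20 n7
      have u23 : c 1 = c 2 := Classical.byContradiction fun hh => X2.n3 a150 u15 u22 hh
      have u24 : c 32 ≠ c 2 := fun hh => tr2 n2 hh u22
      have u25 : c 2 ≠ c 7 := fun hh => tr3 n1 hh u22
      have u26 : c 2 ≠ c 23 := fun hh => tr2 u23 hh u21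
      have u27 : c 19 ≠ c 2 := fun hh => k3569 hh u23 n0
      have u28 : c 35 ≠ c 2 := fun hh => tr1 hh n3 u25
      have u29 : c 19 = c 32 := Classical.byContradiction fun hh => X2.n3 a18 hh u27 u24
      have u30 : c 35 = c 11 := Classical.byContradiction fun hh => X2.n3 a88 hh u28 n0
      have u31 : c 19 ≠ c 33 := fun hh => tr1 u29 hh u19
      have u32 : c 19 = c 45 := Classical.byContradiction fun hh => tr2 u29 u16 hh
      have u33 : c 29 ≠ c 32 := fun hh => k3574 hh u29 u15 u14 n4
      have u34 : c 19 = c 43 := Classical.byContradiction fun hh => tr3 u29 n2 hh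
      have u35 : c 11 ≠ c 21 := fun hh => k3529 u30 hh
      have u36 : c 28 ≠ c 19 := fun hh => X2.n13 a41 hh u32
      have u37 : c 28 ≠ c 45 := fun hh => X2.n23 a41 hh u32
      have u38 : c 19 = c 11 := Classical.byContradiction fun hh => k3573 u33 hh u35 u32 u29 u26 u23 n0 u1 n5 n7
      have u39 : c 28 ≠ c 23 := fun hh => tr3 hh n8 u37
      have u40 : c 28 ≠ c 1 := fun hh => k3571 u38 hh u36 u34 u31 u29 u23 u14
      X2.n3 a35 u40 u39 u21
  have k3577 : c 27 = c 13 → c 44 = c 23 → c 45 = c 3 → c 45 = c 14 → c 33 ≠ c 14 → c 21 ≠ c 14 → c 45 = c 23 → c 33 ≠ c 23 → False := fun n0 n1 n2 n3 n4 n5 n6 n7 =>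
      have u0 : c 21 ≠ c 45 := fun hh => X2.n13 a25 hh n3
      have u1 : c 21 ≠ c 3 := fun hh => tr3 hh n2 u0
      have u2 : c 45 ≠ c 33 := fun hh => X2.n12 a159 hh n6
      have u3 : c 33 ≠ c 3 := fun hh => tr3 n2 hh u2
      have u4 : c 1 ≠ c 3 := fun hh => X2.n23 a0 hh n2
      have u5 : c 35 ≠ c 27 := fun hh => X2.n13 a90 hh n0
      have u6 : c 35 ≠ c 13 := fun hh => X2.n23 a90 hh n0
      have u7 : c 32 ≠ c 27 := fun hh => k3526 hh n0
      have u8 : c 32 ≠ c 21 := fun hh => k3567 hh n0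
      have u9 : c 32 = c 3 := Classical.byContradiction fun hh => X2.n3 a75 u8 hh u1
      have u10 : c 32 ≠ c 1 := fun hh => tr1 hh u9 u4
      have u11 : c 32 ≠ c 33 := fun hh => tr1 hh u9 u3
      have u12 : c 32 = c 45 := Classical.byContradiction fun hh => tr3 u9 n2 hh
      have u13 : c 32 = c 14 := Classical.byContradiction fun hh => X2.n3 a79 u11 hh n4
      have u14 : c 21 ≠ c 7 := fun hh => k3572 hh u13 n0 n1 n2 n3 n5 n6 n7
      have u15 : c 35 = c 7 := Classical.byContradiction fun hh => k3491 hh u14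
      have u16 : c 13 ≠ c 7 := fun hh => tr3 u15 hh u6
      have u17 : c 27 ≠ c 7 := fun hh => tr3 u15 hh u5
      have u18 : c 32 = c 7 := Classical.byContradiction fun hh => X2.n3 a76 u7 hh u17
      have u19 : c 43 = c 32 := Classical.byContradiction fun hh => k3575 hh u18 u16 u8
      have u20 : c 43 ≠ c 21 := fun hh => X2.n12 a155 u19 hh
      have u21 : c 43 ≠ c 1 := fun hh => tr1 u19 hh u10
      have u22 : c 43 ≠ c 13 := fun hh => k3505 u19 hh
      have u23 : c 43 ≠ c 27 := fun hh => tr1 u19 hh u7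
      have u24 : c 43 = c 7 := Classical.byContradiction fun hh => tr2 u19 u18 hh
      have u25 : c 21 = c 13 := Classical.byContradiction fun hh => X2.n3 a154 u20 u22 hh
      have u26 : c 42 ≠ c 21 := fun hh => X2.n13 a146 hh u25
      have u27 : c 42 = c 32 := Classical.byContradiction fun hh => X2.n3 a148 hh u26 u8
      have u28 : c 11 = c 2 := Classical.byContradiction fun hh => k3576 hh u24 u19 u15 u8 n1 n2 u0 n6
      have u29 : c 1 ≠ c 2 := fun hh => k3565 hh u27 u19 u23 u25 u12 u28 n0 n1 n2 u0 n6 n7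
      have u30 : c 35 ≠ c 2 := fun hh => X2.n23 a88 hh u28
      have u31 : c 43 = c 2 := Classical.byContradiction fun hh => X2.n3 a150 u21 hh u29
      have u32 : c 2 ≠ c 7 := fun hh => tr3 u15 hh u30
      tr1 u31 u24 u32
  have k3578 : c 13 ≠ c 7 → c 35 = c 27 → c 43 = c 32 → False := fun n0 n1 n2 =>
      have u0 : c 43 ≠ c 21 := fun hh => X2.n12 a155 n2 hh
      have u1 : c 43 ≠ c 13 := fun hh => k3505 n2 hh
      have u2 : c 21 = c 13 := Classical.byContradiction fun hh => X2.n3 a154 u0 u1 hh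
      have u3 : c 21 ≠ c 7 := fun hh => tr1 u2 hh n0
      have u4 : c 43 = c 7 := Classical.byContradiction fun hh => X2.n3 a152 u1 hh n0
      have u5 : c 35 = c 7 := Classical.byContradiction fun hh => k3491 hh u3
      have u6 : c 32 = c 7 := Classical.byContradiction fun hh => tr1 n2 u4 hh
      have u7 : c 27 = c 7 := Classical.byContradiction fun hh => tr1 n1 u5 hh
      X2.n23 a76 u6 u7
  have k3579 : c 43 = c 32 → c 27 ≠ c 13 → False := fun n0 n1 =>
      have u0 : c 43 ≠ c 21 := fun hh => X2.n12 a155 n0 hh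
      have u1 : c 32 ≠ c 21 := fun hh => X2.n13 a155 n0 hh
      have u2 : c 43 ≠ c 13 := fun hh => k3505 n0 hh
      have u3 : c 21 = c 13 := Classical.byContradiction fun hh => X2.n3 a154 u0 u2 hh
      have u4 : c 42 ≠ c 21 := fun hh => X2.n13 a146 hh u3
      have u5 : c 35 ≠ c 13 := fun hh => k3515 hh u3
      have u6 : c 42 = c 32 := Classical.byContradiction fun hh => X2.n3 a148 hh u4 u1
      have u7 : c 35 = c 27 := Classical.byContradiction fun hh => X2.n3 a90 hh u5 n1
      have u8 : c 42 = c 43 := Classical.byContradiction fun hh => tr3 u6 n0 hh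
      have u9 : c 42 ≠ c 27 := fun hh => X2.n12 a149 u8 hh
      have u10 : c 32 ≠ c 27 := fun hh => tr2 u6 hh u9
      have u11 : c 13 = c 7 := Classical.byContradiction fun hh => k3578 hh u7 n0
      have u12 : c 43 ≠ c 7 := fun hh => X2.n23 a152 hh u11
      have u13 : c 27 ≠ c 7 := fun hh => tr3 hh u11 n1
      have u14 : c 32 ≠ c 7 := fun hh => tr2 n0 hh u12
      X2.n3 a76 u10 u14 u13
  have k3580 : c 21 = c 13 → c 43 ≠ c 32 → False := fun n0 n1 =>
      have u0 : c 43 ≠ c 21 := fun hh => X2.n13 a154 hh n0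
      have u1 : c 32 ≠ c 21 := fun hh => k3493 hh n0
      X2.n3 a155 n1 u0 u1
  have k3581 : c 29 ≠ c 32 → c 19 ≠ c 43 → c 19 = c 32 → c 1 ≠ c 21 → c 43 ≠ c 1 → c 32 = c 21 → False := fun n0 n1 n2 n3 n4 n5 =>
      have u0 : c 29 ≠ c 19 := fun hh => tr2 hh n2 n0
      have u1 : c 29 ≠ c 21 := fun hh => tr3 hh n5 n0
      have u2 : c 29 = c 43 := Classical.byContradiction fun hh => X2.n3 a51 u0 hh n1
      have u3 : c 29 = c 1 := Classical.byContradiction fun hh => X2.n3 a44 hh u1 n3
      tr1 u2 u3 n4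
  have k3582 : c 19 = c 32 → c 1 ≠ c 21 → c 32 ≠ c 11 → c 43 ≠ c 1 → c 11 = c 2 → c 32 = c 33 → c 32 = c 21 → c 43 ≠ c 32 → c 44 = c 23 → c 33 ≠ c 23 → False := fun n0 n1 n2 n3 n4 n5 n6 n7 n8 n9 =>
      have u0 : c 21 = c 33 := Classical.byContradiction fun hh => tr1 n6 n5 hh
      have u1 : c 41 ≠ c 21 := fun hh => X2.n13 a139 hh u0
      have u2 : c 41 ≠ c 32 := fun hh => tr2 hh n6 u1
      have u3 : c 44 ≠ c 33 := fun hh => X2.n12 a158 hh n8
      have u4 : c 19 ≠ c 15 := fun hh => k3530 n0 hh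
      have u5 : c 19 = c 33 := Classical.byContradiction fun hh => tr2 n0 n5 hh
      have u6 : c 19 ≠ c 43 := fun hh => tr1 hh n0 n7
      have u7 : c 41 ≠ c 19 := fun hh => tr2 hh n0 u2
      have u8 : c 19 ≠ c 11 := fun hh => tr1 n0 hh n2
      have u9 : c 19 ≠ c 44 := fun hh => tr1 hh u5 u3
      have u10 : c 41 = c 11 := Classical.byContradiction fun hh => X2.n3 a137 u7 hh u8
      have u11 : c 44 = c 15 := Classical.byContradiction fun hh => X2.n3 a23 u9 u4 hh
      have u12 : c 23 = c 15 := Classical.byContradiction fun hh => tr1 n8 u11 hh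
      have u13 : c 41 ≠ c 23 := fun hh => X2.n13 a140 hh u12
      have u14 : c 11 ≠ c 23 := fun hh => tr2 u10 hh u13
      have u15 : c 2 ≠ c 23 := fun hh => tr2 n4 hh u14
      have u16 : c 29 = c 32 := Classical.byContradiction fun hh => k3581 hh u6 n0 n1 n3 n6
      have u17 : c 29 ≠ c 11 := fun hh => X2.n12 a54 u16 hh
      have u18 : c 29 = c 33 := Classical.byContradiction fun hh => tr2 u16 n5 hh
      have u19 : c 29 ≠ c 2 := fun hh => tr3 hh n4 u17
      have u20 : c 29 ≠ c 23 := fun hh => tr1 u18 hh n9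
      X2.n3 a46 u19 u20 u15
  have k3583 : c 43 ≠ c 1 → c 1 ≠ c 2 → c 11 = c 2 → c 32 = c 33 → c 43 = c 13 → c 32 = c 21 → c 43 ≠ c 32 → c 44 = c 23 → c 33 ≠ c 3 → c 45 = c 3 → c 33 ≠ c 23 → False := fun n0 n1 n2 n3 n4 n5 n6 n7 n8 n9 n10 =>
      have u0 : c 43 = c 2 := Classical.byContradiction fun hh => X2.n3 a150 n0 hh n1
      have u1 : c 32 ≠ c 2 := fun hh => tr3 u0 hh n6
      have u2 : c 43 = c 11 := Classical.byContradiction fun hh => tr3 u0 n2 hh
      have u3 : c 32 ≠ c 11 := fun hh => tr2 hh n2 u1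
      have u4 : c 2 ≠ c 33 := fun hh => tr3 n3 hh u1
      have u5 : c 18 ≠ c 43 := fun hh => X2.n13 a15 hh u2
      have u6 : c 18 ≠ c 2 := fun hh => tr3 hh u0 u5
      have u7 : c 18 = c 33 := Classical.byContradiction fun hh => X2.n3 a8 u6 hh u4
      have u8 : c 18 = c 32 := Classical.byContradiction fun hh => tr3 u7 n3 hh
      have u9 : c 32 ≠ c 1 := fun hh => X2.n13 a11 u8 hh
      have u10 : c 1 ≠ c 21 := fun hh => tr3 n5 hh u9
      have u11 : c 19 ≠ c 32 := fun hh => k3582 hh u10 u3 n0 n2 n3 n5 n6 n7 n10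
      have u12 : c 19 = c 2 := Classical.byContradiction fun hh => X2.n3 a18 u11 hh u1
      have u13 : c 19 ≠ c 33 := fun hh => tr3 hh n3 u11
      have u14 : c 19 = c 43 := Classical.byContradiction fun hh => tr3 u12 u0 hh
      have u15 : c 19 = c 3 := Classical.byContradiction fun hh => X2.n3 a19 u13 hh n8
      have u16 : c 19 = c 13 := Classical.byContradiction fun hh => tr2 u14 n4 hh
      have u17 : c 19 = c 45 := Classical.byContradiction fun hh => tr3 u15 n9 hh
      X2.n12 a24 u17 u16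
  have k3584 : c 32 ≠ c 2 → c 28 ≠ c 33 → c 28 ≠ c 19 → c 19 ≠ c 32 → c 11 = c 2 → c 32 = c 33 → False := fun n0 n1 n2 n3 n4 n5 =>
      have u0 : c 32 ≠ c 11 := fun hh => tr2 hh n4 n0
      have u1 : c 19 = c 2 := Classical.byContradiction fun hh => X2.n3 a18 n3 hh n0
      have u2 : c 11 ≠ c 33 := fun hh => tr3 n5 hh u0
      have u3 : c 19 = c 11 := Classical.byContradiction fun hh => tr3 u1 n4 hh
      have u4 : c 28 = c 11 := Classical.byContradiction fun hh => X2.n3 a37 hh n1 u2
      tr3 u4 u3 n2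
  have k3585 : c 32 = c 2 → c 45 ≠ c 13 → c 32 = c 33 → c 32 = c 21 → c 21 ≠ c 45 → False := fun n0 n1 n2 n3 n4 =>
      have u0 : c 13 ≠ c 33 := fun hh => k3514 n2 hh
      have u1 : c 21 = c 2 := Classical.byContradiction fun hh => tr1 n3 n0 hh
      have u2 : c 2 = c 33 := Classical.byContradiction fun hh => tr1 n0 n2 hh
      have u3 : c 31 ≠ c 21 := fun hh => X2.n13 a68 hh u1
      have u4 : c 31 ≠ c 2 := fun hh => X2.n23 a68 hh u1
      have u5 : c 31 ≠ c 33 := fun hh => tr3 hh u2 u4
      have u6 : c 31 = c 45 := Classical.byContradiction fun hh => X2.n3 a69 u3 hh n4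
      have u7 : c 31 = c 13 := Classical.byContradiction fun hh => X2.n3 a66 hh u5 u0
      tr1 u6 u7 n1
  have k3586 : c 19 ≠ c 32 → c 32 ≠ c 2 → c 1 ≠ c 33 → c 11 = c 2 → c 32 = c 33 → c 45 = c 3 → c 45 = c 23 → False := fun n0 n1 n2 n3 n4 n5 n6 =>
      have u0 : c 1 ≠ c 45 := fun hh => X2.n13 a0 hh n5
      have u1 : c 1 ≠ c 23 := fun hh => tr3 hh n6 u0
      have u2 : c 45 ≠ c 33 := fun hh => X2.n12 a159 hh n6
      have u3 : c 33 ≠ c 3 := fun hh => tr3 n5 hh u2
      have u4 : c 19 ≠ c 33 := fun hh => tr3 hh n4 n0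
      have u5 : c 19 = c 3 := Classical.byContradiction fun hh => X2.n3 a19 u4 hh u3
      have u6 : c 19 = c 45 := Classical.byContradiction fun hh => tr3 u5 n5 hh
      have u7 : c 28 ≠ c 19 := fun hh => X2.n13 a41 hh u6
      have u8 : c 28 ≠ c 45 := fun hh => X2.n23 a41 hh u6
      have u9 : c 28 = c 33 := Classical.byContradiction fun hh => k3584 n1 hh u7 n0 n3 n4
      have u10 : c 28 ≠ c 23 := fun hh => tr3 hh n6 u8
      have u11 : c 28 ≠ c 1 := fun hh => tr1 hh u9 n2
      X2.n3 a35 u11 u10 u1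
  have k3587 : c 43 = c 1 → c 11 = c 2 → c 32 = c 33 → c 43 = c 13 → c 32 = c 21 → c 43 ≠ c 32 → c 45 = c 3 → c 21 ≠ c 45 → c 45 = c 23 → False := fun n0 n1 n2 n3 n4 n5 n6 n7 n8 =>
      have u0 : c 32 ≠ c 45 := fun hh => tr1 n4 hh n7
      have u1 : c 1 ≠ c 45 := fun hh => X2.n13 a0 hh n6
      have u2 : c 32 ≠ c 1 := fun hh => tr3 n0 hh n5
      have u3 : c 1 = c 13 := Classical.byContradiction fun hh => tr1 n0 n3 hh
      have u4 : c 1 ≠ c 33 := fun hh => tr3 n2 hh u2
      have u5 : c 45 ≠ c 13 := fun hh => tr3 u3 hh u1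
      have u6 : c 32 ≠ c 2 := fun hh => k3585 hh u5 n2 n4 n7
      have u7 : c 19 = c 32 := Classical.byContradiction fun hh => k3586 hh u6 u4 n1 n2 n6 n8
      have u8 : c 19 ≠ c 13 := fun hh => k3560 u7 hh
      have u9 : c 19 ≠ c 45 := fun hh => tr1 u7 hh u0
      X2.n3 a24 u9 u8 u5
  have k3588 : c 19 = c 32 → c 1 = c 2 → c 43 ≠ c 1 → c 11 = c 2 → c 32 = c 33 → c 32 = c 21 → c 43 ≠ c 32 → c 44 = c 23 → c 33 ≠ c 23 → False := fun n0 n1 n2 n3 n4 n5 n6 n7 n8 =>
      have u0 : c 32 ≠ c 2 := fun hh => X2.n13 a18 n0 hh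
      have u1 : c 32 ≠ c 11 := fun hh => tr2 hh n3 u0
      have u2 : c 21 ≠ c 2 := fun hh => tr2 n5 hh u0
      have u3 : c 1 = c 21 := Classical.byContradiction fun hh => k3582 n0 hh u1 n2 n3 n4 n5 n6 n7 n8
      tr1 u3 n1 u2
  have k3589 : c 11 = c 2 → c 32 = c 33 → c 43 = c 13 → c 32 = c 21 → c 43 ≠ c 32 → c 44 = c 23 → c 45 = c 3 → c 21 ≠ c 45 → c 45 = c 23 → c 33 ≠ c 23 → False := fun n0 n1 n2 n3 n4 n5 n6 n7 n8 n9 =>
      have u0 : c 45 ≠ c 33 := fun hh => X2.n12 a159 hh n8
      have u1 : c 33 ≠ c 3 := fun hh => tr3 n6 hh u0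
      have u2 : c 1 ≠ c 3 := fun hh => X2.n23 a0 hh n6
      have u3 : c 43 ≠ c 1 := fun hh => k3587 hh n0 n1 n2 n3 n4 n6 n7 n8
      have u4 : c 1 = c 2 := Classical.byContradiction fun hh => k3583 u3 hh n0 n1 n2 n3 n4 n5 u1 n6 n9
      have u5 : c 19 ≠ c 32 := fun hh => k3588 hh u4 u3 n0 n1 n3 n4 n5 n9
      have u6 : c 19 ≠ c 33 := fun hh => tr3 hh n1 u5
      have u7 : c 19 = c 3 := Classical.byContradiction fun hh => X2.n3 a19 u6 hh u1
      have u8 : c 19 ≠ c 1 := fun hh => tr1 hh u7 u2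
      have u9 : c 19 = c 45 := Classical.byContradiction fun hh => tr3 u7 n6 hh
      have u10 : c 19 ≠ c 2 := fun hh => tr3 hh u4 u8
      have u11 : c 45 ≠ c 13 := fun hh => X2.n13 a24 u9 hh
      have u12 : c 32 = c 2 := Classical.byContradiction fun hh => X2.n3 a18 u5 u10 hh
      k3585 u12 u11 n1 n3 n7
  have k3590 : c 30 ≠ c 19 → c 1 ≠ c 21 → c 19 = c 45 → c 19 ≠ c 1 → c 21 ≠ c 45 → False := fun n0 n1 n2 n3 n4 =>
      have u0 : c 30 ≠ c 45 := fun hh => tr3 hh n2 n0
      have u1 : c 30 = c 1 := Classical.byContradiction fun hh => X2.n3 a57 n0 hh n3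
      have u2 : c 30 = c 21 := Classical.byContradiction fun hh => X2.n3 a58 hh u0 n4
      tr1 u1 u2 n1
  have k3591 : c 19 ≠ c 32 → c 32 = c 33 → c 43 = c 13 → c 32 = c 21 → c 43 ≠ c 21 → c 44 = c 45 → c 33 ≠ c 3 → c 45 = c 3 → c 21 ≠ c 45 → False := fun n0 n1 n2 n3 n4 n5 n6 n7 n8 =>
      have u0 : c 33 ≠ c 15 := fun hh => k3548 n1 hh
      have u1 : c 1 ≠ c 3 := fun hh => X2.n23 a0 hh n7
      have u2 : c 19 ≠ c 33 := fun hh => tr3 hh n1 n0
      have u3 : c 19 = c 3 := Classical.byContradiction fun hh => X2.n3 a19 u2 hh n6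
      have u4 : c 19 ≠ c 1 := fun hh => tr1 hh u3 u1
      have u5 : c 19 = c 45 := Classical.byContradiction fun hh => tr3 u3 n7 hh
      have u6 : c 19 ≠ c 13 := fun hh => X2.n12 a24 u5 hh
      have u7 : c 45 ≠ c 13 := fun hh => X2.n13 a24 u5 hh
      have u8 : c 19 = c 44 := Classical.byContradiction fun hh => tr3 u5 n5 hh
      have u9 : c 19 ≠ c 43 := fun hh => tr2 hh n2 u6
      have u10 : c 32 ≠ c 2 := fun hh => k3585 hh u7 n1 n3 n8
      have u11 : c 19 ≠ c 15 := fun hh => X2.n12 a23 u8 hh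
      have u12 : c 19 = c 2 := Classical.byContradiction fun hh => X2.n3 a18 n0 hh u10
      have u13 : c 43 ≠ c 2 := fun hh => tr3 u12 hh u9
      have u14 : c 1 ≠ c 2 := fun hh => tr3 u12 hh u4
      have u15 : c 43 = c 1 := Classical.byContradiction fun hh => X2.n3 a150 hh u13 u14
      have u16 : c 1 ≠ c 21 := fun hh => tr2 u15 hh n4
      have u17 : c 30 = c 19 := Classical.byContradiction fun hh => k3590 hh u16 u5 u4 n8
      have u18 : c 30 ≠ c 15 := fun hh => tr1 u17 hh u11
      have u19 : c 30 ≠ c 33 := fun hh => tr1 u17 hh u2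
      X2.n3 a63 u19 u18 u0
  have k3593 : c 31 ≠ c 19 → c 41 ≠ c 13 → c 41 ≠ c 19 → c 19 = c 33 → c 13 ≠ c 33 → False := fun n0 n1 n2 n3 n4 =>
      have u0 : c 31 ≠ c 33 := fun hh => tr3 hh n3 n0
      have u1 : c 41 = c 31 := Classical.byContradiction fun hh => X2.n3 a141 hh n2 n0
      have u2 : c 31 = c 13 := Classical.byContradiction fun hh => X2.n3 a66 hh u0 n4
      tr2 u1 u2 n1
  have k3594 : c 35 ≠ c 13 → c 27 ≠ c 2 → c 38 = c 13 → c 38 = c 11 → c 11 ≠ c 2 → c 27 ≠ c 13 → False := fun n0 n1 n2 n3 n4 n5 =>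
      have u0 : c 35 = c 27 := Classical.byContradiction fun hh => X2.n3 a90 hh n0 n5
      have u1 : c 38 ≠ c 35 := fun hh => tr1 hh n2 n0
      have u2 : c 35 ≠ c 2 := fun hh => tr1 u0 hh n1
      have u3 : c 35 ≠ c 11 := fun hh => tr3 n3 hh u1
      X2.n3 a88 u3 u2 n4
  have k3595 : c 43 ≠ c 21 → c 27 ≠ c 13 → c 44 = c 23 → c 45 = c 3 → c 21 ≠ c 45 → c 33 ≠ c 14 → c 21 ≠ c 14 → c 45 = c 23 → c 33 ≠ c 23 → False := fun n0 n1 n2 n3 n4 n5 n6 n7 n8 =>
      have u0 : c 43 ≠ c 32 := fun hh => k3579 hh n1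
      have u1 : c 21 ≠ c 13 := fun hh => k3580 hh u0
      have u2 : c 44 = c 45 := Classical.byContradiction fun hh => tr3 n2 n7 hh
      have u3 : c 44 ≠ c 33 := fun hh => X2.n12 a158 hh n2
      have u4 : c 1 ≠ c 45 := fun hh => X2.n13 a0 hh n3
      have u5 : c 1 ≠ c 23 := fun hh => tr3 hh n7 u4
      have u6 : c 45 ≠ c 33 := fun hh => X2.n12 a159 hh n7
      have u7 : c 33 ≠ c 3 := fun hh => tr3 n3 hh u6
      have u8 : c 32 = c 21 := Classical.byContradiction fun hh => X2.n3 a155 u0 n0 hh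
      have u9 : c 43 = c 13 := Classical.byContradiction fun hh => X2.n3 a154 n0 hh u1
      have u10 : c 32 ≠ c 45 := fun hh => tr1 u8 hh n4
      have u11 : c 32 ≠ c 14 := fun hh => tr1 u8 hh n6
      have u12 : c 43 ≠ c 27 := fun hh => tr1 hh u9 n1
      have u13 : c 32 = c 33 := Classical.byContradiction fun hh => X2.n3 a79 hh u11 n5
      have u14 : c 13 ≠ c 33 := fun hh => k3514 u13 hh
      have u15 : c 21 = c 33 := Classical.byContradiction fun hh => tr1 u8 u13 hh
      have u16 : c 40 ≠ c 33 := fun hh => X2.n23 a127 hh u15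
      have u17 : c 41 ≠ c 21 := fun hh => X2.n13 a139 hh u15
      have u18 : c 41 ≠ c 32 := fun hh => tr2 hh u8 u17
      have u19 : c 11 ≠ c 2 := fun hh => k3589 hh u13 u9 u8 u0 n2 n3 n4 n7 n8
      have u20 : c 19 = c 32 := Classical.byContradiction fun hh => k3591 hh u13 u9 u8 n0 u2 u7 n3 n4
      have u21 : c 38 ≠ c 32 := fun hh => X2.n23 a108 hh u20
      have u22 : c 19 ≠ c 2 := fun hh => X2.n12 a18 u20 hh
      have u23 : c 19 ≠ c 15 := fun hh => k3530 u20 hh
      have u24 : c 19 ≠ c 13 := fun hh => k3560 u20 hh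
      have u25 : c 19 = c 33 := Classical.byContradiction fun hh => tr2 u20 u13 hh
      have u26 : c 19 ≠ c 45 := fun hh => tr1 u20 hh u10
      have u27 : c 19 ≠ c 43 := fun hh => tr1 hh u20 u0
      have u28 : c 41 ≠ c 19 := fun hh => tr2 hh u20 u18
      have u29 : c 38 ≠ c 21 := fun hh => tr3 hh u8 u21
      have u30 : c 19 ≠ c 44 := fun hh => tr1 hh u25 u3
      have u31 : c 40 ≠ c 19 := fun hh => tr2 hh u25 u16
      have u32 : c 45 = c 13 := Classical.byContradiction fun hh => X2.n3 a24 u26 u24 hh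
      have u33 : c 44 = c 15 := Classical.byContradiction fun hh => X2.n3 a23 u30 u23 hh
      have u34 : c 44 = c 13 := Classical.byContradiction fun hh => X2.n3 a22 u30 u24 hh
      have u35 : c 1 ≠ c 13 := fun hh => tr3 hh u32 u4
      have u36 : c 23 = c 15 := Classical.byContradiction fun hh => tr1 n2 u33 hh
      have u37 : c 44 ≠ c 27 := fun hh => tr1 hh u34 n1
      have u38 : c 43 ≠ c 1 := fun hh => tr1 hh u9 u35
      have u39 : c 41 ≠ c 23 := fun hh => X2.n13 a140 hh u36
      have u40 : c 41 ≠ c 44 := fun hh => tr2 hh n2 u39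
      have u41 : c 41 ≠ c 13 := fun hh => tr3 hh u34 u40
      have u42 : c 41 = c 27 := Classical.byContradiction fun hh => X2.n3 a143 u40 hh u37
      have u43 : c 31 = c 19 := Classical.byContradiction fun hh => k3593 hh u41 u28 u25 u14
      have u44 : c 32 ≠ c 27 := fun hh => tr3 u42 hh u18
      have u45 : c 19 ≠ c 1 := fun hh => X2.n13 a67 u43 hh
      have u46 : c 1 ≠ c 33 := fun hh => tr3 u25 hh u45
      have u47 : c 1 ≠ c 21 := fun hh => tr2 hh u15 u46
      have u48 : c 29 = c 32 := Classical.byContradiction fun hh => k3581 hh u27 u20 u47 u38 u8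
      have u49 : c 10 ≠ c 32 := fun hh => X2.n23 a48 u48 hh
      have u50 : c 32 ≠ c 11 := fun hh => X2.n13 a54 u48 hh
      have u51 : c 29 = c 19 := Classical.byContradiction fun hh => tr3 u48 u20 hh
      have u52 : c 29 = c 33 := Classical.byContradiction fun hh => tr2 u48 u13 hh
      have u53 : c 29 ≠ c 27 := fun hh => tr1 u48 hh u44
      have u54 : c 29 ≠ c 43 := fun hh => tr1 hh u48 u0
      have u55 : c 10 ≠ c 21 := fun hh => tr3 hh u8 u49
      have u56 : c 19 ≠ c 10 := fun hh => tr1 hh u20 u49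
      have u57 : c 11 ≠ c 21 := fun hh => tr3 u8 hh u50
      have u58 : c 29 ≠ c 2 := fun hh => tr1 u51 hh u22
      have u59 : c 29 ≠ c 23 := fun hh => tr1 u52 hh n8
      have u60 : c 43 ≠ c 4 := fun hh => k3562 hh u53 u54 u12
      have u61 : c 38 = c 10 := Classical.byContradiction fun hh => X2.n3 a103 hh u29 u55
      have u62 : c 40 = c 10 := Classical.byContradiction fun hh => X2.n3 a125 u31 hh u56
      have u63 : c 41 = c 10 := Classical.byContradiction fun hh => X2.n3 a136 u28 hh u56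
      have u64 : c 38 = c 11 := Classical.byContradiction fun hh => X2.n3 a105 hh u29 u57
      have u65 : c 2 = c 23 := Classical.byContradiction fun hh => X2.n3 a46 u58 u59 hh
      have u66 : c 4 ≠ c 13 := fun hh => tr3 u9 hh u60
      have u67 : c 10 ≠ c 4 := fun hh => X2.n13 a122 u62 hh
      have u68 : c 41 ≠ c 4 := fun hh => tr1 u63 hh u67
      have u69 : c 1 ≠ c 2 := fun hh => tr2 hh u65 u5
      have u70 : c 38 ≠ c 4 := fun hh => tr1 u61 hh u67
      have u71 : c 4 ≠ c 27 := fun hh => tr3 u42 hh u68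
      have u72 : c 43 = c 2 := Classical.byContradiction fun hh => X2.n3 a150 u38 hh u69
      have u73 : c 38 = c 13 := Classical.byContradiction fun hh => X2.n3 a101 u70 hh u66
      have u74 : c 29 = c 4 := Classical.byContradiction fun hh => X2.n3 a47 hh u53 u71
      have u75 : c 27 ≠ c 2 := fun hh => tr3 u72 hh u12
      have u76 : c 8 ≠ c 4 := fun hh => k3558 u74 hh
      have u77 : c 8 = c 43 := Classical.byContradiction fun hh => X2.n3 a2 hh u76 u60
      have u78 : c 8 = c 2 := Classical.byContradiction fun hh => tr2 u77 u72 hh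
      have u79 : c 8 ≠ c 1 := fun hh => tr1 u77 hh u38
      have u80 : c 35 = c 13 := Classical.byContradiction fun hh => k3594 hh u75 u73 u64 u19 n1
      have u81 : c 38 = c 35 := Classical.byContradiction fun hh => tr3 u73 u80 hh
      have u82 : c 35 ≠ c 1 := fun hh => tr1 hh u80 u35
      have u83 : c 35 = c 11 := Classical.byContradiction fun hh => tr1 u81 u64 hh
      have u84 : c 8 = c 35 := Classical.byContradiction fun hh => X2.n3 a1 hh u79 u82
      have u85 : c 35 ≠ c 2 := fun hh => X2.n12 a88 u83 hh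
      tr1 u84 u78 u85
  have k3596 : c 19 = c 32 → c 43 ≠ c 12 → c 32 ≠ c 12 → c 43 ≠ c 32 → False := fun n0 n1 n2 n3 =>
      have u0 : c 19 ≠ c 43 := fun hh => tr1 hh n0 n3
      have u1 : c 19 ≠ c 12 := fun hh => tr1 n0 hh n2
      X2.n3 a21 u0 u1 n1
  have k3597 : c 19 ≠ c 32 → c 2 ≠ c 33 → c 32 ≠ c 2 → c 32 = c 3 → c 33 ≠ c 3 → False := fun n0 n1 n2 n3 n4 =>
      have u0 : c 19 ≠ c 3 := fun hh => tr3 hh n3 n0
      have u1 : c 19 = c 2 := Classical.byContradiction fun hh => X2.n3 a18 n0 hh n2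
      have u2 : c 19 = c 33 := Classical.byContradiction fun hh => X2.n3 a19 hh u0 n4
      tr1 u1 u2 n1
  have k3598 : c 43 = c 2 → c 32 = c 45 → c 32 ≠ c 1 → c 32 = c 3 → c 43 = c 21 → c 43 ≠ c 32 → c 33 ≠ c 3 → c 21 ≠ c 45 → c 45 ≠ c 33 → False := fun n0 n1 n2 n3 n4 n5 n6 n7 n8 =>
      have u0 : c 45 ≠ c 13 := fun hh => k3501 n1 hh
      have u1 : c 32 ≠ c 21 := fun hh => X2.n23 a155 n4 hh
      have u2 : c 21 ≠ c 13 := fun hh => k3580 hh n5
      have u3 : c 43 ≠ c 1 := fun hh => X2.n12 a150 hh n0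
      have u4 : c 32 ≠ c 2 := fun hh => tr3 n0 hh n5
      have u5 : c 21 = c 2 := Classical.byContradiction fun hh => tr1 n4 n0 hh
      have u6 : c 1 ≠ c 21 := fun hh => tr3 n4 hh u3
      have u7 : c 31 ≠ c 21 := fun hh => X2.n13 a68 hh u5
      have u8 : c 31 = c 45 := Classical.byContradiction fun hh => X2.n3 a69 u7 hh n7
      have u9 : c 31 = c 32 := Classical.byContradiction fun hh => tr3 u8 n1 hh
      have u10 : c 31 ≠ c 33 := fun hh => tr1 u8 hh n8
      have u11 : c 31 ≠ c 13 := fun hh => tr1 u8 hh u0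
      have u12 : c 32 ≠ c 12 := fun hh => X2.n13 a72 u9 hh
      have u13 : c 13 = c 33 := Classical.byContradiction fun hh => X2.n3 a66 u11 u10 hh
      have u14 : c 21 ≠ c 33 := fun hh => tr3 hh u13 u2
      have u15 : c 2 ≠ c 33 := fun hh => tr2 u5 hh u14
      have u16 : c 19 = c 32 := Classical.byContradiction fun hh => k3597 hh u15 u4 n3 n6
      have u17 : c 19 = c 45 := Classical.byContradiction fun hh => tr2 u16 n1 hh
      have u18 : c 29 ≠ c 32 := fun hh => k3574 hh u16 u3 n2 u1
      have u19 : c 19 ≠ c 43 := fun hh => tr1 hh u16 n5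
      have u20 : c 19 ≠ c 1 := fun hh => tr1 u16 hh n2
      have u21 : c 31 = c 19 := Classical.byContradiction fun hh => tr3 u9 u16 hh
      have u22 : c 43 = c 12 := Classical.byContradiction fun hh => k3596 u16 hh u12 n5
      have u23 : c 30 = c 19 := Classical.byContradiction fun hh => k3590 hh u6 u17 u20 n7
      have u24 : c 29 ≠ c 19 := fun hh => tr2 hh u16 u18
      have u25 : c 40 ≠ c 19 := fun hh => X2.n23 a130 hh u21
      have u26 : c 12 = c 21 := Classical.byContradiction fun hh => tr1 u22 n4 hh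
      have u27 : c 30 = c 32 := Classical.byContradiction fun hh => tr2 u23 u16 hh
      have u28 : c 30 = c 31 := Classical.byContradiction fun hh => tr3 u23 u21 hh
      have u29 : c 29 = c 43 := Classical.byContradiction fun hh => X2.n3 a51 u24 hh u19
      have u30 : c 40 ≠ c 21 := fun hh => X2.n23 a123 hh u26
      have u31 : c 30 ≠ c 10 := fun hh => X2.n12 a60 u28 hh
      have u32 : c 29 = c 21 := Classical.byContradiction fun hh => tr2 u29 n4 hh
      have u33 : c 19 ≠ c 10 := fun hh => tr2 u23 hh u31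
      have u34 : c 10 ≠ c 32 := fun hh => tr3 u27 hh u31
      have u35 : c 40 = c 10 := Classical.byContradiction fun hh => X2.n3 a125 u25 hh u33
      have u36 : c 29 = c 10 := Classical.byContradiction fun hh => X2.n3 a48 hh u18 u34
      have u37 : c 10 ≠ c 21 := fun hh => tr2 u35 hh u30
      tr1 u36 u32 u37
  have k3599 : c 31 = c 19 → c 19 = c 46 → c 19 ≠ c 2 → c 21 ≠ c 2 → False := fun n0 n1 n2 n3 =>
      have u0 : c 31 = c 46 := Classical.byContradiction fun hh => tr2 n0 n1 hh
      have u1 : c 31 ≠ c 2 := fun hh => tr1 n0 hh n2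
      have u2 : c 31 ≠ c 21 := fun hh => X2.n12 a70 hh u0
      X2.n3 a68 u2 u1 n3
  have k3600 : c 19 = c 32 → c 21 ≠ c 2 → c 44 ≠ c 13 → c 32 = c 45 → c 32 ≠ c 1 → c 43 = c 21 → c 27 ≠ c 13 → c 44 ≠ c 21 → c 1 ≠ c 23 → c 45 = c 23 → c 46 = c 23 → False := fun n0 n1 n2 n3 n4 n5 n6 n7 n8 n9 n10 =>
      have u0 : c 32 ≠ c 21 := fun hh => X2.n23 a155 n5 hh
      have u1 : c 43 ≠ c 32 := fun hh => k3579 hh n6
      have u2 : c 21 ≠ c 13 := fun hh => k3580 hh u1
      have u3 : c 39 ≠ c 19 := fun hh => X2.n13 a117 hh n0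
      have u4 : c 19 ≠ c 2 := fun hh => X2.n12 a18 n0 hh
      have u5 : c 19 ≠ c 13 := fun hh => k3560 n0 hh
      have u6 : c 19 = c 45 := Classical.byContradiction fun hh => tr2 n0 n3 hh
      have u7 : c 19 ≠ c 43 := fun hh => tr1 hh n0 u1
      have u8 : c 19 ≠ c 1 := fun hh => tr1 n0 hh n4
      have u9 : c 19 = c 44 := Classical.byContradiction fun hh => X2.n3 a22 hh u5 n2
      have u10 : c 28 ≠ c 19 := fun hh => X2.n13 a41 hh u6
      have u11 : c 28 ≠ c 45 := fun hh => X2.n23 a41 hh u6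
      have u12 : c 28 ≠ c 23 := fun hh => tr3 hh n9 u11
      have u13 : c 28 = c 1 := Classical.byContradiction fun hh => X2.n3 a35 hh u12 n8
      have u14 : c 28 ≠ c 46 := fun hh => tr2 hh n10 u12
      have u15 : c 19 = c 46 := Classical.byContradiction fun hh => X2.n3 a42 u10 u14 hh
      have u16 : c 31 ≠ c 19 := fun hh => k3599 hh u15 u4 n1
      have u17 : c 31 ≠ c 44 := fun hh => tr3 hh u9 u16
      have u18 : c 31 = c 1 := Classical.byContradiction fun hh => X2.n3 a67 u16 hh u8
      have u19 : c 31 = c 21 := Classical.byContradiction fun hh => X2.n3 a74 u17 hh n7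
      have u20 : c 28 = c 31 := Classical.byContradiction fun hh => tr3 u13 u18 hh
      have u21 : c 41 ≠ c 31 := fun hh => k3506 hh u18
      have u22 : c 1 = c 21 := Classical.byContradiction fun hh => tr1 u18 u19 hh
      have u23 : c 31 = c 43 := Classical.byContradiction fun hh => tr3 u19 n5 hh
      have u24 : c 28 ≠ c 8 := fun hh => X2.n12 a43 u20 hh
      have u25 : c 31 ≠ c 8 := fun hh => X2.n13 a43 u20 hh
      have u26 : c 41 = c 19 := Classical.byContradiction fun hh => X2.n3 a141 u21 hh u16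
      have u27 : c 29 ≠ c 1 := fun hh => X2.n13 a44 hh u22
      have u28 : c 35 ≠ c 1 := fun hh => k3516 hh u22
      have u29 : c 43 = c 1 := Classical.byContradiction fun hh => tr3 n5 u22 hh
      have u30 : c 1 ≠ c 13 := fun hh => tr1 u22 hh u2
      have u31 : c 8 ≠ c 1 := fun hh => tr3 u13 hh u24
      have u32 : c 8 ≠ c 43 := fun hh => tr3 u23 hh u25
      have u33 : c 41 = c 44 := Classical.byContradiction fun hh => tr2 u26 u9 hh
      have u34 : c 41 = c 32 := Classical.byContradiction fun hh => tr2 u26 n0 hh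
      have u35 : c 29 ≠ c 43 := fun hh => tr2 hh u29 u27
      have u36 : c 8 = c 35 := Classical.byContradiction fun hh => X2.n3 a1 hh u31 u28
      have u37 : c 41 ≠ c 27 := fun hh => X2.n12 a143 u33 hh
      have u38 : c 29 = c 19 := Classical.byContradiction fun hh => X2.n3 a51 hh u35 u7
      have u39 : c 32 ≠ c 27 := fun hh => tr2 u34 hh u37
      have u40 : c 42 ≠ c 19 := fun hh => X2.n23 a55 u38 hh
      have u41 : c 29 = c 32 := Classical.byContradiction fun hh => tr2 u38 n0 hh
      have u42 : c 39 ≠ c 29 := fun hh => tr2 hh u38 u3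
      have u43 : c 42 ≠ c 32 := fun hh => tr3 hh n0 u40
      have u44 : c 29 ≠ c 27 := fun hh => tr1 u41 hh u39
      have u45 : c 42 = c 21 := Classical.byContradiction fun hh => X2.n3 a148 u43 hh u0
      have u46 : c 42 = c 1 := Classical.byContradiction fun hh => tr3 u45 u22 hh
      have u47 : c 42 = c 43 := Classical.byContradiction fun hh => tr3 u45 n5 hh
      have u48 : c 0 ≠ c 1 := fun hh => X2.n23 a144 u46 hh
      have u49 : c 43 ≠ c 27 := fun hh => X2.n13 a149 u47 hh
      have u50 : c 28 ≠ c 0 := fun hh => tr1 hh u13 u48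
      have u51 : c 43 ≠ c 4 := fun hh => k3562 hh u44 u35 u49
      have u52 : c 19 = c 0 := Classical.byContradiction fun hh => X2.n3 a39 u10 u50 hh
      have u53 : c 8 = c 4 := Classical.byContradiction fun hh => X2.n3 a2 u32 hh u51
      have u54 : c 29 = c 0 := Classical.byContradiction fun hh => tr2 u38 u52 hh
      have u55 : c 35 = c 4 := Classical.byContradiction fun hh => tr1 u36 u53 hh
      have u56 : c 29 ≠ c 4 := fun hh => k3558 hh u53
      have u57 : c 29 ≠ c 18 := fun hh => X2.n12 a50 hh u54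
      have u58 : c 18 ≠ c 4 := fun hh => X2.n23 a12 hh u55
      have u59 : c 4 = c 27 := Classical.byContradiction fun hh => X2.n3 a47 u56 u44 hh
      have u60 : c 18 ≠ c 32 := fun hh => tr3 u41 hh u57
      have u61 : c 39 = c 18 := Classical.byContradiction fun hh => X2.n3 a119 u42 hh u57
      have u62 : c 4 ≠ c 13 := fun hh => tr1 u59 hh n6
      have u63 : c 18 = c 1 := Classical.byContradiction fun hh => X2.n3 a11 u60 hh n4
      have u64 : c 39 ≠ c 4 := fun hh => tr1 u61 hh u58
      have u65 : c 18 ≠ c 13 := fun hh => tr1 u63 hh u30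
      have u66 : c 39 = c 13 := Classical.byContradiction fun hh => X2.n3 a114 u64 hh u62
      tr1 u61 u66 u65
  have k3601 : c 32 = c 2 → c 31 = c 21 → c 19 = c 33 → c 19 = c 13 → c 19 ≠ c 32 → c 43 ≠ c 2 → c 32 ≠ c 1 → c 43 = c 21 → c 27 ≠ c 13 → c 44 ≠ c 33 → False := fun n0 n1 n2 n3 n4 n5 n6 n7 n8 n9 =>
      have u0 : c 31 = c 43 := Classical.byContradiction fun hh => tr3 n1 n7 hh
      have u1 : c 31 ≠ c 44 := fun hh => X2.n12 a74 hh n1
      have u2 : c 13 = c 33 := Classical.byContradiction fun hh => tr1 n3 n2 hh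
      have u3 : c 31 ≠ c 13 := fun hh => X2.n13 a66 hh u2
      have u4 : c 31 ≠ c 19 := fun hh => tr2 hh n3 u3
      have u5 : c 43 ≠ c 32 := fun hh => k3579 hh n8
      have u6 : c 21 ≠ c 13 := fun hh => k3580 hh u5
      have u7 : c 21 ≠ c 33 := fun hh => tr3 hh u2 u6
      have u8 : c 43 ≠ c 13 := fun hh => X2.n12 a154 n7 hh
      have u9 : c 19 ≠ c 43 := fun hh => tr1 hh n3 u8
      have u10 : c 1 ≠ c 2 := fun hh => tr3 n0 hh n6
      have u11 : c 43 = c 1 := Classical.byContradiction fun hh => X2.n3 a150 hh n5 u10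
      have u12 : c 1 = c 21 := Classical.byContradiction fun hh => tr1 u11 n7 hh
      have u13 : c 31 = c 1 := Classical.byContradiction fun hh => tr2 u0 u11 hh
      have u14 : c 29 ≠ c 1 := fun hh => X2.n13 a44 hh u12
      have u15 : c 40 ≠ c 21 := fun hh => k3500 hh u12
      have u16 : c 35 ≠ c 1 := fun hh => k3516 hh u12
      have u17 : c 41 ≠ c 21 := fun hh => k3534 hh u12
      have u18 : c 41 ≠ c 31 := fun hh => k3506 hh u13
      have u19 : c 26 ≠ c 31 := fun hh => k3551 hh u13
      have u20 : c 29 ≠ c 43 := fun hh => tr2 hh u11 u14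
      have u21 : c 40 = c 33 := Classical.byContradiction fun hh => X2.n3 a127 u15 hh u7
      have u22 : c 41 = c 33 := Classical.byContradiction fun hh => X2.n3 a139 u17 hh u7
      have u23 : c 41 = c 19 := Classical.byContradiction fun hh => X2.n3 a141 u18 hh u4
      have u24 : c 29 = c 19 := Classical.byContradiction fun hh => X2.n3 a51 hh u20 u9
      have u25 : c 41 ≠ c 44 := fun hh => tr1 hh u22 n9
      have u26 : c 41 = c 13 := Classical.byContradiction fun hh => tr3 u22 u2 hh
      have u27 : c 41 ≠ c 11 := fun hh => X2.n12 a137 u23 hh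
      have u28 : c 19 ≠ c 11 := fun hh => X2.n13 a137 u23 hh
      have u29 : c 42 ≠ c 19 := fun hh => X2.n23 a55 u24 hh
      have u30 : c 29 ≠ c 32 := fun hh => tr1 u24 hh n4
      have u31 : c 29 ≠ c 11 := fun hh => tr1 u24 hh u28
      have u32 : c 29 = c 33 := Classical.byContradiction fun hh => tr2 u24 n2 hh
      have u33 : c 29 = c 13 := Classical.byContradiction fun hh => tr2 u24 n3 hh
      have u34 : c 41 ≠ c 27 := fun hh => tr1 hh u26 n8
      have u35 : c 42 ≠ c 13 := fun hh => tr3 hh n3 u29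
      have u36 : c 32 = c 11 := Classical.byContradiction fun hh => X2.n3 a54 u30 u31 hh
      have u37 : c 29 ≠ c 12 := fun hh => X2.n12 a49 hh u32
      have u38 : c 12 ≠ c 33 := fun hh => X2.n23 a49 u32 hh
      have u39 : c 29 ≠ c 27 := fun hh => tr1 hh u33 n8
      have u40 : c 44 = c 27 := Classical.byContradiction fun hh => X2.n3 a143 u25 u34 hh
      have u41 : c 42 = c 21 := Classical.byContradiction fun hh => X2.n3 a146 hh u35 u6
      have u42 : c 11 = c 2 := Classical.byContradiction fun hh => tr1 u36 n0 hh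
      have u43 : c 19 ≠ c 12 := fun hh => tr2 u24 hh u37
      have u44 : c 40 ≠ c 12 := fun hh => tr1 hh u21 u38
      have u45 : c 31 ≠ c 27 := fun hh => tr3 hh u40 u1
      have u46 : c 42 = c 43 := Classical.byContradiction fun hh => tr3 u41 n7 hh
      have u47 : c 35 ≠ c 11 := fun hh => X2.n13 a88 hh u42
      have u48 : c 35 ≠ c 2 := fun hh => X2.n23 a88 hh u42
      have u49 : c 43 = c 12 := Classical.byContradiction fun hh => X2.n3 a21 u9 u43 hh
      have u50 : c 12 = c 21 := Classical.byContradiction fun hh => X2.n3 a123 u44 u15 hh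
      have u51 : c 1 ≠ c 27 := fun hh => tr2 u13 hh u45
      have u52 : c 43 ≠ c 27 := fun hh => X2.n13 a149 u46 hh
      have u53 : c 31 = c 12 := Classical.byContradiction fun hh => tr2 u0 u49 hh
      have u54 : c 35 ≠ c 12 := fun hh => k3553 hh u50
      have u55 : c 43 ≠ c 4 := fun hh => k3562 hh u39 u20 u52
      have u56 : c 26 ≠ c 12 := fun hh => tr3 hh u53 u19
      have u57 : c 4 ≠ c 21 := fun hh => tr3 n7 hh u55
      have u58 : c 26 = c 35 := Classical.byContradiction fun hh => X2.n3 a34 hh u56 u54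
      have u59 : c 31 ≠ c 4 := fun hh => tr1 hh n1 u57
      have u60 : c 26 ≠ c 2 := fun hh => tr1 u58 hh u48
      have u61 : c 26 = c 4 := Classical.byContradiction fun hh => X2.n3 a32 u19 hh u59
      have u62 : c 35 = c 4 := Classical.byContradiction fun hh => tr1 u58 u61 hh
      have u63 : c 18 ≠ c 4 := fun hh => X2.n23 a12 hh u62
      have u64 : c 4 ≠ c 11 := fun hh => tr2 u62 hh u47
      have u65 : c 41 = c 4 := Classical.byContradiction fun hh => X2.n3 a132 hh u27 u64
      have u66 : c 4 ≠ c 27 := fun hh => tr2 u65 hh u34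
      have u67 : c 4 = c 13 := Classical.byContradiction fun hh => tr1 u65 u26 hh
      have u68 : c 29 = c 4 := Classical.byContradiction fun hh => X2.n3 a47 hh u39 u66
      have u69 : c 26 ≠ c 27 := fun hh => tr1 u61 hh u66
      have u70 : c 39 ≠ c 4 := fun hh => X2.n13 a114 hh u67
      have u71 : c 38 ≠ c 4 := fun hh => X2.n13 a101 hh u67
      have u72 : c 38 ≠ c 13 := fun hh => X2.n23 a101 hh u67
      have u73 : c 38 ≠ c 29 := fun hh => tr2 hh u68 u71
      have u74 : c 29 ≠ c 18 := fun hh => tr1 hh u68 u63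
      have u75 : c 27 = c 2 := Classical.byContradiction fun hh => X2.n3 a31 u69 u60 hh
      have u76 : c 39 ≠ c 29 := fun hh => tr2 hh u68 u70
      have u77 : c 38 ≠ c 19 := fun hh => tr2 hh n3 u72
      have u78 : c 38 = c 18 := Classical.byContradiction fun hh => X2.n3 a112 u73 hh u74
      have u79 : c 39 = c 18 := Classical.byContradiction fun hh => X2.n3 a119 u76 hh u74
      have u80 : c 32 = c 27 := Classical.byContradiction fun hh => tr3 n0 u75 hh
      have u81 : c 38 = c 32 := Classical.byContradiction fun hh => X2.n3 a108 u77 hh n4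
      have u82 : c 38 = c 39 := Classical.byContradiction fun hh => tr3 u78 u79 hh
      have u83 : c 38 = c 11 := Classical.byContradiction fun hh => tr2 u81 u36 hh
      have u84 : c 38 ≠ c 25 := fun hh => X2.n12 a113 u82 hh
      have u85 : c 25 ≠ c 11 := fun hh => tr3 u83 hh u84
      have u86 : c 25 ≠ c 32 := fun hh => tr3 u81 hh u84
      have u87 : c 25 = c 35 := Classical.byContradiction fun hh => X2.n3 a29 hh u85 u47
      have u88 : c 25 ≠ c 27 := fun hh => tr3 hh u80 u86
      have u89 : c 25 ≠ c 1 := fun hh => tr1 u87 hh u16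
      X2.n3 a27 u89 u88 u51
  have k3602 : c 4 = c 13 → c 35 = c 4 → c 29 ≠ c 18 → c 32 = c 11 → c 29 = c 13 → c 29 ≠ c 11 → c 1 ≠ c 27 → c 35 ≠ c 1 → c 19 = c 13 → c 19 ≠ c 32 → False := fun n0 n1 n2 n3 n4 n5 n6 n7 n8 n9 =>
      have u0 : c 39 ≠ c 4 := fun hh => X2.n13 a114 hh n0
      have u1 : c 38 ≠ c 13 := fun hh => X2.n23 a101 hh n0
      have u2 : c 29 = c 4 := Classical.byContradiction fun hh => tr3 n4 n0 hh
      have u3 : c 35 = c 13 := Classical.byContradiction fun hh => tr2 n1 n0 hh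
      have u4 : c 39 ≠ c 29 := fun hh => tr2 hh u2 u0
      have u5 : c 38 ≠ c 29 := fun hh => tr2 hh n4 u1
      have u6 : c 38 ≠ c 19 := fun hh => tr2 hh n8 u1
      have u7 : c 4 ≠ c 11 := fun hh => tr2 u2 hh n5
      have u8 : c 35 ≠ c 27 := fun hh => X2.n12 a90 hh u3
      have u9 : c 39 = c 18 := Classical.byContradiction fun hh => X2.n3 a119 u4 hh n2
      have u10 : c 38 = c 18 := Classical.byContradiction fun hh => X2.n3 a112 u5 hh n2
      have u11 : c 38 = c 32 := Classical.byContradiction fun hh => X2.n3 a108 u6 hh n9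
      have u12 : c 35 ≠ c 11 := fun hh => tr1 n1 hh u7
      have u13 : c 38 = c 39 := Classical.byContradiction fun hh => tr3 u10 u9 hh
      have u14 : c 38 = c 11 := Classical.byContradiction fun hh => tr2 u11 n3 hh
      have u15 : c 38 ≠ c 25 := fun hh => X2.n12 a113 u13 hh
      have u16 : c 25 ≠ c 11 := fun hh => tr3 u14 hh u15
      have u17 : c 25 = c 35 := Classical.byContradiction fun hh => X2.n3 a29 hh u16 u12
      have u18 : c 25 ≠ c 1 := fun hh => tr1 u17 hh n7
      have u19 : c 25 ≠ c 27 := fun hh => tr1 u17 hh u8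
      X2.n3 a27 u18 u19 n6
  have k3603 : c 41 = c 19 → c 18 ≠ c 33 → c 31 = c 21 → c 19 = c 33 → c 19 ≠ c 44 → c 19 = c 13 → c 19 ≠ c 32 → c 43 = c 21 → c 27 ≠ c 13 → False := fun n0 n1 n2 n3 n4 n5 n6 n7 n8 =>
      have u0 : c 31 = c 43 := Classical.byContradiction fun hh => tr3 n2 n7 hh
      have u1 : c 31 ≠ c 44 := fun hh => X2.n12 a74 hh n2
      have u2 : c 13 = c 33 := Classical.byContradiction fun hh => tr1 n5 n3 hh
      have u3 : c 31 ≠ c 13 := fun hh => X2.n13 a66 hh u2
      have u4 : c 31 ≠ c 19 := fun hh => tr2 hh n5 u3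
      have u5 : c 43 ≠ c 13 := fun hh => X2.n12 a154 n7 hh
      have u6 : c 19 ≠ c 43 := fun hh => tr1 hh n5 u5
      have u7 : c 41 ≠ c 11 := fun hh => X2.n12 a137 n0 hh
      have u8 : c 19 ≠ c 11 := fun hh => X2.n13 a137 n0 hh
      have u9 : c 41 ≠ c 44 := fun hh => tr1 n0 hh n4
      have u10 : c 41 = c 13 := Classical.byContradiction fun hh => tr2 n0 n5 hh
      have u11 : c 19 ≠ c 1 := fun hh => k3536 n0 hh
      have u12 : c 41 ≠ c 27 := fun hh => tr1 hh u10 n8
      have u13 : c 31 = c 1 := Classical.byContradiction fun hh => X2.n3 a67 u4 hh u11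
      have u14 : c 44 = c 27 := Classical.byContradiction fun hh => X2.n3 a143 u9 u12 hh
      have u15 : c 40 ≠ c 31 := fun hh => k3523 hh u13
      have u16 : c 26 ≠ c 31 := fun hh => k3551 hh u13
      have u17 : c 1 = c 21 := Classical.byContradiction fun hh => tr1 u13 n2 hh
      have u18 : c 43 = c 1 := Classical.byContradiction fun hh => tr1 u0 u13 hh
      have u19 : c 31 ≠ c 27 := fun hh => tr3 hh u14 u1
      have u20 : c 40 = c 19 := Classical.byContradiction fun hh => X2.n3 a130 u15 hh u4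
      have u21 : c 40 ≠ c 21 := fun hh => tr3 hh n2 u15
      have u22 : c 29 ≠ c 1 := fun hh => X2.n13 a44 hh u17
      have u23 : c 35 ≠ c 1 := fun hh => k3516 hh u17
      have u24 : c 1 ≠ c 27 := fun hh => tr2 u13 hh u19
      have u25 : c 40 = c 33 := Classical.byContradiction fun hh => tr2 u20 n3 hh
      have u26 : c 40 = c 13 := Classical.byContradiction fun hh => tr2 u20 n5 hh
      have u27 : c 29 ≠ c 43 := fun hh => tr2 hh u18 u22
      have u28 : c 43 ≠ c 27 := fun hh => tr1 u18 hh u24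
      have u29 : c 40 ≠ c 5 := fun hh => X2.n12 a121 hh u26
      have u30 : c 29 = c 19 := Classical.byContradiction fun hh => X2.n3 a51 hh u27 u6
      have u31 : c 19 ≠ c 5 := fun hh => tr2 u20 hh u29
      have u32 : c 29 ≠ c 32 := fun hh => tr1 u30 hh n6
      have u33 : c 29 ≠ c 11 := fun hh => tr1 u30 hh u8
      have u34 : c 29 = c 33 := Classical.byContradiction fun hh => tr2 u30 n3 hh
      have u35 : c 29 = c 13 := Classical.byContradiction fun hh => tr2 u30 n5 hh
      have u36 : c 32 = c 11 := Classical.byContradiction fun hh => X2.n3 a54 u32 u33 hh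
      have u37 : c 29 ≠ c 12 := fun hh => X2.n12 a49 hh u34
      have u38 : c 12 ≠ c 33 := fun hh => X2.n23 a49 u34 hh
      have u39 : c 29 ≠ c 18 := fun hh => tr1 hh u34 n1
      have u40 : c 29 ≠ c 27 := fun hh => tr1 hh u35 n8
      have u41 : c 19 ≠ c 12 := fun hh => tr2 u30 hh u37
      have u42 : c 40 ≠ c 12 := fun hh => tr1 hh u25 u38
      have u43 : c 43 ≠ c 4 := fun hh => k3562 hh u40 u27 u28
      have u44 : c 43 = c 12 := Classical.byContradiction fun hh => X2.n3 a21 u6 u41 hh
      have u45 : c 12 = c 21 := Classical.byContradiction fun hh => X2.n3 a123 u42 u21 hh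
      have u46 : c 4 ≠ c 21 := fun hh => tr3 n7 hh u43
      have u47 : c 31 = c 12 := Classical.byContradiction fun hh => tr2 u0 u44 hh
      have u48 : c 35 ≠ c 12 := fun hh => k3553 hh u45
      have u49 : c 31 ≠ c 4 := fun hh => tr1 hh n2 u46
      have u50 : c 26 ≠ c 12 := fun hh => tr3 hh u47 u16
      have u51 : c 26 = c 4 := Classical.byContradiction fun hh => X2.n3 a32 u16 hh u49
      have u52 : c 26 = c 35 := Classical.byContradiction fun hh => X2.n3 a34 hh u50 u48
      have u53 : c 35 = c 4 := Classical.byContradiction fun hh => tr1 u52 u51 hh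
      have u54 : c 4 ≠ c 13 := fun hh => k3602 hh u53 u39 u36 u35 u33 u24 u23 n5 n6
      have u55 : c 35 ≠ c 13 := fun hh => tr1 u53 hh u54
      have u56 : c 41 ≠ c 4 := fun hh => tr1 hh u10 u54
      have u57 : c 19 ≠ c 35 := fun hh => tr1 hh n5 u55
      have u58 : c 4 = c 11 := Classical.byContradiction fun hh => X2.n3 a132 u56 u7 hh
      have u59 : c 35 = c 5 := Classical.byContradiction fun hh => X2.n3 a20 u57 u31 hh
      have u60 : c 32 = c 4 := Classical.byContradiction fun hh => tr3 u36 u58 hh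
      have u61 : c 26 = c 5 := Classical.byContradiction fun hh => tr2 u52 u59 hh
      have u62 : c 26 = c 32 := Classical.byContradiction fun hh => tr3 u51 u60 hh
      X2.n12 a33 u62 u61
  have k3604 : c 31 = c 21 → c 19 ≠ c 44 → c 19 = c 13 → c 19 ≠ c 32 → c 43 ≠ c 2 → c 32 ≠ c 1 → c 32 = c 3 → c 43 = c 21 → c 27 ≠ c 13 → c 44 ≠ c 33 → c 33 ≠ c 3 → False := fun n0 n1 n2 n3 n4 n5 n6 n7 n8 n9 n10 =>
      have u0 : c 19 ≠ c 3 := fun hh => tr3 hh n6 n3
      have u1 : c 19 = c 33 := Classical.byContradiction fun hh => X2.n3 a19 hh u0 n10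
      have u2 : c 13 = c 33 := Classical.byContradiction fun hh => tr1 n2 u1 hh
      have u3 : c 31 ≠ c 13 := fun hh => X2.n13 a66 hh u2
      have u4 : c 31 ≠ c 19 := fun hh => tr2 hh n2 u3
      have u5 : c 43 ≠ c 32 := fun hh => k3579 hh n8
      have u6 : c 21 ≠ c 13 := fun hh => k3580 hh u5
      have u7 : c 21 ≠ c 33 := fun hh => tr3 hh u2 u6
      have u8 : c 43 ≠ c 13 := fun hh => X2.n12 a154 n7 hh
      have u9 : c 19 ≠ c 43 := fun hh => tr1 hh n2 u8
      have u10 : c 32 ≠ c 21 := fun hh => X2.n23 a155 n7 hh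
      have u11 : c 31 ≠ c 32 := fun hh => tr1 hh n0 u10
      have u12 : c 32 ≠ c 2 := fun hh => k3601 hh n0 u1 n2 n3 n4 n5 n7 n8 n9
      have u13 : c 2 = c 33 := Classical.byContradiction fun hh => k3597 n3 hh u12 n6 n10
      have u14 : c 18 ≠ c 33 := fun hh => X2.n23 a8 hh u13
      have u15 : c 41 ≠ c 19 := fun hh => k3603 hh u14 n0 u1 n1 n2 n3 n7 n8
      have u16 : c 41 ≠ c 33 := fun hh => tr3 hh u1 u15
      have u17 : c 41 = c 31 := Classical.byContradiction fun hh => X2.n3 a141 hh u15 u4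
      have u18 : c 41 = c 21 := Classical.byContradiction fun hh => X2.n3 a139 hh u16 u7
      have u19 : c 41 ≠ c 12 := fun hh => X2.n12 a133 hh u18
      have u20 : c 12 ≠ c 21 := fun hh => X2.n23 a133 u18 hh
      have u21 : c 31 ≠ c 12 := fun hh => tr2 u17 hh u19
      have u22 : c 43 ≠ c 12 := fun hh => tr1 hh n7 u20
      have u23 : c 32 = c 12 := Classical.byContradiction fun hh => X2.n3 a72 u11 u21 hh
      have u24 : c 19 = c 12 := Classical.byContradiction fun hh => X2.n3 a21 u9 hh u22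
      tr3 u24 u23 n3
  have k3605 : c 44 = c 23 → c 45 = c 3 → c 45 = c 14 → c 46 = c 14 → c 45 = c 23 → c 46 = c 23 → False := fun n0 n1 n2 n3 n4 n5 =>
      have u0 : c 1 ≠ c 45 := fun hh => X2.n13 a0 hh n1
      have u1 : c 1 ≠ c 23 := fun hh => tr3 hh n4 u0
      have u2 : c 21 ≠ c 45 := fun hh => X2.n13 a25 hh n2
      have u3 : c 21 ≠ c 3 := fun hh => tr3 hh n1 u2
      have u4 : c 45 ≠ c 33 := fun hh => X2.n12 a159 hh n4
      have u5 : c 33 ≠ c 3 := fun hh => tr3 n1 hh u4
      have u6 : c 1 ≠ c 3 := fun hh => X2.n23 a0 hh n1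
      have u7 : c 33 ≠ c 46 := fun hh => X2.n13 a80 hh n5
      have u8 : c 33 ≠ c 14 := fun hh => tr3 hh n3 u7
      have u9 : c 21 ≠ c 14 := fun hh => X2.n23 a26 hh n3
      have u10 : c 33 ≠ c 23 := fun hh => X2.n23 a80 hh n5
      have u11 : c 44 ≠ c 33 := fun hh => X2.n12 a158 hh n0
      have u12 : c 44 = c 45 := Classical.byContradiction fun hh => tr3 n0 n4 hh
      have u13 : c 44 ≠ c 21 := fun hh => tr1 hh u12 u2
      have u14 : c 27 ≠ c 13 := fun hh => k3577 hh n0 n1 n2 u8 u9 n4 u10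
      have u15 : c 43 ≠ c 32 := fun hh => k3579 hh u14
      have u16 : c 43 = c 21 := Classical.byContradiction fun hh => k3595 hh u14 n0 n1 u2 u8 u9 n4 u10
      have u17 : c 32 ≠ c 21 := fun hh => X2.n23 a155 u16 hh
      have u18 : c 43 ≠ c 13 := fun hh => X2.n12 a154 u16 hh
      have u19 : c 32 = c 3 := Classical.byContradiction fun hh => X2.n3 a75 u17 hh u3
      have u20 : c 32 ≠ c 1 := fun hh => tr1 hh u19 u6
      have u21 : c 32 = c 45 := Classical.byContradiction fun hh => tr3 u19 n1 hh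
      have u22 : c 45 ≠ c 13 := fun hh => k3501 u21 hh
      have u23 : c 44 ≠ c 13 := fun hh => tr1 u12 hh u22
      have u24 : c 43 ≠ c 2 := fun hh => k3598 hh u21 u20 u19 u16 u15 u5 u2 u4
      have u25 : c 21 ≠ c 2 := fun hh => tr2 u16 hh u24
      have u26 : c 19 ≠ c 32 := fun hh => k3600 hh u25 u23 u21 u20 u16 u14 u13 u1 n4 n5
      have u27 : c 19 ≠ c 45 := fun hh => tr3 hh u21 u26
      have u28 : c 19 ≠ c 3 := fun hh => tr3 hh u19 u26
      have u29 : c 19 = c 13 := Classical.byContradiction fun hh => X2.n3 a24 u27 hh u22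
      have u30 : c 19 ≠ c 44 := fun hh => tr2 hh u12 u27
      have u31 : c 19 = c 33 := Classical.byContradiction fun hh => X2.n3 a19 hh u28 u5
      have u32 : c 19 ≠ c 43 := fun hh => tr1 hh u29 u18
      have u33 : c 13 = c 33 := Classical.byContradiction fun hh => tr1 u29 u31 hh
      have u34 : c 31 ≠ c 13 := fun hh => X2.n13 a66 hh u33
      have u35 : c 31 ≠ c 19 := fun hh => tr2 hh u29 u34
      have u36 : c 31 ≠ c 21 := fun hh => k3604 hh u30 u29 u26 u24 u20 u19 u16 u14 u11 u5
      have u37 : c 31 = c 45 := Classical.byContradiction fun hh => X2.n3 a69 u36 hh u2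
      have u38 : c 31 = c 2 := Classical.byContradiction fun hh => X2.n3 a68 u36 hh u25
      have u39 : c 31 ≠ c 1 := fun hh => tr1 hh u37 u0
      have u40 : c 1 ≠ c 2 := fun hh => tr3 u38 hh u39
      have u41 : c 19 = c 1 := Classical.byContradiction fun hh => X2.n3 a67 u35 u39 hh
      have u42 : c 43 = c 1 := Classical.byContradiction fun hh => X2.n3 a150 hh u24 u40
      tr3 u41 u42 u32
  have k3606 : c 43 = c 21 → c 31 = c 45 → c 31 ≠ c 33 → c 21 = c 33 → c 21 ≠ c 3 → c 45 = c 3 → False := fun n0 n1 n2 n3 n4 n5 =>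
      have u0 : c 32 ≠ c 21 := fun hh => X2.n23 a155 n0 hh
      have u1 : c 21 ≠ c 13 := fun hh => X2.n13 a154 n0 hh
      have u2 : c 32 = c 3 := Classical.byContradiction fun hh => X2.n3 a75 u0 hh n4
      have u3 : c 13 ≠ c 33 := fun hh => tr3 n3 hh u1
      have u4 : c 32 = c 45 := Classical.byContradiction fun hh => tr3 u2 n5 hh
      have u5 : c 31 = c 13 := Classical.byContradiction fun hh => X2.n3 a66 hh n2 u3
      have u6 : c 31 = c 32 := Classical.byContradiction fun hh => tr3 n1 u4 hh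
      k3539 u6 u5
  have k3607 : c 32 = c 45 → c 19 ≠ c 32 → c 31 = c 45 → c 31 ≠ c 33 → c 44 = c 33 → False := fun n0 n1 n2 n3 n4 =>
      have u0 : c 45 ≠ c 13 := fun hh => k3501 n0 hh
      have u1 : c 19 ≠ c 45 := fun hh => tr3 hh n0 n1
      have u2 : c 31 ≠ c 13 := fun hh => tr1 n2 hh u0
      have u3 : c 19 = c 13 := Classical.byContradiction fun hh => X2.n3 a24 u1 hh u0
      have u4 : c 13 = c 33 := Classical.byContradiction fun hh => X2.n3 a66 u2 n3 hh
      have u5 : c 44 ≠ c 13 := fun hh => X2.n23 a22 u3 hh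
      tr3 n4 u4 u5
  have k3608 : c 19 ≠ c 32 → c 31 = c 45 → c 31 ≠ c 33 → c 44 = c 33 → c 45 = c 14 → c 33 ≠ c 14 → False := fun n0 n1 n2 n3 n4 n5 =>
      have u0 : c 32 ≠ c 45 := fun hh => k3607 hh n0 n1 n2 n3
      have u1 : c 32 ≠ c 14 := fun hh => tr3 hh n4 u0
      have u2 : c 32 = c 33 := Classical.byContradiction fun hh => X2.n3 a79 hh u1 n5
      have u3 : c 13 ≠ c 33 := fun hh => k3514 u2 hh
      have u4 : c 19 ≠ c 33 := fun hh => tr3 hh u2 n0
      have u5 : c 31 = c 13 := Classical.byContradiction fun hh => X2.n3 a66 hh n2 u3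
      have u6 : c 44 ≠ c 13 := fun hh => tr1 hh n3 u3
      have u7 : c 19 ≠ c 44 := fun hh => tr2 hh n3 u4
      have u8 : c 45 = c 13 := Classical.byContradiction fun hh => tr1 n1 u5 hh
      have u9 : c 19 = c 13 := Classical.byContradiction fun hh => X2.n3 a22 u7 hh u6
      X2.n23 a24 u9 u8
  have k3609 : c 32 ≠ c 45 → c 41 ≠ c 33 → c 31 = c 45 → c 31 ≠ c 33 → c 44 = c 33 → c 45 = c 14 → c 33 ≠ c 14 → c 45 = c 23 → False := fun n0 n1 n2 n3 n4 n5 n6 n7 =>
      have u0 : c 19 = c 32 := Classical.byContradiction fun hh => k3608 hh n2 n3 n4 n5 n6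
      have u1 : c 32 ≠ c 14 := fun hh => tr3 hh n5 n0
      have u2 : c 31 ≠ c 32 := fun hh => tr1 hh n2 n0
      have u3 : c 19 ≠ c 45 := fun hh => tr1 u0 hh n0
      have u4 : c 32 = c 33 := Classical.byContradiction fun hh => X2.n3 a79 hh u1 n6
      have u5 : c 31 ≠ c 19 := fun hh => tr2 hh u0 u2
      have u6 : c 33 ≠ c 15 := fun hh => k3548 u4 hh
      have u7 : c 41 ≠ c 32 := fun hh => tr2 hh u4 n1
      have u8 : c 19 = c 33 := Classical.byContradiction fun hh => tr2 u0 u4 hh
      have u9 : c 31 = c 15 := Classical.byContradiction fun hh => X2.n3 a73 n3 hh u6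
      have u10 : c 41 ≠ c 19 := fun hh => tr2 hh u0 u7
      have u11 : c 19 = c 44 := Classical.byContradiction fun hh => tr3 u8 n4 hh
      have u12 : c 41 = c 31 := Classical.byContradiction fun hh => X2.n3 a141 hh u10 u5
      have u13 : c 28 ≠ c 19 := fun hh => X2.n13 a40 hh u11
      have u14 : c 41 = c 15 := Classical.byContradiction fun hh => tr2 u12 u9 hh
      have u15 : c 28 = c 45 := Classical.byContradiction fun hh => X2.n3 a41 u13 hh u3
      have u16 : c 41 ≠ c 23 := fun hh => X2.n12 a140 hh u14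
      have u17 : c 28 = c 31 := Classical.byContradiction fun hh => tr3 u15 n2 hh
      have u18 : c 28 = c 23 := Classical.byContradiction fun hh => tr2 u15 n7 hh
      have u19 : c 28 = c 41 := Classical.byContradiction fun hh => tr3 u17 u12 hh
      tr1 u19 u18 u16
  have k3610 : c 45 = c 3 → c 45 = c 14 → c 46 = c 14 → c 45 = c 23 → c 46 = c 23 → False := fun n0 n1 n2 n3 n4 =>
      have u0 : c 21 ≠ c 45 := fun hh => X2.n13 a25 hh n1
      have u1 : c 33 ≠ c 46 := fun hh => X2.n13 a80 hh n4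
      have u2 : c 33 ≠ c 14 := fun hh => tr3 hh n2 u1
      have u3 : c 21 ≠ c 14 := fun hh => X2.n23 a26 hh n2
      have u4 : c 33 ≠ c 23 := fun hh => X2.n23 a80 hh n4
      have u5 : c 1 ≠ c 45 := fun hh => X2.n13 a0 hh n0
      have u6 : c 21 ≠ c 3 := fun hh => tr3 hh n0 u0
      have u7 : c 44 ≠ c 23 := fun hh => k3605 hh n0 n1 n2 n3 n4
      have u8 : c 44 = c 33 := Classical.byContradiction fun hh => X2.n3 a158 hh u7 u4
      have u9 : c 44 ≠ c 45 := fun hh => tr2 hh n3 u7
      have u10 : c 44 ≠ c 14 := fun hh => tr1 u8 hh u2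
      have u11 : c 44 = c 21 := Classical.byContradiction fun hh => X2.n3 a157 hh u10 u3
      have u12 : c 31 ≠ c 44 := fun hh => X2.n13 a74 hh u11
      have u13 : c 31 ≠ c 21 := fun hh => X2.n23 a74 hh u11
      have u14 : c 21 = c 33 := Classical.byContradiction fun hh => tr1 u11 u8 hh
      have u15 : c 31 ≠ c 33 := fun hh => tr3 hh u8 u12
      have u16 : c 31 = c 45 := Classical.byContradiction fun hh => X2.n3 a69 u13 hh u0
      have u17 : c 41 ≠ c 21 := fun hh => X2.n13 a139 hh u14
      have u18 : c 41 ≠ c 33 := fun hh => X2.n23 a139 hh u14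
      have u19 : c 41 ≠ c 44 := fun hh => tr2 hh u11 u17
      have u20 : c 43 ≠ c 21 := fun hh => k3606 hh u16 u15 u14 u6 n0
      have u21 : c 19 = c 32 := Classical.byContradiction fun hh => k3608 hh u16 u15 u8 n1 u2
      have u22 : c 32 ≠ c 2 := fun hh => X2.n13 a18 u21 hh
      have u23 : c 32 = c 45 := Classical.byContradiction fun hh => k3609 hh u18 u16 u15 u8 n1 u2 n3
      have u24 : c 32 ≠ c 21 := fun hh => tr1 hh u23 u0
      have u25 : c 32 ≠ c 1 := fun hh => tr1 hh u23 u5
      have u26 : c 31 = c 32 := Classical.byContradiction fun hh => tr3 u16 u23 hh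
      have u27 : c 19 = c 45 := Classical.byContradiction fun hh => tr2 u21 u23 hh
      have u28 : c 43 = c 32 := Classical.byContradiction fun hh => X2.n3 a155 hh u20 u24
      have u29 : c 43 ≠ c 1 := fun hh => tr1 u28 hh u25
      have u30 : c 31 ≠ c 2 := fun hh => tr1 u26 hh u22
      have u31 : c 31 = c 19 := Classical.byContradiction fun hh => tr3 u26 u21 hh
      have u32 : c 28 ≠ c 19 := fun hh => X2.n13 a41 hh u27
      have u33 : c 19 ≠ c 44 := fun hh => tr1 hh u27 u9
      have u34 : c 43 ≠ c 2 := fun hh => tr1 u28 hh u22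
      have u35 : c 21 = c 2 := Classical.byContradiction fun hh => X2.n3 a68 u13 u30 hh
      have u36 : c 41 ≠ c 31 := fun hh => X2.n13 a141 hh u31
      have u37 : c 28 = c 44 := Classical.byContradiction fun hh => X2.n3 a40 u32 hh u33
      have u38 : c 1 = c 2 := Classical.byContradiction fun hh => X2.n3 a150 u29 u34 hh
      have u39 : c 2 = c 33 := Classical.byContradiction fun hh => tr1 u35 u14 hh
      have u40 : c 41 ≠ c 32 := fun hh => tr3 hh u26 u36
      have u41 : c 28 = c 33 := Classical.byContradiction fun hh => tr2 u37 u8 hh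
      have u42 : c 28 ≠ c 41 := fun hh => tr1 hh u37 u19
      have u43 : c 18 ≠ c 2 := fun hh => X2.n13 a8 hh u39
      have u44 : c 18 ≠ c 33 := fun hh => X2.n23 a8 hh u39
      have u45 : c 28 ≠ c 18 := fun hh => tr1 hh u41 u44
      have u46 : c 18 ≠ c 1 := fun hh => tr2 hh u38 u43
      have u47 : c 18 = c 41 := Classical.byContradiction fun hh => X2.n3 a38 u45 u42 hh
      have u48 : c 18 = c 32 := Classical.byContradiction fun hh => X2.n3 a11 hh u46 u25
      tr1 u47 u48 u40
  have k3611 : c 44 = c 33 → c 31 ≠ c 33 → c 31 ≠ c 21 → c 32 = c 45 → c 45 = c 14 → c 33 ≠ c 14 → c 21 ≠ c 14 → False := fun n0 n1 n2 n3 n4 n5 n6 =>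
      have u0 : c 45 ≠ c 13 := fun hh => k3501 n3 hh
      have u1 : c 21 ≠ c 45 := fun hh => X2.n13 a25 hh n4
      have u2 : c 31 = c 45 := Classical.byContradiction fun hh => X2.n3 a69 n2 hh u1
      have u3 : c 31 ≠ c 13 := fun hh => tr1 u2 hh u0
      have u4 : c 13 = c 33 := Classical.byContradiction fun hh => X2.n3 a66 u3 n1 hh
      have u5 : c 31 = c 32 := Classical.byContradiction fun hh => tr3 u2 n3 hh
      have u6 : c 44 ≠ c 14 := fun hh => tr1 n0 hh n5
      have u7 : c 19 = c 32 := Classical.byContradiction fun hh => k3608 hh u2 n1 n0 n4 n5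
      have u8 : c 44 = c 13 := Classical.byContradiction fun hh => tr3 n0 u4 hh
      have u9 : c 44 = c 21 := Classical.byContradiction fun hh => X2.n3 a157 hh u6 n6
      have u10 : c 32 ≠ c 2 := fun hh => X2.n13 a18 u7 hh
      have u11 : c 19 = c 45 := Classical.byContradiction fun hh => tr2 u7 n3 hh
      have u12 : c 31 = c 19 := Classical.byContradiction fun hh => tr3 u5 u7 hh
      have u13 : c 19 ≠ c 44 := fun hh => X2.n13 a22 hh u8
      have u14 : c 21 = c 13 := Classical.byContradiction fun hh => tr1 u9 u8 hh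
      have u15 : c 21 = c 33 := Classical.byContradiction fun hh => tr1 u9 n0 hh
      have u16 : c 31 ≠ c 2 := fun hh => tr1 u5 hh u10
      have u17 : c 28 ≠ c 19 := fun hh => X2.n13 a41 hh u11
      have u18 : c 31 ≠ c 1 := fun hh => X2.n12 a67 u12 hh
      have u19 : c 41 ≠ c 31 := fun hh => X2.n13 a141 hh u12
      have u20 : c 43 = c 32 := Classical.byContradiction fun hh => k3580 u14 hh
      have u21 : c 41 ≠ c 21 := fun hh => X2.n13 a139 hh u15
      have u22 : c 21 = c 2 := Classical.byContradiction fun hh => X2.n3 a68 n2 u16 hh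
      have u23 : c 28 = c 44 := Classical.byContradiction fun hh => X2.n3 a40 u17 hh u13
      have u24 : c 32 ≠ c 1 := fun hh => tr2 u5 hh u18
      have u25 : c 41 ≠ c 32 := fun hh => tr3 hh u5 u19
      have u26 : c 43 ≠ c 2 := fun hh => tr1 u20 hh u10
      have u27 : c 41 ≠ c 44 := fun hh => tr2 hh u9 u21
      have u28 : c 2 = c 33 := Classical.byContradiction fun hh => tr1 u22 u15 hh
      have u29 : c 28 = c 33 := Classical.byContradiction fun hh => tr2 u23 n0 hh
      have u30 : c 28 ≠ c 41 := fun hh => tr1 hh u23 u27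
      have u31 : c 43 ≠ c 1 := fun hh => tr1 u20 hh u24
      have u32 : c 1 = c 2 := Classical.byContradiction fun hh => X2.n3 a150 u31 u26 hh
      have u33 : c 18 ≠ c 2 := fun hh => X2.n13 a8 hh u28
      have u34 : c 18 ≠ c 33 := fun hh => X2.n23 a8 hh u28
      have u35 : c 28 ≠ c 18 := fun hh => tr1 hh u29 u34
      have u36 : c 18 ≠ c 1 := fun hh => tr2 hh u32 u33
      have u37 : c 18 = c 41 := Classical.byContradiction fun hh => X2.n3 a38 u35 u30 hh
      have u38 : c 18 = c 32 := Classical.byContradiction fun hh => X2.n3 a11 hh u36 u24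
      tr1 u37 u38 u25
  have k3612 : c 19 = c 32 → c 31 = c 44 → c 44 = c 23 → c 23 ≠ c 15 → c 33 = c 15 → c 31 = c 32 → c 21 = c 3 → c 32 ≠ c 33 → c 32 ≠ c 3 → False := fun n0 n1 n2 n3 n4 n5 n6 n7 n8 =>
      have u0 : c 19 ≠ c 3 := fun hh => tr1 n0 hh n8
      have u1 : c 19 ≠ c 33 := fun hh => tr1 n0 hh n7
      have u2 : c 31 = c 19 := Classical.byContradiction fun hh => tr3 n5 n0 hh
      have u3 : c 33 = c 3 := Classical.byContradiction fun hh => X2.n3 a19 u1 u0 hh
      have u4 : c 41 ≠ c 31 := fun hh => X2.n13 a141 hh u2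
      have u5 : c 21 = c 33 := Classical.byContradiction fun hh => tr3 n6 u3 hh
      have u6 : c 41 ≠ c 44 := fun hh => tr3 hh n1 u4
      have u7 : c 41 ≠ c 33 := fun hh => X2.n23 a139 hh u5
      have u8 : c 41 ≠ c 23 := fun hh => tr3 hh n2 u6
      have u9 : c 41 ≠ c 15 := fun hh => tr3 hh n4 u7
      X2.n3 a140 u8 u9 n3
  have k3613 : c 21 = c 2 → c 21 ≠ c 33 → c 19 = c 33 → c 19 ≠ c 32 → c 32 ≠ c 21 → False := fun n0 n1 n2 n3 n4 =>
      have u0 : c 32 ≠ c 2 := fun hh => tr3 hh n0 n4
      have u1 : c 2 ≠ c 33 := fun hh => tr2 n0 hh n1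
      have u2 : c 19 = c 2 := Classical.byContradiction fun hh => X2.n3 a18 n3 hh u0
      tr1 u2 n2 u1
  have k3614 : c 41 = c 19 → c 31 = c 2 → c 19 = c 33 → c 31 ≠ c 19 → c 19 ≠ c 45 → c 31 = c 32 → c 31 = c 45 → c 45 = c 23 → False := fun n0 n1 n2 n3 n4 n5 n6 n7 =>
      have u0 : c 45 ≠ c 33 := fun hh => X2.n12 a159 hh n7
      have u1 : c 31 ≠ c 33 := fun hh => tr1 n6 hh u0
      have u2 : c 2 ≠ c 33 := fun hh => tr2 n1 hh u1
      have u3 : c 19 ≠ c 1 := fun hh => k3536 n0 hh
      have u4 : c 31 = c 1 := Classical.byContradiction fun hh => X2.n3 a67 n3 hh u3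
      have u5 : c 32 = c 1 := Classical.byContradiction fun hh => tr1 n5 u4 hh
      have u6 : c 1 = c 45 := Classical.byContradiction fun hh => tr1 u4 n6 hh
      have u7 : c 18 ≠ c 32 := fun hh => X2.n13 a11 hh u5
      have u8 : c 1 = c 23 := Classical.byContradiction fun hh => tr2 u6 n7 hh
      have u9 : c 18 ≠ c 31 := fun hh => tr2 hh n5 u7
      have u10 : c 28 ≠ c 1 := fun hh => X2.n13 a35 hh u8
      have u11 : c 28 ≠ c 45 := fun hh => tr3 hh u6 u10
      have u12 : c 28 = c 19 := Classical.byContradiction fun hh => X2.n3 a41 hh u11 n4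
      have u13 : c 28 = c 41 := Classical.byContradiction fun hh => tr3 u12 n0 hh
      have u14 : c 28 = c 33 := Classical.byContradiction fun hh => tr2 u12 n2 hh
      have u15 : c 28 ≠ c 18 := fun hh => X2.n12 a38 hh u13
      have u16 : c 18 ≠ c 33 := fun hh => tr3 u14 hh u15
      have u17 : c 18 ≠ c 2 := fun hh => tr3 hh n1 u9
      X2.n3 a8 u17 u16 u2
  have k3615 : c 31 ≠ c 21 → c 32 ≠ c 3 → c 32 = c 45 → c 45 = c 14 → c 33 ≠ c 14 → c 21 ≠ c 14 → c 45 = c 23 → c 33 ≠ c 23 → False := fun n0 n1 n2 n3 n4 n5 n6 n7 =>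
      have u0 : c 21 ≠ c 45 := fun hh => X2.n13 a25 hh n3
      have u1 : c 32 ≠ c 21 := fun hh => tr1 hh n2 u0
      have u2 : c 21 = c 3 := Classical.byContradiction fun hh => X2.n3 a75 u1 n1 hh
      have u3 : c 32 = c 14 := Classical.byContradiction fun hh => tr2 n2 n3 hh
      have u4 : c 32 ≠ c 33 := fun hh => X2.n12 a79 hh u3
      have u5 : c 45 ≠ c 13 := fun hh => k3501 n2 hh
      have u6 : c 45 ≠ c 33 := fun hh => X2.n12 a159 hh n6
      have u7 : c 31 = c 45 := Classical.byContradiction fun hh => X2.n3 a69 n0 hh u0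
      have u8 : c 31 ≠ c 33 := fun hh => tr1 u7 hh u6
      have u9 : c 31 = c 32 := Classical.byContradiction fun hh => tr3 u7 n2 hh
      have u10 : c 31 ≠ c 13 := fun hh => tr1 u7 hh u5
      have u11 : c 31 ≠ c 15 := fun hh => k3521 u9 hh
      have u12 : c 13 = c 33 := Classical.byContradiction fun hh => X2.n3 a66 u10 u8 hh
      have u13 : c 33 = c 15 := Classical.byContradiction fun hh => X2.n3 a73 u8 u11 hh
      have u14 : c 23 ≠ c 15 := fun hh => tr3 u13 hh n7
      have u15 : c 44 ≠ c 33 := fun hh => k3611 hh u8 n0 n2 n3 n4 n5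
      have u16 : c 44 = c 23 := Classical.byContradiction fun hh => X2.n3 a158 u15 hh n7
      have u17 : c 44 = c 45 := Classical.byContradiction fun hh => tr3 u16 n6 hh
      have u18 : c 31 = c 44 := Classical.byContradiction fun hh => tr3 u7 u17 hh
      have u19 : c 19 ≠ c 32 := fun hh => k3612 hh u18 u16 u14 u13 u9 u2 u4 n1
      have u20 : c 19 ≠ c 45 := fun hh => tr3 hh n2 u19
      have u21 : c 31 ≠ c 19 := fun hh => tr1 hh u9 u19
      have u22 : c 19 = c 13 := Classical.byContradiction fun hh => X2.n3 a24 u20 hh u5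
      have u23 : c 19 = c 33 := Classical.byContradiction fun hh => tr2 u22 u12 hh
      have u24 : c 33 ≠ c 3 := fun hh => X2.n13 a19 u23 hh
      have u25 : c 21 ≠ c 33 := fun hh => tr1 hh u2 u24
      have u26 : c 21 ≠ c 2 := fun hh => k3613 hh u25 u23 u19 u1
      have u27 : c 31 = c 2 := Classical.byContradiction fun hh => X2.n3 a68 n0 hh u26
      have u28 : c 41 ≠ c 19 := fun hh => k3614 hh u27 u23 u21 u20 u9 u7 n6
      have u29 : c 41 ≠ c 33 := fun hh => tr3 hh u23 u28
      have u30 : c 41 = c 31 := Classical.byContradiction fun hh => X2.n3 a141 hh u28 u21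
      have u31 : c 41 = c 21 := Classical.byContradiction fun hh => X2.n3 a139 hh u29 u25
      tr1 u30 u31 n0
  have k3616 : c 31 ≠ c 1 → c 31 ≠ c 19 → c 19 ≠ c 45 → c 31 = c 21 → c 21 = c 3 → c 45 ≠ c 3 → False := fun n0 n1 n2 n3 n4 n5 =>
      have u0 : c 1 ≠ c 21 := fun hh => tr3 n3 hh n0
      have u1 : c 19 = c 1 := Classical.byContradiction fun hh => X2.n3 a67 n1 n0 hh
      have u2 : c 1 ≠ c 3 := fun hh => tr3 hh n4 u0
      have u3 : c 1 ≠ c 45 := fun hh => tr2 u1 hh n2
      X2.n3 a0 u3 u2 n5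
  have k3617 : c 28 = c 19 → c 1 ≠ c 23 → c 19 ≠ c 1 → c 44 = c 23 → False := fun n0 n1 n2 n3 =>
      have u0 : c 28 ≠ c 44 := fun hh => X2.n12 a40 n0 hh
      have u1 : c 28 ≠ c 1 := fun hh => tr1 n0 hh n2
      have u2 : c 28 ≠ c 23 := fun hh => tr3 hh n3 u0
      X2.n3 a35 u1 u2 n1
  have k3619 : c 18 = c 33 → c 1 ≠ c 33 → c 32 ≠ c 1 → c 32 ≠ c 33 → False := fun n0 n1 n2 n3 =>
      have u0 : c 18 ≠ c 32 := fun hh => tr1 hh n0 n3
      have u1 : c 18 ≠ c 1 := fun hh => tr1 hh n0 n1
      X2.n3 a11 u0 u1 n2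
  have k3620 : c 19 = c 33 → c 19 ≠ c 44 → c 19 ≠ c 32 → c 44 = c 23 → c 31 = c 21 → c 32 ≠ c 33 → c 32 ≠ c 21 → c 32 = c 45 → c 45 ≠ c 3 → c 45 = c 23 → False := fun n0 n1 n2 n3 n4 n5 n6 n7 n8 n9 =>
      have u0 : c 45 ≠ c 13 := fun hh => k3501 n7 hh
      have u1 : c 19 ≠ c 45 := fun hh => tr3 hh n7 n2
      have u2 : c 19 = c 13 := Classical.byContradiction fun hh => X2.n3 a24 u1 hh u0
      have u3 : c 31 ≠ c 32 := fun hh => tr1 hh n4 n6
      have u4 : c 31 ≠ c 45 := fun hh => X2.n12 a69 n4 hh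
      have u5 : c 31 ≠ c 44 := fun hh => X2.n12 a74 hh n4
      have u6 : c 32 ≠ c 3 := fun hh => tr1 n7 hh n8
      have u7 : c 21 = c 3 := Classical.byContradiction fun hh => X2.n3 a75 n6 u6 hh
      have u8 : c 37 ≠ c 19 := fun hh => X2.n13 a98 hh n0
      have u9 : c 13 = c 33 := Classical.byContradiction fun hh => tr1 u2 n0 hh
      have u10 : c 31 ≠ c 13 := fun hh => X2.n13 a66 hh u9
      have u11 : c 31 ≠ c 33 := fun hh => X2.n23 a66 hh u9
      have u12 : c 30 ≠ c 13 := fun hh => X2.n13 a56 hh u9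
      have u13 : c 31 ≠ c 19 := fun hh => tr2 hh u2 u10
      have u14 : c 30 ≠ c 19 := fun hh => tr2 hh u2 u12
      have u15 : c 31 = c 1 := Classical.byContradiction fun hh => k3616 hh u13 u1 n4 u7 n8
      have u16 : c 19 ≠ c 1 := fun hh => X2.n23 a67 u15 hh
      have u17 : c 41 ≠ c 31 := fun hh => k3506 hh u15
      have u18 : c 32 ≠ c 1 := fun hh => tr3 u15 hh u3
      have u19 : c 1 ≠ c 45 := fun hh => tr2 u15 hh u4
      have u20 : c 40 ≠ c 31 := fun hh => k3523 hh u15
      have u21 : c 1 ≠ c 13 := fun hh => tr2 u15 hh u10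
      have u22 : c 1 ≠ c 33 := fun hh => tr2 u15 hh u11
      have u23 : c 1 = c 21 := Classical.byContradiction fun hh => tr1 u15 n4 hh
      have u24 : c 30 = c 1 := Classical.byContradiction fun hh => X2.n3 a57 u14 hh u16
      have u25 : c 41 = c 19 := Classical.byContradiction fun hh => X2.n3 a141 u17 hh u13
      have u26 : c 1 ≠ c 23 := fun hh => tr3 hh n9 u19
      have u27 : c 40 = c 19 := Classical.byContradiction fun hh => X2.n3 a130 u20 hh u13
      have u28 : c 29 ≠ c 1 := fun hh => X2.n13 a44 hh u23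
      have u29 : c 30 = c 31 := Classical.byContradiction fun hh => tr3 u24 u15 hh
      have u30 : c 41 ≠ c 11 := fun hh => X2.n12 a137 u25 hh
      have u31 : c 41 = c 33 := Classical.byContradiction fun hh => tr2 u25 n0 hh
      have u32 : c 40 ≠ c 10 := fun hh => X2.n12 a125 u27 hh
      have u33 : c 40 = c 13 := Classical.byContradiction fun hh => tr2 u27 u2 hh
      have u34 : c 29 ≠ c 31 := fun hh => tr2 hh u15 u28
      have u35 : c 31 ≠ c 10 := fun hh => X2.n13 a60 u29 hh
      have u36 : c 11 ≠ c 33 := fun hh => tr3 u31 hh u30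
      have u37 : c 10 ≠ c 21 := fun hh => tr3 n4 hh u35
      have u38 : c 28 ≠ c 19 := fun hh => k3617 hh u26 u16 n3
      have u39 : c 28 = c 44 := Classical.byContradiction fun hh => X2.n3 a40 u38 hh n1
      have u40 : c 28 ≠ c 33 := fun hh => tr3 hh n0 u38
      have u41 : c 28 = c 45 := Classical.byContradiction fun hh => X2.n3 a41 u38 hh u1
      have u42 : c 28 ≠ c 41 := fun hh => tr2 hh u25 u38
      have u43 : c 28 = c 23 := Classical.byContradiction fun hh => tr2 u39 n3 hh
      have u44 : c 28 ≠ c 31 := fun hh => tr1 hh u39 u5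
      have u45 : c 28 = c 11 := Classical.byContradiction fun hh => X2.n3 a37 hh u40 u36
      have u46 : c 28 = c 32 := Classical.byContradiction fun hh => tr3 u41 n7 hh
      have u47 : c 11 = c 23 := Classical.byContradiction fun hh => tr1 u45 u43 hh
      have u48 : c 28 ≠ c 9 := fun hh => X2.n12 a36 hh u46
      have u49 : c 37 ≠ c 11 := fun hh => X2.n13 a96 hh u47
      have u50 : c 37 ≠ c 28 := fun hh => tr2 hh u45 u49
      have u51 : c 18 ≠ c 33 := fun hh => k3619 hh u22 u18 n5
      have u52 : c 18 ≠ c 41 := fun hh => tr2 hh u31 u51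
      have u53 : c 28 = c 18 := Classical.byContradiction fun hh => X2.n3 a38 hh u42 u52
      have u54 : c 18 = c 32 := Classical.byContradiction fun hh => tr1 u53 u46 hh
      have u55 : c 18 ≠ c 31 := fun hh => tr2 u53 hh u44
      have u56 : c 18 = c 11 := Classical.byContradiction fun hh => tr1 u53 u45 hh
      have u57 : c 18 ≠ c 9 := fun hh => tr2 u53 hh u48
      have u58 : c 37 ≠ c 18 := fun hh => tr3 hh u53 u50
      have u59 : c 18 ≠ c 43 := fun hh => X2.n12 a15 hh u56
      have u60 : c 41 = c 9 := Classical.byContradiction fun hh => X2.n3 a13 u52 u57 hh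
      have u61 : c 37 = c 31 := Classical.byContradiction fun hh => X2.n3 a97 u58 hh u55
      have u62 : c 43 ≠ c 32 := fun hh => tr3 u54 hh u59
      have u63 : c 9 = c 19 := Classical.byContradiction fun hh => tr1 u60 u25 hh
      have u64 : c 31 ≠ c 9 := fun hh => tr3 u60 hh u17
      have u65 : c 43 = c 21 := Classical.byContradiction fun hh => X2.n3 a155 u62 hh n6
      have u66 : c 29 = c 9 := Classical.byContradiction fun hh => X2.n3 a53 u34 hh u64
      have u67 : c 31 = c 43 := Classical.byContradiction fun hh => tr3 n4 u65 hh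
      have u68 : c 27 = c 13 := Classical.byContradiction fun hh => k3603 u25 u51 n4 n0 n1 u2 n2 u65 hh
      have u69 : c 43 ≠ c 10 := fun hh => tr1 hh u65 u37
      have u70 : c 29 = c 19 := Classical.byContradiction fun hh => tr2 u66 u63 hh
      have u71 : c 1 ≠ c 27 := fun hh => tr2 hh u68 u21
      have u72 : c 40 = c 27 := Classical.byContradiction fun hh => tr3 u33 u68 hh
      have u73 : c 18 = c 10 := Classical.byContradiction fun hh => X2.n3 a14 u59 hh u69
      have u74 : c 8 ≠ c 19 := fun hh => k3503 u70 hh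
      have u75 : c 29 = c 13 := Classical.byContradiction fun hh => tr2 u70 u2 hh
      have u76 : c 10 ≠ c 27 := fun hh => tr3 u72 hh u32
      have u77 : c 34 ≠ c 10 := fun hh => k3541 hh u73
      have u78 : c 37 = c 8 := Classical.byContradiction fun hh => X2.n3 a95 hh u8 u74
      have u79 : c 29 = c 27 := Classical.byContradiction fun hh => tr3 u75 u68 hh
      have u80 : c 34 = c 27 := Classical.byContradiction fun hh => X2.n3 a83 u77 hh u76
      have u81 : c 31 = c 8 := Classical.byContradiction fun hh => tr1 u61 u78 hh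
      have u82 : c 4 ≠ c 27 := fun hh => X2.n23 a47 u79 hh
      have u83 : c 34 ≠ c 1 := fun hh => tr1 hh u80 u71
      have u84 : c 34 ≠ c 4 := fun hh => tr1 hh u80 u82
      have u85 : c 8 = c 43 := Classical.byContradiction fun hh => tr1 u81 u67 hh
      have u86 : c 34 ≠ c 21 := fun hh => tr3 hh u23 u83
      have u87 : c 43 ≠ c 4 := fun hh => X2.n13 a2 u85 hh
      have u88 : c 4 = c 21 := Classical.byContradiction fun hh => X2.n3 a82 u84 u86 hh
      tr3 u65 u88 u87
  have k3621 : c 18 ≠ c 1 → c 37 ≠ c 28 → c 37 ≠ c 11 → c 32 = c 11 → c 10 ≠ c 21 → c 28 = c 44 → c 31 = c 33 → c 32 ≠ c 1 → c 31 = c 1 → c 44 = c 45 → c 32 ≠ c 21 → c 32 = c 45 → False := fun n0 n1 n2 n3 n4 n5 n6 n7 n8 n9 n10 n11 =>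
      have u0 : c 1 = c 33 := Classical.byContradiction fun hh => tr1 n8 n6 hh
      have u1 : c 17 ≠ c 33 := fun hh => X2.n23 a6 hh u0
      have u2 : c 18 = c 32 := Classical.byContradiction fun hh => X2.n3 a11 hh n0 n7
      have u3 : c 18 ≠ c 31 := fun hh => tr2 hh n8 n0
      have u4 : c 18 = c 45 := Classical.byContradiction fun hh => tr2 u2 n11 hh
      have u5 : c 18 = c 11 := Classical.byContradiction fun hh => tr2 u2 n3 hh
      have u6 : c 18 = c 44 := Classical.byContradiction fun hh => tr3 u4 n9 hh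
      have u7 : c 18 ≠ c 43 := fun hh => X2.n12 a15 hh u5
      have u8 : c 37 ≠ c 18 := fun hh => tr2 hh u5 n2
      have u9 : c 43 ≠ c 32 := fun hh => tr3 u2 hh u7
      have u10 : c 37 = c 31 := Classical.byContradiction fun hh => X2.n3 a97 u8 hh u3
      have u11 : c 43 = c 21 := Classical.byContradiction fun hh => X2.n3 a155 u9 hh n10
      have u12 : c 37 = c 33 := Classical.byContradiction fun hh => tr2 u10 n6 hh
      have u13 : c 43 ≠ c 10 := fun hh => tr1 hh u11 n4
      have u14 : c 37 ≠ c 17 := fun hh => tr1 hh u12 u1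
      have u15 : c 18 = c 10 := Classical.byContradiction fun hh => X2.n3 a14 u7 hh u13
      have u16 : c 28 = c 17 := Classical.byContradiction fun hh => X2.n3 a99 n1 u14 hh
      have u17 : c 10 = c 44 := Classical.byContradiction fun hh => tr1 u15 u6 hh
      have u18 : c 17 = c 44 := Classical.byContradiction fun hh => tr1 u16 n5 hh
      X2.n23 a7 u18 u17
  have k3622 : c 31 = c 1 → c 13 ≠ c 33 → c 19 ≠ c 45 → c 44 ≠ c 33 → c 44 = c 45 → c 31 = c 21 → c 32 ≠ c 21 → c 32 = c 45 → c 45 = c 23 → False := fun n0 n1 n2 n3 n4 n5 n6 n7 n8 =>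
      have u0 : c 19 ≠ c 44 := fun hh => tr2 hh n4 n2
      have u1 : c 45 ≠ c 13 := fun hh => k3501 n7 hh
      have u2 : c 19 = c 13 := Classical.byContradiction fun hh => X2.n3 a24 n2 hh u1
      have u3 : c 44 = c 23 := Classical.byContradiction fun hh => tr2 n4 n8 hh
      have u4 : c 31 ≠ c 32 := fun hh => tr1 hh n5 n6
      have u5 : c 31 ≠ c 45 := fun hh => X2.n12 a69 n5 hh
      have u6 : c 31 ≠ c 19 := fun hh => X2.n12 a67 hh n0
      have u7 : c 19 ≠ c 1 := fun hh => X2.n23 a67 n0 hh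
      have u8 : c 41 ≠ c 31 := fun hh => k3506 hh n0
      have u9 : c 32 ≠ c 1 := fun hh => tr3 n0 hh u4
      have u10 : c 1 ≠ c 45 := fun hh => tr2 n0 hh u5
      have u11 : c 40 ≠ c 31 := fun hh => k3523 hh n0
      have u12 : c 31 ≠ c 13 := fun hh => tr3 hh u2 u6
      have u13 : c 41 = c 19 := Classical.byContradiction fun hh => X2.n3 a141 u8 hh u6
      have u14 : c 1 ≠ c 23 := fun hh => tr3 hh n8 u10
      have u15 : c 40 = c 19 := Classical.byContradiction fun hh => X2.n3 a130 u11 hh u6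
      have u16 : c 31 = c 33 := Classical.byContradiction fun hh => X2.n3 a66 u12 hh n1
      have u17 : c 30 ≠ c 19 := fun hh => X2.n23 a64 hh u13
      have u18 : c 28 ≠ c 19 := fun hh => k3617 hh u14 u7 u3
      have u19 : c 30 ≠ c 13 := fun hh => tr3 hh u2 u17
      have u20 : c 30 = c 1 := Classical.byContradiction fun hh => X2.n3 a57 u17 hh u7
      have u21 : c 28 = c 44 := Classical.byContradiction fun hh => X2.n3 a40 u18 hh u0
      have u22 : c 28 = c 45 := Classical.byContradiction fun hh => X2.n3 a41 u18 hh n2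
      have u23 : c 40 ≠ c 28 := fun hh => tr1 hh u15 u18
      have u24 : c 30 = c 33 := Classical.byContradiction fun hh => X2.n3 a56 u19 hh n1
      have u25 : c 30 = c 31 := Classical.byContradiction fun hh => tr3 u20 n0 hh
      have u26 : c 28 ≠ c 33 := fun hh => tr1 u21 hh n3
      have u27 : c 28 = c 23 := Classical.byContradiction fun hh => tr2 u21 u3 hh
      have u28 : c 28 ≠ c 1 := fun hh => tr1 hh u22 u10
      have u29 : c 28 = c 32 := Classical.byContradiction fun hh => tr3 u22 n7 hh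
      have u30 : c 31 ≠ c 10 := fun hh => X2.n13 a60 u25 hh
      have u31 : c 30 ≠ c 11 := fun hh => X2.n12 a61 u25 hh
      have u32 : c 10 ≠ c 21 := fun hh => tr3 n5 hh u30
      have u33 : c 11 ≠ c 33 := fun hh => tr3 u24 hh u31
      have u34 : c 28 = c 11 := Classical.byContradiction fun hh => X2.n3 a37 hh u26 u33
      have u35 : c 11 = c 23 := Classical.byContradiction fun hh => tr1 u34 u27 hh
      have u36 : c 32 = c 11 := Classical.byContradiction fun hh => tr1 u29 u34 hh
      have u37 : c 37 ≠ c 11 := fun hh => X2.n13 a96 hh u35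
      have u38 : c 37 ≠ c 28 := fun hh => tr2 hh u34 u37
      have u39 : c 18 = c 1 := Classical.byContradiction fun hh => k3621 hh u38 u37 u36 u32 u21 u16 u9 n0 n4 n6 n7
      have u40 : c 40 ≠ c 18 := fun hh => k3497 hh u39
      have u41 : c 28 ≠ c 18 := fun hh => tr2 hh u39 u28
      X2.n3 a128 u23 u40 u41
  have k3623 : c 19 ≠ c 32 → c 44 ≠ c 33 → c 44 = c 45 → c 31 = c 21 → c 32 ≠ c 33 → c 32 ≠ c 21 → c 32 = c 45 → c 45 ≠ c 3 → c 45 = c 23 → False := fun n0 n1 n2 n3 n4 n5 n6 n7 n8 =>
      have u0 : c 44 = c 23 := Classical.byContradiction fun hh => tr2 n2 n8 hh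
      have u1 : c 31 ≠ c 2 := fun hh => X2.n12 a68 n3 hh
      have u2 : c 32 ≠ c 3 := fun hh => tr1 n6 hh n7
      have u3 : c 21 = c 3 := Classical.byContradiction fun hh => X2.n3 a75 n5 u2 hh
      have u4 : c 45 ≠ c 13 := fun hh => k3501 n6 hh
      have u5 : c 19 ≠ c 45 := fun hh => tr3 hh n6 n0
      have u6 : c 19 = c 13 := Classical.byContradiction fun hh => X2.n3 a24 u5 hh u4
      have u7 : c 19 ≠ c 44 := fun hh => tr2 hh n2 u5
      have u8 : c 19 ≠ c 33 := fun hh => k3620 hh u7 n0 u0 n3 n4 n5 n6 n7 n8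
      have u9 : c 13 ≠ c 33 := fun hh => tr2 u6 hh u8
      have u10 : c 31 ≠ c 1 := fun hh => k3622 hh u9 u5 n1 n2 n3 n5 n6 n8
      have u11 : c 1 ≠ c 21 := fun hh => tr3 n3 hh u10
      have u12 : c 31 = c 19 := Classical.byContradiction fun hh => k3616 u10 hh u5 n3 u3 n7
      have u13 : c 1 ≠ c 3 := fun hh => tr3 hh u3 u11
      have u14 : c 31 = c 13 := Classical.byContradiction fun hh => tr2 u12 u6 hh
      have u15 : c 19 ≠ c 2 := fun hh => tr2 u12 hh u1
      have u16 : c 1 = c 45 := Classical.byContradiction fun hh => X2.n3 a0 hh u13 n7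
      have u17 : c 21 = c 13 := Classical.byContradiction fun hh => tr1 n3 u14 hh
      have u18 : c 32 = c 2 := Classical.byContradiction fun hh => X2.n3 a18 n0 u15 hh
      have u19 : c 32 = c 1 := Classical.byContradiction fun hh => tr3 n6 u16 hh
      have u20 : c 43 = c 32 := Classical.byContradiction fun hh => k3580 u17 hh
      have u21 : c 1 = c 2 := Classical.byContradiction fun hh => tr1 u19 u18 hh
      have u22 : c 43 = c 2 := Classical.byContradiction fun hh => tr2 u20 u18 hh
      X2.n23 a150 u22 u21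
  have k3624 : c 43 = c 32 → c 21 ≠ c 13 → False := fun n0 n1 =>
      have u0 : c 43 ≠ c 21 := fun hh => X2.n12 a155 n0 hh
      have u1 : c 43 ≠ c 13 := fun hh => k3505 n0 hh
      X2.n3 a154 u0 u1 n1
  have k3625 : c 32 = c 45 → c 45 = c 14 → c 46 = c 14 → c 45 = c 23 → c 46 = c 23 → False := fun n0 n1 n2 n3 n4 =>
      have u0 : c 45 ≠ c 3 := fun hh => k3610 hh n1 n2 n3 n4
      have u1 : c 21 ≠ c 45 := fun hh => X2.n13 a25 hh n1
      have u2 : c 33 ≠ c 46 := fun hh => X2.n13 a80 hh n4
      have u3 : c 33 ≠ c 14 := fun hh => tr3 hh n2 u2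
      have u4 : c 21 ≠ c 14 := fun hh => X2.n23 a26 hh n2
      have u5 : c 33 ≠ c 23 := fun hh => X2.n23 a80 hh n4
      have u6 : c 32 ≠ c 21 := fun hh => tr1 hh n0 u1
      have u7 : c 45 ≠ c 13 := fun hh => k3501 n0 hh
      have u8 : c 32 = c 14 := Classical.byContradiction fun hh => tr2 n0 n1 hh
      have u9 : c 32 ≠ c 3 := fun hh => tr1 n0 hh u0
      have u10 : c 32 ≠ c 33 := fun hh => X2.n12 a79 hh u8
      have u11 : c 21 = c 3 := Classical.byContradiction fun hh => X2.n3 a75 u6 u9 hh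
      have u12 : c 31 = c 21 := Classical.byContradiction fun hh => k3615 hh u9 n0 n1 u3 u4 n3 u5
      have u13 : c 44 ≠ c 21 := fun hh => X2.n23 a74 u12 hh
      have u14 : c 21 ≠ c 2 := fun hh => X2.n13 a68 u12 hh
      have u15 : c 31 ≠ c 32 := fun hh => tr1 hh u12 u6
      have u16 : c 44 = c 14 := Classical.byContradiction fun hh => X2.n3 a157 u13 hh u4
      have u17 : c 44 = c 45 := Classical.byContradiction fun hh => tr3 u16 n1 hh
      have u18 : c 44 ≠ c 33 := fun hh => tr1 hh u16 u3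
      have u19 : c 44 ≠ c 13 := fun hh => tr1 u17 hh u7
      have u20 : c 19 = c 32 := Classical.byContradiction fun hh => k3623 hh u18 u17 u12 u10 u6 n0 u0 n3
      have u21 : c 19 ≠ c 13 := fun hh => k3560 u20 hh
      have u22 : c 19 = c 45 := Classical.byContradiction fun hh => tr2 u20 n0 hh
      have u23 : c 19 ≠ c 3 := fun hh => tr1 u20 hh u9
      have u24 : c 19 ≠ c 33 := fun hh => tr1 u20 hh u10
      have u25 : c 31 ≠ c 19 := fun hh => tr2 hh u20 u15
      have u26 : c 19 = c 44 := Classical.byContradiction fun hh => X2.n3 a22 hh u21 u19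
      have u27 : c 28 ≠ c 45 := fun hh => X2.n23 a41 hh u22
      have u28 : c 33 = c 3 := Classical.byContradiction fun hh => X2.n3 a19 u24 u23 hh
      have u29 : c 28 ≠ c 23 := fun hh => tr3 hh n3 u27
      have u30 : c 21 = c 33 := Classical.byContradiction fun hh => tr3 u11 u28 hh
      have u31 : c 40 ≠ c 21 := fun hh => X2.n13 a127 hh u30
      have u32 : c 41 ≠ c 21 := fun hh => X2.n13 a139 hh u30
      have u33 : c 31 = c 33 := Classical.byContradiction fun hh => tr2 u12 u30 hh
      have u34 : c 40 ≠ c 31 := fun hh => tr2 hh u12 u31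
      have u35 : c 41 ≠ c 31 := fun hh => tr2 hh u12 u32
      have u36 : c 31 ≠ c 13 := fun hh => X2.n12 a66 hh u33
      have u37 : c 40 = c 19 := Classical.byContradiction fun hh => X2.n3 a130 u34 hh u25
      have u38 : c 41 = c 19 := Classical.byContradiction fun hh => X2.n3 a141 u35 hh u25
      have u39 : c 21 ≠ c 13 := fun hh => tr2 u12 hh u36
      have u40 : c 30 ≠ c 19 := fun hh => X2.n23 a129 u37 hh
      have u41 : c 19 ≠ c 1 := fun hh => k3509 u37 hh
      have u42 : c 41 = c 44 := Classical.byContradiction fun hh => tr2 u38 u26 hh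
      have u43 : c 41 = c 32 := Classical.byContradiction fun hh => tr2 u38 u20 hh
      have u44 : c 1 = c 21 := Classical.byContradiction fun hh => k3590 u40 hh u22 u41 u1
      have u45 : c 32 ≠ c 1 := fun hh => tr2 u20 hh u41
      have u46 : c 31 = c 1 := Classical.byContradiction fun hh => X2.n3 a67 u25 hh u41
      have u47 : c 1 ≠ c 45 := fun hh => tr3 u22 hh u41
      have u48 : c 41 ≠ c 27 := fun hh => X2.n12 a143 u42 hh
      have u49 : c 29 ≠ c 21 := fun hh => X2.n23 a44 hh u44
      have u50 : c 35 ≠ c 1 := fun hh => k3516 hh u44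
      have u51 : c 1 ≠ c 23 := fun hh => tr3 hh n3 u47
      have u52 : c 32 ≠ c 27 := fun hh => tr2 u43 hh u48
      have u53 : c 28 = c 1 := Classical.byContradiction fun hh => X2.n3 a35 hh u29 u51
      have u54 : c 28 = c 31 := Classical.byContradiction fun hh => tr3 u53 u46 hh
      have u55 : c 28 ≠ c 8 := fun hh => X2.n12 a43 u54 hh
      have u56 : c 31 ≠ c 8 := fun hh => X2.n13 a43 u54 hh
      have u57 : c 8 ≠ c 1 := fun hh => tr3 u53 hh u55
      have u58 : c 8 = c 35 := Classical.byContradiction fun hh => X2.n3 a1 hh u57 u50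
      have u59 : c 43 ≠ c 32 := fun hh => k3624 hh u39
      have u60 : c 43 = c 21 := Classical.byContradiction fun hh => X2.n3 a155 u59 hh u6
      have u61 : c 19 ≠ c 43 := fun hh => tr1 hh u20 u59
      have u62 : c 43 ≠ c 13 := fun hh => X2.n12 a154 u60 hh
      have u63 : c 27 = c 13 := Classical.byContradiction fun hh => k3600 u20 u14 u19 n0 u45 u60 hh u13 u51 n3 n4
      have u64 : c 31 = c 43 := Classical.byContradiction fun hh => tr3 u12 u60 hh
      have u65 : c 29 ≠ c 43 := fun hh => tr2 hh u60 u49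
      have u66 : c 35 ≠ c 27 := fun hh => X2.n13 a90 hh u63
      have u67 : c 43 ≠ c 27 := fun hh => tr2 hh u63 u62
      have u68 : c 8 ≠ c 43 := fun hh => tr3 u64 hh u56
      have u69 : c 29 = c 19 := Classical.byContradiction fun hh => X2.n3 a51 hh u65 u61
      have u70 : c 29 = c 32 := Classical.byContradiction fun hh => tr2 u69 u20 hh
      have u71 : c 29 ≠ c 27 := fun hh => tr1 u70 hh u52
      have u72 : c 43 ≠ c 4 := fun hh => k3562 hh u71 u65 u67
      have u73 : c 8 ≠ c 4 := fun hh => k3563 hh u71 u58 u66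
      X2.n3 a2 u68 u73 u72
  have k3626 : c 31 = c 1 → c 32 ≠ c 3 → c 31 = c 32 → c 31 ≠ c 45 → c 45 ≠ c 3 → False := fun n0 n1 n2 n3 n4 =>
      have u0 : c 32 = c 1 := Classical.byContradiction fun hh => tr1 n2 n0 hh
      have u1 : c 1 ≠ c 45 := fun hh => tr2 n0 hh n3
      have u2 : c 1 ≠ c 3 := fun hh => tr2 u0 hh n1
      X2.n3 a0 u1 u2 n4
  have k3627 : c 19 = c 44 → c 33 ≠ c 3 → c 44 ≠ c 33 → c 44 = c 45 → c 45 ≠ c 3 → False := fun n0 n1 n2 n3 n4 =>
      have u0 : c 19 ≠ c 33 := fun hh => tr1 n0 hh n2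
      have u1 : c 19 = c 45 := Classical.byContradiction fun hh => tr2 n0 n3 hh
      have u2 : c 19 = c 3 := Classical.byContradiction fun hh => X2.n3 a19 u0 hh n1
      tr1 u1 u2 n4
  have k3628 : c 31 ≠ c 19 → c 31 ≠ c 1 → c 40 ≠ c 31 → False := fun n0 n1 n2 =>
      have u0 : c 40 = c 19 := Classical.byContradiction fun hh => X2.n3 a130 n2 hh n0
      have u1 : c 19 = c 1 := Classical.byContradiction fun hh => X2.n3 a67 n0 n1 hh
      k3509 u0 u1
  have k3629 : c 1 ≠ c 45 → c 41 ≠ c 23 → c 45 = c 13 → c 19 ≠ c 43 → c 19 = c 32 → c 19 ≠ c 46 → c 19 = c 33 → c 41 ≠ c 19 → c 19 ≠ c 1 → c 1 ≠ c 21 → c 43 = c 13 → c 32 = c 21 → c 44 = c 23 → c 32 = c 33 → c 45 = c 23 → c 46 = c 23 → False := fun n0 n1 n2 n3 n4 n5 n6 n7 n8 n9 n10 n11 n12 n13 n14 n15 =>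
      have u0 : c 1 ≠ c 23 := fun hh => tr3 hh n14 n0
      have u1 : c 28 ≠ c 19 := fun hh => k3617 hh u0 n8 n12
      have u2 : c 28 = c 46 := Classical.byContradiction fun hh => X2.n3 a42 u1 hh n5
      have u3 : c 28 ≠ c 33 := fun hh => tr3 hh n6 u1
      have u4 : c 28 = c 23 := Classical.byContradiction fun hh => tr2 u2 n15 hh
      have u5 : c 1 ≠ c 13 := fun hh => tr3 hh n2 n0
      have u6 : c 43 ≠ c 1 := fun hh => tr1 hh n10 u5
      have u7 : c 29 = c 32 := Classical.byContradiction fun hh => k3581 hh n3 n4 n9 u6 n11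
      have u8 : c 28 ≠ c 41 := fun hh => tr1 hh u4 n1
      have u9 : c 32 ≠ c 11 := fun hh => X2.n13 a54 u7 hh
      have u10 : c 11 ≠ c 33 := fun hh => tr3 n13 hh u9
      have u11 : c 19 ≠ c 11 := fun hh => tr1 n4 hh u9
      have u12 : c 28 = c 11 := Classical.byContradiction fun hh => X2.n3 a37 hh u3 u10
      have u13 : c 41 = c 11 := Classical.byContradiction fun hh => X2.n3 a137 n7 hh u11
      tr3 u12 u13 u8
  have k3630 : c 29 = c 32 → c 2 ≠ c 23 → c 19 ≠ c 2 → c 19 = c 32 → c 32 = c 33 → c 33 ≠ c 23 → False := fun n0 n1 n2 n3 n4 n5 =>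
      have u0 : c 29 = c 19 := Classical.byContradiction fun hh => tr3 n0 n3 hh
      have u1 : c 29 = c 33 := Classical.byContradiction fun hh => tr2 n0 n4 hh
      have u2 : c 29 ≠ c 2 := fun hh => tr1 u0 hh n2
      have u3 : c 29 ≠ c 23 := fun hh => tr1 u1 hh n5
      X2.n3 a46 u2 u3 n1
  have k3631 : c 31 ≠ c 13 → c 44 ≠ c 33 → c 44 = c 45 → c 31 = c 21 → c 32 = c 33 → c 45 ≠ c 3 → c 45 = c 23 → c 46 = c 23 → False := fun n0 n1 n2 n3 n4 n5 n6 n7 =>
      have u0 : c 44 = c 23 := Classical.byContradiction fun hh => tr2 n2 n6 hh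
      have u1 : c 31 ≠ c 45 := fun hh => X2.n12 a69 n3 hh
      have u2 : c 31 ≠ c 2 := fun hh => X2.n12 a68 n3 hh
      have u3 : c 31 ≠ c 46 := fun hh => X2.n12 a70 n3 hh
      have u4 : c 13 ≠ c 33 := fun hh => k3514 n4 hh
      have u5 : c 33 ≠ c 23 := fun hh => X2.n23 a80 hh n7
      have u6 : c 21 ≠ c 13 := fun hh => tr2 n3 hh n0
      have u7 : c 31 = c 33 := Classical.byContradiction fun hh => X2.n3 a66 n0 hh u4
      have u8 : c 43 ≠ c 32 := fun hh => k3624 hh u6
      have u9 : c 31 ≠ c 15 := fun hh => X2.n12 a73 u7 hh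
      have u10 : c 31 = c 32 := Classical.byContradiction fun hh => tr3 u7 n4 hh
      have u11 : c 21 = c 33 := Classical.byContradiction fun hh => tr1 n3 u7 hh
      have u12 : c 31 ≠ c 43 := fun hh => tr1 hh u10 u8
      have u13 : c 32 = c 21 := Classical.byContradiction fun hh => tr1 u10 n3 hh
      have u14 : c 40 ≠ c 21 := fun hh => X2.n13 a127 hh u11
      have u15 : c 43 ≠ c 21 := fun hh => tr3 n3 hh u12
      have u16 : c 32 ≠ c 3 := fun hh => X2.n12 a75 u13 hh
      have u17 : c 40 ≠ c 31 := fun hh => tr2 hh n3 u14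
      have u18 : c 43 = c 13 := Classical.byContradiction fun hh => X2.n3 a154 u15 hh u6
      have u19 : c 33 ≠ c 3 := fun hh => tr2 n4 hh u16
      have u20 : c 31 ≠ c 1 := fun hh => k3626 hh u16 u10 u1 n5
      have u21 : c 1 ≠ c 21 := fun hh => tr3 n3 hh u20
      have u22 : c 19 ≠ c 44 := fun hh => k3627 hh u19 n1 n2 n5
      have u23 : c 19 ≠ c 45 := fun hh => tr3 hh n2 u22
      have u24 : c 31 = c 19 := Classical.byContradiction fun hh => k3628 hh u20 u17
      have u25 : c 19 ≠ c 1 := fun hh => X2.n13 a67 u24 hh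
      have u26 : c 41 ≠ c 19 := fun hh => X2.n23 a141 hh u24
      have u27 : c 19 = c 33 := Classical.byContradiction fun hh => tr1 u24 u7 hh
      have u28 : c 19 ≠ c 46 := fun hh => tr2 u24 hh u3
      have u29 : c 19 = c 32 := Classical.byContradiction fun hh => tr1 u24 u10 hh
      have u30 : c 19 ≠ c 13 := fun hh => tr2 u24 hh n0
      have u31 : c 19 ≠ c 2 := fun hh => tr2 u24 hh u2
      have u32 : c 19 ≠ c 15 := fun hh => tr2 u24 hh u9
      have u33 : c 19 ≠ c 43 := fun hh => tr2 u24 hh u12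
      have u34 : c 45 = c 13 := Classical.byContradiction fun hh => X2.n3 a24 u23 u30 hh
      have u35 : c 44 = c 15 := Classical.byContradiction fun hh => X2.n3 a23 u22 u32 hh
      have u36 : c 23 = c 15 := Classical.byContradiction fun hh => tr1 u0 u35 hh
      have u37 : c 41 ≠ c 23 := fun hh => X2.n13 a140 hh u36
      have u38 : c 1 = c 45 := Classical.byContradiction fun hh => k3629 hh u37 u34 u33 u29 u28 u27 u26 u25 u21 u18 u13 u0 n4 n6 n7
      have u39 : c 1 = c 13 := Classical.byContradiction fun hh => tr2 u38 u34 hh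
      have u40 : c 1 = c 23 := Classical.byContradiction fun hh => tr2 u38 n6 hh
      have u41 : c 43 = c 1 := Classical.byContradiction fun hh => tr3 u18 u39 hh
      have u42 : c 28 ≠ c 1 := fun hh => X2.n13 a35 hh u40
      have u43 : c 43 ≠ c 2 := fun hh => X2.n12 a150 u41 hh
      have u44 : c 1 ≠ c 2 := fun hh => X2.n13 a150 u41 hh
      have u45 : c 28 ≠ c 45 := fun hh => tr3 hh u38 u42
      have u46 : c 2 ≠ c 23 := fun hh => tr3 u40 hh u44
      have u47 : c 28 = c 19 := Classical.byContradiction fun hh => X2.n3 a41 hh u45 u23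
      have u48 : c 28 = c 33 := Classical.byContradiction fun hh => tr2 u47 u27 hh
      have u49 : c 28 = c 32 := Classical.byContradiction fun hh => tr2 u47 u29 hh
      have u50 : c 28 ≠ c 11 := fun hh => X2.n12 a37 hh u48
      have u51 : c 32 ≠ c 11 := fun hh => tr2 u49 hh u50
      have u52 : c 19 ≠ c 11 := fun hh => tr2 u47 hh u50
      have u53 : c 29 ≠ c 32 := fun hh => k3630 hh u46 u31 u29 n4 u5
      have u54 : c 29 ≠ c 19 := fun hh => tr2 hh u29 u53
      have u55 : c 29 = c 11 := Classical.byContradiction fun hh => X2.n3 a54 u53 hh u51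
      have u56 : c 11 = c 2 := Classical.byContradiction fun hh => k3570 u52 u37 u26 u53 u29 u46 hh
      have u57 : c 29 = c 43 := Classical.byContradiction fun hh => X2.n3 a51 u54 hh u33
      have u58 : c 29 = c 2 := Classical.byContradiction fun hh => tr2 u55 u56 hh
      tr1 u57 u58 u43
  have k3632 : c 41 ≠ c 31 → c 23 ≠ c 15 → c 31 = c 15 → c 21 ≠ c 33 → c 31 = c 21 → c 33 ≠ c 23 → False := fun n0 n1 n2 n3 n4 n5 =>
      have u0 : c 41 ≠ c 21 := fun hh => tr3 hh n4 n0
      have u1 : c 41 ≠ c 15 := fun hh => tr3 hh n2 n0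
      have u2 : c 41 = c 33 := Classical.byContradiction fun hh => X2.n3 a139 u0 hh n3
      have u3 : c 41 = c 23 := Classical.byContradiction fun hh => X2.n3 a140 hh u1 n1
      tr1 u2 u3 n5
  have k3633 : c 31 = c 21 → c 45 = c 14 → c 46 = c 14 → c 45 = c 23 → c 46 = c 23 → False := fun n0 n1 n2 n3 n4 =>
      have u0 : c 33 ≠ c 46 := fun hh => X2.n13 a80 hh n4
      have u1 : c 33 ≠ c 14 := fun hh => tr3 hh n2 u0
      have u2 : c 32 ≠ c 45 := fun hh => k3625 hh n1 n2 n3 n4
      have u3 : c 32 ≠ c 14 := fun hh => tr3 hh n1 u2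
      have u4 : c 32 = c 33 := Classical.byContradiction fun hh => X2.n3 a79 hh u3 u1
      have u5 : c 33 ≠ c 15 := fun hh => k3548 u4 hh
      have u6 : c 45 ≠ c 3 := fun hh => k3610 hh n1 n2 n3 n4
      have u7 : c 21 ≠ c 14 := fun hh => X2.n23 a26 hh n2
      have u8 : c 45 ≠ c 33 := fun hh => X2.n12 a159 hh n3
      have u9 : c 33 ≠ c 23 := fun hh => X2.n23 a80 hh n4
      have u10 : c 31 ≠ c 44 := fun hh => X2.n12 a74 hh n0
      have u11 : c 44 ≠ c 21 := fun hh => X2.n23 a74 n0 hh
      have u12 : c 31 ≠ c 45 := fun hh => X2.n12 a69 n0 hh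
      have u13 : c 44 = c 14 := Classical.byContradiction fun hh => X2.n3 a157 u11 hh u7
      have u14 : c 44 = c 45 := Classical.byContradiction fun hh => tr3 u13 n1 hh
      have u15 : c 44 ≠ c 33 := fun hh => tr1 hh u13 u1
      have u16 : c 44 = c 23 := Classical.byContradiction fun hh => tr2 u14 n3 hh
      have u17 : c 31 = c 13 := Classical.byContradiction fun hh => k3631 hh u15 u14 n0 u4 u6 n3 n4
      have u18 : c 31 ≠ c 33 := fun hh => X2.n12 a66 u17 hh
      have u19 : c 21 = c 13 := Classical.byContradiction fun hh => tr1 n0 u17 hh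
      have u20 : c 31 ≠ c 32 := fun hh => k3539 hh u17
      have u21 : c 45 ≠ c 13 := fun hh => tr3 u17 hh u12
      have u22 : c 21 ≠ c 33 := fun hh => tr2 n0 hh u18
      have u23 : c 31 = c 15 := Classical.byContradiction fun hh => X2.n3 a73 u18 hh u5
      have u24 : c 43 = c 32 := Classical.byContradiction fun hh => k3580 u19 hh
      have u25 : c 44 ≠ c 15 := fun hh => tr3 u23 hh u10
      have u26 : c 23 ≠ c 15 := fun hh => tr2 u16 hh u25
      have u27 : c 41 = c 31 := Classical.byContradiction fun hh => k3632 hh u26 u23 u22 n0 u9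
      have u28 : c 41 ≠ c 19 := fun hh => X2.n12 a141 u27 hh
      have u29 : c 31 ≠ c 19 := fun hh => X2.n13 a141 u27 hh
      have u30 : c 31 ≠ c 1 := fun hh => k3506 u27 hh
      have u31 : c 41 = c 21 := Classical.byContradiction fun hh => tr2 u27 n0 hh
      have u32 : c 19 ≠ c 13 := fun hh => tr3 u17 hh u29
      have u33 : c 19 = c 1 := Classical.byContradiction fun hh => X2.n3 a67 u29 u30 hh
      have u34 : c 41 ≠ c 12 := fun hh => X2.n12 a133 hh u31
      have u35 : c 19 = c 45 := Classical.byContradiction fun hh => X2.n3 a24 hh u32 u21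
      have u36 : c 30 ≠ c 19 := fun hh => X2.n13 a57 hh u33
      have u37 : c 31 ≠ c 12 := fun hh => tr2 u27 hh u34
      have u38 : c 19 ≠ c 32 := fun hh => tr1 hh u35 u2
      have u39 : c 19 ≠ c 33 := fun hh => tr1 u35 hh u8
      have u40 : c 1 = c 45 := Classical.byContradiction fun hh => tr1 u33 u35 hh
      have u41 : c 30 = c 41 := Classical.byContradiction fun hh => X2.n3 a64 hh u36 u28
      have u42 : c 32 = c 12 := Classical.byContradiction fun hh => X2.n3 a72 u20 u37 hh
      have u43 : c 19 ≠ c 43 := fun hh => tr2 hh u24 u38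
      have u44 : c 1 = c 23 := Classical.byContradiction fun hh => tr2 u40 n3 hh
      have u45 : c 30 = c 31 := Classical.byContradiction fun hh => tr2 u41 u27 hh
      have u46 : c 43 = c 12 := Classical.byContradiction fun hh => tr2 u24 u42 hh
      have u47 : c 12 = c 33 := Classical.byContradiction fun hh => tr1 u42 u4 hh
      have u48 : c 12 ≠ c 45 := fun hh => tr2 u42 hh u2
      have u49 : c 30 ≠ c 11 := fun hh => X2.n12 a61 u45 hh
      have u50 : c 29 ≠ c 12 := fun hh => X2.n13 a49 hh u47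
      have u51 : c 41 ≠ c 11 := fun hh => tr2 u41 hh u49
      have u52 : c 29 ≠ c 43 := fun hh => tr2 hh u46 u50
      have u53 : c 19 = c 11 := Classical.byContradiction fun hh => X2.n3 a137 u28 u51 hh
      have u54 : c 29 = c 19 := Classical.byContradiction fun hh => X2.n3 a51 hh u52 u43
      have u55 : c 29 = c 11 := Classical.byContradiction fun hh => tr2 u54 u53 hh
      have u56 : c 29 = c 1 := Classical.byContradiction fun hh => tr2 u54 u33 hh
      have u57 : c 29 = c 23 := Classical.byContradiction fun hh => tr2 u56 u44 hh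
      have u58 : c 29 ≠ c 2 := fun hh => X2.n12 a46 hh u57
      have u59 : c 11 = c 23 := Classical.byContradiction fun hh => tr1 u55 u57 hh
      have u60 : c 19 ≠ c 2 := fun hh => tr2 u54 hh u58
      have u61 : c 37 ≠ c 11 := fun hh => X2.n13 a96 hh u59
      have u62 : c 32 = c 2 := Classical.byContradiction fun hh => X2.n3 a18 u38 u60 hh
      have u63 : c 37 ≠ c 19 := fun hh => tr2 hh u53 u61
      have u64 : c 2 = c 33 := Classical.byContradiction fun hh => tr1 u62 u4 hh
      have u65 : c 37 = c 33 := Classical.byContradiction fun hh => X2.n3 a98 u63 hh u39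
      have u66 : c 18 ≠ c 33 := fun hh => X2.n23 a8 hh u64
      have u67 : c 37 ≠ c 18 := fun hh => tr1 hh u65 u66
      have u68 : c 37 ≠ c 31 := fun hh => tr1 hh u65 u18
      have u69 : c 18 ≠ c 12 := fun hh => tr2 hh u47 u66
      have u70 : c 18 = c 31 := Classical.byContradiction fun hh => X2.n3 a97 u67 u68 hh
      have u71 : c 18 = c 45 := Classical.byContradiction fun hh => X2.n3 a9 u69 hh u48
      tr1 u70 u71 u12
  have k3634 : c 41 = c 21 → c 43 = c 21 → c 28 = c 19 → c 1 = c 23 → c 31 = c 1 → c 41 = c 19 → c 31 ≠ c 21 → False := fun n0 n1 n2 n3 n4 n5 n6 =>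
      have u0 : c 1 ≠ c 21 := fun hh => tr2 n4 hh n6
      have u1 : c 43 ≠ c 1 := fun hh => tr1 hh n1 u0
      have u2 : c 28 ≠ c 1 := fun hh => X2.n13 a35 hh n3
      have u3 : c 28 ≠ c 31 := fun hh => tr2 hh n4 u2
      have u4 : c 19 ≠ c 1 := fun hh => k3536 n5 hh
      have u5 : c 30 ≠ c 19 := fun hh => X2.n23 a64 hh n5
      have u6 : c 30 = c 1 := Classical.byContradiction fun hh => X2.n3 a57 u5 hh u4
      have u7 : c 30 = c 31 := Classical.byContradiction fun hh => tr3 u6 n4 hh
      have u8 : c 30 ≠ c 11 := fun hh => X2.n12 a61 u7 hh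
      have u9 : c 41 ≠ c 11 := fun hh => X2.n12 a137 n5 hh
      have u10 : c 41 ≠ c 12 := fun hh => X2.n12 a133 hh n0
      have u11 : c 12 ≠ c 21 := fun hh => X2.n23 a133 n0 hh
      have u12 : c 11 ≠ c 21 := fun hh => tr3 n0 hh u9
      have u13 : c 19 ≠ c 12 := fun hh => tr2 n5 hh u10
      have u14 : c 43 ≠ c 12 := fun hh => tr1 hh n1 u11
      have u15 : c 43 ≠ c 11 := fun hh => tr1 hh n1 u12
      have u16 : c 19 = c 43 := Classical.byContradiction fun hh => X2.n3 a21 hh u13 u14
      have u17 : c 29 ≠ c 43 := fun hh => X2.n23 a51 hh u16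
      have u18 : c 29 ≠ c 21 := fun hh => tr3 hh n1 u17
      have u19 : c 29 = c 1 := Classical.byContradiction fun hh => X2.n3 a44 hh u18 u0
      have u20 : c 8 ≠ c 1 := fun hh => k3519 u19 hh
      have u21 : c 29 = c 23 := Classical.byContradiction fun hh => tr2 u19 n3 hh
      have u22 : c 29 = c 31 := Classical.byContradiction fun hh => tr3 u19 n4 hh
      have u23 : c 31 ≠ c 8 := fun hh => tr1 hh n4 u20
      have u24 : c 29 ≠ c 2 := fun hh => X2.n12 a46 hh u21
      have u25 : c 28 = c 8 := Classical.byContradiction fun hh => X2.n3 a43 u3 hh u23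
      have u26 : c 1 ≠ c 2 := fun hh => tr2 u19 hh u24
      have u27 : c 31 ≠ c 2 := fun hh => tr2 u22 hh u24
      have u28 : c 8 = c 19 := Classical.byContradiction fun hh => tr1 u25 n2 hh
      have u29 : c 43 = c 2 := Classical.byContradiction fun hh => X2.n3 a150 u1 hh u26
      have u30 : c 21 = c 2 := Classical.byContradiction fun hh => X2.n3 a68 n6 u27 hh
      have u31 : c 8 = c 43 := Classical.byContradiction fun hh => tr2 u28 u16 hh
      have u32 : c 11 ≠ c 2 := fun hh => tr3 u29 hh u15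
      have u33 : c 35 ≠ c 2 := fun hh => k3496 hh u30
      have u34 : c 8 = c 2 := Classical.byContradiction fun hh => tr2 u31 u29 hh
      have u35 : c 35 = c 11 := Classical.byContradiction fun hh => X2.n3 a88 hh u33 u32
      have u36 : c 8 ≠ c 35 := fun hh => tr1 hh u34 u33
      have u37 : c 30 ≠ c 35 := fun hh => tr2 hh u35 u8
      have u38 : c 35 = c 1 := Classical.byContradiction fun hh => X2.n3 a1 u36 u20 hh
      tr3 u6 u38 u37
  have k3635 : c 21 ≠ c 33 → c 28 = c 19 → c 1 = c 23 → c 1 = c 13 → c 1 = c 45 → c 31 = c 1 → c 41 = c 19 → c 43 ≠ c 32 → c 31 ≠ c 32 → c 31 ≠ c 21 → c 32 = c 33 → False := fun n0 n1 n2 n3 n4 n5 n6 n7 n8 n9 n10 =>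
      have u0 : c 28 = c 41 := Classical.byContradiction fun hh => tr3 n1 n6 hh
      have u1 : c 18 ≠ c 41 := fun hh => X2.n23 a38 u0 hh
      have u2 : c 28 ≠ c 1 := fun hh => X2.n13 a35 hh n2
      have u3 : c 28 ≠ c 31 := fun hh => tr2 hh n5 u2
      have u4 : c 34 ≠ c 1 := fun hh => X2.n13 a81 hh n3
      have u5 : c 19 ≠ c 1 := fun hh => k3536 n6 hh
      have u6 : c 30 ≠ c 19 := fun hh => X2.n23 a64 hh n6
      have u7 : c 30 = c 1 := Classical.byContradiction fun hh => X2.n3 a57 u6 hh u5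
      have u8 : c 30 = c 31 := Classical.byContradiction fun hh => tr3 u7 n5 hh
      have u9 : c 30 ≠ c 11 := fun hh => X2.n12 a61 u8 hh
      have u10 : c 32 ≠ c 1 := fun hh => tr3 n5 hh n8
      have u11 : c 1 ≠ c 21 := fun hh => tr2 n5 hh n9
      have u12 : c 19 ≠ c 10 := fun hh => X2.n13 a136 n6 hh
      have u13 : c 41 ≠ c 10 := fun hh => X2.n12 a136 n6 hh
      have u14 : c 41 ≠ c 11 := fun hh => X2.n12 a137 n6 hh
      have u15 : c 32 ≠ c 21 := fun hh => tr1 hh n10 n0
      have u16 : c 43 = c 21 := Classical.byContradiction fun hh => X2.n3 a155 n7 hh u15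
      have u17 : c 43 ≠ c 1 := fun hh => tr1 hh u16 u11
      have u18 : c 41 ≠ c 21 := fun hh => k3634 hh u16 n1 n2 n5 n6 n9
      have u19 : c 41 = c 33 := Classical.byContradiction fun hh => X2.n3 a139 u18 hh n0
      have u20 : c 19 = c 33 := Classical.byContradiction fun hh => tr1 n6 u19 hh
      have u21 : c 41 = c 32 := Classical.byContradiction fun hh => tr3 u19 n10 hh
      have u22 : c 28 = c 33 := Classical.byContradiction fun hh => tr2 u0 u19 hh
      have u23 : c 18 ≠ c 33 := fun hh => tr3 hh u19 u1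
      have u24 : c 19 = c 32 := Classical.byContradiction fun hh => tr3 u20 n10 hh
      have u25 : c 41 ≠ c 20 := fun hh => X2.n12 a138 hh u21
      have u26 : c 32 ≠ c 11 := fun hh => tr2 u21 hh u14
      have u27 : c 10 ≠ c 32 := fun hh => tr3 u21 hh u13
      have u28 : c 18 ≠ c 32 := fun hh => tr3 hh u21 u1
      have u29 : c 28 = c 32 := Classical.byContradiction fun hh => tr3 u22 n10 hh
      have u30 : c 39 ≠ c 19 := fun hh => X2.n13 a117 hh u24
      have u31 : c 38 ≠ c 19 := fun hh => X2.n13 a108 hh u24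
      have u32 : c 19 ≠ c 2 := fun hh => X2.n12 a18 u24 hh
      have u33 : c 19 ≠ c 43 := fun hh => tr1 hh u24 n7
      have u34 : c 29 ≠ c 32 := fun hh => k3574 hh u24 u17 u10 u15
      have u35 : c 20 ≠ c 33 := fun hh => tr3 u19 hh u25
      have u36 : c 29 = c 11 := Classical.byContradiction fun hh => X2.n3 a54 u34 hh u26
      have u37 : c 29 = c 10 := Classical.byContradiction fun hh => X2.n3 a48 hh u34 u27
      have u38 : c 18 = c 1 := Classical.byContradiction fun hh => X2.n3 a11 u28 hh u10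
      have u39 : c 28 ≠ c 9 := fun hh => X2.n12 a36 hh u29
      have u40 : c 39 ≠ c 33 := fun hh => tr3 hh u20 u30
      have u41 : c 38 ≠ c 33 := fun hh => tr3 hh u20 u31
      have u42 : c 2 ≠ c 33 := fun hh => tr3 u20 hh u32
      have u43 : c 29 ≠ c 19 := fun hh => tr2 hh u24 u34
      have u44 : c 38 = c 20 := Classical.byContradiction fun hh => X2.n3 a109 hh u41 u35
      have u45 : c 39 = c 20 := Classical.byContradiction fun hh => X2.n3 a118 hh u40 u35
      have u46 : c 18 = c 45 := Classical.byContradiction fun hh => tr2 u38 n4 hh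
      have u47 : c 30 = c 18 := Classical.byContradiction fun hh => tr3 u7 u38 hh
      have u48 : c 18 = c 31 := Classical.byContradiction fun hh => tr3 u38 n5 hh
      have u49 : c 41 ≠ c 9 := fun hh => tr2 u0 hh u39
      have u50 : c 9 ≠ c 19 := fun hh => tr3 n1 hh u39
      have u51 : c 18 = c 2 := Classical.byContradiction fun hh => X2.n3 a8 hh u23 u42
      have u52 : c 29 = c 43 := Classical.byContradiction fun hh => X2.n3 a51 u43 hh u33
      have u53 : c 38 = c 39 := Classical.byContradiction fun hh => tr3 u44 u45 hh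
      have u54 : c 18 ≠ c 12 := fun hh => X2.n12 a9 hh u46
      have u55 : c 18 ≠ c 11 := fun hh => tr2 u47 hh u9
      have u56 : c 18 = c 9 := Classical.byContradiction fun hh => X2.n3 a13 u1 hh u49
      have u57 : c 38 = c 9 := Classical.byContradiction fun hh => X2.n3 a102 hh u31 u50
      have u58 : c 1 = c 2 := Classical.byContradiction fun hh => tr1 u38 u51 hh
      have u59 : c 29 = c 21 := Classical.byContradiction fun hh => tr2 u52 u16 hh
      have u60 : c 43 = c 10 := Classical.byContradiction fun hh => tr1 u52 u37 hh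
      have u61 : c 38 ≠ c 25 := fun hh => X2.n12 a113 u53 hh
      have u62 : c 31 ≠ c 12 := fun hh => tr2 u48 hh u54
      have u63 : c 11 ≠ c 2 := fun hh => tr3 u51 hh u55
      have u64 : c 38 = c 18 := Classical.byContradiction fun hh => tr3 u57 u56 hh
      have u65 : c 11 = c 21 := Classical.byContradiction fun hh => tr1 u36 u59 hh
      have u66 : c 32 = c 12 := Classical.byContradiction fun hh => X2.n3 a72 n8 u62 hh
      have u67 : c 18 ≠ c 8 := fun hh => X2.n13 a107 u64 hh
      have u68 : c 35 ≠ c 11 := fun hh => k3529 hh u65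
      have u69 : c 19 = c 12 := Classical.byContradiction fun hh => tr2 u24 u66 hh
      have u70 : c 31 ≠ c 8 := fun hh => tr2 u48 hh u67
      have u71 : c 35 = c 2 := Classical.byContradiction fun hh => X2.n3 a88 u68 hh u63
      have u72 : c 42 ≠ c 19 := fun hh => X2.n13 a145 hh u69
      have u73 : c 28 = c 8 := Classical.byContradiction fun hh => X2.n3 a43 u3 hh u70
      have u74 : c 19 ≠ c 35 := fun hh => tr2 hh u71 u32
      have u75 : c 35 = c 1 := Classical.byContradiction fun hh => tr3 u71 u58 hh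
      have u76 : c 18 = c 35 := Classical.byContradiction fun hh => tr3 u51 u71 hh
      have u77 : c 29 = c 42 := Classical.byContradiction fun hh => X2.n3 a55 hh u43 u72
      have u78 : c 8 = c 19 := Classical.byContradiction fun hh => tr1 u73 n1 hh
      have u79 : c 34 ≠ c 35 := fun hh => tr2 hh u75 u4
      have u80 : c 35 = c 13 := Classical.byContradiction fun hh => tr2 u75 n3 hh
      have u81 : c 38 = c 35 := Classical.byContradiction fun hh => tr2 u64 u76 hh
      have u82 : c 42 = c 43 := Classical.byContradiction fun hh => tr1 u77 u52 hh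
      have u83 : c 34 = c 19 := Classical.byContradiction fun hh => X2.n3 a84 hh u79 u74
      have u84 : c 35 ≠ c 27 := fun hh => X2.n12 a90 hh u80
      have u85 : c 25 ≠ c 35 := fun hh => tr3 u81 hh u61
      have u86 : c 43 ≠ c 27 := fun hh => X2.n13 a149 u82 hh
      have u87 : c 34 ≠ c 10 := fun hh => tr1 u83 hh u12
      have u88 : c 34 = c 8 := Classical.byContradiction fun hh => tr3 u83 u78 hh
      have u89 : c 1 ≠ c 27 := fun hh => tr2 u75 hh u84
      have u90 : c 25 ≠ c 1 := fun hh => tr3 hh u75 u85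
      have u91 : c 10 ≠ c 27 := fun hh => tr2 u60 hh u86
      have u92 : c 34 = c 27 := Classical.byContradiction fun hh => X2.n3 a83 u87 hh u91
      have u93 : c 34 ≠ c 25 := fun hh => X2.n12 a85 hh u88
      have u94 : c 25 = c 27 := Classical.byContradiction fun hh => X2.n3 a27 u90 hh u89
      tr3 u92 u94 u93
  have k3636 : c 41 = c 19 → c 31 ≠ c 32 → c 31 = c 45 → c 31 ≠ c 21 → c 32 = c 33 → c 45 = c 23 → False := fun n0 n1 n2 n3 n4 n5 =>
      have u0 : c 13 ≠ c 33 := fun hh => k3514 n4 hh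
      have u1 : c 45 ≠ c 33 := fun hh => X2.n12 a159 hh n5
      have u2 : c 31 ≠ c 33 := fun hh => tr1 n2 hh u1
      have u3 : c 31 = c 13 := Classical.byContradiction fun hh => X2.n3 a66 hh u2 u0
      have u4 : c 45 = c 13 := Classical.byContradiction fun hh => tr1 n2 u3 hh
      have u5 : c 19 ≠ c 45 := fun hh => X2.n13 a24 hh u4
      have u6 : c 31 ≠ c 19 := fun hh => tr1 hh n2 u5
      have u7 : c 21 ≠ c 13 := fun hh => tr3 u3 hh n3
      have u8 : c 43 ≠ c 32 := fun hh => k3624 hh u7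
      have u9 : c 19 ≠ c 11 := fun hh => X2.n13 a137 n0 hh
      have u10 : c 30 ≠ c 19 := fun hh => X2.n23 a64 hh n0
      have u11 : c 19 ≠ c 1 := fun hh => k3536 n0 hh
      have u12 : c 30 = c 1 := Classical.byContradiction fun hh => X2.n3 a57 u10 hh u11
      have u13 : c 31 = c 1 := Classical.byContradiction fun hh => X2.n3 a67 u6 hh u11
      have u14 : c 40 ≠ c 30 := fun hh => k3547 hh u12
      have u15 : c 1 = c 45 := Classical.byContradiction fun hh => tr1 u13 n2 hh
      have u16 : c 1 = c 13 := Classical.byContradiction fun hh => tr1 u13 u3 hh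
      have u17 : c 40 = c 19 := Classical.byContradiction fun hh => X2.n3 a129 u14 hh u10
      have u18 : c 1 = c 23 := Classical.byContradiction fun hh => tr2 u15 n5 hh
      have u19 : c 28 ≠ c 1 := fun hh => X2.n13 a35 hh u18
      have u20 : c 28 ≠ c 45 := fun hh => tr3 hh u15 u19
      have u21 : c 28 = c 19 := Classical.byContradiction fun hh => X2.n3 a41 hh u20 u5
      have u22 : c 40 = c 28 := Classical.byContradiction fun hh => tr3 u17 u21 hh
      have u23 : c 28 ≠ c 11 := fun hh => tr1 u21 hh u9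
      have u24 : c 40 ≠ c 18 := fun hh => X2.n12 a128 u22 hh
      have u25 : c 21 = c 33 := Classical.byContradiction fun hh => k3635 hh u21 u18 u16 u15 u13 n0 u8 n1 n3 n4
      have u26 : c 40 ≠ c 33 := fun hh => X2.n23 a127 hh u25
      have u27 : c 32 = c 21 := Classical.byContradiction fun hh => tr3 n4 u25 hh
      have u28 : c 19 ≠ c 33 := fun hh => tr2 u17 hh u26
      have u29 : c 28 ≠ c 33 := fun hh => tr2 u22 hh u26
      have u30 : c 43 ≠ c 21 := fun hh => X2.n23 a155 hh u27
      have u31 : c 19 ≠ c 32 := fun hh => tr2 hh n4 u28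
      have u32 : c 28 ≠ c 32 := fun hh => tr2 hh n4 u29
      have u33 : c 11 = c 33 := Classical.byContradiction fun hh => X2.n3 a37 u23 u29 hh
      have u34 : c 43 = c 13 := Classical.byContradiction fun hh => X2.n3 a154 u30 hh u7
      have u35 : c 11 = c 21 := Classical.byContradiction fun hh => tr3 u33 u25 hh
      have u36 : c 32 = c 11 := Classical.byContradiction fun hh => tr3 n4 u33 hh
      have u37 : c 31 = c 43 := Classical.byContradiction fun hh => tr3 u3 u34 hh
      have u38 : c 43 = c 1 := Classical.byContradiction fun hh => tr3 u34 u16 hh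
      have u39 : c 38 ≠ c 11 := fun hh => X2.n13 a105 hh u35
      have u40 : c 43 ≠ c 2 := fun hh => X2.n12 a150 u38 hh
      have u41 : c 38 ≠ c 32 := fun hh => tr2 hh u36 u39
      have u42 : c 31 ≠ c 2 := fun hh => tr1 u37 hh u40
      have u43 : c 38 = c 19 := Classical.byContradiction fun hh => X2.n3 a108 hh u41 u31
      have u44 : c 21 = c 2 := Classical.byContradiction fun hh => X2.n3 a68 n3 u42 hh
      have u45 : c 9 ≠ c 19 := fun hh => X2.n23 a102 u43 hh
      have u46 : c 32 = c 2 := Classical.byContradiction fun hh => tr2 u27 u44 hh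
      have u47 : c 2 = c 33 := Classical.byContradiction fun hh => tr1 u44 u25 hh
      have u48 : c 40 ≠ c 9 := fun hh => tr1 hh u17 u45
      have u49 : c 28 ≠ c 9 := fun hh => tr1 hh u21 u45
      have u50 : c 18 ≠ c 2 := fun hh => X2.n13 a8 hh u47
      have u51 : c 18 = c 9 := Classical.byContradiction fun hh => X2.n3 a124 u24 u48 hh
      have u52 : c 9 = c 32 := Classical.byContradiction fun hh => X2.n3 a36 u49 u32 hh
      have u53 : c 18 ≠ c 32 := fun hh => tr2 hh u46 u50
      tr2 u51 u52 u53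
  have k3637 : c 45 = c 14 → c 46 = c 14 → c 45 = c 23 → c 46 = c 23 → False := fun n0 n1 n2 n3 =>
      have u0 : c 33 ≠ c 46 := fun hh => X2.n13 a80 hh n3
      have u1 : c 33 ≠ c 14 := fun hh => tr3 hh n1 u0
      have u2 : c 45 ≠ c 33 := fun hh => X2.n12 a159 hh n2
      have u3 : c 33 ≠ c 23 := fun hh => X2.n23 a80 hh n3
      have u4 : c 21 ≠ c 45 := fun hh => X2.n13 a25 hh n0
      have u5 : c 32 ≠ c 45 := fun hh => k3625 hh n0 n1 n2 n3
      have u6 : c 32 ≠ c 14 := fun hh => tr3 hh n0 u5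
      have u7 : c 32 = c 33 := Classical.byContradiction fun hh => X2.n3 a79 hh u6 u1
      have u8 : c 13 ≠ c 33 := fun hh => k3514 u7 hh
      have u9 : c 33 ≠ c 15 := fun hh => k3548 u7 hh
      have u10 : c 31 ≠ c 21 := fun hh => k3633 hh n0 n1 n2 n3
      have u11 : c 31 = c 45 := Classical.byContradiction fun hh => X2.n3 a69 u10 hh u4
      have u12 : c 31 ≠ c 33 := fun hh => tr1 u11 hh u2
      have u13 : c 31 ≠ c 32 := fun hh => tr1 hh u11 u5
      have u14 : c 31 = c 13 := Classical.byContradiction fun hh => X2.n3 a66 hh u12 u8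
      have u15 : c 31 = c 15 := Classical.byContradiction fun hh => X2.n3 a73 u12 hh u9
      have u16 : c 45 = c 13 := Classical.byContradiction fun hh => tr1 u11 u14 hh
      have u17 : c 19 ≠ c 45 := fun hh => X2.n13 a24 hh u16
      have u18 : c 31 ≠ c 19 := fun hh => tr1 hh u11 u17
      have u19 : c 41 ≠ c 19 := fun hh => k3636 hh u13 u11 u10 u7 n2
      have u20 : c 41 = c 31 := Classical.byContradiction fun hh => X2.n3 a141 hh u19 u18
      have u21 : c 41 ≠ c 21 := fun hh => tr1 u20 hh u10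
      have u22 : c 41 ≠ c 33 := fun hh => tr1 u20 hh u12
      have u23 : c 41 = c 15 := Classical.byContradiction fun hh => tr2 u20 u15 hh
      have u24 : c 21 = c 33 := Classical.byContradiction fun hh => X2.n3 a139 u21 u22 hh
      have u25 : c 44 ≠ c 33 := fun hh => k3609 u5 u22 u11 u12 hh n0 u1 n2
      have u26 : c 41 ≠ c 23 := fun hh => X2.n12 a140 hh u23
      have u27 : c 44 ≠ c 21 := fun hh => tr2 hh u24 u25
      have u28 : c 44 = c 23 := Classical.byContradiction fun hh => X2.n3 a158 u25 hh u3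
      have u29 : c 41 ≠ c 44 := fun hh => tr2 hh u28 u26
      have u30 : c 31 = c 44 := Classical.byContradiction fun hh => X2.n3 a74 hh u10 u27
      tr2 u20 u30 u29
  have k3638 : c 41 = c 31 → c 31 ≠ c 33 → c 21 ≠ c 33 → c 31 ≠ c 21 → False := fun n0 n1 n2 n3 =>
      have u0 : c 41 ≠ c 21 := fun hh => tr1 n0 hh n3
      have u1 : c 41 ≠ c 33 := fun hh => tr1 n0 hh n1
      X2.n3 a139 u0 u1 n2
  have k3639 : c 13 ≠ c 33 → c 19 ≠ c 45 → c 19 = c 33 → c 31 ≠ c 33 → c 31 ≠ c 45 → False := fun n0 n1 n2 n3 n4 =>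
      have u0 : c 31 = c 13 := Classical.byContradiction fun hh => X2.n3 a66 hh n3 n0
      have u1 : c 19 ≠ c 13 := fun hh => tr1 hh n2 n0
      have u2 : c 45 ≠ c 13 := fun hh => tr3 u0 hh n4
      X2.n3 a24 n1 u1 u2
  have k3640 : c 19 = c 33 → c 1 ≠ c 23 → c 19 ≠ c 1 → c 19 ≠ c 46 → c 31 ≠ c 33 → c 31 = c 46 → c 31 ≠ c 45 → c 45 = c 23 → c 33 ≠ c 23 → False := fun n0 n1 n2 n3 n4 n5 n6 n7 n8 =>
      have u0 : c 45 ≠ c 33 := fun hh => X2.n12 a159 hh n7
      have u1 : c 19 ≠ c 45 := fun hh => tr1 hh n0 u0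
      have u2 : c 13 = c 33 := Classical.byContradiction fun hh => k3639 hh u1 n0 n4 n6
      have u3 : c 19 = c 13 := Classical.byContradiction fun hh => tr3 n0 u2 hh
      have u4 : c 19 ≠ c 44 := fun hh => X2.n12 a22 hh u3
      have u5 : c 44 ≠ c 33 := fun hh => tr3 n0 hh u4
      have u6 : c 44 = c 23 := Classical.byContradiction fun hh => X2.n3 a158 u5 hh n8
      have u7 : c 44 = c 45 := Classical.byContradiction fun hh => tr3 u6 n7 hh
      have u8 : c 28 ≠ c 19 := fun hh => k3617 hh n1 n2 u6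
      have u9 : c 31 ≠ c 44 := fun hh => tr2 hh u7 n6
      have u10 : c 28 = c 44 := Classical.byContradiction fun hh => X2.n3 a40 u8 hh u4
      have u11 : c 28 = c 46 := Classical.byContradiction fun hh => X2.n3 a42 u8 hh n3
      have u12 : c 28 ≠ c 31 := fun hh => tr1 hh u10 u9
      tr3 u11 n5 u12
  have k3641 : c 13 = c 33 → c 19 ≠ c 45 → c 19 ≠ c 33 → c 45 ≠ c 33 → False := fun n0 n1 n2 n3 =>
      have u0 : c 45 ≠ c 13 := fun hh => tr2 hh n0 n3
      have u1 : c 19 ≠ c 13 := fun hh => tr2 hh n0 n2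
      X2.n3 a24 n1 u1 u0
  have k3642 : c 19 ≠ c 45 → c 19 ≠ c 33 → c 31 ≠ c 19 → c 31 ≠ c 33 → c 31 ≠ c 45 → c 45 ≠ c 33 → False := fun n0 n1 n2 n3 n4 n5 =>
      have u0 : c 13 ≠ c 33 := fun hh => k3641 hh n0 n1 n5
      have u1 : c 31 = c 13 := Classical.byContradiction fun hh => X2.n3 a66 hh n3 u0
      have u2 : c 45 ≠ c 13 := fun hh => tr3 u1 hh n4
      have u3 : c 19 ≠ c 13 := fun hh => tr3 u1 hh n2
      X2.n3 a24 n0 u3 u2
  have k3643 : c 31 ≠ c 19 → c 46 = c 14 → c 45 = c 23 → c 46 = c 23 → False := fun n0 n1 n2 n3 =>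
      have u0 : c 21 ≠ c 14 := fun hh => X2.n23 a26 hh n1
      have u1 : c 45 ≠ c 14 := fun hh => k3637 hh n1 n2 n3
      have u2 : c 21 = c 45 := Classical.byContradiction fun hh => X2.n3 a25 hh u0 u1
      have u3 : c 31 ≠ c 21 := fun hh => X2.n13 a69 hh u2
      have u4 : c 45 ≠ c 33 := fun hh => X2.n12 a159 hh n2
      have u5 : c 21 ≠ c 33 := fun hh => tr1 u2 hh u4
      have u6 : c 33 ≠ c 46 := fun hh => X2.n13 a80 hh n3
      have u7 : c 21 ≠ c 46 := fun hh => X2.n13 a26 hh n1
      have u8 : c 31 = c 46 := Classical.byContradiction fun hh => X2.n3 a70 u3 hh u7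
      have u9 : c 31 ≠ c 33 := fun hh => tr1 hh u8 u6
      have u10 : c 41 ≠ c 31 := fun hh => k3638 hh u9 u5 u3
      have u11 : c 31 ≠ c 45 := fun hh => X2.n23 a69 hh u2
      have u12 : c 30 ≠ c 45 := fun hh => X2.n23 a58 hh u2
      have u13 : c 33 ≠ c 23 := fun hh => X2.n23 a80 hh n3
      have u14 : c 19 ≠ c 46 := fun hh => tr3 u8 hh n0
      have u15 : c 41 = c 19 := Classical.byContradiction fun hh => X2.n3 a141 u10 hh n0
      have u16 : c 30 ≠ c 19 := fun hh => X2.n23 a64 hh u15
      have u17 : c 19 ≠ c 1 := fun hh => k3536 u15 hh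
      have u18 : c 30 = c 1 := Classical.byContradiction fun hh => X2.n3 a57 u16 hh u17
      have u19 : c 1 ≠ c 45 := fun hh => tr2 u18 hh u12
      have u20 : c 1 ≠ c 23 := fun hh => tr3 hh n2 u19
      have u21 : c 19 ≠ c 33 := fun hh => k3640 hh u20 u17 u14 u9 u8 u11 n2 u13
      have u22 : c 19 = c 45 := Classical.byContradiction fun hh => k3642 hh u21 n0 u9 u11 u4
      have u23 : c 28 ≠ c 19 := fun hh => X2.n13 a41 hh u22
      have u24 : c 28 ≠ c 45 := fun hh => X2.n23 a41 hh u22
      have u25 : c 28 = c 46 := Classical.byContradiction fun hh => X2.n3 a42 u23 hh u14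
      have u26 : c 28 ≠ c 23 := fun hh => tr3 hh n2 u24
      tr2 u25 n3 u26
  have k3644 : c 46 = c 14 → c 45 = c 23 → c 46 = c 23 → False := fun n0 n1 n2 =>
      have u0 : c 45 ≠ c 33 := fun hh => X2.n12 a159 hh n1
      have u1 : c 33 ≠ c 46 := fun hh => X2.n13 a80 hh n2
      have u2 : c 21 ≠ c 46 := fun hh => X2.n13 a26 hh n0
      have u3 : c 21 ≠ c 14 := fun hh => X2.n23 a26 hh n0
      have u4 : c 45 ≠ c 14 := fun hh => k3637 hh n0 n1 n2
      have u5 : c 21 = c 45 := Classical.byContradiction fun hh => X2.n3 a25 hh u3 u4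
      have u6 : c 31 ≠ c 21 := fun hh => X2.n13 a69 hh u5
      have u7 : c 31 ≠ c 45 := fun hh => X2.n23 a69 hh u5
      have u8 : c 31 = c 46 := Classical.byContradiction fun hh => X2.n3 a70 u6 hh u2
      have u9 : c 31 ≠ c 33 := fun hh => tr1 hh u8 u1
      have u10 : c 31 = c 19 := Classical.byContradiction fun hh => k3643 hh n0 n1 n2
      have u11 : c 19 ≠ c 33 := fun hh => tr2 u10 hh u9
      have u12 : c 19 ≠ c 45 := fun hh => tr2 u10 hh u7
      have u13 : c 19 = c 46 := Classical.byContradiction fun hh => tr1 u10 u8 hh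
      have u14 : c 13 ≠ c 33 := fun hh => k3641 hh u12 u11 u0
      have u15 : c 19 ≠ c 13 := fun hh => X2.n12 a17 hh u13
      have u16 : c 31 = c 13 := Classical.byContradiction fun hh => X2.n3 a66 hh u9 u14
      tr1 u10 u16 u15
  have k3645 : c 41 = c 31 → c 19 ≠ c 33 → c 19 ≠ c 44 → c 44 = c 23 → c 31 = c 44 → c 31 ≠ c 33 → False := fun n0 n1 n2 n3 n4 n5 =>
      have u0 : c 41 = c 44 := Classical.byContradiction fun hh => tr2 n0 n4 hh
      have u1 : c 41 = c 23 := Classical.byContradiction fun hh => tr2 u0 n3 hh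
      have u2 : c 41 ≠ c 15 := fun hh => X2.n12 a140 u1 hh
      have u3 : c 44 ≠ c 15 := fun hh => tr2 u0 hh u2
      have u4 : c 31 ≠ c 15 := fun hh => tr2 n0 hh u2
      have u5 : c 19 = c 15 := Classical.byContradiction fun hh => X2.n3 a23 n2 hh u3
      have u6 : c 33 = c 15 := Classical.byContradiction fun hh => X2.n3 a73 n5 u4 hh
      tr3 u5 u6 n1
  have k3646 : c 31 ≠ c 15 → c 19 ≠ c 33 → c 19 ≠ c 44 → c 31 = c 44 → c 31 ≠ c 33 → False := fun n0 n1 n2 n3 n4 =>
      have u0 : c 33 = c 15 := Classical.byContradiction fun hh => X2.n3 a73 n4 n0 hh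
      have u1 : c 44 ≠ c 15 := fun hh => tr2 n3 hh n0
      have u2 : c 19 ≠ c 15 := fun hh => tr3 hh u0 n1
      X2.n3 a23 n2 u2 u1
  have k3647 : c 31 = c 2 → c 19 ≠ c 32 → c 31 ≠ c 32 → c 31 ≠ c 19 → False := fun n0 n1 n2 n3 =>
      have u0 : c 19 ≠ c 2 := fun hh => tr3 n0 hh n3
      have u1 : c 32 ≠ c 2 := fun hh => tr3 n0 hh n2
      X2.n3 a18 n1 u0 u1
  have k3648 : c 19 ≠ c 32 → c 32 ≠ c 21 → c 21 = c 33 → c 31 ≠ c 32 → c 19 ≠ c 33 → c 31 ≠ c 19 → c 31 ≠ c 21 → False := fun n0 n1 n2 n3 n4 n5 n6 =>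
      have u0 : c 31 ≠ c 2 := fun hh => k3647 hh n0 n3 n5
      have u1 : c 21 = c 2 := Classical.byContradiction fun hh => X2.n3 a68 n6 u0 hh
      have u2 : c 32 ≠ c 2 := fun hh => tr3 hh u1 n1
      have u3 : c 2 = c 33 := Classical.byContradiction fun hh => tr1 u1 n2 hh
      have u4 : c 19 = c 2 := Classical.byContradiction fun hh => X2.n3 a18 n0 hh u2
      tr2 u4 u3 n4
  have k3649 : c 21 = c 33 → c 18 ≠ c 11 → c 28 = c 19 → c 28 ≠ c 31 → c 32 ≠ c 33 → c 41 = c 19 → c 31 = c 13 → c 19 ≠ c 33 → c 31 ≠ c 19 → c 31 ≠ c 21 → False := fun n0 n1 n2 n3 n4 n5 n6 n7 n8 n9 =>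
      have u0 : c 19 ≠ c 11 := fun hh => X2.n13 a137 n5 hh
      have u1 : c 28 ≠ c 11 := fun hh => tr1 n2 hh u0
      have u2 : c 28 ≠ c 33 := fun hh => tr1 n2 hh n7
      have u3 : c 11 = c 33 := Classical.byContradiction fun hh => X2.n3 a37 u1 u2 hh
      have u4 : c 32 ≠ c 11 := fun hh => tr2 hh u3 n4
      have u5 : c 28 = c 41 := Classical.byContradiction fun hh => tr3 n2 n5 hh
      have u6 : c 18 ≠ c 41 := fun hh => X2.n23 a38 u5 hh
      have u7 : c 30 ≠ c 19 := fun hh => X2.n23 a64 hh n5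
      have u8 : c 19 ≠ c 1 := fun hh => k3536 n5 hh
      have u9 : c 30 = c 1 := Classical.byContradiction fun hh => X2.n3 a57 u7 hh u8
      have u10 : c 40 ≠ c 30 := fun hh => k3547 hh u9
      have u11 : c 40 = c 19 := Classical.byContradiction fun hh => X2.n3 a129 u10 hh u7
      have u12 : c 40 ≠ c 10 := fun hh => X2.n12 a125 u11 hh
      have u13 : c 31 = c 1 := Classical.byContradiction fun hh => X2.n3 a67 n8 hh u8
      have u14 : c 1 = c 13 := Classical.byContradiction fun hh => tr1 u13 n6 hh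
      have u15 : c 34 ≠ c 1 := fun hh => X2.n13 a81 hh u14
      have u16 : c 31 ≠ c 32 := fun hh => k3539 hh n6
      have u17 : c 32 ≠ c 1 := fun hh => tr3 u13 hh u16
      have u18 : c 26 ≠ c 31 := fun hh => k3551 hh u13
      have u19 : c 1 ≠ c 21 := fun hh => tr2 u13 hh n9
      have u20 : c 19 ≠ c 10 := fun hh => X2.n13 a136 n5 hh
      have u21 : c 41 ≠ c 11 := fun hh => X2.n12 a137 n5 hh
      have u22 : c 21 ≠ c 13 := fun hh => tr3 n6 hh n9
      have u23 : c 43 ≠ c 32 := fun hh => k3624 hh u22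
      have u24 : c 32 ≠ c 21 := fun hh => tr2 hh n0 n4
      have u25 : c 11 = c 21 := Classical.byContradiction fun hh => tr3 u3 n0 hh
      have u26 : c 43 = c 21 := Classical.byContradiction fun hh => X2.n3 a155 u23 hh u24
      have u27 : c 38 ≠ c 11 := fun hh => X2.n13 a105 hh u25
      have u28 : c 43 = c 11 := Classical.byContradiction fun hh => tr3 u26 u25 hh
      have u29 : c 43 ≠ c 1 := fun hh => tr1 hh u26 u19
      have u30 : c 19 ≠ c 43 := fun hh => tr2 hh u28 u0
      have u31 : c 19 = c 32 := Classical.byContradiction fun hh => k3648 hh u24 n0 u16 n7 n8 n9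
      have u32 : c 41 = c 32 := Classical.byContradiction fun hh => tr2 n5 u31 hh
      have u33 : c 10 ≠ c 32 := fun hh => tr3 u31 hh u20
      have u34 : c 29 ≠ c 32 := fun hh => k3574 hh u31 u29 u17 u24
      have u35 : c 28 = c 32 := Classical.byContradiction fun hh => tr2 n2 u31 hh
      have u36 : c 18 ≠ c 32 := fun hh => tr3 hh u32 u6
      have u37 : c 29 = c 10 := Classical.byContradiction fun hh => X2.n3 a48 hh u34 u33
      have u38 : c 29 ≠ c 19 := fun hh => tr2 hh u31 u34
      have u39 : c 29 = c 11 := Classical.byContradiction fun hh => X2.n3 a54 u34 hh u4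
      have u40 : c 28 ≠ c 9 := fun hh => X2.n12 a36 hh u35
      have u41 : c 18 = c 1 := Classical.byContradiction fun hh => X2.n3 a11 u36 hh u17
      have u42 : c 29 = c 43 := Classical.byContradiction fun hh => X2.n3 a51 u38 hh u30
      have u43 : c 29 = c 33 := Classical.byContradiction fun hh => tr2 u39 u3 hh
      have u44 : c 29 = c 21 := Classical.byContradiction fun hh => tr2 u39 u25 hh
      have u45 : c 29 ≠ c 18 := fun hh => tr1 hh u39 n1
      have u46 : c 38 ≠ c 29 := fun hh => tr2 hh u39 u27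
      have u47 : c 41 ≠ c 9 := fun hh => tr2 u5 hh u40
      have u48 : c 18 = c 13 := Classical.byContradiction fun hh => tr2 u41 u14 hh
      have u49 : c 18 = c 31 := Classical.byContradiction fun hh => tr3 u41 u13 hh
      have u50 : c 43 = c 10 := Classical.byContradiction fun hh => tr1 u42 u37 hh
      have u51 : c 29 ≠ c 12 := fun hh => X2.n12 a49 hh u43
      have u52 : c 10 = c 21 := Classical.byContradiction fun hh => tr1 u37 u44 hh
      have u53 : c 38 = c 18 := Classical.byContradiction fun hh => X2.n3 a112 u46 hh u45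
      have u54 : c 18 = c 9 := Classical.byContradiction fun hh => X2.n3 a13 u6 hh u47
      have u55 : c 43 ≠ c 12 := fun hh => tr2 u42 hh u51
      have u56 : c 18 ≠ c 8 := fun hh => X2.n13 a107 u53 hh
      have u57 : c 38 = c 13 := Classical.byContradiction fun hh => tr2 u53 u48 hh
      have u58 : c 34 ≠ c 9 := fun hh => k3512 hh u54
      have u59 : c 31 = c 9 := Classical.byContradiction fun hh => tr1 u49 u54 hh
      have u60 : c 19 = c 12 := Classical.byContradiction fun hh => X2.n3 a21 u30 hh u55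
      have u61 : c 31 ≠ c 8 := fun hh => tr2 u49 hh u56
      have u62 : c 4 ≠ c 13 := fun hh => X2.n23 a101 u57 hh
      have u63 : c 26 ≠ c 9 := fun hh => tr3 hh u59 u18
      have u64 : c 42 ≠ c 19 := fun hh => X2.n13 a145 hh u60
      have u65 : c 28 = c 8 := Classical.byContradiction fun hh => X2.n3 a43 n3 hh u61
      have u66 : c 31 ≠ c 4 := fun hh => tr1 hh n6 u62
      have u67 : c 34 = c 26 := Classical.byContradiction fun hh => X2.n3 a86 hh u58 u63
      have u68 : c 29 = c 42 := Classical.byContradiction fun hh => X2.n3 a55 hh u38 u64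
      have u69 : c 8 = c 19 := Classical.byContradiction fun hh => tr1 u65 n2 hh
      have u70 : c 26 = c 4 := Classical.byContradiction fun hh => X2.n3 a32 u18 hh u66
      have u71 : c 42 = c 43 := Classical.byContradiction fun hh => tr1 u68 u42 hh
      have u72 : c 37 ≠ c 19 := fun hh => X2.n23 a95 hh u69
      have u73 : c 34 = c 4 := Classical.byContradiction fun hh => tr2 u67 u70 hh
      have u74 : c 42 ≠ c 27 := fun hh => X2.n12 a149 u71 hh
      have u75 : c 43 ≠ c 27 := fun hh => X2.n13 a149 u71 hh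
      have u76 : c 37 = c 33 := Classical.byContradiction fun hh => X2.n3 a98 u72 hh n7
      have u77 : c 37 ≠ c 40 := fun hh => tr2 hh u11 u72
      have u78 : c 34 ≠ c 21 := fun hh => X2.n12 a82 u73 hh
      have u79 : c 4 ≠ c 21 := fun hh => X2.n13 a82 u73 hh
      have u80 : c 29 ≠ c 27 := fun hh => tr1 u68 hh u74
      have u81 : c 10 ≠ c 27 := fun hh => tr2 u50 hh u75
      have u82 : c 37 = c 11 := Classical.byContradiction fun hh => tr3 u76 u3 hh
      have u83 : c 34 ≠ c 10 := fun hh => tr2 hh u52 u78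
      have u84 : c 4 ≠ c 11 := fun hh => tr2 hh u25 u79
      have u85 : c 29 ≠ c 4 := fun hh => tr1 hh u44 u79
      have u86 : c 10 ≠ c 4 := fun hh => tr1 hh u52 u79
      have u87 : c 34 = c 27 := Classical.byContradiction fun hh => X2.n3 a83 u83 hh u81
      have u88 : c 41 = c 4 := Classical.byContradiction fun hh => X2.n3 a132 hh u21 u84
      have u89 : c 4 = c 27 := Classical.byContradiction fun hh => X2.n3 a47 u85 u80 hh
      have u90 : c 40 = c 4 := Classical.byContradiction fun hh => X2.n3 a122 u12 hh u86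
      have u91 : c 1 ≠ c 27 := fun hh => tr3 u87 hh u15
      have u92 : c 32 = c 4 := Classical.byContradiction fun hh => tr1 u32 u88 hh
      have u93 : c 25 ≠ c 4 := fun hh => X2.n23 a28 hh u92
      have u94 : c 40 ≠ c 25 := fun hh => tr1 hh u90 u93
      have u95 : c 25 ≠ c 27 := fun hh => tr3 hh u89 u93
      have u96 : c 37 = c 25 := Classical.byContradiction fun hh => X2.n3 a100 u77 hh u94
      have u97 : c 25 = c 1 := Classical.byContradiction fun hh => X2.n3 a27 hh u95 u91
      have u98 : c 25 = c 11 := Classical.byContradiction fun hh => tr1 u96 u82 hh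
      have u99 : c 25 ≠ c 21 := fun hh => tr1 u97 hh u19
      tr2 u98 u25 u99
  have k3650 : c 19 ≠ c 33 → c 19 ≠ c 45 → c 21 = c 14 → c 31 ≠ c 21 → c 31 ≠ c 33 → c 45 = c 23 → False := fun n0 n1 n2 n3 n4 n5 =>
      have u0 : c 21 ≠ c 45 := fun hh => X2.n12 a25 hh n2
      have u1 : c 31 = c 45 := Classical.byContradiction fun hh => X2.n3 a69 n3 hh u0
      have u2 : c 44 ≠ c 21 := fun hh => X2.n13 a157 hh n2
      have u3 : c 31 = c 44 := Classical.byContradiction fun hh => X2.n3 a74 hh n3 u2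
      have u4 : c 44 = c 45 := Classical.byContradiction fun hh => tr1 u3 u1 hh
      have u5 : c 19 ≠ c 44 := fun hh => tr2 hh u4 n1
      have u6 : c 31 ≠ c 19 := fun hh => tr1 hh u1 n1
      have u7 : c 44 = c 23 := Classical.byContradiction fun hh => tr2 u4 n5 hh
      have u8 : c 45 ≠ c 33 := fun hh => X2.n12 a159 hh n5
      have u9 : c 13 ≠ c 33 := fun hh => k3641 hh n1 n0 u8
      have u10 : c 31 = c 13 := Classical.byContradiction fun hh => X2.n3 a66 hh n4 u9
      have u11 : c 31 ≠ c 32 := fun hh => k3539 hh u10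
      have u12 : c 41 ≠ c 31 := fun hh => k3645 hh n0 u5 u7 u3 n4
      have u13 : c 41 = c 19 := Classical.byContradiction fun hh => X2.n3 a141 u12 hh u6
      have u14 : c 19 ≠ c 11 := fun hh => X2.n13 a137 u13 hh
      have u15 : c 30 ≠ c 19 := fun hh => X2.n23 a64 hh u13
      have u16 : c 19 ≠ c 1 := fun hh => k3536 u13 hh
      have u17 : c 32 ≠ c 33 := fun hh => k3636 u13 u11 u1 n3 hh n5
      have u18 : c 41 ≠ c 33 := fun hh => tr1 u13 hh n0
      have u19 : c 30 = c 1 := Classical.byContradiction fun hh => X2.n3 a57 u15 hh u16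
      have u20 : c 31 = c 1 := Classical.byContradiction fun hh => X2.n3 a67 u6 hh u16
      have u21 : c 40 ≠ c 30 := fun hh => k3547 hh u19
      have u22 : c 1 = c 45 := Classical.byContradiction fun hh => tr1 u20 u1 hh
      have u23 : c 1 ≠ c 33 := fun hh => tr2 u20 hh n4
      have u24 : c 32 ≠ c 1 := fun hh => tr3 u20 hh u11
      have u25 : c 40 = c 19 := Classical.byContradiction fun hh => X2.n3 a129 u21 hh u15
      have u26 : c 1 = c 23 := Classical.byContradiction fun hh => tr2 u22 n5 hh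
      have u27 : c 18 ≠ c 33 := fun hh => k3619 hh u23 u24 u17
      have u28 : c 40 ≠ c 33 := fun hh => tr1 u25 hh n0
      have u29 : c 28 ≠ c 1 := fun hh => X2.n13 a35 hh u26
      have u30 : c 28 ≠ c 31 := fun hh => tr2 hh u20 u29
      have u31 : c 28 ≠ c 45 := fun hh => tr3 hh u22 u29
      have u32 : c 28 = c 19 := Classical.byContradiction fun hh => X2.n3 a41 hh u31 n1
      have u33 : c 28 = c 41 := Classical.byContradiction fun hh => tr3 u32 u13 hh
      have u34 : c 28 ≠ c 11 := fun hh => tr1 u32 hh u14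
      have u35 : c 28 ≠ c 33 := fun hh => tr1 u32 hh n0
      have u36 : c 18 ≠ c 41 := fun hh => X2.n23 a38 u33 hh
      have u37 : c 11 = c 33 := Classical.byContradiction fun hh => X2.n3 a37 u34 u35 hh
      have u38 : c 18 ≠ c 11 := fun hh => tr2 hh u37 u27
      have u39 : c 21 ≠ c 33 := fun hh => k3649 hh u38 u32 u30 u17 u13 u10 n0 u6 n3
      have u40 : c 33 ≠ c 14 := fun hh => tr3 n2 hh u39
      have u41 : c 40 = c 21 := Classical.byContradiction fun hh => X2.n3 a127 hh u28 u39
      have u42 : c 41 = c 21 := Classical.byContradiction fun hh => X2.n3 a139 hh u18 u39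
      have u43 : c 32 = c 14 := Classical.byContradiction fun hh => X2.n3 a79 u17 hh u40
      have u44 : c 12 ≠ c 21 := fun hh => X2.n23 a123 u41 hh
      have u45 : c 32 = c 21 := Classical.byContradiction fun hh => tr3 u43 n2 hh
      have u46 : c 41 = c 32 := Classical.byContradiction fun hh => tr3 u42 u45 hh
      have u47 : c 32 ≠ c 12 := fun hh => tr1 hh u45 u44
      have u48 : c 18 ≠ c 32 := fun hh => tr3 hh u46 u36
      have u49 : c 31 = c 12 := Classical.byContradiction fun hh => X2.n3 a72 u11 hh u47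
      have u50 : c 18 = c 1 := Classical.byContradiction fun hh => X2.n3 a11 u48 hh u24
      have u51 : c 12 = c 45 := Classical.byContradiction fun hh => tr1 u49 u1 hh
      have u52 : c 18 = c 45 := Classical.byContradiction fun hh => tr2 u50 u22 hh
      X2.n23 a9 u52 u51
  have k3651 : c 21 ≠ c 33 → c 32 ≠ c 33 → c 31 = c 13 → c 19 = c 33 → c 31 ≠ c 19 → c 31 ≠ c 21 → c 31 ≠ c 33 → False := fun n0 n1 n2 n3 n4 n5 n6 =>
      have u0 : c 31 ≠ c 32 := fun hh => k3539 hh n2
      have u1 : c 19 ≠ c 32 := fun hh => tr1 hh n3 n1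
      have u2 : c 31 ≠ c 2 := fun hh => k3647 hh u1 u0 n4
      have u3 : c 21 = c 2 := Classical.byContradiction fun hh => X2.n3 a68 n5 u2 hh
      have u4 : c 21 ≠ c 13 := fun hh => tr3 n2 hh n5
      have u5 : c 41 ≠ c 31 := fun hh => k3638 hh n6 n0 n5
      have u6 : c 2 ≠ c 33 := fun hh => tr2 u3 hh n0
      have u7 : c 32 = c 21 := Classical.byContradiction fun hh => k3613 u3 n0 n3 u1 hh
      have u8 : c 41 = c 19 := Classical.byContradiction fun hh => X2.n3 a141 u5 hh n4
      have u9 : c 43 ≠ c 21 := fun hh => X2.n23 a155 hh u7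
      have u10 : c 32 = c 2 := Classical.byContradiction fun hh => tr2 u7 u3 hh
      have u11 : c 30 ≠ c 19 := fun hh => X2.n23 a64 hh u8
      have u12 : c 19 ≠ c 1 := fun hh => k3536 u8 hh
      have u13 : c 43 = c 13 := Classical.byContradiction fun hh => X2.n3 a154 u9 hh u4
      have u14 : c 43 ≠ c 2 := fun hh => tr3 hh u3 u9
      have u15 : c 30 = c 1 := Classical.byContradiction fun hh => X2.n3 a57 u11 hh u12
      have u16 : c 31 = c 1 := Classical.byContradiction fun hh => X2.n3 a67 n4 hh u12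
      have u17 : c 1 ≠ c 33 := fun hh => tr3 n3 hh u12
      have u18 : c 31 = c 43 := Classical.byContradiction fun hh => tr3 n2 u13 hh
      have u19 : c 30 = c 31 := Classical.byContradiction fun hh => tr3 u15 u16 hh
      have u20 : c 1 ≠ c 21 := fun hh => tr2 u16 hh n5
      have u21 : c 32 ≠ c 1 := fun hh => tr3 u16 hh u0
      have u22 : c 31 ≠ c 11 := fun hh => X2.n13 a61 u19 hh
      have u23 : c 18 ≠ c 33 := fun hh => k3619 hh u17 u21 n1
      have u24 : c 43 ≠ c 11 := fun hh => tr2 u18 hh u22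
      have u25 : c 18 = c 2 := Classical.byContradiction fun hh => X2.n3 a8 hh u23 u6
      have u26 : c 18 ≠ c 43 := fun hh => tr1 hh u25 u14
      have u27 : c 18 = c 32 := Classical.byContradiction fun hh => tr3 u25 u10 hh
      have u28 : c 18 = c 11 := Classical.byContradiction fun hh => X2.n3 a15 u26 hh u24
      have u29 : c 32 = c 11 := Classical.byContradiction fun hh => tr1 u27 u28 hh
      have u30 : c 29 ≠ c 32 := fun hh => X2.n13 a54 hh u29
      have u31 : c 11 = c 21 := Classical.byContradiction fun hh => tr1 u29 u7 hh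
      have u32 : c 29 ≠ c 21 := fun hh => tr3 hh u7 u30
      have u33 : c 29 ≠ c 18 := fun hh => tr2 hh u27 u30
      have u34 : c 38 ≠ c 11 := fun hh => X2.n13 a105 hh u31
      have u35 : c 29 = c 1 := Classical.byContradiction fun hh => X2.n3 a44 hh u32 u20
      have u36 : c 38 ≠ c 32 := fun hh => tr2 hh u29 u34
      have u37 : c 38 ≠ c 18 := fun hh => tr2 hh u28 u34
      have u38 : c 29 ≠ c 19 := fun hh => tr1 hh u35 u12
      have u39 : c 38 = c 19 := Classical.byContradiction fun hh => X2.n3 a108 hh u36 u1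
      have u40 : c 38 = c 29 := Classical.byContradiction fun hh => X2.n3 a112 hh u37 u33
      tr1 u40 u39 u38
  have k3652 : c 32 ≠ c 33 → c 31 = c 13 → c 19 = c 33 → c 31 ≠ c 19 → c 31 ≠ c 21 → c 31 ≠ c 33 → False := fun n0 n1 n2 n3 n4 n5 =>
      have u0 : c 21 ≠ c 13 := fun hh => tr3 n1 hh n4
      have u1 : c 43 ≠ c 32 := fun hh => k3624 hh u0
      have u2 : c 31 ≠ c 32 := fun hh => k3539 hh n1
      have u3 : c 19 ≠ c 32 := fun hh => tr1 hh n2 n0
      have u4 : c 31 ≠ c 2 := fun hh => k3647 hh u3 u2 n3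
      have u5 : c 21 = c 2 := Classical.byContradiction fun hh => X2.n3 a68 n4 u4 hh
      have u6 : c 21 = c 33 := Classical.byContradiction fun hh => k3651 hh n0 n1 n2 n3 n4 n5
      have u7 : c 40 ≠ c 33 := fun hh => X2.n23 a127 hh u6
      have u8 : c 32 ≠ c 21 := fun hh => tr2 hh u6 n0
      have u9 : c 2 = c 33 := Classical.byContradiction fun hh => tr1 u5 u6 hh
      have u10 : c 40 ≠ c 19 := fun hh => tr2 hh n2 u7
      have u11 : c 43 = c 21 := Classical.byContradiction fun hh => X2.n3 a155 u1 hh u8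
      have u12 : c 19 = c 2 := Classical.byContradiction fun hh => tr3 n2 u9 hh
      have u13 : c 40 = c 31 := Classical.byContradiction fun hh => X2.n3 a130 hh u10 n3
      have u14 : c 43 = c 2 := Classical.byContradiction fun hh => tr2 u11 u5 hh
      have u15 : c 31 ≠ c 1 := fun hh => k3523 u13 hh
      have u16 : c 43 ≠ c 1 := fun hh => X2.n12 a150 hh u14
      have u17 : c 19 = c 43 := Classical.byContradiction fun hh => tr3 u12 u14 hh
      have u18 : c 19 = c 1 := Classical.byContradiction fun hh => X2.n3 a67 n3 u15 hh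
      tr1 u17 u18 u16
  have k3653 : c 31 = c 13 → c 19 ≠ c 45 → c 21 = c 14 → c 31 ≠ c 21 → c 31 ≠ c 33 → c 45 = c 23 → False := fun n0 n1 n2 n3 n4 n5 =>
      have u0 : c 19 = c 33 := Classical.byContradiction fun hh => k3650 hh n1 n2 n3 n4 n5
      have u1 : c 21 ≠ c 45 := fun hh => X2.n12 a25 hh n2
      have u2 : c 31 = c 45 := Classical.byContradiction fun hh => X2.n3 a69 n3 hh u1
      have u3 : c 31 ≠ c 19 := fun hh => tr1 hh u2 n1
      have u4 : c 31 ≠ c 32 := fun hh => k3539 hh n0
      have u5 : c 32 = c 33 := Classical.byContradiction fun hh => k3652 hh n0 u0 u3 n3 n4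
      have u6 : c 33 ≠ c 14 := fun hh => X2.n13 a79 u5 hh
      have u7 : c 41 ≠ c 19 := fun hh => k3636 hh u4 u2 n3 u5 n5
      have u8 : c 21 ≠ c 33 := fun hh => tr1 hh n2 u6
      have u9 : c 41 = c 31 := Classical.byContradiction fun hh => X2.n3 a141 hh u7 u3
      k3638 u9 n4 u8 n3
  have k3654 : c 21 ≠ c 33 → c 31 ≠ c 2 → c 19 = c 13 → c 13 = c 33 → c 19 = c 33 → c 31 ≠ c 19 → c 31 ≠ c 21 → c 31 ≠ c 33 → False := fun n0 n1 n2 n3 n4 n5 n6 n7 =>
      have u0 : c 21 = c 2 := Classical.byContradiction fun hh => X2.n3 a68 n6 n1 hh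
      have u1 : c 19 ≠ c 32 := fun hh => k3560 hh n2
      have u2 : c 41 ≠ c 31 := fun hh => k3638 hh n7 n0 n6
      have u3 : c 32 = c 21 := Classical.byContradiction fun hh => k3613 u0 n0 n4 u1 hh
      have u4 : c 21 ≠ c 13 := fun hh => tr2 hh n3 n0
      have u5 : c 41 = c 19 := Classical.byContradiction fun hh => X2.n3 a141 u2 hh n5
      have u6 : c 43 ≠ c 21 := fun hh => X2.n23 a155 hh u3
      have u7 : c 19 ≠ c 1 := fun hh => k3536 u5 hh
      have u8 : c 43 = c 13 := Classical.byContradiction fun hh => X2.n3 a154 u6 hh u4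
      have u9 : c 43 ≠ c 2 := fun hh => tr3 hh u0 u6
      have u10 : c 31 = c 1 := Classical.byContradiction fun hh => X2.n3 a67 n5 hh u7
      have u11 : c 1 ≠ c 13 := fun hh => tr3 n2 hh u7
      have u12 : c 1 ≠ c 2 := fun hh => tr2 u10 hh n1
      have u13 : c 43 ≠ c 1 := fun hh => tr1 hh u8 u11
      X2.n3 a150 u13 u9 u12
  have k3655 : c 31 ≠ c 32 → c 19 = c 13 → c 13 = c 33 → c 19 = c 33 → c 31 ≠ c 19 → c 31 = c 45 → c 31 ≠ c 21 → c 31 ≠ c 33 → False := fun n0 n1 n2 n3 n4 n5 n6 n7 =>
      have u0 : c 19 ≠ c 32 := fun hh => k3560 hh n1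
      have u1 : c 32 ≠ c 33 := fun hh => k3514 hh n2
      have u2 : c 33 ≠ c 3 := fun hh => X2.n13 a19 n3 hh
      have u3 : c 19 ≠ c 3 := fun hh => X2.n12 a19 n3 hh
      have u4 : c 32 ≠ c 45 := fun hh => tr3 n5 hh n0
      have u5 : c 31 ≠ c 2 := fun hh => k3647 hh u0 n0 n4
      have u6 : c 21 = c 33 := Classical.byContradiction fun hh => k3654 hh u5 n1 n2 n3 n4 n6 n7
      have u7 : c 40 ≠ c 33 := fun hh => X2.n23 a127 hh u6
      have u8 : c 32 ≠ c 21 := fun hh => tr2 hh u6 u1
      have u9 : c 21 ≠ c 3 := fun hh => tr1 u6 hh u2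
      have u10 : c 40 ≠ c 19 := fun hh => tr2 hh n3 u7
      have u11 : c 32 = c 3 := Classical.byContradiction fun hh => X2.n3 a75 u8 hh u9
      have u12 : c 40 = c 31 := Classical.byContradiction fun hh => X2.n3 a130 hh u10 n4
      have u13 : c 45 ≠ c 3 := fun hh => tr3 u11 hh u4
      have u14 : c 31 ≠ c 1 := fun hh => k3523 u12 hh
      have u15 : c 1 ≠ c 45 := fun hh => tr3 n5 hh u14
      have u16 : c 19 = c 1 := Classical.byContradiction fun hh => X2.n3 a67 n4 u14 hh
      have u17 : c 1 = c 3 := Classical.byContradiction fun hh => X2.n3 a0 u15 hh u13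
      tr2 u16 u17 u3
  have k3656 : c 19 ≠ c 45 → c 21 = c 14 → c 31 ≠ c 21 → c 31 ≠ c 33 → c 45 = c 23 → False := fun n0 n1 n2 n3 n4 =>
      have u0 : c 21 ≠ c 45 := fun hh => X2.n12 a25 hh n1
      have u1 : c 31 = c 45 := Classical.byContradiction fun hh => X2.n3 a69 n2 hh u0
      have u2 : c 44 ≠ c 21 := fun hh => X2.n13 a157 hh n1
      have u3 : c 31 = c 44 := Classical.byContradiction fun hh => X2.n3 a74 hh n2 u2
      have u4 : c 44 = c 45 := Classical.byContradiction fun hh => tr1 u3 u1 hh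
      have u5 : c 45 ≠ c 14 := fun hh => X2.n23 a25 n1 hh
      have u6 : c 31 ≠ c 19 := fun hh => tr1 hh u1 n0
      have u7 : c 19 ≠ c 44 := fun hh => tr2 hh u4 n0
      have u8 : c 19 = c 33 := Classical.byContradiction fun hh => k3650 hh n0 n1 n2 n3 n4
      have u9 : c 31 ≠ c 13 := fun hh => k3653 hh n0 n1 n2 n3 n4
      have u10 : c 45 ≠ c 13 := fun hh => tr2 u1 hh u9
      have u11 : c 13 = c 33 := Classical.byContradiction fun hh => X2.n3 a66 u9 n3 hh
      have u12 : c 19 = c 13 := Classical.byContradiction fun hh => X2.n3 a24 n0 hh u10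
      have u13 : c 30 ≠ c 13 := fun hh => X2.n13 a56 hh u11
      have u14 : c 30 ≠ c 33 := fun hh => X2.n23 a56 hh u11
      have u15 : c 32 ≠ c 33 := fun hh => k3514 hh u11
      have u16 : c 19 ≠ c 32 := fun hh => k3560 hh u12
      have u17 : c 30 ≠ c 19 := fun hh => tr2 hh u12 u13
      have u18 : c 31 = c 32 := Classical.byContradiction fun hh => k3655 hh u12 u11 u8 u6 u1 n2 n3
      have u19 : c 31 ≠ c 12 := fun hh => X2.n12 a72 u18 hh
      have u20 : c 32 ≠ c 12 := fun hh => X2.n13 a72 u18 hh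
      have u21 : c 32 = c 45 := Classical.byContradiction fun hh => tr1 u18 u1 hh
      have u22 : c 12 ≠ c 45 := fun hh => tr3 u1 hh u19
      have u23 : c 32 ≠ c 14 := fun hh => tr1 u21 hh u5
      have u24 : c 12 ≠ c 23 := fun hh => tr3 hh n4 u22
      have u25 : c 33 = c 14 := Classical.byContradiction fun hh => X2.n3 a79 u15 u23 hh
      have u26 : c 21 = c 33 := Classical.byContradiction fun hh => tr3 n1 u25 hh
      have u27 : c 40 ≠ c 21 := fun hh => X2.n13 a127 hh u26
      have u28 : c 40 ≠ c 33 := fun hh => X2.n23 a127 hh u26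
      have u29 : c 41 ≠ c 33 := fun hh => X2.n23 a139 hh u26
      have u30 : c 21 = c 13 := Classical.byContradiction fun hh => tr3 u26 u11 hh
      have u31 : c 30 ≠ c 21 := fun hh => tr2 hh u26 u14
      have u32 : c 40 ≠ c 19 := fun hh => tr2 hh u8 u28
      have u33 : c 41 ≠ c 19 := fun hh => tr2 hh u8 u29
      have u34 : c 43 ≠ c 13 := fun hh => X2.n23 a154 hh u30
      have u35 : c 43 = c 32 := Classical.byContradiction fun hh => k3580 u30 hh
      have u36 : c 30 = c 45 := Classical.byContradiction fun hh => X2.n3 a58 u31 hh u0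
      have u37 : c 30 = c 44 := Classical.byContradiction fun hh => X2.n3 a65 hh u31 u2
      have u38 : c 40 = c 31 := Classical.byContradiction fun hh => X2.n3 a130 hh u32 u6
      have u39 : c 40 = c 30 := Classical.byContradiction fun hh => X2.n3 a129 hh u32 u17
      have u40 : c 41 = c 31 := Classical.byContradiction fun hh => X2.n3 a141 hh u33 u6
      have u41 : c 30 = c 41 := Classical.byContradiction fun hh => X2.n3 a64 hh u17 u33
      have u42 : c 19 ≠ c 43 := fun hh => tr1 hh u12 u34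
      have u43 : c 31 = c 43 := Classical.byContradiction fun hh => tr3 u18 u35 hh
      have u44 : c 43 ≠ c 12 := fun hh => tr1 u35 hh u20
      have u45 : c 30 = c 31 := Classical.byContradiction fun hh => tr3 u36 u1 hh
      have u46 : c 30 = c 32 := Classical.byContradiction fun hh => tr3 u36 u21 hh
      have u47 : c 41 = c 44 := Classical.byContradiction fun hh => tr1 u41 u37 hh
      have u48 : c 31 ≠ c 1 := fun hh => k3523 u38 hh
      have u49 : c 40 ≠ c 12 := fun hh => tr1 u38 hh u19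
      have u50 : c 30 ≠ c 1 := fun hh => k3547 u39 hh
      have u51 : c 41 = c 32 := Classical.byContradiction fun hh => tr2 u40 u18 hh
      have u52 : c 43 ≠ c 1 := fun hh => tr2 u43 hh u48
      have u53 : c 19 = c 12 := Classical.byContradiction fun hh => X2.n3 a21 u42 hh u44
      have u54 : c 30 ≠ c 11 := fun hh => X2.n12 a61 u45 hh
      have u55 : c 32 ≠ c 1 := fun hh => tr2 u46 hh u50
      have u56 : c 32 ≠ c 11 := fun hh => tr2 u46 hh u54
      have u57 : c 12 = c 21 := Classical.byContradiction fun hh => X2.n3 a123 u49 u27 hh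
      have u58 : c 41 ≠ c 11 := fun hh => tr1 u51 hh u56
      have u59 : c 12 = c 33 := Classical.byContradiction fun hh => tr1 u53 u8 hh
      have u60 : c 19 = c 11 := Classical.byContradiction fun hh => X2.n3 a137 u33 u58 hh
      have u61 : c 29 ≠ c 12 := fun hh => X2.n13 a49 hh u59
      have u62 : c 29 ≠ c 33 := fun hh => X2.n23 a49 hh u59
      have u63 : c 11 = c 33 := Classical.byContradiction fun hh => tr1 u60 u8 hh
      have u64 : c 29 ≠ c 19 := fun hh => tr2 hh u53 u61
      have u65 : c 29 ≠ c 11 := fun hh => tr2 hh u63 u62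
      have u66 : c 28 ≠ c 11 := fun hh => X2.n13 a37 hh u63
      have u67 : c 11 = c 21 := Classical.byContradiction fun hh => tr3 u63 u26 hh
      have u68 : c 29 = c 43 := Classical.byContradiction fun hh => X2.n3 a51 u64 hh u42
      have u69 : c 29 = c 32 := Classical.byContradiction fun hh => X2.n3 a54 hh u65 u56
      have u70 : c 28 ≠ c 19 := fun hh => tr2 hh u60 u66
      have u71 : c 38 ≠ c 11 := fun hh => X2.n13 a105 hh u67
      have u72 : c 38 ≠ c 21 := fun hh => X2.n23 a105 hh u67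
      have u73 : c 28 = c 45 := Classical.byContradiction fun hh => X2.n3 a41 u70 hh n0
      have u74 : c 28 = c 44 := Classical.byContradiction fun hh => X2.n3 a40 u70 hh u7
      have u75 : c 38 ≠ c 19 := fun hh => tr2 hh u60 u71
      have u76 : c 38 ≠ c 12 := fun hh => tr2 hh u57 u72
      have u77 : c 28 = c 32 := Classical.byContradiction fun hh => tr3 u73 u21 hh
      have u78 : c 28 = c 41 := Classical.byContradiction fun hh => tr3 u74 u47 hh
      have u79 : c 38 = c 32 := Classical.byContradiction fun hh => X2.n3 a108 u75 hh u16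
      have u80 : c 38 = c 23 := Classical.byContradiction fun hh => X2.n3 a106 u76 hh u24
      have u81 : c 28 ≠ c 18 := fun hh => X2.n12 a38 hh u78
      have u82 : c 38 = c 29 := Classical.byContradiction fun hh => tr3 u79 u69 hh
      have u83 : c 18 ≠ c 45 := fun hh => tr3 u73 hh u81
      have u84 : c 18 ≠ c 32 := fun hh => tr3 u77 hh u81
      have u85 : c 29 = c 23 := Classical.byContradiction fun hh => tr1 u82 u80 hh
      have u86 : c 18 = c 12 := Classical.byContradiction fun hh => X2.n3 a9 hh u83 u22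
      have u87 : c 18 = c 1 := Classical.byContradiction fun hh => X2.n3 a11 u84 hh u55
      have u88 : c 29 ≠ c 2 := fun hh => X2.n12 a46 hh u85
      have u89 : c 18 = c 33 := Classical.byContradiction fun hh => tr2 u86 u59 hh
      have u90 : c 43 ≠ c 2 := fun hh => tr2 u68 hh u88
      have u91 : c 18 ≠ c 2 := fun hh => X2.n12 a8 hh u89
      have u92 : c 1 = c 2 := Classical.byContradiction fun hh => X2.n3 a150 u52 u90 hh
      tr2 u87 u92 u91
  have k3657 : c 31 = c 46 → c 31 ≠ c 33 → c 46 ≠ c 14 → c 45 = c 23 → False := fun n0 n1 n2 n3 =>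
      have u0 : c 31 ≠ c 21 := fun hh => X2.n12 a70 hh n0
      have u1 : c 21 ≠ c 46 := fun hh => X2.n23 a70 n0 hh
      have u2 : c 21 = c 14 := Classical.byContradiction fun hh => X2.n3 a26 u1 hh n2
      have u3 : c 44 ≠ c 21 := fun hh => X2.n13 a157 hh u2
      have u4 : c 21 ≠ c 45 := fun hh => X2.n12 a25 hh u2
      have u5 : c 31 = c 44 := Classical.byContradiction fun hh => X2.n3 a74 hh u0 u3
      have u6 : c 31 = c 45 := Classical.byContradiction fun hh => X2.n3 a69 u0 hh u4
      have u7 : c 44 = c 45 := Classical.byContradiction fun hh => tr1 u5 u6 hh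
      have u8 : c 44 = c 23 := Classical.byContradiction fun hh => tr2 u7 n3 hh
      have u9 : c 19 = c 45 := Classical.byContradiction fun hh => k3656 hh u2 u0 n1 n3
      have u10 : c 19 ≠ c 13 := fun hh => X2.n12 a24 u9 hh
      have u11 : c 28 ≠ c 45 := fun hh => X2.n23 a41 hh u9
      have u12 : c 31 = c 19 := Classical.byContradiction fun hh => tr3 u6 u9 hh
      have u13 : c 19 = c 44 := Classical.byContradiction fun hh => tr3 u9 u7 hh
      have u14 : c 31 ≠ c 13 := fun hh => tr1 u12 hh u10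
      have u15 : c 28 ≠ c 23 := fun hh => tr3 hh n3 u11
      have u16 : c 31 ≠ c 1 := fun hh => X2.n12 a67 u12 hh
      have u17 : c 19 ≠ c 1 := fun hh => X2.n13 a67 u12 hh
      have u18 : c 41 ≠ c 19 := fun hh => X2.n23 a141 hh u12
      have u19 : c 40 ≠ c 19 := fun hh => X2.n23 a130 hh u12
      have u20 : c 19 ≠ c 15 := fun hh => X2.n12 a23 u13 hh
      have u21 : c 44 ≠ c 15 := fun hh => X2.n13 a23 u13 hh
      have u22 : c 41 ≠ c 44 := fun hh => tr3 hh u13 u18
      have u23 : c 13 = c 33 := Classical.byContradiction fun hh => X2.n3 a66 u14 n1 hh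
      have u24 : c 1 ≠ c 45 := fun hh => tr3 u6 hh u16
      have u25 : c 31 ≠ c 15 := fun hh => tr1 u12 hh u20
      have u26 : c 23 ≠ c 15 := fun hh => tr2 u8 hh u21
      have u27 : c 41 ≠ c 23 := fun hh => tr3 hh u8 u22
      have u28 : c 32 ≠ c 33 := fun hh => k3514 hh u23
      have u29 : c 1 ≠ c 23 := fun hh => tr3 hh n3 u24
      have u30 : c 33 = c 15 := Classical.byContradiction fun hh => X2.n3 a73 n1 u25 hh
      have u31 : c 41 = c 15 := Classical.byContradiction fun hh => X2.n3 a140 u27 hh u26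
      have u32 : c 28 = c 1 := Classical.byContradiction fun hh => X2.n3 a35 hh u15 u29
      have u33 : c 30 ≠ c 15 := fun hh => X2.n23 a63 hh u30
      have u34 : c 41 = c 33 := Classical.byContradiction fun hh => tr3 u31 u30 hh
      have u35 : c 30 ≠ c 41 := fun hh => tr2 hh u31 u33
      have u36 : c 40 ≠ c 28 := fun hh => k3508 hh u32
      have u37 : c 21 ≠ c 33 := fun hh => X2.n23 a139 u34 hh
      have u38 : c 1 ≠ c 33 := fun hh => k3542 u34 hh
      have u39 : c 41 = c 13 := Classical.byContradiction fun hh => tr3 u34 u23 hh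
      have u40 : c 30 = c 19 := Classical.byContradiction fun hh => X2.n3 a64 u35 hh u18
      have u41 : c 33 ≠ c 14 := fun hh => tr3 u2 hh u37
      have u42 : c 21 ≠ c 13 := fun hh => tr2 hh u23 u37
      have u43 : c 1 ≠ c 13 := fun hh => tr2 hh u23 u38
      have u44 : c 41 ≠ c 6 := fun hh => X2.n12 a135 u39 hh
      have u45 : c 13 ≠ c 6 := fun hh => X2.n13 a135 u39 hh
      have u46 : c 30 = c 31 := Classical.byContradiction fun hh => tr3 u40 u12 hh
      have u47 : c 32 = c 14 := Classical.byContradiction fun hh => X2.n3 a79 u28 hh u41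
      have u48 : c 30 ≠ c 10 := fun hh => X2.n12 a60 u46 hh
      have u49 : c 30 ≠ c 11 := fun hh => X2.n12 a61 u46 hh
      have u50 : c 32 = c 21 := Classical.byContradiction fun hh => tr3 u47 u2 hh
      have u51 : c 19 ≠ c 10 := fun hh => tr2 u40 hh u48
      have u52 : c 19 ≠ c 11 := fun hh => tr2 u40 hh u49
      have u53 : c 43 ≠ c 21 := fun hh => X2.n23 a155 hh u50
      have u54 : c 41 = c 10 := Classical.byContradiction fun hh => X2.n3 a136 u18 hh u51
      have u55 : c 40 = c 10 := Classical.byContradiction fun hh => X2.n3 a125 u19 hh u51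
      have u56 : c 41 = c 11 := Classical.byContradiction fun hh => X2.n3 a137 u18 hh u52
      have u57 : c 43 = c 13 := Classical.byContradiction fun hh => X2.n3 a154 u53 hh u42
      have u58 : c 10 ≠ c 6 := fun hh => tr2 u54 hh u44
      have u59 : c 41 ≠ c 4 := fun hh => X2.n12 a132 hh u56
      have u60 : c 43 ≠ c 6 := fun hh => tr1 u57 hh u45
      have u61 : c 4 ≠ c 13 := fun hh => tr3 u39 hh u59
      have u62 : c 43 = c 10 := Classical.byContradiction fun hh => X2.n3 a151 hh u60 u58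
      have u63 : c 18 ≠ c 10 := fun hh => X2.n23 a14 hh u62
      have u64 : c 40 ≠ c 18 := fun hh => tr1 hh u55 u63
      have u65 : c 28 = c 18 := Classical.byContradiction fun hh => X2.n3 a128 u36 u64 hh
      have u66 : c 18 = c 1 := Classical.byContradiction fun hh => tr1 u65 u32 hh
      have u67 : c 18 ≠ c 32 := fun hh => X2.n12 a11 hh u66
      have u68 : c 34 ≠ c 1 := fun hh => k3533 hh u66
      have u69 : c 34 = c 13 := Classical.byContradiction fun hh => X2.n3 a81 u68 hh u43
      have u70 : c 34 ≠ c 21 := fun hh => tr1 hh u69 u42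
      have u71 : c 34 ≠ c 19 := fun hh => tr1 hh u69 u10
      have u72 : c 34 ≠ c 4 := fun hh => tr1 hh u69 u61
      have u73 : c 4 = c 21 := Classical.byContradiction fun hh => X2.n3 a82 u72 u70 hh
      have u74 : c 35 ≠ c 4 := fun hh => k3502 hh u73
      have u75 : c 32 = c 4 := Classical.byContradiction fun hh => tr3 u50 u73 hh
      have u76 : c 18 ≠ c 4 := fun hh => tr3 hh u75 u67
      have u77 : c 18 = c 35 := Classical.byContradiction fun hh => X2.n3 a12 hh u76 u74
      have u78 : c 34 ≠ c 35 := fun hh => k3495 hh u77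
      have u79 : c 35 = c 1 := Classical.byContradiction fun hh => tr1 u77 u66 hh
      have u80 : c 19 = c 35 := Classical.byContradiction fun hh => X2.n3 a84 u71 u78 hh
      tr2 u80 u79 u17
  have k3658 : c 43 = c 13 → c 31 ≠ c 13 → c 19 ≠ c 12 → c 12 ≠ c 21 → c 43 ≠ c 32 → c 31 ≠ c 21 → c 19 ≠ c 13 → False := fun n0 n1 n2 n3 n4 n5 n6 =>
      have u0 : c 43 ≠ c 21 := fun hh => X2.n12 a154 hh n0
      have u1 : c 31 ≠ c 43 := fun hh => tr2 hh n0 n1
      have u2 : c 19 ≠ c 43 := fun hh => tr2 hh n0 n6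
      have u3 : c 32 = c 21 := Classical.byContradiction fun hh => X2.n3 a155 n4 u0 hh
      have u4 : c 43 = c 12 := Classical.byContradiction fun hh => X2.n3 a21 u2 n2 hh
      have u5 : c 31 ≠ c 32 := fun hh => tr2 hh u3 n5
      have u6 : c 32 ≠ c 12 := fun hh => tr1 hh u3 n3
      have u7 : c 31 ≠ c 12 := fun hh => tr3 hh u4 u1
      X2.n3 a72 u5 u7 u6
  have k3659 : c 37 ≠ c 40 → c 40 = c 18 → c 18 ≠ c 31 → c 40 = c 19 → c 19 ≠ c 33 → c 31 ≠ c 33 → False := fun n0 n1 n2 n3 n4 n5 =>
      have u0 : c 37 ≠ c 19 := fun hh => tr3 hh n3 n0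
      have u1 : c 37 ≠ c 18 := fun hh => tr3 hh n1 n0
      have u2 : c 37 = c 33 := Classical.byContradiction fun hh => X2.n3 a98 u0 hh n4
      have u3 : c 37 = c 31 := Classical.byContradiction fun hh => X2.n3 a97 u1 hh n2
      tr1 u3 u2 n5
  have k3660 : c 4 = c 21 → c 41 ≠ c 27 → c 25 ≠ c 21 → c 29 = c 32 → c 29 = c 1 → c 29 ≠ c 43 → c 43 = c 21 → c 41 = c 21 → False := fun n0 n1 n2 n3 n4 n5 n6 n7 =>
      have u0 : c 32 ≠ c 21 := fun hh => X2.n23 a155 n6 hh
      have u1 : c 41 = c 4 := Classical.byContradiction fun hh => tr3 n7 n0 hh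
      have u2 : c 32 ≠ c 4 := fun hh => tr2 hh n0 u0
      have u3 : c 43 = c 4 := Classical.byContradiction fun hh => tr3 n6 n0 hh
      have u4 : c 25 ≠ c 4 := fun hh => tr2 hh n0 n2
      have u5 : c 4 ≠ c 27 := fun hh => tr2 u1 hh n1
      have u6 : c 43 ≠ c 27 := fun hh => tr1 u3 hh u5
      have u7 : c 29 = c 27 := Classical.byContradiction fun hh => k3562 u3 hh n5 u6
      have u8 : c 25 = c 32 := Classical.byContradiction fun hh => X2.n3 a28 hh u4 u2
      have u9 : c 1 = c 27 := Classical.byContradiction fun hh => tr1 n4 u7 hh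
      have u10 : c 32 = c 27 := Classical.byContradiction fun hh => tr1 n3 u7 hh
      have u11 : c 25 = c 27 := Classical.byContradiction fun hh => tr2 u8 u10 hh
      X2.n23 a27 u11 u9
  have k3661 : c 34 = c 4 → c 32 ≠ c 4 → c 29 ≠ c 4 → c 10 = c 4 → c 8 = c 4 → c 32 = c 1 → c 29 = c 1 → False := fun n0 n1 n2 n3 n4 n5 n6 =>
      have u0 : c 34 = c 8 := Classical.byContradiction fun hh => tr3 n0 n4 hh
      have u1 : c 34 = c 10 := Classical.byContradiction fun hh => tr3 n0 n3 hh
      have u2 : c 34 ≠ c 25 := fun hh => X2.n12 a85 hh u0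
      have u3 : c 34 ≠ c 27 := fun hh => X2.n12 a83 u1 hh
      have u4 : c 25 ≠ c 4 := fun hh => tr3 n0 hh u2
      have u5 : c 4 ≠ c 27 := fun hh => tr2 n0 hh u3
      have u6 : c 25 = c 32 := Classical.byContradiction fun hh => X2.n3 a28 hh u4 n1
      have u7 : c 29 = c 27 := Classical.byContradiction fun hh => X2.n3 a47 n2 hh u5
      have u8 : c 25 = c 1 := Classical.byContradiction fun hh => tr2 u6 n5 hh
      have u9 : c 1 = c 27 := Classical.byContradiction fun hh => tr1 n6 u7 hh
      X2.n13 a27 u8 u9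
  have k3662 : c 34 = c 21 → c 1 ≠ c 13 → c 1 ≠ c 21 → c 21 ≠ c 13 → False := fun n0 n1 n2 n3 =>
      have u0 : c 34 ≠ c 1 := fun hh => tr1 hh n0 n2
      have u1 : c 34 ≠ c 13 := fun hh => tr1 n0 hh n3
      X2.n3 a81 u0 u1 n1
  have k3663 : c 4 ≠ c 21 → c 34 ≠ c 21 → c 8 ≠ c 43 → c 29 ≠ c 11 → c 29 = c 1 → c 43 = c 21 → c 32 ≠ c 11 → c 40 = c 21 → c 40 ≠ c 10 → c 41 = c 21 → c 41 ≠ c 11 → False := fun n0 n1 n2 n3 n4 n5 n6 n7 n8 n9 n10 =>
      have u0 : c 29 = c 32 := Classical.byContradiction fun hh => X2.n3 a54 hh n3 n6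
      have u1 : c 32 = c 1 := Classical.byContradiction fun hh => tr1 u0 n4 hh
      have u2 : c 41 ≠ c 4 := fun hh => tr1 hh n9 n0
      have u3 : c 43 ≠ c 4 := fun hh => tr1 hh n5 n0
      have u4 : c 40 ≠ c 4 := fun hh => tr1 hh n7 n0
      have u5 : c 34 = c 4 := Classical.byContradiction fun hh => X2.n3 a82 hh n1 n0
      have u6 : c 4 = c 11 := Classical.byContradiction fun hh => X2.n3 a132 u2 n10 hh
      have u7 : c 8 = c 4 := Classical.byContradiction fun hh => X2.n3 a2 n2 hh u3
      have u8 : c 10 = c 4 := Classical.byContradiction fun hh => X2.n3 a122 n8 u4 hh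
      have u9 : c 29 ≠ c 4 := fun hh => tr2 hh u6 n3
      have u10 : c 32 ≠ c 4 := fun hh => tr2 hh u6 n6
      k3661 u5 u10 u9 u8 u7 u1 n4
  have k3664 : c 31 ≠ c 13 → c 11 = c 33 → c 40 = c 21 → c 40 ≠ c 28 → c 28 = c 1 → c 40 = c 19 → c 41 = c 21 → c 31 = c 1 → c 41 = c 19 → c 21 ≠ c 13 → c 31 ≠ c 21 → c 19 ≠ c 33 → c 19 ≠ c 13 → c 31 ≠ c 33 → False := fun n0 n1 n2 n3 n4 n5 n6 n7 n8 n9 n10 n11 n12 n13 =>
      have u0 : c 40 ≠ c 10 := fun hh => X2.n12 a125 n5 hh
      have u1 : c 41 ≠ c 12 := fun hh => X2.n12 a133 hh n6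
      have u2 : c 19 ≠ c 12 := fun hh => tr2 n8 hh u1
      have u3 : c 12 ≠ c 21 := fun hh => X2.n23 a133 n6 hh
      have u4 : c 1 ≠ c 33 := fun hh => tr2 n7 hh n13
      have u5 : c 1 ≠ c 21 := fun hh => tr2 n7 hh n10
      have u6 : c 41 ≠ c 11 := fun hh => X2.n12 a137 n8 hh
      have u7 : c 43 ≠ c 32 := fun hh => k3624 hh n9
      have u8 : c 13 = c 33 := Classical.byContradiction fun hh => X2.n3 a66 n0 n13 hh
      have u9 : c 1 ≠ c 13 := fun hh => tr2 n7 hh n0
      have u10 : c 32 ≠ c 33 := fun hh => k3514 hh u8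
      have u11 : c 32 ≠ c 11 := fun hh => tr2 hh n1 u10
      have u12 : c 43 ≠ c 13 := fun hh => k3658 hh n0 u2 u3 u7 n10 n12
      have u13 : c 43 = c 21 := Classical.byContradiction fun hh => X2.n3 a154 hh u12 n9
      have u14 : c 43 ≠ c 12 := fun hh => tr1 hh u13 u3
      have u15 : c 19 = c 43 := Classical.byContradiction fun hh => X2.n3 a21 hh u2 u14
      have u16 : c 29 ≠ c 43 := fun hh => X2.n23 a51 hh u15
      have u17 : c 29 ≠ c 21 := fun hh => tr3 hh u13 u16
      have u18 : c 29 = c 1 := Classical.byContradiction fun hh => X2.n3 a44 hh u17 u5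
      have u19 : c 29 ≠ c 33 := fun hh => tr1 u18 hh u4
      have u20 : c 29 = c 31 := Classical.byContradiction fun hh => tr3 u18 n7 hh
      have u21 : c 29 ≠ c 11 := fun hh => tr2 hh n1 u19
      have u22 : c 29 = c 32 := Classical.byContradiction fun hh => X2.n3 a54 hh u21 u11
      have u23 : c 32 = c 1 := Classical.byContradiction fun hh => tr1 u22 u18 hh
      have u24 : c 31 = c 32 := Classical.byContradiction fun hh => tr1 u20 u22 hh
      have u25 : c 18 ≠ c 32 := fun hh => X2.n13 a11 hh u23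
      have u26 : c 18 ≠ c 1 := fun hh => X2.n23 a11 hh u23
      have u27 : c 31 ≠ c 15 := fun hh => k3521 u24 hh
      have u28 : c 18 ≠ c 31 := fun hh => tr2 hh u24 u25
      have u29 : c 28 ≠ c 18 := fun hh => tr1 hh n4 u26
      have u30 : c 40 = c 18 := Classical.byContradiction fun hh => X2.n3 a128 n3 hh u29
      have u31 : c 37 = c 40 := Classical.byContradiction fun hh => k3659 hh u30 u28 n5 n11 n13
      have u32 : c 40 ≠ c 25 := fun hh => X2.n13 a100 u31 hh
      have u33 : c 37 = c 19 := Classical.byContradiction fun hh => tr2 u31 n5 hh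
      have u34 : c 25 ≠ c 21 := fun hh => tr3 n2 hh u32
      have u35 : c 8 ≠ c 19 := fun hh => X2.n23 a95 u33 hh
      have u36 : c 8 ≠ c 43 := fun hh => tr3 hh u15 u35
      have u37 : c 34 ≠ c 21 := fun hh => k3662 hh u9 u5 n9
      have u38 : c 4 = c 21 := Classical.byContradiction fun hh => k3663 hh u37 u36 u21 u18 u13 u11 n2 u0 n6 u6
      have u39 : c 41 = c 27 := Classical.byContradiction fun hh => k3660 u38 hh u34 u22 u18 u16 u13 n6
      have u40 : c 41 ≠ c 44 := fun hh => X2.n12 a143 hh u39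
      have u41 : c 44 ≠ c 21 := fun hh => tr3 n6 hh u40
      have u42 : c 19 ≠ c 44 := fun hh => tr2 n8 hh u40
      have u43 : c 31 = c 44 := Classical.byContradiction fun hh => X2.n3 a74 hh n10 u41
      k3646 u27 n11 u42 u43 n13
  have k3665 : c 29 ≠ c 11 → c 32 ≠ c 11 → c 32 ≠ c 1 → c 31 ≠ c 32 → c 11 = c 33 → c 12 ≠ c 21 → c 1 ≠ c 21 → c 31 ≠ c 33 → False := fun n0 n1 n2 n3 n4 n5 n6 n7 =>
      have u0 : c 29 = c 32 := Classical.byContradiction fun hh => X2.n3 a54 hh n0 n1
      have u1 : c 29 ≠ c 33 := fun hh => tr3 hh n4 n0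
      have u2 : c 29 ≠ c 1 := fun hh => tr1 u0 hh n2
      have u3 : c 29 = c 21 := Classical.byContradiction fun hh => X2.n3 a44 u2 hh n6
      have u4 : c 32 = c 21 := Classical.byContradiction fun hh => tr1 u0 u3 hh
      have u5 : c 29 ≠ c 12 := fun hh => tr1 hh u3 n5
      have u6 : c 32 ≠ c 12 := fun hh => tr1 hh u4 n5
      have u7 : c 12 = c 33 := Classical.byContradiction fun hh => X2.n3 a49 u5 u1 hh
      have u8 : c 31 = c 12 := Classical.byContradiction fun hh => X2.n3 a72 n3 hh u6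
      tr2 u8 u7 n7
  have k3666 : c 29 = c 11 → c 31 ≠ c 11 → c 11 ≠ c 21 → c 1 ≠ c 21 → c 31 = c 1 → False := fun n0 n1 n2 n3 n4 =>
      have u0 : c 29 ≠ c 31 := fun hh => tr1 hh n0 n1
      have u1 : c 29 ≠ c 21 := fun hh => tr1 n0 hh n2
      have u2 : c 29 ≠ c 1 := fun hh => tr3 hh n4 u0
      X2.n3 a44 u2 u1 n3
  have k3667 : c 4 = c 21 → c 8 = c 35 → c 25 ≠ c 32 → c 19 = c 43 → c 43 = c 21 → c 32 = c 11 → c 40 = c 21 → c 40 = c 19 → c 11 ≠ c 21 → c 40 ≠ c 31 → c 19 ≠ c 33 → c 31 ≠ c 33 → False := fun n0 n1 n2 n3 n4 n5 n6 n7 n8 n9 n10 n11 =>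
      have u0 : c 34 ≠ c 4 := fun hh => X2.n13 a82 hh n0
      have u1 : c 35 ≠ c 4 := fun hh => k3502 hh n0
      have u2 : c 40 = c 4 := Classical.byContradiction fun hh => tr3 n6 n0 hh
      have u3 : c 4 ≠ c 11 := fun hh => tr1 hh n0 n8
      have u4 : c 32 ≠ c 4 := fun hh => tr1 hh n5 u3
      have u5 : c 43 = c 4 := Classical.byContradiction fun hh => tr3 n4 n0 hh
      have u6 : c 8 ≠ c 43 := fun hh => X2.n13 a2 hh u5
      have u7 : c 8 ≠ c 4 := fun hh => X2.n23 a2 hh u5
      have u8 : c 8 ≠ c 19 := fun hh => tr2 hh n3 u6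
      have u9 : c 25 = c 4 := Classical.byContradiction fun hh => X2.n3 a28 n2 hh u4
      have u10 : c 34 ≠ c 25 := fun hh => tr2 hh u9 u0
      have u11 : c 40 = c 25 := Classical.byContradiction fun hh => tr3 u2 u9 hh
      have u12 : c 25 ≠ c 8 := fun hh => tr1 hh u9 u7
      have u13 : c 37 ≠ c 40 := fun hh => X2.n13 a100 hh u11
      have u14 : c 34 = c 8 := Classical.byContradiction fun hh => X2.n3 a85 u10 hh u12
      have u15 : c 37 ≠ c 19 := fun hh => tr3 hh n7 u13
      have u16 : c 18 ≠ c 8 := fun hh => k3531 u14 hh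
      have u17 : c 37 = c 33 := Classical.byContradiction fun hh => X2.n3 a98 u15 hh n10
      have u18 : c 37 = c 8 := Classical.byContradiction fun hh => X2.n3 a95 hh u15 u8
      have u19 : c 18 ≠ c 35 := fun hh => tr3 hh n1 u16
      have u20 : c 37 ≠ c 31 := fun hh => tr1 hh u17 n11
      have u21 : c 37 ≠ c 18 := fun hh => tr1 hh u18 u16
      have u22 : c 18 = c 4 := Classical.byContradiction fun hh => X2.n3 a12 u19 hh u1
      have u23 : c 18 = c 31 := Classical.byContradiction fun hh => X2.n3 a97 u21 u20 hh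
      have u24 : c 40 = c 18 := Classical.byContradiction fun hh => tr3 u2 u22 hh
      tr2 u24 u23 n9
  have k3668 : c 31 ≠ c 21 → c 31 ≠ c 19 → c 13 ≠ c 46 → c 19 = c 45 → c 31 ≠ c 46 → c 31 ≠ c 33 → c 45 = c 23 → c 33 ≠ c 46 → False := fun n0 n1 n2 n3 n4 n5 n6 n7 =>
      have u0 : c 31 ≠ c 45 := fun hh => tr3 hh n3 n1
      have u1 : c 28 ≠ c 45 := fun hh => X2.n23 a41 hh n3
      have u2 : c 28 ≠ c 23 := fun hh => tr3 hh n6 u1
      have u3 : c 45 ≠ c 33 := fun hh => X2.n12 a159 hh n6
      have u4 : c 19 ≠ c 33 := fun hh => tr1 n3 hh u3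
      have u5 : c 28 ≠ c 19 := fun hh => X2.n13 a41 hh n3
      have u6 : c 19 ≠ c 13 := fun hh => X2.n12 a24 n3 hh
      have u7 : c 21 = c 46 := Classical.byContradiction fun hh => X2.n3 a70 n0 n4 hh
      have u8 : c 21 = c 45 := Classical.byContradiction fun hh => X2.n3 a69 n0 u0 hh
      have u9 : c 21 ≠ c 33 := fun hh => tr1 hh u7 n7
      have u10 : c 21 ≠ c 13 := fun hh => tr1 hh u7 n2
      have u11 : c 30 ≠ c 45 := fun hh => X2.n23 a58 hh u8
      have u12 : c 41 ≠ c 31 := fun hh => k3638 hh n5 u9 n0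
      have u13 : c 43 ≠ c 32 := fun hh => k3624 hh u10
      have u14 : c 30 ≠ c 19 := fun hh => tr2 hh n3 u11
      have u15 : c 41 = c 19 := Classical.byContradiction fun hh => X2.n3 a141 u12 hh n1
      have u16 : c 41 ≠ c 11 := fun hh => X2.n12 a137 u15 hh
      have u17 : c 19 ≠ c 11 := fun hh => X2.n13 a137 u15 hh
      have u18 : c 19 ≠ c 1 := fun hh => k3536 u15 hh
      have u19 : c 41 ≠ c 33 := fun hh => tr1 u15 hh u4
      have u20 : c 31 = c 1 := Classical.byContradiction fun hh => X2.n3 a67 n1 hh u18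
      have u21 : c 1 ≠ c 45 := fun hh => tr3 n3 hh u18
      have u22 : c 30 = c 1 := Classical.byContradiction fun hh => X2.n3 a57 u14 hh u18
      have u23 : c 41 = c 21 := Classical.byContradiction fun hh => X2.n3 a139 hh u19 u9
      have u24 : c 1 ≠ c 21 := fun hh => tr2 u20 hh n0
      have u25 : c 40 ≠ c 31 := fun hh => k3523 hh u20
      have u26 : c 1 ≠ c 33 := fun hh => tr2 u20 hh n5
      have u27 : c 1 ≠ c 23 := fun hh => tr3 hh n6 u21
      have u28 : c 30 = c 31 := Classical.byContradiction fun hh => tr3 u22 u20 hh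
      have u29 : c 41 ≠ c 12 := fun hh => X2.n12 a133 hh u23
      have u30 : c 12 ≠ c 21 := fun hh => X2.n23 a133 u23 hh
      have u31 : c 11 ≠ c 21 := fun hh => tr3 u23 hh u16
      have u32 : c 40 = c 19 := Classical.byContradiction fun hh => X2.n3 a130 u25 hh n1
      have u33 : c 28 = c 1 := Classical.byContradiction fun hh => X2.n3 a35 hh u2 u27
      have u34 : c 30 ≠ c 11 := fun hh => X2.n12 a61 u28 hh
      have u35 : c 31 ≠ c 11 := fun hh => X2.n13 a61 u28 hh
      have u36 : c 19 ≠ c 12 := fun hh => tr2 u15 hh u29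
      have u37 : c 40 ≠ c 33 := fun hh => tr1 u32 hh u4
      have u38 : c 40 ≠ c 28 := fun hh => tr1 hh u32 u5
      have u39 : c 28 = c 31 := Classical.byContradiction fun hh => tr3 u33 u20 hh
      have u40 : c 28 ≠ c 33 := fun hh => tr1 u33 hh u26
      have u41 : c 40 = c 21 := Classical.byContradiction fun hh => X2.n3 a127 hh u37 u9
      have u42 : c 28 ≠ c 8 := fun hh => X2.n12 a43 u39 hh
      have u43 : c 28 ≠ c 11 := fun hh => tr1 u39 hh u35
      have u44 : c 8 ≠ c 1 := fun hh => tr3 u33 hh u42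
      have u45 : c 11 = c 33 := Classical.byContradiction fun hh => X2.n3 a37 u43 u40 hh
      have u46 : c 31 = c 13 := Classical.byContradiction fun hh => k3664 hh u45 u41 u38 u33 u32 u23 u20 u15 u10 n0 u4 u6 n5
      have u47 : c 31 ≠ c 32 := fun hh => k3539 hh u46
      have u48 : c 32 ≠ c 1 := fun hh => tr3 u20 hh u47
      have u49 : c 29 ≠ c 11 := fun hh => k3666 hh u35 u31 u24 u20
      have u50 : c 32 = c 11 := Classical.byContradiction fun hh => k3665 u49 hh u48 u47 u45 u30 u24 n5
      have u51 : c 19 ≠ c 32 := fun hh => tr2 hh u50 u17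
      have u52 : c 32 ≠ c 21 := fun hh => tr1 u50 hh u31
      have u53 : c 43 ≠ c 11 := fun hh => tr3 hh u50 u13
      have u54 : c 31 ≠ c 2 := fun hh => k3647 hh u51 u47 n1
      have u55 : c 43 = c 21 := Classical.byContradiction fun hh => X2.n3 a155 u13 hh u52
      have u56 : c 21 = c 2 := Classical.byContradiction fun hh => X2.n3 a68 n0 u54 hh
      have u57 : c 43 ≠ c 1 := fun hh => tr1 hh u55 u24
      have u58 : c 43 ≠ c 12 := fun hh => tr1 hh u55 u30
      have u59 : c 35 ≠ c 2 := fun hh => k3496 hh u56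
      have u60 : c 11 ≠ c 2 := fun hh => tr3 hh u56 u31
      have u61 : c 19 = c 43 := Classical.byContradiction fun hh => X2.n3 a21 hh u36 u58
      have u62 : c 35 = c 11 := Classical.byContradiction fun hh => X2.n3 a88 hh u59 u60
      have u63 : c 25 ≠ c 11 := fun hh => X2.n23 a29 hh u62
      have u64 : c 30 ≠ c 35 := fun hh => tr2 hh u62 u34
      have u65 : c 25 ≠ c 32 := fun hh => tr2 hh u50 u63
      have u66 : c 35 ≠ c 1 := fun hh => tr3 u22 hh u64
      have u67 : c 8 = c 35 := Classical.byContradiction fun hh => X2.n3 a1 hh u44 u66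
      have u68 : c 4 ≠ c 21 := fun hh => k3667 hh u67 u65 u61 u55 u50 u41 u32 u31 u25 u4 n5
      have u69 : c 41 ≠ c 4 := fun hh => tr1 hh u23 u68
      have u70 : c 4 = c 11 := Classical.byContradiction fun hh => X2.n3 a132 u69 u16 hh
      have u71 : c 32 = c 4 := Classical.byContradiction fun hh => tr3 u50 u70 hh
      have u72 : c 35 = c 4 := Classical.byContradiction fun hh => tr3 u62 u70 hh
      have u73 : c 18 ≠ c 35 := fun hh => X2.n13 a12 hh u72
      have u74 : c 18 ≠ c 4 := fun hh => X2.n23 a12 hh u72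
      have u75 : c 18 ≠ c 11 := fun hh => tr3 hh u62 u73
      have u76 : c 18 ≠ c 32 := fun hh => tr2 hh u71 u74
      have u77 : c 18 = c 43 := Classical.byContradiction fun hh => X2.n3 a15 hh u75 u53
      have u78 : c 18 = c 1 := Classical.byContradiction fun hh => X2.n3 a11 u76 hh u48
      tr1 u77 u78 u57
  have k3669 : c 32 = c 11 → c 11 ≠ c 33 → c 11 ≠ c 21 → c 33 ≠ c 14 → c 21 = c 14 → False := fun n0 n1 n2 n3 n4 =>
      have u0 : c 32 ≠ c 33 := fun hh => tr1 n0 hh n1
      have u1 : c 32 ≠ c 21 := fun hh => tr1 n0 hh n2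
      have u2 : c 32 = c 14 := Classical.byContradiction fun hh => X2.n3 a79 u0 hh n3
      tr3 u2 n4 u1
  have k3670 : c 32 ≠ c 21 → c 32 ≠ c 45 → c 32 ≠ c 11 → c 19 = c 11 → c 31 ≠ c 12 → c 1 = c 23 → c 19 = c 1 → c 21 = c 14 → c 31 = c 21 → c 31 ≠ c 45 → c 19 ≠ c 33 → c 31 ≠ c 33 → False := fun n0 n1 n2 n3 n4 n5 n6 n7 n8 n9 n10 n11 =>
      have u0 : c 19 ≠ c 32 := fun hh => tr1 hh n3 n2
      have u1 : c 21 ≠ c 33 := fun hh => tr2 n8 hh n11
      have u2 : c 33 ≠ c 14 := fun hh => tr3 n7 hh u1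
      have u3 : c 31 ≠ c 32 := fun hh => tr1 hh n8 n0
      have u4 : c 32 ≠ c 14 := fun hh => tr3 hh n7 n0
      have u5 : c 32 = c 12 := Classical.byContradiction fun hh => X2.n3 a72 u3 n4 hh
      have u6 : c 32 = c 33 := Classical.byContradiction fun hh => X2.n3 a79 hh u4 u2
      have u7 : c 12 = c 33 := Classical.byContradiction fun hh => tr1 u5 u6 hh
      have u8 : c 12 ≠ c 45 := fun hh => tr2 u5 hh n1
      have u9 : c 29 ≠ c 12 := fun hh => X2.n13 a49 hh u7
      have u10 : c 29 ≠ c 32 := fun hh => tr2 hh u5 u9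
      have u11 : c 29 = c 11 := Classical.byContradiction fun hh => X2.n3 a54 u10 hh n2
      have u12 : c 29 = c 19 := Classical.byContradiction fun hh => tr3 u11 n3 hh
      have u13 : c 29 = c 1 := Classical.byContradiction fun hh => tr2 u12 n6 hh
      have u14 : c 29 = c 23 := Classical.byContradiction fun hh => tr2 u13 n5 hh
      have u15 : c 29 ≠ c 2 := fun hh => X2.n12 a46 hh u14
      have u16 : c 11 = c 23 := Classical.byContradiction fun hh => tr1 u11 u14 hh
      have u17 : c 19 ≠ c 2 := fun hh => tr2 u12 hh u15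
      have u18 : c 37 ≠ c 11 := fun hh => X2.n13 a96 hh u16
      have u19 : c 32 = c 2 := Classical.byContradiction fun hh => X2.n3 a18 u0 u17 hh
      have u20 : c 37 ≠ c 19 := fun hh => tr2 hh n3 u18
      have u21 : c 2 = c 33 := Classical.byContradiction fun hh => tr1 u19 u6 hh
      have u22 : c 37 = c 33 := Classical.byContradiction fun hh => X2.n3 a98 u20 hh n10
      have u23 : c 18 ≠ c 33 := fun hh => X2.n23 a8 hh u21
      have u24 : c 37 ≠ c 31 := fun hh => tr1 hh u22 n11
      have u25 : c 37 ≠ c 18 := fun hh => tr1 hh u22 u23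
      have u26 : c 18 ≠ c 12 := fun hh => tr2 hh u7 u23
      have u27 : c 18 = c 31 := Classical.byContradiction fun hh => X2.n3 a97 u25 u24 hh
      have u28 : c 18 = c 45 := Classical.byContradiction fun hh => X2.n3 a9 u26 hh u8
      tr1 u27 u28 n9
  have k3671 : c 31 ≠ c 1 → c 21 = c 14 → c 31 = c 21 → c 31 ≠ c 19 → c 19 = c 45 → c 31 ≠ c 33 → c 45 = c 23 → c 33 ≠ c 23 → False := fun n0 n1 n2 n3 n4 n5 n6 n7 =>
      have u0 : c 21 ≠ c 33 := fun hh => tr2 n2 hh n5
      have u1 : c 33 ≠ c 14 := fun hh => tr3 n1 hh u0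
      have u2 : c 31 ≠ c 45 := fun hh => tr3 hh n4 n3
      have u3 : c 45 ≠ c 33 := fun hh => X2.n12 a159 hh n6
      have u4 : c 19 ≠ c 33 := fun hh => tr1 n4 hh u3
      have u5 : c 40 = c 31 := Classical.byContradiction fun hh => k3628 n3 n0 hh
      have u6 : c 19 = c 1 := Classical.byContradiction fun hh => X2.n3 a67 n3 n0 hh
      have u7 : c 40 ≠ c 19 := fun hh => X2.n12 a130 u5 hh
      have u8 : c 40 = c 21 := Classical.byContradiction fun hh => tr2 u5 n2 hh
      have u9 : c 30 ≠ c 19 := fun hh => X2.n13 a57 hh u6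
      have u10 : c 41 ≠ c 19 := fun hh => k3536 hh u6
      have u11 : c 1 = c 45 := Classical.byContradiction fun hh => tr1 u6 n4 hh
      have u12 : c 40 = c 30 := Classical.byContradiction fun hh => X2.n3 a129 hh u7 u9
      have u13 : c 40 ≠ c 12 := fun hh => X2.n12 a123 hh u8
      have u14 : c 30 = c 41 := Classical.byContradiction fun hh => X2.n3 a64 hh u9 u10
      have u15 : c 41 = c 31 := Classical.byContradiction fun hh => X2.n3 a141 hh u10 n3
      have u16 : c 1 = c 23 := Classical.byContradiction fun hh => tr2 u11 n6 hh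
      have u17 : c 30 = c 31 := Classical.byContradiction fun hh => tr1 u12 u5 hh
      have u18 : c 30 = c 21 := Classical.byContradiction fun hh => tr1 u12 u8 hh
      have u19 : c 31 ≠ c 12 := fun hh => tr2 u5 hh u13
      have u20 : c 41 = c 21 := Classical.byContradiction fun hh => tr2 u15 n2 hh
      have u21 : c 41 ≠ c 23 := fun hh => k3517 hh u16
      have u22 : c 30 ≠ c 11 := fun hh => X2.n12 a61 u17 hh
      have u23 : c 11 ≠ c 21 := fun hh => tr3 u18 hh u22
      have u24 : c 41 ≠ c 11 := fun hh => tr2 u14 hh u22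
      have u25 : c 19 = c 11 := Classical.byContradiction fun hh => X2.n3 a137 u10 u24 hh
      have u26 : c 11 ≠ c 33 := fun hh => tr2 u25 hh u4
      have u27 : c 32 ≠ c 11 := fun hh => k3669 hh u26 u23 u1 n1
      have u28 : c 19 ≠ c 32 := fun hh => tr1 hh u25 u27
      have u29 : c 32 ≠ c 45 := fun hh => tr3 n4 hh u28
      have u30 : c 32 = c 21 := Classical.byContradiction fun hh => k3670 hh u29 u27 u25 u19 u16 u6 n1 n2 u2 u4 n5
      have u31 : c 21 ≠ c 15 := fun hh => k3546 u30 hh
      have u32 : c 31 ≠ c 15 := fun hh => tr1 n2 hh u31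
      have u33 : c 41 ≠ c 15 := fun hh => tr1 u20 hh u31
      have u34 : c 33 = c 15 := Classical.byContradiction fun hh => X2.n3 a73 n5 u32 hh
      have u35 : c 23 = c 15 := Classical.byContradiction fun hh => X2.n3 a140 u21 u33 hh
      tr3 u34 u35 n7
  have k3672 : c 19 = c 45 → c 31 ≠ c 33 → c 45 = c 23 → c 46 = c 23 → False := fun n0 n1 n2 n3 =>
      have u0 : c 46 ≠ c 14 := fun hh => k3644 hh n2 n3
      have u1 : c 31 ≠ c 46 := fun hh => k3657 hh n1 u0 n2
      have u2 : c 45 ≠ c 33 := fun hh => X2.n12 a159 hh n2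
      have u3 : c 33 ≠ c 23 := fun hh => X2.n23 a80 hh n3
      have u4 : c 33 ≠ c 46 := fun hh => X2.n13 a80 hh n3
      have u5 : c 28 ≠ c 19 := fun hh => X2.n13 a41 hh n0
      have u6 : c 28 ≠ c 45 := fun hh => X2.n23 a41 hh n0
      have u7 : c 19 ≠ c 33 := fun hh => tr1 n0 hh u2
      have u8 : c 28 ≠ c 23 := fun hh => tr3 hh n2 u6
      have u9 : c 28 ≠ c 46 := fun hh => tr2 hh n3 u8
      have u10 : c 19 = c 46 := Classical.byContradiction fun hh => X2.n3 a42 u5 u9 hh
      have u11 : c 13 ≠ c 46 := fun hh => X2.n23 a17 u10 hh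
      have u12 : c 31 ≠ c 19 := fun hh => tr2 hh u10 u1
      have u13 : c 31 = c 21 := Classical.byContradiction fun hh => k3668 hh u12 u11 n0 u1 n1 n2 u4
      have u14 : c 21 ≠ c 46 := fun hh => X2.n13 a70 u13 hh
      have u15 : c 21 ≠ c 33 := fun hh => tr2 u13 hh n1
      have u16 : c 21 = c 14 := Classical.byContradiction fun hh => X2.n3 a26 u14 hh u0
      have u17 : c 31 = c 1 := Classical.byContradiction fun hh => k3671 hh u16 u13 u12 n0 n1 n2 u3
      have u18 : c 41 ≠ c 31 := fun hh => k3506 hh u17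
      have u19 : c 41 ≠ c 21 := fun hh => tr3 hh u13 u18
      have u20 : c 41 = c 19 := Classical.byContradiction fun hh => X2.n3 a141 u18 hh u12
      have u21 : c 41 = c 33 := Classical.byContradiction fun hh => X2.n3 a139 u19 hh u15
      tr1 u20 u21 u7
  have k3673 : c 21 ≠ c 46 → c 19 ≠ c 33 → c 19 ≠ c 45 → c 31 ≠ c 46 → c 31 ≠ c 33 → c 46 ≠ c 14 → c 45 ≠ c 33 → False := fun n0 n1 n2 n3 n4 n5 n6 =>
      have u0 : c 13 ≠ c 33 := fun hh => k3641 hh n2 n1 n6
      have u1 : c 31 = c 13 := Classical.byContradiction fun hh => X2.n3 a66 hh n4 u0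
      have u2 : c 31 ≠ c 32 := fun hh => k3539 hh u1
      have u3 : c 21 = c 14 := Classical.byContradiction fun hh => X2.n3 a26 n0 hh n5
      have u4 : c 31 = c 21 := Classical.byContradiction fun hh => X2.n3 a70 hh n3 n0
      have u5 : c 31 ≠ c 2 := fun hh => X2.n12 a68 u4 hh
      have u6 : c 31 ≠ c 45 := fun hh => X2.n12 a69 u4 hh
      have u7 : c 21 ≠ c 33 := fun hh => tr2 u4 hh n4
      have u8 : c 21 = c 13 := Classical.byContradiction fun hh => tr1 u4 u1 hh
      have u9 : c 32 ≠ c 21 := fun hh => tr3 u4 hh u2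
      have u10 : c 31 = c 19 := Classical.byContradiction fun hh => k3642 n2 n1 hh n4 u6 n6
      have u11 : c 33 ≠ c 14 := fun hh => tr3 u3 hh u7
      have u12 : c 43 = c 32 := Classical.byContradiction fun hh => k3580 u8 hh
      have u13 : c 32 ≠ c 14 := fun hh => tr3 hh u3 u9
      have u14 : c 31 ≠ c 1 := fun hh => X2.n12 a67 u10 hh
      have u15 : c 41 ≠ c 31 := fun hh => X2.n13 a141 hh u10
      have u16 : c 41 ≠ c 19 := fun hh => X2.n23 a141 hh u10
      have u17 : c 19 = c 13 := Classical.byContradiction fun hh => tr1 u10 u1 hh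
      have u18 : c 19 ≠ c 32 := fun hh => tr2 u10 hh u2
      have u19 : c 19 ≠ c 2 := fun hh => tr2 u10 hh u5
      have u20 : c 27 = c 13 := Classical.byContradiction fun hh => k3579 u12 hh
      have u21 : c 32 = c 33 := Classical.byContradiction fun hh => X2.n3 a79 hh u13 u11
      have u22 : c 1 ≠ c 13 := fun hh => tr3 u1 hh u14
      have u23 : c 41 ≠ c 21 := fun hh => tr3 hh u4 u15
      have u24 : c 41 ≠ c 13 := fun hh => tr3 hh u1 u15
      have u25 : c 32 = c 2 := Classical.byContradiction fun hh => X2.n3 a18 u18 u19 hh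
      have u26 : c 31 = c 27 := Classical.byContradiction fun hh => tr3 u1 u20 hh
      have u27 : c 41 = c 33 := Classical.byContradiction fun hh => X2.n3 a139 u23 hh u7
      have u28 : c 2 = c 33 := Classical.byContradiction fun hh => tr1 u25 u21 hh
      have u29 : c 31 ≠ c 6 := fun hh => X2.n12 a71 u26 hh
      have u30 : c 1 ≠ c 33 := fun hh => k3542 u27 hh
      have u31 : c 41 = c 32 := Classical.byContradiction fun hh => tr3 u27 u21 hh
      have u32 : c 18 ≠ c 2 := fun hh => X2.n13 a8 hh u28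
      have u33 : c 13 ≠ c 6 := fun hh => tr2 u1 hh u29
      have u34 : c 32 ≠ c 1 := fun hh => tr1 hh u21 u30
      have u35 : c 18 ≠ c 32 := fun hh => tr2 hh u25 u32
      have u36 : c 41 = c 6 := Classical.byContradiction fun hh => X2.n3 a135 u24 hh u33
      have u37 : c 18 = c 1 := Classical.byContradiction fun hh => X2.n3 a11 u35 hh u34
      have u38 : c 34 ≠ c 1 := fun hh => k3533 hh u37
      have u39 : c 34 = c 13 := Classical.byContradiction fun hh => X2.n3 a81 u38 hh u22
      have u40 : c 34 = c 19 := Classical.byContradiction fun hh => tr3 u39 u17 hh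
      have u41 : c 34 = c 27 := Classical.byContradiction fun hh => tr3 u39 u20 hh
      have u42 : c 34 ≠ c 10 := fun hh => X2.n12 a83 hh u41
      have u43 : c 19 ≠ c 10 := fun hh => tr2 u40 hh u42
      have u44 : c 41 = c 10 := Classical.byContradiction fun hh => X2.n3 a136 u16 hh u43
      have u45 : c 10 = c 32 := Classical.byContradiction fun hh => tr1 u44 u31 hh
      have u46 : c 10 = c 6 := Classical.byContradiction fun hh => tr1 u44 u36 hh
      have u47 : c 43 = c 10 := Classical.byContradiction fun hh => tr3 u12 u45 hh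
      X2.n13 a151 u47 u46
  have k3675 : c 33 = c 15 → c 44 = c 23 → c 19 ≠ c 44 → c 19 ≠ c 33 → c 33 ≠ c 23 → False := fun n0 n1 n2 n3 n4 =>
      have u0 : c 23 ≠ c 15 := fun hh => tr3 n0 hh n4
      have u1 : c 19 ≠ c 15 := fun hh => tr3 hh n0 n3
      have u2 : c 44 ≠ c 15 := fun hh => tr1 n1 hh u0
      X2.n3 a23 n2 u1 u2
  have k3676 : c 19 = c 12 → c 38 = c 12 → c 37 ≠ c 28 → c 18 = c 12 → c 28 ≠ c 31 → c 31 = c 19 → False := fun n0 n1 n2 n3 n4 n5 =>
      have u0 : c 38 = c 18 := Classical.byContradiction fun hh => tr3 n1 n3 hh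
      have u1 : c 18 ≠ c 8 := fun hh => X2.n13 a107 u0 hh
      have u2 : c 38 ≠ c 8 := fun hh => X2.n12 a107 u0 hh
      have u3 : c 31 = c 12 := Classical.byContradiction fun hh => tr2 n5 n0 hh
      have u4 : c 38 = c 19 := Classical.byContradiction fun hh => tr3 n1 n0 hh
      have u5 : c 18 = c 31 := Classical.byContradiction fun hh => tr3 n3 u3 hh
      have u6 : c 8 ≠ c 19 := fun hh => tr3 u4 hh u2
      have u7 : c 37 ≠ c 31 := fun hh => X2.n23 a97 hh u5
      have u8 : c 31 ≠ c 8 := fun hh => tr2 u5 hh u1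
      have u9 : c 37 ≠ c 19 := fun hh => tr3 hh n5 u7
      have u10 : c 28 = c 8 := Classical.byContradiction fun hh => X2.n3 a43 n4 hh u8
      have u11 : c 37 = c 8 := Classical.byContradiction fun hh => X2.n3 a95 hh u9 u6
      tr3 u11 u10 n2
  have k3677 : c 31 = c 19 → c 43 ≠ c 32 → c 21 ≠ c 33 → c 31 ≠ c 21 → c 19 ≠ c 33 → c 19 ≠ c 45 → c 31 ≠ c 33 → c 45 = c 23 → c 33 ≠ c 23 → False := fun n0 n1 n2 n3 n4 n5 n6 n7 n8 =>
      have u0 : c 41 ≠ c 31 := fun hh => k3638 hh n6 n2 n3
      have u1 : c 45 ≠ c 33 := fun hh => X2.n12 a159 hh n7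
      have u2 : c 13 ≠ c 33 := fun hh => k3641 hh n5 n4 u1
      have u3 : c 31 = c 13 := Classical.byContradiction fun hh => X2.n3 a66 hh n6 u2
      have u4 : c 31 ≠ c 32 := fun hh => k3539 hh u3
      have u5 : c 19 ≠ c 1 := fun hh => X2.n13 a67 n0 hh
      have u6 : c 41 ≠ c 19 := fun hh => X2.n23 a141 hh n0
      have u7 : c 31 ≠ c 45 := fun hh => tr1 n0 hh n5
      have u8 : c 19 = c 13 := Classical.byContradiction fun hh => tr1 n0 u3 hh
      have u9 : c 21 = c 45 := Classical.byContradiction fun hh => X2.n3 a69 n3 u7 hh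
      have u10 : c 19 ≠ c 44 := fun hh => X2.n12 a22 hh u8
      have u11 : c 31 ≠ c 44 := fun hh => tr1 n0 hh u10
      have u12 : c 44 = c 21 := Classical.byContradiction fun hh => X2.n3 a74 u11 n3 hh
      have u13 : c 30 ≠ c 44 := fun hh => X2.n13 a65 hh u12
      have u14 : c 44 = c 45 := Classical.byContradiction fun hh => tr2 u12 u9 hh
      have u15 : c 44 = c 23 := Classical.byContradiction fun hh => tr2 u14 n7 hh
      have u16 : c 33 ≠ c 15 := fun hh => k3675 hh u15 u10 n4 n8
      have u17 : c 31 = c 15 := Classical.byContradiction fun hh => X2.n3 a73 n6 hh u16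
      have u18 : c 41 ≠ c 15 := fun hh => tr3 hh u17 u0
      have u19 : c 44 ≠ c 15 := fun hh => tr3 u17 hh u11
      have u20 : c 23 ≠ c 15 := fun hh => tr2 u15 hh u19
      have u21 : c 41 = c 23 := Classical.byContradiction fun hh => X2.n3 a140 hh u18 u20
      have u22 : c 1 ≠ c 23 := fun hh => k3517 u21 hh
      have u23 : c 41 ≠ c 33 := fun hh => tr1 hh u21 n8
      have u24 : c 41 = c 44 := Classical.byContradiction fun hh => tr3 u21 u15 hh
      have u25 : c 28 ≠ c 19 := fun hh => k3617 hh u22 u5 u15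
      have u26 : c 41 = c 21 := Classical.byContradiction fun hh => X2.n3 a139 hh u23 n2
      have u27 : c 30 ≠ c 41 := fun hh => tr2 hh u24 u13
      have u28 : c 28 = c 45 := Classical.byContradiction fun hh => X2.n3 a41 u25 hh n5
      have u29 : c 28 ≠ c 31 := fun hh => tr2 hh n0 u25
      have u30 : c 28 = c 44 := Classical.byContradiction fun hh => X2.n3 a40 u25 hh u10
      have u31 : c 41 ≠ c 12 := fun hh => X2.n12 a133 hh u26
      have u32 : c 12 ≠ c 21 := fun hh => X2.n23 a133 u26 hh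
      have u33 : c 30 = c 19 := Classical.byContradiction fun hh => X2.n3 a64 u27 hh u6
      have u34 : c 28 = c 41 := Classical.byContradiction fun hh => tr3 u30 u24 hh
      have u35 : c 12 ≠ c 23 := fun hh => tr3 u21 hh u31
      have u36 : c 12 ≠ c 45 := fun hh => tr3 hh u9 u32
      have u37 : c 30 = c 31 := Classical.byContradiction fun hh => tr3 u33 n0 hh
      have u38 : c 28 ≠ c 18 := fun hh => X2.n12 a38 hh u34
      have u39 : c 30 ≠ c 11 := fun hh => X2.n12 a61 u37 hh
      have u40 : c 18 ≠ c 45 := fun hh => tr3 u28 hh u38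
      have u41 : c 19 ≠ c 11 := fun hh => tr2 u33 hh u39
      have u42 : c 18 = c 12 := Classical.byContradiction fun hh => X2.n3 a9 hh u40 u36
      have u43 : c 41 = c 11 := Classical.byContradiction fun hh => X2.n3 a137 u6 hh u41
      have u44 : c 11 = c 21 := Classical.byContradiction fun hh => tr1 u43 u26 hh
      have u45 : c 28 = c 11 := Classical.byContradiction fun hh => tr2 u34 u43 hh
      have u46 : c 11 = c 23 := Classical.byContradiction fun hh => tr1 u43 u21 hh
      have u47 : c 38 ≠ c 11 := fun hh => X2.n13 a105 hh u44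
      have u48 : c 37 ≠ c 11 := fun hh => X2.n13 a96 hh u46
      have u49 : c 38 ≠ c 23 := fun hh => tr3 hh u46 u47
      have u50 : c 37 ≠ c 28 := fun hh => tr2 hh u45 u48
      have u51 : c 38 = c 12 := Classical.byContradiction fun hh => X2.n3 a106 hh u49 u35
      have u52 : c 19 ≠ c 12 := fun hh => k3676 hh u51 u50 u42 u29 n0
      have u53 : c 31 ≠ c 12 := fun hh => tr1 n0 hh u52
      have u54 : c 32 = c 12 := Classical.byContradiction fun hh => X2.n3 a72 u4 u53 hh
      have u55 : c 32 ≠ c 21 := fun hh => tr1 u54 hh u32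
      have u56 : c 43 ≠ c 12 := fun hh => tr3 hh u54 n1
      have u57 : c 43 = c 21 := Classical.byContradiction fun hh => X2.n3 a155 n1 hh u55
      have u58 : c 19 = c 43 := Classical.byContradiction fun hh => X2.n3 a21 hh u52 u56
      have u59 : c 43 ≠ c 13 := fun hh => X2.n12 a154 u57 hh
      tr1 u58 u8 u59
  have k3678 : c 19 ≠ c 33 → c 31 ≠ c 33 → c 45 = c 23 → c 46 = c 23 → False := fun n0 n1 n2 n3 =>
      have u0 : c 19 ≠ c 45 := fun hh => k3672 hh n1 n2 n3
      have u1 : c 46 ≠ c 14 := fun hh => k3644 hh n2 n3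
      have u2 : c 31 ≠ c 46 := fun hh => k3657 hh n1 u1 n2
      have u3 : c 45 ≠ c 33 := fun hh => X2.n12 a159 hh n2
      have u4 : c 33 ≠ c 23 := fun hh => X2.n23 a80 hh n3
      have u5 : c 33 ≠ c 46 := fun hh => X2.n13 a80 hh n3
      have u6 : c 13 ≠ c 33 := fun hh => k3641 hh u0 n0 u3
      have u7 : c 31 = c 13 := Classical.byContradiction fun hh => X2.n3 a66 hh n1 u6
      have u8 : c 31 ≠ c 32 := fun hh => k3539 hh u7
      have u9 : c 13 ≠ c 46 := fun hh => tr2 u7 hh u2
      have u10 : c 21 = c 46 := Classical.byContradiction fun hh => k3673 hh n0 u0 u2 n1 u1 u3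
      have u11 : c 21 ≠ c 14 := fun hh => X2.n12 a26 u10 hh
      have u12 : c 31 ≠ c 21 := fun hh => X2.n13 a70 hh u10
      have u13 : c 21 ≠ c 33 := fun hh => tr1 hh u10 u5
      have u14 : c 21 ≠ c 13 := fun hh => tr1 hh u10 u9
      have u15 : c 41 ≠ c 31 := fun hh => k3638 hh n1 u13 u12
      have u16 : c 43 ≠ c 32 := fun hh => k3624 hh u14
      have u17 : c 31 ≠ c 19 := fun hh => k3677 hh u16 u13 u12 n0 u0 n1 n2 u4
      have u18 : c 31 = c 45 := Classical.byContradiction fun hh => k3642 u0 n0 u17 n1 hh u3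
      have u19 : c 41 = c 19 := Classical.byContradiction fun hh => X2.n3 a141 u15 hh u17
      have u20 : c 21 ≠ c 45 := fun hh => X2.n23 a69 u18 hh
      have u21 : c 32 ≠ c 45 := fun hh => tr3 u18 hh u8
      have u22 : c 32 ≠ c 33 := fun hh => k3636 u19 u8 u18 u12 hh n2
      have u23 : c 45 = c 14 := Classical.byContradiction fun hh => X2.n3 a25 u20 u11 hh
      have u24 : c 32 ≠ c 14 := fun hh => tr3 hh u23 u21
      have u25 : c 33 ≠ c 14 := fun hh => tr3 u23 hh u3
      X2.n3 a79 u22 u24 u25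
  have k3679 : c 31 ≠ c 32 → c 45 = c 14 → c 31 = c 45 → c 41 = c 19 → c 31 ≠ c 21 → c 45 = c 23 → False := fun n0 n1 n2 n3 n4 n5 =>
      have u0 : c 45 ≠ c 33 := fun hh => X2.n12 a159 hh n5
      have u1 : c 33 ≠ c 14 := fun hh => tr3 n1 hh u0
      have u2 : c 32 ≠ c 45 := fun hh => tr3 n2 hh n0
      have u3 : c 32 ≠ c 33 := fun hh => k3636 n3 n0 n2 n4 hh n5
      have u4 : c 32 ≠ c 14 := fun hh => tr3 hh n1 u2
      X2.n3 a79 u3 u4 u1
  have k3680 : c 31 = c 45 → c 31 = c 1 → c 41 = c 19 → c 31 ≠ c 21 → c 21 ≠ c 14 → c 45 = c 23 → c 33 ≠ c 23 → False := fun n0 n1 n2 n3 n4 n5 n6 =>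
      have u0 : c 45 ≠ c 33 := fun hh => X2.n12 a159 hh n5
      have u1 : c 21 ≠ c 45 := fun hh => X2.n23 a69 n0 hh
      have u2 : c 1 = c 45 := Classical.byContradiction fun hh => tr1 n1 n0 hh
      have u3 : c 45 = c 14 := Classical.byContradiction fun hh => X2.n3 a25 u1 n4 hh
      have u4 : c 45 ≠ c 3 := fun hh => X2.n13 a0 u2 hh
      have u5 : c 33 ≠ c 14 := fun hh => tr3 u3 hh u0
      have u6 : c 31 = c 32 := Classical.byContradiction fun hh => k3679 hh u3 n0 n2 n3 n5
      have u7 : c 32 = c 45 := Classical.byContradiction fun hh => tr1 u6 n0 hh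
      have u8 : c 32 = c 3 := Classical.byContradiction fun hh => k3615 n3 hh u7 u3 u5 n4 n5 n6
      tr1 u7 u8 u4
  have k3681 : c 21 = c 46 → c 21 ≠ c 33 → c 19 = c 33 → c 19 ≠ c 45 → c 31 ≠ c 33 → c 45 = c 23 → c 33 ≠ c 23 → False := fun n0 n1 n2 n3 n4 n5 n6 =>
      have u0 : c 31 ≠ c 19 := fun hh => tr2 hh n2 n4
      have u1 : c 37 ≠ c 33 := fun hh => X2.n23 a98 hh n2
      have u2 : c 37 ≠ c 19 := fun hh => X2.n13 a98 hh n2
      have u3 : c 21 ≠ c 14 := fun hh => X2.n12 a26 n0 hh
      have u4 : c 31 ≠ c 21 := fun hh => X2.n13 a70 hh n0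
      have u5 : c 41 ≠ c 31 := fun hh => k3638 hh n4 n1 u4
      have u6 : c 41 = c 19 := Classical.byContradiction fun hh => X2.n3 a141 u5 hh u0
      have u7 : c 41 ≠ c 11 := fun hh => X2.n12 a137 u6 hh
      have u8 : c 30 ≠ c 19 := fun hh => X2.n23 a64 hh u6
      have u9 : c 19 ≠ c 1 := fun hh => k3536 u6 hh
      have u10 : c 41 = c 33 := Classical.byContradiction fun hh => tr2 u6 n2 hh
      have u11 : c 11 ≠ c 33 := fun hh => tr3 u10 hh u7
      have u12 : c 30 = c 1 := Classical.byContradiction fun hh => X2.n3 a57 u8 hh u9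
      have u13 : c 31 = c 1 := Classical.byContradiction fun hh => X2.n3 a67 u0 hh u9
      have u14 : c 30 = c 31 := Classical.byContradiction fun hh => tr3 u12 u13 hh
      have u15 : c 31 ≠ c 11 := fun hh => X2.n13 a61 u14 hh
      have u16 : c 31 ≠ c 45 := fun hh => k3680 hh u13 u6 u4 u3 n5 n6
      have u17 : c 13 = c 33 := Classical.byContradiction fun hh => k3639 hh n3 n2 n4 u16
      have u18 : c 1 ≠ c 45 := fun hh => tr2 u13 hh u16
      have u19 : c 32 ≠ c 33 := fun hh => k3514 hh u17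
      have u20 : c 19 = c 13 := Classical.byContradiction fun hh => tr3 n2 u17 hh
      have u21 : c 21 ≠ c 13 := fun hh => tr2 hh u17 n1
      have u22 : c 1 ≠ c 23 := fun hh => tr3 hh n5 u18
      have u23 : c 19 ≠ c 32 := fun hh => tr1 hh n2 u19
      have u24 : c 19 ≠ c 44 := fun hh => X2.n12 a22 hh u20
      have u25 : c 31 = c 2 := Classical.byContradiction fun hh => k3654 n1 hh u20 u17 n2 u0 u4 n4
      have u26 : c 43 ≠ c 32 := fun hh => k3624 hh u21
      have u27 : c 44 ≠ c 33 := fun hh => tr3 n2 hh u24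
      have u28 : c 2 ≠ c 33 := fun hh => tr2 u25 hh n4
      have u29 : c 19 ≠ c 2 := fun hh => tr3 u25 hh u0
      have u30 : c 1 = c 2 := Classical.byContradiction fun hh => tr1 u13 u25 hh
      have u31 : c 11 ≠ c 2 := fun hh => tr3 u25 hh u15
      have u32 : c 31 = c 32 := Classical.byContradiction fun hh => k3647 u25 u23 hh u0
      have u33 : c 44 = c 23 := Classical.byContradiction fun hh => X2.n3 a158 u27 hh n6
      have u34 : c 32 = c 2 := Classical.byContradiction fun hh => X2.n3 a18 u23 u29 hh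
      have u35 : c 32 ≠ c 21 := fun hh => tr2 u32 hh u4
      have u36 : c 32 = c 1 := Classical.byContradiction fun hh => tr1 u32 u13 hh
      have u37 : c 28 ≠ c 19 := fun hh => k3617 hh u22 u9 u33
      have u38 : c 43 = c 21 := Classical.byContradiction fun hh => X2.n3 a155 u26 hh u35
      have u39 : c 18 ≠ c 32 := fun hh => X2.n13 a11 hh u36
      have u40 : c 28 = c 45 := Classical.byContradiction fun hh => X2.n3 a41 u37 hh n3
      have u41 : c 43 ≠ c 13 := fun hh => X2.n12 a154 u38 hh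
      have u42 : c 18 ≠ c 31 := fun hh => tr2 hh u32 u39
      have u43 : c 18 ≠ c 2 := fun hh => tr3 hh u34 u39
      have u44 : c 28 ≠ c 31 := fun hh => tr1 hh u40 u16
      have u45 : c 18 = c 33 := Classical.byContradiction fun hh => X2.n3 a8 u43 hh u28
      have u46 : c 18 = c 13 := Classical.byContradiction fun hh => tr3 u45 u17 hh
      have u47 : c 18 ≠ c 11 := fun hh => tr1 hh u45 u11
      have u48 : c 37 ≠ c 18 := fun hh => tr2 hh u45 u1
      have u49 : c 18 ≠ c 43 := fun hh => tr1 hh u46 u41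
      have u50 : c 37 = c 31 := Classical.byContradiction fun hh => X2.n3 a97 u48 hh u42
      have u51 : c 43 = c 11 := Classical.byContradiction fun hh => X2.n3 a15 u49 u47 hh
      have u52 : c 11 = c 21 := Classical.byContradiction fun hh => tr1 u51 u38 hh
      have u53 : c 35 ≠ c 11 := fun hh => k3529 hh u52
      have u54 : c 35 = c 2 := Classical.byContradiction fun hh => X2.n3 a88 u53 hh u31
      have u55 : c 35 = c 1 := Classical.byContradiction fun hh => tr3 u54 u30 hh
      have u56 : c 8 ≠ c 1 := fun hh => X2.n23 a1 hh u55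
      have u57 : c 31 ≠ c 8 := fun hh => tr1 hh u13 u56
      have u58 : c 28 = c 8 := Classical.byContradiction fun hh => X2.n3 a43 u44 hh u57
      have u59 : c 37 ≠ c 8 := fun hh => tr1 u50 hh u57
      have u60 : c 8 ≠ c 19 := fun hh => tr2 u58 hh u37
      X2.n3 a95 u59 u2 u60
  have k3682 : c 21 ≠ c 33 → c 19 = c 33 → c 19 ≠ c 45 → c 31 ≠ c 33 → c 46 ≠ c 14 → c 45 = c 23 → c 33 ≠ c 23 → False := fun n0 n1 n2 n3 n4 n5 n6 =>
      have u0 : c 31 ≠ c 19 := fun hh => tr2 hh n1 n3
      have u1 : c 31 ≠ c 46 := fun hh => k3657 hh n3 n4 n5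
      have u2 : c 21 ≠ c 46 := fun hh => k3681 hh n0 n1 n2 n3 n5 n6
      have u3 : c 21 = c 14 := Classical.byContradiction fun hh => X2.n3 a26 u2 hh n4
      have u4 : c 31 = c 21 := Classical.byContradiction fun hh => X2.n3 a70 hh u1 u2
      have u5 : c 33 ≠ c 14 := fun hh => tr3 u3 hh n0
      have u6 : c 21 ≠ c 2 := fun hh => X2.n13 a68 u4 hh
      have u7 : c 31 ≠ c 45 := fun hh => X2.n12 a69 u4 hh
      have u8 : c 13 = c 33 := Classical.byContradiction fun hh => k3639 hh n2 n1 n3 u7
      have u9 : c 32 ≠ c 33 := fun hh => k3514 hh u8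
      have u10 : c 19 = c 13 := Classical.byContradiction fun hh => tr3 n1 u8 hh
      have u11 : c 21 ≠ c 13 := fun hh => tr2 hh u8 n0
      have u12 : c 19 ≠ c 32 := fun hh => tr1 hh n1 u9
      have u13 : c 32 = c 14 := Classical.byContradiction fun hh => X2.n3 a79 u9 hh u5
      have u14 : c 32 = c 21 := Classical.byContradiction fun hh => tr3 u13 u3 hh
      have u15 : c 42 ≠ c 21 := fun hh => X2.n23 a148 hh u14
      have u16 : c 43 ≠ c 21 := fun hh => X2.n23 a155 hh u14
      have u17 : c 31 = c 32 := Classical.byContradiction fun hh => tr3 u4 u14 hh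
      have u18 : c 32 ≠ c 2 := fun hh => tr1 u14 hh u6
      have u19 : c 42 = c 13 := Classical.byContradiction fun hh => X2.n3 a146 u15 hh u11
      have u20 : c 43 = c 13 := Classical.byContradiction fun hh => X2.n3 a154 u16 hh u11
      have u21 : c 31 ≠ c 12 := fun hh => X2.n12 a72 u17 hh
      have u22 : c 19 = c 2 := Classical.byContradiction fun hh => X2.n3 a18 u12 hh u18
      have u23 : c 42 = c 19 := Classical.byContradiction fun hh => tr3 u19 u10 hh
      have u24 : c 19 = c 43 := Classical.byContradiction fun hh => tr3 u10 u20 hh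
      have u25 : c 12 ≠ c 21 := fun hh => tr3 u4 hh u21
      have u26 : c 43 = c 2 := Classical.byContradiction fun hh => tr1 u24 u22 hh
      have u27 : c 19 ≠ c 12 := fun hh => X2.n13 a145 u23 hh
      have u28 : c 43 ≠ c 1 := fun hh => X2.n12 a150 hh u26
      have u29 : c 19 ≠ c 1 := fun hh => tr1 u24 hh u28
      have u30 : c 31 = c 1 := Classical.byContradiction fun hh => X2.n3 a67 u0 hh u29
      have u31 : c 41 ≠ c 31 := fun hh => k3506 hh u30
      have u32 : c 41 ≠ c 21 := fun hh => tr3 hh u4 u31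
      have u33 : c 41 = c 19 := Classical.byContradiction fun hh => X2.n3 a141 u31 hh u0
      have u34 : c 41 = c 12 := Classical.byContradiction fun hh => X2.n3 a133 hh u32 u25
      tr1 u33 u34 u27
  have k3683 : c 31 ≠ c 33 → c 45 = c 23 → c 46 = c 23 → False := fun n0 n1 n2 =>
      have u0 : c 46 ≠ c 14 := fun hh => k3644 hh n1 n2
      have u1 : c 33 ≠ c 23 := fun hh => X2.n23 a80 hh n2
      have u2 : c 33 ≠ c 46 := fun hh => X2.n13 a80 hh n2
      have u3 : c 31 ≠ c 46 := fun hh => k3657 hh n0 u0 n1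
      have u4 : c 19 ≠ c 45 := fun hh => k3672 hh n0 n1 n2
      have u5 : c 19 = c 33 := Classical.byContradiction fun hh => k3678 hh n0 n1 n2
      have u6 : c 21 = c 33 := Classical.byContradiction fun hh => k3682 hh u5 u4 n0 u0 n1 u1
      have u7 : c 21 ≠ c 46 := fun hh => tr1 u6 hh u2
      have u8 : c 31 ≠ c 21 := fun hh => tr2 hh u6 n0
      X2.n3 a70 u8 u3 u7
  have k3684 : c 19 = c 33 → c 43 ≠ c 2 → c 31 = c 43 → c 43 = c 21 → c 32 ≠ c 33 → c 41 ≠ c 21 → c 2 ≠ c 33 → c 31 = c 33 → False := fun n0 n1 n2 n3 n4 n5 n6 n7 =>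
      have u0 : c 31 ≠ c 32 := fun hh => tr1 hh n7 n4
      have u1 : c 31 = c 19 := Classical.byContradiction fun hh => tr3 n7 n0 hh
      have u2 : c 19 ≠ c 2 := fun hh => tr1 hh n0 n6
      have u3 : c 19 ≠ c 32 := fun hh => tr1 hh n0 n4
      have u4 : c 31 ≠ c 1 := fun hh => X2.n12 a67 u1 hh
      have u5 : c 19 = c 43 := Classical.byContradiction fun hh => tr1 u1 n2 hh
      have u6 : c 32 = c 2 := Classical.byContradiction fun hh => X2.n3 a18 u3 u2 hh
      have u7 : c 43 ≠ c 1 := fun hh => tr2 n2 hh u4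
      have u8 : c 19 ≠ c 12 := fun hh => X2.n12 a21 u5 hh
      have u9 : c 43 ≠ c 12 := fun hh => X2.n13 a21 u5 hh
      have u10 : c 1 = c 2 := Classical.byContradiction fun hh => X2.n3 a150 u7 n1 hh
      have u11 : c 31 ≠ c 12 := fun hh => tr1 u1 hh u8
      have u12 : c 12 ≠ c 21 := fun hh => tr3 n3 hh u9
      have u13 : c 32 = c 1 := Classical.byContradiction fun hh => tr3 u6 u10 hh
      have u14 : c 32 = c 12 := Classical.byContradiction fun hh => X2.n3 a72 u0 u11 hh
      have u15 : c 41 = c 12 := Classical.byContradiction fun hh => X2.n3 a133 hh n5 u12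
      have u16 : c 41 ≠ c 32 := fun hh => k3525 hh u13
      tr3 u15 u14 u16
  have k3685 : c 31 ≠ c 12 → c 41 ≠ c 32 → c 31 ≠ c 32 → c 41 ≠ c 21 → c 31 = c 21 → False := fun n0 n1 n2 n3 n4 =>
      have u0 : c 12 ≠ c 21 := fun hh => tr3 n4 hh n0
      have u1 : c 32 = c 12 := Classical.byContradiction fun hh => X2.n3 a72 n2 n0 hh
      have u2 : c 41 = c 12 := Classical.byContradiction fun hh => X2.n3 a133 hh n3 u0
      tr3 u2 u1 n1
  have k3686 : c 19 ≠ c 45 → c 32 = c 11 → c 11 ≠ c 33 → c 28 ≠ c 19 → c 31 = c 1 → c 32 ≠ c 21 → c 44 = c 45 → c 44 ≠ c 33 → c 31 = c 21 → c 13 ≠ c 33 → c 45 = c 23 → False := fun n0 n1 n2 n3 n4 n5 n6 n7 n8 n9 n10 =>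
      have u0 : c 45 ≠ c 33 := fun hh => X2.n12 a159 hh n10
      have u1 : c 32 ≠ c 45 := fun hh => k3622 n4 n9 n0 n7 n6 n8 n5 hh n10
      have u2 : c 28 = c 45 := Classical.byContradiction fun hh => X2.n3 a41 n3 hh n0
      have u3 : c 28 ≠ c 33 := fun hh => tr1 u2 hh u0
      have u4 : c 28 ≠ c 32 := fun hh => tr1 hh u2 u1
      have u5 : c 28 = c 11 := Classical.byContradiction fun hh => X2.n3 a37 hh u3 n2
      tr3 u5 n1 u4
  have k3688 : c 29 ≠ c 27 → c 35 ≠ c 27 → c 8 = c 35 → c 8 ≠ c 43 → c 43 ≠ c 27 → c 29 ≠ c 43 → False := fun n0 n1 n2 n3 n4 n5 =>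
      have u0 : c 43 ≠ c 4 := fun hh => k3562 hh n0 n5 n4
      have u1 : c 8 ≠ c 4 := fun hh => k3563 hh n0 n2 n1
      X2.n3 a2 n3 u1 u0
  have k3690 : c 43 ≠ c 4 → c 25 ≠ c 32 → c 25 ≠ c 8 → c 34 ≠ c 21 → c 34 = c 13 → c 8 ≠ c 43 → c 43 = c 21 → False := fun n0 n1 n2 n3 n4 n5 n6 =>
      have u0 : c 4 ≠ c 21 := fun hh => tr3 n6 hh n0
      have u1 : c 8 = c 4 := Classical.byContradiction fun hh => X2.n3 a2 n5 hh n0
      have u2 : c 34 = c 4 := Classical.byContradiction fun hh => X2.n3 a82 hh n3 u0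
      have u3 : c 25 ≠ c 4 := fun hh => tr3 hh u1 n2
      have u4 : c 4 = c 13 := Classical.byContradiction fun hh => tr1 u2 n4 hh
      have u5 : c 32 = c 4 := Classical.byContradiction fun hh => X2.n3 a28 n1 u3 hh
      k3537 u5 u4
  have k3691 : c 43 = c 4 → c 43 ≠ c 11 → c 41 ≠ c 11 → c 43 = c 21 → c 41 ≠ c 21 → False := fun n0 n1 n2 n3 n4 =>
      have u0 : c 4 ≠ c 11 := fun hh => tr2 n0 hh n1
      have u1 : c 4 = c 21 := Classical.byContradiction fun hh => tr1 n0 n3 hh
      have u2 : c 41 = c 4 := Classical.byContradiction fun hh => X2.n3 a132 hh n2 u0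
      tr2 u2 u1 n4
  have k3692 : c 34 = c 13 → c 26 = c 35 → c 8 = c 35 → c 8 ≠ c 43 → c 43 ≠ c 4 → c 29 = c 19 → c 29 ≠ c 1 → c 32 ≠ c 1 → c 41 = c 19 → c 43 = c 21 → c 21 ≠ c 13 → False := fun n0 n1 n2 n3 n4 n5 n6 n7 n8 n9 n10 =>
      have u0 : c 8 = c 4 := Classical.byContradiction fun hh => X2.n3 a2 n3 hh n4
      have u1 : c 35 = c 4 := Classical.byContradiction fun hh => tr1 n2 u0 hh
      have u2 : c 18 ≠ c 35 := fun hh => X2.n13 a12 hh u1
      have u3 : c 18 ≠ c 8 := fun hh => tr2 hh n2 u2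
      have u4 : c 4 ≠ c 21 := fun hh => tr3 n9 hh n4
      have u5 : c 8 ≠ c 19 := fun hh => k3503 n5 hh
      have u6 : c 41 ≠ c 11 := fun hh => X2.n12 a137 n8 hh
      have u7 : c 34 ≠ c 21 := fun hh => tr1 hh n0 n10
      have u8 : c 34 = c 4 := Classical.byContradiction fun hh => X2.n3 a82 hh u7 u4
      have u9 : c 34 = c 8 := Classical.byContradiction fun hh => tr3 u8 u0 hh
      have u10 : c 4 = c 13 := Classical.byContradiction fun hh => tr1 u8 n0 hh
      have u11 : c 25 ≠ c 8 := fun hh => X2.n23 a85 u9 hh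
      have u12 : c 34 ≠ c 19 := fun hh => tr1 u9 hh u5
      have u13 : c 39 ≠ c 4 := fun hh => X2.n13 a114 hh u10
      have u14 : c 38 ≠ c 4 := fun hh => X2.n13 a101 hh u10
      have u15 : c 35 = c 13 := Classical.byContradiction fun hh => tr2 u1 u10 hh
      have u16 : c 25 = c 32 := Classical.byContradiction fun hh => k3690 n4 hh u11 u7 n0 n3 n9
      have u17 : c 19 ≠ c 13 := fun hh => tr3 n0 hh u12
      have u18 : c 39 ≠ c 8 := fun hh => tr2 hh u0 u13
      have u19 : c 38 ≠ c 8 := fun hh => tr2 hh u0 u14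
      have u20 : c 35 ≠ c 27 := fun hh => X2.n12 a90 hh u15
      have u21 : c 25 ≠ c 1 := fun hh => tr1 u16 hh n7
      have u22 : c 41 ≠ c 13 := fun hh => tr1 n8 hh u17
      have u23 : c 39 = c 18 := Classical.byContradiction fun hh => X2.n3 a116 hh u18 u3
      have u24 : c 38 = c 18 := Classical.byContradiction fun hh => X2.n3 a107 hh u19 u3
      have u25 : c 26 ≠ c 27 := fun hh => tr1 n1 hh u20
      have u26 : c 29 = c 27 := Classical.byContradiction fun hh => k3563 u0 hh n2 u20
      have u27 : c 41 ≠ c 4 := fun hh => tr2 hh u10 u22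
      have u28 : c 38 = c 39 := Classical.byContradiction fun hh => tr3 u24 u23 hh
      have u29 : c 38 ≠ c 29 := fun hh => X2.n12 a112 hh u24
      have u30 : c 1 ≠ c 27 := fun hh => tr3 u26 hh n6
      have u31 : c 4 = c 11 := Classical.byContradiction fun hh => X2.n3 a132 u27 u6 hh
      have u32 : c 38 ≠ c 25 := fun hh => X2.n12 a113 u28 hh
      have u33 : c 38 ≠ c 19 := fun hh => tr3 hh n5 u29
      have u34 : c 25 = c 27 := Classical.byContradiction fun hh => X2.n3 a27 u21 hh u30
      have u35 : c 35 = c 11 := Classical.byContradiction fun hh => tr2 u1 u31 hh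
      have u36 : c 38 ≠ c 32 := fun hh => tr3 hh u16 u32
      have u37 : c 32 = c 27 := Classical.byContradiction fun hh => tr1 u16 u34 hh
      have u38 : c 35 ≠ c 2 := fun hh => X2.n12 a88 u35 hh
      have u39 : c 19 = c 32 := Classical.byContradiction fun hh => X2.n3 a108 u33 u36 hh
      have u40 : c 26 ≠ c 2 := fun hh => tr1 n1 hh u38
      have u41 : c 32 ≠ c 2 := fun hh => X2.n13 a18 u39 hh
      have u42 : c 27 = c 2 := Classical.byContradiction fun hh => X2.n3 a31 u25 u40 hh
      tr2 u37 u42 u41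
  have k3693 : c 8 ≠ c 43 → c 26 = c 4 → c 43 ≠ c 4 → c 29 = c 19 → c 35 ≠ c 1 → c 29 ≠ c 1 → c 43 = c 1 → c 32 ≠ c 1 → c 1 ≠ c 13 → c 19 ≠ c 1 → c 41 = c 19 → c 43 = c 21 → c 21 ≠ c 13 → False := fun n0 n1 n2 n3 n4 n5 n6 n7 n8 n9 n10 n11 n12 =>
      have u0 : c 8 ≠ c 19 := fun hh => k3503 n3 hh
      have u1 : c 8 ≠ c 1 := fun hh => tr3 hh n6 n0
      have u2 : c 8 = c 4 := Classical.byContradiction fun hh => X2.n3 a2 n0 hh n2
      have u3 : c 8 = c 35 := Classical.byContradiction fun hh => X2.n3 a1 hh u1 n4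
      have u4 : c 35 = c 4 := Classical.byContradiction fun hh => tr1 u3 u2 hh
      have u5 : c 19 ≠ c 35 := fun hh => tr3 u3 hh u0
      have u6 : c 26 = c 35 := Classical.byContradiction fun hh => tr3 n1 u4 hh
      have u7 : c 34 ≠ c 13 := fun hh => k3692 hh u6 u3 n0 n2 n3 n5 n7 n10 n11 n12
      have u8 : c 34 = c 1 := Classical.byContradiction fun hh => X2.n3 a81 hh u7 n8
      have u9 : c 34 ≠ c 19 := fun hh => tr1 hh u8 n9
      have u10 : c 34 ≠ c 35 := fun hh => tr1 hh u8 n4
      X2.n3 a84 u9 u10 u5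
  have k3694 : c 18 ≠ c 1 → c 32 ≠ c 2 → c 32 ≠ c 1 → c 1 = c 33 → c 2 ≠ c 33 → False := fun n0 n1 n2 n3 n4 =>
      have u0 : c 18 = c 32 := Classical.byContradiction fun hh => X2.n3 a11 hh n0 n2
      have u1 : c 18 ≠ c 33 := fun hh => tr3 hh n3 n0
      have u2 : c 18 ≠ c 2 := fun hh => tr1 u0 hh n1
      X2.n3 a8 u2 u1 n4
  have k3695 : c 21 ≠ c 46 → c 31 ≠ c 46 → c 31 = c 33 → c 46 ≠ c 14 → c 45 = c 23 → c 33 ≠ c 23 → False := fun n0 n1 n2 n3 n4 n5 =>
      have u0 : c 13 ≠ c 33 := fun hh => X2.n23 a66 n2 hh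
      have u1 : c 31 ≠ c 13 := fun hh => X2.n12 a66 hh n2
      have u2 : c 21 = c 14 := Classical.byContradiction fun hh => X2.n3 a26 n0 hh n3
      have u3 : c 31 = c 21 := Classical.byContradiction fun hh => X2.n3 a70 hh n1 n0
      have u4 : c 44 ≠ c 21 := fun hh => X2.n13 a157 hh u2
      have u5 : c 31 ≠ c 2 := fun hh => X2.n12 a68 u3 hh
      have u6 : c 21 ≠ c 2 := fun hh => X2.n13 a68 u3 hh
      have u7 : c 21 = c 33 := Classical.byContradiction fun hh => tr1 u3 n2 hh
      have u8 : c 21 ≠ c 13 := fun hh => tr2 u3 hh u1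
      have u9 : c 44 ≠ c 33 := fun hh => tr3 hh u7 u4
      have u10 : c 2 ≠ c 33 := fun hh => tr3 n2 hh u5
      have u11 : c 40 ≠ c 21 := fun hh => X2.n13 a127 hh u7
      have u12 : c 41 ≠ c 21 := fun hh => X2.n13 a139 hh u7
      have u13 : c 33 = c 14 := Classical.byContradiction fun hh => tr1 u7 u2 hh
      have u14 : c 43 ≠ c 32 := fun hh => k3624 hh u8
      have u15 : c 44 = c 23 := Classical.byContradiction fun hh => X2.n3 a158 u9 hh n5
      have u16 : c 40 ≠ c 31 := fun hh => tr2 hh u3 u11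
      have u17 : c 41 ≠ c 31 := fun hh => tr2 hh u3 u12
      have u18 : c 32 ≠ c 33 := fun hh => X2.n13 a79 hh u13
      have u19 : c 44 = c 45 := Classical.byContradiction fun hh => tr3 u15 n4 hh
      have u20 : c 32 ≠ c 21 := fun hh => tr2 hh u7 u18
      have u21 : c 31 ≠ c 32 := fun hh => tr1 hh n2 u18
      have u22 : c 43 = c 21 := Classical.byContradiction fun hh => X2.n3 a155 u14 hh u20
      have u23 : c 31 = c 43 := Classical.byContradiction fun hh => tr3 u3 u22 hh
      have u24 : c 43 ≠ c 2 := fun hh => tr1 u22 hh u6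
      have u25 : c 19 ≠ c 33 := fun hh => k3684 hh u24 u23 u22 u18 u12 u10 n2
      have u26 : c 31 ≠ c 19 := fun hh => tr1 hh n2 u25
      have u27 : c 40 = c 19 := Classical.byContradiction fun hh => X2.n3 a130 u16 hh u26
      have u28 : c 31 = c 1 := Classical.byContradiction fun hh => k3628 u26 hh u16
      have u29 : c 41 = c 19 := Classical.byContradiction fun hh => X2.n3 a141 u17 hh u26
      have u30 : c 19 ≠ c 43 := fun hh => tr3 u23 hh u26
      have u31 : c 19 ≠ c 11 := fun hh => X2.n13 a126 u27 hh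
      have u32 : c 30 ≠ c 19 := fun hh => X2.n23 a129 u27 hh
      have u33 : c 19 ≠ c 1 := fun hh => k3509 u27 hh
      have u34 : c 26 ≠ c 31 := fun hh => k3551 hh u28
      have u35 : c 1 = c 21 := Classical.byContradiction fun hh => tr1 u28 u3 hh
      have u36 : c 1 = c 33 := Classical.byContradiction fun hh => tr1 u28 n2 hh
      have u37 : c 1 ≠ c 13 := fun hh => tr2 u28 hh u1
      have u38 : c 32 ≠ c 1 := fun hh => tr3 u28 hh u21
      have u39 : c 43 = c 1 := Classical.byContradiction fun hh => tr1 u23 u28 hh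
      have u40 : c 41 ≠ c 11 := fun hh => X2.n12 a137 u29 hh
      have u41 : c 30 = c 1 := Classical.byContradiction fun hh => X2.n3 a57 u32 hh u33
      have u42 : c 29 ≠ c 1 := fun hh => X2.n13 a44 hh u35
      have u43 : c 35 ≠ c 1 := fun hh => k3516 hh u35
      have u44 : c 1 ≠ c 23 := fun hh => tr1 u36 hh n5
      have u45 : c 30 = c 31 := Classical.byContradiction fun hh => tr3 u41 u28 hh
      have u46 : c 30 = c 33 := Classical.byContradiction fun hh => tr2 u41 u36 hh
      have u47 : c 29 ≠ c 43 := fun hh => tr2 hh u39 u42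
      have u48 : c 28 ≠ c 19 := fun hh => k3617 hh u44 u33 u15
      have u49 : c 30 ≠ c 11 := fun hh => X2.n12 a61 u45 hh
      have u50 : c 31 ≠ c 11 := fun hh => X2.n13 a61 u45 hh
      have u51 : c 29 = c 19 := Classical.byContradiction fun hh => X2.n3 a51 hh u47 u30
      have u52 : c 40 ≠ c 28 := fun hh => tr1 hh u27 u48
      have u53 : c 11 ≠ c 33 := fun hh => tr3 u46 hh u49
      have u54 : c 43 ≠ c 11 := fun hh => tr2 u23 hh u50
      have u55 : c 29 ≠ c 11 := fun hh => tr1 u51 hh u31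
      have u56 : c 43 ≠ c 4 := fun hh => k3691 hh u54 u40 u22 u12
      have u57 : c 4 ≠ c 21 := fun hh => tr3 u22 hh u56
      have u58 : c 31 ≠ c 4 := fun hh => tr1 hh u3 u57
      have u59 : c 26 = c 4 := Classical.byContradiction fun hh => X2.n3 a32 u34 hh u58
      have u60 : c 8 = c 43 := Classical.byContradiction fun hh => k3693 hh u59 u56 u51 u43 u42 u39 u38 u37 u33 u29 u22 u8
      have u61 : c 31 = c 8 := Classical.byContradiction fun hh => tr3 u23 u60 hh
      have u62 : c 28 ≠ c 31 := fun hh => X2.n13 a43 hh u61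
      have u63 : c 28 ≠ c 1 := fun hh => tr3 hh u28 u62
      have u64 : c 28 = c 23 := Classical.byContradiction fun hh => X2.n3 a35 u63 hh u44
      have u65 : c 28 = c 45 := Classical.byContradiction fun hh => tr3 u64 n4 hh
      have u66 : c 19 ≠ c 45 := fun hh => X2.n23 a41 u65 hh
      have u67 : c 32 ≠ c 11 := fun hh => k3686 u66 hh u53 u48 u28 u20 u19 u9 u3 u0 n4
      have u68 : c 29 = c 32 := Classical.byContradiction fun hh => X2.n3 a54 hh u55 u67
      have u69 : c 19 = c 32 := Classical.byContradiction fun hh => tr1 u51 u68 hh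
      have u70 : c 32 ≠ c 2 := fun hh => X2.n13 a18 u69 hh
      have u71 : c 18 = c 1 := Classical.byContradiction fun hh => k3694 hh u70 u38 u36 u10
      have u72 : c 40 ≠ c 18 := fun hh => k3497 hh u71
      have u73 : c 28 ≠ c 18 := fun hh => tr2 hh u71 u63
      X2.n3 a128 u52 u72 u73
  have k3696 : c 19 = c 32 → c 41 = c 21 → c 41 = c 19 → c 31 ≠ c 21 → c 31 ≠ c 13 → False := fun n0 n1 n2 n3 n4 =>
      have u0 : c 41 ≠ c 12 := fun hh => X2.n12 a133 hh n1
      have u1 : c 19 ≠ c 12 := fun hh => tr2 n2 hh u0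
      have u2 : c 12 ≠ c 21 := fun hh => X2.n23 a133 n1 hh
      have u3 : c 19 ≠ c 13 := fun hh => k3560 n0 hh
      have u4 : c 41 = c 32 := Classical.byContradiction fun hh => tr2 n2 n0 hh
      have u5 : c 41 ≠ c 13 := fun hh => tr1 n2 hh u3
      have u6 : c 32 = c 21 := Classical.byContradiction fun hh => tr1 u4 n1 hh
      have u7 : c 21 ≠ c 13 := fun hh => tr2 n1 hh u5
      have u8 : c 43 ≠ c 32 := fun hh => X2.n13 a155 hh u6
      have u9 : c 43 ≠ c 21 := fun hh => X2.n23 a155 hh u6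
      have u10 : c 43 ≠ c 13 := fun hh => k3658 hh n4 u1 u2 u8 n3 u3
      X2.n3 a154 u9 u10 u7
  have k3697 : c 31 ≠ c 32 → c 12 ≠ c 45 → c 41 = c 21 → c 1 ≠ c 45 → c 31 = c 1 → c 31 ≠ c 21 → c 31 = c 33 → False := fun n0 n1 n2 n3 n4 n5 n6 =>
      have u0 : c 41 ≠ c 31 := fun hh => k3506 hh n4
      have u1 : c 31 ≠ c 19 := fun hh => X2.n12 a67 hh n4
      have u2 : c 41 = c 19 := Classical.byContradiction fun hh => X2.n3 a141 u0 hh u1
      have u3 : c 31 ≠ c 13 := fun hh => X2.n12 a66 hh n6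
      have u4 : c 19 ≠ c 32 := fun hh => k3696 hh n2 u2 n5 u3
      have u5 : c 41 ≠ c 32 := fun hh => tr1 u2 hh u4
      have u6 : c 32 ≠ c 21 := fun hh => tr3 n2 hh u5
      have u7 : c 1 = c 33 := Classical.byContradiction fun hh => tr1 n4 n6 hh
      have u8 : c 1 ≠ c 21 := fun hh => tr2 n4 hh n5
      have u9 : c 32 ≠ c 1 := fun hh => tr3 n4 hh n0
      have u10 : c 31 ≠ c 2 := fun hh => k3647 hh u4 n0 u1
      have u11 : c 21 = c 2 := Classical.byContradiction fun hh => X2.n3 a68 n5 u10 hh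
      have u12 : c 2 ≠ c 33 := fun hh => tr3 n6 hh u10
      have u13 : c 32 ≠ c 2 := fun hh => tr3 hh u11 u6
      have u14 : c 18 = c 1 := Classical.byContradiction fun hh => k3694 hh u13 u9 u7 u12
      have u15 : c 19 = c 2 := Classical.byContradiction fun hh => X2.n3 a18 u4 hh u13
      have u16 : c 18 = c 33 := Classical.byContradiction fun hh => tr2 u14 u7 hh
      have u17 : c 18 = c 31 := Classical.byContradiction fun hh => tr3 u14 n4 hh
      have u18 : c 18 ≠ c 45 := fun hh => tr1 u14 hh n3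
      have u19 : c 18 = c 12 := Classical.byContradiction fun hh => X2.n3 a9 hh u18 n1
      have u20 : c 18 ≠ c 44 := fun hh => X2.n12 a16 hh u19
      have u21 : c 12 = c 33 := Classical.byContradiction fun hh => tr1 u19 u16 hh
      have u22 : c 31 ≠ c 44 := fun hh => tr2 u17 hh u20
      have u23 : c 29 ≠ c 33 := fun hh => X2.n23 a49 hh u21
      have u24 : c 44 = c 21 := Classical.byContradiction fun hh => X2.n3 a74 u22 n5 hh
      have u25 : c 29 ≠ c 1 := fun hh => tr2 hh u7 u23
      have u26 : c 41 = c 44 := Classical.byContradiction fun hh => tr3 n2 u24 hh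
      have u27 : c 29 = c 21 := Classical.byContradiction fun hh => X2.n3 a44 u25 hh u8
      have u28 : c 19 = c 44 := Classical.byContradiction fun hh => tr1 u2 u26 hh
      have u29 : c 29 = c 2 := Classical.byContradiction fun hh => tr2 u27 u11 hh
      have u30 : c 44 ≠ c 13 := fun hh => X2.n13 a22 u28 hh
      have u31 : c 29 = c 19 := Classical.byContradiction fun hh => tr3 u29 u15 hh
      have u32 : c 21 ≠ c 13 := fun hh => tr2 u24 hh u30
      have u33 : c 29 ≠ c 43 := fun hh => X2.n12 a51 u31 hh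
      have u34 : c 43 ≠ c 32 := fun hh => k3624 hh u32
      have u35 : c 43 ≠ c 21 := fun hh => tr3 u27 hh u33
      X2.n3 a155 u34 u35 u6
  have k3698 : c 43 = c 32 → c 32 ≠ c 12 → c 19 ≠ c 32 → c 19 ≠ c 12 → False := fun n0 n1 n2 n3 =>
      have u0 : c 19 ≠ c 43 := fun hh => tr2 hh n0 n2
      have u1 : c 43 ≠ c 12 := fun hh => tr1 n0 hh n1
      X2.n3 a21 u0 n3 u1
  have k3699 : c 37 ≠ c 40 → c 8 ≠ c 19 → c 40 = c 18 → c 31 ≠ c 8 → c 18 ≠ c 31 → c 40 = c 19 → False := fun n0 n1 n2 n3 n4 n5 =>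
      have u0 : c 37 ≠ c 19 := fun hh => tr3 hh n5 n0
      have u1 : c 37 ≠ c 18 := fun hh => tr3 hh n2 n0
      have u2 : c 37 = c 8 := Classical.byContradiction fun hh => X2.n3 a95 hh u0 n1
      have u3 : c 37 = c 31 := Classical.byContradiction fun hh => X2.n3 a97 u1 hh n4
      tr1 u3 u2 n3
  have k3701 : c 41 ≠ c 44 → c 19 ≠ c 13 → c 41 = c 21 → c 41 = c 19 → c 31 ≠ c 21 → c 31 ≠ c 13 → False := fun n0 n1 n2 n3 n4 n5 =>
      have u0 : c 44 ≠ c 21 := fun hh => tr3 n2 hh n0
      have u1 : c 19 ≠ c 44 := fun hh => tr2 n3 hh n0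
      have u2 : c 31 = c 44 := Classical.byContradiction fun hh => X2.n3 a74 hh n4 u0
      have u3 : c 44 = c 13 := Classical.byContradiction fun hh => X2.n3 a22 u1 n1 hh
      tr2 u2 u3 n5
  have k3702 : c 8 ≠ c 19 → c 41 ≠ c 27 → c 40 = c 18 → c 19 = c 43 → c 34 ≠ c 21 → c 29 ≠ c 43 → c 43 = c 21 → c 31 ≠ c 8 → c 29 = c 1 → c 18 ≠ c 31 → c 32 ≠ c 11 → c 29 ≠ c 11 → c 40 = c 21 → c 41 = c 21 → c 41 ≠ c 11 → c 40 = c 19 → False := fun n0 n1 n2 n3 n4 n5 n6 n7 n8 n9 n10 n11 n12 n13 n14 n15 =>
      have u0 : c 29 = c 32 := Classical.byContradiction fun hh => X2.n3 a54 hh n11 n10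
      have u1 : c 40 ≠ c 10 := fun hh => X2.n12 a125 n15 hh
      have u2 : c 8 ≠ c 43 := fun hh => tr3 hh n3 n0
      have u3 : c 37 = c 40 := Classical.byContradiction fun hh => k3699 hh n0 n2 n7 n9 n15
      have u4 : c 4 = c 21 := Classical.byContradiction fun hh => k3663 hh n4 u2 n11 n8 n6 n10 n12 u1 n13 n14
      have u5 : c 40 ≠ c 25 := fun hh => X2.n13 a100 u3 hh
      have u6 : c 25 = c 21 := Classical.byContradiction fun hh => k3660 u4 n1 hh u0 n8 n5 n6 n13
      tr3 n12 u6 u5
  have k3703 : c 31 = c 1 → c 45 = c 23 → c 46 = c 23 → False := fun n0 n1 n2 =>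
      have u0 : c 45 ≠ c 33 := fun hh => X2.n12 a159 hh n1
      have u1 : c 31 = c 33 := Classical.byContradiction fun hh => k3683 hh n1 n2
      have u2 : c 31 ≠ c 45 := fun hh => tr1 hh u1 u0
      have u3 : c 33 ≠ c 23 := fun hh => X2.n23 a80 hh n2
      have u4 : c 46 ≠ c 14 := fun hh => k3644 hh n1 n2
      have u5 : c 33 ≠ c 46 := fun hh => X2.n13 a80 hh n2
      have u6 : c 31 ≠ c 46 := fun hh => tr1 u1 hh u5
      have u7 : c 21 = c 46 := Classical.byContradiction fun hh => k3695 hh u6 u1 u4 n1 u3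
      have u8 : c 31 ≠ c 21 := fun hh => X2.n13 a70 hh u7
      have u9 : c 21 = c 45 := Classical.byContradiction fun hh => X2.n3 a69 u8 u2 hh
      have u10 : c 21 ≠ c 33 := fun hh => tr1 hh u7 u5
      have u11 : c 31 ≠ c 13 := fun hh => X2.n12 a66 hh u1
      have u12 : c 31 ≠ c 19 := fun hh => X2.n12 a67 hh n0
      have u13 : c 19 ≠ c 1 := fun hh => X2.n23 a67 n0 hh
      have u14 : c 1 ≠ c 21 := fun hh => tr2 n0 hh u8
      have u15 : c 41 ≠ c 31 := fun hh => k3506 hh n0
      have u16 : c 40 ≠ c 31 := fun hh => k3523 hh n0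
      have u17 : c 1 = c 33 := Classical.byContradiction fun hh => tr1 n0 u1 hh
      have u18 : c 1 ≠ c 45 := fun hh => tr2 n0 hh u2
      have u19 : c 1 ≠ c 13 := fun hh => tr2 n0 hh u11
      have u20 : c 19 ≠ c 33 := fun hh => tr3 u1 hh u12
      have u21 : c 40 = c 19 := Classical.byContradiction fun hh => X2.n3 a130 u16 hh u12
      have u22 : c 41 = c 19 := Classical.byContradiction fun hh => X2.n3 a141 u15 hh u12
      have u23 : c 41 ≠ c 33 := fun hh => tr3 hh u1 u15
      have u24 : c 40 ≠ c 33 := fun hh => tr3 hh u1 u16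
      have u25 : c 1 ≠ c 23 := fun hh => tr1 u17 hh u3
      have u26 : c 30 ≠ c 19 := fun hh => X2.n23 a129 u21 hh
      have u27 : c 41 ≠ c 11 := fun hh => X2.n12 a137 u22 hh
      have u28 : c 41 = c 21 := Classical.byContradiction fun hh => X2.n3 a139 hh u23 u10
      have u29 : c 40 = c 21 := Classical.byContradiction fun hh => X2.n3 a127 hh u24 u10
      have u30 : c 30 = c 1 := Classical.byContradiction fun hh => X2.n3 a57 u26 hh u13
      have u31 : c 41 ≠ c 12 := fun hh => X2.n12 a133 hh u28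
      have u32 : c 12 ≠ c 21 := fun hh => X2.n23 a133 u28 hh
      have u33 : c 11 ≠ c 21 := fun hh => tr3 u28 hh u27
      have u34 : c 30 = c 31 := Classical.byContradiction fun hh => tr3 u30 n0 hh
      have u35 : c 30 = c 33 := Classical.byContradiction fun hh => tr2 u30 u17 hh
      have u36 : c 19 ≠ c 12 := fun hh => tr2 u22 hh u31
      have u37 : c 12 ≠ c 45 := fun hh => tr3 hh u9 u32
      have u38 : c 30 ≠ c 11 := fun hh => X2.n12 a61 u34 hh
      have u39 : c 31 ≠ c 11 := fun hh => X2.n13 a61 u34 hh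
      have u40 : c 11 ≠ c 33 := fun hh => tr3 u35 hh u38
      have u41 : c 29 ≠ c 11 := fun hh => k3666 hh u39 u33 u14 n0
      have u42 : c 19 ≠ c 32 := fun hh => k3696 hh u28 u22 u8 u11
      have u43 : c 41 ≠ c 32 := fun hh => tr1 u22 hh u42
      have u44 : c 32 ≠ c 21 := fun hh => tr3 u28 hh u43
      have u45 : c 31 = c 32 := Classical.byContradiction fun hh => k3697 hh u37 u28 u18 n0 u8 u1
      have u46 : c 32 ≠ c 12 := fun hh => X2.n13 a72 u45 hh
      have u47 : c 32 = c 1 := Classical.byContradiction fun hh => tr1 u45 n0 hh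
      have u48 : c 32 ≠ c 11 := fun hh => tr2 u45 hh u39
      have u49 : c 18 ≠ c 32 := fun hh => X2.n13 a11 hh u47
      have u50 : c 18 ≠ c 1 := fun hh => X2.n23 a11 hh u47
      have u51 : c 29 = c 32 := Classical.byContradiction fun hh => X2.n3 a54 hh u41 u48
      have u52 : c 18 ≠ c 31 := fun hh => tr2 hh u45 u49
      have u53 : c 29 = c 1 := Classical.byContradiction fun hh => tr2 u51 u47 hh
      have u54 : c 29 ≠ c 19 := fun hh => tr1 hh u51 u42
      have u55 : c 8 ≠ c 1 := fun hh => k3519 u53 hh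
      have u56 : c 31 ≠ c 8 := fun hh => tr1 hh n0 u55
      have u57 : c 43 ≠ c 32 := fun hh => k3698 hh u46 u42 u36
      have u58 : c 21 ≠ c 13 := fun hh => k3580 hh u57
      have u59 : c 43 = c 21 := Classical.byContradiction fun hh => X2.n3 a155 u57 hh u44
      have u60 : c 29 ≠ c 43 := fun hh => tr1 hh u51 u57
      have u61 : c 13 ≠ c 46 := fun hh => tr3 u7 hh u58
      have u62 : c 34 ≠ c 21 := fun hh => k3662 hh u19 u14 u58
      have u63 : c 41 ≠ c 13 := fun hh => tr1 u28 hh u58
      have u64 : c 19 = c 43 := Classical.byContradiction fun hh => X2.n3 a51 u54 u60 hh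
      have u65 : c 19 ≠ c 13 := fun hh => tr2 u22 hh u63
      have u66 : c 19 = c 46 := Classical.byContradiction fun hh => X2.n3 a17 u65 hh u61
      have u67 : c 28 ≠ c 19 := fun hh => X2.n13 a42 hh u66
      have u68 : c 28 ≠ c 46 := fun hh => X2.n23 a42 hh u66
      have u69 : c 40 ≠ c 28 := fun hh => tr1 hh u21 u67
      have u70 : c 28 ≠ c 23 := fun hh => tr3 hh n2 u68
      have u71 : c 28 = c 1 := Classical.byContradiction fun hh => X2.n3 a35 hh u70 u25
      have u72 : c 28 ≠ c 18 := fun hh => tr1 hh u71 u50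
      have u73 : c 40 = c 18 := Classical.byContradiction fun hh => X2.n3 a128 u69 hh u72
      have u74 : c 41 = c 44 := Classical.byContradiction fun hh => k3701 hh u65 u28 u22 u8 u11
      have u75 : c 41 ≠ c 27 := fun hh => X2.n12 a143 u74 hh
      have u76 : c 44 ≠ c 33 := fun hh => tr2 u74 hh u23
      have u77 : c 44 = c 23 := Classical.byContradiction fun hh => X2.n3 a158 u76 hh u3
      have u78 : c 41 = c 23 := Classical.byContradiction fun hh => tr2 u74 u77 hh
      have u79 : c 11 ≠ c 23 := fun hh => tr3 u78 hh u27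
      have u80 : c 8 = c 19 := Classical.byContradiction fun hh => k3702 hh u75 u73 u64 u62 u60 u59 u56 u53 u52 u48 u41 u29 u28 u27 u21
      have u81 : c 37 ≠ c 19 := fun hh => X2.n23 a95 hh u80
      have u82 : c 37 = c 33 := Classical.byContradiction fun hh => X2.n3 a98 u81 hh u20
      have u83 : c 37 ≠ c 23 := fun hh => tr1 u82 hh u3
      have u84 : c 37 ≠ c 11 := fun hh => tr1 hh u82 u40
      X2.n3 a96 u84 u83 u79
  have k3704 : c 41 = c 44 → c 19 = c 11 → c 19 = c 10 → c 19 = c 1 → c 31 ≠ c 19 → c 1 ≠ c 33 → c 21 = c 45 → c 31 ≠ c 21 → c 21 ≠ c 14 → c 31 = c 33 → False := fun n0 n1 n2 n3 n4 n5 n6 n7 n8 n9 =>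
      have u0 : c 31 ≠ c 13 := fun hh => X2.n12 a66 hh n9
      have u1 : c 41 ≠ c 19 := fun hh => k3536 hh n3
      have u2 : c 41 = c 31 := Classical.byContradiction fun hh => X2.n3 a141 hh u1 n4
      have u3 : c 41 ≠ c 13 := fun hh => tr1 u2 hh u0
      have u4 : c 41 = c 33 := Classical.byContradiction fun hh => tr2 u2 n9 hh
      have u5 : c 41 ≠ c 21 := fun hh => tr1 u2 hh n7
      have u6 : c 44 = c 33 := Classical.byContradiction fun hh => tr1 n0 u4 hh
      have u7 : c 19 ≠ c 44 := fun hh => tr3 n0 hh u1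
      have u8 : c 44 ≠ c 21 := fun hh => tr2 n0 hh u5
      have u9 : c 44 ≠ c 13 := fun hh => tr2 n0 hh u3
      have u10 : c 44 = c 14 := Classical.byContradiction fun hh => X2.n3 a157 u8 hh n8
      have u11 : c 19 = c 13 := Classical.byContradiction fun hh => X2.n3 a22 u7 hh u9
      have u12 : c 33 = c 14 := Classical.byContradiction fun hh => tr1 u6 u10 hh
      have u13 : c 45 ≠ c 13 := fun hh => X2.n23 a24 u11 hh
      have u14 : c 19 ≠ c 32 := fun hh => k3560 hh u11
      have u15 : c 1 = c 13 := Classical.byContradiction fun hh => tr1 n3 u11 hh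
      have u16 : c 32 ≠ c 33 := fun hh => X2.n13 a79 hh u12
      have u17 : c 21 ≠ c 13 := fun hh => tr1 n6 hh u13
      have u18 : c 32 ≠ c 1 := fun hh => tr3 n3 hh u14
      have u19 : c 10 ≠ c 32 := fun hh => tr2 n2 hh u14
      have u20 : c 1 ≠ c 21 := fun hh => tr1 hh u15 u17
      have u21 : c 31 ≠ c 32 := fun hh => tr1 hh n9 u16
      have u22 : c 43 ≠ c 32 := fun hh => k3624 hh u17
      have u23 : c 18 ≠ c 33 := fun hh => k3619 hh n5 u18 u16
      have u24 : c 31 ≠ c 2 := fun hh => k3647 hh u14 u21 n4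
      have u25 : c 21 = c 2 := Classical.byContradiction fun hh => X2.n3 a68 n7 u24 hh
      have u26 : c 2 ≠ c 33 := fun hh => tr3 n9 hh u24
      have u27 : c 35 ≠ c 2 := fun hh => k3496 hh u25
      have u28 : c 1 ≠ c 2 := fun hh => tr3 hh u25 u20
      have u29 : c 18 = c 2 := Classical.byContradiction fun hh => X2.n3 a8 hh u23 u26
      have u30 : c 19 ≠ c 2 := fun hh => tr1 n3 hh u28
      have u31 : c 18 ≠ c 1 := fun hh => tr1 hh u29 u28
      have u32 : c 32 = c 2 := Classical.byContradiction fun hh => X2.n3 a18 u14 u30 hh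
      have u33 : c 11 ≠ c 2 := fun hh => tr2 n1 hh u30
      have u34 : c 18 = c 32 := Classical.byContradiction fun hh => X2.n3 a11 hh u31 u18
      have u35 : c 43 ≠ c 2 := fun hh => tr3 hh u32 u22
      have u36 : c 35 = c 11 := Classical.byContradiction fun hh => X2.n3 a88 hh u27 u33
      have u37 : c 43 = c 1 := Classical.byContradiction fun hh => X2.n3 a150 hh u35 u28
      have u38 : c 19 = c 35 := Classical.byContradiction fun hh => tr3 n1 u36 hh
      have u39 : c 19 = c 43 := Classical.byContradiction fun hh => tr3 n3 u37 hh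
      have u40 : c 35 = c 1 := Classical.byContradiction fun hh => tr1 u38 n3 hh
      have u41 : c 29 ≠ c 19 := fun hh => X2.n13 a51 hh u39
      have u42 : c 8 ≠ c 35 := fun hh => X2.n13 a1 hh u40
      have u43 : c 29 ≠ c 10 := fun hh => tr3 hh n2 u41
      have u44 : c 8 ≠ c 19 := fun hh => tr2 hh u38 u42
      have u45 : c 29 = c 32 := Classical.byContradiction fun hh => X2.n3 a48 u43 hh u19
      have u46 : c 29 = c 18 := Classical.byContradiction fun hh => tr3 u45 u34 hh
      have u47 : c 39 ≠ c 29 := fun hh => X2.n13 a119 hh u46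
      have u48 : c 39 ≠ c 18 := fun hh => X2.n23 a119 hh u46
      have u49 : c 18 ≠ c 8 := fun hh => k3532 u46 hh
      have u50 : c 39 ≠ c 32 := fun hh => tr3 hh u45 u47
      have u51 : c 39 = c 8 := Classical.byContradiction fun hh => X2.n3 a116 u48 hh u49
      have u52 : c 39 = c 19 := Classical.byContradiction fun hh => X2.n3 a117 hh u50 u14
      tr1 u51 u52 u44
  have k3705 : c 32 ≠ c 1 → c 31 ≠ c 32 → c 43 = c 32 → c 43 ≠ c 21 → c 1 ≠ c 21 → c 19 = c 1 → c 31 ≠ c 19 → c 31 ≠ c 21 → False := fun n0 n1 n2 n3 n4 n5 n6 n7 =>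
      have u0 : c 19 ≠ c 32 := fun hh => tr1 hh n5 n0
      have u1 : c 43 ≠ c 1 := fun hh => tr1 n2 hh n0
      have u2 : c 31 ≠ c 2 := fun hh => k3647 hh u0 n1 n6
      have u3 : c 21 = c 2 := Classical.byContradiction fun hh => X2.n3 a68 n7 u2 hh
      have u4 : c 1 ≠ c 2 := fun hh => tr3 hh u3 n4
      have u5 : c 43 ≠ c 2 := fun hh => tr3 hh u3 n3
      X2.n3 a150 u1 u5 u4
  have k3706 : c 31 ≠ c 32 → c 21 = c 13 → c 1 ≠ c 21 → c 42 = c 32 → c 32 ≠ c 21 → c 19 = c 10 → c 19 = c 1 → c 31 ≠ c 19 → c 31 ≠ c 21 → c 31 = c 33 → c 45 = c 23 → False := fun n0 n1 n2 n3 n4 n5 n6 n7 n8 n9 n10 =>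
      have u0 : c 43 = c 32 := Classical.byContradiction fun hh => k3580 n1 hh
      have u1 : c 45 ≠ c 33 := fun hh => X2.n12 a159 hh n10
      have u2 : c 31 ≠ c 45 := fun hh => tr1 hh n9 u1
      have u3 : c 21 = c 45 := Classical.byContradiction fun hh => X2.n3 a69 n8 u2 hh
      have u4 : c 45 = c 13 := Classical.byContradiction fun hh => tr1 u3 n1 hh
      have u5 : c 43 ≠ c 21 := fun hh => X2.n13 a154 hh n1
      have u6 : c 32 = c 1 := Classical.byContradiction fun hh => k3705 hh n0 u0 u5 n2 n6 n7 n8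
      have u7 : c 19 = c 32 := Classical.byContradiction fun hh => tr3 n6 u6 hh
      have u8 : c 38 ≠ c 19 := fun hh => X2.n13 a108 hh u7
      have u9 : c 10 = c 32 := Classical.byContradiction fun hh => tr1 n5 u7 hh
      have u10 : c 42 = c 19 := Classical.byContradiction fun hh => tr3 n3 u7 hh
      have u11 : c 38 ≠ c 10 := fun hh => tr3 hh n5 u8
      have u12 : c 29 ≠ c 32 := fun hh => X2.n23 a48 hh u9
      have u13 : c 10 ≠ c 21 := fun hh => tr1 u9 hh n4
      have u14 : c 42 ≠ c 12 := fun hh => X2.n12 a145 u10 hh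
      have u15 : c 38 = c 21 := Classical.byContradiction fun hh => X2.n3 a103 u11 hh u13
      have u16 : c 29 ≠ c 1 := fun hh => tr3 hh u6 u12
      have u17 : c 32 ≠ c 12 := fun hh => tr2 n3 hh u14
      have u18 : c 38 = c 13 := Classical.byContradiction fun hh => tr2 u15 n1 hh
      have u19 : c 29 = c 21 := Classical.byContradiction fun hh => X2.n3 a44 u16 hh n2
      have u20 : c 31 = c 12 := Classical.byContradiction fun hh => X2.n3 a72 n0 hh u17
      have u21 : c 38 = c 29 := Classical.byContradiction fun hh => tr3 u15 u19 hh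
      have u22 : c 12 ≠ c 45 := fun hh => tr2 u20 hh u2
      have u23 : c 12 ≠ c 21 := fun hh => tr2 u20 hh n8
      have u24 : c 12 = c 33 := Classical.byContradiction fun hh => tr1 u20 n9 hh
      have u25 : c 38 ≠ c 18 := fun hh => X2.n12 a112 u21 hh
      have u26 : c 12 ≠ c 23 := fun hh => tr3 hh n10 u22
      have u27 : c 38 ≠ c 12 := fun hh => tr1 hh u15 u23
      have u28 : c 18 ≠ c 13 := fun hh => tr3 u18 hh u25
      have u29 : c 38 = c 23 := Classical.byContradiction fun hh => X2.n3 a106 u27 hh u26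
      have u30 : c 18 ≠ c 45 := fun hh => tr2 hh u4 u28
      have u31 : c 29 = c 23 := Classical.byContradiction fun hh => tr1 u21 u29 hh
      have u32 : c 18 = c 12 := Classical.byContradiction fun hh => X2.n3 a9 hh u30 u22
      have u33 : c 29 ≠ c 2 := fun hh => X2.n12 a46 hh u31
      have u34 : c 18 = c 33 := Classical.byContradiction fun hh => tr2 u32 u24 hh
      have u35 : c 18 = c 31 := Classical.byContradiction fun hh => tr3 u32 u20 hh
      have u36 : c 21 ≠ c 2 := fun hh => tr2 u19 hh u33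
      have u37 : c 18 ≠ c 2 := fun hh => X2.n12 a8 hh u34
      have u38 : c 31 = c 2 := Classical.byContradiction fun hh => X2.n3 a68 n8 hh u36
      tr2 u35 u38 u37
  have k3707 : c 31 ≠ c 19 → c 31 ≠ c 1 → c 31 ≠ c 21 → c 21 ≠ c 14 → c 31 = c 33 → c 45 = c 23 → c 33 ≠ c 23 → False := fun n0 n1 n2 n3 n4 n5 n6 =>
      have u0 : c 1 ≠ c 33 := fun hh => tr3 n4 hh n1
      have u1 : c 45 ≠ c 33 := fun hh => X2.n12 a159 hh n5
      have u2 : c 31 ≠ c 45 := fun hh => tr1 hh n4 u1
      have u3 : c 21 = c 45 := Classical.byContradiction fun hh => X2.n3 a69 n2 u2 hh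
      have u4 : c 31 ≠ c 15 := fun hh => X2.n12 a73 n4 hh
      have u5 : c 40 = c 31 := Classical.byContradiction fun hh => k3628 n0 n1 hh
      have u6 : c 19 = c 1 := Classical.byContradiction fun hh => X2.n3 a67 n0 n1 hh
      have u7 : c 40 ≠ c 19 := fun hh => X2.n12 a130 u5 hh
      have u8 : c 40 ≠ c 21 := fun hh => tr1 u5 hh n2
      have u9 : c 30 ≠ c 19 := fun hh => X2.n13 a57 hh u6
      have u10 : c 41 ≠ c 19 := fun hh => k3536 hh u6
      have u11 : c 40 = c 30 := Classical.byContradiction fun hh => X2.n3 a129 hh u7 u9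
      have u12 : c 30 = c 41 := Classical.byContradiction fun hh => X2.n3 a64 hh u9 u10
      have u13 : c 41 = c 31 := Classical.byContradiction fun hh => X2.n3 a141 hh u10 n0
      have u14 : c 30 = c 31 := Classical.byContradiction fun hh => tr1 u11 u5 hh
      have u15 : c 41 = c 33 := Classical.byContradiction fun hh => tr2 u13 n4 hh
      have u16 : c 41 ≠ c 15 := fun hh => tr1 u13 hh u4
      have u17 : c 30 ≠ c 10 := fun hh => X2.n12 a60 u14 hh
      have u18 : c 30 ≠ c 11 := fun hh => X2.n12 a61 u14 hh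
      have u19 : c 41 ≠ c 23 := fun hh => tr1 u15 hh n6
      have u20 : c 41 ≠ c 10 := fun hh => tr2 u12 hh u17
      have u21 : c 41 ≠ c 11 := fun hh => tr2 u12 hh u18
      have u22 : c 23 = c 15 := Classical.byContradiction fun hh => X2.n3 a140 u19 u16 hh
      have u23 : c 19 = c 10 := Classical.byContradiction fun hh => X2.n3 a136 u10 u20 hh
      have u24 : c 19 = c 11 := Classical.byContradiction fun hh => X2.n3 a137 u10 u21 hh
      have u25 : c 41 ≠ c 44 := fun hh => k3704 hh u24 u23 u6 n0 u0 u3 n2 n3 n4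
      have u26 : c 44 ≠ c 33 := fun hh => tr3 u15 hh u25
      have u27 : c 31 ≠ c 44 := fun hh => tr2 u13 hh u25
      have u28 : c 44 = c 23 := Classical.byContradiction fun hh => X2.n3 a158 u26 hh n6
      have u29 : c 44 = c 21 := Classical.byContradiction fun hh => X2.n3 a74 u27 n2 hh
      have u30 : c 44 = c 45 := Classical.byContradiction fun hh => tr3 u28 n5 hh
      have u31 : c 44 = c 15 := Classical.byContradiction fun hh => tr2 u28 u22 hh
      have u32 : c 19 ≠ c 44 := fun hh => X2.n13 a23 hh u31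
      have u33 : c 21 = c 15 := Classical.byContradiction fun hh => tr1 u29 u31 hh
      have u34 : c 19 ≠ c 45 := fun hh => tr3 hh u30 u32
      have u35 : c 42 ≠ c 21 := fun hh => X2.n13 a147 hh u33
      have u36 : c 32 ≠ c 21 := fun hh => k3546 hh u33
      have u37 : c 1 ≠ c 45 := fun hh => tr2 u6 hh u34
      have u38 : c 42 = c 32 := Classical.byContradiction fun hh => X2.n3 a148 hh u35 u36
      have u39 : c 1 ≠ c 21 := fun hh => tr2 hh u3 u37
      have u40 : c 42 ≠ c 13 := fun hh => k3552 u38 hh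
      have u41 : c 21 = c 13 := Classical.byContradiction fun hh => X2.n3 a146 u35 u40 hh
      have u42 : c 43 = c 32 := Classical.byContradiction fun hh => k3580 u41 hh
      have u43 : c 31 = c 32 := Classical.byContradiction fun hh => k3706 hh u41 u39 u38 u36 u23 u6 n0 n2 n4 n5
      have u44 : c 31 ≠ c 12 := fun hh => X2.n12 a72 u43 hh
      have u45 : c 32 ≠ c 12 := fun hh => X2.n13 a72 u43 hh
      have u46 : c 19 ≠ c 32 := fun hh => tr3 u43 hh n0
      have u47 : c 40 ≠ c 12 := fun hh => tr1 u5 hh u44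
      have u48 : c 19 = c 12 := Classical.byContradiction fun hh => k3698 u42 u45 u46 hh
      have u49 : c 12 = c 21 := Classical.byContradiction fun hh => X2.n3 a123 u47 u8 hh
      have u50 : c 12 ≠ c 45 := fun hh => tr2 u48 hh u34
      tr2 u49 u3 u50
  have k3708 : c 45 = c 23 → c 46 = c 23 → False := fun n0 n1 =>
      have u0 : c 33 ≠ c 23 := fun hh => X2.n23 a80 hh n1
      have u1 : c 33 ≠ c 46 := fun hh => X2.n13 a80 hh n1
      have u2 : c 45 ≠ c 33 := fun hh => X2.n12 a159 hh n0
      have u3 : c 46 ≠ c 14 := fun hh => k3644 hh n0 n1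
      have u4 : c 31 = c 33 := Classical.byContradiction fun hh => k3683 hh n0 n1
      have u5 : c 31 ≠ c 13 := fun hh => X2.n12 a66 hh u4
      have u6 : c 13 ≠ c 33 := fun hh => X2.n23 a66 u4 hh
      have u7 : c 31 ≠ c 46 := fun hh => tr1 u4 hh u1
      have u8 : c 31 ≠ c 45 := fun hh => tr1 hh u4 u2
      have u9 : c 21 = c 46 := Classical.byContradiction fun hh => k3695 hh u7 u4 u3 n0 u0
      have u10 : c 21 ≠ c 14 := fun hh => X2.n12 a26 u9 hh
      have u11 : c 31 ≠ c 21 := fun hh => X2.n13 a70 hh u9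
      have u12 : c 21 ≠ c 33 := fun hh => tr1 hh u9 u1
      have u13 : c 21 = c 45 := Classical.byContradiction fun hh => X2.n3 a69 u11 u8 hh
      have u14 : c 30 ≠ c 21 := fun hh => X2.n13 a58 hh u13
      have u15 : c 30 ≠ c 46 := fun hh => tr3 hh u9 u14
      have u16 : c 31 ≠ c 1 := fun hh => k3703 hh n0 n1
      have u17 : c 31 = c 19 := Classical.byContradiction fun hh => k3707 hh u16 u11 u10 u4 n0 u0
      have u18 : c 41 ≠ c 31 := fun hh => X2.n13 a141 hh u17
      have u19 : c 41 ≠ c 19 := fun hh => X2.n23 a141 hh u17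
      have u20 : c 40 ≠ c 31 := fun hh => X2.n13 a130 hh u17
      have u21 : c 40 ≠ c 19 := fun hh => X2.n23 a130 hh u17
      have u22 : c 19 = c 33 := Classical.byContradiction fun hh => tr1 u17 u4 hh
      have u23 : c 19 ≠ c 46 := fun hh => tr2 u17 hh u7
      have u24 : c 19 ≠ c 45 := fun hh => tr2 u17 hh u8
      have u25 : c 19 ≠ c 13 := fun hh => tr2 u17 hh u5
      have u26 : c 41 ≠ c 33 := fun hh => tr3 hh u4 u18
      have u27 : c 40 ≠ c 33 := fun hh => tr3 hh u4 u20
      have u28 : c 13 = c 46 := Classical.byContradiction fun hh => X2.n3 a17 u25 u23 hh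
      have u29 : c 41 = c 21 := Classical.byContradiction fun hh => X2.n3 a139 hh u26 u12
      have u30 : c 40 = c 21 := Classical.byContradiction fun hh => X2.n3 a127 hh u27 u12
      have u31 : c 21 = c 13 := Classical.byContradiction fun hh => tr3 u9 u28 hh
      have u32 : c 30 ≠ c 13 := fun hh => tr2 hh u28 u15
      have u33 : c 40 ≠ c 30 := fun hh => tr1 hh u30 u14
      have u34 : c 42 ≠ c 21 := fun hh => X2.n13 a146 hh u31
      have u35 : c 32 ≠ c 21 := fun hh => k3493 hh u31
      have u36 : c 43 = c 32 := Classical.byContradiction fun hh => k3580 u31 hh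
      have u37 : c 41 = c 13 := Classical.byContradiction fun hh => tr2 u29 u31 hh
      have u38 : c 30 = c 33 := Classical.byContradiction fun hh => X2.n3 a56 u32 hh u6
      have u39 : c 30 = c 19 := Classical.byContradiction fun hh => X2.n3 a129 u33 u21 hh
      have u40 : c 42 = c 32 := Classical.byContradiction fun hh => X2.n3 a148 hh u34 u35
      have u41 : c 27 = c 13 := Classical.byContradiction fun hh => k3579 u36 hh
      have u42 : c 41 = c 27 := Classical.byContradiction fun hh => tr3 u37 u41 hh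
      have u43 : c 30 = c 31 := Classical.byContradiction fun hh => tr3 u38 u4 hh
      have u44 : c 42 ≠ c 15 := fun hh => k3504 u40 hh
      have u45 : c 41 ≠ c 44 := fun hh => X2.n12 a143 hh u42
      have u46 : c 30 ≠ c 11 := fun hh => X2.n12 a61 u43 hh
      have u47 : c 21 = c 15 := Classical.byContradiction fun hh => X2.n3 a147 u34 u44 hh
      have u48 : c 44 ≠ c 13 := fun hh => tr3 u37 hh u45
      have u49 : c 11 ≠ c 33 := fun hh => tr3 u38 hh u46
      have u50 : c 19 ≠ c 11 := fun hh => tr2 u39 hh u46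
      have u51 : c 41 = c 15 := Classical.byContradiction fun hh => tr2 u29 u47 hh
      have u52 : c 19 = c 44 := Classical.byContradiction fun hh => X2.n3 a22 hh u25 u48
      have u53 : c 41 = c 11 := Classical.byContradiction fun hh => X2.n3 a137 u19 hh u50
      have u54 : c 41 ≠ c 23 := fun hh => X2.n12 a140 hh u51
      have u55 : c 28 ≠ c 19 := fun hh => X2.n13 a40 hh u52
      have u56 : c 11 ≠ c 23 := fun hh => tr2 u53 hh u54
      have u57 : c 28 ≠ c 33 := fun hh => tr3 hh u22 u55
      have u58 : c 28 = c 45 := Classical.byContradiction fun hh => X2.n3 a41 u55 hh u24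
      have u59 : c 28 = c 11 := Classical.byContradiction fun hh => X2.n3 a37 hh u57 u49
      have u60 : c 28 = c 23 := Classical.byContradiction fun hh => tr2 u58 n0 hh
      tr1 u59 u60 u56
  have k3709 : c 21 = c 46 → c 31 ≠ c 21 → c 43 = c 32 → c 31 = c 19 → c 46 = c 23 → False := fun n0 n1 n2 n3 n4 =>
      have u0 : c 21 = c 13 := Classical.byContradiction fun hh => k3624 n2 hh
      have u1 : c 31 ≠ c 13 := fun hh => tr3 hh u0 n1
      have u2 : c 42 ≠ c 21 := fun hh => X2.n13 a146 hh u0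
      have u3 : c 32 ≠ c 21 := fun hh => X2.n13 a155 n2 hh
      have u4 : c 42 = c 32 := Classical.byContradiction fun hh => X2.n3 a148 hh u2 u3
      have u5 : c 42 ≠ c 15 := fun hh => k3504 u4 hh
      have u6 : c 21 = c 15 := Classical.byContradiction fun hh => X2.n3 a147 u2 u5 hh
      have u7 : c 41 ≠ c 19 := fun hh => X2.n23 a141 hh n3
      have u8 : c 41 ≠ c 31 := fun hh => X2.n13 a141 hh n3
      have u9 : c 19 ≠ c 1 := fun hh => X2.n13 a67 n3 hh
      have u10 : c 33 ≠ c 23 := fun hh => X2.n23 a80 hh n4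
      have u11 : c 45 ≠ c 23 := fun hh => k3708 hh n4
      have u12 : c 45 = c 33 := Classical.byContradiction fun hh => X2.n3 a159 hh u11 u10
      have u13 : c 33 ≠ c 46 := fun hh => X2.n13 a80 hh n4
      have u14 : c 31 ≠ c 46 := fun hh => X2.n23 a70 hh n0
      have u15 : c 21 ≠ c 33 := fun hh => tr1 hh n0 u13
      have u16 : c 19 ≠ c 46 := fun hh => tr2 n3 hh u14
      have u17 : c 21 ≠ c 45 := fun hh => tr2 hh u12 u15
      have u18 : c 13 ≠ c 33 := fun hh => tr2 u0 hh u15
      have u19 : c 31 = c 45 := Classical.byContradiction fun hh => X2.n3 a69 n1 hh u17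
      have u20 : c 31 = c 33 := Classical.byContradiction fun hh => X2.n3 a66 u1 hh u18
      have u21 : c 19 = c 45 := Classical.byContradiction fun hh => tr1 n3 u19 hh
      have u22 : c 19 = c 33 := Classical.byContradiction fun hh => tr1 n3 u20 hh
      have u23 : c 41 ≠ c 33 := fun hh => tr3 hh u20 u8
      have u24 : c 28 ≠ c 19 := fun hh => X2.n13 a41 hh u21
      have u25 : c 41 = c 21 := Classical.byContradiction fun hh => X2.n3 a139 hh u23 u15
      have u26 : c 28 ≠ c 33 := fun hh => tr3 hh u22 u24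
      have u27 : c 28 = c 46 := Classical.byContradiction fun hh => X2.n3 a42 u24 hh u16
      have u28 : c 1 ≠ c 21 := fun hh => k3534 u25 hh
      have u29 : c 41 = c 15 := Classical.byContradiction fun hh => tr2 u25 u6 hh
      have u30 : c 28 = c 23 := Classical.byContradiction fun hh => tr2 u27 n4 hh
      have u31 : c 30 = c 19 := Classical.byContradiction fun hh => k3590 hh u28 u21 u9 u17
      have u32 : c 41 ≠ c 23 := fun hh => X2.n12 a140 hh u29
      have u33 : c 28 ≠ c 41 := fun hh => tr1 hh u30 u32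
      have u34 : c 30 = c 33 := Classical.byContradiction fun hh => tr2 u31 u22 hh
      have u35 : c 30 = c 31 := Classical.byContradiction fun hh => tr3 u31 n3 hh
      have u36 : c 30 ≠ c 11 := fun hh => X2.n12 a61 u35 hh
      have u37 : c 11 ≠ c 33 := fun hh => tr3 u34 hh u36
      have u38 : c 19 ≠ c 11 := fun hh => tr2 u31 hh u36
      have u39 : c 28 = c 11 := Classical.byContradiction fun hh => X2.n3 a37 hh u26 u37
      have u40 : c 41 = c 11 := Classical.byContradiction fun hh => X2.n3 a137 u7 hh u38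
      tr3 u39 u40 u33
  have k3710 : c 31 ≠ c 21 → c 43 = c 32 → c 31 = c 19 → c 46 = c 23 → False := fun n0 n1 n2 n3 =>
      have u0 : c 21 = c 13 := Classical.byContradiction fun hh => k3624 n1 hh
      have u1 : c 42 ≠ c 21 := fun hh => X2.n13 a146 hh u0
      have u2 : c 32 ≠ c 21 := fun hh => X2.n13 a155 n1 hh
      have u3 : c 42 = c 32 := Classical.byContradiction fun hh => X2.n3 a148 hh u1 u2
      have u4 : c 42 ≠ c 15 := fun hh => k3504 u3 hh
      have u5 : c 21 = c 15 := Classical.byContradiction fun hh => X2.n3 a147 u1 u4 hh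
      have u6 : c 27 = c 13 := Classical.byContradiction fun hh => k3579 n1 hh
      have u7 : c 43 ≠ c 21 := fun hh => X2.n12 a155 n1 hh
      have u8 : c 40 ≠ c 19 := fun hh => X2.n23 a130 hh n2
      have u9 : c 19 ≠ c 1 := fun hh => X2.n13 a67 n2 hh
      have u10 : c 33 ≠ c 23 := fun hh => X2.n23 a80 hh n3
      have u11 : c 45 ≠ c 23 := fun hh => k3708 hh n3
      have u12 : c 45 = c 33 := Classical.byContradiction fun hh => X2.n3 a159 hh u11 u10
      have u13 : c 33 ≠ c 46 := fun hh => X2.n13 a80 hh n3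
      have u14 : c 31 ≠ c 13 := fun hh => tr3 hh u0 n0
      have u15 : c 31 ≠ c 15 := fun hh => tr3 hh u5 n0
      have u16 : c 21 ≠ c 46 := fun hh => k3709 hh n0 n1 n2 n3
      have u17 : c 31 = c 46 := Classical.byContradiction fun hh => X2.n3 a70 n0 hh u16
      have u18 : c 31 ≠ c 33 := fun hh => tr1 hh u17 u13
      have u19 : c 19 = c 46 := Classical.byContradiction fun hh => tr1 n2 u17 hh
      have u20 : c 31 ≠ c 45 := fun hh => tr2 hh u12 u18
      have u21 : c 19 ≠ c 33 := fun hh => tr2 n2 hh u18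
      have u22 : c 13 = c 33 := Classical.byContradiction fun hh => X2.n3 a66 u14 u18 hh
      have u23 : c 33 = c 15 := Classical.byContradiction fun hh => X2.n3 a73 u18 u15 hh
      have u24 : c 28 ≠ c 19 := fun hh => X2.n13 a42 hh u19
      have u25 : c 28 ≠ c 46 := fun hh => X2.n23 a42 hh u19
      have u26 : c 19 ≠ c 45 := fun hh => tr2 n2 hh u20
      have u27 : c 21 = c 45 := Classical.byContradiction fun hh => X2.n3 a69 n0 u20 hh
      have u28 : c 45 = c 13 := Classical.byContradiction fun hh => tr3 u12 u22 hh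
      have u29 : c 21 = c 33 := Classical.byContradiction fun hh => tr2 u0 u22 hh
      have u30 : c 23 ≠ c 15 := fun hh => tr3 u23 hh u10
      have u31 : c 28 = c 45 := Classical.byContradiction fun hh => X2.n3 a41 u24 hh u26
      have u32 : c 28 ≠ c 23 := fun hh => tr3 hh n3 u25
      have u33 : c 30 ≠ c 45 := fun hh => X2.n23 a58 hh u27
      have u34 : c 32 ≠ c 45 := fun hh => tr3 hh u27 u2
      have u35 : c 40 ≠ c 33 := fun hh => X2.n23 a127 hh u29
      have u36 : c 41 ≠ c 21 := fun hh => X2.n13 a139 hh u29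
      have u37 : c 28 = c 33 := Classical.byContradiction fun hh => tr2 u31 u12 hh
      have u38 : c 41 ≠ c 15 := fun hh => tr3 hh u5 u36
      have u39 : c 40 ≠ c 28 := fun hh => tr2 hh u37 u35
      have u40 : c 41 = c 23 := Classical.byContradiction fun hh => X2.n3 a140 hh u38 u30
      have u41 : c 1 ≠ c 23 := fun hh => k3517 u40 hh
      have u42 : c 28 = c 1 := Classical.byContradiction fun hh => X2.n3 a35 hh u32 u41
      have u43 : c 1 = c 45 := Classical.byContradiction fun hh => tr1 u42 u31 hh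
      have u44 : c 1 = c 33 := Classical.byContradiction fun hh => tr1 u42 u37 hh
      have u45 : c 1 ≠ c 3 := fun hh => X2.n12 a0 u43 hh
      have u46 : c 30 ≠ c 1 := fun hh => tr2 hh u43 u33
      have u47 : c 1 = c 21 := Classical.byContradiction fun hh => tr3 u43 u27 hh
      have u48 : c 32 ≠ c 1 := fun hh => tr2 hh u43 u34
      have u49 : c 1 = c 13 := Classical.byContradiction fun hh => tr2 u43 u28 hh
      have u50 : c 21 ≠ c 3 := fun hh => tr2 u47 hh u45
      have u51 : c 33 ≠ c 3 := fun hh => tr2 u44 hh u45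
      have u52 : c 30 = c 19 := Classical.byContradiction fun hh => X2.n3 a57 hh u46 u9
      have u53 : c 29 ≠ c 1 := fun hh => X2.n13 a44 hh u47
      have u54 : c 43 ≠ c 1 := fun hh => tr2 hh u47 u7
      have u55 : c 34 ≠ c 13 := fun hh => X2.n23 a81 hh u49
      have u56 : c 1 = c 27 := Classical.byContradiction fun hh => tr3 u49 u6 hh
      have u57 : c 32 = c 3 := Classical.byContradiction fun hh => X2.n3 a75 u2 hh u50
      have u58 : c 19 = c 3 := Classical.byContradiction fun hh => X2.n3 a19 u21 hh u51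
      have u59 : c 30 = c 31 := Classical.byContradiction fun hh => tr3 u52 n2 hh
      have u60 : c 34 ≠ c 27 := fun hh => tr2 hh u6 u55
      have u61 : c 29 ≠ c 27 := fun hh => tr3 hh u56 u53
      have u62 : c 19 = c 32 := Classical.byContradiction fun hh => tr3 u58 u57 hh
      have u63 : c 30 ≠ c 10 := fun hh => X2.n12 a60 u59 hh
      have u64 : c 31 ≠ c 10 := fun hh => X2.n13 a60 u59 hh
      have u65 : c 19 ≠ c 2 := fun hh => X2.n12 a18 u62 hh
      have u66 : c 31 = c 32 := Classical.byContradiction fun hh => tr2 n2 u62 hh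
      have u67 : c 29 ≠ c 32 := fun hh => k3574 hh u62 u54 u48 u2
      have u68 : c 19 ≠ c 10 := fun hh => tr2 u52 hh u63
      have u69 : c 21 = c 2 := Classical.byContradiction fun hh => k3599 n2 u19 u65 hh
      have u70 : c 10 ≠ c 32 := fun hh => tr3 u66 hh u64
      have u71 : c 29 = c 10 := Classical.byContradiction fun hh => X2.n3 a48 hh u67 u70
      have u72 : c 40 = c 10 := Classical.byContradiction fun hh => X2.n3 a125 u8 hh u68
      have u73 : c 2 = c 33 := Classical.byContradiction fun hh => tr1 u69 u29 hh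
      have u74 : c 10 ≠ c 27 := fun hh => tr2 u71 hh u61
      have u75 : c 18 ≠ c 33 := fun hh => X2.n23 a8 hh u73
      have u76 : c 34 = c 10 := Classical.byContradiction fun hh => X2.n3 a83 hh u60 u74
      have u77 : c 28 ≠ c 18 := fun hh => tr1 hh u37 u75
      have u78 : c 18 ≠ c 10 := fun hh => k3541 u76 hh
      have u79 : c 40 = c 18 := Classical.byContradiction fun hh => X2.n3 a128 u39 hh u77
      tr1 u79 u72 u78
  have k3711 : c 41 ≠ c 32 → c 32 ≠ c 1 → c 32 = c 2 → c 31 ≠ c 32 → c 41 ≠ c 21 → c 31 = c 21 → c 45 = c 33 → False := fun n0 n1 n2 n3 n4 n5 n6 =>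
      have u0 : c 21 ≠ c 45 := fun hh => X2.n13 a69 n5 hh
      have u1 : c 21 ≠ c 33 := fun hh => tr3 hh n6 u0
      have u2 : c 41 = c 33 := Classical.byContradiction fun hh => X2.n3 a139 n4 hh u1
      have u3 : c 1 ≠ c 33 := fun hh => k3542 u2 hh
      have u4 : c 31 ≠ c 45 := fun hh => X2.n12 a69 n5 hh
      have u5 : c 32 ≠ c 33 := fun hh => tr3 u2 hh n0
      have u6 : c 31 = c 12 := Classical.byContradiction fun hh => k3685 hh n0 n3 n4 n5
      have u7 : c 2 ≠ c 33 := fun hh => tr2 n2 hh u5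
      have u8 : c 18 ≠ c 33 := fun hh => k3619 hh u3 n1 u5
      have u9 : c 32 ≠ c 12 := fun hh => X2.n23 a72 u6 hh
      have u10 : c 12 ≠ c 45 := fun hh => tr2 u6 hh u4
      have u11 : c 18 = c 2 := Classical.byContradiction fun hh => X2.n3 a8 hh u8 u7
      have u12 : c 18 ≠ c 45 := fun hh => tr2 hh n6 u8
      have u13 : c 18 = c 12 := Classical.byContradiction fun hh => X2.n3 a9 hh u12 u10
      have u14 : c 18 = c 32 := Classical.byContradiction fun hh => tr3 u11 n2 hh
      tr1 u14 u13 u9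
  have k3712 : c 43 = c 32 → c 31 = c 19 → c 46 = c 23 → False := fun n0 n1 n2 =>
      have u0 : c 41 ≠ c 19 := fun hh => X2.n23 a141 hh n1
      have u1 : c 41 ≠ c 31 := fun hh => X2.n13 a141 hh n1
      have u2 : c 31 ≠ c 1 := fun hh => X2.n12 a67 n1 hh
      have u3 : c 33 ≠ c 23 := fun hh => X2.n23 a80 hh n2
      have u4 : c 45 ≠ c 23 := fun hh => k3708 hh n2
      have u5 : c 45 = c 33 := Classical.byContradiction fun hh => X2.n3 a159 hh u4 u3
      have u6 : c 32 ≠ c 21 := fun hh => X2.n13 a155 n0 hh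
      have u7 : c 27 = c 13 := Classical.byContradiction fun hh => k3579 n0 hh
      have u8 : c 21 = c 13 := Classical.byContradiction fun hh => k3624 n0 hh
      have u9 : c 31 = c 21 := Classical.byContradiction fun hh => k3710 hh n0 n1 n2
      have u10 : c 31 ≠ c 2 := fun hh => X2.n12 a68 u9 hh
      have u11 : c 21 ≠ c 45 := fun hh => X2.n13 a69 u9 hh
      have u12 : c 31 = c 13 := Classical.byContradiction fun hh => tr2 u9 u8 hh
      have u13 : c 41 ≠ c 21 := fun hh => tr3 hh u9 u1
      have u14 : c 31 ≠ c 32 := fun hh => tr1 hh u9 u6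
      have u15 : c 19 ≠ c 2 := fun hh => tr2 n1 hh u10
      have u16 : c 21 ≠ c 33 := fun hh => tr3 hh u5 u11
      have u17 : c 41 ≠ c 13 := fun hh => tr3 hh u12 u1
      have u18 : c 19 = c 13 := Classical.byContradiction fun hh => tr1 n1 u12 hh
      have u19 : c 1 ≠ c 13 := fun hh => tr3 u12 hh u2
      have u20 : c 31 = c 27 := Classical.byContradiction fun hh => tr3 u12 u7 hh
      have u21 : c 41 = c 33 := Classical.byContradiction fun hh => X2.n3 a139 u13 hh u16
      have u22 : c 19 ≠ c 32 := fun hh => tr2 n1 hh u14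
      have u23 : c 32 = c 2 := Classical.byContradiction fun hh => X2.n3 a18 u22 u15 hh
      have u24 : c 31 ≠ c 6 := fun hh => X2.n12 a71 u20 hh
      have u25 : c 43 = c 2 := Classical.byContradiction fun hh => tr2 n0 u23 hh
      have u26 : c 13 ≠ c 6 := fun hh => tr2 u12 hh u24
      have u27 : c 43 ≠ c 1 := fun hh => X2.n12 a150 hh u25
      have u28 : c 41 = c 6 := Classical.byContradiction fun hh => X2.n3 a135 u17 hh u26
      have u29 : c 32 ≠ c 1 := fun hh => tr2 n0 hh u27
      have u30 : c 41 = c 32 := Classical.byContradiction fun hh => k3711 hh u29 u23 u14 u13 u9 u5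
      have u31 : c 32 = c 33 := Classical.byContradiction fun hh => tr1 u30 u21 hh
      have u32 : c 2 = c 33 := Classical.byContradiction fun hh => tr1 u23 u31 hh
      have u33 : c 18 ≠ c 2 := fun hh => X2.n13 a8 hh u32
      have u34 : c 18 ≠ c 32 := fun hh => tr2 hh u23 u33
      have u35 : c 18 = c 1 := Classical.byContradiction fun hh => X2.n3 a11 u34 hh u29
      have u36 : c 34 ≠ c 1 := fun hh => k3533 hh u35
      have u37 : c 34 = c 13 := Classical.byContradiction fun hh => X2.n3 a81 u36 hh u19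
      have u38 : c 34 = c 27 := Classical.byContradiction fun hh => tr3 u37 u7 hh
      have u39 : c 34 = c 19 := Classical.byContradiction fun hh => tr3 u37 u18 hh
      have u40 : c 34 ≠ c 10 := fun hh => X2.n12 a83 hh u38
      have u41 : c 19 ≠ c 10 := fun hh => tr2 u39 hh u40
      have u42 : c 41 = c 10 := Classical.byContradiction fun hh => X2.n3 a136 u0 hh u41
      have u43 : c 10 = c 6 := Classical.byContradiction fun hh => tr1 u42 u28 hh
      have u44 : c 10 = c 32 := Classical.byContradiction fun hh => tr1 u42 u30 hh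
      have u45 : c 43 ≠ c 10 := fun hh => X2.n13 a151 hh u43
      tr3 n0 u44 u45
  have k3713 : c 31 = c 21 → c 31 = c 19 → c 46 = c 23 → False := fun n0 n1 n2 =>
      have u0 : c 43 ≠ c 32 := fun hh => k3712 hh n1 n2
      have u1 : c 21 ≠ c 13 := fun hh => k3580 hh u0
      have u2 : c 33 ≠ c 23 := fun hh => X2.n23 a80 hh n2
      have u3 : c 45 ≠ c 23 := fun hh => k3708 hh n2
      have u4 : c 45 = c 33 := Classical.byContradiction fun hh => X2.n3 a159 hh u3 u2
      have u5 : c 33 ≠ c 46 := fun hh => X2.n13 a80 hh n2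
      have u6 : c 31 ≠ c 46 := fun hh => X2.n12 a70 n0 hh
      have u7 : c 31 ≠ c 45 := fun hh => X2.n12 a69 n0 hh
      have u8 : c 31 ≠ c 13 := fun hh => tr1 n0 hh u1
      have u9 : c 19 ≠ c 46 := fun hh => tr2 n1 hh u6
      have u10 : c 31 ≠ c 33 := fun hh => tr3 hh u4 u7
      have u11 : c 19 ≠ c 13 := fun hh => tr2 n1 hh u8
      have u12 : c 13 = c 46 := Classical.byContradiction fun hh => X2.n3 a17 u11 u9 hh
      have u13 : c 13 = c 33 := Classical.byContradiction fun hh => X2.n3 a66 u8 u10 hh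
      tr1 u13 u12 u5
  have k3714 : c 31 ≠ c 45 → c 19 ≠ c 13 → c 31 ≠ c 21 → c 21 ≠ c 13 → c 31 = c 19 → False := fun n0 n1 n2 n3 n4 =>
      have u0 : c 19 ≠ c 45 := fun hh => tr2 n4 hh n0
      have u1 : c 21 = c 45 := Classical.byContradiction fun hh => X2.n3 a69 n2 n0 hh
      have u2 : c 45 = c 13 := Classical.byContradiction fun hh => X2.n3 a24 u0 n1 hh
      tr2 u1 u2 n3
  have k3715 : c 19 ≠ c 13 → c 31 = c 19 → c 46 = c 23 → False := fun n0 n1 n2 =>
      have u0 : c 31 ≠ c 21 := fun hh => k3713 hh n1 n2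
      have u1 : c 43 ≠ c 32 := fun hh => k3712 hh n1 n2
      have u2 : c 21 ≠ c 13 := fun hh => k3580 hh u1
      have u3 : c 33 ≠ c 23 := fun hh => X2.n23 a80 hh n2
      have u4 : c 45 ≠ c 23 := fun hh => k3708 hh n2
      have u5 : c 45 = c 33 := Classical.byContradiction fun hh => X2.n3 a159 hh u4 u3
      have u6 : c 33 ≠ c 46 := fun hh => X2.n13 a80 hh n2
      have u7 : c 31 = c 45 := Classical.byContradiction fun hh => k3714 hh n0 u0 u2 n1
      have u8 : c 31 = c 33 := Classical.byContradiction fun hh => tr2 u7 u5 hh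
      have u9 : c 31 ≠ c 46 := fun hh => tr1 u8 hh u6
      have u10 : c 19 ≠ c 46 := fun hh => tr2 n1 hh u9
      have u11 : c 21 = c 46 := Classical.byContradiction fun hh => X2.n3 a70 u0 u9 hh
      have u12 : c 13 = c 46 := Classical.byContradiction fun hh => X2.n3 a17 n0 u10 hh
      tr3 u11 u12 u2
  have k3716 : c 31 = c 19 → c 46 = c 23 → False := fun n0 n1 =>
      have u0 : c 33 ≠ c 23 := fun hh => X2.n23 a80 hh n1
      have u1 : c 45 ≠ c 23 := fun hh => k3708 hh n1
      have u2 : c 45 = c 33 := Classical.byContradiction fun hh => X2.n3 a159 hh u1 u0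
      have u3 : c 33 ≠ c 46 := fun hh => X2.n13 a80 hh n1
      have u4 : c 31 ≠ c 21 := fun hh => k3713 hh n0 n1
      have u5 : c 19 = c 13 := Classical.byContradiction fun hh => k3715 hh n0 n1
      have u6 : c 19 ≠ c 45 := fun hh => X2.n12 a24 hh u5
      have u7 : c 19 ≠ c 46 := fun hh => X2.n12 a17 u5 hh
      have u8 : c 31 ≠ c 45 := fun hh => tr1 n0 hh u6
      have u9 : c 31 ≠ c 46 := fun hh => tr1 n0 hh u7
      have u10 : c 21 = c 45 := Classical.byContradiction fun hh => X2.n3 a69 u4 u8 hh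
      have u11 : c 21 = c 46 := Classical.byContradiction fun hh => X2.n3 a70 u4 u9 hh
      have u12 : c 21 = c 33 := Classical.byContradiction fun hh => tr2 u10 u2 hh
      tr1 u12 u11 u3
  have k3717 : c 41 = c 21 → c 21 ≠ c 13 → c 19 = c 13 → c 31 ≠ c 21 → c 31 ≠ c 19 → False := fun n0 n1 n2 n3 n4 =>
      have u0 : c 41 ≠ c 31 := fun hh => tr1 hh n0 n3
      have u1 : c 41 ≠ c 13 := fun hh => tr1 n0 hh n1
      have u2 : c 41 = c 19 := Classical.byContradiction fun hh => X2.n3 a141 u0 hh n4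
      tr2 u2 n2 u1
  have k3718 : c 19 = c 13 → c 31 ≠ c 21 → c 46 = c 23 → False := fun n0 n1 n2 =>
      have u0 : c 31 ≠ c 19 := fun hh => k3716 hh n2
      have u1 : c 33 ≠ c 23 := fun hh => X2.n23 a80 hh n2
      have u2 : c 45 ≠ c 23 := fun hh => k3708 hh n2
      have u3 : c 45 = c 33 := Classical.byContradiction fun hh => X2.n3 a159 hh u2 u1
      have u4 : c 33 ≠ c 46 := fun hh => X2.n13 a80 hh n2
      have u5 : c 19 ≠ c 45 := fun hh => X2.n12 a24 hh n0
      have u6 : c 45 ≠ c 13 := fun hh => X2.n23 a24 n0 hh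
      have u7 : c 13 ≠ c 46 := fun hh => X2.n13 a17 n0 hh
      have u8 : c 19 ≠ c 32 := fun hh => k3560 hh n0
      have u9 : c 31 ≠ c 13 := fun hh => tr3 hh n0 u0
      have u10 : c 19 ≠ c 33 := fun hh => tr3 hh u3 u5
      have u11 : c 13 ≠ c 33 := fun hh => tr3 u3 hh u6
      have u12 : c 31 = c 33 := Classical.byContradiction fun hh => X2.n3 a66 u9 hh u11
      have u13 : c 31 ≠ c 46 := fun hh => tr1 u12 hh u4
      have u14 : c 31 = c 45 := Classical.byContradiction fun hh => tr3 u12 u3 hh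
      have u15 : c 21 ≠ c 33 := fun hh => tr3 u12 hh n1
      have u16 : c 21 = c 46 := Classical.byContradiction fun hh => X2.n3 a70 n1 u13 hh
      have u17 : c 21 ≠ c 45 := fun hh => X2.n23 a69 u14 hh
      have u18 : c 21 ≠ c 14 := fun hh => X2.n12 a26 u16 hh
      have u19 : c 21 ≠ c 13 := fun hh => tr1 hh u16 u7
      have u20 : c 45 = c 14 := Classical.byContradiction fun hh => X2.n3 a25 u17 u18 hh
      have u21 : c 43 ≠ c 32 := fun hh => k3624 hh u19
      have u22 : c 33 = c 14 := Classical.byContradiction fun hh => tr1 u3 u20 hh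
      have u23 : c 32 ≠ c 33 := fun hh => X2.n13 a79 hh u22
      have u24 : c 31 ≠ c 32 := fun hh => tr1 hh u12 u23
      have u25 : c 31 ≠ c 2 := fun hh => k3647 hh u8 u24 u0
      have u26 : c 21 = c 2 := Classical.byContradiction fun hh => X2.n3 a68 n1 u25 hh
      have u27 : c 2 ≠ c 33 := fun hh => tr3 u12 hh u25
      have u28 : c 35 ≠ c 2 := fun hh => k3496 hh u26
      have u29 : c 41 ≠ c 21 := fun hh => k3717 hh u19 n0 n1 u0
      have u30 : c 41 = c 33 := Classical.byContradiction fun hh => X2.n3 a139 u29 hh u15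
      have u31 : c 1 ≠ c 33 := fun hh => k3542 u30 hh
      have u32 : c 41 ≠ c 19 := fun hh => tr1 hh u30 u10
      have u33 : c 31 ≠ c 1 := fun hh => tr1 hh u12 u31
      have u34 : c 40 = c 31 := Classical.byContradiction fun hh => k3628 u0 u33 hh
      have u35 : c 19 = c 1 := Classical.byContradiction fun hh => X2.n3 a67 u0 u33 hh
      have u36 : c 40 ≠ c 19 := fun hh => X2.n12 a130 u34 hh
      have u37 : c 30 ≠ c 19 := fun hh => X2.n13 a57 hh u35
      have u38 : c 1 = c 13 := Classical.byContradiction fun hh => tr1 u35 n0 hh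
      have u39 : c 32 ≠ c 1 := fun hh => tr3 u35 hh u8
      have u40 : c 40 = c 30 := Classical.byContradiction fun hh => X2.n3 a129 hh u36 u37
      have u41 : c 30 = c 41 := Classical.byContradiction fun hh => X2.n3 a64 hh u37 u32
      have u42 : c 1 ≠ c 21 := fun hh => tr1 hh u38 u19
      have u43 : c 18 ≠ c 33 := fun hh => k3619 hh u31 u39 u23
      have u44 : c 30 = c 31 := Classical.byContradiction fun hh => tr1 u40 u34 hh
      have u45 : c 1 ≠ c 2 := fun hh => tr3 hh u26 u42
      have u46 : c 18 = c 2 := Classical.byContradiction fun hh => X2.n3 a8 hh u43 u27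
      have u47 : c 30 ≠ c 10 := fun hh => X2.n12 a60 u44 hh
      have u48 : c 30 ≠ c 11 := fun hh => X2.n12 a61 u44 hh
      have u49 : c 19 ≠ c 2 := fun hh => tr1 u35 hh u45
      have u50 : c 18 ≠ c 1 := fun hh => tr1 hh u46 u45
      have u51 : c 41 ≠ c 10 := fun hh => tr2 u41 hh u47
      have u52 : c 41 ≠ c 11 := fun hh => tr2 u41 hh u48
      have u53 : c 32 = c 2 := Classical.byContradiction fun hh => X2.n3 a18 u8 u49 hh
      have u54 : c 18 = c 32 := Classical.byContradiction fun hh => X2.n3 a11 hh u50 u39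
      have u55 : c 19 = c 10 := Classical.byContradiction fun hh => X2.n3 a136 u32 u51 hh
      have u56 : c 19 = c 11 := Classical.byContradiction fun hh => X2.n3 a137 u32 u52 hh
      have u57 : c 43 ≠ c 2 := fun hh => tr3 hh u53 u21
      have u58 : c 10 ≠ c 32 := fun hh => tr2 u55 hh u8
      have u59 : c 11 ≠ c 2 := fun hh => tr2 u56 hh u49
      have u60 : c 43 = c 1 := Classical.byContradiction fun hh => X2.n3 a150 hh u57 u45
      have u61 : c 35 = c 11 := Classical.byContradiction fun hh => X2.n3 a88 hh u28 u59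
      have u62 : c 19 = c 43 := Classical.byContradiction fun hh => tr3 u35 u60 hh
      have u63 : c 19 = c 35 := Classical.byContradiction fun hh => tr3 u56 u61 hh
      have u64 : c 29 ≠ c 19 := fun hh => X2.n13 a51 hh u62
      have u65 : c 35 = c 1 := Classical.byContradiction fun hh => tr1 u63 u35 hh
      have u66 : c 29 ≠ c 10 := fun hh => tr3 hh u55 u64
      have u67 : c 8 ≠ c 35 := fun hh => X2.n13 a1 hh u65
      have u68 : c 29 = c 32 := Classical.byContradiction fun hh => X2.n3 a48 u66 hh u58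
      have u69 : c 8 ≠ c 19 := fun hh => tr2 hh u63 u67
      have u70 : c 29 = c 18 := Classical.byContradiction fun hh => tr3 u68 u54 hh
      have u71 : c 39 ≠ c 29 := fun hh => X2.n13 a119 hh u70
      have u72 : c 39 ≠ c 18 := fun hh => X2.n23 a119 hh u70
      have u73 : c 18 ≠ c 8 := fun hh => k3532 u70 hh
      have u74 : c 39 ≠ c 32 := fun hh => tr3 hh u68 u71
      have u75 : c 39 = c 8 := Classical.byContradiction fun hh => X2.n3 a116 u72 hh u73
      have u76 : c 39 = c 19 := Classical.byContradiction fun hh => X2.n3 a117 hh u74 u8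
      tr1 u75 u76 u69
  have k3719 : c 31 = c 45 → c 19 ≠ c 13 → c 46 = c 23 → False := fun n0 n1 n2 =>
      have u0 : c 31 ≠ c 19 := fun hh => k3716 hh n2
      have u1 : c 33 ≠ c 23 := fun hh => X2.n23 a80 hh n2
      have u2 : c 45 ≠ c 23 := fun hh => k3708 hh n2
      have u3 : c 45 = c 33 := Classical.byContradiction fun hh => X2.n3 a159 hh u2 u1
      have u4 : c 31 = c 33 := Classical.byContradiction fun hh => tr2 n0 u3 hh
      have u5 : c 19 ≠ c 45 := fun hh => tr3 n0 hh u0
      have u6 : c 31 ≠ c 13 := fun hh => X2.n12 a66 hh u4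
      have u7 : c 45 = c 13 := Classical.byContradiction fun hh => X2.n3 a24 u5 n1 hh
      tr2 n0 u7 u6
  have k3720 : c 31 ≠ c 21 → c 46 = c 23 → False := fun n0 n1 =>
      have u0 : c 31 ≠ c 19 := fun hh => k3716 hh n1
      have u1 : c 33 ≠ c 23 := fun hh => X2.n23 a80 hh n1
      have u2 : c 45 ≠ c 23 := fun hh => k3708 hh n1
      have u3 : c 45 = c 33 := Classical.byContradiction fun hh => X2.n3 a159 hh u2 u1
      have u4 : c 33 ≠ c 46 := fun hh => X2.n13 a80 hh n1
      have u5 : c 19 ≠ c 13 := fun hh => k3718 hh n0 n1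
      have u6 : c 31 ≠ c 45 := fun hh => k3719 hh u5 n1
      have u7 : c 31 ≠ c 33 := fun hh => tr3 hh u3 u6
      have u8 : c 21 = c 45 := Classical.byContradiction fun hh => X2.n3 a69 n0 u6 hh
      have u9 : c 21 = c 33 := Classical.byContradiction fun hh => tr2 u8 u3 hh
      have u10 : c 41 ≠ c 33 := fun hh => X2.n23 a139 hh u9
      have u11 : c 21 ≠ c 46 := fun hh => tr1 u9 hh u4
      have u12 : c 31 = c 46 := Classical.byContradiction fun hh => X2.n3 a70 n0 hh u11
      have u13 : c 19 ≠ c 46 := fun hh => tr3 u12 hh u0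
      have u14 : c 13 = c 46 := Classical.byContradiction fun hh => X2.n3 a17 u5 u13 hh
      have u15 : c 13 ≠ c 33 := fun hh => tr1 hh u14 u4
      have u16 : c 31 = c 13 := Classical.byContradiction fun hh => tr3 u12 u14 hh
      have u17 : c 45 ≠ c 13 := fun hh => tr1 hh u3 u15
      have u18 : c 19 = c 45 := Classical.byContradiction fun hh => X2.n3 a24 hh u5 u17
      have u19 : c 28 ≠ c 19 := fun hh => X2.n13 a41 hh u18
      have u20 : c 19 = c 33 := Classical.byContradiction fun hh => tr2 u18 u3 hh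
      have u21 : c 28 = c 46 := Classical.byContradiction fun hh => X2.n3 a42 u19 hh u13
      have u22 : c 41 ≠ c 19 := fun hh => tr2 hh u20 u10
      have u23 : c 32 = c 33 := Classical.byContradiction fun hh => k3652 hh u16 u20 u0 n0 u7
      have u24 : c 28 = c 31 := Classical.byContradiction fun hh => tr3 u21 u12 hh
      have u25 : c 28 = c 23 := Classical.byContradiction fun hh => tr2 u21 n1 hh
      have u26 : c 41 = c 31 := Classical.byContradiction fun hh => X2.n3 a141 hh u22 u0
      have u27 : c 33 ≠ c 15 := fun hh => k3548 u23 hh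
      have u28 : c 28 = c 41 := Classical.byContradiction fun hh => tr3 u24 u26 hh
      have u29 : c 31 = c 15 := Classical.byContradiction fun hh => X2.n3 a73 u7 hh u27
      have u30 : c 41 = c 23 := Classical.byContradiction fun hh => tr1 u28 u25 hh
      have u31 : c 41 = c 15 := Classical.byContradiction fun hh => tr2 u26 u29 hh
      X2.n12 a140 u30 u31
  have k3721 : c 19 = c 45 → c 19 ≠ c 13 → c 46 = c 23 → False := fun n0 n1 n2 =>
      have u0 : c 33 ≠ c 23 := fun hh => X2.n23 a80 hh n2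
      have u1 : c 45 ≠ c 23 := fun hh => k3708 hh n2
      have u2 : c 45 = c 33 := Classical.byContradiction fun hh => X2.n3 a159 hh u1 u0
      have u3 : c 31 = c 21 := Classical.byContradiction fun hh => k3720 hh n2
      have u4 : c 31 ≠ c 45 := fun hh => X2.n12 a69 u3 hh
      have u5 : c 31 ≠ c 33 := fun hh => tr3 hh u2 u4
      have u6 : c 31 ≠ c 46 := fun hh => X2.n12 a70 u3 hh
      have u7 : c 33 ≠ c 46 := fun hh => X2.n13 a80 hh n2
      have u8 : c 45 ≠ c 13 := fun hh => X2.n13 a24 n0 hh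
      have u9 : c 19 = c 33 := Classical.byContradiction fun hh => tr2 n0 u2 hh
      have u10 : c 13 ≠ c 33 := fun hh => tr3 u2 hh u8
      have u11 : c 19 ≠ c 46 := fun hh => tr1 u9 hh u7
      have u12 : c 31 = c 13 := Classical.byContradiction fun hh => X2.n3 a66 hh u5 u10
      have u13 : c 13 = c 46 := Classical.byContradiction fun hh => X2.n3 a17 n1 u11 hh
      tr2 u12 u13 u6
  have k3722 : c 21 = c 15 → c 21 ≠ c 13 → False := fun n0 n1 =>
      have u0 : c 42 ≠ c 21 := fun hh => X2.n13 a147 hh n0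
      have u1 : c 32 ≠ c 21 := fun hh => k3546 hh n0
      have u2 : c 42 = c 32 := Classical.byContradiction fun hh => X2.n3 a148 hh u0 u1
      have u3 : c 42 = c 13 := Classical.byContradiction fun hh => X2.n3 a146 u0 hh n1
      k3552 u2 u3
  have k3723 : c 41 ≠ c 15 → c 19 ≠ c 13 → c 46 = c 23 → False := fun n0 n1 n2 =>
      have u0 : c 33 ≠ c 23 := fun hh => X2.n23 a80 hh n2
      have u1 : c 45 ≠ c 23 := fun hh => k3708 hh n2
      have u2 : c 45 = c 33 := Classical.byContradiction fun hh => X2.n3 a159 hh u1 u0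
      have u3 : c 31 = c 21 := Classical.byContradiction fun hh => k3720 hh n2
      have u4 : c 31 ≠ c 45 := fun hh => X2.n12 a69 u3 hh
      have u5 : c 31 ≠ c 33 := fun hh => tr3 hh u2 u4
      have u6 : c 21 ≠ c 45 := fun hh => X2.n13 a69 u3 hh
      have u7 : c 19 ≠ c 45 := fun hh => k3721 hh n1 n2
      have u8 : c 45 = c 13 := Classical.byContradiction fun hh => X2.n3 a24 u7 n1 hh
      have u9 : c 21 ≠ c 13 := fun hh => tr3 hh u8 u6
      have u10 : c 21 ≠ c 15 := fun hh => k3722 hh u9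
      have u11 : c 31 ≠ c 15 := fun hh => tr1 u3 hh u10
      have u12 : c 33 = c 15 := Classical.byContradiction fun hh => X2.n3 a73 u5 u11 hh
      have u13 : c 23 ≠ c 15 := fun hh => tr3 u12 hh u0
      have u14 : c 33 ≠ c 46 := fun hh => X2.n13 a80 hh n2
      have u15 : c 13 = c 33 := Classical.byContradiction fun hh => tr1 u8 u2 hh
      have u16 : c 13 ≠ c 46 := fun hh => tr1 u15 hh u14
      have u17 : c 19 = c 46 := Classical.byContradiction fun hh => X2.n3 a17 n1 hh u16
      have u18 : c 28 ≠ c 46 := fun hh => X2.n23 a42 hh u17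
      have u19 : c 28 ≠ c 23 := fun hh => tr3 hh n2 u18
      have u20 : c 28 ≠ c 19 := fun hh => X2.n13 a42 hh u17
      have u21 : c 21 ≠ c 33 := fun hh => tr3 hh u2 u6
      have u22 : c 31 ≠ c 19 := fun hh => k3716 hh n2
      have u23 : c 41 ≠ c 33 := fun hh => tr2 hh u12 n0
      have u24 : c 41 = c 23 := Classical.byContradiction fun hh => X2.n3 a140 hh n0 u13
      have u25 : c 41 = c 21 := Classical.byContradiction fun hh => X2.n3 a139 hh u23 u21
      have u26 : c 1 ≠ c 23 := fun hh => k3517 u24 hh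
      have u27 : c 1 ≠ c 21 := fun hh => k3534 u25 hh
      have u28 : c 28 = c 1 := Classical.byContradiction fun hh => X2.n3 a35 hh u19 u26
      have u29 : c 31 ≠ c 1 := fun hh => tr1 hh u3 u27
      have u30 : c 19 ≠ c 1 := fun hh => tr3 u28 hh u20
      X2.n3 a67 u22 u29 u30
  have k3724 : c 19 ≠ c 13 → c 46 = c 23 → False := fun n0 n1 =>
      have u0 : c 33 ≠ c 23 := fun hh => X2.n23 a80 hh n1
      have u1 : c 45 ≠ c 23 := fun hh => k3708 hh n1
      have u2 : c 45 = c 33 := Classical.byContradiction fun hh => X2.n3 a159 hh u1 u0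
      have u3 : c 31 = c 21 := Classical.byContradiction fun hh => k3720 hh n1
      have u4 : c 31 ≠ c 45 := fun hh => X2.n12 a69 u3 hh
      have u5 : c 31 ≠ c 33 := fun hh => tr3 hh u2 u4
      have u6 : c 21 ≠ c 45 := fun hh => X2.n13 a69 u3 hh
      have u7 : c 31 ≠ c 19 := fun hh => k3716 hh n1
      have u8 : c 19 ≠ c 45 := fun hh => k3721 hh n0 n1
      have u9 : c 19 ≠ c 33 := fun hh => tr3 hh u2 u8
      have u10 : c 45 = c 13 := Classical.byContradiction fun hh => X2.n3 a24 u8 n0 hh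
      have u11 : c 21 ≠ c 13 := fun hh => tr3 hh u10 u6
      have u12 : c 21 ≠ c 15 := fun hh => k3722 hh u11
      have u13 : c 31 ≠ c 15 := fun hh => tr1 u3 hh u12
      have u14 : c 33 = c 15 := Classical.byContradiction fun hh => X2.n3 a73 u5 u13 hh
      have u15 : c 19 ≠ c 15 := fun hh => tr3 hh u14 u9
      have u16 : c 41 = c 15 := Classical.byContradiction fun hh => k3723 hh n0 n1
      have u17 : c 41 ≠ c 19 := fun hh => tr1 hh u16 u15
      have u18 : c 41 ≠ c 31 := fun hh => tr1 hh u16 u13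
      X2.n3 a141 u18 u17 u7
  have k3725 : c 46 = c 23 → False := fun n0 =>
      have u0 : c 33 ≠ c 23 := fun hh => X2.n23 a80 hh n0
      have u1 : c 45 ≠ c 23 := fun hh => k3708 hh n0
      have u2 : c 45 = c 33 := Classical.byContradiction fun hh => X2.n3 a159 hh u1 u0
      have u3 : c 31 ≠ c 19 := fun hh => k3716 hh n0
      have u4 : c 31 = c 21 := Classical.byContradiction fun hh => k3720 hh n0
      have u5 : c 31 ≠ c 45 := fun hh => X2.n12 a69 u4 hh
      have u6 : c 31 ≠ c 33 := fun hh => tr3 hh u2 u5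
      have u7 : c 19 = c 13 := Classical.byContradiction fun hh => k3724 hh n0
      have u8 : c 45 ≠ c 13 := fun hh => X2.n23 a24 u7 hh
      have u9 : c 31 ≠ c 13 := fun hh => tr3 hh u7 u3
      have u10 : c 13 ≠ c 33 := fun hh => tr3 u2 hh u8
      X2.n3 a66 u9 u6 u10
  have k3726 : c 33 = c 15 → c 19 = c 15 → c 19 ≠ c 46 → c 23 ≠ c 15 → False := fun n0 n1 n2 n3 =>
      have u0 : c 46 ≠ c 23 := fun hh => k3725 hh
      have u1 : c 19 = c 33 := Classical.byContradiction fun hh => tr3 n1 n0 hh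
      have u2 : c 33 ≠ c 23 := fun hh => tr1 hh n0 n3
      have u3 : c 33 ≠ c 46 := fun hh => tr2 u1 hh n2
      X2.n3 a80 u3 u2 u0
  have k3727 : c 18 = c 1 → c 40 ≠ c 28 → c 28 ≠ c 1 → False := fun n0 n1 n2 =>
      have u0 : c 40 ≠ c 18 := fun hh => k3497 hh n0
      have u1 : c 28 ≠ c 18 := fun hh => tr2 hh n0 n2
      X2.n3 a128 n1 u0 u1
  have k3728 : c 32 ≠ c 1 → c 18 ≠ c 1 → c 29 = c 2 → c 1 = c 33 → c 2 ≠ c 33 → c 1 = c 21 → c 43 ≠ c 32 → c 19 = c 13 → False := fun n0 n1 n2 n3 n4 n5 n6 n7 =>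
      have u0 : c 29 ≠ c 21 := fun hh => X2.n23 a44 hh n5
      have u1 : c 32 ≠ c 21 := fun hh => tr3 hh n5 n0
      have u2 : c 32 = c 2 := Classical.byContradiction fun hh => k3694 n1 hh n0 n3 n4
      have u3 : c 43 = c 21 := Classical.byContradiction fun hh => X2.n3 a155 n6 hh u1
      have u4 : c 19 ≠ c 2 := fun hh => X2.n23 a18 hh u2
      have u5 : c 43 ≠ c 13 := fun hh => X2.n12 a154 u3 hh
      have u6 : c 29 ≠ c 43 := fun hh => tr2 hh u3 u0
      have u7 : c 29 ≠ c 19 := fun hh => tr1 hh n2 u4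
      have u8 : c 19 ≠ c 43 := fun hh => tr1 hh n7 u5
      X2.n3 a51 u7 u6 u8
  have k3729 : c 31 = c 21 → c 31 ≠ c 19 → c 19 = c 13 → c 41 = c 15 → False := fun n0 n1 n2 n3 =>
      have u0 : c 46 ≠ c 23 := fun hh => k3725 hh
      have u1 : c 31 ≠ c 13 := fun hh => tr3 hh n2 n1
      have u2 : c 19 ≠ c 32 := fun hh => k3560 hh n2
      have u3 : c 19 ≠ c 46 := fun hh => X2.n12 a17 n2 hh
      have u4 : c 23 ≠ c 15 := fun hh => X2.n23 a140 n3 hh
      have u5 : c 31 ≠ c 46 := fun hh => X2.n12 a70 n0 hh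
      have u6 : c 31 ≠ c 2 := fun hh => X2.n12 a68 n0 hh
      have u7 : c 21 ≠ c 13 := fun hh => tr2 n0 hh u1
      have u8 : c 43 ≠ c 32 := fun hh => k3624 hh u7
      have u9 : c 21 ≠ c 15 := fun hh => k3722 hh u7
      have u10 : c 31 ≠ c 15 := fun hh => tr1 n0 hh u9
      have u11 : c 41 ≠ c 31 := fun hh => tr1 hh n3 u10
      have u12 : c 41 = c 19 := Classical.byContradiction fun hh => X2.n3 a141 u11 hh n1
      have u13 : c 19 ≠ c 11 := fun hh => X2.n13 a137 u12 hh
      have u14 : c 30 ≠ c 19 := fun hh => X2.n23 a64 hh u12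
      have u15 : c 19 ≠ c 1 := fun hh => k3536 u12 hh
      have u16 : c 19 = c 15 := Classical.byContradiction fun hh => tr1 u12 n3 hh
      have u17 : c 31 = c 1 := Classical.byContradiction fun hh => X2.n3 a67 n1 hh u15
      have u18 : c 30 = c 1 := Classical.byContradiction fun hh => X2.n3 a57 u14 hh u15
      have u19 : c 40 ≠ c 31 := fun hh => k3523 hh u17
      have u20 : c 1 = c 21 := Classical.byContradiction fun hh => tr1 u17 n0 hh
      have u21 : c 1 ≠ c 2 := fun hh => tr2 u17 hh u6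
      have u22 : c 30 = c 31 := Classical.byContradiction fun hh => tr3 u18 u17 hh
      have u23 : c 40 = c 19 := Classical.byContradiction fun hh => X2.n3 a130 u19 hh n1
      have u24 : c 29 ≠ c 1 := fun hh => X2.n13 a44 hh u20
      have u25 : c 31 ≠ c 11 := fun hh => X2.n13 a61 u22 hh
      have u26 : c 40 ≠ c 11 := fun hh => X2.n12 a126 u23 hh
      have u27 : c 29 ≠ c 31 := fun hh => tr2 hh u17 u24
      have u28 : c 33 ≠ c 15 := fun hh => k3726 hh u16 u3 u4
      have u29 : c 31 = c 33 := Classical.byContradiction fun hh => X2.n3 a73 hh u10 u28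
      have u30 : c 2 ≠ c 33 := fun hh => tr3 u29 hh u6
      have u31 : c 33 ≠ c 46 := fun hh => tr2 u29 hh u5
      have u32 : c 1 = c 33 := Classical.byContradiction fun hh => tr1 u17 u29 hh
      have u33 : c 11 ≠ c 33 := fun hh => tr3 u29 hh u25
      have u34 : c 29 ≠ c 33 := fun hh => tr3 hh u29 u27
      have u35 : c 33 = c 23 := Classical.byContradiction fun hh => X2.n3 a80 u31 hh u0
      have u36 : c 29 ≠ c 23 := fun hh => tr3 hh u35 u34
      have u37 : c 1 = c 23 := Classical.byContradiction fun hh => tr2 u32 u35 hh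
      have u38 : c 2 ≠ c 23 := fun hh => tr3 hh u35 u30
      have u39 : c 29 = c 2 := Classical.byContradiction fun hh => X2.n3 a46 hh u36 u38
      have u40 : c 28 ≠ c 1 := fun hh => X2.n13 a35 hh u37
      have u41 : c 28 ≠ c 33 := fun hh => tr3 hh u32 u40
      have u42 : c 28 = c 11 := Classical.byContradiction fun hh => X2.n3 a37 hh u41 u33
      have u43 : c 40 ≠ c 28 := fun hh => tr2 hh u42 u26
      have u44 : c 28 ≠ c 19 := fun hh => tr1 hh u42 u13
      have u45 : c 18 ≠ c 1 := fun hh => k3727 hh u43 u40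
      have u46 : c 32 = c 1 := Classical.byContradiction fun hh => k3728 hh u45 u39 u32 u30 u20 u8 n2
      have u47 : c 32 = c 33 := Classical.byContradiction fun hh => tr2 u46 u32 hh
      have u48 : c 32 ≠ c 2 := fun hh => tr1 u46 hh u21
      have u49 : c 29 ≠ c 32 := fun hh => tr2 hh u46 u24
      have u50 : c 32 ≠ c 11 := fun hh => tr1 hh u47 u33
      have u51 : c 11 ≠ c 2 := fun hh => k3584 u48 u41 u44 u2 hh u47
      have u52 : c 29 = c 11 := Classical.byContradiction fun hh => X2.n3 a54 u49 hh u50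
      tr1 u52 u39 u51
  have k3730 : c 32 = c 1 → c 31 ≠ c 19 → c 19 = c 13 → c 41 = c 15 → False := fun n0 n1 n2 n3 =>
      have u0 : c 31 ≠ c 21 := fun hh => k3729 hh n1 n2 n3
      have u1 : c 19 ≠ c 32 := fun hh => k3560 hh n2
      have u2 : c 19 ≠ c 46 := fun hh => X2.n12 a17 n2 hh
      have u3 : c 23 ≠ c 15 := fun hh => X2.n23 a140 n3 hh
      have u4 : c 19 ≠ c 1 := fun hh => tr3 hh n0 u1
      have u5 : c 31 = c 1 := Classical.byContradiction fun hh => X2.n3 a67 n1 hh u4
      have u6 : c 41 ≠ c 31 := fun hh => k3506 hh u5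
      have u7 : c 31 = c 32 := Classical.byContradiction fun hh => tr3 u5 n0 hh
      have u8 : c 41 = c 19 := Classical.byContradiction fun hh => X2.n3 a141 u6 hh n1
      have u9 : c 31 ≠ c 15 := fun hh => tr3 n3 hh u6
      have u10 : c 32 ≠ c 12 := fun hh => X2.n13 a72 u7 hh
      have u11 : c 41 = c 13 := Classical.byContradiction fun hh => tr2 u8 n2 hh
      have u12 : c 19 = c 15 := Classical.byContradiction fun hh => tr1 u8 n3 hh
      have u13 : c 33 ≠ c 15 := fun hh => k3726 hh u12 u2 u3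
      have u14 : c 31 = c 33 := Classical.byContradiction fun hh => X2.n3 a73 hh u9 u13
      have u15 : c 41 ≠ c 33 := fun hh => tr1 hh n3 u13
      have u16 : c 21 ≠ c 33 := fun hh => tr3 u14 hh u0
      have u17 : c 41 = c 21 := Classical.byContradiction fun hh => X2.n3 a139 hh u15 u16
      have u18 : c 41 ≠ c 12 := fun hh => X2.n12 a133 hh u17
      have u19 : c 21 = c 13 := Classical.byContradiction fun hh => tr1 u17 u11 hh
      have u20 : c 19 ≠ c 12 := fun hh => tr2 u8 hh u18
      have u21 : c 43 = c 32 := Classical.byContradiction fun hh => k3580 u19 hh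
      k3698 u21 u10 u1 u20
  have k3731 : c 21 = c 13 → c 31 ≠ c 19 → c 19 = c 13 → c 41 = c 15 → False := fun n0 n1 n2 n3 =>
      have u0 : c 32 ≠ c 1 := fun hh => k3730 hh n1 n2 n3
      have u1 : c 31 ≠ c 21 := fun hh => k3729 hh n1 n2 n3
      have u2 : c 19 ≠ c 32 := fun hh => k3560 hh n2
      have u3 : c 44 ≠ c 13 := fun hh => X2.n23 a22 n2 hh
      have u4 : c 19 ≠ c 44 := fun hh => X2.n12 a22 hh n2
      have u5 : c 42 ≠ c 21 := fun hh => X2.n13 a146 hh n0
      have u6 : c 43 ≠ c 21 := fun hh => X2.n13 a154 hh n0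
      have u7 : c 32 ≠ c 21 := fun hh => k3493 hh n0
      have u8 : c 43 = c 32 := Classical.byContradiction fun hh => k3580 n0 hh
      have u9 : c 44 ≠ c 21 := fun hh => tr2 hh n0 u3
      have u10 : c 42 = c 32 := Classical.byContradiction fun hh => X2.n3 a148 hh u5 u7
      have u11 : c 43 ≠ c 1 := fun hh => tr1 u8 hh u0
      have u12 : c 42 ≠ c 15 := fun hh => k3504 u10 hh
      have u13 : c 21 = c 15 := Classical.byContradiction fun hh => X2.n3 a147 u5 u12 hh
      have u14 : c 44 ≠ c 15 := fun hh => tr3 hh u13 u9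
      have u15 : c 41 = c 21 := Classical.byContradiction fun hh => tr3 n3 u13 hh
      have u16 : c 19 = c 15 := Classical.byContradiction fun hh => X2.n3 a23 u4 hh u14
      have u17 : c 41 ≠ c 12 := fun hh => X2.n12 a133 hh u15
      have u18 : c 41 = c 19 := Classical.byContradiction fun hh => tr3 n3 u16 hh
      have u19 : c 19 ≠ c 12 := fun hh => tr2 u18 hh u17
      have u20 : c 19 ≠ c 1 := fun hh => k3536 u18 hh
      have u21 : c 32 = c 12 := Classical.byContradiction fun hh => k3698 u8 hh u2 u19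
      have u22 : c 31 = c 1 := Classical.byContradiction fun hh => X2.n3 a67 n1 hh u20
      have u23 : c 31 ≠ c 32 := fun hh => X2.n13 a72 hh u21
      have u24 : c 31 ≠ c 2 := fun hh => k3647 hh u2 u23 n1
      have u25 : c 21 = c 2 := Classical.byContradiction fun hh => X2.n3 a68 u1 u24 hh
      have u26 : c 1 ≠ c 2 := fun hh => tr2 u22 hh u24
      have u27 : c 43 ≠ c 2 := fun hh => tr3 hh u25 u6
      X2.n3 a150 u11 u27 u26
  have k3732 : c 31 = c 1 → c 41 ≠ c 21 → c 31 ≠ c 21 → c 31 ≠ c 19 → c 19 ≠ c 46 → c 41 = c 15 → False := fun n0 n1 n2 n3 n4 n5 =>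
      have u0 : c 23 ≠ c 15 := fun hh => X2.n23 a140 n5 hh
      have u1 : c 19 ≠ c 1 := fun hh => X2.n23 a67 n0 hh
      have u2 : c 1 ≠ c 21 := fun hh => tr2 n0 hh n2
      have u3 : c 41 ≠ c 31 := fun hh => k3506 hh n0
      have u4 : c 41 = c 19 := Classical.byContradiction fun hh => X2.n3 a141 u3 hh n3
      have u5 : c 30 ≠ c 41 := fun hh => X2.n13 a64 hh u4
      have u6 : c 30 ≠ c 19 := fun hh => X2.n23 a64 hh u4
      have u7 : c 19 = c 15 := Classical.byContradiction fun hh => tr1 u4 n5 hh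
      have u8 : c 30 ≠ c 15 := fun hh => tr3 hh n5 u5
      have u9 : c 30 = c 1 := Classical.byContradiction fun hh => X2.n3 a57 u6 hh u1
      have u10 : c 33 ≠ c 15 := fun hh => k3726 hh u7 n4 u0
      have u11 : c 30 = c 33 := Classical.byContradiction fun hh => X2.n3 a63 hh u8 u10
      have u12 : c 30 ≠ c 21 := fun hh => tr1 u9 hh u2
      have u13 : c 41 ≠ c 33 := fun hh => tr1 hh n5 u10
      have u14 : c 21 ≠ c 33 := fun hh => tr3 u11 hh u12
      X2.n3 a139 n1 u13 u14
  have k3733 : c 31 ≠ c 19 → c 19 = c 13 → c 41 = c 15 → False := fun n0 n1 n2 =>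
      have u0 : c 19 ≠ c 46 := fun hh => X2.n12 a17 n1 hh
      have u1 : c 31 ≠ c 13 := fun hh => tr3 hh n1 n0
      have u2 : c 31 ≠ c 21 := fun hh => k3729 hh n0 n1 n2
      have u3 : c 21 ≠ c 13 := fun hh => k3731 hh n0 n1 n2
      have u4 : c 41 ≠ c 21 := fun hh => k3717 hh u3 n1 u2 n0
      have u5 : c 31 ≠ c 1 := fun hh => k3732 hh u4 u2 n0 u0 n2
      have u6 : c 19 = c 1 := Classical.byContradiction fun hh => X2.n3 a67 n0 u5 hh
      have u7 : c 41 ≠ c 19 := fun hh => k3536 hh u6
      have u8 : c 41 = c 31 := Classical.byContradiction fun hh => X2.n3 a141 hh u7 n0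
      have u9 : c 31 = c 15 := Classical.byContradiction fun hh => tr1 u8 n2 hh
      have u10 : c 31 ≠ c 33 := fun hh => X2.n12 a73 hh u9
      have u11 : c 13 = c 33 := Classical.byContradiction fun hh => X2.n3 a66 u1 u10 hh
      have u12 : c 21 = c 33 := Classical.byContradiction fun hh => k3638 u8 u10 hh u2
      tr3 u12 u11 u3
  have k3734 : c 19 = c 13 → c 41 = c 15 → False := fun n0 n1 =>
      have u0 : c 19 ≠ c 44 := fun hh => X2.n12 a22 hh n0
      have u1 : c 19 ≠ c 32 := fun hh => k3560 hh n0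
      have u2 : c 31 = c 19 := Classical.byContradiction fun hh => k3733 hh n0 n1
      have u3 : c 41 ≠ c 31 := fun hh => X2.n13 a141 hh u2
      have u4 : c 41 ≠ c 19 := fun hh => X2.n23 a141 hh u2
      have u5 : c 31 = c 13 := Classical.byContradiction fun hh => tr2 u2 n0 hh
      have u6 : c 31 ≠ c 44 := fun hh => tr1 u2 hh u0
      have u7 : c 31 ≠ c 32 := fun hh => tr1 u2 hh u1
      have u8 : c 31 ≠ c 15 := fun hh => tr3 n1 hh u3
      have u9 : c 19 ≠ c 15 := fun hh => tr3 n1 hh u4
      have u10 : c 31 ≠ c 33 := fun hh => X2.n12 a66 u5 hh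
      have u11 : c 44 = c 15 := Classical.byContradiction fun hh => X2.n3 a23 u0 u9 hh
      have u12 : c 33 = c 15 := Classical.byContradiction fun hh => X2.n3 a73 u10 u8 hh
      have u13 : c 41 = c 44 := Classical.byContradiction fun hh => tr3 n1 u11 hh
      have u14 : c 41 = c 33 := Classical.byContradiction fun hh => tr3 n1 u12 hh
      have u15 : c 44 = c 33 := Classical.byContradiction fun hh => tr1 u13 u14 hh
      have u16 : c 41 ≠ c 21 := fun hh => X2.n12 a139 hh u14
      have u17 : c 21 ≠ c 33 := fun hh => X2.n23 a139 u14 hh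
      have u18 : c 44 ≠ c 21 := fun hh => tr1 hh u15 u17
      have u19 : c 21 ≠ c 15 := fun hh => tr3 n1 hh u16
      have u20 : c 31 = c 21 := Classical.byContradiction fun hh => X2.n3 a74 u6 hh u18
      have u21 : c 21 = c 13 := Classical.byContradiction fun hh => tr1 u20 u5 hh
      have u22 : c 32 ≠ c 21 := fun hh => tr3 u20 hh u7
      have u23 : c 42 ≠ c 21 := fun hh => X2.n13 a146 hh u21
      have u24 : c 42 = c 32 := Classical.byContradiction fun hh => X2.n3 a148 hh u23 u22
      have u25 : c 42 = c 15 := Classical.byContradiction fun hh => X2.n3 a147 u23 hh u19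
      k3504 u24 u25
  have k3735 : c 35 = c 1 → c 18 ≠ c 4 → c 18 ≠ c 1 → c 30 ≠ c 35 → c 19 ≠ c 12 → c 30 ≠ c 12 → c 19 = c 1 → False := fun n0 n1 n2 n3 n4 n5 n6 =>
      have u0 : c 19 = c 35 := Classical.byContradiction fun hh => tr3 n6 n0 hh
      have u1 : c 26 ≠ c 35 := fun hh => k3510 hh n0
      have u2 : c 18 ≠ c 35 := fun hh => tr2 hh n0 n2
      have u3 : c 35 ≠ c 12 := fun hh => tr2 u0 hh n4
      have u4 : c 35 = c 4 := Classical.byContradiction fun hh => X2.n3 a12 u2 n1 hh
      have u5 : c 26 = c 12 := Classical.byContradiction fun hh => X2.n3 a34 u1 hh u3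
      have u6 : c 30 ≠ c 4 := fun hh => tr3 hh u4 n3
      have u7 : c 26 ≠ c 4 := fun hh => tr3 hh u4 u1
      have u8 : c 30 ≠ c 26 := fun hh => tr2 hh u5 n5
      X2.n3 a59 u8 u6 u7
  have k3736 : c 18 ≠ c 1 → c 29 ≠ c 27 → c 29 ≠ c 43 → c 29 = c 11 → c 19 = c 11 → c 32 ≠ c 1 → c 30 ≠ c 35 → c 19 ≠ c 12 → c 30 ≠ c 12 → c 19 = c 1 → c 1 ≠ c 27 → c 43 ≠ c 27 → c 43 = c 32 → False := fun n0 n1 n2 n3 n4 n5 n6 n7 n8 n9 n10 n11 n12 =>
      have u0 : c 43 ≠ c 4 := fun hh => k3562 hh n1 n2 n11
      have u1 : c 32 ≠ c 4 := fun hh => tr2 n12 hh u0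
      have u2 : c 29 = c 19 := Classical.byContradiction fun hh => tr3 n3 n4 hh
      have u3 : c 8 ≠ c 19 := fun hh => k3503 u2 hh
      have u4 : c 8 ≠ c 1 := fun hh => tr3 hh n9 u3
      have u5 : c 29 = c 1 := Classical.byContradiction fun hh => tr2 u2 n9 hh
      have u6 : c 27 = c 13 := Classical.byContradiction fun hh => k3579 n12 hh
      have u7 : c 35 ≠ c 27 := fun hh => X2.n13 a90 hh u6
      have u8 : c 18 = c 32 := Classical.byContradiction fun hh => X2.n3 a11 hh n0 n5
      have u9 : c 29 ≠ c 18 := fun hh => tr1 hh u5 n0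
      have u10 : c 18 = c 43 := Classical.byContradiction fun hh => tr3 u8 n12 hh
      have u11 : c 18 ≠ c 4 := fun hh => tr1 u8 hh u1
      have u12 : c 35 ≠ c 1 := fun hh => k3735 hh u11 n0 n6 n7 n8 n9
      have u13 : c 19 ≠ c 35 := fun hh => tr1 hh n9 u12
      have u14 : c 8 = c 35 := Classical.byContradiction fun hh => X2.n3 a1 hh u4 u12
      have u15 : c 35 ≠ c 11 := fun hh => tr3 n4 hh u13
      have u16 : c 8 = c 43 := Classical.byContradiction fun hh => k3688 n1 u7 u14 hh n11 n2
      have u17 : c 18 = c 8 := Classical.byContradiction fun hh => tr3 u10 u16 hh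
      have u18 : c 38 ≠ c 18 := fun hh => X2.n13 a107 hh u17
      have u19 : c 39 ≠ c 18 := fun hh => X2.n13 a116 hh u17
      have u20 : c 38 = c 29 := Classical.byContradiction fun hh => X2.n3 a112 hh u18 u9
      have u21 : c 39 = c 29 := Classical.byContradiction fun hh => X2.n3 a119 hh u19 u9
      have u22 : c 38 = c 11 := Classical.byContradiction fun hh => tr2 u20 n3 hh
      have u23 : c 38 = c 39 := Classical.byContradiction fun hh => tr3 u20 u21 hh
      have u24 : c 38 ≠ c 25 := fun hh => X2.n12 a113 u23 hh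
      have u25 : c 25 ≠ c 11 := fun hh => tr3 u22 hh u24
      have u26 : c 25 = c 35 := Classical.byContradiction fun hh => X2.n3 a29 hh u25 u15
      have u27 : c 25 ≠ c 1 := fun hh => tr1 u26 hh u12
      have u28 : c 25 ≠ c 27 := fun hh => tr1 u26 hh u7
      X2.n3 a27 u27 u28 n10
  have k3737 : c 44 = c 33 → c 43 ≠ c 11 → c 32 ≠ c 11 → c 19 = c 11 → c 32 ≠ c 1 → c 31 ≠ c 11 → c 30 ≠ c 35 → c 19 ≠ c 12 → c 30 ≠ c 12 → c 28 ≠ c 1 → c 1 = c 45 → c 19 = c 1 → c 1 ≠ c 27 → c 1 ≠ c 21 → c 12 ≠ c 21 → c 44 = c 45 → c 31 = c 27 → c 43 ≠ c 27 → c 19 = c 44 → c 31 ≠ c 33 → c 31 ≠ c 32 → c 43 = c 32 → c 41 ≠ c 23 → False := fun n0 n1 n2 n3 n4 n5 n6 n7 n8 n9 n10 n11 n12 n13 n14 n15 n16 n17 n18 n19 n20 n21 n22 =>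
      have u0 : c 44 ≠ c 23 := fun hh => X2.n12 a158 n0 hh
      have u1 : c 19 = c 33 := Classical.byContradiction fun hh => tr2 n18 n0 hh
      have u2 : c 45 ≠ c 23 := fun hh => tr2 n15 hh u0
      have u3 : c 11 = c 33 := Classical.byContradiction fun hh => tr1 n3 u1 hh
      have u4 : c 1 ≠ c 23 := fun hh => tr1 n10 hh u2
      have u5 : c 29 = c 11 := Classical.byContradiction fun hh => k3665 hh n2 n4 n20 u3 n14 n13 n19
      have u6 : c 28 = c 23 := Classical.byContradiction fun hh => X2.n3 a35 n9 hh u4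
      have u7 : c 29 ≠ c 31 := fun hh => tr1 hh u5 n5
      have u8 : c 29 ≠ c 43 := fun hh => tr1 hh u5 n1
      have u9 : c 28 ≠ c 41 := fun hh => tr1 hh u6 n22
      have u10 : c 29 ≠ c 27 := fun hh => tr3 hh n16 u7
      have u11 : c 18 = c 1 := Classical.byContradiction fun hh => k3736 hh u10 u8 u5 n3 n4 n6 n7 n8 n11 n12 n17 n21
      have u12 : c 18 ≠ c 41 := fun hh => k3518 hh u11
      have u13 : c 28 ≠ c 18 := fun hh => tr2 hh u11 n9
      X2.n3 a38 u13 u9 u12
  have k3738 : c 21 = c 13 → c 31 = c 21 → c 41 = c 15 → False := fun n0 n1 n2 =>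
      have u0 : c 21 ≠ c 45 := fun hh => X2.n13 a69 n1 hh
      have u1 : c 44 ≠ c 21 := fun hh => X2.n23 a74 n1 hh
      have u2 : c 19 ≠ c 13 := fun hh => k3734 hh n2
      have u3 : c 41 ≠ c 23 := fun hh => X2.n12 a140 hh n2
      have u4 : c 42 ≠ c 21 := fun hh => X2.n13 a146 hh n0
      have u5 : c 43 ≠ c 13 := fun hh => X2.n23 a154 hh n0
      have u6 : c 32 ≠ c 21 := fun hh => k3493 hh n0
      have u7 : c 43 = c 32 := Classical.byContradiction fun hh => k3580 n0 hh
      have u8 : c 45 ≠ c 13 := fun hh => tr3 n0 hh u0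
      have u9 : c 31 = c 13 := Classical.byContradiction fun hh => tr2 n1 n0 hh
      have u10 : c 44 ≠ c 13 := fun hh => tr3 hh n0 u1
      have u11 : c 42 = c 32 := Classical.byContradiction fun hh => X2.n3 a148 hh u4 u6
      have u12 : c 31 ≠ c 32 := fun hh => tr1 hh n1 u6
      have u13 : c 27 = c 13 := Classical.byContradiction fun hh => k3579 u7 hh
      have u14 : c 19 = c 45 := Classical.byContradiction fun hh => X2.n3 a24 hh u2 u8
      have u15 : c 31 ≠ c 33 := fun hh => X2.n12 a66 u9 hh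
      have u16 : c 31 ≠ c 19 := fun hh => tr1 hh u9 u2
      have u17 : c 19 = c 44 := Classical.byContradiction fun hh => X2.n3 a22 hh u2 u10
      have u18 : c 42 ≠ c 15 := fun hh => k3504 u11 hh
      have u19 : c 43 ≠ c 27 := fun hh => tr2 hh u13 u5
      have u20 : c 44 ≠ c 27 := fun hh => tr2 hh u13 u10
      have u21 : c 31 = c 27 := Classical.byContradiction fun hh => tr3 u9 u13 hh
      have u22 : c 28 ≠ c 19 := fun hh => X2.n13 a41 hh u14
      have u23 : c 21 ≠ c 33 := fun hh => tr2 n1 hh u15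
      have u24 : c 19 ≠ c 15 := fun hh => X2.n12 a23 u17 hh
      have u25 : c 44 ≠ c 15 := fun hh => X2.n13 a23 u17 hh
      have u26 : c 44 = c 45 := Classical.byContradiction fun hh => tr1 u17 u14 hh
      have u27 : c 21 = c 15 := Classical.byContradiction fun hh => X2.n3 a147 u4 u18 hh
      have u28 : c 41 ≠ c 19 := fun hh => tr1 hh n2 u24
      have u29 : c 41 ≠ c 44 := fun hh => tr1 hh n2 u25
      have u30 : c 41 = c 21 := Classical.byContradiction fun hh => tr3 n2 u27 hh
      have u31 : c 41 = c 31 := Classical.byContradiction fun hh => X2.n3 a141 hh u28 u16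
      have u32 : c 41 = c 27 := Classical.byContradiction fun hh => X2.n3 a143 u29 hh u20
      have u33 : c 41 ≠ c 12 := fun hh => X2.n12 a133 hh u30
      have u34 : c 12 ≠ c 21 := fun hh => X2.n23 a133 u30 hh
      have u35 : c 1 ≠ c 21 := fun hh => k3534 u30 hh
      have u36 : c 31 ≠ c 1 := fun hh => k3506 u31 hh
      have u37 : c 1 ≠ c 27 := fun hh => k3545 u32 hh
      have u38 : c 31 ≠ c 12 := fun hh => tr2 u31 hh u33
      have u39 : c 40 = c 31 := Classical.byContradiction fun hh => k3628 u16 u36 hh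
      have u40 : c 19 = c 1 := Classical.byContradiction fun hh => X2.n3 a67 u16 u36 hh
      have u41 : c 32 = c 12 := Classical.byContradiction fun hh => X2.n3 a72 u12 u38 hh
      have u42 : c 40 ≠ c 19 := fun hh => X2.n12 a130 u39 hh
      have u43 : c 40 ≠ c 33 := fun hh => tr1 u39 hh u15
      have u44 : c 30 ≠ c 19 := fun hh => X2.n13 a57 hh u40
      have u45 : c 1 = c 45 := Classical.byContradiction fun hh => tr1 u40 u14 hh
      have u46 : c 28 ≠ c 1 := fun hh => tr3 hh u40 u22
      have u47 : c 30 ≠ c 12 := fun hh => X2.n23 a62 hh u41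
      have u48 : c 43 = c 12 := Classical.byContradiction fun hh => tr2 u7 u41 hh
      have u49 : c 30 ≠ c 45 := fun hh => tr3 hh u14 u44
      have u50 : c 30 = c 41 := Classical.byContradiction fun hh => X2.n3 a64 hh u44 u28
      have u51 : c 40 = c 30 := Classical.byContradiction fun hh => X2.n3 a129 hh u42 u44
      have u52 : c 45 ≠ c 3 := fun hh => X2.n13 a0 u45 hh
      have u53 : c 19 ≠ c 43 := fun hh => X2.n13 a21 hh u48
      have u54 : c 19 ≠ c 12 := fun hh => X2.n23 a21 hh u48
      have u55 : c 30 = c 21 := Classical.byContradiction fun hh => X2.n3 a58 hh u49 u0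
      have u56 : c 30 = c 31 := Classical.byContradiction fun hh => tr2 u50 u31 hh
      have u57 : c 19 ≠ c 32 := fun hh => tr3 hh u7 u53
      have u58 : c 30 ≠ c 35 := fun hh => k3528 hh u55
      have u59 : c 30 ≠ c 10 := fun hh => X2.n12 a60 u56 hh
      have u60 : c 31 ≠ c 10 := fun hh => X2.n13 a60 u56 hh
      have u61 : c 30 ≠ c 11 := fun hh => X2.n12 a61 u56 hh
      have u62 : c 31 ≠ c 11 := fun hh => X2.n13 a61 u56 hh
      have u63 : c 32 ≠ c 1 := fun hh => tr3 u40 hh u57
      have u64 : c 40 ≠ c 10 := fun hh => tr1 u51 hh u59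
      have u65 : c 10 ≠ c 27 := fun hh => tr3 u21 hh u60
      have u66 : c 40 ≠ c 11 := fun hh => tr1 u51 hh u61
      have u67 : c 19 = c 10 := Classical.byContradiction fun hh => X2.n3 a125 u42 u64 hh
      have u68 : c 19 = c 11 := Classical.byContradiction fun hh => X2.n3 a126 u42 u66 hh
      have u69 : c 10 ≠ c 32 := fun hh => tr2 u67 hh u57
      have u70 : c 28 ≠ c 11 := fun hh => tr3 hh u68 u22
      have u71 : c 32 ≠ c 11 := fun hh => tr3 u68 hh u57
      have u72 : c 43 ≠ c 11 := fun hh => tr3 u68 hh u53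
      have u73 : c 44 ≠ c 33 := fun hh => k3737 hh u72 u71 u68 u63 u62 u58 u54 u47 u46 u45 u40 u37 u35 u34 u26 u21 u19 u17 u15 u12 u7 u3
      have u74 : c 19 ≠ c 33 := fun hh => tr1 u17 hh u73
      have u75 : c 33 = c 3 := Classical.byContradiction fun hh => k3627 u17 hh u73 u26 u52
      have u76 : c 11 ≠ c 33 := fun hh => tr2 u68 hh u74
      have u77 : c 21 ≠ c 3 := fun hh => tr3 hh u75 u23
      have u78 : c 28 = c 33 := Classical.byContradiction fun hh => X2.n3 a37 u70 hh u76
      have u79 : c 32 = c 3 := Classical.byContradiction fun hh => X2.n3 a75 u6 hh u77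
      have u80 : c 40 ≠ c 28 := fun hh => tr2 hh u78 u43
      have u81 : c 32 = c 33 := Classical.byContradiction fun hh => tr3 u79 u75 hh
      have u82 : c 18 ≠ c 1 := fun hh => k3727 hh u80 u46
      have u83 : c 12 = c 33 := Classical.byContradiction fun hh => tr1 u41 u81 hh
      have u84 : c 29 ≠ c 12 := fun hh => X2.n13 a49 hh u83
      have u85 : c 29 ≠ c 32 := fun hh => tr2 hh u41 u84
      have u86 : c 29 ≠ c 43 := fun hh => tr2 hh u48 u84
      have u87 : c 29 = c 10 := Classical.byContradiction fun hh => X2.n3 a48 hh u85 u69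
      have u88 : c 29 = c 11 := Classical.byContradiction fun hh => X2.n3 a54 u85 hh u71
      have u89 : c 29 = c 27 := Classical.byContradiction fun hh => k3736 u82 hh u86 u88 u68 u63 u58 u54 u47 u40 u37 u19 u7
      tr1 u87 u89 u65
  have k3739 : c 32 = c 12 → c 41 ≠ c 32 → c 41 ≠ c 21 → c 31 = c 21 → False := fun n0 n1 n2 n3 =>
      have u0 : c 31 ≠ c 32 := fun hh => X2.n13 a72 hh n0
      have u1 : c 31 ≠ c 12 := fun hh => X2.n23 a72 hh n0
      k3685 u1 n1 u0 n2 n3
  have k3740 : c 18 = c 32 → c 44 ≠ c 12 → c 32 ≠ c 12 → c 44 = c 13 → False := fun n0 n1 n2 n3 =>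
      have u0 : c 18 ≠ c 13 := fun hh => k3550 n0 hh
      have u1 : c 18 ≠ c 12 := fun hh => tr1 n0 hh n2
      have u2 : c 18 ≠ c 44 := fun hh => tr2 hh n3 u0
      X2.n3 a16 u2 u1 n1
  have k3741 : c 31 ≠ c 32 → c 44 = c 13 → c 19 = c 15 → c 41 = c 19 → c 31 ≠ c 19 → c 41 ≠ c 21 → c 21 ≠ c 13 → c 31 = c 21 → False := fun n0 n1 n2 n3 n4 n5 n6 n7 =>
      have u0 : c 19 ≠ c 32 := fun hh => k3530 hh n2
      have u1 : c 41 ≠ c 32 := fun hh => tr1 n3 hh u0
      have u2 : c 32 ≠ c 12 := fun hh => k3739 hh u1 n5 n7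
      have u3 : c 19 ≠ c 1 := fun hh => k3536 n3 hh
      have u4 : c 31 = c 1 := Classical.byContradiction fun hh => X2.n3 a67 n4 hh u3
      have u5 : c 30 ≠ c 19 := fun hh => X2.n23 a64 hh n3
      have u6 : c 30 = c 1 := Classical.byContradiction fun hh => X2.n3 a57 u5 hh u3
      have u7 : c 30 = c 31 := Classical.byContradiction fun hh => tr3 u6 u4 hh
      have u8 : c 30 = c 21 := Classical.byContradiction fun hh => tr2 u7 n7 hh
      have u9 : c 30 ≠ c 11 := fun hh => X2.n12 a61 u7 hh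
      have u10 : c 11 ≠ c 21 := fun hh => tr3 u8 hh u9
      have u11 : c 1 = c 21 := Classical.byContradiction fun hh => tr1 u4 n7 hh
      have u12 : c 35 ≠ c 1 := fun hh => k3516 hh u11
      have u13 : c 29 ≠ c 21 := fun hh => X2.n23 a44 hh u11
      have u14 : c 29 ≠ c 1 := fun hh => X2.n13 a44 hh u11
      have u15 : c 40 ≠ c 30 := fun hh => k3547 hh u6
      have u16 : c 40 = c 19 := Classical.byContradiction fun hh => X2.n3 a129 u15 hh u5
      have u17 : c 31 ≠ c 13 := fun hh => tr1 n7 hh n6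
      have u18 : c 1 ≠ c 13 := fun hh => tr2 u4 hh u17
      have u19 : c 26 ≠ c 31 := fun hh => k3551 hh u4
      have u20 : c 41 ≠ c 11 := fun hh => X2.n12 a137 n3 hh
      have u21 : c 21 ≠ c 15 := fun hh => k3722 hh n6
      have u22 : c 43 ≠ c 32 := fun hh => k3624 hh n6
      have u23 : c 44 ≠ c 21 := fun hh => X2.n23 a74 n7 hh
      have u24 : c 32 ≠ c 21 := fun hh => tr3 n7 hh n0
      have u25 : c 32 ≠ c 1 := fun hh => tr3 u4 hh n0
      have u26 : c 31 = c 12 := Classical.byContradiction fun hh => k3685 hh u1 n0 n5 n7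
      have u27 : c 43 = c 21 := Classical.byContradiction fun hh => X2.n3 a155 u22 hh u24
      have u28 : c 12 = c 21 := Classical.byContradiction fun hh => tr1 u26 n7 hh
      have u29 : c 31 = c 43 := Classical.byContradiction fun hh => tr3 n7 u27 hh
      have u30 : c 43 ≠ c 11 := fun hh => tr1 hh u27 u10
      have u31 : c 29 ≠ c 43 := fun hh => tr2 hh u27 u13
      have u32 : c 43 = c 1 := Classical.byContradiction fun hh => tr3 u27 u11 hh
      have u33 : c 44 ≠ c 12 := fun hh => tr2 hh u28 u23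
      have u34 : c 19 ≠ c 43 := fun hh => tr3 u29 hh n4
      have u35 : c 43 ≠ c 4 := fun hh => k3691 hh u30 u20 u27 n5
      have u36 : c 29 = c 19 := Classical.byContradiction fun hh => X2.n3 a51 hh u31 u34
      have u37 : c 4 ≠ c 21 := fun hh => tr3 u27 hh u35
      have u38 : c 42 ≠ c 19 := fun hh => X2.n23 a55 u36 hh
      have u39 : c 31 ≠ c 4 := fun hh => tr1 hh n7 u37
      have u40 : c 42 ≠ c 15 := fun hh => tr3 hh n2 u38
      have u41 : c 26 = c 4 := Classical.byContradiction fun hh => X2.n3 a32 u19 hh u39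
      have u42 : c 42 = c 21 := Classical.byContradiction fun hh => X2.n3 a147 hh u40 u21
      have u43 : c 8 = c 43 := Classical.byContradiction fun hh => k3693 hh u41 u35 u36 u12 u14 u32 u25 u18 u3 n3 u27 n6
      have u44 : c 42 = c 1 := Classical.byContradiction fun hh => tr3 u42 u11 hh
      have u45 : c 31 = c 8 := Classical.byContradiction fun hh => tr3 u29 u43 hh
      have u46 : c 0 ≠ c 1 := fun hh => X2.n23 a144 u44 hh
      have u47 : c 28 ≠ c 31 := fun hh => X2.n13 a43 hh u45
      have u48 : c 28 ≠ c 1 := fun hh => tr3 hh u4 u47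
      have u49 : c 18 ≠ c 32 := fun hh => k3740 hh u33 u2 n1
      have u50 : c 18 = c 1 := Classical.byContradiction fun hh => X2.n3 a11 u49 hh u25
      have u51 : c 29 ≠ c 18 := fun hh => tr2 hh u50 u14
      have u52 : c 40 = c 28 := Classical.byContradiction fun hh => k3727 u50 hh u48
      have u53 : c 18 ≠ c 0 := fun hh => tr1 hh u50 u46
      have u54 : c 28 = c 19 := Classical.byContradiction fun hh => tr1 u52 u16 hh
      have u55 : c 29 = c 0 := Classical.byContradiction fun hh => X2.n3 a50 u51 hh u53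
      have u56 : c 19 ≠ c 0 := fun hh => X2.n13 a39 u54 hh
      tr1 u36 u55 u56
  have k3742 : c 31 ≠ c 19 → c 31 = c 21 → c 41 = c 15 → False := fun n0 n1 n2 =>
      have u0 : c 21 ≠ c 13 := fun hh => k3738 hh n1 n2
      have u1 : c 21 ≠ c 15 := fun hh => k3722 hh u0
      have u2 : c 31 ≠ c 15 := fun hh => tr1 n1 hh u1
      have u3 : c 41 ≠ c 31 := fun hh => tr1 hh n2 u2
      have u4 : c 41 ≠ c 21 := fun hh => tr1 hh n2 u1
      have u5 : c 19 ≠ c 13 := fun hh => k3734 hh n2
      have u6 : c 41 = c 19 := Classical.byContradiction fun hh => X2.n3 a141 u3 hh n0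
      have u7 : c 19 = c 15 := Classical.byContradiction fun hh => tr1 u6 n2 hh
      have u8 : c 19 ≠ c 44 := fun hh => X2.n12 a23 hh u7
      have u9 : c 44 = c 13 := Classical.byContradiction fun hh => X2.n3 a22 u8 u5 hh
      have u10 : c 31 = c 32 := Classical.byContradiction fun hh => k3741 hh u9 u7 u6 n0 u4 u0 n1
      have u11 : c 32 = c 21 := Classical.byContradiction fun hh => tr1 u10 n1 hh
      have u12 : c 42 ≠ c 21 := fun hh => X2.n23 a148 hh u11
      have u13 : c 42 = c 13 := Classical.byContradiction fun hh => X2.n3 a146 u12 hh u0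
      have u14 : c 42 = c 15 := Classical.byContradiction fun hh => X2.n3 a147 u12 hh u1
      have u15 : c 42 ≠ c 19 := fun hh => tr1 hh u13 u5
      tr3 u14 u7 u15
  have k3743 : c 38 = c 35 → c 38 = c 13 → c 38 = c 11 → c 13 ≠ c 7 → c 32 ≠ c 2 → c 32 = c 21 → False := fun n0 n1 n2 n3 n4 n5 =>
      have u0 : c 38 ≠ c 24 := fun hh => X2.n12 a110 hh n0
      have u1 : c 35 = c 11 := Classical.byContradiction fun hh => tr1 n0 n2 hh
      have u2 : c 35 = c 13 := Classical.byContradiction fun hh => tr1 n0 n1 hh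
      have u3 : c 24 ≠ c 11 := fun hh => tr3 n2 hh u0
      have u4 : c 11 ≠ c 2 := fun hh => X2.n13 a88 u1 hh
      have u5 : c 35 ≠ c 7 := fun hh => tr1 u2 hh n3
      have u6 : c 36 = c 11 := Classical.byContradiction fun hh => k3490 hh u3
      have u7 : c 21 = c 7 := Classical.byContradiction fun hh => k3491 u5 hh
      have u8 : c 36 ≠ c 2 := fun hh => tr1 u6 hh u4
      have u9 : c 36 ≠ c 7 := fun hh => k3561 u7 hh u6 u1
      have u10 : c 32 = c 7 := Classical.byContradiction fun hh => tr2 n5 u7 hh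
      have u11 : c 2 = c 7 := Classical.byContradiction fun hh => X2.n3 a92 u8 u9 hh
      tr3 u10 u11 n4
  have k3744 : c 31 = c 32 → c 27 ≠ c 13 → c 41 = c 13 → c 41 = c 44 → c 31 = c 19 → c 41 ≠ c 21 → c 21 ≠ c 13 → c 31 = c 21 → False := fun n0 n1 n2 n3 n4 n5 n6 n7 =>
      have u0 : c 1 ≠ c 13 := fun hh => k3556 n2 hh
      have u1 : c 13 ≠ c 6 := fun hh => X2.n13 a135 n2 hh
      have u2 : c 41 ≠ c 6 := fun hh => X2.n12 a135 n2 hh
      have u3 : c 31 ≠ c 1 := fun hh => X2.n12 a67 n4 hh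
      have u4 : c 1 ≠ c 21 := fun hh => tr3 n7 hh u3
      have u5 : c 40 ≠ c 19 := fun hh => X2.n23 a130 hh n4
      have u6 : c 41 ≠ c 19 := fun hh => X2.n23 a141 hh n4
      have u7 : c 43 ≠ c 32 := fun hh => k3624 hh n6
      have u8 : c 31 ≠ c 2 := fun hh => X2.n12 a68 n7 hh
      have u9 : c 31 ≠ c 12 := fun hh => X2.n12 a72 n0 hh
      have u10 : c 32 = c 21 := Classical.byContradiction fun hh => tr1 n0 n7 hh
      have u11 : c 19 = c 32 := Classical.byContradiction fun hh => tr1 n4 n0 hh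
      have u12 : c 32 ≠ c 2 := fun hh => tr2 n0 hh u8
      have u13 : c 12 ≠ c 21 := fun hh => tr3 n7 hh u9
      have u14 : c 43 ≠ c 21 := fun hh => X2.n23 a155 hh u10
      have u15 : c 39 ≠ c 32 := fun hh => X2.n23 a117 hh u11
      have u16 : c 38 ≠ c 32 := fun hh => X2.n23 a108 hh u11
      have u17 : c 19 ≠ c 43 := fun hh => tr1 hh u11 u7
      have u18 : c 41 = c 12 := Classical.byContradiction fun hh => X2.n3 a133 hh n5 u13
      have u19 : c 43 = c 13 := Classical.byContradiction fun hh => X2.n3 a154 u14 hh n6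
      have u20 : c 38 ≠ c 21 := fun hh => tr3 hh u10 u16
      have u21 : c 44 = c 12 := Classical.byContradiction fun hh => tr1 n3 u18 hh
      have u22 : c 13 ≠ c 7 := fun hh => X2.n13 a152 u19 hh
      have u23 : c 43 ≠ c 22 := fun hh => X2.n12 a153 u19 hh
      have u24 : c 43 ≠ c 1 := fun hh => tr1 hh u19 u0
      have u25 : c 43 ≠ c 6 := fun hh => tr1 u19 hh u1
      have u26 : c 18 ≠ c 44 := fun hh => X2.n13 a16 hh u21
      have u27 : c 32 = c 22 := Classical.byContradiction fun hh => X2.n3 a156 u7 u23 hh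
      have u28 : c 29 = c 32 := Classical.byContradiction fun hh => k3581 hh u17 u11 u4 u24 u10
      have u29 : c 18 ≠ c 41 := fun hh => tr2 hh n3 u26
      have u30 : c 39 ≠ c 22 := fun hh => tr3 hh u27 u15
      have u31 : c 10 ≠ c 32 := fun hh => X2.n23 a48 u28 hh
      have u32 : c 32 ≠ c 11 := fun hh => X2.n13 a54 u28 hh
      have u33 : c 38 ≠ c 29 := fun hh => tr2 hh u28 u16
      have u34 : c 19 ≠ c 10 := fun hh => tr1 hh u11 u31
      have u35 : c 10 ≠ c 21 := fun hh => tr3 hh u10 u31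
      have u36 : c 10 ≠ c 22 := fun hh => tr3 hh u27 u31
      have u37 : c 19 ≠ c 11 := fun hh => tr1 u11 hh u32
      have u38 : c 11 ≠ c 21 := fun hh => tr3 u10 hh u32
      have u39 : c 41 = c 10 := Classical.byContradiction fun hh => X2.n3 a136 u6 hh u34
      have u40 : c 40 = c 10 := Classical.byContradiction fun hh => X2.n3 a125 u5 hh u34
      have u41 : c 38 = c 10 := Classical.byContradiction fun hh => X2.n3 a103 hh u20 u35
      have u42 : c 39 = c 10 := Classical.byContradiction fun hh => X2.n3 a115 hh u30 u36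
      have u43 : c 41 = c 11 := Classical.byContradiction fun hh => X2.n3 a137 u6 hh u37
      have u44 : c 38 = c 11 := Classical.byContradiction fun hh => X2.n3 a105 hh u20 u38
      have u45 : c 10 ≠ c 6 := fun hh => tr2 u39 hh u2
      have u46 : c 18 ≠ c 10 := fun hh => tr3 hh u39 u29
      have u47 : c 10 ≠ c 4 := fun hh => X2.n13 a122 u40 hh
      have u48 : c 38 ≠ c 18 := fun hh => tr1 hh u41 u46
      have u49 : c 38 = c 39 := Classical.byContradiction fun hh => tr3 u41 u42 hh
      have u50 : c 41 ≠ c 4 := fun hh => X2.n12 a132 hh u43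
      have u51 : c 43 = c 10 := Classical.byContradiction fun hh => X2.n3 a151 hh u25 u45
      have u52 : c 43 ≠ c 4 := fun hh => tr1 u51 hh u47
      have u53 : c 38 ≠ c 4 := fun hh => tr1 u41 hh u47
      have u54 : c 39 ≠ c 4 := fun hh => tr1 u42 hh u47
      have u55 : c 29 = c 18 := Classical.byContradiction fun hh => X2.n3 a112 u33 u48 hh
      have u56 : c 38 ≠ c 25 := fun hh => X2.n12 a113 u49 hh
      have u57 : c 39 ≠ c 18 := fun hh => tr2 u49 hh u48
      have u58 : c 4 ≠ c 13 := fun hh => tr3 n2 hh u50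
      have u59 : c 18 ≠ c 8 := fun hh => k3532 u55 hh
      have u60 : c 25 ≠ c 11 := fun hh => tr3 u44 hh u56
      have u61 : c 39 = c 8 := Classical.byContradiction fun hh => X2.n3 a116 u57 hh u59
      have u62 : c 38 = c 13 := Classical.byContradiction fun hh => X2.n3 a101 u53 hh u58
      have u63 : c 38 = c 8 := Classical.byContradiction fun hh => X2.n3 a107 u48 hh u59
      have u64 : c 8 ≠ c 4 := fun hh => tr2 u61 hh u54
      have u65 : c 8 = c 43 := Classical.byContradiction fun hh => X2.n3 a2 hh u64 u52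
      have u66 : c 8 ≠ c 1 := fun hh => tr1 u65 hh u24
      have u67 : c 38 ≠ c 35 := fun hh => k3743 hh u62 u44 u22 u12 u10
      have u68 : c 35 ≠ c 13 := fun hh => tr3 u62 hh u67
      have u69 : c 35 ≠ c 11 := fun hh => tr3 u44 hh u67
      have u70 : c 8 ≠ c 35 := fun hh => tr2 u63 hh u67
      have u71 : c 35 = c 27 := Classical.byContradiction fun hh => X2.n3 a90 hh u68 n1
      have u72 : c 25 = c 35 := Classical.byContradiction fun hh => X2.n3 a29 hh u60 u69
      have u73 : c 35 = c 1 := Classical.byContradiction fun hh => X2.n3 a1 u70 u66 hh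
      have u74 : c 25 = c 1 := Classical.byContradiction fun hh => tr2 u72 u73 hh
      have u75 : c 1 = c 27 := Classical.byContradiction fun hh => tr1 u73 u71 hh
      X2.n13 a27 u74 u75
  have k3745 : c 31 = c 21 → c 41 = c 15 → False := fun n0 n1 =>
      have u0 : c 19 ≠ c 13 := fun hh => k3734 hh n1
      have u1 : c 31 ≠ c 44 := fun hh => X2.n12 a74 hh n0
      have u2 : c 31 ≠ c 2 := fun hh => X2.n12 a68 n0 hh
      have u3 : c 21 ≠ c 13 := fun hh => k3738 hh n0 n1
      have u4 : c 43 ≠ c 32 := fun hh => k3624 hh u3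
      have u5 : c 21 ≠ c 15 := fun hh => k3722 hh u3
      have u6 : c 31 ≠ c 15 := fun hh => tr1 n0 hh u5
      have u7 : c 41 ≠ c 21 := fun hh => tr1 hh n1 u5
      have u8 : c 31 = c 19 := Classical.byContradiction fun hh => k3742 hh n0 n1
      have u9 : c 31 ≠ c 1 := fun hh => X2.n12 a67 u8 hh
      have u10 : c 19 ≠ c 44 := fun hh => tr2 u8 hh u1
      have u11 : c 19 ≠ c 2 := fun hh => tr2 u8 hh u2
      have u12 : c 19 ≠ c 15 := fun hh => tr2 u8 hh u6
      have u13 : c 1 ≠ c 21 := fun hh => tr3 n0 hh u9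
      have u14 : c 44 = c 13 := Classical.byContradiction fun hh => X2.n3 a22 u10 u0 hh
      have u15 : c 44 = c 15 := Classical.byContradiction fun hh => X2.n3 a23 u10 u12 hh
      have u16 : c 41 = c 44 := Classical.byContradiction fun hh => tr3 n1 u15 hh
      have u17 : c 44 ≠ c 27 := fun hh => X2.n13 a143 u16 hh
      have u18 : c 41 = c 13 := Classical.byContradiction fun hh => tr2 u16 u14 hh
      have u19 : c 27 ≠ c 13 := fun hh => tr3 u14 hh u17
      have u20 : c 31 ≠ c 32 := fun hh => k3744 hh u19 u18 u16 u8 u7 u3 n0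
      have u21 : c 19 ≠ c 32 := fun hh => tr2 u8 hh u20
      have u22 : c 32 ≠ c 21 := fun hh => tr3 n0 hh u20
      have u23 : c 32 = c 2 := Classical.byContradiction fun hh => X2.n3 a18 u21 u11 hh
      have u24 : c 43 = c 21 := Classical.byContradiction fun hh => X2.n3 a155 u4 hh u22
      have u25 : c 43 ≠ c 2 := fun hh => tr3 hh u23 u4
      have u26 : c 31 = c 43 := Classical.byContradiction fun hh => tr3 n0 u24 hh
      have u27 : c 43 ≠ c 1 := fun hh => tr1 hh u24 u13
      have u28 : c 1 = c 2 := Classical.byContradiction fun hh => X2.n3 a150 u27 u25 hh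
      have u29 : c 19 = c 43 := Classical.byContradiction fun hh => tr1 u8 u26 hh
      have u30 : c 32 = c 1 := Classical.byContradiction fun hh => tr3 u23 u28 hh
      have u31 : c 19 ≠ c 12 := fun hh => X2.n12 a21 u29 hh
      have u32 : c 41 ≠ c 32 := fun hh => k3525 hh u30
      have u33 : c 31 ≠ c 12 := fun hh => tr1 u8 hh u31
      k3685 u33 u32 u20 u7 n0
  have k3746 : c 31 = c 19 → c 32 ≠ c 2 → c 31 ≠ c 2 → c 31 ≠ c 32 → False := fun n0 n1 n2 n3 =>
      have u0 : c 19 ≠ c 2 := fun hh => tr2 n0 hh n2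
      have u1 : c 19 ≠ c 32 := fun hh => tr2 n0 hh n3
      X2.n3 a18 u1 u0 n1
  have k3747 : c 43 = c 21 → c 19 = c 2 → c 21 ≠ c 15 → c 31 ≠ c 19 → c 21 = c 2 → c 41 = c 15 → False := fun n0 n1 n2 n3 n4 n5 =>
      have u0 : c 43 = c 2 := Classical.byContradiction fun hh => tr2 n0 n4 hh
      have u1 : c 43 ≠ c 15 := fun hh => tr1 n0 hh n2
      have u2 : c 1 ≠ c 2 := fun hh => X2.n23 a150 u0 hh
      have u3 : c 19 = c 43 := Classical.byContradiction fun hh => tr3 n1 u0 hh
      have u4 : c 19 ≠ c 1 := fun hh => tr1 hh n1 u2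
      have u5 : c 19 ≠ c 15 := fun hh => tr1 u3 hh u1
      have u6 : c 31 = c 1 := Classical.byContradiction fun hh => X2.n3 a67 n3 hh u4
      have u7 : c 41 ≠ c 19 := fun hh => tr1 hh n5 u5
      have u8 : c 41 ≠ c 31 := fun hh => k3506 hh u6
      X2.n3 a141 u8 u7 n3
  have k3748 : c 42 ≠ c 21 → c 21 ≠ c 15 → c 32 ≠ c 21 → False := fun n0 n1 n2 =>
      have u0 : c 42 = c 32 := Classical.byContradiction fun hh => X2.n3 a148 hh n0 n2
      have u1 : c 42 = c 15 := Classical.byContradiction fun hh => X2.n3 a147 n0 hh n1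
      k3504 u0 u1
  have k3749 : c 21 ≠ c 15 → c 31 ≠ c 19 → c 21 = c 2 → c 32 ≠ c 21 → c 41 = c 15 → False := fun n0 n1 n2 n3 n4 =>
      have u0 : c 32 ≠ c 2 := fun hh => tr3 hh n2 n3
      have u1 : c 31 ≠ c 21 := fun hh => k3745 hh n4
      have u2 : c 42 = c 21 := Classical.byContradiction fun hh => k3748 hh n0 n3
      have u3 : c 21 ≠ c 13 := fun hh => X2.n13 a146 u2 hh
      have u4 : c 43 ≠ c 32 := fun hh => k3624 hh u3
      have u5 : c 43 = c 21 := Classical.byContradiction fun hh => X2.n3 a155 u4 hh n3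
      have u6 : c 43 = c 2 := Classical.byContradiction fun hh => tr2 u5 n2 hh
      have u7 : c 19 ≠ c 2 := fun hh => k3747 u5 hh n0 n1 n2 n4
      have u8 : c 19 ≠ c 43 := fun hh => tr2 hh u6 u7
      have u9 : c 19 = c 32 := Classical.byContradiction fun hh => X2.n3 a18 hh u7 u0
      have u10 : c 19 ≠ c 15 := fun hh => k3530 u9 hh
      have u11 : c 41 ≠ c 19 := fun hh => tr1 hh n4 u10
      have u12 : c 41 = c 31 := Classical.byContradiction fun hh => X2.n3 a141 hh u11 n1
      have u13 : c 31 ≠ c 1 := fun hh => k3506 u12 hh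
      have u14 : c 40 = c 31 := Classical.byContradiction fun hh => k3628 n1 u13 hh
      have u15 : c 19 = c 1 := Classical.byContradiction fun hh => X2.n3 a67 n1 u13 hh
      have u16 : c 40 ≠ c 19 := fun hh => X2.n12 a130 u14 hh
      have u17 : c 30 ≠ c 19 := fun hh => X2.n13 a57 hh u15
      have u18 : c 32 = c 1 := Classical.byContradiction fun hh => tr1 u9 u15 hh
      have u19 : c 30 = c 41 := Classical.byContradiction fun hh => X2.n3 a64 hh u17 u11
      have u20 : c 40 = c 30 := Classical.byContradiction fun hh => X2.n3 a129 hh u16 u17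
      have u21 : c 18 ≠ c 32 := fun hh => X2.n13 a11 hh u18
      have u22 : c 30 = c 31 := Classical.byContradiction fun hh => tr2 u19 u12 hh
      have u23 : c 30 ≠ c 10 := fun hh => X2.n12 a60 u22 hh
      have u24 : c 40 ≠ c 10 := fun hh => tr1 u20 hh u23
      have u25 : c 19 = c 10 := Classical.byContradiction fun hh => X2.n3 a125 u16 u24 hh
      have u26 : c 43 ≠ c 10 := fun hh => tr3 u25 hh u8
      have u27 : c 10 = c 32 := Classical.byContradiction fun hh => tr1 u25 u9 hh
      have u28 : c 31 = c 15 := Classical.byContradiction fun hh => tr1 u12 n4 hh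
      have u29 : c 18 ≠ c 10 := fun hh => tr2 hh u27 u21
      have u30 : c 31 ≠ c 33 := fun hh => X2.n12 a73 hh u28
      have u31 : c 18 = c 43 := Classical.byContradiction fun hh => X2.n3 a14 hh u29 u26
      have u32 : c 21 = c 33 := Classical.byContradiction fun hh => k3638 u12 u30 hh u1
      have u33 : c 18 = c 2 := Classical.byContradiction fun hh => tr2 u31 u6 hh
      have u34 : c 2 = c 33 := Classical.byContradiction fun hh => tr1 n2 u32 hh
      X2.n13 a8 u33 u34
  have k3750 : c 31 ≠ c 2 → c 32 ≠ c 21 → c 31 ≠ c 32 → c 41 = c 15 → False := fun n0 n1 n2 n3 =>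
      have u0 : c 31 ≠ c 21 := fun hh => k3745 hh n3
      have u1 : c 19 ≠ c 13 := fun hh => k3734 hh n3
      have u2 : c 21 = c 2 := Classical.byContradiction fun hh => X2.n3 a68 u0 n0 hh
      have u3 : c 32 ≠ c 2 := fun hh => tr3 hh u2 n1
      have u4 : c 31 ≠ c 19 := fun hh => k3746 hh u3 n0 n2
      have u5 : c 21 = c 15 := Classical.byContradiction fun hh => k3749 hh u4 u2 n1 n3
      have u6 : c 41 = c 21 := Classical.byContradiction fun hh => tr3 n3 u5 hh
      have u7 : c 21 = c 13 := Classical.byContradiction fun hh => k3722 u5 hh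
      have u8 : c 41 ≠ c 31 := fun hh => tr1 hh u6 u0
      have u9 : c 41 = c 13 := Classical.byContradiction fun hh => tr2 u6 u7 hh
      have u10 : c 41 = c 19 := Classical.byContradiction fun hh => X2.n3 a141 u8 hh u4
      tr1 u10 u9 u1
  have k3751 : c 10 = c 32 → c 19 ≠ c 32 → c 41 ≠ c 19 → c 41 ≠ c 32 → False := fun n0 n1 n2 n3 =>
      have u0 : c 41 ≠ c 10 := fun hh => tr2 hh n0 n3
      have u1 : c 19 ≠ c 10 := fun hh => tr2 hh n0 n1
      X2.n3 a136 n2 u0 u1
  have k3752 : c 41 = c 21 → c 32 ≠ c 21 → c 31 ≠ c 32 → c 41 = c 15 → False := fun n0 n1 n2 n3 =>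
      have u0 : c 31 = c 2 := Classical.byContradiction fun hh => k3750 hh n1 n2 n3
      have u1 : c 32 ≠ c 2 := fun hh => tr3 u0 hh n2
      have u2 : c 31 ≠ c 21 := fun hh => k3745 hh n3
      have u3 : c 19 ≠ c 13 := fun hh => k3734 hh n3
      have u4 : c 41 ≠ c 33 := fun hh => X2.n12 a139 n0 hh
      have u5 : c 21 ≠ c 33 := fun hh => X2.n13 a139 n0 hh
      have u6 : c 1 ≠ c 21 := fun hh => k3534 n0 hh
      have u7 : c 41 ≠ c 31 := fun hh => tr1 hh n0 u2
      have u8 : c 21 = c 15 := Classical.byContradiction fun hh => tr1 n0 n3 hh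
      have u9 : c 41 ≠ c 32 := fun hh => tr1 hh n0 n1
      have u10 : c 33 ≠ c 15 := fun hh => tr3 n3 hh u4
      have u11 : c 31 ≠ c 15 := fun hh => tr3 n3 hh u7
      have u12 : c 21 = c 13 := Classical.byContradiction fun hh => k3722 u8 hh
      have u13 : c 31 = c 33 := Classical.byContradiction fun hh => X2.n3 a73 hh u11 u10
      have u14 : c 43 ≠ c 13 := fun hh => X2.n23 a154 hh u12
      have u15 : c 35 ≠ c 13 := fun hh => k3515 hh u12
      have u16 : c 43 = c 32 := Classical.byContradiction fun hh => k3580 u12 hh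
      have u17 : c 41 = c 13 := Classical.byContradiction fun hh => tr2 n0 u12 hh
      have u18 : c 13 ≠ c 33 := fun hh => tr2 u12 hh u5
      have u19 : c 1 ≠ c 13 := fun hh => tr3 hh u12 u6
      have u20 : c 2 = c 33 := Classical.byContradiction fun hh => tr1 u0 u13 hh
      have u21 : c 43 ≠ c 22 := fun hh => X2.n12 a156 u16 hh
      have u22 : c 27 = c 13 := Classical.byContradiction fun hh => k3579 u16 hh
      have u23 : c 43 ≠ c 2 := fun hh => tr1 u16 hh u1
      have u24 : c 41 ≠ c 19 := fun hh => tr1 hh u17 u3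
      have u25 : c 18 ≠ c 2 := fun hh => X2.n13 a8 hh u20
      have u26 : c 13 = c 22 := Classical.byContradiction fun hh => X2.n3 a153 u14 u21 hh
      have u27 : c 1 ≠ c 27 := fun hh => tr2 hh u22 u19
      have u28 : c 31 = c 19 := Classical.byContradiction fun hh => X2.n3 a141 u7 u24 hh
      have u29 : c 18 ≠ c 31 := fun hh => tr2 hh u0 u25
      have u30 : c 33 ≠ c 22 := fun hh => tr3 u26 hh u18
      have u31 : c 31 ≠ c 1 := fun hh => X2.n12 a67 u28 hh
      have u32 : c 40 ≠ c 31 := fun hh => X2.n13 a130 hh u28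
      have u33 : c 40 ≠ c 19 := fun hh => X2.n23 a130 hh u28
      have u34 : c 19 ≠ c 32 := fun hh => tr2 u28 hh n2
      have u35 : c 19 = c 33 := Classical.byContradiction fun hh => tr1 u28 u13 hh
      have u36 : c 41 = c 22 := Classical.byContradiction fun hh => X2.n3 a142 u4 hh u30
      have u37 : c 1 ≠ c 2 := fun hh => tr3 u0 hh u31
      have u38 : c 40 ≠ c 33 := fun hh => tr3 hh u13 u32
      have u39 : c 37 ≠ c 19 := fun hh => X2.n13 a98 hh u35
      have u40 : c 43 = c 1 := Classical.byContradiction fun hh => X2.n3 a150 hh u23 u37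
      have u41 : c 40 = c 21 := Classical.byContradiction fun hh => X2.n3 a127 hh u38 u5
      have u42 : c 37 ≠ c 31 := fun hh => tr2 hh u28 u39
      have u43 : c 32 = c 1 := Classical.byContradiction fun hh => tr1 u16 u40 hh
      have u44 : c 40 = c 13 := Classical.byContradiction fun hh => tr2 u41 u12 hh
      have u45 : c 37 = c 18 := Classical.byContradiction fun hh => X2.n3 a97 hh u42 u29
      have u46 : c 18 ≠ c 32 := fun hh => X2.n13 a11 hh u43
      have u47 : c 40 = c 27 := Classical.byContradiction fun hh => tr3 u44 u22 hh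
      have u48 : c 18 ≠ c 43 := fun hh => tr2 hh u16 u46
      have u49 : c 10 ≠ c 32 := fun hh => k3751 hh u34 u24 u9
      have u50 : c 43 ≠ c 10 := fun hh => tr1 hh u16 u49
      have u51 : c 18 = c 10 := Classical.byContradiction fun hh => X2.n3 a14 u48 hh u50
      have u52 : c 31 ≠ c 10 := fun hh => tr3 u51 hh u29
      have u53 : c 34 ≠ c 10 := fun hh => k3541 hh u51
      have u54 : c 19 ≠ c 10 := fun hh => tr2 u28 hh u52
      have u55 : c 41 = c 10 := Classical.byContradiction fun hh => X2.n3 a136 u24 hh u54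
      have u56 : c 40 = c 10 := Classical.byContradiction fun hh => X2.n3 a125 u33 hh u54
      have u57 : c 10 = c 21 := Classical.byContradiction fun hh => tr1 u55 n0 hh
      have u58 : c 10 = c 22 := Classical.byContradiction fun hh => tr1 u55 u36 hh
      have u59 : c 18 = c 41 := Classical.byContradiction fun hh => tr3 u51 u55 hh
      have u60 : c 40 ≠ c 4 := fun hh => X2.n12 a122 u56 hh
      have u61 : c 10 ≠ c 4 := fun hh => X2.n13 a122 u56 hh
      have u62 : c 40 = c 18 := Classical.byContradiction fun hh => tr3 u56 u51 hh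
      have u63 : c 38 ≠ c 21 := fun hh => X2.n23 a103 hh u57
      have u64 : c 34 ≠ c 21 := fun hh => tr3 hh u57 u53
      have u65 : c 39 ≠ c 22 := fun hh => X2.n23 a115 hh u58
      have u66 : c 18 = c 13 := Classical.byContradiction fun hh => tr2 u59 u17 hh
      have u67 : c 4 ≠ c 21 := fun hh => tr3 u41 hh u60
      have u68 : c 4 ≠ c 13 := fun hh => tr3 u44 hh u60
      have u69 : c 18 ≠ c 4 := fun hh => tr1 u51 hh u61
      have u70 : c 37 = c 40 := Classical.byContradiction fun hh => tr3 u45 u62 hh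
      have u71 : c 38 ≠ c 13 := fun hh => tr3 hh u12 u63
      have u72 : c 39 ≠ c 13 := fun hh => tr2 hh u26 u65
      have u73 : c 18 ≠ c 35 := fun hh => tr1 hh u66 u15
      have u74 : c 34 = c 4 := Classical.byContradiction fun hh => X2.n3 a82 hh u64 u67
      have u75 : c 35 = c 4 := Classical.byContradiction fun hh => X2.n3 a12 u73 u69 hh
      have u76 : c 40 ≠ c 25 := fun hh => X2.n13 a100 u70 hh
      have u77 : c 38 = c 4 := Classical.byContradiction fun hh => X2.n3 a101 hh u71 u68
      have u78 : c 39 = c 4 := Classical.byContradiction fun hh => X2.n3 a114 hh u72 u68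
      have u79 : c 34 = c 35 := Classical.byContradiction fun hh => tr3 u74 u75 hh
      have u80 : c 25 ≠ c 27 := fun hh => tr3 u47 hh u76
      have u81 : c 38 = c 35 := Classical.byContradiction fun hh => tr3 u77 u75 hh
      have u82 : c 38 = c 39 := Classical.byContradiction fun hh => tr3 u77 u78 hh
      have u83 : c 19 ≠ c 35 := fun hh => X2.n23 a84 u79 hh
      have u84 : c 25 = c 1 := Classical.byContradiction fun hh => X2.n3 a27 hh u80 u27
      have u85 : c 38 ≠ c 19 := fun hh => tr1 hh u81 u83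
      have u86 : c 38 ≠ c 25 := fun hh => X2.n12 a113 u82 hh
      have u87 : c 25 = c 32 := Classical.byContradiction fun hh => tr3 u84 u43 hh
      have u88 : c 38 = c 32 := Classical.byContradiction fun hh => X2.n3 a108 u85 hh u34
      tr3 u88 u87 u86
  have k3753 : c 30 ≠ c 19 → c 31 = c 19 → False := fun n0 n1 =>
      have u0 : c 41 ≠ c 19 := fun hh => X2.n23 a141 hh n1
      have u1 : c 19 ≠ c 1 := fun hh => X2.n13 a67 n1 hh
      have u2 : c 30 = c 1 := Classical.byContradiction fun hh => X2.n3 a57 n0 hh u1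
      have u3 : c 30 = c 41 := Classical.byContradiction fun hh => X2.n3 a64 hh n0 u0
      k3498 u3 u2
  have k3755 : c 41 ≠ c 33 → c 31 ≠ c 15 → c 41 ≠ c 21 → c 41 = c 15 → False := fun n0 n1 n2 n3 =>
      have u0 : c 31 ≠ c 21 := fun hh => k3745 hh n3
      have u1 : c 33 ≠ c 15 := fun hh => tr3 n3 hh n0
      have u2 : c 21 = c 33 := Classical.byContradiction fun hh => X2.n3 a139 n2 n0 hh
      have u3 : c 31 = c 33 := Classical.byContradiction fun hh => X2.n3 a73 hh n1 u1
      tr3 u3 u2 u0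
  have k3756 : c 31 = c 19 → c 32 ≠ c 21 → c 31 ≠ c 32 → c 41 = c 15 → False := fun n0 n1 n2 n3 =>
      have u0 : c 31 = c 2 := Classical.byContradiction fun hh => k3750 hh n1 n2 n3
      have u1 : c 21 ≠ c 2 := fun hh => X2.n23 a68 u0 hh
      have u2 : c 41 ≠ c 21 := fun hh => k3752 hh n1 n2 n3
      have u3 : c 21 ≠ c 15 := fun hh => tr3 n3 hh u2
      have u4 : c 42 = c 21 := Classical.byContradiction fun hh => k3748 hh u3 n1
      have u5 : c 21 ≠ c 13 := fun hh => X2.n13 a146 u4 hh
      have u6 : c 43 ≠ c 32 := fun hh => k3624 hh u5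
      have u7 : c 43 = c 21 := Classical.byContradiction fun hh => X2.n3 a155 u6 hh n1
      have u8 : c 43 ≠ c 2 := fun hh => tr1 u7 hh u1
      have u9 : c 31 ≠ c 21 := fun hh => k3745 hh n3
      have u10 : c 31 ≠ c 43 := fun hh => tr2 hh u7 u9
      have u11 : c 31 ≠ c 1 := fun hh => X2.n12 a67 n0 hh
      have u12 : c 41 ≠ c 31 := fun hh => X2.n13 a141 hh n0
      have u13 : c 41 ≠ c 19 := fun hh => X2.n23 a141 hh n0
      have u14 : c 19 ≠ c 32 := fun hh => tr2 n0 hh n2
      have u15 : c 19 ≠ c 43 := fun hh => tr2 n0 hh u10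
      have u16 : c 1 ≠ c 2 := fun hh => tr3 u0 hh u11
      have u17 : c 31 ≠ c 15 := fun hh => tr3 n3 hh u12
      have u18 : c 43 = c 1 := Classical.byContradiction fun hh => X2.n3 a150 hh u8 u16
      have u19 : c 1 = c 21 := Classical.byContradiction fun hh => tr1 u18 u7 hh
      have u20 : c 29 ≠ c 1 := fun hh => X2.n13 a44 hh u19
      have u21 : c 29 ≠ c 43 := fun hh => tr2 hh u18 u20
      have u22 : c 29 = c 19 := Classical.byContradiction fun hh => X2.n3 a51 hh u21 u15
      have u23 : c 29 = c 31 := Classical.byContradiction fun hh => tr3 u22 n0 hh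
      have u24 : c 29 ≠ c 32 := fun hh => tr1 u22 hh u14
      have u25 : c 30 = c 19 := Classical.byContradiction fun hh => k3753 hh n0
      have u26 : c 30 = c 31 := Classical.byContradiction fun hh => tr3 u25 n0 hh
      have u27 : c 30 ≠ c 10 := fun hh => X2.n12 a60 u26 hh
      have u28 : c 31 ≠ c 10 := fun hh => X2.n13 a60 u26 hh
      have u29 : c 19 ≠ c 10 := fun hh => tr2 u25 hh u27
      have u30 : c 29 ≠ c 10 := fun hh => tr1 u23 hh u28
      have u31 : c 41 = c 10 := Classical.byContradiction fun hh => X2.n3 a136 u13 hh u29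
      have u32 : c 10 = c 32 := Classical.byContradiction fun hh => X2.n3 a48 u30 u24 hh
      have u33 : c 41 = c 32 := Classical.byContradiction fun hh => tr2 u31 u32 hh
      have u34 : c 41 = c 33 := Classical.byContradiction fun hh => k3755 hh u17 u2 n3
      have u35 : c 33 = c 15 := Classical.byContradiction fun hh => tr1 u34 n3 hh
      have u36 : c 32 = c 33 := Classical.byContradiction fun hh => tr1 u33 u34 hh
      k3548 u36 u35
  have k3757 : c 32 ≠ c 21 → c 31 ≠ c 32 → c 41 = c 15 → False := fun n0 n1 n2 =>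
      have u0 : c 31 = c 2 := Classical.byContradiction fun hh => k3750 hh n0 n1 n2
      have u1 : c 21 ≠ c 2 := fun hh => X2.n23 a68 u0 hh
      have u2 : c 41 ≠ c 21 := fun hh => k3752 hh n0 n1 n2
      have u3 : c 21 ≠ c 15 := fun hh => tr3 n2 hh u2
      have u4 : c 42 = c 21 := Classical.byContradiction fun hh => k3748 hh u3 n0
      have u5 : c 21 ≠ c 13 := fun hh => X2.n13 a146 u4 hh
      have u6 : c 43 ≠ c 32 := fun hh => k3624 hh u5
      have u7 : c 43 = c 21 := Classical.byContradiction fun hh => X2.n3 a155 u6 hh n0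
      have u8 : c 43 ≠ c 2 := fun hh => tr1 u7 hh u1
      have u9 : c 31 ≠ c 19 := fun hh => k3756 hh n0 n1 n2
      have u10 : c 19 = c 32 := Classical.byContradiction fun hh => k3647 u0 hh n1 u9
      have u11 : c 19 ≠ c 15 := fun hh => k3530 u10 hh
      have u12 : c 19 ≠ c 43 := fun hh => tr1 hh u10 u6
      have u13 : c 41 ≠ c 19 := fun hh => tr1 hh n2 u11
      have u14 : c 41 = c 31 := Classical.byContradiction fun hh => X2.n3 a141 hh u13 u9
      have u15 : c 31 ≠ c 1 := fun hh => k3506 u14 hh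
      have u16 : c 19 = c 1 := Classical.byContradiction fun hh => X2.n3 a67 u9 u15 hh
      have u17 : c 1 ≠ c 2 := fun hh => tr3 u0 hh u15
      have u18 : c 43 ≠ c 1 := fun hh => tr3 u16 hh u12
      X2.n3 a150 u18 u8 u17
  have k3758 : c 19 = c 32 → c 18 = c 10 → c 19 = c 10 → c 19 = c 1 → False := fun n0 n1 n2 n3 =>
      have u0 : c 32 = c 1 := Classical.byContradiction fun hh => tr1 n0 n3 hh
      have u1 : c 10 = c 32 := Classical.byContradiction fun hh => tr1 n2 n0 hh
      have u2 : c 18 ≠ c 32 := fun hh => X2.n13 a11 hh u0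
      tr2 n1 u1 u2
  have k3759 : c 41 = c 31 → c 31 ≠ c 32 → c 41 = c 15 → False := fun n0 n1 n2 =>
      have u0 : c 32 = c 21 := Classical.byContradiction fun hh => k3757 hh n1 n2
      have u1 : c 21 ≠ c 15 := fun hh => k3546 u0 hh
      have u2 : c 42 ≠ c 21 := fun hh => X2.n23 a148 hh u0
      have u3 : c 42 = c 15 := Classical.byContradiction fun hh => X2.n3 a147 u2 hh u1
      have u4 : c 19 ≠ c 13 := fun hh => k3734 hh n2
      have u5 : c 21 ≠ c 13 := fun hh => k3493 u0 hh
      have u6 : c 42 = c 13 := Classical.byContradiction fun hh => X2.n3 a146 u2 hh u5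
      have u7 : c 42 ≠ c 19 := fun hh => tr1 hh u6 u4
      have u8 : c 19 ≠ c 15 := fun hh => tr3 u3 hh u7
      have u9 : c 41 ≠ c 19 := fun hh => tr1 hh n2 u8
      have u10 : c 43 ≠ c 21 := fun hh => X2.n23 a155 hh u0
      have u11 : c 43 = c 13 := Classical.byContradiction fun hh => X2.n3 a154 u10 hh u5
      have u12 : c 42 = c 43 := Classical.byContradiction fun hh => tr3 u6 u11 hh
      have u13 : c 43 = c 15 := Classical.byContradiction fun hh => tr1 u12 u3 hh
      have u14 : c 19 ≠ c 43 := fun hh => tr2 hh u11 u4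
      have u15 : c 27 ≠ c 13 := fun hh => k3567 u0 hh
      have u16 : c 31 ≠ c 21 := fun hh => k3745 hh n2
      have u17 : c 31 ≠ c 19 := fun hh => X2.n13 a141 n0 hh
      have u18 : c 31 ≠ c 1 := fun hh => k3506 n0 hh
      have u19 : c 31 = c 15 := Classical.byContradiction fun hh => tr1 n0 n2 hh
      have u20 : c 40 = c 31 := Classical.byContradiction fun hh => k3628 u17 u18 hh
      have u21 : c 19 = c 1 := Classical.byContradiction fun hh => X2.n3 a67 u17 u18 hh
      have u22 : c 31 = c 43 := Classical.byContradiction fun hh => tr3 u19 u13 hh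
      have u23 : c 40 ≠ c 19 := fun hh => X2.n12 a130 u20 hh
      have u24 : c 30 ≠ c 19 := fun hh => X2.n13 a57 hh u21
      have u25 : c 1 ≠ c 13 := fun hh => tr2 u21 hh u4
      have u26 : c 43 ≠ c 1 := fun hh => tr3 u21 hh u14
      have u27 : c 31 = c 13 := Classical.byContradiction fun hh => tr2 u22 u11 hh
      have u28 : c 30 = c 41 := Classical.byContradiction fun hh => X2.n3 a64 hh u24 u9
      have u29 : c 40 = c 30 := Classical.byContradiction fun hh => X2.n3 a129 hh u23 u24
      have u30 : c 41 = c 13 := Classical.byContradiction fun hh => tr2 n0 u27 hh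
      have u31 : c 31 ≠ c 27 := fun hh => tr1 hh u27 u15
      have u32 : c 30 = c 31 := Classical.byContradiction fun hh => tr2 u28 n0 hh
      have u33 : c 41 ≠ c 6 := fun hh => X2.n12 a135 u30 hh
      have u34 : c 13 ≠ c 6 := fun hh => X2.n13 a135 u30 hh
      have u35 : c 30 ≠ c 10 := fun hh => X2.n12 a60 u32 hh
      have u36 : c 31 ≠ c 10 := fun hh => X2.n13 a60 u32 hh
      have u37 : c 31 ≠ c 6 := fun hh => tr2 n0 hh u33
      have u38 : c 43 ≠ c 6 := fun hh => tr1 u11 hh u34
      have u39 : c 40 ≠ c 10 := fun hh => tr1 u29 hh u35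
      have u40 : c 43 ≠ c 10 := fun hh => tr2 u22 hh u36
      have u41 : c 27 = c 6 := Classical.byContradiction fun hh => X2.n3 a71 u31 u37 hh
      have u42 : c 10 = c 6 := Classical.byContradiction fun hh => X2.n3 a151 u40 u38 hh
      have u43 : c 19 = c 10 := Classical.byContradiction fun hh => X2.n3 a125 u23 u39 hh
      have u44 : c 10 = c 27 := Classical.byContradiction fun hh => tr3 u42 u41 hh
      have u45 : c 34 ≠ c 10 := fun hh => X2.n13 a83 hh u44
      have u46 : c 34 ≠ c 19 := fun hh => tr2 hh u43 u45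
      have u47 : c 34 ≠ c 1 := fun hh => tr3 hh u21 u46
      have u48 : c 34 = c 13 := Classical.byContradiction fun hh => X2.n3 a81 u47 hh u25
      have u49 : c 18 ≠ c 13 := fun hh => k3511 u48 hh
      have u50 : c 18 ≠ c 43 := fun hh => tr2 hh u11 u49
      have u51 : c 18 = c 10 := Classical.byContradiction fun hh => X2.n3 a14 u50 hh u40
      have u52 : c 19 ≠ c 32 := fun hh => k3758 hh u51 u43 u21
      have u53 : c 31 ≠ c 2 := fun hh => k3647 hh u52 n1 u17
      have u54 : c 32 ≠ c 1 := fun hh => tr3 u21 hh u52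
      have u55 : c 21 = c 2 := Classical.byContradiction fun hh => X2.n3 a68 u16 u53 hh
      have u56 : c 43 ≠ c 2 := fun hh => tr2 u22 hh u53
      have u57 : c 1 ≠ c 21 := fun hh => tr3 u0 hh u54
      have u58 : c 1 = c 2 := Classical.byContradiction fun hh => X2.n3 a150 u26 u56 hh
      tr3 u58 u55 u57
  have k3760 : c 31 ≠ c 32 → c 41 = c 15 → False := fun n0 n1 =>
      have u0 : c 46 ≠ c 23 := fun hh => k3725 hh
      have u1 : c 31 ≠ c 21 := fun hh => k3745 hh n1
      have u2 : c 41 ≠ c 23 := fun hh => X2.n12 a140 hh n1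
      have u3 : c 32 = c 21 := Classical.byContradiction fun hh => k3757 hh n0 n1
      have u4 : c 21 ≠ c 15 := fun hh => k3546 u3 hh
      have u5 : c 41 ≠ c 21 := fun hh => tr1 hh n1 u4
      have u6 : c 41 ≠ c 31 := fun hh => k3759 hh n0 n1
      have u7 : c 31 ≠ c 15 := fun hh => tr3 n1 hh u6
      have u8 : c 41 = c 33 := Classical.byContradiction fun hh => k3755 hh u7 u5 n1
      have u9 : c 21 ≠ c 33 := fun hh => X2.n23 a139 u8 hh
      have u10 : c 33 ≠ c 23 := fun hh => tr2 u8 hh u2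
      have u11 : c 31 ≠ c 33 := fun hh => tr3 u8 hh u6
      have u12 : c 33 = c 46 := Classical.byContradiction fun hh => X2.n3 a80 hh u10 u0
      have u13 : c 21 ≠ c 46 := fun hh => tr3 hh u12 u9
      have u14 : c 31 ≠ c 46 := fun hh => tr3 hh u12 u11
      X2.n3 a70 u1 u14 u13
  have k3761 : c 41 = c 33 → c 41 = c 15 → False := fun n0 n1 =>
      have u0 : c 46 ≠ c 23 := fun hh => k3725 hh
      have u1 : c 31 = c 32 := Classical.byContradiction fun hh => k3760 hh n1
      have u2 : c 31 ≠ c 15 := fun hh => k3521 u1 hh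
      have u3 : c 41 ≠ c 31 := fun hh => tr1 hh n1 u2
      have u4 : c 31 ≠ c 21 := fun hh => k3745 hh n1
      have u5 : c 41 ≠ c 23 := fun hh => X2.n12 a140 hh n1
      have u6 : c 21 ≠ c 33 := fun hh => X2.n23 a139 n0 hh
      have u7 : c 33 ≠ c 23 := fun hh => tr2 n0 hh u5
      have u8 : c 31 ≠ c 33 := fun hh => tr3 n0 hh u3
      have u9 : c 33 = c 46 := Classical.byContradiction fun hh => X2.n3 a80 hh u7 u0
      have u10 : c 21 ≠ c 46 := fun hh => tr3 hh u9 u6
      have u11 : c 31 ≠ c 46 := fun hh => tr3 hh u9 u8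
      X2.n3 a70 u4 u11 u10
  have k3762 : c 41 = c 15 → False := fun n0 =>
      have u0 : c 19 ≠ c 13 := fun hh => k3734 hh n0
      have u1 : c 31 ≠ c 21 := fun hh => k3745 hh n0
      have u2 : c 31 = c 32 := Classical.byContradiction fun hh => k3760 hh n0
      have u3 : c 31 ≠ c 15 := fun hh => k3521 u2 hh
      have u4 : c 41 ≠ c 31 := fun hh => tr1 hh n0 u3
      have u5 : c 41 ≠ c 33 := fun hh => k3761 hh n0
      have u6 : c 41 = c 21 := Classical.byContradiction fun hh => k3755 u5 u3 hh n0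
      have u7 : c 1 ≠ c 21 := fun hh => k3534 u6 hh
      have u8 : c 21 = c 15 := Classical.byContradiction fun hh => tr1 u6 n0 hh
      have u9 : c 21 = c 13 := Classical.byContradiction fun hh => k3722 u8 hh
      have u10 : c 43 = c 32 := Classical.byContradiction fun hh => k3580 u9 hh
      have u11 : c 41 = c 13 := Classical.byContradiction fun hh => tr2 u6 u9 hh
      have u12 : c 31 = c 43 := Classical.byContradiction fun hh => tr3 u2 u10 hh
      have u13 : c 41 ≠ c 19 := fun hh => tr1 hh u11 u0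
      have u14 : c 31 = c 19 := Classical.byContradiction fun hh => X2.n3 a141 u4 u13 hh
      have u15 : c 31 ≠ c 1 := fun hh => X2.n12 a67 u14 hh
      have u16 : c 19 = c 43 := Classical.byContradiction fun hh => tr1 u14 u12 hh
      have u17 : c 19 = c 32 := Classical.byContradiction fun hh => tr1 u14 u2 hh
      have u18 : c 43 ≠ c 1 := fun hh => tr2 u12 hh u15
      have u19 : c 19 ≠ c 2 := fun hh => X2.n12 a18 u17 hh
      have u20 : c 31 ≠ c 2 := fun hh => tr1 u14 hh u19
      have u21 : c 43 ≠ c 2 := fun hh => tr2 u16 hh u19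
      have u22 : c 21 = c 2 := Classical.byContradiction fun hh => X2.n3 a68 u1 u20 hh
      have u23 : c 1 = c 2 := Classical.byContradiction fun hh => X2.n3 a150 u18 u21 hh
      tr3 u23 u22 u7
  have k3763 : c 31 ≠ c 19 → c 21 ≠ c 13 → c 31 = c 46 → c 13 ≠ c 46 → c 41 = c 21 → c 31 ≠ c 21 → False := fun n0 n1 n2 n3 n4 n5 =>
      have u0 : c 19 ≠ c 13 := fun hh => k3717 n4 n1 hh n5 n0
      have u1 : c 19 ≠ c 46 := fun hh => tr3 n2 hh n0
      X2.n3 a17 u0 u1 n3
  have k3764 : c 32 ≠ c 21 → c 33 = c 46 → c 31 = c 33 → c 41 = c 21 → c 31 ≠ c 21 → False := fun n0 n1 n2 n3 n4 =>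
      have u0 : c 41 ≠ c 15 := fun hh => k3762 hh
      have u1 : c 31 = c 46 := Classical.byContradiction fun hh => tr2 n2 n1 hh
      have u2 : c 13 ≠ c 33 := fun hh => X2.n23 a66 n2 hh
      have u3 : c 13 ≠ c 46 := fun hh => tr3 hh n1 u2
      have u4 : c 21 ≠ c 15 := fun hh => tr2 n3 hh u0
      have u5 : c 1 ≠ c 21 := fun hh => k3534 n3 hh
      have u6 : c 12 ≠ c 21 := fun hh => X2.n23 a133 n3 hh
      have u7 : c 21 ≠ c 33 := fun hh => X2.n13 a139 n3 hh
      have u8 : c 42 = c 21 := Classical.byContradiction fun hh => k3748 hh u4 n0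
      have u9 : c 21 ≠ c 13 := fun hh => X2.n13 a146 u8 hh
      have u10 : c 43 ≠ c 32 := fun hh => k3624 hh u9
      have u11 : c 43 = c 21 := Classical.byContradiction fun hh => X2.n3 a155 u10 hh n0
      have u12 : c 31 ≠ c 43 := fun hh => tr2 hh u11 n4
      have u13 : c 43 ≠ c 12 := fun hh => tr1 hh u11 u6
      have u14 : c 43 ≠ c 1 := fun hh => tr1 hh u11 u5
      have u15 : c 31 = c 19 := Classical.byContradiction fun hh => k3763 hh u9 u1 u3 n3 n4
      have u16 : c 31 ≠ c 1 := fun hh => X2.n12 a67 u15 hh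
      have u17 : c 19 ≠ c 43 := fun hh => tr2 u15 hh u12
      have u18 : c 19 = c 33 := Classical.byContradiction fun hh => tr1 u15 n2 hh
      have u19 : c 19 = c 12 := Classical.byContradiction fun hh => X2.n3 a21 u17 hh u13
      have u20 : c 31 = c 12 := Classical.byContradiction fun hh => tr2 u15 u19 hh
      have u21 : c 31 ≠ c 32 := fun hh => X2.n12 a72 hh u20
      have u22 : c 19 ≠ c 32 := fun hh => tr2 u15 hh u21
      have u23 : c 21 ≠ c 2 := fun hh => k3613 hh u7 u18 u22 n0
      have u24 : c 31 = c 2 := Classical.byContradiction fun hh => X2.n3 a68 n4 hh u23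
      have u25 : c 43 ≠ c 2 := fun hh => tr1 u11 hh u23
      have u26 : c 1 ≠ c 2 := fun hh => tr3 u24 hh u16
      X2.n3 a150 u14 u25 u26
  have k3765 : c 33 = c 46 → c 31 = c 33 → c 41 = c 21 → c 31 ≠ c 21 → False := fun n0 n1 n2 n3 =>
      have u0 : c 13 ≠ c 33 := fun hh => X2.n23 a66 n1 hh
      have u1 : c 31 ≠ c 13 := fun hh => X2.n12 a66 hh n1
      have u2 : c 1 ≠ c 21 := fun hh => k3534 n2 hh
      have u3 : c 12 ≠ c 21 := fun hh => X2.n23 a133 n2 hh
      have u4 : c 21 ≠ c 33 := fun hh => X2.n13 a139 n2 hh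
      have u5 : c 13 ≠ c 46 := fun hh => tr3 hh n0 u0
      have u6 : c 31 = c 46 := Classical.byContradiction fun hh => tr2 n1 n0 hh
      have u7 : c 32 = c 21 := Classical.byContradiction fun hh => k3764 hh n0 n1 n2 n3
      have u8 : c 43 ≠ c 32 := fun hh => X2.n13 a155 hh u7
      have u9 : c 43 ≠ c 21 := fun hh => X2.n23 a155 hh u7
      have u10 : c 21 ≠ c 13 := fun hh => k3493 u7 hh
      have u11 : c 27 ≠ c 13 := fun hh => k3567 u7 hh
      have u12 : c 31 ≠ c 32 := fun hh => tr2 hh u7 n3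
      have u13 : c 41 = c 32 := Classical.byContradiction fun hh => tr3 n2 u7 hh
      have u14 : c 32 ≠ c 33 := fun hh => tr1 u7 hh u4
      have u15 : c 32 ≠ c 12 := fun hh => tr1 hh u7 u3
      have u16 : c 32 ≠ c 1 := fun hh => tr1 hh u7 u2
      have u17 : c 43 = c 13 := Classical.byContradiction fun hh => X2.n3 a154 u9 hh u10
      have u18 : c 31 = c 19 := Classical.byContradiction fun hh => k3763 hh u10 u6 u5 n2 n3
      have u19 : c 19 ≠ c 32 := fun hh => tr2 u18 hh u12
      have u20 : c 41 ≠ c 19 := fun hh => tr1 hh u13 u19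
      have u21 : c 31 = c 12 := Classical.byContradiction fun hh => X2.n3 a72 u12 hh u15
      have u22 : c 43 ≠ c 22 := fun hh => X2.n12 a153 u17 hh
      have u23 : c 43 ≠ c 27 := fun hh => tr1 hh u17 u11
      have u24 : c 31 ≠ c 43 := fun hh => tr2 hh u17 u1
      have u25 : c 31 ≠ c 1 := fun hh => X2.n12 a67 u18 hh
      have u26 : c 19 ≠ c 13 := fun hh => tr2 u18 hh u1
      have u27 : c 19 ≠ c 43 := fun hh => tr2 u18 hh u24
      have u28 : c 31 = c 45 := Classical.byContradiction fun hh => k3714 hh u26 n3 u10 u18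
      have u29 : c 30 = c 19 := Classical.byContradiction fun hh => k3753 hh u18
      have u30 : c 19 = c 33 := Classical.byContradiction fun hh => tr1 u18 n1 hh
      have u31 : c 19 = c 12 := Classical.byContradiction fun hh => tr1 u18 u21 hh
      have u32 : c 12 = c 46 := Classical.byContradiction fun hh => tr1 u21 u6 hh
      have u33 : c 12 = c 33 := Classical.byContradiction fun hh => tr1 u21 n1 hh
      have u34 : c 32 = c 22 := Classical.byContradiction fun hh => X2.n3 a156 u8 u22 hh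
      have u35 : c 1 ≠ c 33 := fun hh => tr3 n1 hh u25
      have u36 : c 19 = c 45 := Classical.byContradiction fun hh => tr1 u18 u28 hh
      have u37 : c 45 = c 33 := Classical.byContradiction fun hh => tr1 u28 n1 hh
      have u38 : c 30 = c 31 := Classical.byContradiction fun hh => tr3 u29 u18 hh
      have u39 : c 37 ≠ c 19 := fun hh => X2.n13 a98 hh u30
      have u40 : c 30 = c 33 := Classical.byContradiction fun hh => tr2 u29 u30 hh
      have u41 : c 18 ≠ c 12 := fun hh => X2.n13 a10 hh u32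
      have u42 : c 29 ≠ c 12 := fun hh => X2.n13 a49 hh u33
      have u43 : c 41 = c 22 := Classical.byContradiction fun hh => tr2 u13 u34 hh
      have u44 : c 18 ≠ c 33 := fun hh => k3619 hh u35 u16 u14
      have u45 : c 28 ≠ c 45 := fun hh => X2.n23 a41 hh u36
      have u46 : c 28 ≠ c 33 := fun hh => tr3 hh u37 u45
      have u47 : c 30 ≠ c 10 := fun hh => X2.n12 a60 u38 hh
      have u48 : c 30 ≠ c 11 := fun hh => X2.n12 a61 u38 hh
      have u49 : c 37 ≠ c 31 := fun hh => tr2 hh u18 u39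
      have u50 : c 11 ≠ c 33 := fun hh => tr3 u40 hh u48
      have u51 : c 18 ≠ c 31 := fun hh => tr2 hh u21 u41
      have u52 : c 29 ≠ c 19 := fun hh => tr2 hh u31 u42
      have u53 : c 28 = c 11 := Classical.byContradiction fun hh => X2.n3 a37 hh u46 u50
      have u54 : c 19 ≠ c 10 := fun hh => tr2 u29 hh u47
      have u55 : c 19 ≠ c 11 := fun hh => tr2 u29 hh u48
      have u56 : c 37 = c 18 := Classical.byContradiction fun hh => X2.n3 a97 hh u49 u51
      have u57 : c 29 = c 43 := Classical.byContradiction fun hh => X2.n3 a51 u52 hh u27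
      have u58 : c 41 = c 10 := Classical.byContradiction fun hh => X2.n3 a136 u20 hh u54
      have u59 : c 41 = c 11 := Classical.byContradiction fun hh => X2.n3 a137 u20 hh u55
      have u60 : c 29 ≠ c 21 := fun hh => tr1 u57 hh u9
      have u61 : c 29 = c 13 := Classical.byContradiction fun hh => tr2 u57 u17 hh
      have u62 : c 29 ≠ c 27 := fun hh => tr1 u57 hh u23
      have u63 : c 10 = c 21 := Classical.byContradiction fun hh => tr1 u58 n2 hh
      have u64 : c 10 = c 32 := Classical.byContradiction fun hh => tr1 u58 u13 hh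
      have u65 : c 10 = c 22 := Classical.byContradiction fun hh => tr1 u58 u43 hh
      have u66 : c 11 = c 21 := Classical.byContradiction fun hh => tr1 u59 n2 hh
      have u67 : c 32 = c 11 := Classical.byContradiction fun hh => tr1 u13 u59 hh
      have u68 : c 28 = c 41 := Classical.byContradiction fun hh => tr3 u53 u59 hh
      have u69 : c 29 = c 1 := Classical.byContradiction fun hh => X2.n3 a44 hh u60 u2
      have u70 : c 1 ≠ c 27 := fun hh => tr2 u69 hh u62
      have u71 : c 38 ≠ c 10 := fun hh => X2.n13 a103 hh u63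
      have u72 : c 39 ≠ c 10 := fun hh => X2.n13 a115 hh u65
      have u73 : c 35 ≠ c 11 := fun hh => k3529 hh u66
      have u74 : c 28 = c 32 := Classical.byContradiction fun hh => tr3 u53 u67 hh
      have u75 : c 28 ≠ c 18 := fun hh => X2.n12 a38 hh u68
      have u76 : c 8 ≠ c 1 := fun hh => k3519 u69 hh
      have u77 : c 1 = c 13 := Classical.byContradiction fun hh => tr1 u69 u61 hh
      have u78 : c 43 = c 1 := Classical.byContradiction fun hh => tr1 u57 u69 hh
      have u79 : c 38 ≠ c 32 := fun hh => tr3 hh u64 u71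
      have u80 : c 39 ≠ c 32 := fun hh => tr3 hh u64 u72
      have u81 : c 18 ≠ c 32 := fun hh => tr3 u74 hh u75
      have u82 : c 34 ≠ c 1 := fun hh => X2.n13 a81 hh u77
      have u83 : c 1 ≠ c 2 := fun hh => X2.n13 a150 u78 hh
      have u84 : c 38 = c 19 := Classical.byContradiction fun hh => X2.n3 a108 hh u79 u19
      have u85 : c 39 = c 19 := Classical.byContradiction fun hh => X2.n3 a117 hh u80 u19
      have u86 : c 18 = c 1 := Classical.byContradiction fun hh => X2.n3 a11 u81 hh u16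
      have u87 : c 38 ≠ c 13 := fun hh => tr1 u84 hh u26
      have u88 : c 38 = c 39 := Classical.byContradiction fun hh => tr3 u84 u85 hh
      have u89 : c 18 = c 13 := Classical.byContradiction fun hh => tr2 u86 u77 hh
      have u90 : c 18 ≠ c 2 := fun hh => tr1 u86 hh u83
      have u91 : c 18 ≠ c 8 := fun hh => tr1 hh u86 u76
      have u92 : c 38 ≠ c 18 := fun hh => tr2 hh u89 u87
      have u93 : c 38 ≠ c 25 := fun hh => X2.n12 a113 u88 hh
      have u94 : c 2 = c 33 := Classical.byContradiction fun hh => X2.n3 a8 u90 u44 hh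
      have u95 : c 37 ≠ c 8 := fun hh => tr1 u56 hh u91
      have u96 : c 38 = c 8 := Classical.byContradiction fun hh => X2.n3 a107 u92 hh u91
      have u97 : c 19 = c 2 := Classical.byContradiction fun hh => tr3 u30 u94 hh
      have u98 : c 11 ≠ c 2 := fun hh => tr2 hh u94 u50
      have u99 : c 8 = c 19 := Classical.byContradiction fun hh => X2.n3 a95 u95 u39 hh
      have u100 : c 25 ≠ c 8 := fun hh => tr3 u96 hh u93
      have u101 : c 35 = c 2 := Classical.byContradiction fun hh => X2.n3 a88 u73 hh u98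
      have u102 : c 8 = c 2 := Classical.byContradiction fun hh => tr2 u99 u97 hh
      have u103 : c 19 = c 35 := Classical.byContradiction fun hh => tr3 u97 u101 hh
      have u104 : c 8 = c 35 := Classical.byContradiction fun hh => tr3 u102 u101 hh
      have u105 : c 34 ≠ c 19 := fun hh => X2.n13 a84 hh u103
      have u106 : c 35 ≠ c 13 := fun hh => tr2 u103 hh u26
      have u107 : c 25 ≠ c 35 := fun hh => tr3 hh u104 u100
      have u108 : c 34 ≠ c 8 := fun hh => tr2 hh u99 u105
      have u109 : c 35 = c 27 := Classical.byContradiction fun hh => X2.n3 a90 hh u106 u11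
      have u110 : c 34 = c 25 := Classical.byContradiction fun hh => X2.n3 a85 hh u108 u100
      have u111 : c 25 ≠ c 27 := fun hh => tr3 hh u109 u107
      have u112 : c 25 ≠ c 1 := fun hh => tr2 u110 hh u82
      X2.n3 a27 u112 u111 u70
  have k3766 : c 31 = c 33 → c 41 = c 21 → c 31 ≠ c 21 → False := fun n0 n1 n2 =>
      have u0 : c 46 ≠ c 23 := fun hh => k3725 hh
      have u1 : c 41 ≠ c 15 := fun hh => k3762 hh
      have u2 : c 41 ≠ c 33 := fun hh => X2.n12 a139 n1 hh
      have u3 : c 33 ≠ c 15 := fun hh => X2.n13 a73 n0 hh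
      have u4 : c 33 ≠ c 46 := fun hh => k3765 hh n0 n1 n2
      have u5 : c 33 = c 23 := Classical.byContradiction fun hh => X2.n3 a80 u4 hh u0
      have u6 : c 41 ≠ c 23 := fun hh => tr3 hh u5 u2
      have u7 : c 23 ≠ c 15 := fun hh => tr2 u5 hh u3
      X2.n3 a140 u6 u1 u7
  have k3767 : c 31 = c 19 → c 31 ≠ c 46 → c 33 ≠ c 46 → c 31 ≠ c 33 → c 31 ≠ c 15 → False := fun n0 n1 n2 n3 n4 =>
      have u0 : c 46 ≠ c 23 := fun hh => k3725 hh
      have u1 : c 33 = c 15 := Classical.byContradiction fun hh => X2.n3 a73 n3 n4 hh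
      have u2 : c 33 = c 23 := Classical.byContradiction fun hh => X2.n3 a80 n2 hh u0
      have u3 : c 23 = c 15 := Classical.byContradiction fun hh => tr1 u2 u1 hh
      have u4 : c 44 ≠ c 23 := fun hh => X2.n23 a158 hh u2
      have u5 : c 44 ≠ c 15 := fun hh => tr3 hh u3 u4
      have u6 : c 19 ≠ c 15 := fun hh => tr2 n0 hh n4
      have u7 : c 19 ≠ c 46 := fun hh => tr2 n0 hh n1
      have u8 : c 19 = c 44 := Classical.byContradiction fun hh => X2.n3 a23 hh u6 u5
      have u9 : c 19 ≠ c 13 := fun hh => X2.n12 a22 u8 hh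
      have u10 : c 13 = c 46 := Classical.byContradiction fun hh => X2.n3 a17 u9 u7 hh
      have u11 : c 31 ≠ c 13 := fun hh => tr1 n0 hh u9
      have u12 : c 13 ≠ c 33 := fun hh => tr1 hh u10 n2
      X2.n3 a66 u11 n3 u12
  have k3768 : c 19 ≠ c 32 → c 18 ≠ c 33 → c 31 ≠ c 32 → c 41 = c 19 → c 31 ≠ c 19 → c 41 = c 21 → c 31 ≠ c 21 → False := fun n0 n1 n2 n3 n4 n5 n6 =>
      have u0 : c 19 ≠ c 1 := fun hh => k3536 n3 hh
      have u1 : c 31 = c 1 := Classical.byContradiction fun hh => X2.n3 a67 n4 hh u0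
      have u2 : c 32 ≠ c 1 := fun hh => tr3 u1 hh n2
      have u3 : c 21 ≠ c 33 := fun hh => X2.n13 a139 n5 hh
      have u4 : c 31 ≠ c 2 := fun hh => k3647 hh n0 n2 n4
      have u5 : c 41 ≠ c 32 := fun hh => tr1 n3 hh n0
      have u6 : c 21 = c 2 := Classical.byContradiction fun hh => X2.n3 a68 n6 u4 hh
      have u7 : c 1 ≠ c 2 := fun hh => tr2 u1 hh u4
      have u8 : c 32 ≠ c 21 := fun hh => tr3 n5 hh u5
      have u9 : c 32 ≠ c 2 := fun hh => tr3 hh u6 u8
      have u10 : c 2 ≠ c 33 := fun hh => tr2 u6 hh u3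
      have u11 : c 18 = c 2 := Classical.byContradiction fun hh => X2.n3 a8 hh n1 u10
      have u12 : c 18 ≠ c 1 := fun hh => tr1 hh u11 u7
      have u13 : c 18 ≠ c 32 := fun hh => tr1 hh u11 u9
      X2.n3 a11 u13 u12 u2
  have k3769 : c 31 ≠ c 32 → c 1 ≠ c 33 → c 41 = c 19 → c 31 ≠ c 19 → c 32 ≠ c 33 → c 41 = c 21 → c 31 ≠ c 21 → False := fun n0 n1 n2 n3 n4 n5 n6 =>
      have u0 : c 19 ≠ c 1 := fun hh => k3536 n2 hh
      have u1 : c 31 = c 1 := Classical.byContradiction fun hh => X2.n3 a67 n3 hh u0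
      have u2 : c 1 ≠ c 21 := fun hh => k3534 n5 hh
      have u3 : c 41 ≠ c 11 := fun hh => X2.n12 a137 n2 hh
      have u4 : c 11 ≠ c 21 := fun hh => tr3 n5 hh u3
      have u5 : c 30 ≠ c 19 := fun hh => X2.n23 a64 hh n2
      have u6 : c 30 = c 1 := Classical.byContradiction fun hh => X2.n3 a57 u5 hh u0
      have u7 : c 30 = c 31 := Classical.byContradiction fun hh => tr3 u6 u1 hh
      have u8 : c 31 ≠ c 11 := fun hh => X2.n13 a61 u7 hh
      have u9 : c 29 ≠ c 11 := fun hh => k3666 hh u8 u4 u2 u1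
      have u10 : c 41 ≠ c 12 := fun hh => X2.n12 a133 hh n5
      have u11 : c 19 ≠ c 12 := fun hh => tr2 n2 hh u10
      have u12 : c 19 ≠ c 11 := fun hh => X2.n13 a137 n2 hh
      have u13 : c 31 ≠ c 33 := fun hh => k3766 hh n5 n6
      have u14 : c 32 ≠ c 1 := fun hh => tr3 u1 hh n0
      have u15 : c 18 ≠ c 33 := fun hh => k3619 hh n1 u14 n4
      have u16 : c 19 = c 32 := Classical.byContradiction fun hh => k3768 hh u15 n0 n2 n3 n5 n6
      have u17 : c 32 ≠ c 11 := fun hh => tr2 u16 hh u12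
      have u18 : c 32 ≠ c 12 := fun hh => tr2 u16 hh u11
      have u19 : c 29 = c 32 := Classical.byContradiction fun hh => X2.n3 a54 hh u9 u17
      have u20 : c 31 = c 12 := Classical.byContradiction fun hh => X2.n3 a72 n0 hh u18
      have u21 : c 29 ≠ c 33 := fun hh => tr1 u19 hh n4
      have u22 : c 29 ≠ c 12 := fun hh => tr1 u19 hh u18
      have u23 : c 12 ≠ c 33 := fun hh => tr2 u20 hh u13
      X2.n3 a49 u22 u21 u23
  have k3770 : c 40 = c 18 → c 31 ≠ c 8 → c 19 = c 43 → c 29 ≠ c 43 → c 29 = c 1 → c 34 ≠ c 21 → c 18 ≠ c 31 → c 43 = c 21 → c 32 ≠ c 11 → c 40 = c 21 → c 29 ≠ c 11 → c 41 ≠ c 27 → c 40 = c 19 → c 19 ≠ c 33 → c 41 ≠ c 11 → c 31 ≠ c 33 → c 41 = c 21 → False := fun n0 n1 n2 n3 n4 n5 n6 n7 n8 n9 n10 n11 n12 n13 n14 n15 n16 =>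
      have u0 : c 37 = c 40 := Classical.byContradiction fun hh => k3659 hh n0 n6 n12 n13 n15
      have u1 : c 8 = c 19 := Classical.byContradiction fun hh => k3702 hh n11 n0 n2 n5 n3 n7 n1 n4 n6 n8 n10 n9 n16 n14 n12
      have u2 : c 37 = c 19 := Classical.byContradiction fun hh => tr2 u0 n12 hh
      X2.n23 a95 u2 u1
  have k3771 : c 31 ≠ c 19 → c 44 ≠ c 15 → c 33 = c 23 → c 32 ≠ c 33 → c 30 ≠ c 33 → c 41 = c 21 → c 31 ≠ c 21 → c 41 ≠ c 31 → False := fun n0 n1 n2 n3 n4 n5 n6 n7 =>
      have u0 : c 41 ≠ c 15 := fun hh => k3762 hh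
      have u1 : c 45 ≠ c 33 := fun hh => X2.n13 a159 hh n2
      have u2 : c 31 ≠ c 33 := fun hh => k3766 hh n5 n6
      have u3 : c 1 ≠ c 21 := fun hh => k3534 n5 hh
      have u4 : c 12 ≠ c 21 := fun hh => X2.n23 a133 n5 hh
      have u5 : c 41 ≠ c 12 := fun hh => X2.n12 a133 hh n5
      have u6 : c 41 ≠ c 33 := fun hh => X2.n12 a139 n5 hh
      have u7 : c 41 = c 19 := Classical.byContradiction fun hh => X2.n3 a141 n7 hh n0
      have u8 : c 41 ≠ c 11 := fun hh => X2.n12 a137 u7 hh
      have u9 : c 30 ≠ c 19 := fun hh => X2.n23 a64 hh u7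
      have u10 : c 19 ≠ c 1 := fun hh => k3536 u7 hh
      have u11 : c 19 ≠ c 33 := fun hh => tr2 u7 hh u6
      have u12 : c 19 ≠ c 12 := fun hh => tr2 u7 hh u5
      have u13 : c 19 ≠ c 15 := fun hh => tr2 u7 hh u0
      have u14 : c 11 ≠ c 21 := fun hh => tr3 n5 hh u8
      have u15 : c 30 = c 1 := Classical.byContradiction fun hh => X2.n3 a57 u9 hh u10
      have u16 : c 31 = c 1 := Classical.byContradiction fun hh => X2.n3 a67 n0 hh u10
      have u17 : c 19 = c 44 := Classical.byContradiction fun hh => X2.n3 a23 hh u13 n1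
      have u18 : c 40 ≠ c 30 := fun hh => k3547 hh u15
      have u19 : c 30 = c 31 := Classical.byContradiction fun hh => tr3 u15 u16 hh
      have u20 : c 1 ≠ c 33 := fun hh => tr2 u15 hh n4
      have u21 : c 28 ≠ c 19 := fun hh => X2.n13 a40 hh u17
      have u22 : c 19 ≠ c 13 := fun hh => X2.n12 a22 u17 hh
      have u23 : c 41 = c 44 := Classical.byContradiction fun hh => tr2 u7 u17 hh
      have u24 : c 40 = c 19 := Classical.byContradiction fun hh => X2.n3 a129 u18 hh u9
      have u25 : c 31 ≠ c 11 := fun hh => X2.n13 a61 u19 hh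
      have u26 : c 1 ≠ c 23 := fun hh => tr3 hh n2 u20
      have u27 : c 40 ≠ c 28 := fun hh => tr1 hh u24 u21
      have u28 : c 41 ≠ c 13 := fun hh => tr1 u7 hh u22
      have u29 : c 41 ≠ c 27 := fun hh => X2.n12 a143 u23 hh
      have u30 : c 40 ≠ c 12 := fun hh => tr1 u24 hh u12
      have u31 : c 29 ≠ c 11 := fun hh => k3666 hh u25 u14 u3 u16
      have u32 : c 21 ≠ c 13 := fun hh => tr2 n5 hh u28
      have u33 : c 40 = c 21 := Classical.byContradiction fun hh => X2.n3 a123 u30 hh u4
      have u34 : c 43 ≠ c 32 := fun hh => k3624 hh u32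
      have u35 : c 31 = c 32 := Classical.byContradiction fun hh => k3769 hh u20 u7 n0 n3 n5 n6
      have u36 : c 19 ≠ c 32 := fun hh => tr3 u35 hh n0
      have u37 : c 32 = c 1 := Classical.byContradiction fun hh => tr1 u35 u16 hh
      have u38 : c 32 ≠ c 11 := fun hh => tr2 u35 hh u25
      have u39 : c 32 ≠ c 12 := fun hh => X2.n13 a72 u35 hh
      have u40 : c 32 ≠ c 21 := fun hh => tr2 u35 hh n6
      have u41 : c 31 ≠ c 13 := fun hh => k3539 u35 hh
      have u42 : c 18 ≠ c 32 := fun hh => X2.n13 a11 hh u37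
      have u43 : c 18 ≠ c 1 := fun hh => X2.n23 a11 hh u37
      have u44 : c 1 ≠ c 13 := fun hh => k3499 u37 hh
      have u45 : c 29 = c 32 := Classical.byContradiction fun hh => X2.n3 a54 hh u31 u38
      have u46 : c 43 = c 21 := Classical.byContradiction fun hh => X2.n3 a155 u34 hh u40
      have u47 : c 13 = c 33 := Classical.byContradiction fun hh => X2.n3 a66 u41 u2 hh
      have u48 : c 18 ≠ c 31 := fun hh => tr2 hh u35 u42
      have u49 : c 34 ≠ c 21 := fun hh => k3662 hh u44 u3 u32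
      have u50 : c 29 = c 1 := Classical.byContradiction fun hh => tr2 u45 u37 hh
      have u51 : c 29 ≠ c 19 := fun hh => tr1 hh u45 u36
      have u52 : c 29 ≠ c 43 := fun hh => tr1 hh u45 u34
      have u53 : c 29 ≠ c 33 := fun hh => tr1 u45 hh n3
      have u54 : c 29 ≠ c 12 := fun hh => tr1 u45 hh u39
      have u55 : c 43 ≠ c 12 := fun hh => tr1 hh u46 u4
      have u56 : c 43 ≠ c 11 := fun hh => tr1 hh u46 u14
      have u57 : c 19 = c 45 := Classical.byContradiction fun hh => k3641 u47 hh u11 u1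
      have u58 : c 8 ≠ c 1 := fun hh => k3519 u50 hh
      have u59 : c 19 = c 43 := Classical.byContradiction fun hh => X2.n3 a51 u51 u52 hh
      have u60 : c 12 = c 33 := Classical.byContradiction fun hh => X2.n3 a49 u54 u53 hh
      have u61 : c 28 ≠ c 45 := fun hh => X2.n23 a41 hh u57
      have u62 : c 12 ≠ c 45 := fun hh => tr3 u57 hh u12
      have u63 : c 31 ≠ c 8 := fun hh => tr1 hh u16 u58
      have u64 : c 40 ≠ c 18 := fun hh => k3770 hh u63 u59 u52 u50 u49 u48 u46 u38 u33 u31 u29 u24 u11 u8 u2 n5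
      have u65 : c 28 = c 18 := Classical.byContradiction fun hh => X2.n3 a128 u27 u64 hh
      have u66 : c 18 ≠ c 45 := fun hh => tr2 u65 hh u61
      have u67 : c 28 ≠ c 1 := fun hh => tr1 u65 hh u43
      have u68 : c 18 = c 12 := Classical.byContradiction fun hh => X2.n3 a9 hh u66 u62
      have u69 : c 28 = c 23 := Classical.byContradiction fun hh => X2.n3 a35 u67 hh u26
      have u70 : c 18 ≠ c 43 := fun hh => tr1 hh u68 u55
      have u71 : c 18 = c 33 := Classical.byContradiction fun hh => tr2 u68 u60 hh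
      have u72 : c 28 = c 33 := Classical.byContradiction fun hh => tr3 u69 n2 hh
      have u73 : c 18 = c 11 := Classical.byContradiction fun hh => X2.n3 a15 u70 hh u56
      have u74 : c 11 ≠ c 33 := fun hh => X2.n23 a37 u72 hh
      tr1 u73 u71 u74
  have k3772 : c 31 = c 32 → c 43 ≠ c 32 → c 31 = c 19 → c 12 ≠ c 21 → c 31 ≠ c 21 → False := fun n0 n1 n2 n3 n4 =>
      have u0 : c 32 ≠ c 12 := fun hh => X2.n13 a72 n0 hh
      have u1 : c 32 ≠ c 21 := fun hh => tr2 n0 hh n4
      have u2 : c 19 = c 32 := Classical.byContradiction fun hh => tr1 n2 n0 hh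
      have u3 : c 43 = c 12 := Classical.byContradiction fun hh => k3596 u2 hh u0 n1
      have u4 : c 43 = c 21 := Classical.byContradiction fun hh => X2.n3 a155 n1 hh u1
      tr1 u3 u4 n3
  have k3773 : c 29 = c 32 → c 32 ≠ c 1 → c 32 ≠ c 21 → c 1 ≠ c 21 → False := fun n0 n1 n2 n3 =>
      have u0 : c 29 ≠ c 1 := fun hh => tr1 n0 hh n1
      have u1 : c 29 ≠ c 21 := fun hh => tr1 n0 hh n2
      X2.n3 a44 u0 u1 n3
  have k3774 : c 29 = c 11 → c 12 ≠ c 33 → c 19 = c 12 → c 11 ≠ c 33 → c 19 ≠ c 11 → False := fun n0 n1 n2 n3 n4 =>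
      have u0 : c 29 ≠ c 19 := fun hh => tr1 hh n0 n4
      have u1 : c 29 ≠ c 33 := fun hh => tr1 n0 hh n3
      have u2 : c 29 ≠ c 12 := fun hh => tr3 hh n2 u0
      X2.n3 a49 u2 u1 n1
  have k3775 : c 32 ≠ c 21 → c 43 ≠ c 32 → c 31 = c 19 → c 41 = c 21 → c 31 ≠ c 21 → False := fun n0 n1 n2 n3 n4 =>
      have u0 : c 41 ≠ c 15 := fun hh => k3762 hh
      have u1 : c 12 ≠ c 21 := fun hh => X2.n23 a133 n3 hh
      have u2 : c 31 ≠ c 32 := fun hh => k3772 hh n1 n2 u1 n4
      have u3 : c 19 ≠ c 32 := fun hh => tr2 n2 hh u2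
      have u4 : c 41 ≠ c 33 := fun hh => X2.n12 a139 n3 hh
      have u5 : c 41 ≠ c 19 := fun hh => X2.n23 a141 hh n2
      have u6 : c 30 = c 19 := Classical.byContradiction fun hh => k3753 hh n2
      have u7 : c 30 = c 31 := Classical.byContradiction fun hh => tr3 u6 n2 hh
      have u8 : c 30 ≠ c 11 := fun hh => X2.n12 a61 u7 hh
      have u9 : c 19 ≠ c 11 := fun hh => tr2 u6 hh u8
      have u10 : c 41 = c 11 := Classical.byContradiction fun hh => X2.n3 a137 u5 hh u9
      have u11 : c 11 ≠ c 33 := fun hh => tr2 u10 hh u4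
      have u12 : c 11 = c 21 := Classical.byContradiction fun hh => tr1 u10 n3 hh
      have u13 : c 31 ≠ c 33 := fun hh => k3766 hh n3 n4
      have u14 : c 19 ≠ c 33 := fun hh => tr2 n2 hh u13
      have u15 : c 21 ≠ c 15 := fun hh => tr2 n3 hh u0
      have u16 : c 42 = c 21 := Classical.byContradiction fun hh => k3748 hh u15 n0
      have u17 : c 43 = c 21 := Classical.byContradiction fun hh => X2.n3 a155 n1 hh n0
      have u18 : c 32 ≠ c 11 := fun hh => tr2 hh u12 n0
      have u19 : c 42 = c 11 := Classical.byContradiction fun hh => tr3 u16 u12 hh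
      have u20 : c 31 ≠ c 43 := fun hh => tr2 hh u17 n4
      have u21 : c 43 ≠ c 12 := fun hh => tr1 hh u17 u1
      have u22 : c 42 ≠ c 19 := fun hh => tr1 hh u19 u9
      have u23 : c 19 ≠ c 43 := fun hh => tr2 n2 hh u20
      have u24 : c 19 = c 12 := Classical.byContradiction fun hh => X2.n3 a21 u23 hh u21
      have u25 : c 12 ≠ c 33 := fun hh => tr2 u24 hh u14
      have u26 : c 29 ≠ c 11 := fun hh => k3774 hh u25 u24 u11 u9
      have u27 : c 29 = c 32 := Classical.byContradiction fun hh => X2.n3 a54 hh u26 u18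
      have u28 : c 29 ≠ c 42 := fun hh => tr2 hh u19 u26
      have u29 : c 29 ≠ c 19 := fun hh => tr1 hh u27 u3
      X2.n3 a55 u28 u29 u22
  have k3776 : c 34 = c 4 → c 38 ≠ c 25 → c 34 ≠ c 13 → c 1 ≠ c 27 → c 29 = c 18 → c 29 ≠ c 27 → c 38 ≠ c 13 → c 32 ≠ c 4 → c 32 ≠ c 1 → False := fun n0 n1 n2 n3 n4 n5 n6 n7 n8 =>
      have u0 : c 18 ≠ c 4 := fun hh => k3543 n0 hh
      have u1 : c 4 ≠ c 13 := fun hh => tr2 n0 hh n2
      have u2 : c 29 ≠ c 4 := fun hh => tr1 n4 hh u0
      have u3 : c 38 = c 4 := Classical.byContradiction fun hh => X2.n3 a101 hh n6 u1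
      have u4 : c 4 = c 27 := Classical.byContradiction fun hh => X2.n3 a47 u2 n5 hh
      have u5 : c 25 ≠ c 4 := fun hh => tr3 u3 hh n1
      have u6 : c 25 = c 32 := Classical.byContradiction fun hh => X2.n3 a28 hh u5 n7
      have u7 : c 25 ≠ c 27 := fun hh => tr3 hh u4 u5
      have u8 : c 25 ≠ c 1 := fun hh => tr1 u6 hh n8
      X2.n3 a27 u8 u7 n3
  have k3777 : c 33 ≠ c 46 → c 41 = c 21 → c 31 ≠ c 21 → c 31 ≠ c 15 → c 41 ≠ c 31 → False := fun n0 n1 n2 n3 n4 =>
      have u0 : c 46 ≠ c 23 := fun hh => k3725 hh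
      have u1 : c 31 ≠ c 33 := fun hh => k3766 hh n1 n2
      have u2 : c 33 = c 15 := Classical.byContradiction fun hh => X2.n3 a73 u1 n3 hh
      have u3 : c 32 ≠ c 33 := fun hh => k3548 hh u2
      have u4 : c 30 ≠ c 33 := fun hh => X2.n13 a63 hh u2
      have u5 : c 1 ≠ c 21 := fun hh => k3534 n1 hh
      have u6 : c 12 ≠ c 21 := fun hh => X2.n23 a133 n1 hh
      have u7 : c 21 ≠ c 33 := fun hh => X2.n13 a139 n1 hh
      have u8 : c 33 = c 23 := Classical.byContradiction fun hh => X2.n3 a80 n0 hh u0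
      have u9 : c 44 ≠ c 23 := fun hh => X2.n23 a158 hh u8
      have u10 : c 23 = c 15 := Classical.byContradiction fun hh => tr1 u8 u2 hh
      have u11 : c 44 ≠ c 15 := fun hh => tr3 hh u10 u9
      have u12 : c 31 = c 19 := Classical.byContradiction fun hh => k3771 hh u11 u8 u3 u4 n1 n2 n4
      have u13 : c 19 ≠ c 1 := fun hh => X2.n13 a67 u12 hh
      have u14 : c 41 ≠ c 19 := fun hh => X2.n23 a141 hh u12
      have u15 : c 40 ≠ c 19 := fun hh => X2.n23 a130 hh u12
      have u16 : c 30 = c 19 := Classical.byContradiction fun hh => k3753 hh u12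
      have u17 : c 19 ≠ c 15 := fun hh => tr2 u12 hh n3
      have u18 : c 31 = c 46 := Classical.byContradiction fun hh => k3767 u12 hh n0 u1 n3
      have u19 : c 30 = c 31 := Classical.byContradiction fun hh => tr3 u16 u12 hh
      have u20 : c 19 = c 44 := Classical.byContradiction fun hh => X2.n3 a23 hh u17 u11
      have u21 : c 19 = c 46 := Classical.byContradiction fun hh => tr1 u12 u18 hh
      have u22 : c 30 ≠ c 10 := fun hh => X2.n12 a60 u19 hh
      have u23 : c 30 = c 46 := Classical.byContradiction fun hh => tr2 u19 u18 hh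
      have u24 : c 19 ≠ c 13 := fun hh => X2.n12 a22 u20 hh
      have u25 : c 13 ≠ c 46 := fun hh => X2.n23 a17 u21 hh
      have u26 : c 19 ≠ c 10 := fun hh => tr2 u16 hh u22
      have u27 : c 30 ≠ c 13 := fun hh => tr1 hh u23 u25
      have u28 : c 31 ≠ c 13 := fun hh => tr1 u12 hh u24
      have u29 : c 41 = c 10 := Classical.byContradiction fun hh => X2.n3 a136 u14 hh u26
      have u30 : c 40 = c 10 := Classical.byContradiction fun hh => X2.n3 a125 u15 hh u26
      have u31 : c 13 = c 33 := Classical.byContradiction fun hh => X2.n3 a56 u27 u4 hh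
      have u32 : c 10 = c 21 := Classical.byContradiction fun hh => tr1 u29 n1 hh
      have u33 : c 40 ≠ c 4 := fun hh => X2.n12 a122 u30 hh
      have u34 : c 21 ≠ c 13 := fun hh => tr2 hh u31 u7
      have u35 : c 38 ≠ c 21 := fun hh => X2.n23 a103 hh u32
      have u36 : c 40 = c 21 := Classical.byContradiction fun hh => tr2 u30 u32 hh
      have u37 : c 4 ≠ c 21 := fun hh => tr3 u36 hh u33
      have u38 : c 43 ≠ c 32 := fun hh => k3624 hh u34
      have u39 : c 31 ≠ c 32 := fun hh => k3772 hh u38 u12 u6 n2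
      have u40 : c 19 ≠ c 32 := fun hh => tr2 u12 hh u39
      have u41 : c 32 = c 21 := Classical.byContradiction fun hh => k3775 hh u38 u12 n1 n2
      have u42 : c 42 ≠ c 21 := fun hh => X2.n23 a148 hh u41
      have u43 : c 43 ≠ c 21 := fun hh => X2.n23 a155 hh u41
      have u44 : c 27 ≠ c 13 := fun hh => k3567 u41 hh
      have u45 : c 32 ≠ c 12 := fun hh => tr1 hh u41 u6
      have u46 : c 32 ≠ c 1 := fun hh => tr1 hh u41 u5
      have u47 : c 10 = c 32 := Classical.byContradiction fun hh => tr3 u32 u41 hh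
      have u48 : c 38 ≠ c 32 := fun hh => tr2 hh u41 u35
      have u49 : c 32 ≠ c 4 := fun hh => tr1 hh u41 u37
      have u50 : c 42 = c 13 := Classical.byContradiction fun hh => X2.n3 a146 u42 hh u34
      have u51 : c 43 = c 13 := Classical.byContradiction fun hh => X2.n3 a154 u43 hh u34
      have u52 : c 31 = c 12 := Classical.byContradiction fun hh => X2.n3 a72 u39 hh u45
      have u53 : c 29 ≠ c 10 := fun hh => X2.n13 a48 hh u47
      have u54 : c 38 = c 19 := Classical.byContradiction fun hh => X2.n3 a108 hh u48 u40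
      have u55 : c 42 ≠ c 27 := fun hh => tr1 hh u50 u44
      have u56 : c 42 ≠ c 19 := fun hh => tr1 hh u50 u24
      have u57 : c 43 ≠ c 22 := fun hh => X2.n12 a153 u51 hh
      have u58 : c 19 = c 12 := Classical.byContradiction fun hh => k3658 u51 u28 hh u6 u38 n2 u24
      have u59 : c 12 = c 46 := Classical.byContradiction fun hh => tr1 u52 u18 hh
      have u60 : c 29 ≠ c 21 := fun hh => tr3 hh u32 u53
      have u61 : c 38 ≠ c 13 := fun hh => tr1 u54 hh u24
      have u62 : c 38 = c 12 := Classical.byContradiction fun hh => tr2 u54 u58 hh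
      have u63 : c 32 = c 22 := Classical.byContradiction fun hh => X2.n3 a156 u38 u57 hh
      have u64 : c 18 ≠ c 12 := fun hh => X2.n13 a10 hh u59
      have u65 : c 29 = c 1 := Classical.byContradiction fun hh => X2.n3 a44 hh u60 u5
      have u66 : c 38 ≠ c 18 := fun hh => tr1 hh u62 u64
      have u67 : c 10 = c 22 := Classical.byContradiction fun hh => tr2 u47 u63 hh
      have u68 : c 29 ≠ c 19 := fun hh => tr1 hh u65 u13
      have u69 : c 39 ≠ c 10 := fun hh => X2.n13 a115 hh u67
      have u70 : c 29 = c 42 := Classical.byContradiction fun hh => X2.n3 a55 hh u68 u56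
      have u71 : c 38 ≠ c 29 := fun hh => tr1 hh u54 u68
      have u72 : c 39 ≠ c 32 := fun hh => tr3 hh u47 u69
      have u73 : c 29 = c 13 := Classical.byContradiction fun hh => tr2 u70 u50 hh
      have u74 : c 29 ≠ c 27 := fun hh => tr1 u70 hh u55
      have u75 : c 29 = c 18 := Classical.byContradiction fun hh => X2.n3 a112 u71 u66 hh
      have u76 : c 39 = c 19 := Classical.byContradiction fun hh => X2.n3 a117 hh u72 u40
      have u77 : c 1 = c 13 := Classical.byContradiction fun hh => tr1 u65 u73 hh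
      have u78 : c 1 ≠ c 27 := fun hh => tr2 u65 hh u74
      have u79 : c 39 ≠ c 18 := fun hh => X2.n23 a119 hh u75
      have u80 : c 18 ≠ c 8 := fun hh => k3532 u75 hh
      have u81 : c 38 = c 39 := Classical.byContradiction fun hh => tr3 u54 u76 hh
      have u82 : c 34 ≠ c 1 := fun hh => X2.n13 a81 hh u77
      have u83 : c 34 ≠ c 13 := fun hh => X2.n23 a81 hh u77
      have u84 : c 39 = c 8 := Classical.byContradiction fun hh => X2.n3 a116 u79 hh u80
      have u85 : c 38 = c 8 := Classical.byContradiction fun hh => X2.n3 a107 u66 hh u80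
      have u86 : c 38 ≠ c 25 := fun hh => X2.n12 a113 u81 hh
      have u87 : c 8 = c 19 := Classical.byContradiction fun hh => tr1 u84 u76 hh
      have u88 : c 25 ≠ c 8 := fun hh => tr3 u85 hh u86
      have u89 : c 34 ≠ c 4 := fun hh => k3776 hh u86 u83 u78 u75 u74 u61 u49 u46
      have u90 : c 34 = c 21 := Classical.byContradiction fun hh => X2.n3 a82 u89 hh u37
      have u91 : c 34 = c 10 := Classical.byContradiction fun hh => tr3 u90 u32 hh
      have u92 : c 34 ≠ c 27 := fun hh => X2.n12 a83 u91 hh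
      have u93 : c 34 ≠ c 19 := fun hh => tr1 hh u91 u26
      have u94 : c 34 ≠ c 8 := fun hh => tr2 hh u87 u93
      have u95 : c 34 = c 25 := Classical.byContradiction fun hh => X2.n3 a85 hh u94 u88
      have u96 : c 25 ≠ c 27 := fun hh => tr2 u95 hh u92
      have u97 : c 25 ≠ c 1 := fun hh => tr2 u95 hh u82
      X2.n3 a27 u97 u96 u78
  have k3778 : c 41 = c 21 → c 31 ≠ c 21 → c 31 ≠ c 15 → c 41 ≠ c 31 → False := fun n0 n1 n2 n3 =>
      have u0 : c 21 ≠ c 33 := fun hh => X2.n13 a139 n0 hh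
      have u1 : c 31 ≠ c 33 := fun hh => k3766 hh n0 n1
      have u2 : c 33 = c 46 := Classical.byContradiction fun hh => k3777 hh n0 n1 n2 n3
      have u3 : c 21 ≠ c 46 := fun hh => tr3 hh u2 u0
      have u4 : c 31 ≠ c 46 := fun hh => tr3 hh u2 u1
      X2.n3 a70 n1 u4 u3
  have k3779 : c 1 = c 21 → c 43 ≠ c 10 → c 29 = c 43 → c 19 ≠ c 13 → c 40 ≠ c 27 → c 21 = c 13 → c 30 ≠ c 21 → c 31 ≠ c 21 → False := fun n0 n1 n2 n3 n4 n5 n6 n7 =>
      have u0 : c 8 ≠ c 43 := fun hh => k3535 n2 hh
      have u1 : c 43 = c 32 := Classical.byContradiction fun hh => k3580 n5 hh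
      have u2 : c 27 = c 13 := Classical.byContradiction fun hh => k3579 u1 hh
      have u3 : c 43 ≠ c 21 := fun hh => X2.n13 a154 hh n5
      have u4 : c 31 ≠ c 1 := fun hh => tr2 hh n0 n7
      have u5 : c 1 = c 13 := Classical.byContradiction fun hh => tr2 n0 n5 hh
      have u6 : c 30 ≠ c 1 := fun hh => tr2 hh n0 n6
      have u7 : c 34 ≠ c 1 := fun hh => X2.n13 a81 hh u5
      have u8 : c 34 ≠ c 13 := fun hh => X2.n23 a81 hh u5
      have u9 : c 19 ≠ c 1 := fun hh => tr2 hh u5 n3
      have u10 : c 30 = c 19 := Classical.byContradiction fun hh => X2.n3 a57 hh u6 u9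
      have u11 : c 34 ≠ c 21 := fun hh => tr3 hh n0 u7
      have u12 : c 34 ≠ c 27 := fun hh => tr2 hh u2 u8
      have u13 : c 31 = c 19 := Classical.byContradiction fun hh => X2.n3 a67 hh u4 u9
      have u14 : c 40 ≠ c 19 := fun hh => X2.n23 a129 hh u10
      have u15 : c 30 = c 31 := Classical.byContradiction fun hh => tr3 u10 u13 hh
      have u16 : c 30 ≠ c 10 := fun hh => X2.n12 a60 u15 hh
      have u17 : c 19 ≠ c 10 := fun hh => tr2 u10 hh u16
      have u18 : c 40 = c 10 := Classical.byContradiction fun hh => X2.n3 a125 u14 hh u17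
      have u19 : c 10 ≠ c 4 := fun hh => X2.n13 a122 u18 hh
      have u20 : c 10 ≠ c 27 := fun hh => tr2 u18 hh n4
      have u21 : c 34 = c 10 := Classical.byContradiction fun hh => X2.n3 a83 hh u12 u20
      have u22 : c 18 ≠ c 10 := fun hh => k3541 u21 hh
      have u23 : c 34 ≠ c 4 := fun hh => tr1 u21 hh u19
      have u24 : c 18 = c 43 := Classical.byContradiction fun hh => X2.n3 a14 hh u22 n1
      have u25 : c 4 = c 21 := Classical.byContradiction fun hh => X2.n3 a82 u23 u11 hh
      have u26 : c 29 = c 18 := Classical.byContradiction fun hh => tr3 n2 u24 hh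
      have u27 : c 18 ≠ c 8 := fun hh => tr1 hh u24 u0
      have u28 : c 4 = c 13 := Classical.byContradiction fun hh => tr2 u25 n5 hh
      have u29 : c 43 ≠ c 4 := fun hh => tr2 hh u25 u3
      have u30 : c 39 ≠ c 18 := fun hh => X2.n23 a119 hh u26
      have u31 : c 39 = c 8 := Classical.byContradiction fun hh => X2.n3 a116 u30 hh u27
      have u32 : c 39 ≠ c 4 := fun hh => X2.n13 a114 hh u28
      have u33 : c 8 = c 4 := Classical.byContradiction fun hh => X2.n3 a2 u0 hh u29
      tr2 u31 u33 u32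
  have k3780 : c 29 = c 42 → c 41 = c 23 → c 19 ≠ c 13 → c 42 = c 32 → c 21 = c 13 → c 30 ≠ c 21 → c 32 ≠ c 21 → c 21 = c 33 → c 31 ≠ c 21 → False := fun n0 n1 n2 n3 n4 n5 n6 n7 n8 =>
      have u0 : c 1 ≠ c 23 := fun hh => k3517 n1 hh
      have u1 : c 13 = c 33 := Classical.byContradiction fun hh => tr1 n4 n7 hh
      have u2 : c 19 ≠ c 33 := fun hh => tr3 hh u1 n2
      have u3 : c 40 ≠ c 21 := fun hh => X2.n13 a127 hh n7
      have u4 : c 40 ≠ c 13 := fun hh => tr3 hh n4 u3
      have u5 : c 43 = c 32 := Classical.byContradiction fun hh => k3580 n4 hh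
      have u6 : c 27 = c 13 := Classical.byContradiction fun hh => k3579 u5 hh
      have u7 : c 40 ≠ c 27 := fun hh => tr2 hh u6 u4
      have u8 : c 42 = c 43 := Classical.byContradiction fun hh => tr3 n3 u5 hh
      have u9 : c 42 ≠ c 13 := fun hh => X2.n23 a146 hh n4
      have u10 : c 42 ≠ c 19 := fun hh => X2.n13 a55 n0 hh
      have u11 : c 29 ≠ c 13 := fun hh => tr1 n0 hh u9
      have u12 : c 29 = c 43 := Classical.byContradiction fun hh => tr2 n0 u8 hh
      have u13 : c 29 = c 32 := Classical.byContradiction fun hh => tr2 n0 n3 hh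
      have u14 : c 19 ≠ c 32 := fun hh => tr3 n3 hh u10
      have u15 : c 29 ≠ c 21 := fun hh => tr2 hh n4 u11
      have u16 : c 29 ≠ c 10 := fun hh => X2.n12 a48 hh u13
      have u17 : c 43 ≠ c 10 := fun hh => tr2 u12 hh u16
      have u18 : c 1 ≠ c 21 := fun hh => k3779 hh u17 u12 n2 u7 n4 n5 n8
      have u19 : c 32 = c 1 := Classical.byContradiction fun hh => k3773 u13 hh n6 u18
      have u20 : c 29 = c 1 := Classical.byContradiction fun hh => X2.n3 a44 hh u15 u18
      have u21 : c 43 = c 1 := Classical.byContradiction fun hh => tr2 u5 u19 hh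
      have u22 : c 29 ≠ c 23 := fun hh => tr1 u20 hh u0
      have u23 : c 43 ≠ c 2 := fun hh => X2.n12 a150 u21 hh
      have u24 : c 32 ≠ c 2 := fun hh => tr2 u5 hh u23
      have u25 : c 29 ≠ c 2 := fun hh => tr1 u12 hh u23
      have u26 : c 19 = c 2 := Classical.byContradiction fun hh => X2.n3 a18 u14 hh u24
      have u27 : c 2 = c 23 := Classical.byContradiction fun hh => X2.n3 a46 u25 u22 hh
      have u28 : c 2 ≠ c 33 := fun hh => tr2 u26 hh u2
      have u29 : c 21 ≠ c 2 := fun hh => tr1 hh n7 u28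
      have u30 : c 31 = c 2 := Classical.byContradiction fun hh => X2.n3 a68 n8 hh u29
      have u31 : c 31 ≠ c 32 := fun hh => tr1 hh u30 u24
      have u32 : c 31 = c 19 := Classical.byContradiction fun hh => k3647 u30 u14 u31 hh
      have u33 : c 41 ≠ c 19 := fun hh => X2.n23 a141 hh u32
      have u34 : c 30 = c 19 := Classical.byContradiction fun hh => k3753 hh u32
      have u35 : c 30 = c 31 := Classical.byContradiction fun hh => tr3 u34 u32 hh
      have u36 : c 30 ≠ c 11 := fun hh => X2.n12 a61 u35 hh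
      have u37 : c 31 ≠ c 11 := fun hh => X2.n13 a61 u35 hh
      have u38 : c 19 ≠ c 11 := fun hh => tr2 u34 hh u36
      have u39 : c 11 ≠ c 2 := fun hh => tr3 u30 hh u37
      have u40 : c 41 = c 11 := Classical.byContradiction fun hh => X2.n3 a137 u33 hh u38
      have u41 : c 11 ≠ c 23 := fun hh => tr3 hh u27 u39
      tr1 u40 n1 u41
  have k3781 : c 32 = c 1 → c 29 ≠ c 42 → c 19 ≠ c 13 → c 42 = c 32 → c 21 = c 13 → c 32 ≠ c 21 → c 41 ≠ c 31 → False := fun n0 n1 n2 n3 n4 n5 n6 =>
      have u0 : c 29 ≠ c 32 := fun hh => tr3 hh n3 n1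
      have u1 : c 43 = c 32 := Classical.byContradiction fun hh => k3580 n4 hh
      have u2 : c 42 = c 43 := Classical.byContradiction fun hh => tr3 n3 u1 hh
      have u3 : c 29 ≠ c 43 := fun hh => tr3 hh u2 n1
      have u4 : c 41 ≠ c 32 := fun hh => k3525 hh n0
      have u5 : c 43 = c 1 := Classical.byContradiction fun hh => tr2 u1 n0 hh
      have u6 : c 1 ≠ c 21 := fun hh => tr2 n0 hh n5
      have u7 : c 29 ≠ c 1 := fun hh => tr3 hh n0 u0
      have u8 : c 29 = c 21 := Classical.byContradiction fun hh => X2.n3 a44 u7 hh u6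
      have u9 : c 29 = c 13 := Classical.byContradiction fun hh => tr2 u8 n4 hh
      have u10 : c 29 ≠ c 19 := fun hh => tr1 hh u9 n2
      have u11 : c 42 = c 19 := Classical.byContradiction fun hh => X2.n3 a55 n1 u10 hh
      have u12 : c 19 = c 43 := Classical.byContradiction fun hh => X2.n3 a51 u10 u3 hh
      have u13 : c 19 = c 32 := Classical.byContradiction fun hh => tr1 u11 n3 hh
      have u14 : c 19 = c 1 := Classical.byContradiction fun hh => tr2 u12 u5 hh
      have u15 : c 41 ≠ c 19 := fun hh => tr2 hh u13 u4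
      have u16 : c 31 ≠ c 19 := fun hh => X2.n13 a67 hh u14
      X2.n3 a141 n6 u15 u16
  have k3782 : c 31 ≠ c 19 → c 32 ≠ c 1 → c 29 ≠ c 32 → c 19 ≠ c 33 → c 41 = c 23 → c 43 = c 32 → c 32 ≠ c 21 → c 21 = c 33 → c 31 ≠ c 21 → c 41 ≠ c 31 → False := fun n0 n1 n2 n3 n4 n5 n6 n7 n8 n9 =>
      have u0 : c 43 ≠ c 1 := fun hh => tr1 n5 hh n1
      have u1 : c 1 ≠ c 23 := fun hh => k3517 n4 hh
      have u2 : c 41 = c 19 := Classical.byContradiction fun hh => X2.n3 a141 n9 hh n0
      have u3 : c 41 ≠ c 11 := fun hh => X2.n12 a137 u2 hh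
      have u4 : c 19 ≠ c 11 := fun hh => X2.n13 a137 u2 hh
      have u5 : c 30 ≠ c 19 := fun hh => X2.n23 a64 hh u2
      have u6 : c 19 ≠ c 1 := fun hh => k3536 u2 hh
      have u7 : c 11 ≠ c 23 := fun hh => tr3 n4 hh u3
      have u8 : c 30 = c 1 := Classical.byContradiction fun hh => X2.n3 a57 u5 hh u6
      have u9 : c 31 = c 1 := Classical.byContradiction fun hh => X2.n3 a67 n0 hh u6
      have u10 : c 30 = c 31 := Classical.byContradiction fun hh => tr3 u8 u9 hh
      have u11 : c 31 ≠ c 32 := fun hh => tr1 hh u9 n1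
      have u12 : c 31 ≠ c 11 := fun hh => X2.n13 a61 u10 hh
      have u13 : c 19 = c 32 := Classical.byContradiction fun hh => k3648 hh n6 n7 u11 n3 n0 n8
      have u14 : c 19 ≠ c 2 := fun hh => X2.n12 a18 u13 hh
      have u15 : c 19 = c 43 := Classical.byContradiction fun hh => tr3 u13 n5 hh
      have u16 : c 32 ≠ c 11 := fun hh => tr2 u13 hh u4
      have u17 : c 43 ≠ c 2 := fun hh => tr2 u15 hh u14
      have u18 : c 29 = c 11 := Classical.byContradiction fun hh => X2.n3 a54 n2 hh u16
      have u19 : c 1 = c 2 := Classical.byContradiction fun hh => X2.n3 a150 u0 u17 hh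
      have u20 : c 29 ≠ c 31 := fun hh => tr1 hh u18 u12
      have u21 : c 29 ≠ c 23 := fun hh => tr1 u18 hh u7
      have u22 : c 31 = c 2 := Classical.byContradiction fun hh => tr2 u9 u19 hh
      have u23 : c 2 ≠ c 23 := fun hh => tr2 u19 hh u1
      have u24 : c 29 ≠ c 2 := fun hh => tr3 hh u22 u20
      X2.n3 a46 u24 u21 u23
  have k3783 : c 19 = c 32 → c 1 ≠ c 21 → c 31 = c 19 → c 43 ≠ c 1 → c 43 = c 32 → c 31 ≠ c 21 → False := fun n0 n1 n2 n3 n4 n5 =>
      have u0 : c 19 ≠ c 2 := fun hh => X2.n12 a18 n0 hh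
      have u1 : c 19 = c 43 := Classical.byContradiction fun hh => tr3 n0 n4 hh
      have u2 : c 31 ≠ c 2 := fun hh => tr1 n2 hh u0
      have u3 : c 43 ≠ c 2 := fun hh => tr2 u1 hh u0
      have u4 : c 21 = c 2 := Classical.byContradiction fun hh => X2.n3 a68 n5 u2 hh
      have u5 : c 1 = c 2 := Classical.byContradiction fun hh => X2.n3 a150 n3 u3 hh
      tr3 u5 u4 n1
  have k3784 : c 1 ≠ c 21 → c 31 = c 19 → c 43 ≠ c 1 → c 29 ≠ c 42 → c 43 = c 32 → c 42 = c 32 → c 31 ≠ c 21 → False := fun n0 n1 n2 n3 n4 n5 n6 =>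
      have u0 : c 19 ≠ c 1 := fun hh => X2.n13 a67 n1 hh
      have u1 : c 19 ≠ c 32 := fun hh => k3783 hh n0 n1 n2 n4 n6
      have u2 : c 42 ≠ c 19 := fun hh => tr1 hh n5 u1
      have u3 : c 29 = c 19 := Classical.byContradiction fun hh => X2.n3 a55 n3 hh u2
      have u4 : c 29 ≠ c 1 := fun hh => tr1 u3 hh u0
      have u5 : c 29 = c 31 := Classical.byContradiction fun hh => tr3 u3 n1 hh
      have u6 : c 29 = c 21 := Classical.byContradiction fun hh => X2.n3 a44 u4 hh n0
      tr1 u5 u6 n6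
  have k3785 : c 33 = c 46 → c 33 = c 15 → c 41 ≠ c 21 → c 31 ≠ c 21 → c 41 ≠ c 31 → False := fun n0 n1 n2 n3 n4 =>
      have u0 : c 41 ≠ c 15 := fun hh => k3762 hh
      have u1 : c 41 ≠ c 33 := fun hh => tr2 hh n1 u0
      have u2 : c 21 = c 33 := Classical.byContradiction fun hh => X2.n3 a139 n2 u1 hh
      have u3 : c 21 = c 15 := Classical.byContradiction fun hh => tr2 u2 n1 hh
      have u4 : c 21 = c 13 := Classical.byContradiction fun hh => k3722 u3 hh
      have u5 : c 13 = c 33 := Classical.byContradiction fun hh => tr1 u4 u2 hh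
      have u6 : c 43 ≠ c 13 := fun hh => X2.n23 a154 hh u4
      have u7 : c 43 = c 32 := Classical.byContradiction fun hh => k3580 u4 hh
      have u8 : c 43 ≠ c 22 := fun hh => X2.n12 a156 u7 hh
      have u9 : c 13 = c 22 := Classical.byContradiction fun hh => X2.n3 a153 u6 u8 hh
      have u10 : c 33 = c 22 := Classical.byContradiction fun hh => tr1 u5 u9 hh
      have u11 : c 41 ≠ c 22 := fun hh => X2.n23 a142 hh u10
      have u12 : c 40 ≠ c 21 := fun hh => X2.n13 a127 hh u2
      have u13 : c 40 ≠ c 13 := fun hh => tr3 hh u4 u12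
      have u14 : c 27 = c 13 := Classical.byContradiction fun hh => k3579 u7 hh
      have u15 : c 40 ≠ c 27 := fun hh => tr2 hh u14 u13
      have u16 : c 32 ≠ c 33 := fun hh => k3548 hh n1
      have u17 : c 32 ≠ c 21 := fun hh => tr2 hh u2 u16
      have u18 : c 42 ≠ c 21 := fun hh => X2.n13 a147 hh u3
      have u19 : c 42 = c 32 := Classical.byContradiction fun hh => X2.n3 a148 hh u18 u17
      have u20 : c 42 = c 43 := Classical.byContradiction fun hh => tr3 u19 u7 hh
      have u21 : c 43 ≠ c 27 := fun hh => X2.n13 a149 u20 hh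
      have u22 : c 30 ≠ c 33 := fun hh => X2.n13 a63 hh n1
      have u23 : c 30 ≠ c 21 := fun hh => tr2 hh u2 u22
      have u24 : c 33 ≠ c 23 := fun hh => X2.n12 a80 n0 hh
      have u25 : c 13 = c 46 := Classical.byContradiction fun hh => tr2 u5 n0 hh
      have u26 : c 23 ≠ c 15 := fun hh => tr3 n1 hh u24
      have u27 : c 19 ≠ c 13 := fun hh => X2.n13 a17 hh u25
      have u28 : c 41 = c 23 := Classical.byContradiction fun hh => X2.n3 a140 hh u0 u26
      have u29 : c 19 ≠ c 33 := fun hh => tr3 hh u5 u27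
      have u30 : c 29 ≠ c 42 := fun hh => k3780 hh u28 u27 u19 u4 u23 u17 u2 n3
      have u31 : c 29 ≠ c 43 := fun hh => tr3 hh u20 u30
      have u32 : c 29 ≠ c 32 := fun hh => tr3 hh u19 u30
      have u33 : c 32 ≠ c 1 := fun hh => k3781 hh u30 u27 u19 u4 u17 n4
      have u34 : c 43 ≠ c 1 := fun hh => tr1 u7 hh u33
      have u35 : c 31 = c 19 := Classical.byContradiction fun hh => k3782 hh u33 u32 u29 u28 u7 u17 u2 n3 n4
      have u36 : c 41 ≠ c 19 := fun hh => X2.n23 a141 hh u35
      have u37 : c 40 ≠ c 19 := fun hh => X2.n23 a130 hh u35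
      have u38 : c 30 = c 19 := Classical.byContradiction fun hh => k3753 hh u35
      have u39 : c 30 = c 31 := Classical.byContradiction fun hh => tr3 u38 u35 hh
      have u40 : c 30 ≠ c 10 := fun hh => X2.n12 a60 u39 hh
      have u41 : c 30 ≠ c 11 := fun hh => X2.n12 a61 u39 hh
      have u42 : c 19 ≠ c 10 := fun hh => tr2 u38 hh u40
      have u43 : c 19 ≠ c 11 := fun hh => tr2 u38 hh u41
      have u44 : c 41 = c 10 := Classical.byContradiction fun hh => X2.n3 a136 u36 hh u42
      have u45 : c 40 = c 10 := Classical.byContradiction fun hh => X2.n3 a125 u37 hh u42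
      have u46 : c 41 = c 11 := Classical.byContradiction fun hh => X2.n3 a137 u36 hh u43
      have u47 : c 40 = c 11 := Classical.byContradiction fun hh => X2.n3 a126 u37 hh u43
      have u48 : c 10 ≠ c 21 := fun hh => tr2 u44 hh n2
      have u49 : c 10 ≠ c 22 := fun hh => tr2 u44 hh u11
      have u50 : c 10 ≠ c 4 := fun hh => X2.n13 a122 u45 hh
      have u51 : c 10 ≠ c 27 := fun hh => tr2 u45 hh u15
      have u52 : c 11 ≠ c 21 := fun hh => tr2 u46 hh n2
      have u53 : c 1 = c 21 := Classical.byContradiction fun hh => k3784 hh u35 u34 u30 u7 u19 n3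
      have u54 : c 29 ≠ c 1 := fun hh => X2.n13 a44 hh u53
      have u55 : c 1 = c 13 := Classical.byContradiction fun hh => tr2 u53 u4 hh
      have u56 : c 29 ≠ c 13 := fun hh => tr3 hh u55 u54
      have u57 : c 34 ≠ c 1 := fun hh => X2.n13 a81 hh u55
      have u58 : c 34 ≠ c 13 := fun hh => X2.n23 a81 hh u55
      have u59 : c 1 = c 27 := Classical.byContradiction fun hh => tr3 u55 u14 hh
      have u60 : c 29 ≠ c 27 := fun hh => tr2 hh u14 u56
      have u61 : c 34 ≠ c 21 := fun hh => tr3 hh u53 u57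
      have u62 : c 34 ≠ c 27 := fun hh => tr2 hh u14 u58
      have u63 : c 25 ≠ c 1 := fun hh => X2.n13 a27 hh u59
      have u64 : c 43 ≠ c 4 := fun hh => k3562 hh u60 u31 u21
      have u65 : c 34 = c 10 := Classical.byContradiction fun hh => X2.n3 a83 hh u62 u51
      have u66 : c 25 ≠ c 21 := fun hh => tr3 hh u53 u63
      have u67 : c 32 ≠ c 4 := fun hh => tr2 u7 hh u64
      have u68 : c 18 ≠ c 10 := fun hh => k3541 u65 hh
      have u69 : c 34 ≠ c 4 := fun hh => tr1 u65 hh u50
      have u70 : c 40 ≠ c 18 := fun hh => tr1 hh u45 u68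
      have u71 : c 4 = c 21 := Classical.byContradiction fun hh => X2.n3 a82 u69 u61 hh
      have u72 : c 18 ≠ c 11 := fun hh => tr3 u47 hh u70
      have u73 : c 35 ≠ c 4 := fun hh => k3502 hh u71
      have u74 : c 4 = c 13 := Classical.byContradiction fun hh => tr2 u71 u4 hh
      have u75 : c 25 ≠ c 4 := fun hh => tr2 hh u71 u66
      have u76 : c 39 ≠ c 13 := fun hh => X2.n23 a114 hh u74
      have u77 : c 38 ≠ c 4 := fun hh => X2.n13 a101 hh u74
      have u78 : c 25 = c 32 := Classical.byContradiction fun hh => X2.n3 a28 hh u75 u67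
      have u79 : c 39 ≠ c 22 := fun hh => tr3 hh u9 u76
      have u80 : c 38 ≠ c 21 := fun hh => tr3 hh u71 u77
      have u81 : c 39 = c 10 := Classical.byContradiction fun hh => X2.n3 a115 hh u79 u49
      have u82 : c 38 = c 10 := Classical.byContradiction fun hh => X2.n3 a103 hh u80 u48
      have u83 : c 38 = c 39 := Classical.byContradiction fun hh => tr3 u82 u81 hh
      have u84 : c 38 ≠ c 19 := fun hh => tr1 hh u82 u42
      have u85 : c 38 ≠ c 25 := fun hh => X2.n12 a113 u83 hh
      have u86 : c 38 ≠ c 32 := fun hh => tr3 hh u78 u85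
      have u87 : c 19 = c 32 := Classical.byContradiction fun hh => X2.n3 a108 u84 u86 hh
      have u88 : c 10 ≠ c 32 := fun hh => tr2 u82 hh u86
      have u89 : c 19 ≠ c 2 := fun hh => X2.n12 a18 u87 hh
      have u90 : c 43 ≠ c 10 := fun hh => tr1 hh u7 u88
      have u91 : c 31 ≠ c 2 := fun hh => tr1 u35 hh u89
      have u92 : c 18 = c 43 := Classical.byContradiction fun hh => X2.n3 a14 hh u68 u90
      have u93 : c 21 = c 2 := Classical.byContradiction fun hh => X2.n3 a68 n3 u91 hh
      have u94 : c 18 ≠ c 4 := fun hh => tr1 u92 hh u64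
      have u95 : c 35 ≠ c 2 := fun hh => k3496 hh u93
      have u96 : c 11 ≠ c 2 := fun hh => tr3 hh u93 u52
      have u97 : c 18 = c 35 := Classical.byContradiction fun hh => X2.n3 a12 hh u94 u73
      have u98 : c 35 = c 11 := Classical.byContradiction fun hh => X2.n3 a88 hh u95 u96
      tr2 u97 u98 u72
  have k3786 : c 33 = c 15 → c 41 ≠ c 21 → c 31 ≠ c 21 → c 41 ≠ c 31 → False := fun n0 n1 n2 n3 =>
      have u0 : c 41 ≠ c 15 := fun hh => k3762 hh
      have u1 : c 46 ≠ c 23 := fun hh => k3725 hh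
      have u2 : c 41 ≠ c 33 := fun hh => tr2 hh n0 u0
      have u3 : c 21 = c 33 := Classical.byContradiction fun hh => X2.n3 a139 n1 u2 hh
      have u4 : c 21 = c 15 := Classical.byContradiction fun hh => tr2 u3 n0 hh
      have u5 : c 21 = c 13 := Classical.byContradiction fun hh => k3722 u4 hh
      have u6 : c 43 = c 32 := Classical.byContradiction fun hh => k3580 u5 hh
      have u7 : c 41 ≠ c 13 := fun hh => tr3 hh u5 n1
      have u8 : c 13 = c 33 := Classical.byContradiction fun hh => tr1 u5 u3 hh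
      have u9 : c 27 = c 13 := Classical.byContradiction fun hh => k3579 u6 hh
      have u10 : c 41 ≠ c 27 := fun hh => tr2 hh u9 u7
      have u11 : c 33 ≠ c 46 := fun hh => k3785 hh n0 n1 n2 n3
      have u12 : c 33 = c 23 := Classical.byContradiction fun hh => X2.n3 a80 u11 hh u1
      have u13 : c 44 ≠ c 33 := fun hh => X2.n13 a158 hh u12
      have u14 : c 44 ≠ c 21 := fun hh => tr2 hh u3 u13
      have u15 : c 44 ≠ c 13 := fun hh => tr2 hh u8 u13
      have u16 : c 31 = c 44 := Classical.byContradiction fun hh => X2.n3 a74 hh n2 u14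
      have u17 : c 44 ≠ c 27 := fun hh => tr2 hh u9 u15
      have u18 : c 41 ≠ c 44 := fun hh => tr3 hh u16 n3
      X2.n3 a143 u18 u10 u17
  have k3787 : c 31 ≠ c 21 → c 31 ≠ c 15 → c 41 ≠ c 31 → False := fun n0 n1 n2 =>
      have u0 : c 41 ≠ c 21 := fun hh => k3778 hh n0 n1 n2
      have u1 : c 33 ≠ c 15 := fun hh => k3786 hh u0 n0 n2
      have u2 : c 31 = c 33 := Classical.byContradiction fun hh => X2.n3 a73 hh n1 u1
      have u3 : c 21 ≠ c 33 := fun hh => tr3 u2 hh n0
      have u4 : c 41 ≠ c 33 := fun hh => tr3 hh u2 n2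
      X2.n3 a139 u0 u4 u3
  have k3788 : c 21 ≠ c 33 → c 41 ≠ c 21 → c 31 = c 21 → c 31 ≠ c 15 → False := fun n0 n1 n2 n3 =>
      have u0 : c 41 ≠ c 15 := fun hh => k3762 hh
      have u1 : c 31 ≠ c 33 := fun hh => tr1 n2 hh n0
      have u2 : c 41 = c 33 := Classical.byContradiction fun hh => X2.n3 a139 n1 hh n0
      have u3 : c 33 = c 15 := Classical.byContradiction fun hh => X2.n3 a73 u1 n3 hh
      tr2 u2 u3 u0
  have k3789 : c 31 ≠ c 15 → c 41 ≠ c 31 → False := fun n0 n1 =>
      have u0 : c 41 ≠ c 15 := fun hh => k3762 hh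
      have u1 : c 46 ≠ c 23 := fun hh => k3725 hh
      have u2 : c 31 = c 21 := Classical.byContradiction fun hh => k3787 hh n0 n1
      have u3 : c 21 ≠ c 46 := fun hh => X2.n13 a70 u2 hh
      have u4 : c 41 ≠ c 21 := fun hh => tr3 hh u2 n1
      have u5 : c 21 ≠ c 15 := fun hh => tr2 u2 hh n0
      have u6 : c 21 = c 33 := Classical.byContradiction fun hh => k3788 hh u4 u2 n0
      have u7 : c 41 ≠ c 33 := fun hh => X2.n23 a139 hh u6
      have u8 : c 33 ≠ c 15 := fun hh => tr2 u6 hh u5
      have u9 : c 33 ≠ c 46 := fun hh => tr2 u6 hh u3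
      have u10 : c 33 = c 23 := Classical.byContradiction fun hh => X2.n3 a80 u9 hh u1
      have u11 : c 41 ≠ c 23 := fun hh => tr3 hh u10 u7
      have u12 : c 23 ≠ c 15 := fun hh => tr2 u10 hh u8
      X2.n3 a140 u11 u0 u12
  have k3790 : c 31 = c 19 → c 32 ≠ c 1 → c 41 = c 6 → c 31 = c 21 → c 31 = c 15 → False := fun n0 n1 n2 n3 n4 =>
      have u0 : c 21 = c 15 := Classical.byContradiction fun hh => tr1 n3 n4 hh
      have u1 : c 21 = c 13 := Classical.byContradiction fun hh => k3722 u0 hh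
      have u2 : c 43 = c 32 := Classical.byContradiction fun hh => k3580 u1 hh
      have u3 : c 31 ≠ c 32 := fun hh => k3521 hh n4
      have u4 : c 32 ≠ c 21 := fun hh => tr3 n3 hh u3
      have u5 : c 42 ≠ c 21 := fun hh => X2.n13 a147 hh u0
      have u6 : c 42 = c 32 := Classical.byContradiction fun hh => X2.n3 a148 hh u5 u4
      have u7 : c 42 ≠ c 15 := fun hh => X2.n23 a147 hh u0
      have u8 : c 31 ≠ c 1 := fun hh => X2.n12 a67 n0 hh
      have u9 : c 41 ≠ c 19 := fun hh => X2.n23 a141 hh n0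
      have u10 : c 30 = c 19 := Classical.byContradiction fun hh => k3753 hh n0
      have u11 : c 19 = c 15 := Classical.byContradiction fun hh => tr1 n0 n4 hh
      have u12 : c 1 ≠ c 21 := fun hh => tr3 n3 hh u8
      have u13 : c 30 = c 31 := Classical.byContradiction fun hh => tr3 u10 n0 hh
      have u14 : c 42 ≠ c 19 := fun hh => tr2 hh u11 u7
      have u15 : c 29 ≠ c 32 := fun hh => k3773 hh n1 u4 u12
      have u16 : c 30 ≠ c 10 := fun hh => X2.n12 a60 u13 hh
      have u17 : c 29 ≠ c 42 := fun hh => tr2 hh u6 u15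
      have u18 : c 19 ≠ c 10 := fun hh => tr2 u10 hh u16
      have u19 : c 29 = c 19 := Classical.byContradiction fun hh => X2.n3 a55 u17 hh u14
      have u20 : c 41 = c 10 := Classical.byContradiction fun hh => X2.n3 a136 u9 hh u18
      have u21 : c 29 ≠ c 10 := fun hh => tr1 u19 hh u18
      have u22 : c 10 = c 6 := Classical.byContradiction fun hh => tr1 u20 n2 hh
      have u23 : c 10 = c 32 := Classical.byContradiction fun hh => X2.n3 a48 u21 u15 hh
      have u24 : c 43 ≠ c 10 := fun hh => X2.n13 a151 hh u22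
      tr3 u2 u23 u24
  have k3791 : c 32 ≠ c 1 → c 31 = c 21 → c 41 ≠ c 31 → False := fun n0 n1 n2 =>
      have u0 : c 41 ≠ c 21 := fun hh => tr3 hh n1 n2
      have u1 : c 31 = c 15 := Classical.byContradiction fun hh => k3789 hh n2
      have u2 : c 21 = c 15 := Classical.byContradiction fun hh => tr1 n1 u1 hh
      have u3 : c 21 = c 13 := Classical.byContradiction fun hh => k3722 u2 hh
      have u4 : c 41 ≠ c 13 := fun hh => tr3 hh u3 u0
      have u5 : c 31 = c 13 := Classical.byContradiction fun hh => tr2 n1 u3 hh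
      have u6 : c 43 = c 32 := Classical.byContradiction fun hh => k3580 u3 hh
      have u7 : c 27 = c 13 := Classical.byContradiction fun hh => k3579 u6 hh
      have u8 : c 31 = c 27 := Classical.byContradiction fun hh => tr3 u5 u7 hh
      have u9 : c 31 ≠ c 6 := fun hh => X2.n12 a71 u8 hh
      have u10 : c 13 ≠ c 6 := fun hh => tr2 u5 hh u9
      have u11 : c 41 = c 6 := Classical.byContradiction fun hh => X2.n3 a135 u4 hh u10
      have u12 : c 21 ≠ c 45 := fun hh => X2.n13 a69 n1 hh
      have u13 : c 45 ≠ c 13 := fun hh => tr3 u3 hh u12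
      have u14 : c 31 ≠ c 33 := fun hh => X2.n12 a73 hh u1
      have u15 : c 21 ≠ c 33 := fun hh => tr2 n1 hh u14
      have u16 : c 41 = c 33 := Classical.byContradiction fun hh => X2.n3 a139 u0 hh u15
      have u17 : c 31 ≠ c 2 := fun hh => X2.n12 a68 n1 hh
      have u18 : c 31 ≠ c 32 := fun hh => k3521 hh u1
      have u19 : c 43 ≠ c 1 := fun hh => tr1 u6 hh n0
      have u20 : c 31 ≠ c 19 := fun hh => k3790 hh n0 u11 n1 u1
      have u21 : c 41 = c 19 := Classical.byContradiction fun hh => X2.n3 a141 n2 hh u20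
      have u22 : c 19 ≠ c 13 := fun hh => tr3 u5 hh u20
      have u23 : c 19 ≠ c 1 := fun hh => k3536 u21 hh
      have u24 : c 19 = c 33 := Classical.byContradiction fun hh => tr1 u21 u16 hh
      have u25 : c 19 = c 45 := Classical.byContradiction fun hh => X2.n3 a24 hh u22 u13
      have u26 : c 31 = c 1 := Classical.byContradiction fun hh => X2.n3 a67 u20 hh u23
      have u27 : c 45 = c 33 := Classical.byContradiction fun hh => tr1 u25 u24 hh
      have u28 : c 1 ≠ c 2 := fun hh => tr2 u26 hh u17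
      have u29 : c 43 = c 2 := Classical.byContradiction fun hh => X2.n3 a150 u19 hh u28
      have u30 : c 32 = c 2 := Classical.byContradiction fun hh => tr1 u6 u29 hh
      have u31 : c 19 ≠ c 32 := fun hh => X2.n13 a18 hh u30
      have u32 : c 41 = c 32 := Classical.byContradiction fun hh => k3711 hh n0 u30 u18 u0 n1 u27
      tr1 u21 u32 u31
  have k3792 : c 31 = c 21 → c 41 ≠ c 31 → False := fun n0 n1 =>
      have u0 : c 31 = c 15 := Classical.byContradiction fun hh => k3789 hh n1
      have u1 : c 31 ≠ c 32 := fun hh => k3521 hh u0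
      have u2 : c 31 ≠ c 2 := fun hh => X2.n12 a68 n0 hh
      have u3 : c 41 ≠ c 21 := fun hh => tr3 hh n0 n1
      have u4 : c 21 = c 15 := Classical.byContradiction fun hh => tr1 n0 u0 hh
      have u5 : c 21 = c 13 := Classical.byContradiction fun hh => k3722 u4 hh
      have u6 : c 43 = c 32 := Classical.byContradiction fun hh => k3580 u5 hh
      have u7 : c 32 = c 1 := Classical.byContradiction fun hh => k3791 hh n0 n1
      have u8 : c 41 ≠ c 32 := fun hh => k3525 hh u7
      have u9 : c 43 = c 1 := Classical.byContradiction fun hh => tr2 u6 u7 hh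
      have u10 : c 31 ≠ c 1 := fun hh => tr3 hh u7 u1
      have u11 : c 31 = c 12 := Classical.byContradiction fun hh => k3685 hh u8 u1 u3 n0
      have u12 : c 43 ≠ c 2 := fun hh => X2.n12 a150 u9 hh
      have u13 : c 12 = c 21 := Classical.byContradiction fun hh => tr1 u11 n0 hh
      have u14 : c 32 ≠ c 2 := fun hh => tr2 u6 hh u12
      have u15 : c 40 ≠ c 12 := fun hh => X2.n13 a123 hh u13
      have u16 : c 31 ≠ c 19 := fun hh => k3746 hh u14 u2 u1
      have u17 : c 40 ≠ c 31 := fun hh => tr2 hh u11 u15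
      k3628 u16 u10 u17
  have k3793 : c 43 = c 32 → c 21 ≠ c 15 → False := fun n0 n1 =>
      have u0 : c 32 ≠ c 21 := fun hh => X2.n13 a155 n0 hh
      have u1 : c 21 = c 13 := Classical.byContradiction fun hh => k3624 n0 hh
      have u2 : c 42 = c 21 := Classical.byContradiction fun hh => k3748 hh n1 u0
      X2.n13 a146 u2 u1
  have k3794 : c 31 ≠ c 19 → c 31 ≠ c 1 → c 41 ≠ c 31 → False := fun n0 n1 n2 =>
      have u0 : c 41 = c 19 := Classical.byContradiction fun hh => X2.n3 a141 n2 hh n0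
      have u1 : c 19 = c 1 := Classical.byContradiction fun hh => X2.n3 a67 n0 n1 hh
      k3536 u0 u1
  have k3795 : c 31 ≠ c 2 → c 31 = c 19 → c 32 ≠ c 21 → c 41 ≠ c 31 → False := fun n0 n1 n2 n3 =>
      have u0 : c 31 ≠ c 21 := fun hh => k3792 hh n3
      have u1 : c 31 = c 15 := Classical.byContradiction fun hh => k3789 hh n3
      have u2 : c 31 ≠ c 32 := fun hh => k3521 hh u1
      have u3 : c 21 = c 2 := Classical.byContradiction fun hh => X2.n3 a68 u0 n0 hh
      have u4 : c 32 = c 2 := Classical.byContradiction fun hh => k3746 n1 hh n0 u2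
      tr3 u4 u3 n2
  have k3796 : c 32 = c 1 → c 32 ≠ c 21 → c 41 ≠ c 31 → False := fun n0 n1 n2 =>
      have u0 : c 31 ≠ c 21 := fun hh => k3792 hh n2
      have u1 : c 31 = c 15 := Classical.byContradiction fun hh => k3789 hh n2
      have u2 : c 21 ≠ c 15 := fun hh => tr3 u1 hh u0
      have u3 : c 43 ≠ c 32 := fun hh => k3793 hh u2
      have u4 : c 43 = c 21 := Classical.byContradiction fun hh => X2.n3 a155 u3 hh n1
      have u5 : c 31 ≠ c 43 := fun hh => tr2 hh u4 u0
      have u6 : c 31 ≠ c 32 := fun hh => k3521 hh u1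
      have u7 : c 43 ≠ c 1 := fun hh => tr3 hh n0 u3
      have u8 : c 31 ≠ c 1 := fun hh => tr3 hh n0 u6
      have u9 : c 31 = c 19 := Classical.byContradiction fun hh => k3794 hh u8 n2
      have u10 : c 31 = c 2 := Classical.byContradiction fun hh => k3795 hh u9 n1 n2
      have u11 : c 1 ≠ c 2 := fun hh => tr3 u10 hh u8
      have u12 : c 43 ≠ c 2 := fun hh => tr3 u10 hh u5
      X2.n3 a150 u7 u12 u11
  have k3797 : c 12 = c 21 → c 32 ≠ c 21 → c 41 ≠ c 31 → False := fun n0 n1 n2 =>
      have u0 : c 31 ≠ c 21 := fun hh => k3792 hh n2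
      have u1 : c 31 = c 15 := Classical.byContradiction fun hh => k3789 hh n2
      have u2 : c 31 ≠ c 32 := fun hh => k3521 hh u1
      have u3 : c 32 ≠ c 12 := fun hh => tr2 hh n0 n1
      have u4 : c 31 ≠ c 12 := fun hh => tr2 hh n0 u0
      X2.n3 a72 u2 u4 u3
  have k3798 : c 31 = c 19 → c 32 ≠ c 21 → c 41 ≠ c 31 → False := fun n0 n1 n2 =>
      have u0 : c 31 = c 15 := Classical.byContradiction fun hh => k3789 hh n2
      have u1 : c 31 ≠ c 21 := fun hh => k3792 hh n2
      have u2 : c 21 ≠ c 15 := fun hh => tr3 u0 hh u1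
      have u3 : c 43 ≠ c 32 := fun hh => k3793 hh u2
      have u4 : c 43 = c 21 := Classical.byContradiction fun hh => X2.n3 a155 u3 hh n1
      have u5 : c 12 ≠ c 21 := fun hh => k3797 hh n1 n2
      have u6 : c 43 ≠ c 12 := fun hh => tr1 hh u4 u5
      have u7 : c 31 ≠ c 43 := fun hh => tr2 hh u4 u1
      have u8 : c 41 ≠ c 19 := fun hh => X2.n23 a141 hh n0
      have u9 : c 41 ≠ c 21 := fun hh => k3775 n1 u3 n0 hh u1
      have u10 : c 19 ≠ c 43 := fun hh => tr2 n0 hh u7
      have u11 : c 41 = c 12 := Classical.byContradiction fun hh => X2.n3 a133 hh u9 u5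
      have u12 : c 19 ≠ c 12 := fun hh => tr3 u11 hh u8
      X2.n3 a21 u10 u12 u6
  have k3799 : c 31 = c 2 → c 38 ≠ c 25 → c 18 = c 31 → c 34 ≠ c 1 → c 38 = c 18 → c 10 = c 21 → c 10 ≠ c 27 → c 11 = c 21 → c 19 ≠ c 2 → c 31 ≠ c 11 → c 19 ≠ c 10 → c 31 = c 1 → False := fun n0 n1 n2 n3 n4 n5 n6 n7 n8 n9 n10 n11 =>
      have u0 : c 35 ≠ c 11 := fun hh => k3529 hh n7
      have u1 : c 1 = c 2 := Classical.byContradiction fun hh => tr1 n11 n0 hh
      have u2 : c 11 ≠ c 2 := fun hh => tr3 n0 hh n9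
      have u3 : c 18 = c 2 := Classical.byContradiction fun hh => tr2 n2 n0 hh
      have u4 : c 35 = c 2 := Classical.byContradiction fun hh => X2.n3 a88 u0 hh u2
      have u5 : c 19 ≠ c 35 := fun hh => tr2 hh u4 n8
      have u6 : c 35 = c 1 := Classical.byContradiction fun hh => tr3 u4 u1 hh
      have u7 : c 18 = c 35 := Classical.byContradiction fun hh => tr3 u3 u4 hh
      have u8 : c 34 ≠ c 35 := fun hh => tr2 hh u6 n3
      have u9 : c 38 = c 35 := Classical.byContradiction fun hh => tr2 n4 u7 hh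
      have u10 : c 34 = c 19 := Classical.byContradiction fun hh => X2.n3 a84 hh u8 u5
      have u11 : c 25 ≠ c 35 := fun hh => tr3 u9 hh n1
      have u12 : c 34 ≠ c 10 := fun hh => tr1 u10 hh n10
      have u13 : c 25 = c 11 := Classical.byContradiction fun hh => X2.n3 a29 u11 hh u0
      have u14 : c 25 ≠ c 1 := fun hh => tr3 hh u6 u11
      have u15 : c 34 ≠ c 21 := fun hh => tr3 hh n5 u12
      have u16 : c 34 = c 27 := Classical.byContradiction fun hh => X2.n3 a83 u12 hh n6
      have u17 : c 25 = c 21 := Classical.byContradiction fun hh => tr2 u13 n7 hh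
      have u18 : c 1 ≠ c 27 := fun hh => tr3 u16 hh n3
      have u19 : c 34 ≠ c 25 := fun hh => tr2 hh u17 u15
      have u20 : c 25 = c 27 := Classical.byContradiction fun hh => X2.n3 a27 u14 hh u18
      tr3 u16 u20 u19
  have k3800 : c 41 = c 12 → c 32 ≠ c 21 → c 41 ≠ c 31 → False := fun n0 n1 n2 =>
      have u0 : c 46 ≠ c 23 := fun hh => k3725 hh
      have u1 : c 31 ≠ c 19 := fun hh => k3798 hh n1 n2
      have u2 : c 31 = c 1 := Classical.byContradiction fun hh => k3794 u1 hh n2
      have u3 : c 41 = c 19 := Classical.byContradiction fun hh => X2.n3 a141 n2 hh u1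
      have u4 : c 19 ≠ c 1 := fun hh => k3536 u3 hh
      have u5 : c 30 ≠ c 19 := fun hh => X2.n23 a64 hh u3
      have u6 : c 30 = c 1 := Classical.byContradiction fun hh => X2.n3 a57 u5 hh u4
      have u7 : c 30 = c 31 := Classical.byContradiction fun hh => tr3 u6 u2 hh
      have u8 : c 31 ≠ c 11 := fun hh => X2.n13 a61 u7 hh
      have u9 : c 32 ≠ c 1 := fun hh => k3796 hh n1 n2
      have u10 : c 31 ≠ c 21 := fun hh => k3792 hh n2
      have u11 : c 1 ≠ c 21 := fun hh => tr2 u2 hh u10
      have u12 : c 29 ≠ c 32 := fun hh => k3773 hh u9 n1 u11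
      have u13 : c 31 = c 15 := Classical.byContradiction fun hh => k3789 hh n2
      have u14 : c 31 ≠ c 33 := fun hh => X2.n12 a73 hh u13
      have u15 : c 1 ≠ c 33 := fun hh => tr2 u2 hh u14
      have u16 : c 19 ≠ c 10 := fun hh => X2.n13 a136 u3 hh
      have u17 : c 41 ≠ c 10 := fun hh => X2.n12 a136 u3 hh
      have u18 : c 41 ≠ c 11 := fun hh => X2.n12 a137 u3 hh
      have u19 : c 21 ≠ c 15 := fun hh => tr3 u13 hh u10
      have u20 : c 42 = c 21 := Classical.byContradiction fun hh => k3748 hh u19 n1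
      have u21 : c 43 ≠ c 32 := fun hh => k3793 hh u19
      have u22 : c 43 = c 21 := Classical.byContradiction fun hh => X2.n3 a155 u21 hh n1
      have u23 : c 42 = c 43 := Classical.byContradiction fun hh => tr3 u20 u22 hh
      have u24 : c 42 ≠ c 27 := fun hh => X2.n12 a149 u23 hh
      have u25 : c 31 ≠ c 32 := fun hh => k3521 hh u13
      have u26 : c 12 ≠ c 22 := fun hh => X2.n13 a134 n0 hh
      have u27 : c 31 ≠ c 12 := fun hh => tr3 n0 hh n2
      have u28 : c 19 = c 12 := Classical.byContradiction fun hh => tr1 u3 n0 hh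
      have u29 : c 32 = c 12 := Classical.byContradiction fun hh => X2.n3 a72 u25 u27 hh
      have u30 : c 42 ≠ c 19 := fun hh => X2.n13 a145 hh u28
      have u31 : c 19 ≠ c 43 := fun hh => X2.n12 a21 hh u28
      have u32 : c 41 = c 32 := Classical.byContradiction fun hh => tr3 n0 u29 hh
      have u33 : c 19 = c 32 := Classical.byContradiction fun hh => tr3 u28 u29 hh
      have u34 : c 32 ≠ c 22 := fun hh => tr1 u29 hh u26
      have u35 : c 32 ≠ c 11 := fun hh => tr2 u32 hh u18
      have u36 : c 10 ≠ c 32 := fun hh => tr3 u32 hh u17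
      have u37 : c 38 ≠ c 19 := fun hh => X2.n13 a108 hh u33
      have u38 : c 38 ≠ c 32 := fun hh => X2.n23 a108 hh u33
      have u39 : c 19 ≠ c 2 := fun hh => X2.n12 a18 u33 hh
      have u40 : c 32 ≠ c 2 := fun hh => X2.n13 a18 u33 hh
      have u41 : c 29 ≠ c 19 := fun hh => tr2 hh u33 u12
      have u42 : c 43 = c 22 := Classical.byContradiction fun hh => X2.n3 a156 u21 hh u34
      have u43 : c 29 = c 11 := Classical.byContradiction fun hh => X2.n3 a54 u12 hh u35
      have u44 : c 29 = c 10 := Classical.byContradiction fun hh => X2.n3 a48 hh u12 u36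
      have u45 : c 38 ≠ c 12 := fun hh => tr3 hh u28 u37
      have u46 : c 29 = c 42 := Classical.byContradiction fun hh => X2.n3 a55 hh u41 u30
      have u47 : c 29 = c 43 := Classical.byContradiction fun hh => X2.n3 a51 u41 hh u31
      have u48 : c 11 = c 21 := Classical.byContradiction fun hh => k3666 u43 u8 hh u11 u2
      have u49 : c 29 ≠ c 27 := fun hh => tr1 u46 hh u24
      have u50 : c 29 = c 21 := Classical.byContradiction fun hh => tr2 u47 u22 hh
      have u51 : c 29 = c 22 := Classical.byContradiction fun hh => tr2 u47 u42 hh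
      have u52 : c 43 = c 10 := Classical.byContradiction fun hh => tr1 u47 u44 hh
      have u53 : c 38 ≠ c 11 := fun hh => X2.n13 a105 hh u48
      have u54 : c 10 ≠ c 27 := fun hh => tr2 u44 hh u49
      have u55 : c 10 = c 21 := Classical.byContradiction fun hh => tr1 u44 u50 hh
      have u56 : c 10 = c 22 := Classical.byContradiction fun hh => tr1 u44 u51 hh
      have u57 : c 18 ≠ c 43 := fun hh => X2.n13 a14 hh u52
      have u58 : c 38 ≠ c 29 := fun hh => tr2 hh u43 u53
      have u59 : c 39 ≠ c 10 := fun hh => X2.n13 a115 hh u56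
      have u60 : c 29 ≠ c 18 := fun hh => tr1 hh u47 u57
      have u61 : c 38 = c 18 := Classical.byContradiction fun hh => X2.n3 a112 u58 hh u60
      have u62 : c 39 ≠ c 29 := fun hh => tr2 hh u44 u59
      have u63 : c 18 ≠ c 32 := fun hh => tr2 u61 hh u38
      have u64 : c 18 ≠ c 12 := fun hh => tr2 u61 hh u45
      have u65 : c 39 = c 18 := Classical.byContradiction fun hh => X2.n3 a119 u62 hh u60
      have u66 : c 18 = c 1 := Classical.byContradiction fun hh => X2.n3 a11 u63 hh u9
      have u67 : c 38 = c 39 := Classical.byContradiction fun hh => tr3 u61 u65 hh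
      have u68 : c 34 ≠ c 1 := fun hh => k3533 hh u66
      have u69 : c 18 = c 31 := Classical.byContradiction fun hh => tr3 u66 u2 hh
      have u70 : c 18 ≠ c 33 := fun hh => tr1 u66 hh u15
      have u71 : c 38 ≠ c 25 := fun hh => X2.n12 a113 u67 hh
      have u72 : c 31 ≠ c 2 := fun hh => k3799 hh u71 u69 u68 u61 u55 u54 u48 u39 u8 u16 u2
      have u73 : c 21 = c 2 := Classical.byContradiction fun hh => X2.n3 a68 u10 u72 hh
      have u74 : c 18 ≠ c 2 := fun hh => tr1 u69 hh u72
      have u75 : c 29 = c 2 := Classical.byContradiction fun hh => tr2 u50 u73 hh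
      have u76 : c 2 = c 33 := Classical.byContradiction fun hh => X2.n3 a8 u74 u70 hh
      have u77 : c 2 ≠ c 23 := fun hh => X2.n13 a46 u75 hh
      have u78 : c 32 ≠ c 33 := fun hh => tr3 hh u76 u40
      have u79 : c 33 ≠ c 23 := fun hh => tr2 u76 hh u77
      have u80 : c 12 ≠ c 33 := fun hh => tr2 u29 hh u78
      have u81 : c 33 = c 46 := Classical.byContradiction fun hh => X2.n3 a80 hh u79 u0
      have u82 : c 12 ≠ c 46 := fun hh => tr3 hh u81 u80
      have u83 : c 31 ≠ c 46 := fun hh => tr3 hh u81 u14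
      have u84 : c 18 = c 46 := Classical.byContradiction fun hh => X2.n3 a10 u64 hh u82
      tr1 u69 u84 u83
  have k3801 : c 32 ≠ c 21 → c 41 ≠ c 31 → False := fun n0 n1 =>
      have u0 : c 31 = c 15 := Classical.byContradiction fun hh => k3789 hh n1
      have u1 : c 31 ≠ c 21 := fun hh => k3792 hh n1
      have u2 : c 21 ≠ c 15 := fun hh => tr3 u0 hh u1
      have u3 : c 43 ≠ c 32 := fun hh => k3793 hh u2
      have u4 : c 31 ≠ c 32 := fun hh => k3521 hh u0
      have u5 : c 31 ≠ c 33 := fun hh => X2.n12 a73 hh u0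
      have u6 : c 43 = c 21 := Classical.byContradiction fun hh => X2.n3 a155 u3 hh n0
      have u7 : c 32 ≠ c 1 := fun hh => k3796 hh n0 n1
      have u8 : c 12 ≠ c 21 := fun hh => k3797 hh n0 n1
      have u9 : c 43 ≠ c 12 := fun hh => tr1 hh u6 u8
      have u10 : c 31 ≠ c 19 := fun hh => k3798 hh n0 n1
      have u11 : c 41 = c 19 := Classical.byContradiction fun hh => X2.n3 a141 n1 hh u10
      have u12 : c 31 = c 1 := Classical.byContradiction fun hh => k3794 u10 hh n1
      have u13 : c 41 ≠ c 11 := fun hh => X2.n12 a137 u11 hh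
      have u14 : c 30 ≠ c 19 := fun hh => X2.n23 a64 hh u11
      have u15 : c 19 ≠ c 1 := fun hh => k3536 u11 hh
      have u16 : c 1 ≠ c 21 := fun hh => tr2 u12 hh u1
      have u17 : c 1 ≠ c 33 := fun hh => tr2 u12 hh u5
      have u18 : c 30 = c 1 := Classical.byContradiction fun hh => X2.n3 a57 u14 hh u15
      have u19 : c 29 ≠ c 32 := fun hh => k3773 hh u7 n0 u16
      have u20 : c 30 = c 31 := Classical.byContradiction fun hh => tr3 u18 u12 hh
      have u21 : c 31 ≠ c 11 := fun hh => X2.n13 a61 u20 hh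
      have u22 : c 41 ≠ c 12 := fun hh => k3800 hh n0 n1
      have u23 : c 41 = c 21 := Classical.byContradiction fun hh => X2.n3 a133 u22 hh u8
      have u24 : c 19 ≠ c 12 := fun hh => tr2 u11 hh u22
      have u25 : c 41 ≠ c 33 := fun hh => X2.n12 a139 u23 hh
      have u26 : c 32 = c 33 := Classical.byContradiction fun hh => k3769 u4 u17 u11 u10 hh u23 u1
      have u27 : c 41 ≠ c 32 := fun hh => tr1 hh u23 n0
      have u28 : c 11 ≠ c 21 := fun hh => tr3 u23 hh u13
      have u29 : c 19 = c 43 := Classical.byContradiction fun hh => X2.n3 a21 hh u24 u9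
      have u30 : c 19 ≠ c 32 := fun hh => tr2 u11 hh u27
      have u31 : c 29 ≠ c 11 := fun hh => k3666 hh u21 u28 u16 u12
      have u32 : c 29 ≠ c 43 := fun hh => X2.n23 a51 hh u29
      have u33 : c 18 = c 33 := Classical.byContradiction fun hh => k3768 u30 hh u4 u11 u10 u23 u1
      have u34 : c 31 ≠ c 2 := fun hh => k3647 hh u30 u4 u10
      have u35 : c 32 = c 11 := Classical.byContradiction fun hh => X2.n3 a54 u19 u31 hh
      have u36 : c 29 ≠ c 21 := fun hh => tr3 hh u6 u32
      have u37 : c 2 ≠ c 33 := fun hh => X2.n23 a8 u33 hh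
      have u38 : c 18 ≠ c 41 := fun hh => tr1 hh u33 u25
      have u39 : c 18 = c 32 := Classical.byContradiction fun hh => tr3 u33 u26 hh
      have u40 : c 18 ≠ c 1 := fun hh => tr1 hh u33 u17
      have u41 : c 21 = c 2 := Classical.byContradiction fun hh => X2.n3 a68 u1 u34 hh
      have u42 : c 11 = c 33 := Classical.byContradiction fun hh => tr1 u35 u26 hh
      have u43 : c 29 = c 1 := Classical.byContradiction fun hh => X2.n3 a44 hh u36 u16
      have u44 : c 32 ≠ c 2 := fun hh => tr1 hh u26 u37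
      have u45 : c 18 = c 11 := Classical.byContradiction fun hh => tr2 u39 u35 hh
      have u46 : c 35 ≠ c 2 := fun hh => k3496 hh u41
      have u47 : c 11 ≠ c 2 := fun hh => tr3 hh u41 u28
      have u48 : c 28 ≠ c 11 := fun hh => X2.n13 a37 hh u42
      have u49 : c 8 ≠ c 1 := fun hh => k3519 u43 hh
      have u50 : c 19 = c 2 := Classical.byContradiction fun hh => X2.n3 a18 u30 hh u44
      have u51 : c 28 ≠ c 18 := fun hh => tr2 hh u45 u48
      have u52 : c 19 ≠ c 35 := fun hh => tr1 hh u50 u46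
      have u53 : c 35 = c 11 := Classical.byContradiction fun hh => X2.n3 a88 hh u46 u47
      have u54 : c 31 ≠ c 8 := fun hh => tr1 hh u12 u49
      have u55 : c 28 = c 41 := Classical.byContradiction fun hh => X2.n3 a38 u51 hh u38
      have u56 : c 18 = c 35 := Classical.byContradiction fun hh => tr3 u45 u53 hh
      have u57 : c 28 = c 19 := Classical.byContradiction fun hh => tr2 u55 u11 hh
      have u58 : c 28 ≠ c 31 := fun hh => tr1 u55 hh n1
      have u59 : c 35 ≠ c 1 := fun hh => tr2 u56 hh u40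
      have u60 : c 28 = c 8 := Classical.byContradiction fun hh => X2.n3 a43 u58 hh u54
      have u61 : c 8 = c 35 := Classical.byContradiction fun hh => X2.n3 a1 hh u49 u59
      have u62 : c 8 = c 19 := Classical.byContradiction fun hh => tr1 u60 u57 hh
      tr1 u62 u61 u52
  have k3802 : c 29 = c 32 → c 19 ≠ c 32 → c 42 ≠ c 19 → c 42 ≠ c 32 → False := fun n0 n1 n2 n3 =>
      have u0 : c 29 ≠ c 19 := fun hh => tr1 hh n0 n1
      have u1 : c 29 ≠ c 42 := fun hh => tr1 hh n0 n3
      X2.n3 a55 u1 u0 n2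
  have k3803 : c 18 ≠ c 1 → c 38 ≠ c 29 → c 38 ≠ c 32 → c 29 = c 1 → c 32 ≠ c 1 → False := fun n0 n1 n2 n3 n4 =>
      have u0 : c 18 = c 32 := Classical.byContradiction fun hh => X2.n3 a11 hh n0 n4
      have u1 : c 29 ≠ c 18 := fun hh => tr1 hh n3 n0
      have u2 : c 38 ≠ c 18 := fun hh => tr2 hh u0 n2
      X2.n3 a112 n1 u2 u1
  have k3804 : c 41 = c 19 → c 41 ≠ c 31 → False := fun n0 n1 =>
      have u0 : c 41 ≠ c 15 := fun hh => k3762 hh
      have u1 : c 31 = c 15 := Classical.byContradiction fun hh => k3789 hh n1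
      have u2 : c 31 ≠ c 21 := fun hh => k3792 hh n1
      have u3 : c 21 ≠ c 15 := fun hh => tr3 u1 hh u2
      have u4 : c 32 = c 21 := Classical.byContradiction fun hh => k3801 hh n1
      have u5 : c 42 ≠ c 21 := fun hh => X2.n23 a148 hh u4
      have u6 : c 42 = c 15 := Classical.byContradiction fun hh => X2.n3 a147 u5 hh u3
      have u7 : c 43 ≠ c 32 := fun hh => k3793 hh u3
      have u8 : c 21 ≠ c 13 := fun hh => k3580 hh u7
      have u9 : c 43 ≠ c 21 := fun hh => X2.n23 a155 hh u4
      have u10 : c 43 = c 13 := Classical.byContradiction fun hh => X2.n3 a154 u9 hh u8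
      have u11 : c 42 = c 13 := Classical.byContradiction fun hh => X2.n3 a146 u5 hh u8
      have u12 : c 42 = c 43 := Classical.byContradiction fun hh => tr3 u11 u10 hh
      have u13 : c 43 = c 15 := Classical.byContradiction fun hh => tr1 u12 u6 hh
      have u14 : c 31 = c 43 := Classical.byContradiction fun hh => tr3 u1 u13 hh
      have u15 : c 42 ≠ c 32 := fun hh => X2.n13 a148 hh u4
      have u16 : c 31 ≠ c 32 := fun hh => k3521 hh u1
      have u17 : c 31 ≠ c 19 := fun hh => X2.n23 a141 n0 hh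
      have u18 : c 30 ≠ c 19 := fun hh => X2.n23 a64 hh n0
      have u19 : c 19 ≠ c 1 := fun hh => k3536 n0 hh
      have u20 : c 19 ≠ c 15 := fun hh => tr2 n0 hh u0
      have u21 : c 31 = c 1 := Classical.byContradiction fun hh => k3794 u17 hh n1
      have u22 : c 30 = c 1 := Classical.byContradiction fun hh => X2.n3 a57 u18 hh u19
      have u23 : c 42 ≠ c 19 := fun hh => tr1 hh u6 u20
      have u24 : c 1 ≠ c 21 := fun hh => tr2 u21 hh u2
      have u25 : c 40 ≠ c 31 := fun hh => k3523 hh u21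
      have u26 : c 32 ≠ c 1 := fun hh => tr3 u21 hh u16
      have u27 : c 43 = c 1 := Classical.byContradiction fun hh => tr1 u14 u21 hh
      have u28 : c 30 = c 31 := Classical.byContradiction fun hh => tr3 u22 u21 hh
      have u29 : c 40 = c 19 := Classical.byContradiction fun hh => X2.n3 a130 u25 hh u17
      have u30 : c 43 ≠ c 2 := fun hh => X2.n12 a150 u27 hh
      have u31 : c 31 ≠ c 10 := fun hh => X2.n13 a60 u28 hh
      have u32 : c 31 ≠ c 2 := fun hh => tr1 u14 hh u30
      have u33 : c 43 ≠ c 10 := fun hh => tr2 u14 hh u31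
      have u34 : c 21 = c 2 := Classical.byContradiction fun hh => X2.n3 a68 u2 u32 hh
      have u35 : c 32 = c 2 := Classical.byContradiction fun hh => tr2 u4 u34 hh
      have u36 : c 19 ≠ c 32 := fun hh => X2.n13 a18 hh u35
      have u37 : c 29 ≠ c 32 := fun hh => k3802 hh u36 u23 u15
      have u38 : c 29 ≠ c 21 := fun hh => tr3 hh u4 u37
      have u39 : c 29 = c 1 := Classical.byContradiction fun hh => X2.n3 a44 hh u38 u24
      have u40 : c 29 ≠ c 19 := fun hh => tr1 hh u39 u19
      have u41 : c 29 = c 43 := Classical.byContradiction fun hh => tr3 u39 u27 hh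
      have u42 : c 29 = c 31 := Classical.byContradiction fun hh => tr3 u39 u21 hh
      have u43 : c 29 ≠ c 10 := fun hh => tr1 u41 hh u33
      have u44 : c 31 ≠ c 9 := fun hh => X2.n13 a53 u42 hh
      have u45 : c 10 = c 32 := Classical.byContradiction fun hh => X2.n3 a48 u43 u37 hh
      have u46 : c 10 = c 21 := Classical.byContradiction fun hh => tr2 u45 u4 hh
      have u47 : c 38 ≠ c 10 := fun hh => X2.n13 a103 hh u46
      have u48 : c 38 ≠ c 32 := fun hh => tr3 hh u45 u47
      have u49 : c 38 = c 19 := Classical.byContradiction fun hh => X2.n3 a108 hh u48 u36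
      have u50 : c 9 ≠ c 19 := fun hh => X2.n23 a102 u49 hh
      have u51 : c 38 ≠ c 29 := fun hh => tr1 hh u49 u40
      have u52 : c 40 ≠ c 9 := fun hh => tr1 hh u29 u50
      have u53 : c 18 = c 1 := Classical.byContradiction fun hh => k3803 hh u51 u48 u39 u26
      have u54 : c 40 ≠ c 18 := fun hh => k3497 hh u53
      have u55 : c 18 = c 31 := Classical.byContradiction fun hh => tr3 u53 u21 hh
      have u56 : c 18 = c 9 := Classical.byContradiction fun hh => X2.n3 a124 u54 u52 hh
      tr1 u55 u56 u44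
  have k3805 : c 18 = c 1 → c 41 ≠ c 31 → False := fun n0 n1 =>
      have u0 : c 41 ≠ c 19 := fun hh => k3804 hh n1
      have u1 : c 31 = c 19 := Classical.byContradiction fun hh => X2.n3 a141 n1 u0 hh
      have u2 : c 40 ≠ c 19 := fun hh => X2.n23 a130 hh u1
      have u3 : c 30 = c 19 := Classical.byContradiction fun hh => k3753 hh u1
      have u4 : c 30 = c 31 := Classical.byContradiction fun hh => tr3 u3 u1 hh
      have u5 : c 30 ≠ c 10 := fun hh => X2.n12 a60 u4 hh
      have u6 : c 19 ≠ c 10 := fun hh => tr2 u3 hh u5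
      have u7 : c 40 = c 10 := Classical.byContradiction fun hh => X2.n3 a125 u2 hh u6
      have u8 : c 31 = c 15 := Classical.byContradiction fun hh => k3789 hh n1
      have u9 : c 31 ≠ c 21 := fun hh => k3792 hh n1
      have u10 : c 21 ≠ c 15 := fun hh => tr3 u8 hh u9
      have u11 : c 32 = c 21 := Classical.byContradiction fun hh => k3801 hh n1
      have u12 : c 42 ≠ c 21 := fun hh => X2.n23 a148 hh u11
      have u13 : c 42 = c 15 := Classical.byContradiction fun hh => X2.n3 a147 u12 hh u10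
      have u14 : c 43 ≠ c 32 := fun hh => k3793 hh u10
      have u15 : c 21 ≠ c 13 := fun hh => k3580 hh u14
      have u16 : c 43 ≠ c 21 := fun hh => X2.n23 a155 hh u11
      have u17 : c 43 = c 13 := Classical.byContradiction fun hh => X2.n3 a154 u16 hh u15
      have u18 : c 42 = c 13 := Classical.byContradiction fun hh => X2.n3 a146 u12 hh u15
      have u19 : c 42 = c 43 := Classical.byContradiction fun hh => tr3 u18 u17 hh
      have u20 : c 43 = c 15 := Classical.byContradiction fun hh => tr1 u19 u13 hh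
      have u21 : c 31 = c 43 := Classical.byContradiction fun hh => tr3 u8 u20 hh
      have u22 : c 31 ≠ c 10 := fun hh => X2.n13 a60 u4 hh
      have u23 : c 43 ≠ c 10 := fun hh => tr2 u21 hh u22
      have u24 : c 31 ≠ c 1 := fun hh => X2.n12 a67 u1 hh
      have u25 : c 43 ≠ c 1 := fun hh => tr2 u21 hh u24
      have u26 : c 40 ≠ c 18 := fun hh => k3497 hh n0
      have u27 : c 18 ≠ c 43 := fun hh => tr1 hh n0 u25
      have u28 : c 18 ≠ c 10 := fun hh => tr3 u7 hh u26
      X2.n3 a14 u27 u28 u23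
  have k3806 : c 38 ≠ c 29 → c 18 ≠ c 10 → c 41 ≠ c 31 → False := fun n0 n1 n2 =>
      have u0 : c 31 = c 15 := Classical.byContradiction fun hh => k3789 hh n2
      have u1 : c 31 ≠ c 21 := fun hh => k3792 hh n2
      have u2 : c 21 ≠ c 15 := fun hh => tr3 u0 hh u1
      have u3 : c 43 ≠ c 32 := fun hh => k3793 hh u2
      have u4 : c 21 ≠ c 13 := fun hh => k3580 hh u3
      have u5 : c 32 = c 21 := Classical.byContradiction fun hh => k3801 hh n2
      have u6 : c 43 ≠ c 21 := fun hh => X2.n23 a155 hh u5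
      have u7 : c 43 = c 13 := Classical.byContradiction fun hh => X2.n3 a154 u6 hh u4
      have u8 : c 42 ≠ c 21 := fun hh => X2.n23 a148 hh u5
      have u9 : c 42 = c 15 := Classical.byContradiction fun hh => X2.n3 a147 u8 hh u2
      have u10 : c 42 = c 13 := Classical.byContradiction fun hh => X2.n3 a146 u8 hh u4
      have u11 : c 42 = c 43 := Classical.byContradiction fun hh => tr3 u10 u7 hh
      have u12 : c 43 = c 15 := Classical.byContradiction fun hh => tr1 u11 u9 hh
      have u13 : c 31 = c 43 := Classical.byContradiction fun hh => tr3 u0 u12 hh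
      have u14 : c 41 ≠ c 19 := fun hh => k3804 hh n2
      have u15 : c 31 = c 19 := Classical.byContradiction fun hh => X2.n3 a141 n2 u14 hh
      have u16 : c 30 = c 19 := Classical.byContradiction fun hh => k3753 hh u15
      have u17 : c 30 = c 31 := Classical.byContradiction fun hh => tr3 u16 u15 hh
      have u18 : c 31 ≠ c 10 := fun hh => X2.n13 a60 u17 hh
      have u19 : c 43 ≠ c 10 := fun hh => tr2 u13 hh u18
      have u20 : c 18 = c 43 := Classical.byContradiction fun hh => X2.n3 a14 hh n1 u19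
      have u21 : c 18 = c 13 := Classical.byContradiction fun hh => tr2 u20 u7 hh
      have u22 : c 31 ≠ c 33 := fun hh => X2.n12 a73 hh u0
      have u23 : c 33 ≠ c 15 := fun hh => X2.n23 a73 u0 hh
      have u24 : c 42 ≠ c 33 := fun hh => tr1 hh u9 u23
      have u25 : c 13 ≠ c 33 := fun hh => tr2 u10 hh u24
      have u26 : c 31 = c 13 := Classical.byContradiction fun hh => X2.n3 a66 hh u22 u25
      have u27 : c 19 = c 13 := Classical.byContradiction fun hh => tr1 u15 u26 hh
      have u28 : c 34 ≠ c 13 := fun hh => k3511 hh u21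
      have u29 : c 34 ≠ c 19 := fun hh => tr2 hh u27 u28
      have u30 : c 31 ≠ c 32 := fun hh => k3521 hh u0
      have u31 : c 19 = c 43 := Classical.byContradiction fun hh => tr1 u15 u13 hh
      have u32 : c 19 ≠ c 12 := fun hh => X2.n12 a21 u31 hh
      have u33 : c 31 ≠ c 12 := fun hh => tr1 u15 hh u32
      have u34 : c 32 = c 12 := Classical.byContradiction fun hh => X2.n3 a72 u30 u33 hh
      have u35 : c 19 = c 15 := Classical.byContradiction fun hh => tr1 u15 u0 hh
      have u36 : c 19 ≠ c 44 := fun hh => X2.n12 a23 hh u35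
      have u37 : c 31 ≠ c 44 := fun hh => tr1 u15 hh u36
      have u38 : c 44 = c 21 := Classical.byContradiction fun hh => X2.n3 a74 u37 u1 hh
      have u39 : c 12 = c 21 := Classical.byContradiction fun hh => tr1 u34 u5 hh
      have u40 : c 44 = c 12 := Classical.byContradiction fun hh => tr3 u38 u39 hh
      have u41 : c 18 ≠ c 12 := fun hh => X2.n23 a16 hh u40
      have u42 : c 18 ≠ c 32 := fun hh => tr2 hh u34 u41
      have u43 : c 18 ≠ c 1 := fun hh => k3805 hh n2
      have u44 : c 32 = c 1 := Classical.byContradiction fun hh => X2.n3 a11 u42 u43 hh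
      have u45 : c 1 = c 21 := Classical.byContradiction fun hh => tr1 u44 u5 hh
      have u46 : c 35 ≠ c 1 := fun hh => k3516 hh u45
      have u47 : c 31 ≠ c 1 := fun hh => X2.n12 a67 u15 hh
      have u48 : c 1 ≠ c 13 := fun hh => tr3 u26 hh u47
      have u49 : c 34 = c 1 := Classical.byContradiction fun hh => X2.n3 a81 hh u28 u48
      have u50 : c 34 ≠ c 35 := fun hh => tr1 hh u49 u46
      have u51 : c 19 = c 35 := Classical.byContradiction fun hh => X2.n3 a84 u29 u50 hh
      have u52 : c 35 = c 13 := Classical.byContradiction fun hh => tr1 u51 u27 hh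
      have u53 : c 18 = c 35 := Classical.byContradiction fun hh => tr3 u21 u52 hh
      have u54 : c 19 ≠ c 32 := fun hh => tr2 u15 hh u30
      have u55 : c 41 ≠ c 12 := fun hh => X2.n13 a133 hh u39
      have u56 : c 41 ≠ c 32 := fun hh => tr2 hh u34 u55
      have u57 : c 10 ≠ c 32 := fun hh => k3751 hh u54 u14 u56
      have u58 : c 29 ≠ c 1 := fun hh => X2.n13 a44 hh u45
      have u59 : c 29 ≠ c 32 := fun hh => tr2 hh u44 u58
      have u60 : c 29 = c 10 := Classical.byContradiction fun hh => X2.n3 a48 hh u59 u57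
      have u61 : c 29 ≠ c 18 := fun hh => tr1 hh u60 n1
      have u62 : c 30 ≠ c 10 := fun hh => X2.n12 a60 u17 hh
      have u63 : c 19 ≠ c 10 := fun hh => tr2 u16 hh u62
      have u64 : c 41 = c 10 := Classical.byContradiction fun hh => X2.n3 a136 u14 hh u63
      have u65 : c 41 ≠ c 21 := fun hh => X2.n23 a133 hh u39
      have u66 : c 10 ≠ c 21 := fun hh => tr2 u64 hh u65
      have u67 : c 38 ≠ c 10 := fun hh => tr3 hh u60 n0
      have u68 : c 38 = c 18 := Classical.byContradiction fun hh => X2.n3 a112 n0 hh u61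
      have u69 : c 38 = c 21 := Classical.byContradiction fun hh => X2.n3 a103 u67 hh u66
      have u70 : c 38 = c 35 := Classical.byContradiction fun hh => tr2 u68 u53 hh
      k3520 u70 u69
  have k3807 : c 38 = c 29 → c 41 ≠ c 31 → False := fun n0 n1 =>
      have u0 : c 31 = c 15 := Classical.byContradiction fun hh => k3789 hh n1
      have u1 : c 31 ≠ c 32 := fun hh => k3521 hh u0
      have u2 : c 41 ≠ c 19 := fun hh => k3804 hh n1
      have u3 : c 31 = c 19 := Classical.byContradiction fun hh => X2.n3 a141 n1 u2 hh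
      have u4 : c 31 ≠ c 21 := fun hh => k3792 hh n1
      have u5 : c 21 ≠ c 15 := fun hh => tr3 u0 hh u4
      have u6 : c 32 = c 21 := Classical.byContradiction fun hh => k3801 hh n1
      have u7 : c 42 ≠ c 21 := fun hh => X2.n23 a148 hh u6
      have u8 : c 42 = c 15 := Classical.byContradiction fun hh => X2.n3 a147 u7 hh u5
      have u9 : c 43 ≠ c 32 := fun hh => k3793 hh u5
      have u10 : c 21 ≠ c 13 := fun hh => k3580 hh u9
      have u11 : c 43 ≠ c 21 := fun hh => X2.n23 a155 hh u6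
      have u12 : c 43 = c 13 := Classical.byContradiction fun hh => X2.n3 a154 u11 hh u10
      have u13 : c 42 = c 13 := Classical.byContradiction fun hh => X2.n3 a146 u7 hh u10
      have u14 : c 42 = c 43 := Classical.byContradiction fun hh => tr3 u13 u12 hh
      have u15 : c 43 = c 15 := Classical.byContradiction fun hh => tr1 u14 u8 hh
      have u16 : c 31 = c 43 := Classical.byContradiction fun hh => tr3 u0 u15 hh
      have u17 : c 19 = c 43 := Classical.byContradiction fun hh => tr1 u3 u16 hh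
      have u18 : c 19 ≠ c 12 := fun hh => X2.n12 a21 u17 hh
      have u19 : c 31 ≠ c 12 := fun hh => tr1 u3 hh u18
      have u20 : c 32 = c 12 := Classical.byContradiction fun hh => X2.n3 a72 u1 u19 hh
      have u21 : c 19 = c 15 := Classical.byContradiction fun hh => tr1 u3 u0 hh
      have u22 : c 19 ≠ c 44 := fun hh => X2.n12 a23 hh u21
      have u23 : c 31 ≠ c 44 := fun hh => tr1 u3 hh u22
      have u24 : c 44 = c 21 := Classical.byContradiction fun hh => X2.n3 a74 u23 u4 hh
      have u25 : c 12 = c 21 := Classical.byContradiction fun hh => tr1 u20 u6 hh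
      have u26 : c 44 = c 12 := Classical.byContradiction fun hh => tr3 u24 u25 hh
      have u27 : c 18 ≠ c 12 := fun hh => X2.n23 a16 hh u26
      have u28 : c 18 ≠ c 32 := fun hh => tr2 hh u20 u27
      have u29 : c 18 ≠ c 1 := fun hh => k3805 hh n1
      have u30 : c 32 = c 1 := Classical.byContradiction fun hh => X2.n3 a11 u28 u29 hh
      have u31 : c 1 = c 21 := Classical.byContradiction fun hh => tr1 u30 u6 hh
      have u32 : c 29 ≠ c 1 := fun hh => X2.n13 a44 hh u31
      have u33 : c 29 ≠ c 32 := fun hh => tr2 hh u30 u32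
      have u34 : c 29 ≠ c 19 := fun hh => X2.n13 a51 hh u17
      have u35 : c 19 ≠ c 32 := fun hh => tr2 u3 hh u1
      have u36 : c 38 ≠ c 32 := fun hh => tr1 n0 hh u33
      have u37 : c 38 ≠ c 19 := fun hh => tr1 n0 hh u34
      X2.n3 a108 u37 u36 u35
  have k3808 : c 18 = c 35 → c 41 ≠ c 31 → False := fun n0 n1 =>
      have u0 : c 31 = c 15 := Classical.byContradiction fun hh => k3789 hh n1
      have u1 : c 31 ≠ c 32 := fun hh => k3521 hh u0
      have u2 : c 41 ≠ c 19 := fun hh => k3804 hh n1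
      have u3 : c 31 = c 19 := Classical.byContradiction fun hh => X2.n3 a141 n1 u2 hh
      have u4 : c 31 ≠ c 21 := fun hh => k3792 hh n1
      have u5 : c 21 ≠ c 15 := fun hh => tr3 u0 hh u4
      have u6 : c 32 = c 21 := Classical.byContradiction fun hh => k3801 hh n1
      have u7 : c 42 ≠ c 21 := fun hh => X2.n23 a148 hh u6
      have u8 : c 42 = c 15 := Classical.byContradiction fun hh => X2.n3 a147 u7 hh u5
      have u9 : c 43 ≠ c 32 := fun hh => k3793 hh u5
      have u10 : c 21 ≠ c 13 := fun hh => k3580 hh u9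
      have u11 : c 43 ≠ c 21 := fun hh => X2.n23 a155 hh u6
      have u12 : c 43 = c 13 := Classical.byContradiction fun hh => X2.n3 a154 u11 hh u10
      have u13 : c 42 = c 13 := Classical.byContradiction fun hh => X2.n3 a146 u7 hh u10
      have u14 : c 42 = c 43 := Classical.byContradiction fun hh => tr3 u13 u12 hh
      have u15 : c 43 = c 15 := Classical.byContradiction fun hh => tr1 u14 u8 hh
      have u16 : c 31 = c 43 := Classical.byContradiction fun hh => tr3 u0 u15 hh
      have u17 : c 19 = c 43 := Classical.byContradiction fun hh => tr1 u3 u16 hh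
      have u18 : c 19 ≠ c 12 := fun hh => X2.n12 a21 u17 hh
      have u19 : c 31 ≠ c 12 := fun hh => tr1 u3 hh u18
      have u20 : c 32 = c 12 := Classical.byContradiction fun hh => X2.n3 a72 u1 u19 hh
      have u21 : c 19 = c 15 := Classical.byContradiction fun hh => tr1 u3 u0 hh
      have u22 : c 19 ≠ c 44 := fun hh => X2.n12 a23 hh u21
      have u23 : c 31 ≠ c 44 := fun hh => tr1 u3 hh u22
      have u24 : c 44 = c 21 := Classical.byContradiction fun hh => X2.n3 a74 u23 u4 hh
      have u25 : c 12 = c 21 := Classical.byContradiction fun hh => tr1 u20 u6 hh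
      have u26 : c 44 = c 12 := Classical.byContradiction fun hh => tr3 u24 u25 hh
      have u27 : c 18 ≠ c 12 := fun hh => X2.n23 a16 hh u26
      have u28 : c 18 ≠ c 32 := fun hh => tr2 hh u20 u27
      have u29 : c 18 ≠ c 1 := fun hh => k3805 hh n1
      have u30 : c 32 = c 1 := Classical.byContradiction fun hh => X2.n3 a11 u28 u29 hh
      have u31 : c 30 = c 19 := Classical.byContradiction fun hh => k3753 hh u3
      have u32 : c 30 = c 31 := Classical.byContradiction fun hh => tr3 u31 u3 hh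
      have u33 : c 30 ≠ c 10 := fun hh => X2.n12 a60 u32 hh
      have u34 : c 19 ≠ c 10 := fun hh => tr2 u31 hh u33
      have u35 : c 41 = c 10 := Classical.byContradiction fun hh => X2.n3 a136 u2 hh u34
      have u36 : c 41 ≠ c 21 := fun hh => X2.n23 a133 hh u25
      have u37 : c 10 ≠ c 21 := fun hh => tr2 u35 hh u36
      have u38 : c 19 ≠ c 32 := fun hh => tr2 u3 hh u1
      have u39 : c 41 ≠ c 12 := fun hh => X2.n13 a133 hh u25
      have u40 : c 41 ≠ c 32 := fun hh => tr2 hh u20 u39
      have u41 : c 10 ≠ c 32 := fun hh => k3751 hh u38 u2 u40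
      have u42 : c 1 = c 21 := Classical.byContradiction fun hh => tr1 u30 u6 hh
      have u43 : c 29 ≠ c 1 := fun hh => X2.n13 a44 hh u42
      have u44 : c 29 ≠ c 32 := fun hh => tr2 hh u30 u43
      have u45 : c 29 = c 10 := Classical.byContradiction fun hh => X2.n3 a48 hh u44 u41
      have u46 : c 38 ≠ c 29 := fun hh => k3807 hh n1
      have u47 : c 38 ≠ c 10 := fun hh => tr3 hh u45 u46
      have u48 : c 38 = c 21 := Classical.byContradiction fun hh => X2.n3 a103 u47 hh u37
      have u49 : c 38 = c 32 := Classical.byContradiction fun hh => tr3 u48 u6 hh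
      have u50 : c 18 = c 10 := Classical.byContradiction fun hh => k3806 u46 hh n1
      have u51 : c 29 = c 18 := Classical.byContradiction fun hh => tr3 u45 u50 hh
      have u52 : c 18 ≠ c 8 := fun hh => k3532 u51 hh
      have u53 : c 39 ≠ c 18 := fun hh => X2.n23 a119 hh u51
      have u54 : c 39 = c 8 := Classical.byContradiction fun hh => X2.n3 a116 u53 hh u52
      have u55 : c 38 ≠ c 18 := fun hh => tr2 hh u50 u47
      have u56 : c 38 = c 8 := Classical.byContradiction fun hh => X2.n3 a107 u55 hh u52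
      have u57 : c 38 = c 39 := Classical.byContradiction fun hh => tr3 u56 u54 hh
      have u58 : c 38 ≠ c 25 := fun hh => X2.n12 a113 u57 hh
      have u59 : c 25 ≠ c 32 := fun hh => tr3 u49 hh u58
      have u60 : c 25 ≠ c 1 := fun hh => tr3 hh u30 u59
      have u61 : c 31 ≠ c 11 := fun hh => X2.n13 a61 u32 hh
      have u62 : c 43 ≠ c 11 := fun hh => tr2 u16 hh u61
      have u63 : c 18 ≠ c 43 := fun hh => X2.n12 a14 hh u50
      have u64 : c 18 = c 11 := Classical.byContradiction fun hh => X2.n3 a15 u63 hh u62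
      have u65 : c 18 ≠ c 13 := fun hh => tr3 hh u12 u63
      have u66 : c 35 ≠ c 1 := fun hh => k3516 hh u42
      have u67 : c 27 ≠ c 13 := fun hh => k3567 u6 hh
      have u68 : c 35 = c 11 := Classical.byContradiction fun hh => tr1 n0 u64 hh
      have u69 : c 35 ≠ c 13 := fun hh => tr2 n0 hh u65
      have u70 : c 25 ≠ c 35 := fun hh => X2.n13 a29 hh u68
      have u71 : c 35 = c 27 := Classical.byContradiction fun hh => X2.n3 a90 hh u69 u67
      have u72 : c 1 ≠ c 27 := fun hh => tr3 u71 hh u66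
      have u73 : c 25 ≠ c 27 := fun hh => tr3 hh u71 u70
      X2.n3 a27 u60 u73 u72
  have k3809 : c 41 ≠ c 31 → False := fun n0 =>
      have u0 : c 31 = c 15 := Classical.byContradiction fun hh => k3789 hh n0
      have u1 : c 31 ≠ c 33 := fun hh => X2.n12 a73 hh u0
      have u2 : c 33 ≠ c 15 := fun hh => X2.n23 a73 u0 hh
      have u3 : c 31 ≠ c 32 := fun hh => k3521 hh u0
      have u4 : c 31 ≠ c 21 := fun hh => k3792 hh n0
      have u5 : c 21 ≠ c 15 := fun hh => tr3 u0 hh u4
      have u6 : c 43 ≠ c 32 := fun hh => k3793 hh u5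
      have u7 : c 21 ≠ c 13 := fun hh => k3580 hh u6
      have u8 : c 32 = c 21 := Classical.byContradiction fun hh => k3801 hh n0
      have u9 : c 42 ≠ c 21 := fun hh => X2.n23 a148 hh u8
      have u10 : c 43 ≠ c 21 := fun hh => X2.n23 a155 hh u8
      have u11 : c 42 = c 13 := Classical.byContradiction fun hh => X2.n3 a146 u9 hh u7
      have u12 : c 42 = c 15 := Classical.byContradiction fun hh => X2.n3 a147 u9 hh u5
      have u13 : c 43 = c 13 := Classical.byContradiction fun hh => X2.n3 a154 u10 hh u7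
      have u14 : c 42 = c 43 := Classical.byContradiction fun hh => tr3 u11 u13 hh
      have u15 : c 42 ≠ c 33 := fun hh => tr1 hh u12 u2
      have u16 : c 43 = c 15 := Classical.byContradiction fun hh => tr1 u14 u12 hh
      have u17 : c 13 ≠ c 33 := fun hh => tr2 u11 hh u15
      have u18 : c 31 = c 43 := Classical.byContradiction fun hh => tr3 u0 u16 hh
      have u19 : c 31 = c 13 := Classical.byContradiction fun hh => X2.n3 a66 hh u1 u17
      have u20 : c 41 ≠ c 19 := fun hh => k3804 hh n0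
      have u21 : c 31 = c 19 := Classical.byContradiction fun hh => X2.n3 a141 n0 u20 hh
      have u22 : c 40 ≠ c 19 := fun hh => X2.n23 a130 hh u21
      have u23 : c 30 = c 19 := Classical.byContradiction fun hh => k3753 hh u21
      have u24 : c 19 = c 15 := Classical.byContradiction fun hh => tr1 u21 u0 hh
      have u25 : c 19 ≠ c 32 := fun hh => tr2 u21 hh u3
      have u26 : c 19 = c 43 := Classical.byContradiction fun hh => tr1 u21 u18 hh
      have u27 : c 30 = c 31 := Classical.byContradiction fun hh => tr3 u23 u21 hh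
      have u28 : c 19 ≠ c 44 := fun hh => X2.n12 a23 hh u24
      have u29 : c 19 ≠ c 12 := fun hh => X2.n12 a21 u26 hh
      have u30 : c 30 ≠ c 10 := fun hh => X2.n12 a60 u27 hh
      have u31 : c 31 ≠ c 44 := fun hh => tr1 u21 hh u28
      have u32 : c 31 ≠ c 12 := fun hh => tr1 u21 hh u29
      have u33 : c 19 ≠ c 10 := fun hh => tr2 u23 hh u30
      have u34 : c 44 = c 21 := Classical.byContradiction fun hh => X2.n3 a74 u31 u4 hh
      have u35 : c 32 = c 12 := Classical.byContradiction fun hh => X2.n3 a72 u3 u32 hh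
      have u36 : c 41 = c 10 := Classical.byContradiction fun hh => X2.n3 a136 u20 hh u33
      have u37 : c 40 = c 10 := Classical.byContradiction fun hh => X2.n3 a125 u22 hh u33
      have u38 : c 12 = c 21 := Classical.byContradiction fun hh => tr1 u35 u8 hh
      have u39 : c 10 ≠ c 4 := fun hh => X2.n13 a122 u37 hh
      have u40 : c 41 ≠ c 12 := fun hh => X2.n13 a133 hh u38
      have u41 : c 41 ≠ c 21 := fun hh => X2.n23 a133 hh u38
      have u42 : c 35 ≠ c 12 := fun hh => k3553 hh u38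
      have u43 : c 44 = c 12 := Classical.byContradiction fun hh => tr3 u34 u38 hh
      have u44 : c 41 ≠ c 32 := fun hh => tr2 hh u35 u40
      have u45 : c 10 ≠ c 21 := fun hh => tr2 u36 hh u41
      have u46 : c 18 ≠ c 12 := fun hh => X2.n23 a16 hh u43
      have u47 : c 10 ≠ c 32 := fun hh => k3751 hh u25 u20 u44
      have u48 : c 18 ≠ c 32 := fun hh => tr2 hh u35 u46
      have u49 : c 18 ≠ c 1 := fun hh => k3805 hh n0
      have u50 : c 32 = c 1 := Classical.byContradiction fun hh => X2.n3 a11 u48 u49 hh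
      have u51 : c 26 ≠ c 32 := fun hh => k3538 hh u50
      have u52 : c 1 = c 21 := Classical.byContradiction fun hh => tr1 u50 u8 hh
      have u53 : c 26 ≠ c 12 := fun hh => tr3 hh u35 u51
      have u54 : c 29 ≠ c 1 := fun hh => X2.n13 a44 hh u52
      have u55 : c 26 = c 35 := Classical.byContradiction fun hh => X2.n3 a34 hh u53 u42
      have u56 : c 29 ≠ c 32 := fun hh => tr2 hh u50 u54
      have u57 : c 29 = c 10 := Classical.byContradiction fun hh => X2.n3 a48 hh u56 u47
      have u58 : c 38 ≠ c 29 := fun hh => k3807 hh n0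
      have u59 : c 38 ≠ c 10 := fun hh => tr3 hh u57 u58
      have u60 : c 18 = c 10 := Classical.byContradiction fun hh => k3806 u58 hh n0
      have u61 : c 38 = c 21 := Classical.byContradiction fun hh => X2.n3 a103 u59 hh u45
      have u62 : c 18 ≠ c 4 := fun hh => tr1 u60 hh u39
      have u63 : c 38 ≠ c 35 := fun hh => k3520 hh u61
      have u64 : c 38 ≠ c 13 := fun hh => tr1 u61 hh u7
      have u65 : c 18 ≠ c 35 := fun hh => k3808 hh n0
      have u66 : c 35 = c 4 := Classical.byContradiction fun hh => X2.n3 a12 u65 u62 hh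
      have u67 : c 38 ≠ c 4 := fun hh => tr3 hh u66 u63
      have u68 : c 26 = c 4 := Classical.byContradiction fun hh => tr2 u55 u66 hh
      have u69 : c 4 = c 13 := Classical.byContradiction fun hh => X2.n3 a101 u67 u64 hh
      have u70 : c 31 ≠ c 4 := fun hh => X2.n23 a32 u68 hh
      tr3 u19 u69 u70
  have k3810 : c 41 = c 19 → False := fun n0 =>
      have u0 : c 41 = c 31 := Classical.byContradiction fun hh => k3809 hh
      X2.n12 a141 u0 n0
  have k3811 : c 31 = c 19 → False := fun n0 =>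
      have u0 : c 41 = c 31 := Classical.byContradiction fun hh => k3809 hh
      X2.n13 a141 u0 n0
  have k3812 : c 31 = c 1 → False := fun n0 =>
      have u0 : c 41 = c 31 := Classical.byContradiction fun hh => k3809 hh
      k3506 u0 n0
  have k3813 : c 31 = c 15 → False := fun n0 =>
      have u0 : c 41 = c 31 := Classical.byContradiction fun hh => k3809 hh
      have u1 : c 41 ≠ c 15 := fun hh => k3762 hh
      tr2 u0 n0 u1
  have k3814 : c 19 ≠ c 1 → False := fun n0 =>
      have u0 : c 31 ≠ c 1 := fun hh => k3812 hh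
      have u1 : c 31 ≠ c 19 := fun hh => k3811 hh
      X2.n3 a67 u1 u0 n0
  have k3816 : c 30 = c 19 → False := fun n0 =>
      have u0 : c 19 = c 1 := Classical.byContradiction fun hh => k3814 hh
      X2.n13 a57 n0 u0
  have k3820 : c 40 = c 19 → False := fun n0 =>
      have u0 : c 19 = c 1 := Classical.byContradiction fun hh => k3814 hh
      k3509 n0 u0
  have k3821 : c 30 ≠ c 41 → False := fun n0 =>
      have u0 : c 30 ≠ c 19 := fun hh => k3816 hh
      have u1 : c 41 ≠ c 19 := fun hh => k3810 hh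
      X2.n3 a64 n0 u0 u1
  have k3822 : c 40 ≠ c 30 → False := fun n0 =>
      have u0 : c 40 ≠ c 19 := fun hh => k3820 hh
      have u1 : c 30 ≠ c 19 := fun hh => k3816 hh
      X2.n3 a129 n0 u0 u1
  have k3823 : c 30 ≠ c 31 → False := fun n0 =>
      have u0 : c 30 = c 41 := Classical.byContradiction fun hh => k3821 hh
      have u1 : c 41 = c 31 := Classical.byContradiction fun hh => k3809 hh
      tr2 u0 u1 n0
  have k3825 : c 30 = c 10 → False := fun n0 =>
      have u0 : c 30 = c 31 := Classical.byContradiction fun hh => k3823 hh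
      X2.n12 a60 u0 n0
  have k3827 : c 30 = c 11 → False := fun n0 =>
      have u0 : c 30 = c 31 := Classical.byContradiction fun hh => k3823 hh
      X2.n12 a61 u0 n0
  have k3829 : c 40 = c 10 → False := fun n0 =>
      have u0 : c 30 ≠ c 10 := fun hh => k3825 hh
      have u1 : c 40 = c 30 := Classical.byContradiction fun hh => k3822 hh
      tr1 u1 n0 u0
  have k3831 : c 40 = c 11 → False := fun n0 =>
      have u0 : c 30 ≠ c 11 := fun hh => k3827 hh
      have u1 : c 40 = c 30 := Classical.byContradiction fun hh => k3822 hh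
      tr1 u1 n0 u0
  have k3833 : c 19 ≠ c 10 → False := fun n0 =>
      have u0 : c 40 ≠ c 10 := fun hh => k3829 hh
      have u1 : c 40 ≠ c 19 := fun hh => k3820 hh
      X2.n3 a125 u1 u0 n0
  have k3834 : c 19 ≠ c 11 → False := fun n0 =>
      have u0 : c 40 ≠ c 11 := fun hh => k3831 hh
      have u1 : c 40 ≠ c 19 := fun hh => k3820 hh
      X2.n3 a126 u1 u0 n0
  have k3835 : c 29 ≠ c 19 → c 43 ≠ c 32 → c 18 = c 11 → False := fun n0 n1 n2 =>
      have u0 : c 19 = c 11 := Classical.byContradiction fun hh => k3834 hh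
      have u1 : c 19 = c 1 := Classical.byContradiction fun hh => k3814 hh
      have u2 : c 19 = c 10 := Classical.byContradiction fun hh => k3833 hh
      have u3 : c 18 ≠ c 43 := fun hh => X2.n12 a15 hh n2
      have u4 : c 43 ≠ c 11 := fun hh => X2.n23 a15 n2 hh
      have u5 : c 19 ≠ c 43 := fun hh => tr1 hh u0 u4
      have u6 : c 43 ≠ c 10 := fun hh => tr3 u2 hh u5
      have u7 : c 18 = c 10 := Classical.byContradiction fun hh => X2.n3 a14 u3 hh u6
      have u8 : c 19 ≠ c 32 := fun hh => k3758 hh u7 u2 u1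
      have u9 : c 10 ≠ c 32 := fun hh => tr2 u2 hh u8
      have u10 : c 29 = c 43 := Classical.byContradiction fun hh => X2.n3 a51 n0 hh u5
      have u11 : c 29 ≠ c 10 := fun hh => tr3 hh u2 n0
      have u12 : c 29 ≠ c 32 := fun hh => tr1 u10 hh n1
      X2.n3 a48 u11 u12 u9
  have k3837 : c 29 ≠ c 19 → c 1 ≠ c 27 → c 18 = c 11 → False := fun n0 n1 n2 =>
      have u0 : c 19 = c 11 := Classical.byContradiction fun hh => k3834 hh
      have u1 : c 19 = c 10 := Classical.byContradiction fun hh => k3833 hh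
      have u2 : c 19 = c 1 := Classical.byContradiction fun hh => k3814 hh
      have u3 : c 18 ≠ c 43 := fun hh => X2.n12 a15 hh n2
      have u4 : c 43 ≠ c 11 := fun hh => X2.n23 a15 n2 hh
      have u5 : c 19 ≠ c 43 := fun hh => tr1 hh u0 u4
      have u6 : c 43 ≠ c 10 := fun hh => tr3 u1 hh u5
      have u7 : c 18 = c 10 := Classical.byContradiction fun hh => X2.n3 a14 u3 hh u6
      have u8 : c 19 ≠ c 32 := fun hh => k3758 hh u7 u1 u2
      have u9 : c 32 ≠ c 1 := fun hh => tr3 u2 hh u8
      have u10 : c 29 = c 43 := Classical.byContradiction fun hh => X2.n3 a51 n0 hh u5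
      have u11 : c 43 = c 32 := Classical.byContradiction fun hh => k3835 n0 hh n2
      have u12 : c 29 = c 32 := Classical.byContradiction fun hh => tr2 u10 u11 hh
      have u13 : c 32 ≠ c 21 := fun hh => X2.n13 a155 u11 hh
      have u14 : c 27 = c 13 := Classical.byContradiction fun hh => k3579 u11 hh
      have u15 : c 21 = c 13 := Classical.byContradiction fun hh => k3624 u11 hh
      have u16 : c 1 = c 21 := Classical.byContradiction fun hh => k3773 u12 u9 u13 hh
      have u17 : c 1 ≠ c 13 := fun hh => tr3 hh u14 n1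
      tr2 u16 u15 u17
  have k3838 : c 29 = c 19 → c 18 = c 1 → c 35 ≠ c 1 → False := fun n0 n1 n2 =>
      have u0 : c 19 = c 10 := Classical.byContradiction fun hh => k3833 hh
      have u1 : c 19 = c 1 := Classical.byContradiction fun hh => k3814 hh
      have u2 : c 8 ≠ c 19 := fun hh => k3503 n0 hh
      have u3 : c 29 = c 1 := Classical.byContradiction fun hh => tr2 n0 u1 hh
      have u4 : c 29 = c 10 := Classical.byContradiction fun hh => tr2 n0 u0 hh
      have u5 : c 8 ≠ c 1 := fun hh => tr3 hh u1 u2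
      have u6 : c 29 ≠ c 21 := fun hh => X2.n12 a44 u3 hh
      have u7 : c 29 = c 18 := Classical.byContradiction fun hh => tr3 u3 n1 hh
      have u8 : c 10 ≠ c 21 := fun hh => tr2 u4 hh u6
      have u9 : c 18 ≠ c 8 := fun hh => tr1 hh n1 u5
      have u10 : c 8 = c 35 := Classical.byContradiction fun hh => X2.n3 a1 hh u5 n2
      have u11 : c 38 ≠ c 29 := fun hh => X2.n13 a112 hh u7
      have u12 : c 38 ≠ c 18 := fun hh => X2.n23 a112 hh u7
      have u13 : c 38 = c 8 := Classical.byContradiction fun hh => X2.n3 a107 u12 hh u9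
      have u14 : c 38 ≠ c 10 := fun hh => tr3 hh u4 u11
      have u15 : c 38 = c 35 := Classical.byContradiction fun hh => tr2 u13 u10 hh
      have u16 : c 38 = c 21 := Classical.byContradiction fun hh => X2.n3 a103 u14 hh u8
      k3520 u15 u16
  have k3839 : c 38 = c 18 → c 18 = c 13 → c 21 = c 13 → c 18 = c 10 → False := fun n0 n1 n2 n3 =>
      have u0 : c 38 = c 10 := Classical.byContradiction fun hh => tr2 n0 n3 hh
      have u1 : c 38 = c 13 := Classical.byContradiction fun hh => tr2 n0 n1 hh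
      have u2 : c 38 ≠ c 21 := fun hh => X2.n12 a103 u0 hh
      tr3 u1 n2 u2
  have k3842 : c 4 ≠ c 21 → c 38 ≠ c 25 → c 34 = c 25 → c 38 ≠ c 13 → c 21 = c 13 → c 34 ≠ c 21 → False := fun n0 n1 n2 n3 n4 n5 =>
      have u0 : c 4 ≠ c 13 := fun hh => tr3 hh n4 n0
      have u1 : c 34 = c 4 := Classical.byContradiction fun hh => X2.n3 a82 hh n5 n0
      have u2 : c 38 = c 4 := Classical.byContradiction fun hh => X2.n3 a101 hh n3 u0
      have u3 : c 25 = c 4 := Classical.byContradiction fun hh => tr1 n2 u1 hh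
      tr3 u2 u3 n1
  have k3843 : c 18 = c 11 → c 19 ≠ c 35 → False := fun n0 n1 =>
      have u0 : c 19 = c 11 := Classical.byContradiction fun hh => k3834 hh
      have u1 : c 19 = c 1 := Classical.byContradiction fun hh => k3814 hh
      have u2 : c 19 = c 10 := Classical.byContradiction fun hh => k3833 hh
      have u3 : c 35 ≠ c 1 := fun hh => tr3 u1 hh n1
      have u4 : c 18 ≠ c 43 := fun hh => X2.n12 a15 hh n0
      have u5 : c 43 ≠ c 11 := fun hh => X2.n23 a15 n0 hh
      have u6 : c 19 ≠ c 43 := fun hh => tr1 hh u0 u5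
      have u7 : c 43 ≠ c 10 := fun hh => tr3 u2 hh u6
      have u8 : c 18 = c 10 := Classical.byContradiction fun hh => X2.n3 a14 u4 hh u7
      have u9 : c 34 ≠ c 10 := fun hh => k3541 hh u8
      have u10 : c 19 ≠ c 32 := fun hh => k3758 hh u8 u2 u1
      have u11 : c 34 ≠ c 19 := fun hh => tr2 hh u2 u9
      have u12 : c 32 ≠ c 1 := fun hh => tr3 u1 hh u10
      have u13 : c 10 ≠ c 32 := fun hh => tr2 u2 hh u10
      have u14 : c 34 = c 35 := Classical.byContradiction fun hh => X2.n3 a84 u11 hh n1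
      have u15 : c 18 ≠ c 32 := fun hh => tr1 u8 hh u13
      have u16 : c 34 ≠ c 21 := fun hh => k3544 u14 hh
      have u17 : c 18 = c 1 := Classical.byContradiction fun hh => X2.n3 a11 u15 hh u12
      have u18 : c 29 ≠ c 19 := fun hh => k3838 hh u17 u3
      have u19 : c 29 = c 43 := Classical.byContradiction fun hh => X2.n3 a51 u18 hh u6
      have u20 : c 43 = c 32 := Classical.byContradiction fun hh => k3835 u18 hh n0
      have u21 : c 1 = c 27 := Classical.byContradiction fun hh => k3837 u18 hh n0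
      have u22 : c 29 = c 32 := Classical.byContradiction fun hh => tr2 u19 u20 hh
      have u23 : c 29 ≠ c 18 := fun hh => tr1 hh u19 u4
      have u24 : c 32 ≠ c 21 := fun hh => X2.n13 a155 u20 hh
      have u25 : c 27 = c 13 := Classical.byContradiction fun hh => k3579 u20 hh
      have u26 : c 21 = c 13 := Classical.byContradiction fun hh => k3624 u20 hh
      have u27 : c 25 ≠ c 1 := fun hh => X2.n13 a27 hh u21
      have u28 : c 1 = c 21 := Classical.byContradiction fun hh => k3773 u22 u12 u24 hh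
      have u29 : c 1 = c 13 := Classical.byContradiction fun hh => tr2 u21 u25 hh
      have u30 : c 25 ≠ c 21 := fun hh => tr3 hh u28 u27
      have u31 : c 18 = c 13 := Classical.byContradiction fun hh => tr2 u17 u29 hh
      have u32 : c 38 ≠ c 18 := fun hh => k3839 hh u31 u26 u8
      have u33 : c 38 = c 29 := Classical.byContradiction fun hh => X2.n3 a112 hh u32 u23
      have u34 : c 38 ≠ c 13 := fun hh => tr3 hh u31 u32
      have u35 : c 38 ≠ c 8 := fun hh => k3524 u33 hh
      have u36 : c 38 = c 32 := Classical.byContradiction fun hh => tr2 u33 u22 hh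
      have u37 : c 18 = c 8 := Classical.byContradiction fun hh => X2.n3 a107 u32 u35 hh
      have u38 : c 39 ≠ c 18 := fun hh => X2.n13 a116 hh u37
      have u39 : c 8 = c 1 := Classical.byContradiction fun hh => tr1 u37 u17 hh
      have u40 : c 34 ≠ c 8 := fun hh => k3531 hh u37
      have u41 : c 39 = c 29 := Classical.byContradiction fun hh => X2.n3 a119 hh u38 u23
      have u42 : c 25 ≠ c 8 := fun hh => tr2 hh u39 u27
      have u43 : c 38 = c 39 := Classical.byContradiction fun hh => tr3 u33 u41 hh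
      have u44 : c 34 = c 25 := Classical.byContradiction fun hh => X2.n3 a85 hh u40 u42
      have u45 : c 38 ≠ c 25 := fun hh => X2.n12 a113 u43 hh
      have u46 : c 25 ≠ c 32 := fun hh => tr3 u36 hh u45
      have u47 : c 4 = c 21 := Classical.byContradiction fun hh => k3842 hh u45 u44 u34 u26 u16
      have u48 : c 32 ≠ c 4 := fun hh => tr2 hh u47 u24
      have u49 : c 25 ≠ c 4 := fun hh => tr2 hh u47 u30
      X2.n3 a28 u46 u49 u48
  have k3844 : c 18 = c 13 → c 43 = c 32 → c 18 ≠ c 11 → False := fun n0 n1 n2 =>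
      have u0 : c 19 = c 11 := Classical.byContradiction fun hh => k3834 hh
      have u1 : c 19 = c 1 := Classical.byContradiction fun hh => k3814 hh
      have u2 : c 19 = c 10 := Classical.byContradiction fun hh => k3833 hh
      have u3 : c 21 = c 13 := Classical.byContradiction fun hh => k3624 n1 hh
      have u4 : c 43 ≠ c 13 := fun hh => k3505 n1 hh
      have u5 : c 43 ≠ c 21 := fun hh => X2.n12 a155 n1 hh
      have u6 : c 18 ≠ c 43 := fun hh => tr1 hh n0 u4
      have u7 : c 43 = c 11 := Classical.byContradiction fun hh => X2.n3 a15 u6 n2 hh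
      have u8 : c 32 = c 11 := Classical.byContradiction fun hh => tr1 n1 u7 hh
      have u9 : c 19 = c 43 := Classical.byContradiction fun hh => tr3 u0 u7 hh
      have u10 : c 19 = c 32 := Classical.byContradiction fun hh => tr3 u0 u8 hh
      have u11 : c 29 ≠ c 19 := fun hh => X2.n13 a51 hh u9
      have u12 : c 43 = c 1 := Classical.byContradiction fun hh => tr1 u9 u1 hh
      have u13 : c 43 = c 10 := Classical.byContradiction fun hh => tr1 u9 u2 hh
      have u14 : c 38 ≠ c 19 := fun hh => X2.n13 a108 hh u10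
      have u15 : c 29 ≠ c 1 := fun hh => tr3 hh u1 u11
      have u16 : c 1 ≠ c 21 := fun hh => tr2 u12 hh u5
      have u17 : c 10 ≠ c 21 := fun hh => tr2 u13 hh u5
      have u18 : c 38 ≠ c 10 := fun hh => tr3 hh u2 u14
      have u19 : c 29 = c 21 := Classical.byContradiction fun hh => X2.n3 a44 u15 hh u16
      have u20 : c 38 = c 21 := Classical.byContradiction fun hh => X2.n3 a103 u18 hh u17
      have u21 : c 29 = c 13 := Classical.byContradiction fun hh => tr2 u19 u3 hh
      have u22 : c 38 = c 29 := Classical.byContradiction fun hh => tr3 u20 u19 hh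
      have u23 : c 29 = c 18 := Classical.byContradiction fun hh => tr3 u21 n0 hh
      X2.n13 a112 u22 u23
  have k3845 : c 18 = c 8 → c 43 = c 32 → c 19 ≠ c 35 → c 18 ≠ c 35 → False := fun n0 n1 n2 n3 =>
      have u0 : c 19 = c 1 := Classical.byContradiction fun hh => k3814 hh
      have u1 : c 18 ≠ c 11 := fun hh => k3843 hh n2
      have u2 : c 18 ≠ c 13 := fun hh => k3844 hh n1 u1
      have u3 : c 27 = c 13 := Classical.byContradiction fun hh => k3579 n1 hh
      have u4 : c 35 ≠ c 13 := fun hh => X2.n23 a90 hh u3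
      have u5 : c 35 ≠ c 1 := fun hh => tr3 u0 hh n2
      have u6 : c 34 ≠ c 8 := fun hh => k3531 hh n0
      have u7 : c 8 ≠ c 35 := fun hh => tr2 n0 hh n3
      have u8 : c 8 = c 1 := Classical.byContradiction fun hh => X2.n3 a1 u7 hh u5
      have u9 : c 8 = c 19 := Classical.byContradiction fun hh => tr3 u8 u0 hh
      have u10 : c 18 = c 1 := Classical.byContradiction fun hh => tr2 n0 u8 hh
      have u11 : c 34 ≠ c 1 := fun hh => tr3 hh u8 u6
      have u12 : c 34 ≠ c 19 := fun hh => tr3 hh u9 u6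
      have u13 : c 1 ≠ c 13 := fun hh => tr2 u10 hh u2
      have u14 : c 34 = c 35 := Classical.byContradiction fun hh => X2.n3 a84 u12 hh n2
      have u15 : c 34 = c 13 := Classical.byContradiction fun hh => X2.n3 a81 u11 hh u13
      tr1 u14 u15 u4
  have k3846 : c 38 ≠ c 18 → c 18 ≠ c 8 → c 18 ≠ c 13 → c 21 = c 13 → c 32 ≠ c 21 → c 18 ≠ c 11 → False := fun n0 n1 n2 n3 n4 n5 =>
      have u0 : c 19 = c 1 := Classical.byContradiction fun hh => k3814 hh
      have u1 : c 19 = c 11 := Classical.byContradiction fun hh => k3834 hh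
      have u2 : c 38 = c 8 := Classical.byContradiction fun hh => X2.n3 a107 n0 hh n1
      have u3 : c 38 ≠ c 29 := fun hh => k3524 hh u2
      have u4 : c 29 = c 18 := Classical.byContradiction fun hh => X2.n3 a112 u3 n0 hh
      have u5 : c 29 ≠ c 11 := fun hh => tr1 u4 hh n5
      have u6 : c 29 ≠ c 13 := fun hh => tr1 u4 hh n2
      have u7 : c 29 ≠ c 19 := fun hh => tr2 hh u1 u5
      have u8 : c 29 ≠ c 21 := fun hh => tr2 hh n3 u6
      have u9 : c 29 ≠ c 1 := fun hh => tr3 hh u0 u7
      have u10 : c 1 = c 21 := Classical.byContradiction fun hh => X2.n3 a44 u9 u8 hh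
      have u11 : c 18 ≠ c 1 := fun hh => tr2 u4 hh u9
      have u12 : c 1 = c 13 := Classical.byContradiction fun hh => tr2 u10 n3 hh
      have u13 : c 32 ≠ c 1 := fun hh => tr2 hh u10 n4
      have u14 : c 19 = c 13 := Classical.byContradiction fun hh => tr2 u0 u12 hh
      have u15 : c 19 ≠ c 32 := fun hh => tr1 hh u0 u13
      have u16 : c 18 = c 32 := Classical.byContradiction fun hh => X2.n3 a11 hh u11 u13
      have u17 : c 38 ≠ c 32 := fun hh => tr3 hh u16 n0
      have u18 : c 38 = c 19 := Classical.byContradiction fun hh => X2.n3 a108 hh u17 u15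
      have u19 : c 38 = c 13 := Classical.byContradiction fun hh => tr2 u18 u14 hh
      have u20 : c 38 = c 11 := Classical.byContradiction fun hh => tr2 u18 u1 hh
      have u21 : c 38 = c 21 := Classical.byContradiction fun hh => tr3 u19 n3 hh
      X2.n12 a105 u20 u21
  have k3847 : c 43 = c 32 → c 19 ≠ c 35 → c 18 ≠ c 35 → False := fun n0 n1 n2 =>
      have u0 : c 19 = c 11 := Classical.byContradiction fun hh => k3834 hh
      have u1 : c 19 = c 10 := Classical.byContradiction fun hh => k3833 hh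
      have u2 : c 19 = c 1 := Classical.byContradiction fun hh => k3814 hh
      have u3 : c 18 ≠ c 11 := fun hh => k3843 hh n1
      have u4 : c 43 ≠ c 21 := fun hh => X2.n12 a155 n0 hh
      have u5 : c 32 ≠ c 21 := fun hh => X2.n13 a155 n0 hh
      have u6 : c 32 ≠ c 22 := fun hh => X2.n13 a156 n0 hh
      have u7 : c 21 = c 13 := Classical.byContradiction fun hh => k3624 n0 hh
      have u8 : c 18 ≠ c 13 := fun hh => k3844 hh n0 u3
      have u9 : c 18 ≠ c 8 := fun hh => k3845 hh n0 n1 n2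
      have u10 : c 38 = c 18 := Classical.byContradiction fun hh => k3846 hh u9 u8 u7 u5 u3
      have u11 : c 38 ≠ c 29 := fun hh => X2.n12 a112 hh u10
      have u12 : c 29 ≠ c 18 := fun hh => X2.n23 a112 u10 hh
      have u13 : c 38 ≠ c 11 := fun hh => tr1 u10 hh u3
      have u14 : c 38 ≠ c 13 := fun hh => tr1 u10 hh u8
      have u15 : c 38 ≠ c 19 := fun hh => tr2 hh u0 u13
      have u16 : c 38 ≠ c 21 := fun hh => tr2 hh u7 u14
      have u17 : c 38 ≠ c 10 := fun hh => tr3 hh u1 u15
      have u18 : c 10 = c 21 := Classical.byContradiction fun hh => X2.n3 a103 u17 u16 hh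
      have u19 : c 18 ≠ c 10 := fun hh => tr2 u10 hh u17
      have u20 : c 10 ≠ c 32 := fun hh => tr1 hh u18 u5
      have u21 : c 43 ≠ c 10 := fun hh => tr2 hh u18 u4
      have u22 : c 19 ≠ c 32 := fun hh => tr1 u1 hh u20
      have u23 : c 19 ≠ c 43 := fun hh => tr1 hh u1 u21
      have u24 : c 18 = c 43 := Classical.byContradiction fun hh => X2.n3 a14 hh u19 u21
      have u25 : c 38 = c 32 := Classical.byContradiction fun hh => X2.n3 a108 u15 hh u22
      have u26 : c 29 ≠ c 43 := fun hh => tr3 hh u24 u12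
      have u27 : c 29 ≠ c 32 := fun hh => tr3 u25 hh u11
      have u28 : c 38 ≠ c 22 := fun hh => tr1 u25 hh u6
      have u29 : c 29 = c 19 := Classical.byContradiction fun hh => X2.n3 a51 hh u26 u23
      have u30 : c 29 = c 10 := Classical.byContradiction fun hh => X2.n3 a48 hh u27 u20
      have u31 : c 10 = c 22 := Classical.byContradiction fun hh => X2.n3 a104 u17 u28 hh
      have u32 : c 29 = c 1 := Classical.byContradiction fun hh => tr2 u29 u2 hh
      have u33 : c 29 = c 22 := Classical.byContradiction fun hh => tr2 u30 u31 hh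
      X2.n12 a45 u32 u33
  have k3848 : c 19 ≠ c 32 → c 38 = c 18 → c 43 ≠ c 32 → c 18 ≠ c 11 → False := fun n0 n1 n2 n3 =>
      have u0 : c 19 = c 11 := Classical.byContradiction fun hh => k3834 hh
      have u1 : c 38 ≠ c 11 := fun hh => tr1 n1 hh n3
      have u2 : c 38 ≠ c 19 := fun hh => tr2 hh u0 u1
      have u3 : c 38 ≠ c 29 := fun hh => X2.n12 a112 hh n1
      have u4 : c 32 ≠ c 11 := fun hh => tr3 u0 hh n0
      have u5 : c 38 = c 32 := Classical.byContradiction fun hh => X2.n3 a108 u2 hh n0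
      have u6 : c 29 ≠ c 32 := fun hh => tr3 u5 hh u3
      have u7 : c 18 = c 32 := Classical.byContradiction fun hh => tr1 n1 u5 hh
      have u8 : c 29 = c 11 := Classical.byContradiction fun hh => X2.n3 a54 u6 hh u4
      have u9 : c 18 ≠ c 43 := fun hh => tr1 hh u7 n2
      have u10 : c 29 = c 19 := Classical.byContradiction fun hh => tr3 u8 u0 hh
      have u11 : c 43 = c 11 := Classical.byContradiction fun hh => X2.n3 a15 u9 n3 hh
      have u12 : c 19 ≠ c 43 := fun hh => X2.n13 a51 u10 hh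
      tr3 u0 u11 u12
  have k3850 : c 19 = c 32 → c 35 ≠ c 11 → c 18 ≠ c 35 → False := fun n0 n1 n2 =>
      have u0 : c 19 = c 11 := Classical.byContradiction fun hh => k3834 hh
      have u1 : c 19 = c 1 := Classical.byContradiction fun hh => k3814 hh
      have u2 : c 19 = c 10 := Classical.byContradiction fun hh => k3833 hh
      have u3 : c 19 ≠ c 35 := fun hh => tr1 hh u0 n1
      have u4 : c 43 ≠ c 32 := fun hh => k3847 hh u3 n2
      have u5 : c 19 ≠ c 2 := fun hh => X2.n12 a18 n0 hh
      have u6 : c 19 ≠ c 43 := fun hh => tr1 hh n0 u4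
      have u7 : c 18 ≠ c 10 := fun hh => k3758 n0 hh u2 u1
      have u8 : c 1 ≠ c 2 := fun hh => tr2 u1 hh u5
      have u9 : c 11 ≠ c 2 := fun hh => tr2 u0 hh u5
      have u10 : c 43 ≠ c 1 := fun hh => tr3 u1 hh u6
      have u11 : c 43 ≠ c 10 := fun hh => tr3 u2 hh u6
      have u12 : c 43 = c 2 := Classical.byContradiction fun hh => X2.n3 a150 u10 hh u8
      have u13 : c 35 = c 2 := Classical.byContradiction fun hh => X2.n3 a88 n1 hh u9
      have u14 : c 18 = c 43 := Classical.byContradiction fun hh => X2.n3 a14 hh u7 u11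
      have u15 : c 18 = c 2 := Classical.byContradiction fun hh => tr2 u14 u12 hh
      tr3 u15 u13 n2
  have k3851 : c 18 = c 43 → c 32 ≠ c 1 → c 43 ≠ c 32 → False := fun n0 n1 n2 =>
      have u0 : c 19 = c 11 := Classical.byContradiction fun hh => k3834 hh
      have u1 : c 19 = c 1 := Classical.byContradiction fun hh => k3814 hh
      have u2 : c 43 ≠ c 11 := fun hh => X2.n13 a15 n0 hh
      have u3 : c 18 ≠ c 32 := fun hh => tr1 n0 hh n2
      have u4 : c 19 ≠ c 43 := fun hh => tr1 hh u0 u2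
      have u5 : c 18 = c 1 := Classical.byContradiction fun hh => X2.n3 a11 u3 hh n1
      have u6 : c 43 ≠ c 1 := fun hh => tr3 u1 hh u4
      tr1 n0 u5 u6
  have k3852 : c 35 ≠ c 11 → c 18 ≠ c 35 → False := fun n0 n1 =>
      have u0 : c 19 = c 11 := Classical.byContradiction fun hh => k3834 hh
      have u1 : c 19 = c 1 := Classical.byContradiction fun hh => k3814 hh
      have u2 : c 19 ≠ c 35 := fun hh => tr1 hh u0 n0
      have u3 : c 18 ≠ c 11 := fun hh => k3843 hh u2
      have u4 : c 43 ≠ c 32 := fun hh => k3847 hh u2 n1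
      have u5 : c 19 ≠ c 32 := fun hh => k3850 hh n0 n1
      have u6 : c 32 ≠ c 1 := fun hh => tr3 u1 hh u5
      have u7 : c 18 ≠ c 43 := fun hh => k3851 hh u6 u4
      have u8 : c 43 = c 11 := Classical.byContradiction fun hh => X2.n3 a15 u7 u3 hh
      have u9 : c 19 = c 43 := Classical.byContradiction fun hh => tr3 u0 u8 hh
      have u10 : c 43 = c 1 := Classical.byContradiction fun hh => tr1 u9 u1 hh
      have u11 : c 43 ≠ c 2 := fun hh => X2.n12 a150 u10 hh
      have u12 : c 18 ≠ c 1 := fun hh => tr3 hh u10 u7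
      have u13 : c 19 ≠ c 2 := fun hh => tr1 u9 hh u11
      have u14 : c 11 ≠ c 2 := fun hh => tr2 u8 hh u11
      have u15 : c 18 = c 32 := Classical.byContradiction fun hh => X2.n3 a11 hh u12 u6
      have u16 : c 32 = c 2 := Classical.byContradiction fun hh => X2.n3 a18 u5 u13 hh
      have u17 : c 35 = c 2 := Classical.byContradiction fun hh => X2.n3 a88 n0 hh u14
      have u18 : c 18 = c 2 := Classical.byContradiction fun hh => tr2 u15 u16 hh
      tr3 u18 u17 n1
  have k3853 : c 19 ≠ c 32 → c 43 ≠ c 32 → c 18 ≠ c 35 → False := fun n0 n1 n2 =>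
      have u0 : c 19 = c 1 := Classical.byContradiction fun hh => k3814 hh
      have u1 : c 19 = c 11 := Classical.byContradiction fun hh => k3834 hh
      have u2 : c 35 = c 11 := Classical.byContradiction fun hh => k3852 hh n2
      have u3 : c 19 = c 35 := Classical.byContradiction fun hh => tr3 u1 u2 hh
      have u4 : c 35 = c 1 := Classical.byContradiction fun hh => tr1 u3 u0 hh
      have u5 : c 8 ≠ c 35 := fun hh => X2.n13 a1 hh u4
      have u6 : c 8 ≠ c 19 := fun hh => tr2 hh u3 u5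
      have u7 : c 18 ≠ c 1 := fun hh => tr3 hh u4 n2
      have u8 : c 18 ≠ c 11 := fun hh => tr3 hh u2 n2
      have u9 : c 32 ≠ c 1 := fun hh => tr3 u0 hh n0
      have u10 : c 38 ≠ c 18 := fun hh => k3848 n0 hh n1 u8
      have u11 : c 18 ≠ c 43 := fun hh => k3851 hh u9 n1
      have u12 : c 18 = c 32 := Classical.byContradiction fun hh => X2.n3 a11 hh u7 u9
      have u13 : c 43 = c 11 := Classical.byContradiction fun hh => X2.n3 a15 u11 u8 hh
      have u14 : c 38 ≠ c 32 := fun hh => tr3 hh u12 u10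
      have u15 : c 19 = c 43 := Classical.byContradiction fun hh => tr3 u1 u13 hh
      have u16 : c 38 = c 19 := Classical.byContradiction fun hh => X2.n3 a108 hh u14 n0
      have u17 : c 29 ≠ c 19 := fun hh => X2.n13 a51 hh u15
      have u18 : c 38 ≠ c 29 := fun hh => tr1 hh u16 u17
      have u19 : c 38 ≠ c 8 := fun hh => tr1 hh u16 u6
      have u20 : c 29 = c 18 := Classical.byContradiction fun hh => X2.n3 a112 u18 u10 hh
      have u21 : c 18 = c 8 := Classical.byContradiction fun hh => X2.n3 a107 u10 u19 hh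
      k3532 u20 u21
  have k3854 : c 43 ≠ c 32 → c 18 ≠ c 35 → False := fun n0 n1 =>
      have u0 : c 19 = c 1 := Classical.byContradiction fun hh => k3814 hh
      have u1 : c 19 = c 11 := Classical.byContradiction fun hh => k3834 hh
      have u2 : c 19 = c 10 := Classical.byContradiction fun hh => k3833 hh
      have u3 : c 35 = c 11 := Classical.byContradiction fun hh => k3852 hh n1
      have u4 : c 19 = c 35 := Classical.byContradiction fun hh => tr3 u1 u3 hh
      have u5 : c 35 = c 1 := Classical.byContradiction fun hh => tr1 u4 u0 hh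
      have u6 : c 1 ≠ c 21 := fun hh => k3516 u5 hh
      have u7 : c 11 ≠ c 21 := fun hh => k3529 u3 hh
      have u8 : c 19 = c 32 := Classical.byContradiction fun hh => k3853 hh n0 n1
      have u9 : c 38 ≠ c 19 := fun hh => X2.n13 a108 hh u8
      have u10 : c 19 ≠ c 43 := fun hh => tr1 hh u8 n0
      have u11 : c 32 = c 1 := Classical.byContradiction fun hh => tr1 u8 u0 hh
      have u12 : c 10 = c 32 := Classical.byContradiction fun hh => tr1 u2 u8 hh
      have u13 : c 32 = c 11 := Classical.byContradiction fun hh => tr1 u8 u1 hh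
      have u14 : c 38 ≠ c 11 := fun hh => tr3 hh u1 u9
      have u15 : c 43 ≠ c 11 := fun hh => tr3 u1 hh u10
      have u16 : c 16 ≠ c 32 := fun hh => X2.n13 a4 hh u11
      have u17 : c 29 ≠ c 10 := fun hh => X2.n13 a48 hh u12
      have u18 : c 29 ≠ c 32 := fun hh => X2.n23 a48 hh u12
      have u19 : c 38 = c 21 := Classical.byContradiction fun hh => X2.n3 a105 u14 hh u7
      have u20 : c 16 ≠ c 11 := fun hh => tr3 hh u13 u16
      have u21 : c 29 ≠ c 19 := fun hh => tr2 hh u2 u17
      have u22 : c 29 ≠ c 1 := fun hh => tr3 hh u11 u18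
      have u23 : c 16 = c 43 := Classical.byContradiction fun hh => X2.n3 a5 hh u20 u15
      have u24 : c 29 = c 43 := Classical.byContradiction fun hh => X2.n3 a51 u21 hh u10
      have u25 : c 29 = c 21 := Classical.byContradiction fun hh => X2.n3 a44 u22 hh u6
      have u26 : c 29 = c 16 := Classical.byContradiction fun hh => tr3 u24 u23 hh
      have u27 : c 38 = c 29 := Classical.byContradiction fun hh => tr3 u19 u25 hh
      X2.n13 a111 u27 u26
  have k3855 : c 19 = c 32 → c 18 ≠ c 35 → False := fun n0 n1 =>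
      have u0 : c 19 = c 11 := Classical.byContradiction fun hh => k3834 hh
      have u1 : c 19 = c 10 := Classical.byContradiction fun hh => k3833 hh
      have u2 : c 19 = c 1 := Classical.byContradiction fun hh => k3814 hh
      have u3 : c 43 = c 32 := Classical.byContradiction fun hh => k3854 hh n1
      have u4 : c 27 = c 13 := Classical.byContradiction fun hh => k3579 u3 hh
      have u5 : c 32 ≠ c 27 := fun hh => k3526 hh u4
      have u6 : c 35 = c 11 := Classical.byContradiction fun hh => k3852 hh n1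
      have u7 : c 25 ≠ c 35 := fun hh => X2.n13 a29 hh u6
      have u8 : c 19 = c 35 := Classical.byContradiction fun hh => tr3 u0 u6 hh
      have u9 : c 35 = c 1 := Classical.byContradiction fun hh => tr1 u8 u2 hh
      have u10 : c 25 ≠ c 1 := fun hh => tr3 hh u9 u7
      have u11 : c 35 ≠ c 27 := fun hh => X2.n13 a90 hh u4
      have u12 : c 1 ≠ c 27 := fun hh => tr2 u9 hh u11
      have u13 : c 25 = c 27 := Classical.byContradiction fun hh => X2.n3 a27 u10 hh u12
      have u14 : c 25 ≠ c 32 := fun hh => tr1 hh u13 u5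
      have u15 : c 34 ≠ c 19 := fun hh => X2.n13 a84 hh u8
      have u16 : c 34 ≠ c 1 := fun hh => tr3 hh u2 u15
      have u17 : c 1 ≠ c 21 := fun hh => k3516 u9 hh
      have u18 : c 21 = c 13 := Classical.byContradiction fun hh => k3624 u3 hh
      have u19 : c 1 ≠ c 13 := fun hh => tr3 hh u18 u17
      have u20 : c 34 = c 13 := Classical.byContradiction fun hh => X2.n3 a81 u16 hh u19
      have u21 : c 34 = c 27 := Classical.byContradiction fun hh => tr3 u20 u4 hh
      have u22 : c 34 = c 25 := Classical.byContradiction fun hh => tr3 u21 u13 hh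
      have u23 : c 34 = c 21 := Classical.byContradiction fun hh => tr3 u20 u18 hh
      have u24 : c 34 ≠ c 4 := fun hh => X2.n12 a82 hh u23
      have u25 : c 25 ≠ c 4 := fun hh => tr2 u22 hh u24
      have u26 : c 32 = c 4 := Classical.byContradiction fun hh => X2.n3 a28 u14 u25 hh
      have u27 : c 43 = c 4 := Classical.byContradiction fun hh => tr2 u3 u26 hh
      have u28 : c 25 = c 21 := Classical.byContradiction fun hh => tr1 u22 u23 hh
      have u29 : c 34 ≠ c 10 := fun hh => tr3 hh u1 u15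
      have u30 : c 10 ≠ c 21 := fun hh => tr3 u23 hh u29
      have u31 : c 43 ≠ c 13 := fun hh => k3505 u3 hh
      have u32 : c 43 ≠ c 27 := fun hh => tr2 hh u4 u31
      have u33 : c 43 ≠ c 22 := fun hh => X2.n12 a156 u3 hh
      have u34 : c 13 = c 22 := Classical.byContradiction fun hh => X2.n3 a153 u31 u33 hh
      have u35 : c 32 ≠ c 22 := fun hh => X2.n13 a156 u3 hh
      have u36 : c 39 ≠ c 19 := fun hh => X2.n13 a117 hh n0
      have u37 : c 38 ≠ c 19 := fun hh => X2.n13 a108 hh n0
      have u38 : c 19 = c 43 := Classical.byContradiction fun hh => tr3 n0 u3 hh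
      have u39 : c 10 = c 32 := Classical.byContradiction fun hh => tr1 u1 n0 hh
      have u40 : c 39 ≠ c 10 := fun hh => tr3 hh u1 u36
      have u41 : c 38 ≠ c 10 := fun hh => tr3 hh u1 u37
      have u42 : c 29 ≠ c 19 := fun hh => X2.n13 a51 hh u38
      have u43 : c 29 ≠ c 43 := fun hh => X2.n23 a51 hh u38
      have u44 : c 10 ≠ c 22 := fun hh => tr1 u39 hh u35
      have u45 : c 38 = c 21 := Classical.byContradiction fun hh => X2.n3 a103 u41 hh u30
      have u46 : c 29 ≠ c 1 := fun hh => tr3 hh u2 u42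
      have u47 : c 29 = c 27 := Classical.byContradiction fun hh => k3562 u27 hh u43 u32
      have u48 : c 39 = c 22 := Classical.byContradiction fun hh => X2.n3 a115 u40 hh u44
      have u49 : c 38 = c 25 := Classical.byContradiction fun hh => tr3 u45 u28 hh
      have u50 : c 29 = c 21 := Classical.byContradiction fun hh => X2.n3 a44 u46 hh u17
      have u51 : c 29 = c 13 := Classical.byContradiction fun hh => tr2 u47 u4 hh
      have u52 : c 39 = c 13 := Classical.byContradiction fun hh => tr3 u48 u34 hh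
      have u53 : c 38 ≠ c 39 := fun hh => X2.n12 a113 hh u49
      have u54 : c 38 = c 29 := Classical.byContradiction fun hh => tr3 u45 u50 hh
      have u55 : c 39 = c 29 := Classical.byContradiction fun hh => tr3 u52 u51 hh
      tr3 u54 u55 u53
  have k3856 : c 18 ≠ c 35 → False := fun n0 =>
      have u0 : c 19 = c 11 := Classical.byContradiction fun hh => k3834 hh
      have u1 : c 19 = c 1 := Classical.byContradiction fun hh => k3814 hh
      have u2 : c 19 = c 10 := Classical.byContradiction fun hh => k3833 hh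
      have u3 : c 35 = c 11 := Classical.byContradiction fun hh => k3852 hh n0
      have u4 : c 25 ≠ c 35 := fun hh => X2.n13 a29 hh u3
      have u5 : c 19 = c 35 := Classical.byContradiction fun hh => tr3 u0 u3 hh
      have u6 : c 34 ≠ c 19 := fun hh => X2.n13 a84 hh u5
      have u7 : c 35 = c 1 := Classical.byContradiction fun hh => tr1 u5 u1 hh
      have u8 : c 34 ≠ c 1 := fun hh => tr3 hh u1 u6
      have u9 : c 1 ≠ c 21 := fun hh => k3516 u7 hh
      have u10 : c 25 ≠ c 1 := fun hh => tr3 hh u7 u4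
      have u11 : c 43 = c 32 := Classical.byContradiction fun hh => k3854 hh n0
      have u12 : c 32 ≠ c 21 := fun hh => X2.n13 a155 u11 hh
      have u13 : c 43 ≠ c 13 := fun hh => k3505 u11 hh
      have u14 : c 27 = c 13 := Classical.byContradiction fun hh => k3579 u11 hh
      have u15 : c 21 = c 13 := Classical.byContradiction fun hh => k3624 u11 hh
      have u16 : c 35 ≠ c 27 := fun hh => X2.n13 a90 hh u14
      have u17 : c 32 ≠ c 27 := fun hh => k3526 hh u14
      have u18 : c 43 ≠ c 27 := fun hh => tr2 hh u14 u13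
      have u19 : c 1 ≠ c 13 := fun hh => tr3 hh u15 u9
      have u20 : c 1 ≠ c 27 := fun hh => tr2 u7 hh u16
      have u21 : c 34 = c 13 := Classical.byContradiction fun hh => X2.n3 a81 u8 hh u19
      have u22 : c 25 = c 27 := Classical.byContradiction fun hh => X2.n3 a27 u10 hh u20
      have u23 : c 34 = c 21 := Classical.byContradiction fun hh => tr3 u21 u15 hh
      have u24 : c 34 = c 27 := Classical.byContradiction fun hh => tr3 u21 u14 hh
      have u25 : c 34 = c 25 := Classical.byContradiction fun hh => tr3 u24 u22 hh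
      have u26 : c 25 ≠ c 32 := fun hh => tr1 hh u22 u17
      have u27 : c 34 ≠ c 4 := fun hh => X2.n12 a82 hh u23
      have u28 : c 10 ≠ c 27 := fun hh => X2.n23 a83 u24 hh
      have u29 : c 25 ≠ c 4 := fun hh => tr2 u25 hh u27
      have u30 : c 32 = c 4 := Classical.byContradiction fun hh => X2.n3 a28 u26 u29 hh
      have u31 : c 43 = c 4 := Classical.byContradiction fun hh => tr2 u11 u30 hh
      have u32 : c 19 ≠ c 32 := fun hh => k3855 hh n0
      have u33 : c 32 ≠ c 1 := fun hh => tr3 u1 hh u32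
      have u34 : c 10 ≠ c 32 := fun hh => tr2 u2 hh u32
      have u35 : c 29 ≠ c 32 := fun hh => k3773 hh u33 u12 u9
      have u36 : c 29 ≠ c 43 := fun hh => tr2 hh u11 u35
      have u37 : c 29 = c 10 := Classical.byContradiction fun hh => X2.n3 a48 hh u35 u34
      have u38 : c 29 = c 27 := Classical.byContradiction fun hh => k3562 u31 hh u36 u18
      tr1 u37 u38 u28
  have k3857 : c 18 = c 4 → False := fun n0 =>
      have u0 : c 18 = c 35 := Classical.byContradiction fun hh => k3856 hh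
      X2.n12 a12 u0 n0
  have k3859 : c 34 = c 35 → False := fun n0 =>
      have u0 : c 18 = c 35 := Classical.byContradiction fun hh => k3856 hh
      k3495 n0 u0
  have k3860 : c 38 ≠ c 19 → c 19 ≠ c 32 → c 43 = c 32 → False := fun n0 n1 n2 =>
      have u0 : c 19 = c 11 := Classical.byContradiction fun hh => k3834 hh
      have u1 : c 34 ≠ c 35 := fun hh => k3859 hh
      have u2 : c 19 = c 1 := Classical.byContradiction fun hh => k3814 hh
      have u3 : c 19 = c 10 := Classical.byContradiction fun hh => k3833 hh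
      have u4 : c 21 = c 13 := Classical.byContradiction fun hh => k3624 n2 hh
      have u5 : c 32 ≠ c 21 := fun hh => X2.n13 a155 n2 hh
      have u6 : c 38 ≠ c 10 := fun hh => tr3 hh u3 n0
      have u7 : c 38 ≠ c 11 := fun hh => tr3 hh u0 n0
      have u8 : c 38 = c 32 := Classical.byContradiction fun hh => X2.n3 a108 n0 hh n1
      have u9 : c 38 ≠ c 21 := fun hh => tr1 u8 hh u5
      have u10 : c 10 = c 21 := Classical.byContradiction fun hh => X2.n3 a103 u6 u9 hh
      have u11 : c 11 = c 21 := Classical.byContradiction fun hh => X2.n3 a105 u7 u9 hh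
      have u12 : c 35 ≠ c 11 := fun hh => k3529 hh u11
      have u13 : c 19 ≠ c 35 := fun hh => tr1 hh u0 u12
      have u14 : c 34 = c 19 := Classical.byContradiction fun hh => X2.n3 a84 hh u1 u13
      have u15 : c 34 = c 1 := Classical.byContradiction fun hh => tr2 u14 u2 hh
      have u16 : c 34 = c 10 := Classical.byContradiction fun hh => tr2 u14 u3 hh
      have u17 : c 34 ≠ c 13 := fun hh => X2.n12 a81 u15 hh
      have u18 : c 34 = c 21 := Classical.byContradiction fun hh => tr2 u16 u10 hh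
      tr2 u18 u4 u17
  have k3861 : c 19 ≠ c 32 → c 43 = c 32 → False := fun n0 n1 =>
      have u0 : c 31 ≠ c 15 := fun hh => k3813 hh
      have u1 : c 41 ≠ c 15 := fun hh => k3762 hh
      have u2 : c 19 = c 11 := Classical.byContradiction fun hh => k3834 hh
      have u3 : c 19 = c 1 := Classical.byContradiction fun hh => k3814 hh
      have u4 : c 31 ≠ c 19 := fun hh => k3811 hh
      have u5 : c 41 = c 31 := Classical.byContradiction fun hh => k3809 hh
      have u6 : c 21 = c 15 := Classical.byContradiction fun hh => k3793 n1 hh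
      have u7 : c 41 ≠ c 21 := fun hh => tr2 hh u6 u1
      have u8 : c 31 ≠ c 21 := fun hh => tr2 hh u6 u0
      have u9 : c 21 = c 13 := Classical.byContradiction fun hh => k3624 n1 hh
      have u10 : c 32 ≠ c 21 := fun hh => X2.n13 a155 n1 hh
      have u11 : c 43 ≠ c 21 := fun hh => X2.n12 a155 n1 hh
      have u12 : c 19 ≠ c 43 := fun hh => tr2 hh n1 n0
      have u13 : c 32 ≠ c 1 := fun hh => tr3 u3 hh n0
      have u14 : c 32 ≠ c 11 := fun hh => tr3 u2 hh n0
      have u15 : c 38 = c 19 := Classical.byContradiction fun hh => k3860 hh n0 n1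
      have u16 : c 38 = c 11 := Classical.byContradiction fun hh => tr2 u15 u2 hh
      have u17 : c 38 ≠ c 21 := fun hh => X2.n12 a105 u16 hh
      have u18 : c 11 ≠ c 21 := fun hh => X2.n13 a105 u16 hh
      have u19 : c 38 ≠ c 13 := fun hh => tr3 hh u9 u17
      have u20 : c 19 ≠ c 13 := fun hh => tr2 u15 hh u19
      have u21 : c 1 ≠ c 13 := fun hh => tr2 u3 hh u20
      have u22 : c 1 ≠ c 21 := fun hh => tr2 hh u9 u21
      have u23 : c 29 ≠ c 32 := fun hh => k3773 hh u13 u10 u22
      have u24 : c 31 = c 32 := Classical.byContradiction fun hh => k3705 u13 hh n1 u11 u22 u3 u4 u8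
      have u25 : c 29 ≠ c 43 := fun hh => tr2 hh n1 u23
      have u26 : c 29 = c 11 := Classical.byContradiction fun hh => X2.n3 a54 u23 hh u14
      have u27 : c 31 ≠ c 12 := fun hh => X2.n12 a72 u24 hh
      have u28 : c 32 ≠ c 12 := fun hh => X2.n13 a72 u24 hh
      have u29 : c 29 = c 19 := Classical.byContradiction fun hh => X2.n3 a51 hh u25 u12
      have u30 : c 29 ≠ c 21 := fun hh => tr1 u26 hh u18
      have u31 : c 41 ≠ c 12 := fun hh => tr1 u5 hh u27
      have u32 : c 19 = c 12 := Classical.byContradiction fun hh => k3698 n1 u28 n0 hh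
      have u33 : c 12 = c 21 := Classical.byContradiction fun hh => X2.n3 a133 u31 u7 hh
      have u34 : c 29 = c 12 := Classical.byContradiction fun hh => tr2 u29 u32 hh
      tr2 u34 u33 u30
  have k3862 : c 43 = c 32 → False := fun n0 =>
      have u0 : c 31 ≠ c 15 := fun hh => k3813 hh
      have u1 : c 31 ≠ c 19 := fun hh => k3811 hh
      have u2 : c 19 = c 10 := Classical.byContradiction fun hh => k3833 hh
      have u3 : c 19 = c 11 := Classical.byContradiction fun hh => k3834 hh
      have u4 : c 34 ≠ c 35 := fun hh => k3859 hh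
      have u5 : c 19 = c 1 := Classical.byContradiction fun hh => k3814 hh
      have u6 : c 18 ≠ c 4 := fun hh => k3857 hh
      have u7 : c 18 = c 35 := Classical.byContradiction fun hh => k3856 hh
      have u8 : c 32 ≠ c 21 := fun hh => X2.n13 a155 n0 hh
      have u9 : c 43 ≠ c 22 := fun hh => X2.n12 a156 n0 hh
      have u10 : c 32 ≠ c 22 := fun hh => X2.n13 a156 n0 hh
      have u11 : c 43 ≠ c 13 := fun hh => k3505 n0 hh
      have u12 : c 27 = c 13 := Classical.byContradiction fun hh => k3579 n0 hh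
      have u13 : c 21 = c 13 := Classical.byContradiction fun hh => k3624 n0 hh
      have u14 : c 21 = c 15 := Classical.byContradiction fun hh => k3793 n0 hh
      have u15 : c 13 = c 22 := Classical.byContradiction fun hh => X2.n3 a153 u11 u9 hh
      have u16 : c 35 ≠ c 13 := fun hh => X2.n23 a90 hh u12
      have u17 : c 32 ≠ c 27 := fun hh => k3526 hh u12
      have u18 : c 31 ≠ c 21 := fun hh => tr2 hh u14 u0
      have u19 : c 18 ≠ c 13 := fun hh => tr1 u7 hh u16
      have u20 : c 19 = c 32 := Classical.byContradiction fun hh => k3861 hh n0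
      have u21 : c 39 ≠ c 19 := fun hh => X2.n13 a117 hh u20
      have u22 : c 38 ≠ c 19 := fun hh => X2.n13 a108 hh u20
      have u23 : c 19 ≠ c 2 := fun hh => X2.n12 a18 u20 hh
      have u24 : c 19 = c 43 := Classical.byContradiction fun hh => tr3 u20 n0 hh
      have u25 : c 32 = c 1 := Classical.byContradiction fun hh => tr1 u20 u5 hh
      have u26 : c 31 ≠ c 32 := fun hh => tr3 hh u20 u1
      have u27 : c 10 = c 32 := Classical.byContradiction fun hh => tr1 u2 u20 hh
      have u28 : c 39 ≠ c 10 := fun hh => tr3 hh u2 u21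
      have u29 : c 38 ≠ c 10 := fun hh => tr3 hh u2 u22
      have u30 : c 11 ≠ c 2 := fun hh => tr2 u3 hh u23
      have u31 : c 29 ≠ c 19 := fun hh => X2.n13 a51 hh u24
      have u32 : c 19 ≠ c 12 := fun hh => X2.n12 a21 u24 hh
      have u33 : c 18 ≠ c 1 := fun hh => X2.n23 a11 hh u25
      have u34 : c 1 ≠ c 21 := fun hh => tr2 u25 hh u8
      have u35 : c 1 ≠ c 27 := fun hh => tr2 u25 hh u17
      have u36 : c 10 ≠ c 21 := fun hh => tr1 u27 hh u8
      have u37 : c 10 ≠ c 22 := fun hh => tr1 u27 hh u10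
      have u38 : c 39 = c 22 := Classical.byContradiction fun hh => X2.n3 a115 u28 hh u37
      have u39 : c 18 ≠ c 11 := fun hh => k3837 u31 u35 hh
      have u40 : c 32 ≠ c 12 := fun hh => tr2 u20 hh u32
      have u41 : c 35 ≠ c 1 := fun hh => tr2 u7 hh u33
      have u42 : c 38 = c 21 := Classical.byContradiction fun hh => X2.n3 a103 u29 hh u36
      have u43 : c 39 = c 13 := Classical.byContradiction fun hh => tr3 u38 u15 hh
      have u44 : c 35 ≠ c 11 := fun hh => tr2 u7 hh u39
      have u45 : c 31 = c 12 := Classical.byContradiction fun hh => X2.n3 a72 u26 hh u40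
      have u46 : c 19 ≠ c 35 := fun hh => tr1 hh u5 u41
      have u47 : c 38 ≠ c 35 := fun hh => k3520 hh u42
      have u48 : c 4 ≠ c 13 := fun hh => X2.n23 a114 u43 hh
      have u49 : c 35 = c 2 := Classical.byContradiction fun hh => X2.n3 a88 u44 hh u30
      have u50 : c 34 = c 19 := Classical.byContradiction fun hh => X2.n3 a84 hh u4 u46
      have u51 : c 38 ≠ c 18 := fun hh => tr2 hh u7 u47
      have u52 : c 4 ≠ c 21 := fun hh => tr2 hh u13 u48
      have u53 : c 21 ≠ c 2 := fun hh => k3496 u49 hh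
      have u54 : c 18 = c 2 := Classical.byContradiction fun hh => tr2 u7 u49 hh
      have u55 : c 34 = c 1 := Classical.byContradiction fun hh => tr2 u50 u5 hh
      have u56 : c 18 = c 8 := Classical.byContradiction fun hh => k3846 u51 hh u19 u13 u8 u39
      have u57 : c 31 = c 2 := Classical.byContradiction fun hh => X2.n3 a68 u18 hh u53
      have u58 : c 34 ≠ c 26 := fun hh => k3549 hh u55
      have u59 : c 34 ≠ c 21 := fun hh => tr1 u55 hh u34
      have u60 : c 8 ≠ c 4 := fun hh => tr2 u56 hh u6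
      have u61 : c 18 = c 31 := Classical.byContradiction fun hh => tr3 u54 u57 hh
      have u62 : c 34 = c 4 := Classical.byContradiction fun hh => X2.n3 a82 hh u59 u52
      have u63 : c 31 = c 8 := Classical.byContradiction fun hh => tr1 u61 u56 hh
      have u64 : c 18 = c 12 := Classical.byContradiction fun hh => tr2 u61 u45 hh
      have u65 : c 26 ≠ c 4 := fun hh => tr3 u62 hh u58
      have u66 : c 31 ≠ c 4 := fun hh => tr1 u63 hh u60
      have u67 : c 35 = c 12 := Classical.byContradiction fun hh => tr1 u7 u64 hh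
      have u68 : c 26 = c 31 := Classical.byContradiction fun hh => X2.n3 a32 hh u65 u66
      have u69 : c 26 ≠ c 12 := fun hh => X2.n23 a34 hh u67
      tr2 u68 u45 u69
  have k3863 : c 21 = c 13 → False := fun n0 =>
      have u0 : c 43 ≠ c 32 := fun hh => k3862 hh
      k3580 n0 u0
  have k3865 : c 19 = c 32 → False := fun n0 =>
      have u0 : c 43 ≠ c 32 := fun hh => k3862 hh
      have u1 : c 19 = c 10 := Classical.byContradiction fun hh => k3833 hh
      have u2 : c 18 = c 35 := Classical.byContradiction fun hh => k3856 hh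
      have u3 : c 19 = c 1 := Classical.byContradiction fun hh => k3814 hh
      have u4 : c 38 ≠ c 19 := fun hh => X2.n13 a108 hh n0
      have u5 : c 19 ≠ c 43 := fun hh => tr1 hh n0 u0
      have u6 : c 32 = c 1 := Classical.byContradiction fun hh => tr1 n0 u3 hh
      have u7 : c 10 = c 32 := Classical.byContradiction fun hh => tr1 u1 n0 hh
      have u8 : c 18 ≠ c 10 := fun hh => k3758 n0 hh u1 u3
      have u9 : c 43 ≠ c 10 := fun hh => tr3 u1 hh u5
      have u10 : c 18 ≠ c 1 := fun hh => X2.n23 a11 hh u6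
      have u11 : c 29 ≠ c 10 := fun hh => X2.n13 a48 hh u7
      have u12 : c 18 = c 43 := Classical.byContradiction fun hh => X2.n3 a14 hh u8 u9
      have u13 : c 35 ≠ c 1 := fun hh => tr2 u2 hh u10
      have u14 : c 29 ≠ c 19 := fun hh => tr2 hh u1 u11
      have u15 : c 29 = c 43 := Classical.byContradiction fun hh => X2.n3 a51 u14 hh u5
      have u16 : c 8 ≠ c 43 := fun hh => k3535 u15 hh
      have u17 : c 29 = c 18 := Classical.byContradiction fun hh => tr3 u15 u12 hh
      have u18 : c 18 ≠ c 8 := fun hh => tr1 hh u12 u16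
      have u19 : c 38 ≠ c 18 := fun hh => X2.n23 a112 hh u17
      have u20 : c 38 = c 8 := Classical.byContradiction fun hh => X2.n3 a107 u19 hh u18
      have u21 : c 8 ≠ c 35 := fun hh => tr3 u2 hh u18
      have u22 : c 8 ≠ c 19 := fun hh => tr2 u20 hh u4
      have u23 : c 8 = c 1 := Classical.byContradiction fun hh => X2.n3 a1 u21 hh u13
      tr3 u23 u3 u22
  have k3866 : c 32 = c 1 → False := fun n0 =>
      have u0 : c 19 ≠ c 32 := fun hh => k3865 hh
      have u1 : c 19 = c 1 := Classical.byContradiction fun hh => k3814 hh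
      tr3 u1 n0 u0
  have k3869 : c 18 = c 43 → False := fun n0 =>
      have u0 : c 32 ≠ c 1 := fun hh => k3866 hh
      have u1 : c 43 ≠ c 32 := fun hh => k3862 hh
      k3851 n0 u0 u1
  have k3870 : c 35 ≠ c 11 → c 38 = c 32 → False := fun n0 n1 =>
      have u0 : c 19 = c 11 := Classical.byContradiction fun hh => k3834 hh
      have u1 : c 19 = c 1 := Classical.byContradiction fun hh => k3814 hh
      have u2 : c 19 ≠ c 32 := fun hh => k3865 hh
      have u3 : c 43 ≠ c 32 := fun hh => k3862 hh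
      have u4 : c 18 = c 35 := Classical.byContradiction fun hh => k3856 hh
      have u5 : c 32 ≠ c 1 := fun hh => k3866 hh
      have u6 : c 19 ≠ c 35 := fun hh => tr1 hh u0 n0
      have u7 : c 18 ≠ c 11 := fun hh => tr1 u4 hh n0
      have u8 : c 35 ≠ c 1 := fun hh => tr3 u1 hh u6
      have u9 : c 38 ≠ c 18 := fun hh => k3848 u2 hh u3 u7
      have u10 : c 18 ≠ c 1 := fun hh => tr1 u4 hh u8
      have u11 : c 18 ≠ c 32 := fun hh => tr3 n1 hh u9
      X2.n3 a11 u11 u10 u5
  have k3871 : c 35 ≠ c 2 → c 19 = c 35 → False := fun n0 n1 =>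
      have u0 : c 18 ≠ c 43 := fun hh => k3869 hh
      have u1 : c 43 ≠ c 32 := fun hh => k3862 hh
      have u2 : c 18 = c 35 := Classical.byContradiction fun hh => k3856 hh
      have u3 : c 19 ≠ c 32 := fun hh => k3865 hh
      have u4 : c 19 = c 1 := Classical.byContradiction fun hh => k3814 hh
      have u5 : c 19 ≠ c 2 := fun hh => tr1 n1 hh n0
      have u6 : c 35 = c 1 := Classical.byContradiction fun hh => tr1 n1 u4 hh
      have u7 : c 1 ≠ c 2 := fun hh => tr2 u4 hh u5
      have u8 : c 32 = c 2 := Classical.byContradiction fun hh => X2.n3 a18 u3 u5 hh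
      have u9 : c 18 = c 1 := Classical.byContradiction fun hh => tr2 u2 u6 hh
      have u10 : c 43 ≠ c 2 := fun hh => tr3 hh u8 u1
      have u11 : c 43 ≠ c 1 := fun hh => tr3 u9 hh u0
      X2.n3 a150 u11 u10 u7
  have k3872 : c 35 = c 11 → False := fun n0 =>
      have u0 : c 19 = c 11 := Classical.byContradiction fun hh => k3834 hh
      have u1 : c 35 ≠ c 2 := fun hh => X2.n12 a88 n0 hh
      have u2 : c 19 = c 35 := Classical.byContradiction fun hh => tr3 u0 n0 hh
      k3871 u1 u2
  have k3873 : c 19 = c 35 → False := fun n0 =>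
      have u0 : c 35 ≠ c 11 := fun hh => k3872 hh
      have u1 : c 19 = c 11 := Classical.byContradiction fun hh => k3834 hh
      tr1 n0 u1 u0
  have k3874 : c 18 = c 11 → False := fun n0 =>
      have u0 : c 35 ≠ c 11 := fun hh => k3872 hh
      have u1 : c 18 = c 35 := Classical.byContradiction fun hh => k3856 hh
      tr1 u1 n0 u0
  have k3875 : c 38 = c 32 → False := fun n0 =>
      have u0 : c 35 ≠ c 11 := fun hh => k3872 hh
      k3870 u0 n0
  have k3877 : c 34 ≠ c 19 → False := fun n0 =>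
      have u0 : c 19 ≠ c 35 := fun hh => k3873 hh
      have u1 : c 34 ≠ c 35 := fun hh => k3859 hh
      X2.n3 a84 n0 u1 u0
  have k3878 : c 43 ≠ c 11 → False := fun n0 =>
      have u0 : c 18 ≠ c 11 := fun hh => k3874 hh
      have u1 : c 18 ≠ c 43 := fun hh => k3869 hh
      X2.n3 a15 u1 u0 n0
  have k3880 : c 38 ≠ c 19 → False := fun n0 =>
      have u0 : c 38 ≠ c 32 := fun hh => k3875 hh
      have u1 : c 19 ≠ c 32 := fun hh => k3865 hh
      X2.n3 a108 n0 u0 u1
  have k3882 : c 34 ≠ c 1 → False := fun n0 =>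
      have u0 : c 34 = c 19 := Classical.byContradiction fun hh => k3877 hh
      have u1 : c 19 = c 1 := Classical.byContradiction fun hh => k3814 hh
      tr2 u0 u1 n0
  have k3886 : c 19 ≠ c 43 → False := fun n0 =>
      have u0 : c 43 = c 11 := Classical.byContradiction fun hh => k3878 hh
      have u1 : c 19 = c 11 := Classical.byContradiction fun hh => k3834 hh
      tr3 u1 u0 n0
  have k3892 : c 38 ≠ c 10 → False := fun n0 =>
      have u0 : c 38 = c 19 := Classical.byContradiction fun hh => k3880 hh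
      have u1 : c 19 = c 10 := Classical.byContradiction fun hh => k3833 hh
      tr2 u0 u1 n0
  have k3895 : c 1 = c 13 → False := fun n0 =>
      have u0 : c 34 = c 1 := Classical.byContradiction fun hh => k3882 hh
      X2.n13 a81 u0 n0
  have k3904 : c 43 ≠ c 1 → False := fun n0 =>
      have u0 : c 19 = c 43 := Classical.byContradiction fun hh => k3886 hh
      have u1 : c 19 = c 1 := Classical.byContradiction fun hh => k3814 hh
      tr1 u0 u1 n0
  have k3905 : c 43 ≠ c 10 → False := fun n0 =>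
      have u0 : c 19 = c 43 := Classical.byContradiction fun hh => k3886 hh
      have u1 : c 19 = c 10 := Classical.byContradiction fun hh => k3833 hh
      tr1 u0 u1 n0
  have k3912 : c 10 = c 21 → False := fun n0 =>
      have u0 : c 38 = c 10 := Classical.byContradiction fun hh => k3892 hh
      X2.n13 a103 u0 n0
  have k3916 : c 43 = c 13 → False := fun n0 =>
      have u0 : c 1 ≠ c 13 := fun hh => k3895 hh
      have u1 : c 43 = c 1 := Classical.byContradiction fun hh => k3904 hh
      tr1 u1 n0 u0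
  have k3929 : c 43 = c 21 → False := fun n0 =>
      have u0 : c 43 = c 10 := Classical.byContradiction fun hh => k3905 hh
      have u1 : c 10 ≠ c 21 := fun hh => k3912 hh
      tr1 u0 n0 u1
  exact (
      have u0 : c 43 ≠ c 13 := fun hh => k3916 hh
      have u1 : c 43 ≠ c 21 := fun hh => k3929 hh
      have u2 : c 21 ≠ c 13 := fun hh => k3863 hh
      X2.n3 a154 u1 u0 u2
  )

end Pool.Agent.H998R3
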