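import Pool.Agent.H998R3.LA

set_option autoImplicit false

namespace Pool.Agent.H998R3

open Filter

noncomputable def pt (n : ℕ) (X : ℕ → ℤ) : EuclideanSpace ℝ (Fin n) :=
  WithLp.toLp 2 (fun i : Fin n => (X i : ℝ) / Real.sqrt 1344)

theorem pt_dist (n : ℕ) (X Y : ℕ → ℤ) (D : ℤ) (h : ∑ i ∈ Finset.range n, (Y i - X i) ^ 2 = D) :
    dist (pt n X) (pt n Y) = Real.sqrt (D / 1344) := by
  rw [EuclideanSpace.dist_eq]
  congr 1
  rw [← h, Finset.sum_range]
  push_cast
  rw [Finset.sum_div]
  apply Finset.sum_congr rfl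
  intro i _
  simp only [pt, Real.dist_eq, sq_abs]
  have : Real.sqrt 1344 ^ 2 = 1344 := Real.sq_sqrt (by norm_num)
  have h2 : Real.sqrt 1344 ≠ 0 := by positivity
  rw [← sub_div, div_pow, this]
  ring

def FS (X : ℕ → ℤ) : Prop := ∀ᶠ i in atTop, X i = 0

theorem FS_update {X : ℕ → ℤ} (h : FS X) (i : ℕ) (a : ℤ) : FS (Function.update X i a) := by
  unfold FS at *
  filter_upwards [h, eventually_gt_atTop i] with j h1 h2
  rw [Function.update_of_ne (by omega)]
  exact h1

theorem FS_zero : FS 0 := by simp [FS]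

section
variable (χ : ∀ n, EuclideanSpace ℝ (Fin n) → ℝ)

def E0 (X Y : ℕ → ℤ) : Prop :=
  ∀ᶠ n in (hyperfilter ℕ : Filter ℕ), χ n (pt n X) = χ n (pt n Y)

def RR : List (ℤ × ℤ) → (ℕ → ℤ) → (ℕ → ℤ) → Prop
  | [], X, Y => E0 χ X Y
  | p :: L, X, Y => ∀ᶠ i in (hyperfilter ℕ : Filter ℕ),
      RR L (Function.update X i p.1) (Function.update Y i p.2)

theorem RR_refl (l : List ℤ) : ∀ X, RR χ (l.map fun a => (a, a)) X X := by
  induction l with
  | nil => intro X; exact Eventually.of_forall fun n => rfl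
  | cons a l ih => intro X; exact Eventually.of_forall fun i => ih _

theorem RR_symm (L : List (ℤ × ℤ)) : ∀ X Y, RR χ L X Y → RR χ (L.map Prod.swap) Y X := by
  induction L with
  | nil => intro X Y h; exact Eventually.mono h fun n hn => hn.symm
  | cons a l ih => intro X Y h; exact Eventually.mono h fun i hi => ih _ _ hi

theorem RR_trans (T : List (ℤ × ℤ × ℤ)) : ∀ X Y Z, RR χ (T.map fun t => (t.1, t.2.1)) X Y →
    RR χ (T.map fun t => (t.2.1, t.2.2)) Y Z → RR χ (T.map fun t => (t.1, t.2.2)) X Z := by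
  induction T with
  | nil =>
    intro X Y Z h1 h2
    exact (h1.and h2).mono fun n hn => hn.1.trans hn.2
  | cons t T ih =>
    intro X Y Z h1 h2
    exact (Eventually.and h1 h2).mono fun i hi => ih _ _ _ hi.1 hi.2

theorem ev_of_atTop {p : ℕ → Prop} (h : ∀ᶠ i in atTop, p i) :
    ∀ᶠ i in (hyperfilter ℕ : Filter ℕ), p i := Nat.hyperfilter_le_atTop h

theorem RR_zero (L : List (ℤ × ℤ)) : ∀ X Y, FS X → FS Y →
    (RR χ L X Y ↔ RR χ (L.filter nz) X Y) := by
  induction L with
  | nil => intro X Y _ _; rfl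
  | cons p L ih =>
    intro X Y hX hY
    by_cases hp : p = (0, 0)
    · subst hp
      have e : ((0, 0) :: L : List (ℤ × ℤ)).filter nz = L.filter nz := by simp [List.filter_cons]
      rw [e, ← ih X Y hX hY]
      have h1 : RR χ ((0, 0) :: L) X Y ↔ ∀ᶠ i in (hyperfilter ℕ : Filter ℕ), RR χ L X Y := by
        apply eventually_congr
        filter_upwards [ev_of_atTop hX, ev_of_atTop hY] with i h1 h2
        have e1 : Function.update X i 0 = X := by rw [← h1]; exact Function.update_eq_self i X
        have e2 : Function.update Y i 0 = Y := by rw [← h2]; exact Function.update_eq_self i Y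
        simp only [e1, e2]
      rw [h1, eventually_const]
    · have e : (p :: L).filter nz = p :: L.filter nz := by
        rw [List.filter_cons_of_pos]
        simpa [nz] using hp
      rw [e]
      apply eventually_congr
      exact Eventually.of_forall fun i => ih _ _ (FS_update hX i _) (FS_update hY i _)

theorem sum_update (X Y : ℕ → ℤ) (i : ℕ) (a b : ℤ) (hX : X i = 0) (hY : Y i = 0) (n : ℕ)
    (hn : i < n) :
    ∑ j ∈ Finset.range n, (Function.update Y i b j - Function.update X i a j) ^ 2 =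
      ∑ j ∈ Finset.range n, (Y j - X j) ^ 2 + (b - a) ^ 2 := by
  have : ∀ j ∈ Finset.range n, (Function.update Y i b j - Function.update X i a j) ^ 2 =
      (Y j - X j) ^ 2 + if j = i then (b - a) ^ 2 else 0 := by
    intro j _
    by_cases h : j = i
    · subst h; simp [hX, hY]
    · simp [Function.update_of_ne h, h]
  rw [Finset.sum_congr rfl this, Finset.sum_add_distrib, Finset.sum_ite_eq']
  simp [hn]

variable (hχ : ∀ n, ∀ a b c : EuclideanSpace ℝ (Fin n), dist a b = 1 → dist b c = 1 → dist a c = 2 →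
  ¬ ((χ n a = χ n b ∧ χ n b = χ n c) ∨ (χ n a ≠ χ n b ∧ χ n b ≠ χ n c ∧ χ n a ≠ χ n c)))
include hχ

theorem RR_ap (T : List (ℤ × ℤ × ℤ)) : ∀ (X Y Z : ℕ → ℤ) (D : ℤ), FS X → FS Y → FS Z →
    (∀ i, X i + Z i = 2 * Y i) →
    (∀ᶠ n in atTop, ∑ i ∈ Finset.range n, (Y i - X i) ^ 2 = D) →
    (∀ t ∈ T, t.1 + t.2.2 = 2 * t.2.1) →
    D + (T.map fun t => (t.2.1 - t.1) ^ 2).sum = 1344 →
    (RR χ (T.map fun t => (t.1, t.2.1)) X Y ∨ RR χ (T.map fun t => (t.2.1, t.2.2)) Y Z ∨
      RR χ (T.map fun t => (t.1, t.2.2)) X Z) ∧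
    ¬ (RR χ (T.map fun t => (t.1, t.2.1)) X Y ∧ RR χ (T.map fun t => (t.2.1, t.2.2)) Y Z) := by
  induction T with
  | nil =>
    intro X Y Z D hX hY hZ hXZ hD _ hN
    simp only [List.map_nil, List.sum_nil, add_zero] at hN
    subst hN
    have key : ∀ᶠ n in (hyperfilter ℕ : Filter ℕ),
        (χ n (pt n X) = χ n (pt n Y) ∨ (χ n (pt n Y) = χ n (pt n Z) ∨ χ n (pt n X) = χ n (pt n Z))) ∧
        ¬ (χ n (pt n X) = χ n (pt n Y) ∧ χ n (pt n Y) = χ n (pt n Z)) := by
      filter_upwards [ev_of_atTop hD] with n hn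
      have h1 : dist (pt n X) (pt n Y) = 1 := by
        rw [pt_dist n X Y 1344 hn]; norm_num
      have h2 : dist (pt n Y) (pt n Z) = 1 := by
        rw [pt_dist n Y Z 1344 (by
          rw [← hn]; apply Finset.sum_congr rfl; intro i _
          have := hXZ i
          have e : Z i - Y i = Y i - X i := by linarith
          rw [e])]
        norm_num
      have h3 : dist (pt n X) (pt n Z) = 2 := by
        rw [pt_dist n X Z (4 * 1344) (by
          rw [← hn, Finset.mul_sum]; apply Finset.sum_congr rfl; intro i _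
          have := hXZ i
          have e : Z i = 2 * Y i - X i := by linarith
          rw [e]; ring)]
        have : (((4 * 1344 : ℤ) : ℝ) / 1344) = 2 ^ 2 := by norm_num
        rw [this, Real.sqrt_sq (by norm_num)]
      have := hχ n _ _ _ h1 h2 h3
      by_cases a1 : χ n (pt n X) = χ n (pt n Y)
      · by_cases a2 : χ n (pt n Y) = χ n (pt n Z)
        · exact absurd (Or.inl ⟨a1, a2⟩) this
        · exact ⟨Or.inl a1, fun h => a2 h.2⟩
      · refine ⟨?_, fun h => a1 h.1⟩
        by_contra hcon
        simp only [not_or] at hcon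
        exact this (Or.inr hcon)
    constructor
    · have := key.mono fun n hn => hn.1
      rw [Ultrafilter.eventually_or, Ultrafilter.eventually_or] at this
      exact this
    · rintro ⟨h1, h2⟩
      obtain ⟨n, hn⟩ := (key.and (Eventually.and h1 h2)).exists
      exact hn.1.2 hn.2
  | cons t T ih =>
    intro X Y Z D hX hY hZ hXZ hD hT hN
    have key : ∀ᶠ i in (hyperfilter ℕ : Filter ℕ),
        (RR χ (T.map fun t => (t.1, t.2.1)) (Function.update X i t.1) (Function.update Y i t.2.1) ∨
          (RR χ (T.map fun t => (t.2.1, t.2.2)) (Function.update Y i t.2.1) (Function.update Z i t.2.2) ∨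
          RR χ (T.map fun t => (t.1, t.2.2)) (Function.update X i t.1) (Function.update Z i t.2.2))) ∧
        ¬ (RR χ (T.map fun t => (t.1, t.2.1)) (Function.update X i t.1) (Function.update Y i t.2.1) ∧
          RR χ (T.map fun t => (t.2.1, t.2.2)) (Function.update Y i t.2.1) (Function.update Z i t.2.2)) := by
      filter_upwards [ev_of_atTop hX, ev_of_atTop hY] with i h1 h2
      refine ih _ _ _ (D + (t.2.1 - t.1) ^ 2) (FS_update hX i _) (FS_update hY i _) (FS_update hZ i _)
        ?_ ?_ (fun s hs => hT s (by simp [hs])) ?_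
      · intro j
        by_cases hj : j = i
        · subst hj; simp only [Function.update_self]; exact hT t (by simp)
        · simp only [Function.update_of_ne hj]; exact hXZ j
      · filter_upwards [hD, eventually_gt_atTop i] with n hn1 hn2
        rw [sum_update X Y i _ _ h1 h2 n hn2, hn1]
      · rw [List.map_cons, List.sum_cons] at hN
        linarith
    constructor
    · have := key.mono fun n hn => hn.1
      rw [Ultrafilter.eventually_or, Ultrafilter.eventually_or] at this
      exact this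
    · rintro ⟨h1, h2⟩
      obtain ⟨n, hn⟩ := (key.and (Eventually.and h1 h2)).exists
      exact hn.1.2 hn.2

theorem good_of_colouring : Good 1344 (fun L => RR χ L 0 0) where
  refl l := RR_refl χ l 0
  symm L h := RR_symm χ L 0 0 h
  trans T h1 h2 := RR_trans χ T 0 0 0 h1 h2
  zero L := RR_zero χ L 0 0 FS_zero FS_zero
  ap T h hs := RR_ap χ hχ T 0 0 0 0 FS_zero FS_zero FS_zero (by simp) (by simp) h (by simpa using hs)

end

end Pool.Agent.H998R3
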