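import Pool.Agent.H998R3.LL
import Pool.Agent.H998R3.LU

set_option autoImplicit false

namespace Pool.Agent.H998R3

theorem no_good {R : List (ℤ × ℤ) → Prop} (hR : Good 1344 R) : False := by
  apply cert (fun i => col R 1346 (W i))
  intro r hr
  have := List.all_eq_true.1 rows_ok r hr
  exact chk_sound hR 1346 (by norm_num) this

/-- `{0,1,2}` is canonically Ramsey -/
theorem canonical_main :
    ∃ n : ℕ, ∀ χ : EuclideanSpace ℝ (Fin n) → ℝ,
      ∃ a b c : EuclideanSpace ℝ (Fin n),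
        dist a b = 1 ∧ dist b c = 1 ∧ dist a c = 2 ∧
        ((χ a = χ b ∧ χ b = χ c) ∨ (χ a ≠ χ b ∧ χ b ≠ χ c ∧ χ a ≠ χ c)) := by
  by_contra hcon
  have h : ∀ n, ∃ χ : EuclideanSpace ℝ (Fin n) → ℝ, ∀ a b c : EuclideanSpace ℝ (Fin n),
      dist a b = 1 → dist b c = 1 → dist a c = 2 →
      ¬ ((χ a = χ b ∧ χ b = χ c) ∨ (χ a ≠ χ b ∧ χ b ≠ χ c ∧ χ a ≠ χ c)) := by
    intro n
    by_contra h1
    apply hcon
    refine ⟨n, fun χ => ?_⟩
    by_contra h2
    apply h1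
    refine ⟨χ, fun a b c hab hbc hac hh => ?_⟩
    exact h2 ⟨a, b, c, hab, hbc, hac, hh⟩
  choose χ hχ using h
  exact no_good (good_of_colouring χ hχ)

end Pool.Agent.H998R3
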