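import Pool.Agent.H998R3.LM

set_option autoImplicit false

namespace Pool.Agent.H998R3

theorem ap_norm {n : ℕ} (a b c : EuclideanSpace ℝ (Fin n)) (h1 : dist a b = 1) (h2 : dist b c = 1)
    (h3 : dist a c = 2) : ‖a‖ ^ 2 + ‖c‖ ^ 2 = 2 * ‖b‖ ^ 2 + 2 := by
  rw [dist_eq_norm] at h1 h2 h3
  have e3 : (a - b) + (b - c) = a - c := by abel
  have p1 := parallelogram_law_with_norm ℝ (a - b) (b - c)
  rw [e3, h1, h2, h3] at p1
  have z : ‖(a - b) - (b - c)‖ = 0 := by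
    have : ‖(a - b) - (b - c)‖ * ‖(a - b) - (b - c)‖ = 0 := by linarith
    exact mul_self_eq_zero.1 this
  have z2 : a - b = b - c := by
    rw [norm_eq_zero, sub_eq_zero] at z; exact z
  have p2 := parallelogram_law_with_norm ℝ b (a - b)
  have ea : b + (a - b) = a := by abel
  have ec : b - (a - b) = c := by rw [z2]; abel
  rw [ea, ec, h1] at p2
  nlinarith

noncomputable def pp (t : ℝ) : EuclideanSpace ℝ (Fin 1) := EuclideanSpace.single 0 t

theorem pp_dist (s t : ℝ) : dist (pp s) (pp t) = |s - t| := by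
  unfold pp
  rw [EuclideanSpace.dist_single_same, Real.dist_eq]

theorem pp_apply (t : ℝ) : (pp t) 0 = t := by
  simp [pp]

noncomputable def KK : Finset (EuclideanSpace ℝ (Fin 1)) := {pp 0, pp 1, pp 2}

theorem not_ramsey_canonical :
    ¬ (∀ (d : ℕ) (K : Finset (EuclideanSpace ℝ (Fin d))),
      (∃ n : ℕ, ∀ χ : EuclideanSpace ℝ (Fin n) → ℝ,
        ∃ f : EuclideanSpace ℝ (Fin d) → EuclideanSpace ℝ (Fin n),
          (∀ x ∈ K, ∀ y ∈ K, dist (f x) (f y) = dist x y) ∧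
          ((∀ x ∈ K, ∀ y ∈ K, χ (f x) = χ (f y)) ∨
           (∀ x ∈ K, ∀ y ∈ K, x ≠ y → χ (f x) ≠ χ (f y)))) →
      (∀ r : ℕ, ∃ n : ℕ, ∀ χ : EuclideanSpace ℝ (Fin n) → Fin r,
        ∃ f : EuclideanSpace ℝ (Fin d) → EuclideanSpace ℝ (Fin n),
          (∀ x ∈ K, ∀ y ∈ K, dist (f x) (f y) = dist x y) ∧
          (∀ x ∈ K, ∀ y ∈ K, χ (f x) = χ (f y)))) := by
  intro H
  have hcan : ∃ n : ℕ, ∀ χ : EuclideanSpace ℝ (Fin n) → ℝ,
        ∃ f : EuclideanSpace ℝ (Fin 1) → EuclideanSpace ℝ (Fin n),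
          (∀ x ∈ KK, ∀ y ∈ KK, dist (f x) (f y) = dist x y) ∧
          ((∀ x ∈ KK, ∀ y ∈ KK, χ (f x) = χ (f y)) ∨
           (∀ x ∈ KK, ∀ y ∈ KK, x ≠ y → χ (f x) ≠ χ (f y))) := by
    obtain ⟨n, hn⟩ := canonical_main
    refine ⟨n, fun χ => ?_⟩
    obtain ⟨a, b, c, hab, hbc, hac, hcol⟩ := hn χ
    let f : EuclideanSpace ℝ (Fin 1) → EuclideanSpace ℝ (Fin n) :=
      fun x => if x 0 = 0 then a else if x 0 = 1 then b else c
    have f0 : f (pp 0) = a := by simp [f, pp_apply]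
    have f1 : f (pp 1) = b := by simp [f, pp_apply]
    have f2 : f (pp 2) = c := by simp [f, pp_apply]
    refine ⟨f, ?_, ?_⟩
    · intro x hx y hy
      simp only [KK, Finset.mem_insert, Finset.mem_singleton] at hx hy
      rcases hx with rfl | rfl | rfl <;> rcases hy with rfl | rfl | rfl <;>
      simp only [f0, f1, f2, pp_dist, dist_self, hab, hbc, hac, dist_comm b a, dist_comm c b,
        dist_comm c a] <;> norm_num
    · rcases hcol with ⟨h1, h2⟩ | ⟨h1, h2, h3⟩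
      · left
        intro x hx y hy
        simp only [KK, Finset.mem_insert, Finset.mem_singleton] at hx hy
        rcases hx with rfl | rfl | rfl <;> rcases hy with rfl | rfl | rfl <;>
        simp only [f0, f1, f2, h1, h2]
      · right
        intro x hx y hy hxy
        simp only [KK, Finset.mem_insert, Finset.mem_singleton] at hx hy
        rcases hx with rfl | rfl | rfl <;> rcases hy with rfl | rfl | rfl <;>
        first
        | exact absurd rfl hxy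
        | (simp only [f0, f1, f2]; exact h1)
        | (simp only [f0, f1, f2]; exact h2)
        | (simp only [f0, f1, f2]; exact h3)
        | (simp only [f0, f1, f2]; exact h1.symm)
        | (simp only [f0, f1, f2]; exact h2.symm)
        | (simp only [f0, f1, f2]; exact h3.symm)
  obtain ⟨n, hn⟩ := H 1 KK hcan 4
  obtain ⟨f, hf, hm⟩ := hn (fun x => ⟨⌊‖x‖ ^ 2⌋₊ % 4, Nat.mod_lt _ (by norm_num)⟩)
  have m0 : pp 0 ∈ KK := by simp [KK]
  have m1 : pp 1 ∈ KK := by simp [KK]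
  have m2 : pp 2 ∈ KK := by simp [KK]
  have key := ap_norm (f (pp 0)) (f (pp 1)) (f (pp 2))
    (by rw [hf _ m0 _ m1, pp_dist]; norm_num) (by rw [hf _ m1 _ m2, pp_dist]; norm_num)
    (by rw [hf _ m0 _ m2, pp_dist]; norm_num)
  have c1 := hm _ m0 _ m1
  have c2 := hm _ m1 _ m2
  simp only [Fin.mk.injEq] at c1 c2
  set A := ‖f (pp 0)‖ ^ 2
  set B := ‖f (pp 1)‖ ^ 2
  set C := ‖f (pp 2)‖ ^ 2
  have hA : 0 ≤ A := by positivity
  have hB : 0 ≤ B := by positivity
  have hC : 0 ≤ C := by positivity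
  have a1 := Nat.floor_le hA
  have a2 := Nat.lt_floor_add_one A
  have b1 := Nat.floor_le hB
  have b2 := Nat.lt_floor_add_one B
  have d1 := Nat.floor_le hC
  have d2 := Nat.lt_floor_add_one C
  have u1 : ((⌊A⌋₊ + ⌊C⌋₊ : ℕ) : ℝ) < ((2 * ⌊B⌋₊ + 4 : ℕ) : ℝ) := by
    push_cast; linarith
  have u2 : ((2 * ⌊B⌋₊ : ℕ) : ℝ) < ((⌊A⌋₊ + ⌊C⌋₊ : ℕ) : ℝ) := by
    push_cast; linarith
  have u1' := Nat.cast_lt.1 u1
  have u2' := Nat.cast_lt.1 u2
  omega

end Pool.Agent.H998R3
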